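import Pool.Agent.ZT.Lin

/-!
# Groups acting with bounded displacement on graphs
-/

set_option autoImplicit false

namespace Pool.Agent.ZT

open Pool.Agent.Helper29.BA Pool.Agent.Helper29.PA Pool.Agent.T59

variable {C : ∀ (G : Type) [Group G], Prop}

/-- **Graphs with small spheres.** A group which acts faithfully on the vertices of a graph, each
element with bounded displacement, is in the class if in each component there is a vertex whose
spheres have at most `k` vertices. -/
theorem mem_of_spheres (hC : ExtClass C) (G : Type) [Group G] {V : Type} [MulAction G V]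
    [FaithfulSMul G V] (Γ : SimpleGraph V) (k : ℕ)
    (hΓ : ∀ v, ∃ v₀, Γ.Reachable v₀ v ∧ ∀ n : ℕ, {w | Γ.edist v₀ w = n}.encard ≤ k)
    (hG : ∀ g : G, ∃ N : ℕ, ∀ v, Γ.edist v (g • v) ≤ N) : C G := by
  classical
  have h1 : ∀ c : Γ.ConnectedComponent, ∃ v₀, Γ.connectedComponentMk v₀ = c ∧
      ∀ n : ℕ, {w | Γ.edist v₀ w = n}.encard ≤ k := by
    intro c
    induction c using SimpleGraph.ConnectedComponent.ind with
    | h v =>
      obtain ⟨v₀, h, h'⟩ := hΓ v
      exact ⟨v₀, SimpleGraph.ConnectedComponent.sound h, h'⟩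
  choose b hb hbk using h1
  let β : V → V := fun v => b (Γ.connectedComponentMk v)
  have hβ : ∀ v, Γ.Reachable (β v) v := fun v => SimpleGraph.ConnectedComponent.exact (hb _)
  have hβ' : ∀ v w, Γ.Reachable v w → β v = β w := by
    intro v w h
    change b _ = b _
    rw [SimpleGraph.ConnectedComponent.sound h]
  have hr : ∀ (g : G) v, Γ.Reachable v (g • v) := by
    intro g v
    obtain ⟨N, hN⟩ := hG g
    rw [← SimpleGraph.edist_ne_top_iff_reachable]
    exact ne_top_of_le_ne_top (ENat.natCast_ne_top N) (hN v)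
  refine mem_of_rank hC G (fun v => (Γ.dist (β v) v : ℤ)) k (fun s n => ?_) fun g => ?_
  · refine le_trans (Set.encard_le_encard ?_) (hbk (Γ.connectedComponentMk s) n.toNat)
    rintro t ⟨⟨g, rfl⟩, h⟩
    change Γ.edist (β s) (g • s) = _
    change (Γ.dist (β (g • s)) (g • s) : ℤ) = n at h
    rw [← hβ' _ _ (hr g s)] at h
    rw [← h, Int.toNat_natCast, SimpleGraph.Reachable.coe_dist_eq_edist]
    exact (hβ s).trans (hr g s)
  · obtain ⟨N, hN⟩ := hG g
    refine ⟨N, fun s => ?_⟩
    change |(Γ.dist (β (g • s)) (g • s) : ℤ) - Γ.dist (β s) s| ≤ N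
    rw [← hβ' _ _ (hr g s)]
    have h2 : Γ.dist s (g • s) ≤ N := by
      have h3 := hN s
      rw [← (hr g s).coe_dist_eq_edist] at h3
      exact_mod_cast h3
    have h3 := (hβ s).dist_triangle_left (g • s)
    have h4 := ((hr g s).symm).dist_triangle_right (β s)
    rw [SimpleGraph.dist_comm (u := g • s)] at h4
    rw [abs_le]
    constructor <;> omega

/-- In a graph with all degrees at most `2` the spheres have at most two vertices. -/
theorem sphere_le_two {V : Type} (Γ : SimpleGraph V) (hdeg : ∀ v, (Γ.neighborSet v).encard ≤ 2)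
    (v₀ : V) (n : ℕ) : {w | Γ.edist v₀ w = n}.encard ≤ 2 := by
  have h0 : {w | Γ.edist v₀ w = (0 : ℕ)} = {v₀} := by
    ext w
    rw [Set.mem_ofPred_eq, Nat.cast_zero, SimpleGraph.edist_eq_zero_iff, Set.mem_singleton_iff]
    exact eq_comm
  have h1 : {w | Γ.edist v₀ w = (1 : ℕ)} = Γ.neighborSet v₀ := by
    ext w
    rw [Set.mem_ofPred_eq, Nat.cast_one, SimpleGraph.edist_eq_one_iff_adj]
    rfl
  have hpred : ∀ (m : ℕ) w, Γ.edist v₀ w = (m + 1 : ℕ) → ∃ u, Γ.edist v₀ u = m ∧ Γ.Adj u w := by
    intro m w hw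
    obtain ⟨p, hp⟩ := SimpleGraph.exists_walk_of_edist_eq_coe hw
    have hp' : p.reverse.length = m + 1 := by rw [SimpleGraph.Walk.length_reverse, hp]
    generalize p.reverse = q at hp'
    cases q with
    | nil => exact absurd hp' (by simp)
    | cons h q =>
      rename_i u
      rw [SimpleGraph.Walk.length_cons, Nat.add_right_cancel_iff] at hp'
      refine ⟨u, le_antisymm ?_ ?_, h.symm⟩
      · have h2 := Γ.edist_le q.reverse
        rwa [SimpleGraph.Walk.length_reverse, hp'] at h2
      · have h2 := SimpleGraph.edist_triangle (G := Γ) (u := v₀) (v := u) (w := w)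
        rw [hw, SimpleGraph.edist_eq_one_iff_adj.2 h.symm, Nat.cast_add, Nat.cast_one] at h2
        exact (ENat.add_le_add_iff_right ENat.one_ne_top).1 h2
  have hstep : ∀ m : ℕ, {w | Γ.edist v₀ w = (m + 2 : ℕ)}.encard ≤
      {w | Γ.edist v₀ w = (m + 1 : ℕ)}.encard := by
    intro m
    have h2 : ∀ w, ∃ u, Γ.edist v₀ w = (m + 2 : ℕ) → Γ.edist v₀ u = (m + 1 : ℕ) ∧ Γ.Adj u w := by
      intro w
      by_cases hw : Γ.edist v₀ w = (m + 2 : ℕ)
      · obtain ⟨u, hu⟩ := hpred (m + 1) w hw
        exact ⟨u, fun _ => hu⟩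
      · exact ⟨w, fun h => absurd h hw⟩
    choose f hf using h2
    refine Set.encard_le_encard_of_injOn (f := f) (fun w hw => (hf w hw).1) ?_
    intro w hw w' hw' hww
    by_contra hne
    obtain ⟨h3, h4⟩ := hf w hw
    obtain ⟨-, h5⟩ := hf w' hw'
    rw [← hww] at h5
    obtain ⟨u, h6, h7⟩ := hpred m (f w) h3
    have hw1 : Γ.edist v₀ w = (m + 2 : ℕ) := hw
    have hw2 : Γ.edist v₀ w' = (m + 2 : ℕ) := hw'
    have h8 : u ≠ w := by
      rintro rfl
      rw [h6] at hw1
      exact absurd (Nat.cast_injective hw1) (by omega)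
    have h9 : u ≠ w' := by
      rintro rfl
      rw [h6] at hw2
      exact absurd (Nat.cast_injective hw2) (by omega)
    have h10 : ({u, w, w'} : Set V).encard = 3 := by
      rw [Set.encard_insert_of_notMem, Set.encard_pair hne]
      · rfl
      · rintro (h | h)
        · exact h8 h
        · exact h9 h
    have h11 : ({u, w, w'} : Set V) ⊆ Γ.neighborSet (f w) := by
      rintro x (rfl | rfl | rfl)
      · exact h7.symm
      · exact h4
      · exact h5
    have h12 := (Set.encard_le_encard h11).trans (hdeg (f w))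
    rw [h10] at h12
    exact absurd h12 (by decide)
  have hn : ∀ m : ℕ, {w | Γ.edist v₀ w = (m + 1 : ℕ)}.encard ≤ 2 := by
    intro m
    induction m with
    | zero =>
      rw [zero_add, h1]
      exact hdeg v₀
    | succ m ih => exact (hstep m).trans ih
  cases n with
  | zero =>
    rw [h0, Set.encard_singleton]
    decide
  | succ n => exact hn n

/-- **Graphs with all degrees at most two.** -/
theorem mem_of_degree_two (hC : ExtClass C) (G : Type) [Group G] {V : Type} [MulAction G V]
    [FaithfulSMul G V] (Γ : SimpleGraph V) (hdeg : ∀ v, (Γ.neighborSet v).encard ≤ 2)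
    (hG : ∀ g : G, ∃ N : ℕ, ∀ v, Γ.edist v (g • v) ≤ N) : C G :=
  mem_of_spheres hC G Γ 2 (fun v => ⟨v, SimpleGraph.Reachable.refl v, sphere_le_two Γ hdeg v⟩) hG

/-- **Two involutions.** Groups of permutations moving each point by a word of bounded length in
two involutions. -/
theorem mem_of_involutions (hC : ExtClass C) (G : Type) [Group G] {S : Type} [MulAction G S]
    [FaithfulSMul G S] (a : Bool → Equiv.Perm S) (ha : ∀ i, a i * a i = 1)
    (hG : ∀ g : G, ∃ N : ℕ, ∀ s, ∃ w : List Bool, w.length ≤ N ∧ g • s = (w.map a).prod s) :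
    C G := by
  let Γ : SimpleGraph S :=
    { Adj := fun s t => s ≠ t ∧ ∃ i, a i s = t
      symm := ⟨by
        rintro s t ⟨h, i, rfl⟩
        refine ⟨h.symm, i, ?_⟩
        rw [← Equiv.Perm.mul_apply, ha]
        rfl⟩
      loopless := ⟨fun s h => h.1 rfl⟩ }
  refine mem_of_degree_two hC G Γ (fun v => ?_) fun g => ?_
  · have h2 : ({a true v, a false v} : Set S).encard ≤ 2 := by
      refine (Set.encard_insert_le _ _).trans ?_
      rw [Set.encard_singleton]
      decide
    refine le_trans (Set.encard_le_encard (t := {a true v, a false v}) ?_) h2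
    rintro w ⟨-, i, rfl⟩
    cases i
    · exact Or.inr rfl
    · exact Or.inl rfl
  · obtain ⟨N, hN⟩ := hG g
    refine ⟨N, fun s => ?_⟩
    obtain ⟨w, hw, h⟩ := hN s
    rw [h]
    refine le_trans ?_ (Nat.cast_le.2 hw)
    clear h hw
    induction w with
    | nil =>
      rw [List.map_nil, List.prod_nil, Equiv.Perm.one_apply, SimpleGraph.edist_self]
      exact zero_le
    | cons i w ih =>
      rw [List.map_cons, List.prod_cons, Equiv.Perm.mul_apply, List.length_cons, Nat.cast_add,
        Nat.cast_one]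
      refine (SimpleGraph.edist_triangle (v := (w.map a).prod s)).trans (add_le_add ih ?_)
      rw [SimpleGraph.edist_le_one_iff_adj_or_eq]
      by_cases h : (w.map a).prod s = a i ((w.map a).prod s)
      · exact Or.inr h
      · exact Or.inl ⟨h, i, rfl⟩

end Pool.Agent.ZT
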