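import Pool.Agent.T59.Loc

/-!
# The full groups of an action of a free group

`FG φ` is the topological full group of the transformation groupoid of the action of the free
group on `A` generated by the homeomorphisms `φ a` of `X`. `TF φ` is the topological full group of
the action.
-/

set_option autoImplicit false

namespace Pool.Agent.ZT

open Pool.Agent.Helper29.BA Pool.Agent.T59

section defs

variable {X : Type} [TopologicalSpace X] {A : Type} (φ : A → X ≃ₜ X)

/-- The action of the free group. -/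
def ac : FreeGroup A →* (X ≃ₜ X) := FreeGroup.lift φ

theorem ac_mul (g h : FreeGroup A) (x : X) : ac φ (g * h) x = ac φ g (ac φ h x) := by
  rw [map_mul]
  rfl

@[simp] theorem ac_one (x : X) : ac φ 1 x = x := by
  rw [map_one]
  rfl

theorem ac_inv_ac (g : FreeGroup A) (x : X) : ac φ g⁻¹ (ac φ g x) = x := by
  rw [← ac_mul, inv_mul_cancel, ac_one]

theorem ac_ac_inv (g : FreeGroup A) (x : X) : ac φ g (ac φ g⁻¹ x) = x := by
  rw [← ac_mul, mul_inv_cancel, ac_one]

variable {φ}

theorem lc_comp {Y : Type} {c : X → Y} (hc : IsLocallyConstant c) {f : X → X}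
    (hf : ∀ x, ∃ g : X ≃ₜ X, ∀ᶠ y in nhds x, f y = g y) : IsLocallyConstant (fun x => c (f x)) := by
  rw [IsLocallyConstant.iff_eventually_eq]
  intro x
  obtain ⟨g, hg⟩ := hf x
  have h1 : ∀ᶠ y in nhds (g x), c y = c (g x) := hc.eventually_eq (g x)
  have h2 : ∀ᶠ y in nhds x, c (g y) = c (g x) := g.continuous.continuousAt.eventually h1
  filter_upwards [hg, h2] with y hy hy2
  rw [hy, hy2, hg.self_of_nhds]

theorem ac_near {c : X → FreeGroup A} (hc : IsLocallyConstant c) (x : X) :
    ∃ g : X ≃ₜ X, ∀ᶠ y in nhds x, ac φ (c y) y = g y := by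
  refine ⟨ac φ (c x), ?_⟩
  filter_upwards [hc.eventually_eq x] with y hy
  rw [hy]

variable (φ)

/-- The topological full group of the transformation groupoid. -/
def FG : Subgroup (Equiv.Perm (X × FreeGroup A)) where
  carrier := {q | ∃ c : X → FreeGroup A, IsLocallyConstant c ∧
    ∀ x g, q (x, g) = (x, c (ac φ g x) * g)}
  one_mem' := ⟨fun _ => 1, IsLocallyConstant.const 1, fun x g => by rw [one_mul]; rfl⟩
  mul_mem' := by
    rintro a b ⟨c, hc, h⟩ ⟨d, hd, h'⟩
    refine ⟨fun x => c (ac φ (d x) x) * d x, ?_, fun x g => ?_⟩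
    · exact (lc_comp hc (fun x => ac_near hd x)).mul hd
    · rw [Equiv.Perm.mul_apply, h', h, ac_mul, mul_assoc]
  inv_mem' := by
    rintro a ⟨c, hc, h⟩
    have hai : ∀ x, a (a⁻¹ x) = x := fun x => Equiv.apply_symm_apply a x
    have hfst : ∀ x, (a⁻¹ x).1 = x.1 := by
      intro x
      have h1 := hai x
      have h2 : a (a⁻¹ x) = ((a⁻¹ x).1, c (ac φ (a⁻¹ x).2 (a⁻¹ x).1) * (a⁻¹ x).2) := h _ _
      have h3 : ((a⁻¹ x).1, c (ac φ (a⁻¹ x).2 (a⁻¹ x).1) * (a⁻¹ x).2) = x := h2.symm.trans h1
      calc (a⁻¹ x).1 = ((a⁻¹ x).1, c (ac φ (a⁻¹ x).2 (a⁻¹ x).1) * (a⁻¹ x).2).1 := rfl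
        _ = x.1 := by rw [h3]
    -- the inverse cocycle
    have hd : ∀ x, c (ac φ (a⁻¹ (x, 1)).2 x) * (a⁻¹ (x, 1)).2 = 1 := by
      intro x
      have h1 := hai (x, 1)
      have h2 : a⁻¹ (x, 1) = (x, (a⁻¹ (x, 1)).2) := Prod.ext (hfst (x, 1)) rfl
      rw [h2, h] at h1
      exact congrArg Prod.snd h1
    have hinv : ∀ x g g', c (ac φ g' x) * g' = g → a⁻¹ (x, g) = (x, g') := by
      intro x g g' hg
      rw [Equiv.Perm.inv_eq_iff_eq, h, hg]
    refine ⟨fun x => (a⁻¹ (x, 1)).2, ?_, fun x g => ?_⟩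
    · rw [IsLocallyConstant.iff_eventually_eq]
      intro x
      have h1 : ∀ᶠ y in nhds (ac φ (a⁻¹ (x, 1)).2 x), c y = c (ac φ (a⁻¹ (x, 1)).2 x) :=
        hc.eventually_eq _
      have h2 := (ac φ (a⁻¹ (x, 1)).2).continuous.continuousAt.eventually h1
      filter_upwards [h2] with y hy
      have h3 := hinv y 1 (a⁻¹ (x, 1)).2 (by rw [hy, hd])
      show (a⁻¹ (y, 1)).2 = _
      rw [h3]
    · refine hinv x g _ ?_
      rw [ac_mul, ← mul_assoc, hd, one_mul]

theorem mem_FG_iff {q : Equiv.Perm (X × FreeGroup A)} : q ∈ FG φ ↔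
    ∃ c : X → FreeGroup A, IsLocallyConstant c ∧ ∀ x g, q (x, g) = (x, c (ac φ g x) * g) :=
  Iff.rfl

/-- The topological full group of the action. -/
def TF : Subgroup (X ≃ₜ X) where
  carrier := {h | ∃ c : X → FreeGroup A, IsLocallyConstant c ∧ ∀ x, h x = ac φ (c x) x}
  one_mem' := ⟨fun _ => 1, IsLocallyConstant.const 1, fun x => (ac_one φ x).symm⟩
  mul_mem' := by
    rintro a b ⟨c, hc, h⟩ ⟨d, hd, h'⟩
    refine ⟨fun x => c (b x) * d x, (hc.comp_continuous b.continuous).mul hd, fun x => ?_⟩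
    rw [ac_mul, ← h']
    exact h (b x)
  inv_mem' := by
    rintro a ⟨c, hc, h⟩
    refine ⟨fun x => (c (a⁻¹ x))⁻¹, (hc.comp_continuous (a⁻¹ : X ≃ₜ X).continuous).inv,
      fun x => ?_⟩
    have h1 : a (a⁻¹ x) = x := a.apply_symm_apply x
    have h2 := h (a⁻¹ x)
    rw [h1] at h2
    have h3 : ac φ (c (a⁻¹ x))⁻¹ x = ac φ (c (a⁻¹ x))⁻¹ (ac φ (c (a⁻¹ x)) (a⁻¹ x)) :=
      congrArg _ h2
    rw [ac_inv_ac] at h3
    exact h3.symm

end defs

/-! ### Finitely many generators -/

section finite

variable {X : Type} [TopologicalSpace X] {A : Type} (φ : A → X ≃ₜ X)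

/-- The generators in a finite set. -/
def res (B : Finset A) : B → X ≃ₜ X := fun b => φ b.1

/-- The inclusion of the free group on a subset. -/
def emb (B : Finset A) : FreeGroup B →* FreeGroup A := FreeGroup.map Subtype.val

open Classical in
/-- The retraction to the free group on a subset. -/
noncomputable def ret (B : Finset A) : FreeGroup A →* FreeGroup B :=
  FreeGroup.lift fun a => if h : a ∈ B then FreeGroup.of ⟨a, h⟩ else 1

theorem ret_emb (B : Finset A) (g : FreeGroup B) : ret B (emb B g) = g := by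
  classical
  have h1 : (ret B).comp (emb B) = MonoidHom.id _ := by
    ext b
    simp [ret, emb]
  exact DFunLike.congr_fun h1 g

theorem ac_emb (B : Finset A) (g : FreeGroup B) : ac φ (emb B g) = ac (res φ B) g := by
  have h1 : (ac φ).comp (emb B) = ac (res φ B) := by
    ext b
    simp [ac, emb, res]
  exact DFunLike.congr_fun h1 g

/-- The elements of the full group with values in the free group on a finite subset. -/
def SB (B : Finset A) : Subgroup (Equiv.Perm (X × FreeGroup A)) where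
  carrier := {q | ∃ c : X → FreeGroup B, IsLocallyConstant c ∧
    ∀ x g, q (x, g) = (x, emb B (c (ac φ g x)) * g)}
  one_mem' := ⟨fun _ => 1, IsLocallyConstant.const 1, fun x g => by rw [map_one, one_mul]; rfl⟩
  mul_mem' := by
    rintro a b ⟨c, hc, h⟩ ⟨d, hd, h'⟩
    refine ⟨fun x => c (ac φ (emb B (d x)) x) * d x, ?_, fun x g => ?_⟩
    · refine IsLocallyConstant.mul (lc_comp hc fun x => ?_) hd
      exact ac_near (c := fun x => emb B (d x)) (hd.comp (emb B)) x
    · rw [Equiv.Perm.mul_apply, h', h, ac_mul, map_mul, mul_assoc]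
  inv_mem' := by
    rintro a ⟨c, hc, h⟩
    have ha : a ∈ FG φ := ⟨fun x => emb B (c x), hc.comp (emb B), h⟩
    obtain ⟨d, hd, hd'⟩ := inv_mem ha
    have hai : ∀ x, a (a⁻¹ x) = x := fun x => Equiv.apply_symm_apply a x
    refine ⟨fun x => ret B (d x), hd.comp (ret B), fun x g => ?_⟩
    have h1 : ∀ y, d y = (emb B (c (ac φ (d y) y)))⁻¹ := by
      intro y
      have h2 := hai (y, 1)
      rw [hd', h, ac_one, mul_one] at h2
      exact eq_inv_of_mul_eq_one_right (congrArg Prod.snd h2)
    have h3 : ∀ y, emb B (ret B (d y)) = d y := by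
      intro y
      rw [h1 y, map_inv, ret_emb, map_inv]
    rw [hd', h3]

theorem SB_mono {B B' : Finset A} (h : B ⊆ B') : SB φ B ≤ SB φ B' := by
  rintro q ⟨c, hc, hq⟩
  refine ⟨fun x => FreeGroup.map (fun b : B => (⟨b.1, h b.2⟩ : B')) (c x), hc.comp _,
    fun x g => ?_⟩
  rw [hq]
  unfold emb
  rw [FreeGroup.map.comp]
  rfl

theorem exists_SB [CompactSpace X] {q : Equiv.Perm (X × FreeGroup A)} (hq : q ∈ FG φ) :
    ∃ B : Finset A, q ∈ SB φ B := by
  classical
  obtain ⟨c, hc, h⟩ := hq
  have h1 : ∀ g : FreeGroup A, ∃ B : Finset A, g ∈ (emb B).range := by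
    intro g
    induction g using FreeGroup.induction_on with
    | C1 => exact ⟨∅, 1, map_one _⟩
    | of x => exact ⟨{x}, FreeGroup.of ⟨x, by simp⟩, by simp [emb]⟩
    | inv_of x _ => exact ⟨{x}, (FreeGroup.of ⟨x, by simp⟩)⁻¹, by simp [emb]⟩
    | mul x y hx hy =>
      obtain ⟨s, u, rfl⟩ := hx
      obtain ⟨t, v, rfl⟩ := hy
      refine ⟨s ∪ t, FreeGroup.map (fun x : s => (⟨x.1, Finset.mem_union_left _ x.2⟩ :
        (s ∪ t : Finset A))) u * FreeGroup.map (fun x : t => (⟨x.1, Finset.mem_union_right _ x.2⟩ :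
        (s ∪ t : Finset A))) v, ?_⟩
      unfold emb
      rw [map_mul, FreeGroup.map.comp, FreeGroup.map.comp]
      rfl
  have h2 : ∀ {B B' : Finset A}, B ⊆ B' → (emb B).range ≤ (emb B').range := by
    rintro B B' hB _ ⟨g, rfl⟩
    refine ⟨FreeGroup.map (fun b : B => (⟨b.1, hB b.2⟩ : B')) g, ?_⟩
    unfold emb
    rw [FreeGroup.map.comp]
    rfl
  choose Bf hBf using h1
  let B : Finset A := (hc.range_finite.toFinset).biUnion Bf
  have h3 : ∀ x, c x ∈ (emb B).range := by
    intro x
    refine h2 ?_ (hBf (c x))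
    exact Finset.subset_biUnion_of_mem Bf (by simp)
  refine ⟨B, fun x => ret B (c x), hc.comp (ret B), fun x g => ?_⟩
  have h4 : ∀ y, emb B (ret B (c y)) = c y := by
    intro y
    obtain ⟨g', hg'⟩ := h3 y
    rw [← hg', ret_emb]
  rw [h4, h]

/-- The restriction to the free group on a finite subset. -/
noncomputable def toB (B : Finset A) : SB φ B →* Equiv.Perm (X × FreeGroup B) :=
  MonoidHom.toHomPerm
    { toFun := fun q p => (p.1, ret B (q.1 (p.1, emb B p.2)).2)
      map_one' := by
        funext p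
        show (p.1, ret B (emb B p.2)) = p
        rw [ret_emb]
      map_mul' := by
        rintro ⟨a, c, hc, h⟩ ⟨b, d, hd, h'⟩
        funext p
        show (p.1, ret B (a (b (p.1, emb B p.2))).2) =
          (p.1, ret B (a (p.1, emb B (ret B (b (p.1, emb B p.2)).2))).2)
        rw [h']
        simp only [← map_mul, ret_emb] }

theorem toB_apply (B : Finset A) {q : SB φ B} {c : X → FreeGroup B}
    (h : ∀ x g, q.1 (x, g) = (x, emb B (c (ac φ g x)) * g)) (x : X) (g : FreeGroup B) :
    toB φ B q (x, g) = (x, c (ac (res φ B) g x) * g) := by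
  show (x, ret B (q.1 (x, emb B g)).2) = _
  rw [h, ← map_mul, ret_emb, ac_emb]

theorem toB_mem (B : Finset A) (q : SB φ B) : toB φ B q ∈ FG (res φ B) := by
  obtain ⟨q, c, hc, h⟩ := q
  exact ⟨c, hc, fun x g => toB_apply φ B h x g⟩

theorem toB_injective (B : Finset A) : Function.Injective (toB φ B) := by
  rw [injective_iff_map_eq_one]
  rintro ⟨q, c, hc, h⟩ h1
  apply Subtype.ext
  apply Equiv.ext
  rintro ⟨x, g⟩
  have h2 : ∀ y, c y = 1 := by
    intro y
    have h3 := toB_apply φ B (q := ⟨q, c, hc, h⟩) h y 1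
    rw [h1, ac_one, mul_one] at h3
    exact (congrArg Prod.snd h3).symm
  show q (x, g) = (x, g)
  rw [h, h2, map_one, one_mul]

/-- **Reduction to finitely many generators.** -/
theorem mem_FG_of_finite {C : ∀ (G : Type) [Group G], Prop} (hC : ClosedClass C) [CompactSpace X]
    (h : ∀ B : Finset A, C (FG (res φ B))) : C (FG φ) := by
  classical
  refine mem_of_directed hC (I := Finset A) (S := fun B => SB φ B)
    (fun B B' hB => SB_mono φ hB) (fun B => ?_) (fun q hq => exists_SB φ hq) fun B => ?_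
  · rintro q ⟨c, hc, hq⟩
    exact ⟨fun x => emb B (c x), hc.comp (emb B), hq⟩
  · exact hC.inj ((toB φ B).codRestrict (FG (res φ B)) (toB_mem φ B))
      (fun q q' hqq => toB_injective φ B (congrArg Subtype.val hqq)) (h B)

end finite

/-! ### Topologically free actions -/

section free

variable {X : Type} [TopologicalSpace X] {A : Type} {φ : A → X ≃ₜ X}

/-- The points with trivial stabilizer are dense. -/
def TopFree (φ : A → X ≃ₜ X) : Prop := Dense {x | ∀ g : FreeGroup A, ac φ g x = x → g = 1}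

theorem cocycle_unique (hφ : TopFree φ) {c d : X → FreeGroup A} (hc : IsLocallyConstant c)
    (hd : IsLocallyConstant d) (h : ∀ x, ac φ (c x) x = ac φ (d x) x) : c = d := by
  have h1 : IsClosed {x | c x = d x} := by
    have h2 : IsLocallyConstant (fun x => (c x, d x)) := hc.prodMk hd
    have h3 : {x | c x = d x} = (fun x => (c x, d x)) ⁻¹' {p | p.1 = p.2} := rfl
    rw [h3, ← isOpen_compl_iff, ← Set.preimage_compl]
    exact h2 _
  funext x
  have h4 : {x | ∀ g : FreeGroup A, ac φ g x = x → g = 1} ⊆ {x | c x = d x} := by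
    intro y hy
    have h5 := hy ((d y)⁻¹ * c y) (by rw [ac_mul, h y, ac_inv_ac])
    exact (inv_mul_eq_one.1 h5).symm
  exact (h1.closure_subset_iff.2 h4) (hφ x)

/-- The cocycle of an element of the topological full group. -/
noncomputable def coc (q : TF φ) : X → FreeGroup A := q.2.choose

theorem coc_lc (q : TF φ) : IsLocallyConstant (coc q) := q.2.choose_spec.1

theorem coc_spec (q : TF φ) (x : X) : q.1 x = ac φ (coc q x) x := q.2.choose_spec.2 x

theorem coc_mul (hφ : TopFree φ) (a b : TF φ) :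
    coc (a * b) = fun x => coc a (b.1 x) * coc b x := by
  refine cocycle_unique hφ (coc_lc _)
    (((coc_lc a).comp_continuous b.1.continuous).mul (coc_lc b)) fun x => ?_
  rw [← coc_spec, ac_mul, ← coc_spec b, ← coc_spec a]
  rfl

theorem coc_one (hφ : TopFree φ) : coc (1 : TF φ) = fun _ => 1 := by
  refine cocycle_unique hφ (coc_lc _) (IsLocallyConstant.const 1) fun x => ?_
  rw [← coc_spec, ac_one]
  rfl

/-- The embedding of the topological full group. -/
noncomputable def toFG (hφ : TopFree φ) : TF φ →* Equiv.Perm (X × FreeGroup A) :=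
  MonoidHom.toHomPerm
    { toFun := fun q p => (p.1, coc q (ac φ p.2 p.1) * p.2)
      map_one' := by
        funext p
        rw [coc_one hφ]
        show (p.1, 1 * p.2) = p
        rw [one_mul]
      map_mul' := fun a b => by
        funext p
        rw [coc_mul hφ]
        show (p.1, coc a (b.1 (ac φ p.2 p.1)) * coc b (ac φ p.2 p.1) * p.2) =
          (p.1, coc a (ac φ (coc b (ac φ p.2 p.1) * p.2) p.1) * (coc b (ac φ p.2 p.1) * p.2))
        rw [ac_mul, ← coc_spec b, mul_assoc] }

theorem toFG_apply (hφ : TopFree φ) (q : TF φ) (x : X) (g : FreeGroup A) :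
    toFG hφ q (x, g) = (x, coc q (ac φ g x) * g) := rfl

/-- **The topological full group of a topologically free action.** -/
theorem mem_TF {C : ∀ (G : Type) [Group G], Prop} (hC : ClosedClass C) (hφ : TopFree φ)
    (h : C (FG φ)) : C (TF φ) := by
  refine hC.inj ((toFG hφ).codRestrict (FG φ) fun q => ⟨coc q, coc_lc q, fun x g => rfl⟩)
    (fun a b hab => ?_) h
  apply Subtype.ext
  apply Homeomorph.ext
  intro x
  have h1 : toFG hφ a (x, 1) = toFG hφ b (x, 1) := by
    exact DFunLike.congr_fun (congrArg Subtype.val hab) (x, 1)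
  rw [toFG_apply, toFG_apply, ac_one, mul_one, mul_one] at h1
  have h2 : coc a x = coc b x := congrArg Prod.snd h1
  rw [coc_spec a, coc_spec b, h2]

end free

end Pool.Agent.ZT
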