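import Mathlib

/-!
# Flows on finite graphs and finite models

A positive real solution of a homogeneous system of linear equations with integer coefficients
can be replaced by a positive integer solution. Consequently, if the measures of the clopen pieces
of a partition of a space satisfy the flow equations of a pair of maps `s a, r a`, then there is a
finite set with permutations `p a` and with the same local rules.
-/

set_option autoImplicit false

namespace Pool.Agent.ZT

open MeasureTheory

section solution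

variable {E : Type*} [Fintype E]

/-- A positive real vector gives a positive rational one with the same integer relations. -/
theorem exists_rat_solution (μ : E → ℝ) (h : ∀ e, 0 < μ e) :
    ∃ q : E → ℚ, (∀ e, 0 < q e) ∧
      ∀ c : E → ℤ, ∑ e, (c e : ℝ) * μ e = 0 → ∑ e, (c e : ℚ) * q e = 0 := by
  classical
  let S : Submodule ℚ ℝ := Submodule.span ℚ (Set.range μ)
  have hfin : FiniteDimensional ℚ S := FiniteDimensional.span_of_finite ℚ (Set.finite_range μ)
  let b := Module.finBasis ℚ S
  let m := Module.finrank ℚ S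
  let v : E → S := fun e => ⟨μ e, Submodule.subset_span ⟨e, rfl⟩⟩
  -- the open set of the admissible real coefficients
  let O : Set (Fin m → ℝ) := {t | ∀ e, 0 < ∑ j, ((b.repr (v e) j : ℚ) : ℝ) * t j}
  have hO : IsOpen O := by
    have h1 : O = ⋂ e, {t | 0 < ∑ j, ((b.repr (v e) j : ℚ) : ℝ) * t j} := by
      ext t
      simp [O]
    rw [h1]
    exact isOpen_iInter_of_finite fun e => isOpen_lt continuous_const (by fun_prop)
  have hval : ∀ x : S, ∑ j, ((b.repr x j : ℚ) : ℝ) * (b j : ℝ) = (x : ℝ) := by
    intro x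
    have h2 := congrArg (fun y : S => (y : ℝ)) (b.sum_repr x)
    simp only [Submodule.coe_sum, Submodule.coe_smul, Rat.smul_def] at h2
    exact h2
  have hne : O.Nonempty := ⟨fun j => (b j : ℝ), fun e => by
    rw [hval (v e)]
    exact h e⟩
  obtain ⟨r, hr⟩ := (DenseRange.piMap (X := fun _ : Fin m => ℚ) (Y := fun _ : Fin m => ℝ)
    (f := fun _ (x : ℚ) => (x : ℝ)) fun _ => Rat.denseRange_cast (𝕜 := ℝ)).exists_mem_open hO hne
  refine ⟨fun e => ∑ j, b.repr (v e) j * r j, fun e => ?_, fun c hc => ?_⟩
  · have h3 := hr e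
    have h4 : ((∑ j, b.repr (v e) j * r j : ℚ) : ℝ) =
        ∑ j, ((b.repr (v e) j : ℚ) : ℝ) * (r j : ℝ) := by push_cast; rfl
    have h5 : (0 : ℝ) < ((∑ j, b.repr (v e) j * r j : ℚ) : ℝ) := by
      rw [h4]
      exact h3
    exact_mod_cast h5
  · have h6 : ∑ e, (c e : ℚ) • v e = 0 := by
      apply Subtype.ext
      simp only [Submodule.coe_sum, Submodule.coe_smul, Rat.smul_def]
      rw [Submodule.coe_zero, ← hc]
      refine Finset.sum_congr rfl fun e _ => ?_
      push_cast
      rfl
    have h7 : ∀ j, ∑ e, (c e : ℚ) * b.repr (v e) j = 0 := by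
      intro j
      have h8 := congrArg (fun y : S => b.repr y j) h6
      simpa [map_sum] using h8
    calc ∑ e, (c e : ℚ) * ∑ j, b.repr (v e) j * r j
        = ∑ j, (∑ e, (c e : ℚ) * b.repr (v e) j) * r j := by
          simp only [Finset.mul_sum, Finset.sum_mul]
          rw [Finset.sum_comm]
          exact Finset.sum_congr rfl fun j _ => Finset.sum_congr rfl fun e _ => by ring
      _ = 0 := by simp [h7]

/-- A positive real vector gives a positive integer one with the same integer relations. -/
theorem exists_nat_solution (μ : E → ℝ) (h : ∀ e, 0 < μ e) :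
    ∃ n : E → ℕ, (∀ e, 0 < n e) ∧
      ∀ c : E → ℤ, ∑ e, (c e : ℝ) * μ e = 0 → ∑ e, c e * (n e : ℤ) = 0 := by
  classical
  obtain ⟨q, hq, hqc⟩ := exists_rat_solution μ h
  let D : ℕ := ∏ e, (q e).den
  have hD : 0 < D := Finset.prod_pos fun e _ => (q e).den_pos
  have hint : ∀ e, ∃ n : ℕ, 0 < n ∧ (n : ℚ) = D * q e := by
    intro e
    obtain ⟨k, hk⟩ : (q e).den ∣ D := Finset.dvd_prod_of_mem _ (Finset.mem_univ e)
    have h1 : (D : ℚ) * q e = (k : ℚ) * (q e).num := by
      rw [hk]
      push_cast
      rw [mul_comm ((q e).den : ℚ) k, mul_assoc, mul_comm ((q e).den : ℚ) (q e), Rat.mul_den_eq_num]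
    have hnum : 0 < (q e).num := Rat.num_pos.2 (hq e)
    have hk0 : 0 < k := by
      rcases Nat.eq_zero_or_pos k with rfl | h0
      · rw [mul_zero] at hk
        omega
      · exact h0
    refine ⟨k * (q e).num.toNat, Nat.mul_pos hk0 (by omega), ?_⟩
    rw [h1]
    push_cast
    congr 1
    have h2 : (((q e).num.toNat : ℤ) : ℚ) = ((q e).num : ℚ) := by
      rw [Int.toNat_of_nonneg hnum.le]
    exact_mod_cast h2
  choose n hn0 hn using hint
  refine ⟨n, hn0, fun c hc => ?_⟩
  have h3 : ((∑ e, c e * (n e : ℤ) : ℤ) : ℚ) = D * ∑ e, (c e : ℚ) * q e := by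
    push_cast
    rw [Finset.mul_sum]
    refine Finset.sum_congr rfl fun e _ => ?_
    rw [hn e]
    ring
  rw [hqc c hc, mul_zero] at h3
  exact_mod_cast h3

end solution

/-- Two maps from a finite type with fibres of the same size differ by a permutation. -/
theorem exists_perm_of_card {T V : Type*} [Finite T] (f g : T → V)
    (h : ∀ v, Nat.card {t // f t = v} = Nat.card {t // g t = v}) :
    ∃ p : Equiv.Perm T, ∀ t, g (p t) = f t := by
  have h1 : ∀ v, Nonempty ({t // f t = v} ≃ {t // g t = v}) := fun v =>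
    ⟨(Finite.equivFin _).trans ((finCongr (h v)).trans (Finite.equivFin _).symm)⟩
  exact ⟨Equiv.ofFiberEquiv fun v => (h1 v).some, fun t => Equiv.ofFiberEquiv_map _ _⟩

/-- **Finite models.** A positive flow on the finite graph gives a finite set `T`, with
permutations `p a`, and a surjective map `y : T → E` with the same local rules. -/
theorem exists_finite_model {A E : Type} {V : A → Type*} [Finite E] (s r : ∀ a, E → V a)
    (μ : E → ℝ) (hμ : ∀ e, 0 < μ e)
    (hflow : ∀ a v, ∑ᶠ (e : E) (_ : s a e = v), μ e = ∑ᶠ (e : E) (_ : r a e = v), μ e) :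
    ∃ (T : Type) (_ : Finite T) (y : T → E) (p : A → Equiv.Perm T),
      Function.Surjective y ∧ ∀ a t, r a (y (p a t)) = s a (y t) := by
  classical
  have : Fintype E := Fintype.ofFinite E
  obtain ⟨n, hn0, hn⟩ := exists_nat_solution μ hμ
  let T : Type := Σ e, Fin (n e)
  have hsum : ∀ (f : E → Prop) , ∑ᶠ (e : E) (_ : f e), μ e = ∑ e, if f e then μ e else 0 := by
    intro f
    rw [finsum_eq_sum_of_fintype]
    refine Finset.sum_congr rfl fun e _ => ?_
    exact finsum_eq_if
  have hcard : ∀ (f : E → Prop), (Nat.card {t : T // f t.1} : ℤ) =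
      ∑ e, (if f e then (1 : ℤ) else 0) * (n e : ℤ) := by
    intro f
    rw [Nat.card_eq_fintype_card, Fintype.card_subtype, Finset.card_filter]
    push_cast
    rw [Fintype.sum_sigma]
    refine Finset.sum_congr rfl fun e _ => ?_
    show (∑ _y : Fin (n e), if f e then (1 : ℤ) else 0) = _
    rw [Finset.sum_const, Finset.card_univ, Fintype.card_fin, nsmul_eq_mul, mul_comm]
  have hex : ∀ a, ∃ p : Equiv.Perm T, ∀ t, r a (p t).1 = s a t.1 := by
    intro a
    refine exists_perm_of_card (fun t : T => s a t.1) (fun t : T => r a t.1) fun v => ?_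
    have h1 := hflow a v
    rw [hsum, hsum] at h1
    have h2 := hn (fun e => (if s a e = v then 1 else 0) - (if r a e = v then 1 else 0)) (by
      push_cast
      simp only [sub_mul, Finset.sum_sub_distrib, ite_mul, one_mul, zero_mul]
      rw [h1, sub_self])
    simp only [sub_mul, Finset.sum_sub_distrib] at h2
    have h3 := hcard (fun e => s a e = v)
    have h4 := hcard (fun e => r a e = v)
    have h5 : (Nat.card {t : T // s a t.1 = v} : ℤ) = Nat.card {t : T // r a t.1 = v} := by
      rw [h3, h4]
      exact sub_eq_zero.1 h2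
    exact_mod_cast h5
  choose p hp using hex
  exact ⟨T, inferInstance, Sigma.fst, p, fun e => ⟨⟨e, ⟨0, hn0 e⟩⟩, rfl⟩, hp⟩

/-- Finite models from an invariant measure: `τ x` is the type of the point `x`. -/
theorem exists_finite_model_of_measure {A E X : Type} {V : A → Type*} [Finite E]
    [TopologicalSpace X] [MeasurableSpace X] [BorelSpace X] (m : Measure X) [IsFiniteMeasure m]
    [m.IsOpenPosMeasure] (φ : A → X ≃ₜ X) (hφ : ∀ a, MeasurePreserving (φ a) m m)
    [TopologicalSpace E] [DiscreteTopology E] (τ : X → E) (hτ : Continuous τ)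
    (hτs : Function.Surjective τ) (s r : ∀ a, E → V a)
    (hsr : ∀ a x, r a (τ (φ a x)) = s a (τ x)) :
    ∃ (T : Type) (_ : Finite T) (y : T → E) (p : A → Equiv.Perm T),
      Function.Surjective y ∧ ∀ a t, r a (y (p a t)) = s a (y t) := by
  classical
  have : Fintype E := Fintype.ofFinite E
  have hopen : ∀ F : Set E, IsOpen (τ ⁻¹' F) := fun F => (isOpen_discrete F).preimage hτ
  refine exists_finite_model s r (fun e => m.real (τ ⁻¹' {e})) (fun e => ?_) fun a v => ?_
  · obtain ⟨x, hx⟩ := hτs e
    have h1 : 0 < m (τ ⁻¹' {e}) := (hopen {e}).measure_pos m ⟨x, hx⟩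
    exact ENNReal.toReal_pos h1.ne' (measure_ne_top _ _)
  · have hsum : ∀ F : Set E, ∑ᶠ (e : E) (_ : e ∈ F), m.real (τ ⁻¹' {e}) =
        m.real (τ ⁻¹' F) := by
      intro F
      rw [finsum_mem_eq_finite_toFinset_sum _ (Set.toFinite F)]
      have h2 : τ ⁻¹' F = ⋃ e ∈ (Set.toFinite F).toFinset, τ ⁻¹' {e} := by
        ext x
        simp only [Set.mem_preimage, Set.mem_iUnion, Set.Finite.mem_toFinset,
          Set.mem_singleton_iff, exists_prop, exists_eq_right']
      rw [h2, measureReal_biUnion_finset]
      · intro e _ f _ hef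
        exact Disjoint.preimage _ (by simpa using hef)
      · intro e _
        exact (hopen {e}).measurableSet
    have h3 : (φ a) ⁻¹' (τ ⁻¹' {e | r a e = v}) = τ ⁻¹' {e | s a e = v} := by
      ext x
      show r a (τ (φ a x)) = v ↔ s a (τ x) = v
      rw [hsr]
    have h4 : m.real (τ ⁻¹' {e | s a e = v}) = m.real (τ ⁻¹' {e | r a e = v}) := by
      rw [← h3]
      unfold Measure.real
      rw [(hφ a).measure_preimage (hopen _).measurableSet.nullMeasurableSet]
    exact (hsum {e | s a e = v}).trans (h4.trans (hsum {e | r a e = v}).symm)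

/-- **Finite coloured models.** A compact space with finitely many homeomorphisms, an invariant
finite measure of full support and a locally constant colouring has the same local patterns as a
finite set with permutations. -/
theorem exists_finite_coloured_model {I X K : Type} [Finite I] [TopologicalSpace X]
    [CompactSpace X] [MeasurableSpace X] [BorelSpace X] (m : Measure X) [IsFiniteMeasure m]
    [m.IsOpenPosMeasure] (φ : I → X ≃ₜ X) (hφ : ∀ i, MeasurePreserving (φ i) m m)
    (κ : X → K) (hκ : IsLocallyConstant κ) :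
    ∃ (T : Type) (_ : Finite T) (κT : T → K) (p : I → Equiv.Perm T),
      (∀ t, ∃ x, κ x = κT t ∧ ∀ i, κ (φ i x) = κT (p i t)) ∧
      (∀ x, ∃ t, κ x = κT t ∧ ∀ i, κ (φ i x) = κT (p i t)) := by
  classical
  -- the pattern of a point
  let pat : X → K × (I → K) := fun x => (κ x, fun i => κ (φ i x))
  have hpat : IsLocallyConstant pat := by
    letI : TopologicalSpace K := ⊥
    haveI : DiscreteTopology K := ⟨rfl⟩
    have h1 : Continuous κ := hκ.continuous
    have h2 : Continuous pat := by
      refine h1.prodMk (continuous_pi fun i => h1.comp (φ i).continuous)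
    exact (IsLocallyConstant.iff_continuous pat).2 h2
  let E : Type := Set.range pat
  have hE : Finite E := hpat.range_finite.to_subtype
  letI : TopologicalSpace E := ⊥
  haveI : DiscreteTopology E := ⟨rfl⟩
  have hτ : IsLocallyConstant (fun x => (⟨pat x, x, rfl⟩ : E)) := by
    intro s
    have h3 : (fun x => (⟨pat x, x, rfl⟩ : E)) ⁻¹' s = pat ⁻¹' (Subtype.val '' s) := by
      ext x
      constructor
      · intro hx
        exact ⟨_, hx, rfl⟩
      · rintro ⟨e, he, hex⟩
        have h4 : e = ⟨pat x, x, rfl⟩ := Subtype.ext hex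
        rw [h4] at he
        exact he
    rw [h3]
    exact hpat _
  obtain ⟨T, hT, y, p, hy, hyp⟩ := exists_finite_model_of_measure (V := fun _ : I => K) m φ hφ
    (fun x => (⟨pat x, x, rfl⟩ : E)) hτ.continuous
    (by rintro ⟨_, x, rfl⟩; exact ⟨x, rfl⟩)
    (fun i e => e.1.2 i) (fun _ e => e.1.1) (fun i x => rfl)
  refine ⟨T, hT, fun t => (y t).1.1, p, fun t => ?_, fun x => ?_⟩
  · obtain ⟨x, hx⟩ := (y t).2
    refine ⟨x, ?_, fun i => ?_⟩
    · exact congrArg Prod.fst hx
    · show κ (φ i x) = (y (p i t)).1.1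
      rw [hyp i t]
      exact congrFun (congrArg Prod.snd hx) i
  · obtain ⟨t, ht⟩ := hy ⟨pat x, x, rfl⟩
    refine ⟨t, ?_, fun i => ?_⟩
    · show κ x = (y t).1.1
      rw [ht]
    · show κ (φ i x) = (y (p i t)).1.1
      rw [hyp i t, ht]

end Pool.Agent.ZT
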