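import Pool.Agent.Helper29.BA.Wr

/-!
# The permutations of the lines over a finite invariant set

`F` acts on `I`, and on `I × F` by `k (t, h) = (k t, h k⁻¹)`. The permutations of `I × F` which
preserve the lines `{t} × F`, are the identity off the lines over a finite invariant set `S` and
commute with the action of `F` on the lines over `S` form a group which embeds into a wreath
product of `F` with the permutations of `S`.
-/

set_option autoImplicit false

namespace Pool.Agent.ZT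

open Pool.Agent.Helper29.BA

section

variable {F I : Type} [Group F] [MulAction F I]

/-- The equivariant permutations of the lines over `S`. -/
def QF (S : Set I) : Subgroup (Equiv.Perm (I × F)) where
  carrier := {q | (∀ x, (q x).1 = x.1) ∧ (∀ x, x.1 ∉ S → q x = x) ∧
    ∀ (k : F) (t : I) (h : F), t ∈ S → q (k • t, h * k⁻¹) = (k • t, (q (t, h)).2 * k⁻¹)}
  one_mem' := ⟨fun _ => rfl, fun _ _ => rfl, fun _ _ _ _ => rfl⟩
  mul_mem' := by
    rintro a b ⟨ha1, ha2, ha3⟩ ⟨hb1, hb2, hb3⟩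
    refine ⟨fun x => ?_, fun x hx => ?_, fun k t h ht => ?_⟩
    · rw [Equiv.Perm.mul_apply, ha1, hb1]
    · rw [Equiv.Perm.mul_apply, hb2 x hx, ha2 x hx]
    · rw [Equiv.Perm.mul_apply, Equiv.Perm.mul_apply, hb3 k t h ht, ha3 k t _ ht]
      have h1 : ((t, (b (t, h)).2) : I × F) = b (t, h) := Prod.ext (hb1 (t, h)).symm rfl
      rw [h1]
  inv_mem' := by
    rintro a ⟨ha1, ha2, ha3⟩
    have hai : ∀ x, a (a⁻¹ x) = x := fun x => Equiv.apply_symm_apply a x
    have hinv : ∀ x, (a⁻¹ x).1 = x.1 := fun x => by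
      have h1 := ha1 (a⁻¹ x)
      rw [hai] at h1
      exact h1.symm
    refine ⟨hinv, fun x hx => ?_, fun k t h ht => ?_⟩
    · rw [Equiv.Perm.inv_eq_iff_eq, ha2 x hx]
    · rw [Equiv.Perm.inv_eq_iff_eq, ha3 k t _ ht]
      have h1 : ((t, (a⁻¹ (t, h)).2) : I × F) = a⁻¹ (t, h) := Prod.ext (hinv (t, h)).symm rfl
      rw [h1, hai]

theorem mem_QF_iff {S : Set I} {q : Equiv.Perm (I × F)} : q ∈ QF S ↔
    (∀ x, (q x).1 = x.1) ∧ (∀ x, x.1 ∉ S → q x = x) ∧
    ∀ (k : F) (t : I) (h : F), t ∈ S → q (k • t, h * k⁻¹) = (k • t, (q (t, h)).2 * k⁻¹) :=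
  Iff.rfl

/-- The cocycle. -/
def qc (q : Equiv.Perm (I × F)) (t : I) : F := (q (t, 1)).2

theorem q_apply {S : Set I} {q : Equiv.Perm (I × F)} (hq : q ∈ QF S)
    (hS : ∀ (k : F), ∀ t ∈ S, k • t ∈ S) {t : I} (ht : t ∈ S) (h : F) :
    q (t, h) = (t, qc q (h • t) * h) := by
  have h1 := hq.2.2 h⁻¹ (h • t) 1 (hS h t ht)
  rw [inv_smul_smul, inv_inv, one_mul] at h1
  exact h1

theorem qc_mul {S : Set I} {q q' : Equiv.Perm (I × F)} (hq : q ∈ QF S) (hq' : q' ∈ QF S)
    (hS : ∀ (k : F), ∀ t ∈ S, k • t ∈ S) {t : I} (ht : t ∈ S) :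
    qc (q * q') t = qc q (qc q' t • t) * qc q' t := by
  unfold qc
  rw [Equiv.Perm.mul_apply]
  have h1 : q' (t, 1) = (t, qc q' t) := Prod.ext (hq'.1 (t, 1)) rfl
  rw [h1, q_apply hq hS ht]
  rfl

/-- The induced map of `S`. -/
def qp {S : Set I} (hS : ∀ (k : F), ∀ t ∈ S, k • t ∈ S) (q : Equiv.Perm (I × F)) (t : S) : S :=
  ⟨qc q t • (t : I), hS _ _ t.2⟩

theorem qp_mul {S : Set I} {q q' : Equiv.Perm (I × F)} (hq : q ∈ QF S) (hq' : q' ∈ QF S)
    (hS : ∀ (k : F), ∀ t ∈ S, k • t ∈ S) (t : S) : qp hS (q * q') t = qp hS q (qp hS q' t) := by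
  apply Subtype.ext
  show qc (q * q') t • (t : I) = qc q (qc q' t • (t : I)) • (qc q' t • (t : I))
  rw [qc_mul hq hq' hS t.2, mul_smul]

theorem qp_one {S : Set I} (hS : ∀ (k : F), ∀ t ∈ S, k • t ∈ S) (t : S) :
    qp hS (1 : Equiv.Perm (I × F)) t = t := by
  apply Subtype.ext
  show (1 : F) • (t : I) = t
  rw [one_smul]

/-- The embedding into the wreath product. -/
def toWr {S : Set I} (hS : ∀ (k : F), ∀ t ∈ S, k • t ∈ S) : QF (F := F) S →* Wr S F where
  toFun q :=
    { p :=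
        { toFun := qp hS q.1
          invFun := qp hS q.1⁻¹
          left_inv := fun t => by
            rw [← qp_mul (inv_mem q.2) q.2 hS, inv_mul_cancel, qp_one]
          right_inv := fun t => by
            rw [← qp_mul q.2 (inv_mem q.2) hS, mul_inv_cancel, qp_one] }
      s := fun t => qc q.1 t }
  map_one' := by
    ext t
    · exact congrArg Subtype.val (qp_one hS t)
    · rfl
  map_mul' := fun q q' => by
    ext t
    · exact congrArg Subtype.val (qp_mul q.2 q'.2 hS t)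
    · exact qc_mul q.2 q'.2 hS t.2

theorem toWr_injective {S : Set I} (hS : ∀ (k : F), ∀ t ∈ S, k • t ∈ S) :
    Function.Injective (toWr (F := F) hS) := by
  intro q q' hqq
  have h1 : ∀ t (ht : t ∈ S), qc q.1 t = qc q'.1 t := fun t ht =>
    congrFun (congrArg Wr.s hqq) ⟨t, ht⟩
  apply Subtype.ext
  apply Equiv.ext
  rintro ⟨t, h⟩
  by_cases ht : t ∈ S
  · rw [q_apply q.2 hS ht, q_apply q'.2 hS ht, h1 _ (hS h t ht)]
  · rw [q.2.2.1 _ ht, q'.2.2.1 _ ht]

/-- **The group of the equivariant permutations of the lines over a finite invariant set.** -/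
theorem mem_QF {C : ∀ (G : Type) [Group G], Prop} (hC : ClosedClass C) (hF : C F) {S : Set I}
    (hfin : S.Finite) (hS : ∀ (k : F), ∀ t ∈ S, k • t ∈ S) : C (QF (F := F) S) := by
  have : Finite S := hfin.to_subtype
  exact hC.inj (toWr hS) (toWr_injective hS) (hC.wr hF)

/-- The case of a free group. -/
theorem mem_QF_free {C : ∀ (G : Type) [Group G], Prop} (hC : ClosedClass C) {A I : Type}
    [MulAction (FreeGroup A) I] {S : Set I} (hfin : S.Finite)
    (hS : ∀ (k : FreeGroup A), ∀ t ∈ S, k • t ∈ S) : C (QF (F := FreeGroup A) S) :=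
  mem_QF hC (hC.freeGroup A) hfin hS

end

end Pool.Agent.ZT
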