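import Pool.Agent.ZT.EP

/-!
# Eventually periodic pseudo-orbits

For a permutation `φ` of `X` and a function `k : X → ℕ` with finite range there are finitely many sequences
`s : ℤ → X`, whose sequences of labels `k (s n)` are paths in the graph of the transitions of `k` and are eventually periodic
in both directions with a common period, which pass through all edges. Permutations of `S × ℤ`, for a finite set `S` of
sequences, which commute on each line with a translation up to finitely many points form a group in `C`.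
-/

set_option autoImplicit false

open Filter

namespace Pool.Agent.ZT

open Pool.Agent.Helper29.BA Pool.Agent.Helper29.PA Pool.Agent.T59

variable {C : ∀ (G : Type) [Group G], Prop}

/-- The iterates of a map of a finite set are eventually periodic. -/
theorem iterate_add_factorial {V : Type} [Finite V] (f : V → V) (x : V) {n : ℕ} (hn : Nat.card V ≤ n) :
    f^[n + (Nat.card V).factorial] x = f^[n] x := by
  obtain ⟨i, j, hij, h⟩ : ∃ i j : Fin (Nat.card V + 1), i ≠ j ∧ f^[i] x = f^[j] x := by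
    by_contra hc
    push Not at hc
    have h1 : Function.Injective fun i : Fin (Nat.card V + 1) => f^[i] x := by
      intro i j hij
      by_contra hne
      exact hc i j hne hij
    have h2 := Nat.card_le_card_of_injective _ h1
    rw [Nat.card_fin] at h2
    omega
  wlog hlt : i < j generalizing i j
  · exact this j i hij.symm h.symm (lt_of_le_of_ne (not_lt.1 hlt) hij.symm)
  have hlt' : (i : ℕ) < j := hlt
  have hj : (j : ℕ) ≤ Nat.card V := Nat.lt_succ_iff.1 j.2
  obtain ⟨d, hd⟩ := Nat.exists_eq_add_of_lt hlt'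
  have hper : ∀ m : ℕ, (i : ℕ) ≤ m → f^[m + (d + 1)] x = f^[m] x := by
    intro m hm
    obtain ⟨t, rfl⟩ := Nat.exists_eq_add_of_le hm
    have e1 : (i : ℕ) + t + (d + 1) = t + j := by omega
    have e2 : (i : ℕ) + t = t + i := by omega
    rw [e1, e2, Function.iterate_add_apply, Function.iterate_add_apply, ← h]
  have hmul : ∀ c m : ℕ, (i : ℕ) ≤ m → f^[m + c * (d + 1)] x = f^[m] x := by
    intro c
    induction c with
    | zero => intro m _; simp
    | succ c ih =>
      intro m hm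
      have e : m + (c + 1) * (d + 1) = (m + c * (d + 1)) + (d + 1) := by ring
      rw [e, hper _ (by omega), ih m hm]
  obtain ⟨c, hc⟩ : d + 1 ∣ (Nat.card V).factorial := Nat.dvd_factorial (by omega) (by omega)
  rw [hc, mul_comm, hmul c n (by omega)]

/-- The permutations of the set of all points `(s, n)` which preserve the lines, are the identity outside the lines of `S`
and commute with the translation by `p` up to finitely many points on each line of `S`. -/
def QT {X : Type} (S : Set (ℤ → X)) (p : ℕ) : Subgroup (Equiv.Perm ((ℤ → X) × ℤ)) where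
  carrier := {q | (∀ x, (q x).1 = x.1) ∧ (∀ x, x.1 ∉ S → q x = x) ∧
    ∀ s ∈ S, {n | (q (s, n + p)).2 ≠ (q (s, n)).2 + p}.Finite}
  mul_mem' := by
    rintro f g ⟨hf, hf1, hf2⟩ ⟨hg, hg1, hg2⟩
    refine ⟨fun x => by rw [Equiv.Perm.mul_apply, hf, hg],
      fun x hx => by rw [Equiv.Perm.mul_apply, hg1 x hx, hf1 x hx], fun j hj => ?_⟩
    have hinj : Function.Injective fun n : ℤ => (g (j, n)).2 := by
      intro a b hab
      have h1 : g (j, a) = g (j, b) := Prod.ext (by rw [hg, hg]) hab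
      exact congrArg Prod.snd (g.injective h1)
    refine ((hg2 j hj).union ((hf2 j hj).preimage hinj.injOn)).subset ?_
    intro n hn
    by_contra h
    rw [Set.mem_union, not_or] at h
    have h1 : (g (j, n + p)).2 = (g (j, n)).2 + p := not_not.1 h.1
    have h2 : (f (j, (g (j, n)).2 + p)).2 = (f (j, (g (j, n)).2)).2 + p := not_not.1 h.2
    apply hn
    have e : ∀ m, g (j, m) = (j, (g (j, m)).2) := fun m => Prod.ext (hg (j, m)) rfl
    rw [Equiv.Perm.mul_apply, Equiv.Perm.mul_apply, e (n + p), e n, h1, h2]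
  one_mem' := by
    refine ⟨fun x => rfl, fun x _ => rfl, fun j _ => ?_⟩
    have h1 : {n : ℤ | ((1 : Equiv.Perm ((ℤ → X) × ℤ)) (j, n + p)).2 ≠
        ((1 : Equiv.Perm ((ℤ → X) × ℤ)) (j, n)).2 + p} = ∅ := by
      ext n
      simp
    rw [h1]
    exact Set.finite_empty
  inv_mem' := by
    rintro f ⟨hf, hf1, hf2⟩
    have hinv : ∀ x, ((f⁻¹ : Equiv.Perm ((ℤ → X) × ℤ)) x).1 = x.1 := by
      intro x
      have h1 := hf ((f⁻¹ : Equiv.Perm ((ℤ → X) × ℤ)) x)
      have h2 : f ((f⁻¹ : Equiv.Perm ((ℤ → X) × ℤ)) x) = x := f.apply_symm_apply x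
      rw [h2] at h1
      exact h1.symm
    refine ⟨hinv, fun x hx => ?_, fun j hj => ?_⟩
    · nth_rewrite 1 [← hf1 x hx]
      exact f.symm_apply_apply x
    have hinj : Function.Injective fun n : ℤ => ((f⁻¹ : Equiv.Perm ((ℤ → X) × ℤ)) (j, n)).2 := by
      intro a b hab
      have h1 : (f⁻¹ : Equiv.Perm ((ℤ → X) × ℤ)) (j, a) = (f⁻¹ : Equiv.Perm ((ℤ → X) × ℤ)) (j, b) :=
        Prod.ext (by rw [hinv, hinv]) hab
      exact congrArg Prod.snd ((f⁻¹ : Equiv.Perm ((ℤ → X) × ℤ)).injective h1)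
    refine ((hf2 j hj).preimage hinj.injOn).subset ?_
    intro n hn h
    apply hn
    have e : (f⁻¹ : Equiv.Perm ((ℤ → X) × ℤ)) (j, n) = (j, ((f⁻¹ : Equiv.Perm ((ℤ → X) × ℤ)) (j, n)).2) :=
      Prod.ext (hinv (j, n)) rfl
    have h1 : f (j, ((f⁻¹ : Equiv.Perm ((ℤ → X) × ℤ)) (j, n)).2) = (j, n) := by
      rw [← e]
      exact f.apply_symm_apply _
    have h2 : f (j, ((f⁻¹ : Equiv.Perm ((ℤ → X) × ℤ)) (j, n)).2 + p) = (j, n + p) :=
      Prod.ext (hf _) (by rw [h, h1])
    rw [← h2]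
    exact congrArg Prod.snd (f.symm_apply_apply _)

theorem mem_QT (hC : ExtClass C) {X : Type} {S : Set (ℤ → X)} (hS : S.Finite) (p : ℕ) [NeZero p] :
    C (QT S p) := by
  have : Finite S := hS
  have hinv : ∀ (q : QT S p) x, (((q : Equiv.Perm ((ℤ → X) × ℤ))⁻¹ : Equiv.Perm ((ℤ → X) × ℤ)) x).1 = x.1 :=
    fun q x => ((QT S p).inv_mem q.2).1 x
  let φ : QT S p →* (S → EP (p : ℤ)) :=
    { toFun := fun q j => ⟨
        { toFun := fun n => ((q : Equiv.Perm ((ℤ → X) × ℤ)) (j.1, n)).2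
          invFun := fun n => (((q : Equiv.Perm ((ℤ → X) × ℤ))⁻¹ : Equiv.Perm ((ℤ → X) × ℤ)) (j.1, n)).2
          left_inv := fun n => by
            have e : (j.1, ((q : Equiv.Perm ((ℤ → X) × ℤ)) (j.1, n)).2) =
                (q : Equiv.Perm ((ℤ → X) × ℤ)) (j.1, n) := Prod.ext (q.2.1 (j.1, n)).symm rfl
            change (((q : Equiv.Perm ((ℤ → X) × ℤ))⁻¹ : Equiv.Perm ((ℤ → X) × ℤ))
              (j.1, ((q : Equiv.Perm ((ℤ → X) × ℤ)) (j.1, n)).2)).2 = n
            rw [e]
            exact congrArg Prod.snd ((q : Equiv.Perm ((ℤ → X) × ℤ)).symm_apply_apply _)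
          right_inv := fun n => by
            have e : (j.1, (((q : Equiv.Perm ((ℤ → X) × ℤ))⁻¹ : Equiv.Perm ((ℤ → X) × ℤ)) (j.1, n)).2) =
                ((q : Equiv.Perm ((ℤ → X) × ℤ))⁻¹ : Equiv.Perm ((ℤ → X) × ℤ)) (j.1, n) :=
              Prod.ext (hinv q (j.1, n)).symm rfl
            change ((q : Equiv.Perm ((ℤ → X) × ℤ))
              (j.1, (((q : Equiv.Perm ((ℤ → X) × ℤ))⁻¹ : Equiv.Perm ((ℤ → X) × ℤ)) (j.1, n)).2)).2 = n
            rw [e]
            exact congrArg Prod.snd ((q : Equiv.Perm ((ℤ → X) × ℤ)).apply_symm_apply _) },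
        q.2.2.2 j.1 j.2⟩
      map_one' := rfl
      map_mul' := fun f g => by
        funext j
        apply Subtype.ext
        ext n
        change ((f : Equiv.Perm ((ℤ → X) × ℤ)) ((g : Equiv.Perm ((ℤ → X) × ℤ)) (j.1, n))).2 =
          ((f : Equiv.Perm ((ℤ → X) × ℤ)) (j.1, ((g : Equiv.Perm ((ℤ → X) × ℤ)) (j.1, n)).2)).2
        have e : (j.1, ((g : Equiv.Perm ((ℤ → X) × ℤ)) (j.1, n)).2) =
            (g : Equiv.Perm ((ℤ → X) × ℤ)) (j.1, n) := Prod.ext (g.2.1 (j.1, n)).symm rfl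
        rw [e] }
  refine hC.toClosedClass.inj φ ?_ (hC.toClosedClass.pi (mem_EP hC p))
  intro f g hfg
  apply Subtype.ext
  apply Equiv.ext
  intro x
  by_cases hx : x.1 ∈ S
  · apply Prod.ext
    · rw [f.2.1, g.2.1]
    · exact congrArg (fun u : S → EP (p : ℤ) => (u ⟨x.1, hx⟩ : Equiv.Perm ℤ) x.2) hfg
  · rw [f.2.2.1 x hx, g.2.2.1 x hx]

/-- The sequences of labels of the finitely many lines. -/
theorem exists_lines {X : Type} (φ : Equiv.Perm X) (k : X → ℕ) (hk : (Set.range k).Finite) :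
    ∃ (S : Set (ℤ → X)) (p : ℕ), S.Finite ∧ p ≠ 0 ∧
      (∀ s ∈ S, ∀ m : ℤ, ∃ y, k y = k (s m) ∧ k (φ y) = k (s (m + 1))) ∧
      (∀ s ∈ S, {n : ℤ | k (s (n + p)) ≠ k (s n)}.Finite) ∧
      ∀ y, ∃ s ∈ S, ∃ n : ℤ, k (s n) = k y ∧ k (s (n + 1)) = k (φ y) := by
  classical
  have hfin : Finite (Set.range k) := hk
  choose rep hrep using fun v : Set.range k => v.2
  let next : Set.range k → Set.range k := fun v => ⟨k (φ (rep v)), φ (rep v), rfl⟩
  let prev : Set.range k → Set.range k := fun v => ⟨k (φ.symm (rep v)), φ.symm (rep v), rfl⟩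
  -- the path through the edge `(v, w)`
  let path : Set.range k × Set.range k → ℤ → Set.range k := fun e n =>
    if 0 < n then next^[(n - 1).toNat] e.2 else prev^[(-n).toNat] e.1
  let seq : Set.range k × Set.range k → ℤ → X := fun e n => rep (path e n)
  have hseq : ∀ e n, k (seq e n) = path e n := fun e n => hrep (path e n)
  have hpos : ∀ e (j : ℕ), path e (j + 1) = next^[j] e.2 := by
    intro e j
    change (if 0 < (j : ℤ) + 1 then next^[((j : ℤ) + 1 - 1).toNat] e.2 else _) = _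
    rw [if_pos (by omega)]
    congr 2
    omega
  have hneg : ∀ e (j : ℕ), path e (-j) = prev^[j] e.1 := by
    intro e j
    change (if 0 < -(j : ℤ) then _ else prev^[(- -(j : ℤ)).toNat] e.1) = _
    rw [if_neg (by omega)]
    congr 2
    omega
  have hnext : ∀ v : Set.range k, ∃ y, k y = v ∧ k (φ y) = next v := fun v => ⟨rep v, hrep v, rfl⟩
  have hprev : ∀ v : Set.range k, ∃ y, k y = prev v ∧ k (φ y) = v := fun v =>
    ⟨φ.symm (rep v), rfl, by rw [Equiv.apply_symm_apply]; exact hrep v⟩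
  let E : Set (Set.range k × Set.range k) := {e | ∃ y, k y = e.1 ∧ k (φ y) = e.2}
  refine ⟨seq '' E, (Nat.card (Set.range k)).factorial, (Set.toFinite E).image _,
    Nat.factorial_ne_zero _, ?_, ?_, ?_⟩
  · rintro _ ⟨e, ⟨y0, hy1, hy2⟩, rfl⟩ m
    rw [hseq, hseq]
    rcases lt_trichotomy m 0 with hm | hm | hm
    · obtain ⟨j, hj⟩ := Int.eq_ofNat_of_zero_le (show 0 ≤ -m - 1 by omega)
      have e1 : m = -((j + 1 : ℕ) : ℤ) := by push_cast; omega
      have e2 : m + 1 = -(j : ℤ) := by omega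
      rw [e2, hneg, e1, hneg, Function.iterate_succ_apply']
      exact hprev _
    · subst hm
      have h0 := hneg e 0
      have h1 := hpos e 0
      simp only [Nat.cast_zero, neg_zero, Function.iterate_zero, id_eq, zero_add] at h0 h1
      rw [h0, zero_add, h1]
      exact ⟨y0, hy1, hy2⟩
    · obtain ⟨j, hj⟩ := Int.eq_ofNat_of_zero_le (show 0 ≤ m - 1 by omega)
      have e1 : m = (j : ℤ) + 1 := by omega
      have e2 : m + 1 = ((j + 1 : ℕ) : ℤ) + 1 := by push_cast; omega
      rw [e2, hpos, e1, hpos, Function.iterate_succ_apply']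
      exact hnext _
  · rintro _ ⟨e, he, rfl⟩
    set N := Nat.card (Set.range k) with hN
    refine (Set.finite_Icc (-((N : ℤ) + N.factorial)) (N + N.factorial)).subset ?_
    intro n hn
    by_contra hc
    rw [Set.mem_Icc, not_and_or, not_le, not_le] at hc
    apply hn
    rw [hseq, hseq]
    congr 1
    rcases hc with hc | hc
    · obtain ⟨j, hj⟩ := Int.eq_ofNat_of_zero_le (show 0 ≤ -(n + N.factorial) by omega)
      have e1 : n + (N.factorial : ℤ) = -(j : ℤ) := by omega
      have e2 : n = -((j + N.factorial : ℕ) : ℤ) := by push_cast; omega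
      rw [e1, hneg, e2, hneg]
      exact (iterate_add_factorial prev e.1 (show Nat.card (Set.range k) ≤ j by omega)).symm
    · obtain ⟨j, hj⟩ := Int.eq_ofNat_of_zero_le (show 0 ≤ n - 1 by omega)
      have e1 : n = (j : ℤ) + 1 := by omega
      have e2 : n + (N.factorial : ℤ) = ((j + N.factorial : ℕ) : ℤ) + 1 := by push_cast; omega
      rw [e2, hpos, e1, hpos]
      exact iterate_add_factorial next e.2 (show Nat.card (Set.range k) ≤ j by omega)
  · intro y
    refine ⟨seq (⟨k y, y, rfl⟩, ⟨k (φ y), φ y, rfl⟩), ⟨_, ⟨y, rfl, rfl⟩, rfl⟩, 0, ?_, ?_⟩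
    · have h0 := hneg (⟨k y, y, rfl⟩, ⟨k (φ y), φ y, rfl⟩) 0
      simp only [Nat.cast_zero, neg_zero, Function.iterate_zero, id_eq] at h0
      rw [hseq, h0]
    · have h1 := hpos (⟨k y, y, rfl⟩, ⟨k (φ y), φ y, rfl⟩) 0
      simp only [Nat.cast_zero, Function.iterate_zero, id_eq] at h1
      rw [hseq, h1]

/-- Finitely many exceptions from the window property. -/
theorem window_finite {X : Type} {k : X → ℕ} {s : ℤ → X} {p N : ℕ} (hs : {n : ℤ | k (s (n + p)) ≠ k (s n)}.Finite) :
    {n : ℤ | ∃ i : ℤ, |i| ≤ N ∧ k (s (n + p + i)) ≠ k (s (n + i))}.Finite := by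
  have h1 : {n : ℤ | ∃ i : ℤ, |i| ≤ N ∧ k (s (n + p + i)) ≠ k (s (n + i))} ⊆
      ⋃ i ∈ Set.Icc (-(N : ℤ)) N, (fun n => n - i) '' {n : ℤ | k (s (n + p)) ≠ k (s n)} := by
    rintro n ⟨i, hi, h⟩
    refine Set.mem_biUnion (Set.mem_Icc.2 (abs_le.1 hi)) ⟨n + i, ?_, by ring⟩
    have e : n + i + (p : ℤ) = n + p + i := by ring
    rw [Set.mem_ofPred_eq, e]
    exact h
  exact (Set.Finite.biUnion (Set.finite_Icc _ _) fun i _ => hs.image _).subset h1

end Pool.Agent.ZT
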