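import Pool.Agent.ZT.Run
import Pool.Agent.ZT.Lines

/-!
# Windows

The position of a particle after a run of length `N` from the initial state, relative to the particle,
depends only on the labels of the points at distance at most `N + 1` from the particle. So for labels on
`I × ℤ` which are eventually periodic, a permutation reached by a run commutes with the translation by
the period up to finitely many points.
-/

set_option autoImplicit false

namespace Pool.Agent.ZT

namespace Gr

variable {A P : Type} (S : Gr A P)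

/-- The point `u x`, for a word `u` in the permutations `σ a` and their inverses. -/
def mv (u : List (A × Bool)) (x : P) : P :=
  u.foldr (fun z y => if z.2 then S.σ z.1 y else (S.σ z.1)⁻¹ y) x

/-- The same labels at distance at most `n`. -/
def Near (n : ℕ) (x x' : P) : Prop :=
  ∀ u : List (A × Bool), u.length ≤ n → S.ν (S.mv u x) = S.ν (S.mv u x')

/-- Particles with the same labels at distance at most `N + 1` are in the same token and have the same
relative position, at distance at most `N`. -/
def Win (N : ℕ) (c : Set (Set (P × P))) : Prop :=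
  ∀ x x', S.Near (N + 1) x x' → ∃ τ ∈ c, ∃ u : List (A × Bool), u.length ≤ N ∧
    (S.mv u x, x) ∈ τ ∧ (S.mv u x', x') ∈ τ

variable {S}

theorem mv_cons (z : A × Bool) (u : List (A × Bool)) (x : P) :
    S.mv (z :: u) x = if z.2 then S.σ z.1 (S.mv u x) else (S.σ z.1)⁻¹ (S.mv u x) := rfl

theorem Near.mono {m n : ℕ} (h : m ≤ n) {x x' : P} (hx : S.Near n x x') : S.Near m x x' :=
  fun u hu => hx u (hu.trans h)

theorem Near.ty_eq {n : ℕ} {x x' : P} (hx : S.Near n x x') {u : List (A × Bool)} (hu : u.length + 1 ≤ n) :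
    S.ty (S.mv u x) = S.ty (S.mv u x') := by
  unfold ty
  congr 1
  · exact hx u (by omega)
  · funext a
    exact hx ((a, true) :: u) (by rw [List.length_cons]; exact hu)

theorem win_diag : S.Win 0 (S.parts {z | z.1 = z.2}) := by
  intro x x' h
  have h0 : ([] : List (A × Bool)).length + 1 ≤ 0 + 1 := le_refl _
  have h1 : (x, x) ∈ ({z | z.1 = z.2} : Set (P × P)) := rfl
  have h2 : (x', x') ∈ ({z | z.1 = z.2} : Set (P × P)) := rfl
  exact ⟨_, pt_mem_parts h1, [], le_refl _, ⟨h1, rfl⟩, ⟨h2, (h.ty_eq h0).symm⟩⟩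

theorem Win.step {N : ℕ} {c c' : Set (Set (P × P))} (h : S.Win N c) {z : Lt A P × Bool}
    (hz : S.Step c z c') : S.Win (N + 1) c' := by
  intro x x' hx
  obtain ⟨τ, hτ, u, hu, h1, h2⟩ := h x x' (hx.mono (by omega))
  obtain ⟨ℓ, ε⟩ := z
  obtain ⟨-, hs, rfl⟩ := hz
  by_cases hτ' : τ ∈ S.tk ℓ ε
  · have key : ∀ y, (S.mv u y, y) ∈ τ → (S.mv ((ℓ.1, ε) :: u) y, y) ∈ S.side ℓ (!ε) := by
      intro y hy
      have h3 := parts_sub hτ' hy
      cases ε
      · exact h3
      · exact mem_sh'.2 h3
    have h3 := key x h1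
    have h4 := key x' h2
    have h5 : S.ty (S.mv ((ℓ.1, ε) :: u) x) = S.ty (S.mv ((ℓ.1, ε) :: u) x') :=
      hx.ty_eq (by rw [List.length_cons]; omega)
    exact ⟨_, Or.inr (pt_mem_parts h3), (ℓ.1, ε) :: u, by rw [List.length_cons]; omega, ⟨h3, rfl⟩,
      ⟨h4, h5.symm⟩⟩
  · exact ⟨τ, Or.inl ⟨hτ, hτ'⟩, u, by omega, h1, h2⟩

/-- **The window lemma.** -/
theorem Win.run {w : List (Lt A P × Bool)} : ∀ {N : ℕ} {c c' : Set (Set (P × P))}, S.Win N c →
    S.Run c w c' → S.Win (N + w.length) c' := by
  induction w with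
  | nil =>
    rintro N c c' h rfl
    exact h
  | cons z w ih =>
    rintro N c c' h ⟨c₁, h1, h2⟩
    have h3 := ih (h.step h1) h2
    have e : N + (z :: w).length = N + 1 + w.length := by
      rw [List.length_cons]
      omega
    rw [e]
    exact h3

/-- Runs from the initial state to the state of a permutation `q`. -/
theorem window {w : List (Lt A P × Bool)} {q : Equiv.Perm P}
    (h : S.Run (S.parts {z | z.1 = z.2}) w (S.parts {z | z.2 = q z.1})) {x x' : P}
    (hx : S.Near (w.length + 1) x x') :
    ∃ u : List (A × Bool), u.length ≤ w.length ∧ q⁻¹ x = S.mv u x ∧ q⁻¹ x' = S.mv u x' := by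
  have h1 := win_diag.run h
  rw [Nat.zero_add] at h1
  obtain ⟨τ, hτ, u, hu, h2, h3⟩ := h1 x x' hx
  refine ⟨u, hu, ?_, ?_⟩
  · have h4 : x = q (S.mv u x) := parts_sub hτ h2
    rw [Equiv.Perm.inv_eq_iff_eq]
    exact h4
  · have h4 : x' = q (S.mv u x') := parts_sub hτ h3
    rw [Equiv.Perm.inv_eq_iff_eq]
    exact h4

end Gr

/-- The translation of a word in the case of `ℤ`. -/
def tr (u : List (Unit × Bool)) : ℤ := (u.map fun z => if z.2 then (1 : ℤ) else -1).sum

theorem tr_cons (z : Unit × Bool) (u : List (Unit × Bool)) : tr (z :: u) = (if z.2 then 1 else -1) + tr u := by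
  unfold tr
  rw [List.map_cons, List.sum_cons]

theorem abs_tr_le (u : List (Unit × Bool)) : |tr u| ≤ u.length := by
  induction u with
  | nil => exact le_of_eq (by unfold tr; rfl)
  | cons z u ih =>
    rw [tr_cons, List.length_cons, Nat.cast_add, Nat.cast_one]
    have h : |(if z.2 then (1 : ℤ) else -1)| = 1 := by
      cases z.2 <;> rfl
    calc |(if z.2 then (1 : ℤ) else -1) + tr u| ≤ |(if z.2 then (1 : ℤ) else -1)| + |tr u| := abs_add_le _ _
      _ ≤ 1 + u.length := by rw [h]; omega
      _ = u.length + 1 := add_comm _ _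

section Line

variable {I : Type} {S : Gr Unit (I × ℤ)}

theorem mv_line (hσ : ∀ i n, S.σ () (i, n) = (i, n + 1)) (u : List (Unit × Bool)) (i : I) (n : ℤ) :
    S.mv u (i, n) = (i, n + tr u) := by
  have hσ' : ∀ i n, (S.σ ())⁻¹ (i, n) = (i, n - 1) := by
    intro i n
    rw [Equiv.Perm.inv_eq_iff_eq, hσ, sub_add_cancel]
  induction u with
  | nil =>
    change (i, n) = _
    rw [show tr [] = 0 from rfl, add_zero]
  | cons z u ih =>
    rw [Gr.mv_cons, ih, tr_cons]
    obtain ⟨⟨⟩, ε⟩ := z
    cases ε
    · change (S.σ ())⁻¹ (i, n + tr u) = _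
      rw [hσ']
      congr 1
      change n + tr u - 1 = n + (-1 + tr u)
      ring
    · change S.σ () (i, n + tr u) = _
      rw [hσ]
      congr 1
      change n + tr u + 1 = n + (1 + tr u)
      ring

/-- If the labels on every line are periodic with period `p` up to finitely many points, then the line
preserving permutations reached by runs commute with the translation by `p` up to finitely many points on
each line. -/
theorem mem_EPJ_of_run (hσ : ∀ i n, S.σ () (i, n) = (i, n + 1)) {p : ℕ}
    (hp : ∀ i, {n : ℤ | S.ν (i, n + p) ≠ S.ν (i, n)}.Finite) {w : List (Lt Unit (I × ℤ) × Bool)}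
    {q : Equiv.Perm (I × ℤ)} (hq : ∀ x, (q x).1 = x.1)
    (h : S.Run (S.parts {z | z.1 = z.2}) w (S.parts {z | z.2 = q z.1})) : q ∈ EPJ I p := by
  have hq' : ∀ x, (q⁻¹ x).1 = x.1 := by
    intro x
    have h1 := hq (q⁻¹ x)
    rw [pai] at h1
    exact h1.symm
  have key : q⁻¹ ∈ EPJ I p := by
    refine ⟨hq', fun i => ?_⟩
    refine ((Set.finite_Icc (-(w.length + 1 : ℤ)) (w.length + 1)).biUnion
      (t := fun j => {n : ℤ | S.ν (i, n + j + p) ≠ S.ν (i, n + j)}) fun j _ => ?_).subset ?_
    · have h1 := (hp i).preimage (f := fun n : ℤ => n + j) (fun a _ b _ hab => add_right_cancel hab)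
      exact h1
    · intro n hn
      by_contra hc
      refine hn ?_
      have hx : S.Near (w.length + 1) (i, n) (i, n + p) := by
        intro u hu
        rw [mv_line hσ, mv_line hσ]
        by_contra hne
        refine hc (Set.mem_iUnion₂.2 ⟨tr u, ?_, ?_⟩)
        · have h1 := abs_tr_le u
          have h2 : (u.length : ℤ) ≤ w.length + 1 := by exact_mod_cast hu
          rw [abs_le] at h1
          exact ⟨by omega, by omega⟩
        · intro h3
          apply hne
          rw [← h3]
          congr 2
          ring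
      obtain ⟨u, -, h1, h2⟩ := Gr.window h hx
      rw [h1, h2, mv_line hσ, mv_line hσ]
      change n + p + tr u = n + tr u + p
      ring
  have h2 := (EPJ I p).inv_mem key
  rwa [inv_inv] at h2

end Line

end Pool.Agent.ZT
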