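import Pool.Agent.ZT.ThA
import Pool.Agent.ZT.Win
import Pool.Agent.ZT.QF
import Pool.Agent.ZT.Flow

/-!
# Level groups of sets with an action of a free group

For an action of `F = FreeGroup A` on `Z` and a function `κ : Z → ℕ` the points are the pairs `(z, h)` in
`Z × F`, with the label `κ (h • z)`, and `σ a (z, h) = (z, a h)`. The permutations reached by runs are given by
cocycles. The level group is in `C` if the types of `κ` are the types of a finite `F`-set (for example if there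
is an invariant measure of full support), and always for `F = ℤ`.
-/

set_option autoImplicit false

namespace Pool.Agent.ZT

open Pool.Agent.Helper29.BA Pool.Agent.Helper29.PA Pool.Agent.T59

variable {C : ∀ (G : Type) [Group G], Prop}

section sum

variable {A P P' : Type}

/-- The disjoint union. -/
def Gr.sum (S : Gr A P) (S' : Gr A P') : Gr A (P ⊕ P') where
  σ a := Equiv.sumCongr (S.σ a) (S'.σ a)
  ν := Sum.elim S.ν S'.ν
  Λ := S.Λ ⊕ S'.Λ
  ln := Sum.map S.ln S'.ln
  ln_σ := by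
    rintro a (p | p)
    · exact congrArg Sum.inl (S.ln_σ a p)
    · exact congrArg Sum.inr (S'.ln_σ a p)

variable (S : Gr A P) (S' : Gr A P')

/-- The first summand, if it has all types of the second one. -/
def Hm.inl (h : ∀ p', ∃ p, S.ty p = S'.ty p') : Hm S (S.sum S') where
  j := Sum.inl
  inj := Sum.inl_injective
  σ _ _ := rfl
  ν _ := rfl
  ln _ _ := ⟨fun h => Sum.inl_injective h, fun h => congrArg Sum.inl h⟩
  rg := by
    rintro p (q | q) h
    · exact ⟨q, rfl⟩
    · cases h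
  meet := by
    rintro (p | p')
    · exact ⟨p, rfl⟩
    · obtain ⟨p, hp⟩ := h p'
      exact ⟨p, hp⟩

/-- The second summand, if it has all types of the first one. -/
def Hm.inr (h : ∀ p, ∃ p', S'.ty p' = S.ty p) : Hm S' (S.sum S') where
  j := Sum.inr
  inj := Sum.inr_injective
  σ _ _ := rfl
  ν _ := rfl
  ln _ _ := ⟨fun h => Sum.inr_injective h, fun h => congrArg Sum.inr h⟩
  rg := by
    rintro p (q | q) h
    · cases h
    · exact ⟨q, rfl⟩
  meet := by
    rintro (p | p')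
    · obtain ⟨p', hp'⟩ := h p
      exact ⟨p', hp'⟩
    · exact ⟨p', rfl⟩

/-- **Level groups with the same types.** -/
theorem D_mem_of_types (hC : ExtClass C) (h : ∀ p, ∃ p', S'.ty p' = S.ty p)
    (h' : ∀ p', ∃ p, S.ty p = S'.ty p') (hD : C S'.D) : C S.D :=
  Gr.D_mem_of_hm hC (Hm.inl S S' h') (Hm.inr S S' h) hD

end sum

section sets

variable {A Z : Type} [MulAction (FreeGroup A) Z]

/-- The points of a coloured set. -/
def grF (κ : Z → ℕ) : Gr A (Z × FreeGroup A) where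
  σ a := Equiv.prodCongr (Equiv.refl Z) (Equiv.mulLeft (FreeGroup.of a))
  ν p := κ (p.2 • p.1)
  Λ := Z
  ln := Prod.fst
  ln_σ _ _ := rfl

variable {κ : Z → ℕ}

theorem grF_σ (a : A) (z : Z) (h : FreeGroup A) : (grF κ).σ a (z, h) = (z, FreeGroup.of a * h) := rfl

theorem grF_σ_inv (a : A) (z : Z) (h : FreeGroup A) :
    ((grF κ).σ a)⁻¹ (z, h) = (z, (FreeGroup.of a)⁻¹ * h) := by
  rw [Equiv.Perm.inv_eq_iff_eq, grF_σ, mul_inv_cancel_left]

theorem grF_ty (z : Z) (h : FreeGroup A) :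
    (grF κ).ty (z, h) = (κ (h • z), fun a => κ (FreeGroup.of a • h • z)) := by
  refine Prod.ext rfl (funext fun a => ?_)
  change κ ((FreeGroup.of a * h) • z) = _
  rw [mul_smul]

theorem mk_cons (z : A × Bool) (u : List (A × Bool)) :
    FreeGroup.mk (z :: u) = (if z.2 then FreeGroup.of z.1 else (FreeGroup.of z.1)⁻¹) * FreeGroup.mk u := by
  obtain ⟨a, ε⟩ := z
  cases ε
  · rfl
  · rfl

theorem mv_grF (u : List (A × Bool)) (z : Z) (h : FreeGroup A) :
    (grF κ).mv u (z, h) = (z, FreeGroup.mk u * h) := by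
  induction u with
  | nil =>
    change (z, h) = (z, 1 * h)
    rw [one_mul]
  | cons y u ih =>
    rw [Gr.mv_cons, ih, mk_cons]
    obtain ⟨a, ε⟩ := y
    cases ε
    · change ((grF κ).σ a)⁻¹ (z, FreeGroup.mk u * h) = (z, (FreeGroup.of a)⁻¹ * FreeGroup.mk u * h)
      rw [grF_σ_inv, mul_assoc]
    · change (grF κ).σ a (z, FreeGroup.mk u * h) = (z, FreeGroup.of a * FreeGroup.mk u * h)
      rw [grF_σ, mul_assoc]

theorem ν_mv (u : List (A × Bool)) (z : Z) (h : FreeGroup A) :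
    (grF κ).ν ((grF κ).mv u (z, h)) = κ (FreeGroup.mk u • h • z) := by
  rw [mv_grF]
  change κ ((FreeGroup.mk u * h) • z) = _
  rw [mul_smul]

/-- **The elements of the level group are given by local cocycles.** -/
theorem exists_cocycle {x : (grF κ).Am} (hx : x ∈ (grF κ).D) :
    ∃ (c : Z → FreeGroup A) (N : ℕ), (∀ z h, x.right.1 (z, h) = (z, c (h • z) * h)) ∧
      (∀ y, ∃ u : List (A × Bool), u.length ≤ N ∧ c y = FreeGroup.mk u) ∧
      ∀ y y', (∀ u : List (A × Bool), u.length ≤ N → κ (FreeGroup.mk u • y) = κ (FreeGroup.mk u • y')) →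
        c y = c y' := by
  obtain ⟨w, h1, -⟩ := (grF κ).D.inv_mem hx
  have h2 : (grF κ).Run ((grF κ).parts {z | z.1 = z.2}) w
      ((grF κ).parts {z | z.2 = (x.right.1)⁻¹ z.1}) := by
    have e1 : ({z | z.1 = z.2} : Set ((Z × FreeGroup A) × (Z × FreeGroup A))) = Gr.diag 1 := by
      ext z
      exact ⟨fun h => h.symm, fun h => h.symm⟩
    rw [e1]
    exact h1
  have key : ∀ p p', (grF κ).Near (w.length + 1) p p' → ∃ u : List (A × Bool), u.length ≤ w.length ∧
      x.right.1 p = (grF κ).mv u p ∧ x.right.1 p' = (grF κ).mv u p' := by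
    intro p p' hp
    have h3 := Gr.window h2 hp
    rw [inv_inv] at h3
    exact h3
  refine ⟨fun y => (x.right.1 (y, 1)).2, w.length + 1, fun z h => ?_, fun y => ?_, fun y y' hy => ?_⟩
  · obtain ⟨u, -, h3, h4⟩ := key (z, h) (h • z, 1) fun u _ => by
      rw [ν_mv, ν_mv, one_smul]
    change x.right.1 (z, h) = (z, (x.right.1 (h • z, 1)).2 * h)
    rw [h3, h4, mv_grF, mv_grF, mul_one]
  · obtain ⟨u, h3, h4, -⟩ := key (y, 1) (y, 1) fun u _ => rfl
    refine ⟨u, by omega, ?_⟩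
    change (x.right.1 (y, 1)).2 = _
    rw [h4, mv_grF, mul_one]
  · obtain ⟨u, -, h3, h4⟩ := key (y, 1) (y', 1) fun u hu => by
      rw [ν_mv, ν_mv, one_smul, one_smul]
      exact hy u hu
    change (x.right.1 (y, 1)).2 = (x.right.1 (y', 1)).2
    rw [h3, h4, mv_grF, mv_grF]

/-- Finite sets. -/
theorem mem_grF_finite (hC : ExtClass C) [Finite Z] (κ : Z → ℕ) : C (grF (A := A) κ).D := by
  refine Gr.D_mem hC (QF (F := FreeGroup A) (Set.univ : Set Z)) (mem_QF_free hC.toClosedClass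
    Set.finite_univ fun _ _ _ => trivial) ?_
  intro x hx
  obtain ⟨c, N, h1, -, -⟩ := exists_cocycle hx
  refine ⟨x.right.2, fun y hy => (hy trivial).elim, fun k t h _ => ?_⟩
  rw [h1, h1, smul_smul, inv_mul_cancel_right, mul_assoc]

/-- Two coloured sets with the same types. -/
theorem mem_grF_of_types {T : Type} [MulAction (FreeGroup A) T] (hC : ExtClass C) (κ : Z → ℕ) (κ' : T → ℕ)
    (h : ∀ z, ∃ t, κ' t = κ z ∧ ∀ a : A, κ' (FreeGroup.of a • t) = κ (FreeGroup.of a • z))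
    (h' : ∀ t, ∃ z, κ z = κ' t ∧ ∀ a : A, κ (FreeGroup.of a • z) = κ' (FreeGroup.of a • t))
    (hD : C (grF (A := A) κ').D) : C (grF (A := A) κ).D := by
  refine D_mem_of_types (grF κ) (grF κ') hC ?_ ?_ hD
  · rintro ⟨z, g⟩
    obtain ⟨t, h1, h2⟩ := h (g • z)
    refine ⟨(t, 1), ?_⟩
    rw [grF_ty, grF_ty, one_smul]
    exact Prod.ext h1 (funext h2)
  · rintro ⟨t, g⟩
    obtain ⟨z, h1, h2⟩ := h' (g • t)
    refine ⟨(z, 1), ?_⟩
    rw [grF_ty, grF_ty, one_smul]
    exact Prod.ext h1 (funext h2)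

end sets

/-- **Actions with an invariant measure of full support.** -/
theorem mem_grF_measure (hC : ExtClass C) {A X : Type} [Finite A] [TopologicalSpace X] [CompactSpace X]
    [MeasurableSpace X] [BorelSpace X] (m : MeasureTheory.Measure X) [MeasureTheory.IsFiniteMeasure m]
    [m.IsOpenPosMeasure] [MulAction (FreeGroup A) X] (φ : A → X ≃ₜ X)
    (hφ : ∀ a x, FreeGroup.of a • x = φ a x)
    (hm : ∀ a, MeasureTheory.MeasurePreserving (φ a) m m) (κ : X → ℕ) (hκ : IsLocallyConstant κ) :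
    C (grF (A := A) κ).D := by
  obtain ⟨T, hT, κT, p, h1, h2⟩ := exists_finite_coloured_model m φ hm κ hκ
  let _ : MulAction (FreeGroup A) T := MulAction.compHom T (FreeGroup.lift p)
  have hp : ∀ a t, FreeGroup.of a • t = p a t := by
    intro a t
    change (FreeGroup.lift p (FreeGroup.of a)) t = p a t
    rw [FreeGroup.lift_apply_of]
  refine mem_grF_of_types hC κ κT ?_ ?_ (mem_grF_finite hC κT)
  · intro x
    obtain ⟨t, h3, h4⟩ := h2 x
    exact ⟨t, h3.symm, fun a => by rw [hp, hφ]; exact (h4 a).symm⟩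
  · intro t
    obtain ⟨x, h3, h4⟩ := h1 t
    exact ⟨x, h3, fun a => by rw [hp, hφ]; exact h4 a⟩

section zed

variable {X : Type}

/-- The lines of sequences. -/
def grL (I : Set (ℤ → X)) (κ : X → ℕ) : Gr Unit (I × ℤ) where
  σ _ := Equiv.prodCongr (Equiv.refl I) (Equiv.addRight 1)
  ν p := κ (p.1.1 p.2)
  Λ := I
  ln := Prod.fst
  ln_σ _ _ := rfl

/-- **Actions of `ℤ`.** -/
theorem mem_grF_unit (hC : ExtClass C) [MulAction (FreeGroup Unit) X] (κ : X → ℕ)
    (hκ : (Set.range κ).Finite) : C (grF (A := Unit) κ).D := by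
  obtain ⟨I, p, hI, hp, h1, h2, h3⟩ := exists_lines (MulAction.toPerm (FreeGroup.of ())) κ hκ
  have : Finite I := hI.to_subtype
  have : NeZero p := ⟨hp⟩
  have hty : ∀ (i : I) (n : ℤ), (grL I κ).ty (i, n) = (κ (i.1 n), fun _ => κ (i.1 (n + 1))) :=
    fun _ _ => rfl
  refine D_mem_of_types (grF κ) (grL I κ) hC ?_ ?_ (Gr.D_mem hC (EPJ I p) (mem_EPJ hC I p) ?_)
  · rintro ⟨z, g⟩
    obtain ⟨s, hs, n, h4, h5⟩ := h3 (g • z)
    refine ⟨(⟨s, hs⟩, n), ?_⟩
    rw [grF_ty, hty]
    exact Prod.ext h4 (funext fun _ => h5)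
  · rintro ⟨⟨s, hs⟩, n⟩
    obtain ⟨y, h4, h5⟩ := h1 s hs n
    refine ⟨(y, 1), ?_⟩
    rw [grF_ty, hty, one_smul]
    exact Prod.ext h4 (funext fun _ => h5)
  · rintro x ⟨w, h4, -⟩
    refine mem_EPJ_of_run (S := grL I κ) (fun _ _ => rfl) (fun i => h2 i.1 i.2) (w := w) x.right.2 ?_
    have e1 : ({z | z.1 = z.2} : Set ((I × ℤ) × (I × ℤ))) = Gr.diag 1 := by
      ext z
      exact ⟨fun h => h.symm, fun h => h.symm⟩
    rw [e1]
    exact h4

end zed

end Pool.Agent.ZT
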