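import Pool.Agent.ZT.KerX
import Pool.Agent.ZT.Sets
import Pool.Agent.ZT.Full

/-!
# The full group as a colimit of level groups
-/

set_option autoImplicit false

namespace Pool.Agent.ZT

open Pool.Agent.Helper29.BA Pool.Agent.Helper29.PA Pool.Agent.T59

variable {C : ∀ (G : Type) [Group G], Prop} {A X : Type}

/-! ### Locally constant functions -/

section lc

variable [TopologicalSpace X]

/-- Coding of a locally constant function by a natural number. -/
theorem exists_code [CompactSpace X] {Y : Type} {f : X → Y} (hf : IsLocallyConstant f) :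
    ∃ κ : X → ℕ, IsLocallyConstant κ ∧ ∀ x y, κ x = κ y ↔ f x = f y := by
  have h1 : (Set.range f).Finite := hf.range_finite
  have : Finite (Set.range f) := h1.to_subtype
  obtain ⟨e, he⟩ := Countable.exists_injective_nat (Set.range f)
  have h2 : IsLocallyConstant (Set.rangeFactorization f) := by
    rw [IsLocallyConstant.iff_eventually_eq]
    intro x
    filter_upwards [hf.eventually_eq x] with y hy
    exact Subtype.ext hy
  refine ⟨fun x => e (Set.rangeFactorization f x), h2.comp e, fun x y => ?_⟩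
  rw [he.eq_iff]
  exact Subtype.ext_iff

theorem exists_bound [CompactSpace X] {κ : X → ℕ} (hκ : IsLocallyConstant κ) :
    ∃ n, ∀ x, κ x < n := by
  obtain ⟨n, hn⟩ := hκ.range_finite.bddAbove
  exact ⟨n + 1, fun x => Nat.lt_succ_of_le (hn ⟨x, rfl⟩)⟩

/-- Functions determined by finitely many locally constant functions. -/
theorem lc_of_finite {Y Z I : Type} {s : Set I} (hs : s.Finite) {f : X → Y} {k : I → X → Z}
    (hk : ∀ i ∈ s, IsLocallyConstant (k i))
    (h : ∀ x y, (∀ i ∈ s, k i x = k i y) → f x = f y) : IsLocallyConstant f := by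
  rw [IsLocallyConstant.iff_eventually_eq]
  intro x
  have h1 : ∀ᶠ y in nhds x, ∀ i ∈ s, k i y = k i x :=
    (Filter.eventually_all_finite hs).2 fun i hi => (hk i hi).eventually_eq x
  filter_upwards [h1] with y hy
  exact h y x hy

end lc

/-! ### The levels -/

section levels

/-- Factorisation. -/
theorem exists_factor {κ κ' : X → ℕ} (h : ∀ x y, κ' x = κ' y → κ x = κ y) :
    ∃ f : ℕ → ℕ, ∀ x, κ x = f (κ' x) := by
  classical
  refine ⟨fun n => if h : ∃ x, κ' x = n then κ h.choose else 0, fun x => ?_⟩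
  have h1 : ∃ y, κ' y = κ' x := ⟨x, rfl⟩
  change κ x = dite _ _ _
  rw [dif_pos h1]
  exact h _ _ h1.choose_spec.symm

variable [MulAction (FreeGroup A) X]

/-- The labels of the points. -/
def lab (A : Type) {X : Type} [MulAction (FreeGroup A) X] (κ : X → ℕ) (p : X × FreeGroup A) : ℕ :=
  κ (p.2 • p.1)

/-- The transition homomorphism of the ambient groups. -/
noncomputable def trK (κ κ' : X → ℕ) (n : ℕ) : (grF (A := A) κ).Am →* (grF (A := A) κ').Am :=
  (grF (A := A) κ).trA (lab A κ') n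

theorem trK_right (κ κ' : X → ℕ) (n : ℕ) (x : (grF (A := A) κ).Am) :
    ((trK κ κ' n x).right : Equiv.Perm (X × FreeGroup A)) = x.right := rfl

theorem trK_mem {κ κ' : X → ℕ} (h : ∀ x y, κ' x = κ' y → κ x = κ y) {n : ℕ}
    (hn : ∀ x, κ' x < n) {x : (grF (A := A) κ).Am} (hx : x ∈ (grF (A := A) κ).D) :
    trK κ κ' n x ∈ (grF (A := A) κ').D := by
  obtain ⟨f, hf⟩ := exists_factor h
  exact Gr.trA_mem (S := grF κ) (μ := lab A κ') (φ := f) (fun p => hf _) (fun p => hn _) hx

theorem trK_trK {κ κ' κ'' : X → ℕ} (h : ∀ x y, κ'' x = κ'' y → κ' x = κ' y) {n : ℕ}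
    (hn : ∀ x, κ' x < n) (m : ℕ) (x : (grF (A := A) κ).Am) :
    trK κ' κ'' m (trK κ κ' n x) = trK κ κ'' m x := by
  obtain ⟨f, hf⟩ := exists_factor h
  exact Gr.trA_trA (S := grF κ) (μ := lab A κ') (ξ := lab A κ'') (ψ := f) (fun p => hf _)
    (fun p => hn _) m x

end levels

/-! ### The action -/

section action

variable [TopologicalSpace X] (φ : A → X ≃ₜ X)

/-- The action of the free group. -/
@[reducible] def actF : MulAction (FreeGroup A) X where
  smul g x := ac φ g x
  one_smul x := ac_one φ x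
  mul_smul g h x := ac_mul φ g h x

/-- The action on the points. -/
@[reducible] def actP (A X : Type) : MulAction (FreeGroup A) (X × FreeGroup A) where
  smul u p := (p.1, u * p.2)
  one_smul _ := Prod.ext rfl (one_mul _)
  mul_smul _ _ _ := Prod.ext rfl (mul_assoc _ _ _)

theorem finite_words [Finite A] (N : ℕ) : {u : List (A × Bool) | u.length ≤ N}.Finite := by
  have h1 : {u : List (A × Bool) | u.length ≤ N} ⊆
      ⋃ n ∈ Finset.range (N + 1), {u : List (A × Bool) | u.length = n} := by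
    intro u hu
    refine Set.mem_iUnion₂.2 ⟨u.length, ?_, rfl⟩
    rw [Finset.mem_range]
    exact Nat.lt_succ_of_le hu
  refine (Set.Finite.biUnion (Finset.finite_toSet _) fun n _ => ?_).subset h1
  exact List.finite_length_eq (A × Bool) n

/-- The second components of the level groups are in the full group. -/
theorem right_mem [Finite A] (κ : X → ℕ) (hκ : IsLocallyConstant κ) :
    letI := actF φ
    ∀ x ∈ (grF (A := A) κ).D, (x.right : Equiv.Perm (X × FreeGroup A)) ∈ FG φ := by
  let _ := actF φ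
  intro x hx
  obtain ⟨c, N, h1, -, h3⟩ := exists_cocycle hx
  refine ⟨c, ?_, h1⟩
  refine lc_of_finite (finite_words (A := A) N) (k := fun u x => κ (FreeGroup.mk u • x)) ?_ h3
  intro u _
  exact hκ.comp_continuous (ac φ (FreeGroup.mk u)).continuous

/-- Every element of the full group is the second component of an element of a level group. -/
theorem exists_level [Finite A] [CompactSpace X] {q : Equiv.Perm (X × FreeGroup A)}
    (hq : q ∈ FG φ) :
    letI := actF φ
    ∃ κ : X → ℕ, IsLocallyConstant κ ∧ ∃ x ∈ (grF (A := A) κ).D,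
      (x.right : Equiv.Perm (X × FreeGroup A)) = q := by
  classical
  let _ := actF φ
  let _ := actP A X
  obtain ⟨d, hd, hdq⟩ := (FG φ).inv_mem hq
  obtain ⟨N, hN⟩ : ∃ N, ∀ x, (d x).norm ≤ N := by
    obtain ⟨N, hN⟩ := ((hd.comp FreeGroup.norm).range_finite).bddAbove
    exact ⟨N, fun x => hN ⟨x, rfl⟩⟩
  let Y : X → ({u : FreeGroup A | u.norm ≤ N} → FreeGroup A) := fun x u => d (u.1⁻¹ • x)
  have hY : IsLocallyConstant Y := by
    refine lc_of_finite (Pool.Agent.TZ.finite_ball (A := A) N) (k := fun u x => d (u⁻¹ • x)) ?_ ?_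
    · intro u _
      exact hd.comp_continuous (ac φ u⁻¹).continuous
    · intro x y h
      funext u
      exact h u.1 u.2
  obtain ⟨κ, hκ, hκY⟩ := exists_code hY
  have hln : q ∈ (grF (A := A) κ).Ln := by
    obtain ⟨c, -, hc⟩ := hq
    rintro ⟨x, g⟩
    rw [hc]
    rfl
  have key : ∃ D : List ((A × ℕ × FreeGroup A) × Bool), (grF (A := A) κ).Run
      ((grF (A := A) κ).parts {z | z.2 = z.1}) (D.map (grF (A := A) κ).ltr)
      ((grF (A := A) κ).parts {z | z.2 = q z.1}) := by
    refine Gr.exists_run (S := grF (A := A) κ) (fun a p => rfl) (fun u p h => ?_) ?_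
      (off := fun p => d (p.2 • p.1)) (N := N) (fun p => hN _) ?_ q ?_
    · have h1 : u * p.2 = p.2 := congrArg Prod.snd h
      exact mul_eq_right.1 h1
    · refine hκ.range_finite.subset ?_
      rintro _ ⟨p, rfl⟩
      exact ⟨_, rfl⟩
    · rintro ⟨x, g⟩ ⟨y, h⟩ hxy u hu
      have h1 := (hκY (g • x) (h • y)).1 hxy
      have h2 := congrFun h1 ⟨u, hu⟩
      change d (u⁻¹ • g • x) = d (u⁻¹ • h • y) at h2
      change d ((u⁻¹ * g) • x) = d ((u⁻¹ * h) • y)
      rw [mul_smul, mul_smul, h2]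
    · rintro ⟨x, g⟩
      have h1 : q⁻¹ (x, g) = (x, d (ac φ g x) * g) := hdq x g
      change q (x, d (ac φ g x) * g) = (x, g)
      rw [← h1, pai]
  obtain ⟨D, hD⟩ := key
  exact ⟨κ, hκ, ⟨wp (gen R) (D.map (grF (A := A) κ).ltr), ⟨q, hln⟩⟩, ⟨_, hD, rfl⟩, rfl⟩

/-- The index set of the colimit. -/
def LC (X : Type) [TopologicalSpace X] : Type := {κ : X → ℕ // IsLocallyConstant κ}

instance : Preorder (LC X) where
  le κ κ' := ∀ x y, κ'.1 x = κ'.1 y → κ.1 x = κ.1 y
  le_refl _ _ _ h := h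
  le_trans _ _ _ h h' x y hxy := h x y (h' x y hxy)

instance : Nonempty (LC X) := ⟨⟨fun _ => 0, IsLocallyConstant.const 0⟩⟩

instance : IsDirectedOrder (LC X) where
  directed κ κ' := by
    refine ⟨⟨fun x => Nat.pair (κ.1 x) (κ'.1 x), (κ.2.prodMk κ'.2).comp fun p =>
      Nat.pair p.1 p.2⟩, fun x y h => ?_, fun x y h => ?_⟩
    · exact (Nat.pair_eq_pair.1 h).1
    · exact (Nat.pair_eq_pair.1 h).2

/-- A bound. -/
noncomputable def LC.bd [CompactSpace X] (κ : LC X) : ℕ := (exists_bound κ.2).choose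

theorem LC.lt_bd [CompactSpace X] (κ : LC X) (x : X) : κ.1 x < κ.bd :=
  (exists_bound κ.2).choose_spec x

/-- The kernels. -/
theorem exists_kill [Finite A] [CompactSpace X] :
    letI := actF φ
    ∀ κ : LC X, ∀ x ∈ (grF (A := A) κ.1).D, (x.right : Equiv.Perm (X × FreeGroup A)) = 1 →
      ∃ κ' : LC X, κ ≤ κ' ∧ ∀ n, (∀ y, κ'.1 y < n) → trK κ.1 κ'.1 n x = 1 := by
  classical
  let _ := actF φ
  let _ := actP A X
  intro κ x hx hx1
  obtain ⟨m, hm⟩ := Gr.trA_eq_one (S := grF (A := A) κ.1) (fun _ _ => rfl) (fun u p h => by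
    have h1 : u * p.2 = p.2 := congrArg Prod.snd h
    exact mul_eq_right.1 h1) hx hx1
  let Y : X → ({u : List (A × Bool) | u.length ≤ m} → ℕ) := fun x u => κ.1 (FreeGroup.mk u.1 • x)
  have hY : IsLocallyConstant Y := by
    refine lc_of_finite (finite_words (A := A) m) (k := fun u x => κ.1 (FreeGroup.mk u • x)) ?_ ?_
    · intro u _
      exact κ.2.comp_continuous (ac φ (FreeGroup.mk u)).continuous
    · intro x y h
      funext u
      exact h u.1 u.2
  obtain ⟨κ', hκ', hκY⟩ := exists_code hY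
  have h1 : ∀ y y', κ' y = κ' y' → ∀ u : List (A × Bool), u.length ≤ m →
      κ.1 (FreeGroup.mk u • y) = κ.1 (FreeGroup.mk u • y') :=
    fun y y' h u hu => congrFun ((hκY y y').1 h) ⟨u, hu⟩
  have h2 : ∀ y y', κ' y = κ' y' → κ.1 y = κ.1 y' := by
    intro y y' h
    have h3 := h1 y y' h [] (Nat.zero_le _)
    change κ.1 ((1 : FreeGroup A) • y) = κ.1 ((1 : FreeGroup A) • y') at h3
    rwa [one_smul, one_smul] at h3
  obtain ⟨f, hf⟩ := exists_factor h2
  refine ⟨⟨κ', hκ'⟩, h2, fun n hn => ?_⟩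
  refine hm (lab A κ') f n (fun p => hf _) (fun p => hn _) ?_
  rintro ⟨y, g⟩ ⟨y', g'⟩ h u hu
  rw [ν_mv, ν_mv]
  exact h1 _ _ h u hu

/-- **The full group is the colimit of the level groups.** -/
theorem core (hC : ClosedClass C) [Finite A] [CompactSpace X]
    (h : letI := actF φ
      ∀ κ : X → ℕ, IsLocallyConstant κ → C (grF (A := A) κ).D) : C (FG φ) := by
  let _ := actF φ
  refine hC.colimit (LC X) (fun κ => (grF (A := A) κ.1).D)
    (fun κ κ' hκ => ((trK κ.1 κ'.1 κ'.bd).comp (grF (A := A) κ.1).D.subtype).codRestrict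
      (grF (A := A) κ'.1).D fun x => trK_mem hκ κ'.lt_bd x.2) ?_ (FG φ)
    (fun κ => ({ toFun := fun x => ⟨x.1.right.1, right_mem φ κ.1 κ.2 x.1 x.2⟩
                 map_one' := rfl
                 map_mul' := fun _ _ => rfl } : (grF (A := A) κ.1).D →* FG φ)) ?_ ?_ ?_
    (fun κ => h κ.1 κ.2)
  · intro κ κ' κ'' h1 h2 x
    exact Subtype.ext (trK_trK h2 κ'.lt_bd _ x.1)
  · intro κ κ' hκ x
    rfl
  · rintro ⟨q, hq⟩
    obtain ⟨κ, hκ, x, hx, hxq⟩ := exists_level φ hq
    exact ⟨⟨κ, hκ⟩, ⟨x, hx⟩, Subtype.ext hxq⟩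
  · intro κ x hx
    obtain ⟨κ', hκ, h1⟩ := exists_kill φ κ x.1 x.2 (congrArg Subtype.val hx)
    exact ⟨κ', hκ, Subtype.ext (h1 _ κ'.lt_bd)⟩

/-- **Full groups of homeomorphisms.** -/
theorem mem_FG_unit (hC : ExtClass C) [CompactSpace X] (φ : X ≃ₜ X) :
    C (FG (fun _ : Unit => φ)) := by
  refine core (fun _ : Unit => φ) hC.toClosedClass ?_
  let _ := actF fun _ : Unit => φ
  intro κ hκ
  exact mem_grF_unit hC κ hκ.range_finite

/-- **Full groups of free groups of homeomorphisms with an invariant measure of full support.** -/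
theorem mem_FG_measure (hC : ExtClass C) [CompactSpace X] [MeasurableSpace X] [BorelSpace X]
    (m : MeasureTheory.Measure X) [MeasureTheory.IsFiniteMeasure m] [m.IsOpenPosMeasure]
    (hm : ∀ a, MeasureTheory.MeasurePreserving (φ a) m m) : C (FG φ) := by
  refine mem_FG_of_finite φ hC.toClosedClass fun B => core (res φ B) hC.toClosedClass ?_
  let _ := actF (res φ B)
  intro κ hκ
  exact mem_grF_measure hC m (res φ B) (fun a x => by
    change ac (res φ B) (FreeGroup.of a) x = _
    unfold ac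
    rw [FreeGroup.lift_apply_of]) (fun a => hm a.1) κ hκ

end action

end Pool.Agent.ZT
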