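import Pool.Agent.ZT.StarMem
import Pool.Agent.ZT.Core

/-!
# The full groups of actions of free groups without infinite paths in null sets
-/

set_option autoImplicit false

namespace Pool.Agent.ZT

open Pool.Agent.Helper29.BA Pool.Agent.Helper29.PA Pool.Agent.T59

variable {A X : Type} [TopologicalSpace X]

theorem path_res (φ : A → X ≃ₜ X) (B : Finset A) (s : ℕ → B × Bool) (x : X) (n : ℕ) :
    path (res φ B) s x n = path φ (fun n => ((s n).1.1, (s n).2)) x n := by
  induction n with
  | zero => rfl
  | succ n ih =>
    unfold path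
    rw [ih]
    rfl

/-- The condition passes to subsets. -/
theorem Star.res {φ : A → X ≃ₜ X} (h : Star φ) (B : Finset A) : Star (res φ B) := by
  intro U hU hm x s hs
  obtain ⟨n, hn⟩ := h U hU (fun m hm' => hm m ⟨hm'.univ, hm'.nonneg, hm'.union,
    fun b V hV => hm'.map b.1 V hV⟩) x (fun n => ((s n).1.1, (s n).2))
    fun n h1 => hs n (Subtype.ext h1)
  exact ⟨n, by rwa [path_res]⟩

/-- **The full group of an action without infinite paths in null sets.** -/
theorem mem_star {C : ∀ (G : Type) [Group G], Prop} (hC : ExtClass C) [CompactSpace X]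
    (φ : A → X ≃ₜ X) (h : Star φ) : C (FG φ) := by
  refine mem_FG_of_finite φ hC.toClosedClass fun B => ?_
  refine core (res φ B) hC.toClosedClass fun κ hκ => ?_
  exact letI := actF (res φ B)
    mem_grF_star hC (res φ B) (fun a x => by
      change ac (res φ B) (FreeGroup.of a) x = _
      unfold ac
      rw [FreeGroup.lift_apply_of]) (h.res B) κ hκ

/-- Actions such that each nonempty clopen set has positive measure for some invariant
probability measure. -/
theorem star_of_measures {φ : A → X ≃ₜ X}
    (h : ∀ U : Set X, IsClopen U → U.Nonempty → ∃ m, Inv φ m ∧ 0 < m U) : Star φ := by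
  intro U hU hm x s _
  refine ⟨0, fun hx => ?_⟩
  obtain ⟨m, h1, h2⟩ := h U hU ⟨_, hx⟩
  exact h2.ne' (hm m h1)

end Pool.Agent.ZT
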