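import Mathlib

/-!
# Invariant means of orbits
-/

set_option autoImplicit false

namespace Pool.Agent.ZT

open Filter Finset

section

variable {X : Type} (e : Equiv.Perm X) (x : X)

open Classical in
/-- The proportion of the times at which the orbit of `x` is in `V`. -/
noncomputable def av (V : Set X) (N : ℕ) : ℝ :=
  (((range (N + 1)).filter fun k => (e ^ (k + 1)) x ∈ V).card : ℝ) / ((N : ℝ) + 1)

lemma av_mem (V : Set X) (N : ℕ) : av e x V N ∈ Set.Icc (0 : ℝ) 1 := by
  classical
  have h0 : (0 : ℝ) < (N : ℝ) + 1 := by positivity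
  unfold av
  refine ⟨by positivity, ?_⟩
  rw [div_le_one h0]
  have h1 := Finset.card_filter_le (range (N + 1)) fun k => (e ^ (k + 1)) x ∈ V
  rw [Finset.card_range] at h1
  exact_mod_cast h1

lemma av_one {V : Set X} (h : ∀ n : ℕ, (e ^ (n + 1)) x ∈ V) (N : ℕ) : av e x V N = 1 := by
  classical
  have h0 : (0 : ℝ) < (N : ℝ) + 1 := by positivity
  unfold av
  rw [Finset.filter_true_of_mem fun k _ => h k, Finset.card_range]
  push_cast
  exact div_self h0.ne'

lemma av_union {U V : Set X} (h : Disjoint U V) (N : ℕ) :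
    av e x (U ∪ V) N = av e x U N + av e x V N := by
  classical
  unfold av
  rw [← add_div, ← Nat.cast_add, ← Finset.card_union_of_disjoint]
  · congr 2
    apply congrArg Finset.card
    ext k
    simp only [Finset.mem_filter, Finset.mem_union, Set.mem_union]
    tauto
  · rw [Finset.disjoint_filter]
    intro k _ h1 h2
    exact Set.disjoint_left.1 h h1 h2

lemma av_image (V : Set X) (N : ℕ) : |av e x (e '' V) N - av e x V N| ≤ 1 / ((N : ℝ) + 1) := by
  classical
  have h0 : (0 : ℝ) < (N : ℝ) + 1 := by positivity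
  have h1 : ∀ k : ℕ, (e ^ (k + 1)) x ∈ e '' V ↔ (e ^ k) x ∈ V := by
    intro k
    rw [pow_succ', Equiv.Perm.mul_apply]
    exact e.injective.mem_set_image
  obtain ⟨s, hs⟩ : ∃ s : ℕ → ℝ, s = fun k => if (e ^ k) x ∈ V then 1 else 0 := ⟨_, rfl⟩
  have hs1 : ∀ k, 0 ≤ s k ∧ s k ≤ 1 := by
    intro k
    rw [hs]
    dsimp only
    split_ifs <;> norm_num
  have h2 : (((range (N + 1)).filter fun k => (e ^ (k + 1)) x ∈ e '' V).card : ℝ) =
      ∑ k ∈ range (N + 1), s k := by
    rw [Finset.card_filter, Nat.cast_sum, hs]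
    refine Finset.sum_congr rfl fun k _ => ?_
    rw [Nat.cast_ite, Nat.cast_one, Nat.cast_zero]
    exact if_congr (h1 k) rfl rfl
  have h3 : (((range (N + 1)).filter fun k => (e ^ (k + 1)) x ∈ V).card : ℝ) =
      ∑ k ∈ range (N + 1), s (k + 1) := by
    rw [Finset.card_filter, Nat.cast_sum, hs]
    refine Finset.sum_congr rfl fun k _ => ?_
    rw [Nat.cast_ite, Nat.cast_one, Nat.cast_zero]
  unfold av
  rw [h2, h3, ← sub_div, abs_div, abs_of_pos h0]
  apply div_le_div_of_nonneg_right _ h0.le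
  have h4 : ∑ k ∈ range (N + 1), s k - ∑ k ∈ range (N + 1), s (k + 1) = s 0 - s (N + 1) := by
    rw [← Finset.sum_sub_distrib]
    have h5 := Finset.sum_range_sub' s (N + 1)
    exact h5
  rw [h4, abs_le]
  have h5 := hs1 0
  have h6 := hs1 (N + 1)
  constructor <;> linarith

/-- **Invariant means.** For each point there is an invariant finitely additive probability measure
for which each set that contains the forward orbit has measure one. -/
theorem exists_mean : ∃ m : Set X → ℝ, (∀ U, 0 ≤ m U) ∧ m Set.univ = 1 ∧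
    (∀ U V, Disjoint U V → m (U ∪ V) = m U + m V) ∧ (∀ U, m (e '' U) = m U) ∧
    ∀ U, (∀ n : ℕ, (e ^ (n + 1)) x ∈ U) → m U = 1 := by
  have h1 : ∀ V : Set X, ∃ l : ℝ, Tendsto (av e x V) (hyperfilter ℕ : Filter ℕ) (nhds l) := by
    intro V
    obtain ⟨l, -, hl⟩ := (isCompact_Icc (a := (0 : ℝ)) (b := 1)).ultrafilter_le_nhds
      ((hyperfilter ℕ).map (av e x V)) (by
        rw [Filter.le_principal_iff, Ultrafilter.coe_map, Filter.mem_map]
        exact Filter.univ_mem' (av_mem e x V))
    exact ⟨l, hl⟩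
  choose m hm using h1
  have hone : ∀ U, (∀ n : ℕ, (e ^ (n + 1)) x ∈ U) → m U = 1 := by
    intro U hU
    refine tendsto_nhds_unique (hm U) ?_
    exact (tendsto_const_nhds (x := (1 : ℝ))).congr fun N => (av_one e x hU N).symm
  refine ⟨m, fun U => ?_, hone _ fun n => Set.mem_univ _, fun U V h => ?_, fun U => ?_, hone⟩
  · exact ge_of_tendsto' (hm U) fun N => (av_mem e x U N).1
  · refine tendsto_nhds_unique (hm _) ?_
    exact ((hm U).add (hm V)).congr fun N => (av_union e x h N).symm
  · have h2 : Tendsto (fun N => av e x (e '' U) N - av e x U N) (hyperfilter ℕ : Filter ℕ)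
        (nhds 0) := by
      refine squeeze_zero_norm (fun N => (av_image e x U N)) ?_
      exact tendsto_one_div_add_atTop_nhds_zero_nat.mono_left Nat.hyperfilter_le_atTop
    have h3 := tendsto_nhds_unique h2 ((hm (e '' U)).sub (hm U))
    linarith

/-- The backward orbit. -/
theorem exists_mean' : ∃ m : Set X → ℝ, (∀ U, 0 ≤ m U) ∧ m Set.univ = 1 ∧
    (∀ U V, Disjoint U V → m (U ∪ V) = m U + m V) ∧ (∀ U, m (e '' U) = m U) ∧
    ∀ U, (∀ n : ℕ, (e⁻¹ ^ (n + 1)) x ∈ U) → m U = 1 := by
  obtain ⟨m, h1, h2, h3, h4, h5⟩ := exists_mean e⁻¹ x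
  refine ⟨m, h1, h2, h3, fun U => ?_, h5⟩
  rw [← h4 (e '' U), ← Set.image_comp]
  congr 1
  have h6 : (e⁻¹ : Equiv.Perm X) ∘ e = id := by
    funext y
    exact e.symm_apply_apply y
  rw [h6, Set.image_id]

end

end Pool.Agent.ZT
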