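import Pool.Agent.ZT.Star
import Pool.Agent.ZT.Avg

/-!
# One homeomorphism
-/

set_option autoImplicit false

namespace Pool.Agent.ZT

variable {X : Type} [TopologicalSpace X]

lemma path_unit (φ : X ≃ₜ X) {s : ℕ → Unit × Bool} (h : ∀ n, (s n).2 = (s 0).2) (x : X) (n : ℕ) :
    path (fun _ : Unit => φ) s x n =
      ((if (s 0).2 then (φ.toEquiv : Equiv.Perm X) else (φ.toEquiv : Equiv.Perm X)⁻¹) ^ n) x := by
  induction n with
  | zero => rfl
  | succ n ih =>
    rw [pow_succ', Equiv.Perm.mul_apply, ← ih]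
    show (if (s n).2 then φ (path (fun _ : Unit => φ) s x n)
      else φ.symm (path (fun _ : Unit => φ) s x n)) = _
    rw [h n]
    cases (s 0).2 <;> rfl

/-- The condition is automatic for one homeomorphism. -/
theorem star_unit (φ : X ≃ₜ X) : Star (fun _ : Unit => φ) := by
  intro U _ hm x s hs
  have h : ∀ n, (s n).2 = (s 0).2 := by
    intro n
    induction n with
    | zero => rfl
    | succ n ih => rw [hs n rfl, ih]
  by_contra hcon
  push Not at hcon
  obtain ⟨m, h1, h2, h3, h4, h5⟩ : ∃ m : Set X → ℝ, (∀ U, 0 ≤ m U) ∧ m Set.univ = 1 ∧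
      (∀ U V, Disjoint U V → m (U ∪ V) = m U + m V) ∧
      (∀ U, m ((φ.toEquiv : Equiv.Perm X) '' U) = m U) ∧
      ∀ U, (∀ n : ℕ, ((if (s 0).2 then (φ.toEquiv : Equiv.Perm X)
        else (φ.toEquiv : Equiv.Perm X)⁻¹) ^ (n + 1)) x ∈ U) → m U = 1 := by
    cases (s 0).2
    · exact exists_mean' (φ.toEquiv : Equiv.Perm X) x
    · exact exists_mean (φ.toEquiv : Equiv.Perm X) x
  have h6 := hm m ⟨h2, fun U _ => h1 U, fun U V _ _ => h3 U V, fun _ U _ => h4 U⟩
  have h7 := h5 U fun n => by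
    rw [← path_unit φ h x]
    exact hcon _
  rw [h6] at h7
  exact zero_ne_one h7

end Pool.Agent.ZT
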