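import Pool.Agent.ZT.TarskiC

/-!
# Invariant finitely additive measures on the clopen sets
-/

set_option autoImplicit false

open Topology

namespace Pool.Agent.ZT

section

variable {Γ X : Type} [Group Γ] [TopologicalSpace X] [MulAction Γ X] [ContinuousConstSMul Γ X]

/-- The indicator function. -/
noncomputable def ind (V : Set X) : X → ℤ := V.indicator fun _ => 1

omit [TopologicalSpace X] in
open Classical in
theorem ind_apply (V : Set X) (x : X) : ind V x = if x ∈ V then 1 else 0 := by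
  unfold ind
  rw [Set.indicator_apply]

omit [ContinuousConstSMul Γ X] in
theorem ind_mem {U V : Set X} : ind V ∈ GU Γ U ↔
    IsClopen V ∧ ∃ T : Finset Γ, ∀ x ∈ V, ∃ γ ∈ T, γ • x ∈ U := by
  classical
  constructor
  · rintro ⟨h1, T, hT⟩
    have h2 : {x | 0 < ind V x} = V := by
      ext x
      change 0 < ind V x ↔ _
      rw [ind_apply]
      by_cases hx : x ∈ V
      · rw [if_pos hx]
        exact ⟨fun _ => hx, fun _ => by norm_num⟩
      · rw [if_neg hx]
        exact ⟨fun h => absurd h (lt_irrefl _), fun h => (hx h).elim⟩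
    refine ⟨h2 ▸ clopen_lt h1 0, T, fun x hx => hT x ?_⟩
    rw [ind_apply, if_pos hx]
    exact one_ne_zero
  · rintro ⟨h1, T, hT⟩
    refine ⟨?_, T, fun x hx => hT x ?_⟩
    · have h2 : ind V = fun x => if x ∈ V then 1 else 0 := funext fun x => ind_apply V x
      rw [h2, IsLocallyConstant.iff_eventually_eq]
      intro x
      by_cases hx : x ∈ V
      · filter_upwards [h1.isOpen.mem_nhds hx] with y hy
        rw [if_pos hx, if_pos hy]
      · filter_upwards [h1.compl.isOpen.mem_nhds hx] with y hy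
        rw [if_neg hx, if_neg hy]
    · by_contra hx'
      rw [ind_apply, if_neg hx'] at hx
      exact hx rfl

theorem noNeg_PU [CompactSpace X] {U : Set X} (hU : IsClopen U) (hne : U.Nonempty)
    (hno : ∀ k : ℕ, 0 < k → ¬ Sb Γ (fun _ : Fin k ⊕ Fin k => U) fun _ : Fin k => U) (hu : ind U ∈ GU Γ U) :
    NoNeg (⟨ind U, hu⟩ : GU Γ U) (PU Γ U) := by
  classical
  rintro n hn ⟨ι, _, f, γ, h1, h2⟩
  have h3 : ∀ x, (-(n • (⟨ind U, hu⟩ : GU Γ U))).1 x = -(n * ind U x) := by
    intro x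
    simp
  obtain ⟨k, hk0, hk⟩ := sb_of_neg (γ := γ) hU hne h1 (fun x => (h2 x).trans (by
    rw [h3, ind_apply]
    split_ifs <;> simp)) (fun x hx => (h2 x).trans (by
    rw [h3, ind_apply, if_pos hx]
    have : (1 : ℤ) ≤ n := by exact_mod_cast hn
    linarith))
  exact hno k hk0 hk

omit [ContinuousConstSMul Γ X] in
theorem orderUnit_PU [CompactSpace X] {U : Set X} (hu : ind U ∈ GU Γ U) (h : GU Γ U) :
    ∃ n : ℕ, n • (⟨ind U, hu⟩ : GU Γ U) - h ∈ PU Γ U := by
  classical
  obtain ⟨h, hh, T, hT⟩ := h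
  obtain ⟨M, hM⟩ := hh.range_finite.bddAbove
  refine ⟨M.toNat * T.card, T, inferInstance, fun _ x => M.toNat * ind U x, fun t => t, fun _ => ?_,
    fun x => ?_⟩
  · exact GU_comp hu (fun a => M.toNat * a) (mul_zero _)
  · have h3 : ((M.toNat * T.card) • (⟨ind U, hu⟩ : GU Γ U) - ⟨h, hh, T, hT⟩).1 x =
        M.toNat * T.card * ind U x - h x := by
      simp
    rw [h3, Finset.sum_sub_distrib, Finset.sum_const, Finset.card_univ, Fintype.card_coe,
      nsmul_eq_mul]
    have h4 : h x ≤ ∑ t : T, (M.toNat : ℤ) * ind U ((t : Γ) • x) := by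
      have h5 : ∀ t : T, 0 ≤ (M.toNat : ℤ) * ind U ((t : Γ) • x) := by
        intro t
        rw [ind_apply]
        split_ifs
        · simp
        · simp
      by_cases hx : h x = 0
      · rw [hx]
        exact Finset.sum_nonneg fun t _ => h5 t
      · obtain ⟨γ, h6, h7⟩ := hT x hx
        refine le_trans ?_ (Finset.single_le_sum (fun t _ => h5 t) (Finset.mem_univ ⟨γ, h6⟩))
        rw [ind_apply, if_pos h7, mul_one]
        exact (hM ⟨x, rfl⟩).trans (Int.self_le_toNat M)
    have h5 : (T.card : ℤ) * ((M.toNat : ℤ) * ind U x) = M.toNat * T.card * ind U x := by ring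
    rw [h5]
    linarith

/-- **Invariant measures.** -/
theorem exists_measureC [CompactSpace X] {U : Set X} (hU : IsClopen U) (hne : U.Nonempty)
    (hno : ∀ k : ℕ, 0 < k → ¬ Sb Γ (fun _ : Fin k ⊕ Fin k => U) fun _ : Fin k => U) :
    ∃ m : Set X → ENNReal, m ∅ = 0 ∧
      (∀ V W : Set X, IsClopen V → IsClopen W → Disjoint V W → m (V ∪ W) = m V + m W) ∧
      (∀ (g : Γ) (V : Set X), IsClopen V → m ((fun x => g • x) ⁻¹' V) = m V) ∧
      m U ≠ 0 ∧ m U ≠ ⊤ := by
  classical
  have hu : ind U ∈ GU Γ U := ind_mem.2 ⟨hU, {1}, fun x hx => ⟨1, Finset.mem_singleton_self _, by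
    rwa [one_smul]⟩⟩
  obtain ⟨φ, h1, h2⟩ := exists_state (noNeg_PU hU hne hno hu) (orderUnit_PU hu)
  let m : Set X → ENNReal := fun V => if h : ind V ∈ GU Γ U then ENNReal.ofReal (φ ⟨ind V, h⟩) else ⊤
  have hm : ∀ {V : Set X} (h : ind V ∈ GU Γ U), m V = ENNReal.ofReal (φ ⟨ind V, h⟩) := fun h => dif_pos h
  have hm' : ∀ {V : Set X} (_ : ind V ∉ GU Γ U), m V = ⊤ := fun h => dif_neg h
  have hpos : ∀ (V : Set X) (h : ind V ∈ GU Γ U), 0 ≤ φ ⟨ind V, h⟩ := by
    intro V h
    refine h2 _ ⟨Empty, inferInstance, fun e => e.elim, fun e => e.elim, fun e => e.elim, fun x => ?_⟩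
    change ∑ i : Empty, _ ≤ ind V x
    rw [Finset.univ_eq_empty, Finset.sum_empty, ind_apply]
    split_ifs <;> norm_num
  have hmono : ∀ V W : Set X, V ⊆ W → IsClopen V → ind W ∈ GU Γ U → ind V ∈ GU Γ U := by
    intro V W hVW hV hW
    obtain ⟨-, T, hT⟩ := ind_mem.1 hW
    exact ind_mem.2 ⟨hV, T, fun x hx => hT x (hVW hx)⟩
  refine ⟨m, ?_, fun V W hV hW hd => ?_, fun g V hV => ?_, ?_, ?_⟩
  · have h0 : ind (∅ : Set X) = 0 := funext fun x => by
      rw [ind_apply, if_neg (Set.notMem_empty x)]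
      rfl
    have h3 : ind (∅ : Set X) ∈ GU Γ U := h0 ▸ (GU Γ U).zero_mem
    rw [hm h3]
    have h4 : (⟨ind ∅, h3⟩ : GU Γ U) = 0 := Subtype.ext h0
    rw [h4, map_zero, ENNReal.ofReal_zero]
  · have hs : ind (V ∪ W) = ind V + ind W := Set.indicator_union_of_disjoint hd _
    by_cases hV' : ind V ∈ GU Γ U
    · by_cases hW' : ind W ∈ GU Γ U
      · have hVW : ind (V ∪ W) ∈ GU Γ U := hs ▸ (GU Γ U).add_mem hV' hW'
        rw [hm hV', hm hW', hm hVW, ← ENNReal.ofReal_add (hpos _ _) (hpos _ _), ← map_add]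
        exact congrArg _ (congrArg _ (Subtype.ext hs))
      · rw [hm' hW', hm' fun h => hW' (hmono _ _ Set.subset_union_right hW h), add_top]
    · rw [hm' hV', hm' fun h => hV' (hmono _ _ Set.subset_union_left hV h), top_add]
  · have hs : ind ((fun x => g • x) ⁻¹' V) = fun x => ind V (g • x) := rfl
    by_cases hV' : ind V ∈ GU Γ U
    · have hg : ind ((fun x => g • x) ⁻¹' V) ∈ GU Γ U := hs ▸ GU_shift hV' g
      rw [hm hV', hm hg]
      refine congrArg _ (le_antisymm ?_ ?_)
      · have h3 := h2 (⟨ind V, hV'⟩ - ⟨ind ((fun x => g • x) ⁻¹' V), hg⟩)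
          ⟨Unit, inferInstance, fun _ => ind V, fun _ => g, fun _ => hV', fun x => by
            rw [Fintype.sum_unique]
            exact le_rfl⟩
        rw [map_sub] at h3
        linarith
      · have h3 := h2 (⟨ind ((fun x => g • x) ⁻¹' V), hg⟩ - ⟨ind V, hV'⟩)
          ⟨Unit, inferInstance, fun _ => ind ((fun x => g • x) ⁻¹' V), fun _ => g⁻¹, fun _ => hg,
            fun x => by
              rw [Fintype.sum_unique]
              change ind V (g • x) - ind V (g • g⁻¹ • x) ≤ ind V (g • x) - ind V x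
              rw [smul_inv_smul]⟩
        rw [map_sub] at h3
        linarith
    · rw [hm' hV', hm' fun h => hV' ?_]
      have h3 := GU_shift h g⁻¹
      have h4 : (fun x => ind ((fun x => g • x) ⁻¹' V) (g⁻¹ • x)) = ind V := by
        funext x
        change ind V (g • g⁻¹ • x) = _
        rw [smul_inv_smul]
      rwa [h4] at h3
  · rw [hm hu, h1]
    simp
  · rw [hm hu]
    exact ENNReal.ofReal_ne_top

end

end Pool.Agent.ZT
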