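import Pool.Agent.ZT.RFree

/-!
# The kernel of the homomorphism from a free product to the product

The free product acts on the product of the set of coordinates and of a free group, and its elements
which fix the coordinates act by left multiplications. So the kernel embeds in a free group.
-/

set_option autoImplicit false

namespace Pool.Agent.ZT

open Monoid

variable {ι : Type} {M : ι → Type} [∀ i, Group (M i)]

open Classical in
/-- Multiplication of one coordinate. -/
noncomputable def upd (i : ι) (m : M i) (x : ∀ i, M i) : ∀ i, M i := Function.update x i (m * x i)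

theorem upd_same (i : ι) (m : M i) (x : ∀ i, M i) : upd i m x i = m * x i := by
  classical
  unfold upd
  exact Function.update_self _ _ _

theorem upd_ne (i : ι) (m : M i) (x : ∀ i, M i) {j : ι} (h : j ≠ i) : upd i m x j = x j := by
  classical
  unfold upd
  exact Function.update_of_ne h _ _

theorem upd_one (i : ι) (x : ∀ i, M i) : upd i 1 x = x := by
  classical
  unfold upd
  rw [one_mul, Function.update_eq_self]

theorem upd_mul (i : ι) (m m' : M i) (x : ∀ i, M i) : upd i (m * m') x = upd i m (upd i m' x) := by
  classical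
  unfold upd
  rw [Function.update_self, Function.update_idem, mul_assoc]

/-- The action of a factor. -/
noncomputable def cvr (i : ι) : M i →* Equiv.Perm ((∀ i, M i) × FreeGroup (ι × ∀ i, M i)) :=
  MonoidHom.toHomPerm
    { toFun := fun m p =>
        (upd i m p.1, FreeGroup.of (i, upd i m p.1) * (FreeGroup.of (i, p.1))⁻¹ * p.2)
      map_one' := by
        funext p
        change (upd i 1 p.1, FreeGroup.of (i, upd i 1 p.1) * (FreeGroup.of (i, p.1))⁻¹ * p.2) = p
        rw [upd_one, mul_inv_cancel, one_mul]
      map_mul' := by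
        intro m m'
        funext p
        change (upd i (m * m') p.1,
          FreeGroup.of (i, upd i (m * m') p.1) * (FreeGroup.of (i, p.1))⁻¹ * p.2) =
          (upd i m (upd i m' p.1), FreeGroup.of (i, upd i m (upd i m' p.1)) *
            (FreeGroup.of (i, upd i m' p.1))⁻¹ *
            (FreeGroup.of (i, upd i m' p.1) * (FreeGroup.of (i, p.1))⁻¹ * p.2))
        rw [upd_mul]
        refine Prod.ext rfl ?_
        change _ * _ * _ = _ * _ * (_ * _ * _)
        group }

theorem cvr_apply (i : ι) (m : M i) (x : ∀ i, M i) (e : FreeGroup (ι × ∀ i, M i)) :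
    cvr i m (x, e) = (upd i m x, FreeGroup.of (i, upd i m x) * (FreeGroup.of (i, x))⁻¹ * e) := rfl

variable (M) in
/-- The action of the free product. -/
noncomputable def cov : CoprodI M →* Equiv.Perm ((∀ i, M i) × FreeGroup (ι × ∀ i, M i)) :=
  CoprodI.lift cvr

theorem cov_of (i : ι) (m : M i) : cov M (CoprodI.of m) = cvr i m := CoprodI.lift_of _ _

/-- The elements act on the free group by left multiplications. -/
theorem cov_mul_right (u : CoprodI M) : ∀ (x : ∀ i, M i) (e f : FreeGroup (ι × ∀ i, M i)),
    cov M u (x, e * f) = ((cov M u (x, e)).1, (cov M u (x, e)).2 * f) := by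
  induction u using CoprodI.induction_on with
  | one =>
    intro x e f
    rw [map_one]
    rfl
  | of i m =>
    intro x e f
    rw [cov_of, cvr_apply, cvr_apply]
    refine Prod.ext rfl ?_
    change _ * _ * (e * f) = _ * _ * e * f
    group
  | mul u v hu hv =>
    intro x e f
    rw [map_mul, Equiv.Perm.mul_apply, Equiv.Perm.mul_apply, hv, hu]

open Classical in
variable (M) in
/-- The homomorphism to the product. -/
noncomputable def prI : CoprodI M →* ∀ i, M i := CoprodI.lift fun i => MonoidHom.mulSingle M i

theorem prI_of (i : ι) (m : M i) (x : ∀ i, M i) : prI M (CoprodI.of m) * x = upd i m x := by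
  classical
  unfold prI
  rw [CoprodI.lift_of]
  funext j
  change Pi.mulSingle i m j * x j = _
  by_cases h : j = i
  · subst h
    rw [upd_same, Pi.mulSingle_eq_same]
  · unfold upd
    rw [Pi.mulSingle_eq_of_ne h, one_mul, Function.update_of_ne h]

theorem cov_fst (u : CoprodI M) : ∀ (x : ∀ i, M i) (e : FreeGroup (ι × ∀ i, M i)),
    (cov M u (x, e)).1 = prI M u * x := by
  induction u using CoprodI.induction_on with
  | one =>
    intro x e
    rw [map_one, map_one, one_mul]
    rfl
  | of i m =>
    intro x e
    rw [cov_of, cvr_apply, prI_of]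
  | mul u v hu hv =>
    intro x e
    rw [map_mul, Equiv.Perm.mul_apply, map_mul, mul_assoc, ← hv x e, ← hu]

/-- The word of the second coordinate. -/
noncomputable def rr : List (Σ i, M i) → (∀ i, M i) →
    (∀ i, M i) × List ((ι × ∀ i, M i) × Bool)
  | [], x => (x, [])
  | l :: L, x => (upd l.1 l.2 (rr L x).1,
      ((l.1, upd l.1 l.2 (rr L x).1), true) :: ((l.1, (rr L x).1), false) :: (rr L x).2)

theorem cov_list (L : List (Σ i, M i)) (x : ∀ i, M i) :
    cov M (L.map fun l => CoprodI.of l.2).prod (x, 1) = ((rr L x).1, FreeGroup.mk (rr L x).2) := by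
  induction L with
  | nil =>
    rw [List.map_nil, List.prod_nil, map_one]
    rfl
  | cons l L ih =>
    rw [List.map_cons, List.prod_cons, map_mul, Equiv.Perm.mul_apply, ih, cov_of, cvr_apply]
    refine Prod.ext rfl ?_
    change FreeGroup.of (l.1, upd l.1 l.2 (rr L x).1) * (FreeGroup.of (l.1, (rr L x).1))⁻¹ *
      FreeGroup.mk (rr L x).2 = FreeGroup.mk ([((l.1, upd l.1 l.2 (rr L x).1), true)] ++
        [((l.1, (rr L x).1), false)] ++ (rr L x).2)
    rw [← FreeGroup.mul_mk, ← FreeGroup.mul_mk]
    rfl

theorem rr_reduced : ∀ (L : List (Σ i, M i)) (x : ∀ i, M i), (∀ l ∈ L, l.2 ≠ 1) →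
    L.IsChain (fun l l' => l.1 ≠ l'.1) → FreeGroup.IsReduced (rr L x).2
  | [], x, _, _ => List.isChain_nil
  | l :: L, x, h1, h2 => by
    have h3 : L.IsChain (fun l l' => l.1 ≠ l'.1) := h2.tail
    have ih := rr_reduced L x (fun l' hl' => h1 l' (List.mem_cons_of_mem _ hl')) h3
    have h4 : l.2 ≠ 1 := h1 l List.mem_cons_self
    change List.IsChain _ (((l.1, upd l.1 l.2 (rr L x).1), true) ::
      ((l.1, (rr L x).1), false) :: (rr L x).2)
    rw [List.isChain_cons_cons]
    refine ⟨fun h5 => ?_, ?_⟩
    · exfalso
      have h6 : upd l.1 l.2 (rr L x).1 = (rr L x).1 := congrArg Prod.snd h5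
      have h7 := congrFun h6 l.1
      rw [upd_same] at h7
      exact h4 (mul_eq_right.1 h7)
    · cases L with
      | nil => exact List.isChain_singleton _
      | cons l' L =>
        change List.IsChain _ (_ :: ((l'.1, upd l'.1 l'.2 (rr L x).1), true) :: _)
        rw [List.isChain_cons_cons]
        refine ⟨fun h5 => ?_, ih⟩
        exfalso
        have h6 : l.1 = l'.1 := congrArg Prod.fst h5
        exact (List.isChain_cons_cons.1 h2).1 h6

theorem cov_ne_one (u : CoprodI M) (hu : u ≠ 1) (x : ∀ i, M i) : (cov M u (x, 1)).2 ≠ 1 := by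
  classical
  obtain ⟨w, rfl⟩ : ∃ w : CoprodI.Word M, w.prod = u := ⟨CoprodI.Word.equiv u,
    CoprodI.Word.equiv.symm_apply_apply u⟩
  have h1 : w.prod = (w.toList.map fun l => CoprodI.of l.2).prod := rfl
  rw [h1, cov_list]
  change FreeGroup.mk (rr w.toList x).2 ≠ 1
  have h2 := rr_reduced w.toList x w.ne_one w.chain_ne
  intro h3
  have h4 : (FreeGroup.mk (rr w.toList x).2).toWord = [] := by
    rw [h3, FreeGroup.toWord_one]
  rw [FreeGroup.toWord_mk, h2.reduce_eq] at h4
  have h5 : w.toList ≠ [] := by
    intro h5
    refine hu ?_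
    rw [h1, h5]
    rfl
  obtain ⟨l, L, h6⟩ := List.exists_cons_of_ne_nil h5
  rw [h6] at h4
  cases h4

variable (M) in
/-- The homomorphism from the kernel to the free group. -/
noncomputable def kerI : (prI M).ker →* FreeGroup (ι × ∀ i, M i) where
  toFun u := (cov M u.1 (1, 1)).2
  map_one' := by
    change (cov M 1 (1, 1)).2 = 1
    rw [map_one]
    rfl
  map_mul' u v := by
    change (cov M (u.1 * v.1) (1, 1)).2 = _
    rw [map_mul, Equiv.Perm.mul_apply]
    have h1 : cov M v.1 (1, 1) = (1, 1 * (cov M v.1 (1, 1)).2) := by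
      refine Prod.ext ?_ (one_mul _).symm
      rw [cov_fst, v.2, one_mul]
    rw [h1, cov_mul_right]
    change _ * _ = _ * (1 * _)
    rw [one_mul]

theorem kerI_injective : Function.Injective (kerI M) := by
  rw [injective_iff_map_eq_one]
  intro u hu
  refine Subtype.ext ?_
  by_contra h
  exact cov_ne_one u.1 h 1 hu

end Pool.Agent.ZT
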