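import Pool.Agent.ZT.Thom
import Pool.Agent.ZT.KFree

/-!
# The groups which do not contain Thompson's group `F`

`ThF a b` are the two relations of Thompson's group `F`. The class of the groups in which the
relations imply that `a` and `b` commute (that is, the groups which do not contain a copy of `F`)
satisfies `ExtClass`.
-/

set_option autoImplicit false

namespace Pool.Agent.ZT

open Pool.Agent.Helper29.BA Pool.Agent.Helper29.PA Monoid

section rel

variable {G H : Type} [Group G] [Group H]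

/-- The relations of Thompson's group `F`. -/
structure ThF (a b : G) : Prop where
  r1 : a * b⁻¹ * (a⁻¹ * b * a) = a⁻¹ * b * a * (a * b⁻¹)
  r2 : a * b⁻¹ * (a⁻¹ * a⁻¹ * b * a * a) = a⁻¹ * a⁻¹ * b * a * a * (a * b⁻¹)

/-- The two relations of Thompson's group `F` imply commutation. -/
def NoF (G : Type) [Group G] : Prop := ∀ a b : G, ThF a b → a * b = b * a

theorem Thom.thF {a b c : G} (h : Thom a b c) : ThF a b := ⟨h.r1, h.r2⟩

theorem noT_of_noF (h : NoF G) : NoT G := fun a b _ ht => ht.eq_one_of_comm (h a b ht.thF)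

namespace ThF

open Thom

variable {a b : G}

theorem map (f : G →* H) (h : ThF a b) : ThF (f a) (f b) where
  r1 := by
    have := congrArg f h.r1
    simpa only [map_mul, map_inv] using this
  r2 := by
    have := congrArg f h.r2
    simpa only [map_mul, map_inv] using this

theorem conj_one (h : ThF a b) : b⁻¹ * y a b 1 * b = y a b 2 := by
  have h1 := h.r1
  have e1 : y a b 1 = a⁻¹ * b * a := by rw [y, pow_one, pow_one]
  rw [y_succ a b 1, e1]
  have h2 : b⁻¹ * (a⁻¹ * b * a) = a⁻¹ * (a⁻¹ * b * a * (a * b⁻¹)) := by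
    rw [← h1]
    group
  rw [h2]
  group

theorem conj_two (h : ThF a b) : b⁻¹ * y a b 2 * b = y a b 3 := by
  have h1 := h.r2
  have e1 : y a b 2 = a⁻¹ * a⁻¹ * b * a * a := by
    rw [y, pow_two, pow_two]
    group
  rw [y_succ a b 2, e1]
  have h2 : b⁻¹ * (a⁻¹ * a⁻¹ * b * a * a) = a⁻¹ * (a⁻¹ * a⁻¹ * b * a * a * (a * b⁻¹)) := by
    rw [← h1]
    group
  rw [h2]
  group

theorem conj_all (h : ThF a b) (m : ℕ) :
    b⁻¹ * y a b (m + 1) * b = y a b (m + 2) ∧ b⁻¹ * y a b (m + 2) * b = y a b (m + 3) := by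
  induction m with
  | zero => exact ⟨h.conj_one, h.conj_two⟩
  | succ m ih =>
    refine ⟨ih.2, ?_⟩
    have h1 := conj_y h.conj_one (m + 1)
    have h2 := conj_y h.conj_one (m + 2)
    have h3 : b⁻¹ * y a b (m + 1 + 2) * b = (b⁻¹ * y a b (m + 1) * b)⁻¹ *
        (b⁻¹ * y a b (m + 1 + 1) * b) * (b⁻¹ * y a b (m + 1) * b) := by
      rw [← h1]
      group
    rw [h3, ih.1]
    change (y a b (m + 2))⁻¹ * (b⁻¹ * y a b (m + 2) * b) * y a b (m + 2) = _
    rw [ih.2]
    exact h2

/-- The relations of the sequence. -/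
theorem rel (h : ThF a b) (k n : ℕ) : y a b (k + n + 1) * y a b k = y a b k * y a b (k + n + 2) := by
  have h1 := conj_y (h.conj_all n).1 k
  have h2 : (y a b k)⁻¹ * y a b (k + n + 1) * y a b k = y a b (k + n + 2) := h1
  rw [← h2]
  group

/-- If `a` has finite order then `a` and `b` commute. -/
theorem comm_of_pow (h : ThF a b) {n : ℕ} (hn : n ≠ 0) (ha : a ^ n = 1) : a * b = b * a := by
  obtain ⟨m, rfl⟩ := Nat.exists_eq_succ_of_ne_zero hn
  have e0 : y a b (m + 1) = b := by
    rw [y, inv_pow, ha, inv_one, one_mul, mul_one]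
  have e1 : y a b (m + 2) = y a b 1 := by
    rw [y_succ a b (m + 1), e0, y, pow_one, pow_one]
  have h1 := (h.conj_all m).1
  rw [e0, e1, inv_mul_cancel, one_mul, y, pow_one, pow_one, mul_assoc] at h1
  have h2 : a * b = a * (a⁻¹ * (b * a)) := congrArg (fun z => a * z) h1
  rw [h2, mul_inv_cancel_left]

end ThF

/-- The first generator of a copy of `F` in the commutator subgroup. -/
def al (a b : G) : G := Thom.y a b 0 * (Thom.y a b 1)⁻¹

/-- The second generator. -/
def be (a b : G) : G := Thom.y a b 1 * Thom.y a b 1 * (Thom.y a b 2)⁻¹ * (Thom.y a b 1)⁻¹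

theorem commute_al {a b : G} (h : ThF a b) (n : ℕ) : Commute (al a b) (Thom.y a b (n + 2)) := by
  have h1 : Thom.y a b (n + 2) * Thom.y a b 0 = Thom.y a b 0 * Thom.y a b (n + 3) := by
    have := h.rel 0 (n + 1)
    simpa only [zero_add, add_assoc] using this
  have h2 : Thom.y a b (n + 2) * Thom.y a b 1 = Thom.y a b 1 * Thom.y a b (n + 3) := by
    have := h.rel 1 n
    rwa [show 1 + n + 1 = n + 2 by omega, show 1 + n + 2 = n + 3 by omega] at this
  have h3 : (Thom.y a b 1)⁻¹ * Thom.y a b (n + 2) = Thom.y a b (n + 3) * (Thom.y a b 1)⁻¹ := by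
    rw [inv_mul_eq_iff_eq_mul, ← mul_assoc, ← h2, mul_assoc, mul_inv_cancel, mul_one]
  change al a b * Thom.y a b (n + 2) = Thom.y a b (n + 2) * al a b
  unfold al
  rw [mul_assoc, h3, ← mul_assoc, ← h1, mul_assoc]

/-- The copy of the element `be` on the smaller interval. -/
def ga (a b : G) (n : ℕ) : G :=
  Thom.y a b (n + 2) * Thom.y a b (n + 2) * (Thom.y a b (n + 3))⁻¹ * (Thom.y a b (n + 2))⁻¹

theorem commute_ga {a b : G} (h : ThF a b) (n : ℕ) : Commute (al a b) (ga a b n) := by
  unfold ga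
  have h1 := commute_al h n
  have h2 := commute_al h (n + 1)
  exact ((h1.mul_right h1).mul_right h2.inv_right).mul_right h1.inv_right

theorem conj_ga {a b : G} (h : ThF a b) (n : ℕ) :
    (Thom.y a b 0)⁻¹ * ga a b n * Thom.y a b 0 = ga a b (n + 1) := by
  have h1 : ∀ m, (Thom.y a b 0)⁻¹ * Thom.y a b (m + 2) * Thom.y a b 0 = Thom.y a b (m + 3) := by
    intro m
    have h2 := h.rel 0 (m + 1)
    rw [show 0 + (m + 1) + 1 = m + 2 by omega, show 0 + (m + 1) + 2 = m + 3 by omega] at h2
    rw [mul_assoc, h2, inv_mul_cancel_left]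
  unfold ga
  have h3 := h1 n
  have h4 := h1 (n + 1)
  rw [show n + 1 + 2 = n + 3 by omega] at h4 ⊢
  rw [← h4, ← h3]
  group

theorem al_be_inv {a b : G} (h : ThF a b) :
    al a b * (be a b)⁻¹ = Thom.y a b 1 * al a b * (Thom.y a b 1)⁻¹ := by
  have h1 : Thom.y a b 1 * Thom.y a b 0 = Thom.y a b 0 * Thom.y a b 2 := h.rel 0 0
  unfold al be
  rw [← mul_assoc (Thom.y a b 1) (Thom.y a b 0), h1]
  group

theorem conj_be {a b : G} (h : ThF a b) :
    (al a b)⁻¹ * be a b * al a b = Thom.y a b 1 * ga a b 0 * (Thom.y a b 1)⁻¹ := by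
  have h1 : Thom.y a b 2 = (Thom.y a b 0)⁻¹ * Thom.y a b 1 * Thom.y a b 0 := by
    have h2 : Thom.y a b 1 * Thom.y a b 0 = Thom.y a b 0 * Thom.y a b 2 := h.rel 0 0
    rw [mul_assoc, h2, inv_mul_cancel_left]
  have h3 : Thom.y a b 3 = (Thom.y a b 0)⁻¹ * Thom.y a b 2 * Thom.y a b 0 := by
    have h2 : Thom.y a b 2 * Thom.y a b 0 = Thom.y a b 0 * Thom.y a b 3 := h.rel 0 1
    rw [mul_assoc, h2, inv_mul_cancel_left]
  unfold al be ga
  rw [show 0 + 2 = 2 from rfl, show 0 + 3 = 3 from rfl, h3, h1]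
  group

theorem conj_be_two {a b : G} (h : ThF a b) :
    (al a b)⁻¹ * (al a b)⁻¹ * be a b * al a b * al a b =
      Thom.y a b 1 * (Thom.y a b 2 * ga a b 1 * (Thom.y a b 2)⁻¹) * (Thom.y a b 1)⁻¹ := by
  have e1 : (al a b)⁻¹ * (al a b)⁻¹ * be a b * al a b * al a b =
      (al a b)⁻¹ * ((al a b)⁻¹ * be a b * al a b) * al a b := by group
  have h1 : Thom.y a b 2 = (Thom.y a b 0)⁻¹ * Thom.y a b 1 * Thom.y a b 0 := by
    have h2 : Thom.y a b 1 * Thom.y a b 0 = Thom.y a b 0 * Thom.y a b 2 := h.rel 0 0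
    rw [mul_assoc, h2, inv_mul_cancel_left]
  rw [e1, conj_be h, ← conj_ga h 0, h1]
  unfold al
  group

/-- The copy of `F` in the commutator subgroup. -/
theorem thF_al_be {a b : G} (h : ThF a b) : ThF (al a b) (be a b) where
  r1 := by
    rw [al_be_inv h, conj_be h]
    have h1 : al a b * ga a b 0 = ga a b 0 * al a b := commute_ga h 0
    have h2 : Thom.y a b 1 * al a b * (Thom.y a b 1)⁻¹ *
        (Thom.y a b 1 * ga a b 0 * (Thom.y a b 1)⁻¹) =
        Thom.y a b 1 * (al a b * ga a b 0) * (Thom.y a b 1)⁻¹ := by group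
    rw [h2, h1]
    group
  r2 := by
    rw [al_be_inv h, conj_be_two h]
    have h1 : Commute (al a b) (Thom.y a b 2 * ga a b 1 * (Thom.y a b 2)⁻¹) :=
      ((commute_al h 0).mul_right (commute_ga h 1)).mul_right (commute_al h 0).inv_right
    have h2 : Thom.y a b 1 * al a b * (Thom.y a b 1)⁻¹ *
        (Thom.y a b 1 * (Thom.y a b 2 * ga a b 1 * (Thom.y a b 2)⁻¹) * (Thom.y a b 1)⁻¹) =
        Thom.y a b 1 * (al a b * (Thom.y a b 2 * ga a b 1 * (Thom.y a b 2)⁻¹)) *
          (Thom.y a b 1)⁻¹ := by group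
    rw [h2, h1.eq]
    group

/-- If the copy is commutative then all is commutative. -/
theorem comm_of_al_be {a b : G} (h : ThF a b) (hc : al a b * be a b = be a b * al a b) :
    a * b = b * a := by
  have h1 : (al a b)⁻¹ * be a b * al a b = be a b := by
    rw [mul_assoc, ← hc, inv_mul_cancel_left]
  rw [conj_be h] at h1
  have e0 : ga a b 0 = Thom.y a b 1 * (Thom.y a b 2)⁻¹ := by
    have h2 : (Thom.y a b 1)⁻¹ * (Thom.y a b 1 * ga a b 0 * (Thom.y a b 1)⁻¹) * Thom.y a b 1 =
        (Thom.y a b 1)⁻¹ * be a b * Thom.y a b 1 := by rw [h1]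
    unfold be at h2
    have h3 : (Thom.y a b 1)⁻¹ * (Thom.y a b 1 * ga a b 0 * (Thom.y a b 1)⁻¹) * Thom.y a b 1 =
        ga a b 0 := by group
    rw [h3] at h2
    rw [h2]
    group
  have e1 : Thom.y a b 2 * Thom.y a b 2 = Thom.y a b 1 * Thom.y a b 3 := by
    unfold ga at e0
    rw [show 0 + 2 = 2 from rfl, show 0 + 3 = 3 from rfl] at e0
    have h2 := mul_right_cancel e0
    rw [← h2]
    group
  have r12 : Thom.y a b 2 * Thom.y a b 1 = Thom.y a b 1 * Thom.y a b 3 := h.rel 1 0
  have r13 : Thom.y a b 3 * Thom.y a b 1 = Thom.y a b 1 * Thom.y a b 4 := h.rel 1 1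
  have e2 : Thom.y a b 2 = Thom.y a b 1 := by
    rw [← r12] at e1
    exact mul_left_cancel e1
  have e3 : Thom.y a b 1 = Thom.y a b 0 := by
    have h2 := Thom.y_succ a b 1
    have h3 := Thom.y_succ a b 0
    rw [show 1 + 1 = 2 from rfl, e2] at h2
    rw [zero_add] at h3
    -- y1 = a⁻¹ y1 a = a⁻¹ y0 a
    have h4 : a⁻¹ * Thom.y a b 1 * a = a⁻¹ * Thom.y a b 0 * a := by rw [← h2, ← h3]
    exact mul_left_cancel (mul_right_cancel h4)
  have h3 := Thom.y_succ a b 0
  rw [zero_add, e3] at h3
  have h4 : Thom.y a b 0 = b := by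
    rw [Thom.y, pow_zero, pow_zero, one_mul, mul_one]
  rw [h4] at h3
  -- b = a⁻¹ b a
  have h5 : a * b = a * (a⁻¹ * b * a) := by rw [← h3]
  rw [h5]
  group

end rel

section cls

variable {G H : Type} [Group G] [Group H]

theorem noF_of_injective (f : G →* H) (hf : Function.Injective f) (h : NoF H) : NoF G := by
  intro a b ht
  refine hf ?_
  rw [map_mul, map_mul]
  exact h _ _ (ht.map f)

theorem noF_finite [Finite G] : NoF G := by
  intro a b ht
  obtain ⟨n, hn, h⟩ := (isOfFinOrder_of_finite a).exists_pow_eq_one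
  exact ht.comm_of_pow (Nat.pos_iff_ne_zero.1 hn) h

/-- Extensions. -/
theorem noF_ext (p : G →* H) (hH : NoF H) (hK : NoF p.ker) : NoF G := by
  intro a b ht
  have h1 : p a * p b = p b * p a := hH _ _ (ht.map p)
  have h2 : ∀ n, p (Thom.y a b n) = p b := by
    intro n
    have h3 : Commute (p a ^ n) (p b) := (show Commute (p a) (p b) from h1).pow_left n
    unfold Thom.y
    rw [map_mul, map_mul, map_pow, map_pow, map_inv, inv_pow, mul_assoc, ← h3.eq,
      inv_mul_cancel_left]
  have h3 : p (al a b) = 1 := by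
    unfold al
    rw [map_mul, map_inv, h2, h2, mul_inv_cancel]
  have h4 : p (be a b) = 1 := by
    unfold be
    rw [map_mul, map_mul, map_mul, map_inv, map_inv, h2, h2]
    group
  have h5 := thF_al_be ht
  have h6 : ThF (⟨al a b, h3⟩ : p.ker) ⟨be a b, h4⟩ := ⟨Subtype.ext h5.r1, Subtype.ext h5.r2⟩
  exact comm_of_al_be ht (congrArg Subtype.val (hK _ _ h6))

/-- Free groups. -/
theorem noF_freeGroup (α : Type) : NoF (FreeGroup α) := by
  intro a b ht
  by_contra h
  have h1 : a * b * (b * a)⁻¹ ≠ 1 := fun h2 => h (mul_inv_eq_one.1 h2)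
  obtain ⟨n, f, hf⟩ := exists_finite_hom _ h1
  refine hf ?_
  rw [map_mul, map_inv, mul_inv_eq_one, map_mul, map_mul]
  exact noF_finite _ _ (ht.map f)

/-- Free products. -/
theorem noF_coprod (hG : NoF G) (hH : NoF H) : NoF (Coprod G H) := by
  have hprod : NoF (G × H) := by
    intro a b ht
    exact Prod.ext (hG _ _ (ht.map (MonoidHom.fst G H))) (hH _ _ (ht.map (MonoidHom.snd G H)))
  let p : Coprod G H →* G × H := Coprod.fst.prod Coprod.snd
  have hpr : ∀ x : Coprod G H, prI (TwoF G H) (toI G H x) = fun b => match b with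
      | false => Coprod.fst x
      | true => Coprod.snd x := by
    let q : Coprod G H →* ∀ b, TwoF G H b := Pi.monoidHom fun b => match b with
      | false => (Coprod.fst : Coprod G H →* G)
      | true => (Coprod.snd : Coprod G H →* H)
    have h1 : (prI (TwoF G H)).comp (toI G H) = q := by
      refine Coprod.hom_ext ?_ ?_
      · refine MonoidHom.ext fun g => ?_
        change prI (TwoF G H) (toI G H (Coprod.inl g)) = q (Coprod.inl g)
        rw [toI, Coprod.lift_apply_inl]
        have h2 := prI_of (M := TwoF G H) false g 1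
        rw [mul_one] at h2
        rw [h2]
        funext b
        cases b
        · rw [upd_same]
          change g * 1 = (Coprod.fst : Coprod G H →* G) (Coprod.inl g)
          rw [mul_one, Coprod.fst_apply_inl]
        · rw [upd_ne _ _ _ (by simp)]
          change (1 : H) = (Coprod.snd : Coprod G H →* H) (Coprod.inl g)
          rw [Coprod.snd_apply_inl]
      · refine MonoidHom.ext fun g => ?_
        change prI (TwoF G H) (toI G H (Coprod.inr g)) = q (Coprod.inr g)
        rw [toI, Coprod.lift_apply_inr]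
        have h2 := prI_of (M := TwoF G H) true g 1
        rw [mul_one] at h2
        rw [h2]
        funext b
        cases b
        · rw [upd_ne _ _ _ (by simp)]
          change (1 : G) = (Coprod.fst : Coprod G H →* G) (Coprod.inr g)
          rw [Coprod.fst_apply_inr]
        · rw [upd_same]
          change g * 1 = (Coprod.snd : Coprod G H →* H) (Coprod.inr g)
          rw [mul_one, Coprod.snd_apply_inr]
    intro x
    have h2 := DFunLike.congr_fun h1 x
    change prI (TwoF G H) (toI G H x) = q x at h2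
    rw [h2]
    funext b
    cases b <;> rfl
  refine noF_ext p hprod ?_
  have hk : ∀ x : p.ker, toI G H x.1 ∈ (prI (TwoF G H)).ker := by
    intro x
    have h1 : (Coprod.fst x.1, Coprod.snd x.1) = (1 : G × H) := x.2
    rw [MonoidHom.mem_ker, hpr]
    funext b
    cases b
    · exact congrArg Prod.fst h1
    · exact congrArg Prod.snd h1
  let f : p.ker →* (prI (TwoF G H)).ker := ((toI G H).comp p.ker.subtype).codRestrict _ hk
  refine noF_of_injective ((kerI (TwoF G H)).comp f) ?_ (noF_freeGroup _)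
  refine kerI_injective.comp fun x x' h => ?_
  have h1 : toI G H x.1 = toI G H x'.1 := congrArg Subtype.val h
  refine Subtype.ext ?_
  rw [← ofI_toI x.1, h1, ofI_toI]

/-- **The class of the groups which do not contain Thompson's group `F`.** -/
theorem extClass_noF : ExtClass fun G _ => NoF G where
  iso G H _ _ e h := noF_of_injective e.symm.toMonoidHom e.symm.injective h
  finite G _ _ := noF_finite
  int := fun a b _ => mul_comm a b
  subgroup G _ H h := noF_of_injective H.subtype H.subtype_injective h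
  prod G H _ _ hG hH := by
    intro a b ht
    exact Prod.ext (hG _ _ (ht.map (MonoidHom.fst G H))) (hH _ _ (ht.map (MonoidHom.snd G H)))
  freeProd G H _ _ hG hH := noF_coprod hG hH
  finiteIndex G _ H hf h := by
    intro a b ht
    have h1 : NoF (G ⧸ H.normalCore) := noF_finite
    refine noF_ext (QuotientGroup.mk' H.normalCore) h1 ?_ a b ht
    rw [QuotientGroup.ker_mk']
    exact noF_of_injective (Subgroup.inclusion H.normalCore_le) (Subgroup.inclusion_injective _) h
  colimit I _ _ _ G _ f hf L _ g hg hs hk hC := by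
    intro a b ht
    obtain ⟨i, x, hx⟩ := hs a
    obtain ⟨j, y, hy⟩ := hs b
    obtain ⟨m, hil, hjl⟩ := exists_ge_ge i j
    obtain ⟨x, hx⟩ : ∃ x : G m, g m x = a := ⟨f i m hil x, by rw [hg]; exact hx⟩
    obtain ⟨y, hy⟩ : ∃ y : G m, g m y = b := ⟨f j m hjl y, by rw [hg]; exact hy⟩
    have key : ∀ (u v : G m), g m u = g m v → ∃ j, ∃ _ : m ≤ j, ∀ k (_ : j ≤ k) (h : m ≤ k),
        f m k h u = f m k h v := by
      intro u v huv
      obtain ⟨j, hj, h1⟩ := hk m (u * v⁻¹) (by rw [map_mul, map_inv, huv, mul_inv_cancel])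
      refine ⟨j, hj, fun k h' h => ?_⟩
      have h2 := congrArg (f j k h') h1
      rw [hf, map_one, map_mul, map_inv, mul_inv_eq_one] at h2
      exact h2
    rw [← hx, ← hy] at ht
    obtain ⟨j1, e1, k1⟩ := key (x * y⁻¹ * (x⁻¹ * y * x)) (x⁻¹ * y * x * (x * y⁻¹)) (by
      simp only [map_mul, map_inv]
      exact ht.r1)
    obtain ⟨j2, e2, k2⟩ := key (x * y⁻¹ * (x⁻¹ * x⁻¹ * y * x * x))
      (x⁻¹ * x⁻¹ * y * x * x * (x * y⁻¹)) (by
      simp only [map_mul, map_inv]
      exact ht.r2)
    obtain ⟨l, u1, u2⟩ := exists_ge_ge j1 j2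
    have hml : m ≤ l := e1.trans u1
    have hT : ThF (f m l hml x) (f m l hml y) := by
      refine ⟨?_, ?_⟩
      · have := k1 l u1 hml
        simpa only [map_mul, map_inv] using this
      · have := k2 l u2 hml
        simpa only [map_mul, map_inv] using this
    have v1 := congrArg (g l) (hC l _ _ hT)
    rw [map_mul, map_mul, hg, hg, hx, hy] at v1
    exact v1
  ext G Q _ _ p hQ h := by
    refine noF_ext p hQ ?_
    have h1 := h 1
    rw [Subgroup.zpowers_one_eq_bot] at h1
    exact h1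

/-- **A group which belongs to every class does not contain Thompson's group `F`.** -/
theorem noF_of_forall (h : ∀ C : ∀ (G : Type) [Group G], Prop, ExtClass C → C G) : NoF G :=
  h _ extClass_noF

end cls

end Pool.Agent.ZT
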