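import Mathlib

/-!
# Sets which are not paradoxical have invariant finitely additive measures

Tarski's theorem for the subsets of a set with an action of a group, with the theorem of Hall.
-/

set_option autoImplicit false

namespace Pool.Agent.ZT

open Filter Topology Pointwise

/-- `U` is paradoxical: there are two injections of `U` into itself with disjoint images, each of
them given by finitely many elements of the group. -/
def Paradox (F : Type*) {S : Type*} [Group F] [MulAction F S] (U : Set S) : Prop :=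
  ∃ (K : Finset F) (a : Bool → S → S), (∀ i, ∀ x ∈ U, a i x ∈ U ∧ ∃ g ∈ K, g • x = a i x) ∧
    ∀ i j, ∀ x ∈ U, ∀ y ∈ U, a i x = a j y → i = j ∧ x = y

variable {F S : Type*} [Group F] [MulAction F S]

open Classical in
/-- The points of `U` which are reached from `E` with elements of `K`. -/
noncomputable def nb (U : Set S) (K : Finset F) (E : Finset S) : Finset S :=
  (K • E).filter (· ∈ U)

theorem mem_nb {U : Set S} {K : Finset F} {E : Finset S} {y : S} :
    y ∈ nb U K E ↔ (∃ g ∈ K, ∃ x ∈ E, g • x = y) ∧ y ∈ U := by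
  classical
  rw [nb, Finset.mem_filter, Finset.mem_smul]

/-- Step 1: the theorem of Hall. -/
theorem exists_lt_two {U : Set S} (hU : ¬ Paradox F U) (K : Finset F) :
    ∃ E : Finset S, (E : Set S) ⊆ U ∧ (nb U K E).card < 2 * E.card := by
  classical
  by_contra hcon
  push Not at hcon
  apply hU
  have hall : ∀ s : Finset (↥U × Bool), s.card ≤ (s.biUnion fun p => nb U K {p.1.1}).card := by
    intro s
    have h1 : s.card ≤ 2 * (s.image fun p => p.1.1).card := by
      have h2 : s.card ≤ ((s.image fun p => p.1.1) ×ˢ (Finset.univ : Finset Bool)).card := by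
        refine Finset.card_le_card_of_injOn (fun p => (p.1.1, p.2)) (fun p hp => ?_) ?_
        · exact Finset.mem_product.2 ⟨Finset.mem_image_of_mem _ hp, Finset.mem_univ _⟩
        · intro p _ q _ hpq
          have h3 : (p.1.1, p.2) = (q.1.1, q.2) := hpq
          rw [Prod.mk.injEq] at h3
          exact Prod.ext (Subtype.ext h3.1) h3.2
      rw [Finset.card_product, Finset.card_univ, Fintype.card_bool, mul_comm] at h2
      exact h2
    refine h1.trans ((hcon _ ?_).trans (Finset.card_le_card ?_))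
    · intro x hx
      obtain ⟨p, _, rfl⟩ := Finset.mem_image.1 (Finset.mem_coe.1 hx)
      exact p.1.2
    · intro y hy
      obtain ⟨⟨g, hg, x, hx, hxy⟩, hyU⟩ := mem_nb.1 hy
      obtain ⟨p, hp, rfl⟩ := Finset.mem_image.1 hx
      exact Finset.mem_biUnion.2
        ⟨p, hp, mem_nb.2 ⟨⟨g, hg, _, Finset.mem_singleton_self _, hxy⟩, hyU⟩⟩
  obtain ⟨f, hf, hf'⟩ := (Finset.all_card_le_biUnion_card_iff_exists_injective _).1 hall
  refine ⟨K, fun i x => if hx : x ∈ U then f (⟨x, hx⟩, i) else x, fun i x hx => ?_,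
    fun i j x hx y hy h => ?_⟩
  · beta_reduce
    rw [dif_pos hx]
    obtain ⟨⟨g, hg, z, hz, hzx⟩, hU'⟩ := mem_nb.1 (hf' (⟨x, hx⟩, i))
    rw [Finset.mem_singleton] at hz
    subst hz
    exact ⟨hU', g, hg, hzx⟩
  · beta_reduce at h
    rw [dif_pos hx, dif_pos hy] at h
    have h1 := hf h
    rw [Prod.mk.injEq, Subtype.mk.injEq] at h1
    exact ⟨h1.2, h1.1⟩

/-- Step 2: iteration. -/
theorem exists_small {U : Set S} (hU : ¬ Paradox F U) (K : Finset F) (n : ℕ) :
    ∃ E : Finset S, (E : Set S) ⊆ U ∧ E.Nonempty ∧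
      (n + 1) * (nb U K E).card ≤ (n + 2) * E.card := by
  classical
  by_contra hcon
  push Not at hcon
  have hcon' : ∀ E : Finset S, (E : Set S) ⊆ U → (n + 2) * E.card ≤ (n + 1) * (nb U K E).card := by
    intro E hE
    rcases E.eq_empty_or_nonempty with rfl | hne
    · simp
    · exact (hcon E hE hne).le
  have key : ∀ j : ℕ, ∀ E : Finset S, (E : Set S) ⊆ U →
      (n + 2) ^ j * E.card ≤ (n + 1) ^ j * (nb U (K ^ j) E).card := by
    intro j
    induction j with
    | zero =>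
      intro E hE
      rw [pow_zero, pow_zero, pow_zero, one_mul, one_mul]
      refine Finset.card_le_card fun x hx => mem_nb.2 ⟨⟨1, Finset.mem_one.2 rfl, x, hx, one_smul _ _⟩,
        hE (Finset.mem_coe.2 hx)⟩
    | succ j ih =>
      intro E hE
      have h1 := ih E hE
      have h2 := hcon' (nb U (K ^ j) E) fun x hx => (mem_nb.1 (Finset.mem_coe.1 hx)).2
      have h3 : (nb U K (nb U (K ^ j) E)).card ≤ (nb U (K ^ (j + 1)) E).card := by
        refine Finset.card_le_card fun x hx => ?_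
        obtain ⟨⟨g, hg, y, hy, rfl⟩, hxU⟩ := mem_nb.1 hx
        obtain ⟨⟨g', hg', z, hz, rfl⟩, -⟩ := mem_nb.1 hy
        refine mem_nb.2 ⟨⟨g * g', ?_, z, hz, mul_smul _ _ _⟩, hxU⟩
        rw [pow_succ']
        exact Finset.mul_mem_mul hg hg'
      calc (n + 2) ^ (j + 1) * E.card = (n + 2) * ((n + 2) ^ j * E.card) := by ring
        _ ≤ (n + 2) * ((n + 1) ^ j * (nb U (K ^ j) E).card) := Nat.mul_le_mul le_rfl h1
        _ = (n + 1) ^ j * ((n + 2) * (nb U (K ^ j) E).card) := by ring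
        _ ≤ (n + 1) ^ j * ((n + 1) * (nb U K (nb U (K ^ j) E)).card) := Nat.mul_le_mul le_rfl h2
        _ ≤ (n + 1) ^ j * ((n + 1) * (nb U (K ^ (j + 1)) E).card) :=
          Nat.mul_le_mul le_rfl (Nat.mul_le_mul le_rfl h3)
        _ = (n + 1) ^ (j + 1) * (nb U (K ^ (j + 1)) E).card := by ring
  obtain ⟨E, hE, hlt⟩ := exists_lt_two hU (K ^ (n + 1))
  have h1 := key (n + 1) E hE
  have h2 : 2 * (n + 1) ^ (n + 1) ≤ (n + 2) ^ (n + 1) := by
    have h3 : (n + 2) ^ (n + 1) =
        ∑ m ∈ Finset.range (n + 1 + 1), (n + 1) ^ m * 1 ^ (n + 1 - m) * ((n + 1).choose m) :=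
      add_pow (n + 1) 1 (n + 1)
    rw [h3]
    have h4 : (n + 1) ^ (n + 1) + (n + 1) * (n + 1) ^ n ≤
        ∑ m ∈ Finset.range (n + 1 + 1), (n + 1) ^ m * 1 ^ (n + 1 - m) * ((n + 1).choose m) := by
      rw [Finset.sum_range_succ, Finset.sum_range_succ, Nat.choose_self, Nat.choose_succ_self_right]
      simp only [one_pow, mul_one]
      have h5 : 0 ≤ ∑ x ∈ Finset.range n, (n + 1) ^ x * (n + 1).choose x := Nat.zero_le _
      nlinarith
    refine le_trans (le_of_eq ?_) h4
    ring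
  have h6 : 2 * (n + 1) ^ (n + 1) * E.card < 2 * (n + 1) ^ (n + 1) * E.card := by
    calc 2 * (n + 1) ^ (n + 1) * E.card ≤ (n + 2) ^ (n + 1) * E.card := Nat.mul_le_mul h2 le_rfl
      _ ≤ (n + 1) ^ (n + 1) * (nb U (K ^ (n + 1)) E).card := h1
      _ < (n + 1) ^ (n + 1) * (2 * E.card) := Nat.mul_lt_mul_of_pos_left hlt (by positivity)
      _ = 2 * (n + 1) ^ (n + 1) * E.card := by ring
  exact lt_irrefl _ h6

/-! ## The mean -/

open Classical in
/-- The symmetric set with unit. -/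
noncomputable def bl (L : Finset F) : Finset F := insert 1 (L ∪ L⁻¹)

theorem one_mem_bl (L : Finset F) : (1 : F) ∈ bl L := by
  classical
  exact Finset.mem_insert_self _ _

theorem mem_bl {L : Finset F} {g : F} (h : g ∈ L) : g ∈ bl L := by
  classical
  exact Finset.mem_insert_of_mem (Finset.mem_union_left _ h)

theorem inv_mem_bl {L : Finset F} {g : F} (h : g ∈ L) : g⁻¹ ∈ bl L := by
  classical
  exact Finset.mem_insert_of_mem (Finset.mem_union_right _ (Finset.inv_mem_inv h))

open Classical in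
/-- The products of four elements of the symmetric set. -/
noncomputable def b4 (L : Finset F) : Finset F := (bl L) ^ 4

open Classical in
/-- The part of `U` in the annulus between `E` and the translates of `E` by four elements. -/
noncomputable def ann (U : Set S) (L : Finset F) (E : Finset S) : Finset S :=
  nb U (b4 L) E \ E

theorem ann_card {U : Set S} {L : Finset F} {E : Finset S} (hE : (E : Set S) ⊆ U) {n : ℕ}
    (h : (n + 1) * (nb U (b4 L) E).card ≤ (n + 2) * E.card) :
    (n + 1) * (ann U L E).card ≤ E.card := by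
  classical
  have h1 : E ⊆ nb U (b4 L) E := fun x hx => mem_nb.2
    ⟨⟨1, by
      have := Finset.pow_mem_pow (one_mem_bl L) (n := 4)
      rwa [one_pow] at this, x, hx, one_smul _ _⟩, hE (Finset.mem_coe.2 hx)⟩
  have h2 : (ann U L E).card = (nb U (b4 L) E).card - E.card :=
    Finset.card_sdiff_of_subset h1
  have h3 := Finset.card_le_card h1
  rw [h2, Nat.mul_sub]
  have h4 : (n + 2) * E.card = (n + 1) * E.card + E.card := by ring
  rw [h4] at h
  exact Nat.sub_le_iff_le_add'.2 h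

open Classical in
/-- The number of points of `W` reached from `E` with two elements. -/
noncomputable def cnt (W : Set S) (L : Finset F) (E : Finset S) : ℕ :=
  (nb W ((bl L) ^ 2) E).card

theorem cnt_union {W W' : Set S} (h : Disjoint W W') (L : Finset F) (E : Finset S) :
    cnt (W ∪ W') L E = cnt W L E + cnt W' L E := by
  classical
  unfold cnt
  rw [← Finset.card_union_of_disjoint]
  · congr 1
    ext y
    rw [Finset.mem_union, mem_nb, mem_nb, mem_nb, ← and_or_left, Set.mem_union]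
  · rw [Finset.disjoint_left]
    intro y hy hy'
    exact Set.disjoint_left.1 h (mem_nb.1 hy).2 (mem_nb.1 hy').2

/-- Translates. -/
theorem cnt_smul {U W : Set S} {T : Finset F} (hW : W ⊆ ⋃ h ∈ T, h • U) {g : F} {L : Finset F}
    (hg : g ∈ L) (hT : T ⊆ L) (E : Finset S) :
    cnt (g • W) L E ≤ cnt W L E + T.card * (ann U L E).card := by
  classical
  obtain ⟨D, hD⟩ : ∃ D : F → Finset S, ∀ h y, y ∈ D h ↔ y ∈ h • U ∧
      (∃ k ∈ (bl L) ^ 3, ∃ x ∈ E, k • x = y) ∧ ¬ ∃ k ∈ bl L, ∃ x ∈ E, k • x = y :=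
    ⟨fun h => ((((bl L) ^ 3 • E) \ (bl L • E)).filter (· ∈ h • U)), fun h y => by
      rw [Finset.mem_filter, Finset.mem_sdiff, Finset.mem_smul, Finset.mem_smul]
      tauto⟩
  have h1 : cnt (g • W) L E ≤ (nb W ((bl L) ^ 2) E ∪ T.biUnion D).card := by
    refine Finset.card_le_card_of_injOn (fun y => g⁻¹ • y) (fun y hy => ?_)
      (fun y _ z _ h => MulAction.injective g⁻¹ h)
    obtain ⟨⟨k, hk, x, hx, hxy⟩, hyW⟩ := mem_nb.1 (Finset.mem_coe.1 hy)
    have hy1 : g⁻¹ • y ∈ W := Set.mem_smul_set_iff_inv_smul_mem.1 hyW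
    change g⁻¹ • y ∈ ((nb W ((bl L) ^ 2) E ∪ T.biUnion D : Finset S) : Set S)
    rw [Finset.mem_coe, Finset.mem_union]
    by_cases hc : g⁻¹ • y ∈ nb W ((bl L) ^ 2) E
    · exact Or.inl hc
    · refine Or.inr ?_
      obtain ⟨h, hh⟩ := Set.mem_iUnion.1 (hW hy1)
      obtain ⟨hhT, hhU⟩ := Set.mem_iUnion.1 hh
      refine Finset.mem_biUnion.2 ⟨h, hhT, (hD h _).2 ⟨hhU, ⟨g⁻¹ * k, ?_, x, hx, ?_⟩, ?_⟩⟩
      · rw [pow_succ' (bl L) 2]
        exact Finset.mul_mem_mul (inv_mem_bl hg) hk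
      · rw [mul_smul, hxy]
      · rintro ⟨k', hk', x', hx', h'⟩
        refine hc (mem_nb.2 ⟨⟨1 * k', ?_, x', hx', by rw [one_mul, h']⟩, hy1⟩)
        rw [pow_two]
        exact Finset.mul_mem_mul (one_mem_bl L) hk'
  have h2 : ∀ h ∈ T, (D h).card ≤ (ann U L E).card := by
    intro h hh
    refine Finset.card_le_card_of_injOn (fun y => h⁻¹ • y) (fun y hy => ?_)
      (fun y _ z _ h' => MulAction.injective h⁻¹ h')
    obtain ⟨hyU, ⟨k, hk, x, hx, hxy⟩, hn⟩ := (hD h y).1 (Finset.mem_coe.1 hy)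
    change h⁻¹ • y ∈ ((ann U L E : Finset S) : Set S)
    rw [Finset.mem_coe, ann, Finset.mem_sdiff]
    refine ⟨mem_nb.2 ⟨⟨h⁻¹ * k, ?_, x, hx, by rw [mul_smul, hxy]⟩,
      Set.mem_smul_set_iff_inv_smul_mem.1 hyU⟩, fun hE => hn ⟨h, mem_bl (hT hh), _, hE, ?_⟩⟩
    · rw [b4, pow_succ' (bl L) 3]
      exact Finset.mul_mem_mul (inv_mem_bl (hT hh)) hk
    · rw [smul_inv_smul]
  refine h1.trans ((Finset.card_union_le _ _).trans (Nat.add_le_add le_rfl ?_))
  refine Finset.card_biUnion_le.trans ?_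
  refine (Finset.sum_le_sum h2).trans ?_
  rw [Finset.sum_const, smul_eq_mul]

theorem cnt_self {U : Set S} {L : Finset F} {E : Finset S} (hE : (E : Set S) ⊆ U) {n : ℕ}
    (h : (n + 1) * (nb U (b4 L) E).card ≤ (n + 2) * E.card) :
    E.card ≤ cnt U L E ∧ (n + 1) * cnt U L E ≤ (n + 2) * E.card := by
  classical
  refine ⟨Finset.card_le_card fun x hx => mem_nb.2 ⟨⟨1, by
      have := Finset.pow_mem_pow (one_mem_bl L) (n := 2)
      rwa [one_pow] at this, x, hx, one_smul _ _⟩, hE (Finset.mem_coe.2 hx)⟩,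
    le_trans (Nat.mul_le_mul le_rfl (Finset.card_le_card fun x hx => ?_)) h⟩
  obtain ⟨⟨k, hk, z, hz, hzx⟩, hxU⟩ := mem_nb.1 hx
  have h3 := Finset.mul_mem_mul hk (Finset.pow_mem_pow (one_mem_bl L) (n := 2))
  rw [one_pow, ← pow_add, mul_one] at h3
  exact mem_nb.2 ⟨⟨k, h3, z, hz, hzx⟩, hxU⟩

/-- The condition of Foelner for the subset `U`: for each finite set `K` of elements of the group
and each `n` there is a finite nonempty `E` in `U` such that the elements of `K` move `E` to at most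
`(1 + 1 / (n + 1)) |E|` points of `U`. -/
def Foelner (F : Type*) {S : Type*} [Group F] [MulAction F S] (U : Set S) : Prop :=
  ∀ (K : Finset F) (n : ℕ), ∃ E : Finset S, (E : Set S) ⊆ U ∧ E.Nonempty ∧
    (n + 1) * (nb U K E).card ≤ (n + 2) * E.card

theorem foelner_of_not_paradox {U : Set S} (hU : ¬ Paradox F U) : Foelner F U :=
  exists_small hU

/-- The condition of Foelner gives an invariant finitely additive measure on the subsets of `S` with
values in `[0, ∞]` and `m U = 1`. -/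
theorem Foelner.exists_measure {U : Set S} (hU : Foelner F U) :
    ∃ m : Set S → ENNReal, m ∅ = 0 ∧ (∀ V W, Disjoint V W → m (V ∪ W) = m V + m W) ∧
      (∀ (g : F) (W : Set S), m (g • W) = m W) ∧ m U = 1 := by
  classical
  choose E hEU hEne hE using fun i : Finset F × ℕ => hU (b4 i.1) i.2
  obtain ⟨ω, hω⟩ : ∃ ω : Ultrafilter (Finset F × ℕ), (ω : Filter (Finset F × ℕ)) ≤ atTop :=
    Ultrafilter.exists_le atTop
  let f : Set S → Finset F × ℕ → ENNReal := fun W i => (cnt W i.1 (E i) : ENNReal) / (E i).card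
  have hlim : ∀ W, ∃ a : ENNReal, Tendsto (f W) ω (𝓝 a) := by
    intro W
    obtain ⟨a, -, ha⟩ := isCompact_univ.ultrafilter_le_nhds (ω.map (f W)) (by simp)
    exact ⟨a, ha⟩
  choose m0 hm0 using hlim
  have hcard : ∀ i, ((E i).card : ENNReal) ≠ 0 := fun i => by
    rw [Ne, Nat.cast_eq_zero]
    exact (Finset.card_pos.2 (hEne i)).ne'
  have hadd : ∀ V W, Disjoint V W → m0 (V ∪ W) = m0 V + m0 W := by
    intro V W h
    refine tendsto_nhds_unique (hm0 (V ∪ W)) (((hm0 V).add (hm0 W)).congr fun i => ?_)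
    simp only [f]
    rw [cnt_union h, Nat.cast_add, ENNReal.add_div]
  have hsnd : Tendsto (fun i : Finset F × ℕ => ((i.2 : ENNReal) + 1)⁻¹) ω (𝓝 0) := by
    have h1 : Tendsto (fun n : ℕ => ((n : ENNReal) + 1)⁻¹) atTop (𝓝 0) := by
      have h2 := ENNReal.tendsto_inv_nat_nhds_zero.comp (tendsto_add_atTop_nat 1)
      refine h2.congr fun n => ?_
      change ((n + 1 : ℕ) : ENNReal)⁻¹ = _
      rw [Nat.cast_add, Nat.cast_one]
    refine (h1.comp ?_).mono_left hω
    rw [← prod_atTop_atTop_eq]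
    exact tendsto_snd
  -- the error
  have hann : ∀ i, ((ann U i.1 (E i)).card : ENNReal) / (E i).card ≤ ((i.2 : ENNReal) + 1)⁻¹ := by
    intro i
    have h1 := ann_card (hEU i) (hE i)
    rw [ENNReal.div_le_iff (hcard i) (ENNReal.natCast_ne_top _), mul_comm, ← div_eq_mul_inv,
      ENNReal.le_div_iff_mul_le (Or.inl (by simp)) (Or.inl (by
        exact ENNReal.add_ne_top.2 ⟨ENNReal.natCast_ne_top _, ENNReal.one_ne_top⟩))]
    calc ((ann U i.1 (E i)).card : ENNReal) * ((i.2 : ENNReal) + 1)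
        = (((i.2 + 1) * (ann U i.1 (E i)).card : ℕ) : ENNReal) := by push_cast; ring
      _ ≤ ((E i).card : ENNReal) := by exact_mod_cast h1
  have hinv0 : ∀ (g : F) (W : Set S), (∃ T : Finset F, W ⊆ ⋃ h ∈ T, h • U) →
      m0 (g • W) ≤ m0 W := by
    rintro g W ⟨T, hT⟩
    have h1 : Tendsto (fun i : Finset F × ℕ => f W i + T.card * ((i.2 : ENNReal) + 1)⁻¹) ω
        (𝓝 (m0 W)) := by
      have h2 := (hm0 W).add (ENNReal.Tendsto.const_mul (a := (T.card : ENNReal)) hsnd
        (Or.inr (ENNReal.natCast_ne_top _)))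
      rwa [mul_zero, add_zero] at h2
    refine le_of_tendsto_of_tendsto (hm0 (g • W)) h1 ?_
    have h3 : ∀ᶠ i : Finset F × ℕ in (ω : Filter (Finset F × ℕ)), (insert g T, 0) ≤ i :=
      hω (eventually_ge_atTop (insert g T, 0))
    filter_upwards [h3] with i hi
    have hgi : g ∈ i.1 := hi.1 (Finset.mem_insert_self _ _)
    have hTi : T ⊆ i.1 := (Finset.subset_insert _ _).trans hi.1
    have h4 := cnt_smul hT hgi hTi (E i)
    calc f (g • W) i
        ≤ ((cnt W i.1 (E i) + T.card * (ann U i.1 (E i)).card : ℕ) : ENNReal) / (E i).card :=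
          ENNReal.div_le_div_right (by exact_mod_cast h4) _
      _ = f W i + T.card * (((ann U i.1 (E i)).card : ENNReal) / (E i).card) := by
          push_cast
          rw [ENNReal.add_div, mul_div_assoc]
      _ ≤ f W i + T.card * ((i.2 : ENNReal) + 1)⁻¹ := by
          gcongr
          exact hann i
  have hcov : ∀ (g : F) (W : Set S), (∃ T : Finset F, W ⊆ ⋃ h ∈ T, h • U) →
      ∃ T : Finset F, g • W ⊆ ⋃ h ∈ T, h • U := by
    rintro g W ⟨T, hT⟩
    refine ⟨T.image (g * ·), ?_⟩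
    rintro _ ⟨x, hx, rfl⟩
    obtain ⟨h, hh⟩ := Set.mem_iUnion.1 (hT hx)
    obtain ⟨hhT, y, hy, hyx⟩ := Set.mem_iUnion.1 hh
    refine Set.mem_iUnion.2 ⟨g * h, Set.mem_iUnion.2 ⟨Finset.mem_image_of_mem _ hhT, y, hy, ?_⟩⟩
    change (g * h) • y = g • x
    change h • y = x at hyx
    rw [mul_smul, hyx]
  obtain ⟨m, hm⟩ : ∃ m : Set S → ENNReal, ∀ W, m W =
      if ∃ T : Finset F, W ⊆ ⋃ h ∈ T, h • U then m0 W else ⊤ := ⟨_, fun _ => rfl⟩
  refine ⟨m, ?_, ?_, ?_, ?_⟩
  · rw [hm, if_pos ⟨∅, Set.empty_subset _⟩]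
    have h1 := hadd ∅ ∅ (Set.disjoint_empty _)
    rw [Set.union_empty] at h1
    have h2 : Tendsto (f ∅) ω (𝓝 0) := by
      refine tendsto_const_nhds.congr fun i => ?_
      have h3 : nb (∅ : Set S) ((bl i.1) ^ 2) (E i) = ∅ :=
        Finset.eq_empty_of_forall_notMem fun y hy => (mem_nb.1 hy).2
      simp only [f, cnt]
      rw [h3, Finset.card_empty, Nat.cast_zero, ENNReal.zero_div]
    exact tendsto_nhds_unique (hm0 ∅) h2
  · intro V W h
    rw [hm, hm V, hm W]
    by_cases hV : ∃ T : Finset F, V ⊆ ⋃ h ∈ T, h • U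
    · by_cases hW : ∃ T : Finset F, W ⊆ ⋃ h ∈ T, h • U
      · rw [if_pos hV, if_pos hW, if_pos, hadd V W h]
        obtain ⟨T, hT⟩ := hV
        obtain ⟨T', hT'⟩ := hW
        refine ⟨T ∪ T', Set.union_subset (hT.trans ?_) (hT'.trans ?_)⟩
        · exact Set.biUnion_subset_biUnion_left fun x hx => Finset.mem_union_left _ hx
        · exact Set.biUnion_subset_biUnion_left fun x hx => Finset.mem_union_right _ hx
      · rw [if_neg hW, add_top, if_neg]
        rintro ⟨T, hT⟩
        exact hW ⟨T, Set.subset_union_right.trans hT⟩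
    · rw [if_neg hV, top_add, if_neg]
      rintro ⟨T, hT⟩
      exact hV ⟨T, Set.subset_union_left.trans hT⟩
  · intro g W
    rw [hm, hm W]
    by_cases hW : ∃ T : Finset F, W ⊆ ⋃ h ∈ T, h • U
    · rw [if_pos hW, if_pos (hcov g W hW)]
      refine le_antisymm (hinv0 g W hW) ?_
      have h1 := hinv0 g⁻¹ (g • W) (hcov g W hW)
      rwa [inv_smul_smul] at h1
    · rw [if_neg hW, if_neg]
      intro h
      have h1 := hcov g⁻¹ _ h
      rw [inv_smul_smul] at h1
      exact hW h1
  · rw [hm, if_pos ⟨{1}, fun x hx => Set.mem_iUnion.2 ⟨1, Set.mem_iUnion.2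
      ⟨Finset.mem_singleton_self _, x, hx, one_smul _ _⟩⟩⟩]
    have h1 : ∀ i, 1 ≤ f U i := by
      intro i
      simp only [f]
      rw [ENNReal.le_div_iff_mul_le (Or.inl (hcard i)) (Or.inl (ENNReal.natCast_ne_top _)), one_mul]
      exact_mod_cast (cnt_self (hEU i) (hE i)).1
    have h2 : ∀ i, f U i ≤ 1 + ((i.2 : ENNReal) + 1)⁻¹ := by
      intro i
      simp only [f]
      have h3 := (cnt_self (hEU i) (hE i)).2
      have h4 : ((i.2 : ENNReal) + 1) ≠ 0 := by simp
      have h5 : ((i.2 : ENNReal) + 1) ≠ ⊤ :=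
        ENNReal.add_ne_top.2 ⟨ENNReal.natCast_ne_top _, ENNReal.one_ne_top⟩
      rw [ENNReal.div_le_iff (hcard i) (ENNReal.natCast_ne_top _)]
      have h6 : (1 + ((i.2 : ENNReal) + 1)⁻¹) = ((i.2 : ENNReal) + 2) / ((i.2 : ENNReal) + 1) := by
        rw [show ((i.2 : ENNReal) + 2) = ((i.2 : ENNReal) + 1) + 1 by rw [add_assoc]; norm_num,
          ENNReal.add_div, ENNReal.div_self h4 h5, one_div]
      rw [h6, ← ENNReal.mul_div_right_comm, ENNReal.le_div_iff_mul_le (Or.inl h4) (Or.inl h5)]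
      calc (cnt U i.1 (E i) : ENNReal) * ((i.2 : ENNReal) + 1)
          = (((i.2 + 1) * cnt U i.1 (E i) : ℕ) : ENNReal) := by push_cast; ring
        _ ≤ (((i.2 + 2) * (E i).card : ℕ) : ENNReal) := by exact_mod_cast h3
        _ = ((i.2 : ENNReal) + 2) * (E i).card := by push_cast; ring
    refine le_antisymm ?_ (ge_of_tendsto' (hm0 U) h1)
    refine le_of_tendsto_of_tendsto' (hm0 U) ?_ h2
    have h7 := (tendsto_const_nhds (x := (1 : ENNReal)) (f := (ω : Filter (Finset F × ℕ)))).add hsnd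
    rwa [add_zero] at h7

/-- **Theorem of Tarski** (with the theorem of Hall): if `U` is not paradoxical, there
is an invariant finitely additive measure on the subsets of `S` with values in `[0, ∞]` and
`m U = 1`. -/
theorem exists_measure {U : Set S} (hU : ¬ Paradox F U) :
    ∃ m : Set S → ENNReal, m ∅ = 0 ∧ (∀ V W, Disjoint V W → m (V ∪ W) = m V + m W) ∧
      (∀ (g : F) (W : Set S), m (g • W) = m W) ∧ m U = 1 :=
  (foelner_of_not_paradox hU).exists_measure

end Pool.Agent.ZT
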