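import Pool.Agent.ZT.Virt4
import Pool.Agent.ZT.Hall

/-!
# Actions with invariant measures
-/

set_option autoImplicit false

namespace Pool.Agent.ZT

open Pool.Agent.Helper29.BA Pool.Agent.Helper29.PA Pool.Agent.T59
open scoped ENNReal Pointwise

/-- Sets which are not paradoxical. -/
theorem noParG_of_not_paradox {Γ X : Type} [Group Γ] [TopologicalSpace X] [MulAction Γ X]
    (h : ∀ U : Set X, IsClopen U → U.Nonempty → ¬ Paradox Γ U) : NoParG Γ X := by
  intro U hU hne
  obtain ⟨m, h1, h2, h3, h4⟩ := exists_measure (h U hU hne)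
  refine ⟨m, h1, fun V W _ _ hd => h2 V W hd, fun g V _ => ?_, by rw [h4]; exact one_ne_zero,
    by rw [h4]; exact ENNReal.one_ne_top⟩
  rw [← h3 g⁻¹ V]
  congr 1
  ext x
  rw [Set.mem_preimage, Set.mem_smul_set_iff_inv_smul_mem, inv_inv]

/-- Amenable groups: invariant means on the subsets of the group. -/
def Amen (Γ : Type) [Group Γ] : Prop :=
  ∃ m : Set Γ → ℝ≥0∞, m Set.univ = 1 ∧ m ∅ = 0 ∧
    (∀ V W, Disjoint V W → m (V ∪ W) = m V + m W) ∧
    ∀ (g : Γ) (V : Set Γ), m ((fun x => g * x) ⁻¹' V) = m V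

/-- Minimal actions of amenable groups. -/
theorem noParG_of_minimal {Γ X : Type} [Group Γ] [TopologicalSpace X] [MulAction Γ X]
    [ContinuousConstSMul Γ X] [CompactSpace X] (hΓ : Amen Γ)
    (hX : ∀ U : Set X, IsOpen U → U.Nonempty → ∀ x, ∃ g : Γ, g • x ∈ U) : NoParG Γ X := by
  classical
  intro U hU hne
  obtain ⟨m, h1, h0, h2, h3⟩ := hΓ
  obtain ⟨x, hx⟩ := hne
  let μ : Set X → ℝ≥0∞ := fun V => m ((fun g : Γ => g • x) ⁻¹' V)
  have hadd : ∀ V W : Set X, Disjoint V W → μ (V ∪ W) = μ V + μ W := fun V W hd =>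
    h2 _ _ (hd.preimage _)
  have hinv : ∀ (g : Γ) (V : Set X), μ ((fun y => g • y) ⁻¹' V) = μ V := by
    intro g V
    refine Eq.trans ?_ (h3 g ((fun g : Γ => g • x) ⁻¹' V))
    change m _ = m _
    congr 1
    ext k
    change g • k • x ∈ V ↔ (g * k) • x ∈ V
    rw [mul_smul]
  have hmono : ∀ V W : Set X, V ⊆ W → μ V ≤ μ W := by
    intro V W h
    rw [← Set.union_sdiff_cancel h, hadd V (W \ V) Set.disjoint_sdiff_right]
    exact le_self_add
  have huniv : μ Set.univ = 1 := h1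
  have hle : ∀ (T : Finset Γ), μ (⋃ g ∈ T, (fun y => g • y) ⁻¹' U) ≤ T.card * μ U := by
    intro T
    induction T using Finset.induction_on with
    | empty => simp [μ, h0]
    | insert a s ha ih =>
      rw [Finset.set_biUnion_insert, Finset.card_insert_of_notMem ha]
      have h5 : ∀ V W : Set X, μ (V ∪ W) ≤ μ V + μ W := by
        intro V W
        rw [← Set.union_sdiff_self, hadd V (W \ V) Set.disjoint_sdiff_right]
        gcongr
        exact hmono _ _ Set.sdiff_subset
      refine (h5 _ _).trans ?_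
      rw [hinv]
      push_cast
      rw [add_mul, one_mul, add_comm]
      gcongr
  obtain ⟨T, hT⟩ : ∃ T : Finset Γ, (Set.univ : Set X) ⊆ ⋃ g ∈ T, (fun y => g • y) ⁻¹' U :=
    isCompact_univ.elim_finite_subcover (fun g : Γ => (fun y : X => g • y) ⁻¹' U)
      (fun g => hU.isOpen.preimage (continuous_const_smul g)) fun y _ => by
        obtain ⟨g, hg⟩ := hX U hU.isOpen ⟨x, hx⟩ y
        exact Set.mem_iUnion.2 ⟨g, hg⟩
  refine ⟨μ, h0, fun V W _ _ hd => hadd V W hd, fun g V _ => hinv g V, ?_, ?_⟩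
  · intro h6
    have h7 := (hmono _ _ hT).trans (hle T)
    rw [huniv, h6, mul_zero] at h7
    exact absurd h7 (by simp)
  · exact ((hmono _ _ (Set.subset_univ U)).trans_lt (by rw [huniv]; exact ENNReal.one_lt_top)).ne

end Pool.Agent.ZT
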