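import Pool.Agent.ZT.Virt4

/-!
# Amplifications of the full groups
-/

set_option autoImplicit false

namespace Pool.Agent.ZT

open Pool.Agent.Helper29.BA Pool.Agent.Helper29.PA Pool.Agent.T59
open scoped ENNReal

section act

variable (Γ X : Type) [Group Γ] [TopologicalSpace X] [MulAction Γ X] (n : ℕ)

/-- The action of `Γ × Perm (Fin n)` on `X × Fin n`. -/
@[reducible] def ampAct : MulAction (Γ × Equiv.Perm (Fin n)) (X × Fin n) where
  smul g z := (g.1 • z.1, g.2 z.2)
  one_smul z := Prod.ext (one_smul Γ z.1) rfl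
  mul_smul g h z := Prod.ext (mul_smul g.1 h.1 z.1) rfl

theorem ampCont [ContinuousConstSMul Γ X] :
    @ContinuousConstSMul (Γ × Equiv.Perm (Fin n)) (X × Fin n) _ (ampAct Γ X n).toSMul :=
  @ContinuousConstSMul.mk _ _ _ (ampAct Γ X n).toSMul fun g =>
    ((continuous_const_smul g.1).comp continuous_fst).prodMk
      ((continuous_of_discreteTopology (f := g.2)).comp continuous_snd)

/-- The full group of the amplification. -/
def AG [ContinuousConstSMul Γ X] :
    Subgroup (Equiv.Perm ((X × Fin n) × (Γ × Equiv.Perm (Fin n)))) :=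
  @GG (Γ × Equiv.Perm (Fin n)) (X × Fin n) _ _ (ampAct Γ X n) (ampCont Γ X n)

variable {Γ X}

theorem noParG_amp (h : NoParG Γ X) :
    @NoParG (Γ × Equiv.Perm (Fin n)) (X × Fin n) _ _ (ampAct Γ X n) := by
  let _ := ampAct Γ X n
  intro W hW hne
  have hV : IsClopen (⋃ i ∈ (Finset.univ : Finset (Fin n)), slice W i) :=
    isClopen_biUnion_finset fun i _ => slice_clopen hW i
  have hVne : (⋃ i ∈ (Finset.univ : Finset (Fin n)), slice W i).Nonempty := by
    obtain ⟨⟨x, i⟩, hx⟩ := hne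
    exact ⟨x, Set.mem_biUnion (Finset.mem_univ i) hx⟩
  obtain ⟨m, hm0, hadd, hinv, hpos, hfin⟩ := h _ hV hVne
  have hm : InvM (fun _ : Unit => Homeomorph.refl X) m := ⟨hm0, hadd, fun _ _ _ => rfl⟩
  refine ⟨fun W => ∑ i, m (slice W i), ?_, ?_, ?_, ?_, ?_⟩
  · exact Finset.sum_eq_zero fun i _ => hm0
  · intro U V hU hV hd
    rw [← Finset.sum_add_distrib]
    refine Finset.sum_congr rfl fun i _ => ?_
    exact hadd _ _ (slice_clopen hU i) (slice_clopen hV i) (hd.preimage _)
  · intro g V hV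
    have h1 : ∀ i, m (slice ((fun z : X × Fin n => g • z) ⁻¹' V) i) = m (slice V (g.2 i)) :=
      fun i => hinv g.1 (slice V (g.2 i)) (slice_clopen hV _)
    exact (Finset.sum_congr rfl fun i _ => h1 i).trans
      (Equiv.sum_comp g.2 fun i => m (slice V i))
  · exact ((pos_iff_ne_zero.2 hpos).trans_le
      (hm.biUnion_le Finset.univ (slice W) fun i => slice_clopen hW i)).ne'
  · refine (ENNReal.sum_lt_top.2 fun i _ => ?_).ne
    refine lt_of_le_of_lt (hm.mono (slice_clopen hW i) hV ?_) (lt_top_iff_ne_top.2 hfin)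
    exact fun x hx => Set.mem_biUnion (Finset.mem_univ i) hx

end act

section virt

/-- Products of virtually free groups and finite groups. -/
theorem virtFree_prod {G P : Type} [Group G] [Group P] [Finite P]
    (h : ∃ (A : Type) (F : Subgroup G), F.FiniteIndex ∧ Nonempty (F ≃* FreeGroup A)) :
    ∃ (A : Type) (F : Subgroup (G × P)), F.FiniteIndex ∧ Nonempty (F ≃* FreeGroup A) := by
  obtain ⟨A, F, hF, ⟨e⟩⟩ := h
  refine ⟨A, F.prod ⊥, ⟨?_⟩, ⟨?_⟩⟩
  · rw [Subgroup.index_prod]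
    exact mul_ne_zero hF.index_ne_zero Subgroup.FiniteIndex.index_ne_zero
  · exact (F.prodEquiv ⊥).trans (MulEquiv.prodUnique.trans e)

variable {C : ∀ (G : Type) [Group G], Prop}

/-- **Amplifications.** -/
theorem mem_AG (hC : ExtClass C) {I : Type} [Preorder I] [IsDirectedOrder I]
    [Nonempty I] {G : I → Type} [∀ i, Group (G i)] (f : ∀ i j, i ≤ j → G i →* G j)
    {Γ X : Type} [Group Γ] (g : ∀ i, G i →* Γ) [TopologicalSpace X] [CompactSpace X]
    [MulAction Γ X] [ContinuousConstSMul Γ X]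
    (hff : ∀ i j k (h : i ≤ j) (h' : j ≤ k) x, f j k h' (f i j h x) = f i k (h.trans h') x)
    (hgf : ∀ i j (h : i ≤ j) x, g j (f i j h x) = g i x) (hsur : ∀ x, ∃ i y, g i y = x)
    (hker : ∀ i y, g i y = 1 → ∃ j, ∃ h : i ≤ j, f i j h y = 1)
    (hG : ∀ i, ∃ (A : Type) (F : Subgroup (G i)), F.FiniteIndex ∧ Nonempty (F ≃* FreeGroup A))
    (hm : NoParG Γ X) (n : ℕ) : C (AG Γ X n) := by
  let _ := ampAct Γ X n
  have := ampCont Γ X n
  refine mem_GG_colimit_virtFree hC (I := I) (G := fun i => G i × Equiv.Perm (Fin n))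
    (fun i j hij => (f i j hij).prodMap (MonoidHom.id _))
    (fun i => (g i).prodMap (MonoidHom.id _)) ?_ ?_ ?_ ?_ (fun i => virtFree_prod (hG i))
    (noParG_amp n hm)
  · intro i j k hij hjk x
    exact Prod.ext (hff i j k hij hjk x.1) rfl
  · intro i j hij x
    exact Prod.ext (hgf i j hij x.1) rfl
  · rintro ⟨x, p⟩
    obtain ⟨i, y, hy⟩ := hsur x
    exact ⟨i, (y, p), Prod.ext hy rfl⟩
  · rintro i ⟨y, p⟩ h
    obtain ⟨j, hij, hj⟩ := hker i y (congrArg Prod.fst h)
    have hp : p = 1 := congrArg Prod.snd h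
    exact ⟨j, hij, Prod.ext hj hp⟩

end virt

end Pool.Agent.ZT
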