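import Pool.Agent.ZT.ParadK
import Pool.Agent.ZT.MeasC
import Pool.Agent.ZT.VirtPerm
import Pool.Agent.ZT.VirtCor
import Pool.Agent.ZT.ThomF

/-!
# Paradoxical clopen sets, invariant measures and Thompson's group `T`
-/

set_option autoImplicit false

open Topology

namespace Pool.Agent.ZT

section main

variable {Δ Y : Type} [Group Δ] [TopologicalSpace Y] [MulAction Δ Y] [ContinuousConstSMul Δ Y]

/-- The image of a clopen set and the cocycle of the inverse map. -/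
theorem exists_inv [CompactSpace Y] {V : Set Y} (hV : IsClopen V) {b : Y → Δ}
    (hb : IsLocallyConstant b) (inj : ∀ x ∈ V, ∀ y ∈ V, b x • x = b y • y → x = y) :
    IsClopen {y | ∃ x ∈ V, b x • x = y} ∧
      ∃ r : Y → Δ, IsLocallyConstant r ∧ ∀ x ∈ V, r (b x • x) = (b x)⁻¹ := by
  classical
  have : Finite (Set.range b) := hb.range_finite.to_subtype
  let W : Set.range b → Set Y := fun g => {y | (g : Δ)⁻¹ • y ∈ V ∧ b ((g : Δ)⁻¹ • y) = g}
  have hW : ∀ g, IsClopen (W g) := by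
    intro g
    have h1 : W g = (fun y => (g : Δ)⁻¹ • y) ⁻¹' (V ∩ {y | b y = g}) := rfl
    rw [h1]
    exact (hV.inter (hb.isClopen_fiber _)).preimage (continuous_const_smul _)
  have h1 : {y | ∃ x ∈ V, b x • x = y} = ⋃ g, W g := by
    ext y
    rw [Set.mem_iUnion]
    constructor
    · rintro ⟨x, hx, rfl⟩
      refine ⟨⟨b x, x, rfl⟩, ?_, ?_⟩
      · change (b x)⁻¹ • b x • x ∈ V
        rwa [inv_smul_smul]
      · change b ((b x)⁻¹ • b x • x) = b x
        rw [inv_smul_smul]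
    · rintro ⟨g, h2, h3⟩
      exact ⟨(g : Δ)⁻¹ • y, h2, by rw [h3, smul_inv_smul]⟩
  refine ⟨h1 ▸ isClopen_iUnion_of_finite hW, ?_⟩
  let F : Set (Set.range b) → Δ := fun S => if h : S.Nonempty then ((h.choose : Set.range b) : Δ)⁻¹ else 1
  refine ⟨fun y => F {g | y ∈ W g}, (lc_set hW).comp F, fun x hx => ?_⟩
  have h2 : ({g | b x • x ∈ W g} : Set (Set.range b)).Nonempty := by
    refine ⟨⟨b x, x, rfl⟩, ?_, ?_⟩
    · change (b x)⁻¹ • b x • x ∈ V
      rwa [inv_smul_smul]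
    · change b ((b x)⁻¹ • b x • x) = b x
      rw [inv_smul_smul]
  have h3 : F {g | b x • x ∈ W g} = ((h2.choose : Set.range b) : Δ)⁻¹ := dif_pos h2
  obtain ⟨h4, h5⟩ := h2.choose_spec
  change F {g | b x • x ∈ W g} = (b x)⁻¹
  rw [h3]
  have h6 : ((h2.choose : Set.range b) : Δ)⁻¹ • b x • x = x := by
    refine inj _ h4 x hx ?_
    rw [h5, smul_inv_smul]
  rw [h6] at h5
  rw [← h5]

/-- **A paradoxical clopen set.** -/
theorem exists_thom_par [CompactSpace Y] {V : Set Y} (hV : IsClopen V) (hne : V.Nonempty)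
    {a b : Y → Δ} (ha : IsLocallyConstant a) (hb : IsLocallyConstant b)
    (ma : ∀ y ∈ V, a y • y ∈ V) (mb : ∀ y ∈ V, b y • y ∈ V)
    (ia : ∀ x ∈ V, ∀ y ∈ V, a x • x = a y • y → x = y)
    (ib : ∀ x ∈ V, ∀ y ∈ V, b x • x = b y • y → x = y)
    (dis : ∀ x ∈ V, ∀ y ∈ V, a x • x ≠ b y • y) :
    ∃ p q r : Equiv.Perm (Y × Δ), Thom p q r ∧ p ≠ 1 ∧ p ∈ GG Δ Y ∧ q ∈ GG Δ Y ∧ r ∈ GG Δ Y := by
  classical
  obtain ⟨hcA, -⟩ := exists_inv hV ha ia
  obtain ⟨hcB, r, hr, hr'⟩ := exists_inv hV hb ib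
  let B : Set Y := {y | ∃ x ∈ V, b x • x = y}
  let Z : Set Y := V \ {y | ∃ x ∈ V, a x • x = y}
  let c0 : Y → Δ := fun y => if y ∈ B then b (a (r y • y) • r y • y) * a (r y • y) * r y else 1
  have hc0 : IsLocallyConstant c0 := by
    have h1 : IsLocallyConstant fun y => b (a (r y • y) • r y • y) * a (r y • y) * r y := by
      refine ((?_ : IsLocallyConstant fun y => b (a (r y • y) • r y • y)).mul ?_).mul hr
      · exact lc_smul (F := fun y => b (a y • y)) hr (lc_smul ha hb)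
      · exact lc_smul hr ha
    rw [IsLocallyConstant.iff_eventually_eq]
    intro y
    by_cases hy : y ∈ B
    · filter_upwards [hcB.isOpen.mem_nhds hy, h1.eventually_eq y] with z hz h2
      change (if z ∈ B then _ else _) = if y ∈ B then _ else _
      rw [if_pos hy, if_pos (show z ∈ B from hz)]
      exact h2
    · filter_upwards [hcB.compl.isOpen.mem_nhds hy] with z hz
      change (if z ∈ B then _ else _) = if y ∈ B then _ else _
      rw [if_neg hy, if_neg (show z ∉ B from hz)]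
  have hc0B : ∀ v ∈ V, c0 (b v • v) • b v • v = b (a v • v) • a v • v := by
    intro v hv
    have h1 : b v • v ∈ B := ⟨v, hv, rfl⟩
    have h2 : r (b v • v) • b v • v = v := by rw [hr' v hv, inv_smul_smul]
    change (if b v • v ∈ B then b (a (r (b v • v) • b v • v) • r (b v • v) • b v • v) *
      a (r (b v • v) • b v • v) * r (b v • v) else 1) • b v • v = _
    rw [if_pos h1, h2, mul_smul, mul_smul, h2]
  have hc0N : ∀ y, y ∉ B → c0 y • y = y := by
    intro y hy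
    change (if y ∈ B then _ else (1 : Δ)) • y = y
    rw [if_neg hy, one_smul]
  have hBZ : ∀ v ∈ V, b v • v ∈ Z := by
    intro v hv
    refine ⟨mb v hv, ?_⟩
    rintro ⟨x, hx, h⟩
    exact dis x hx v hv h
  refine exists_thom_GG (Z := Z) (hV.diff hcA) ?_ hc0 hb ?_ ?_ ?_ ?_ ?_ ?_
  · obtain ⟨v, hv⟩ := hne
    exact ⟨_, hBZ v hv⟩
  · intro y hy
    by_cases hyB : y ∈ B
    · obtain ⟨v, hv, rfl⟩ := hyB
      rw [hc0B v hv]
      exact hBZ _ (ma v hv)
    · rw [hc0N y hyB]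
      exact hy
  · exact fun y hy => hBZ y hy.1
  · intro x hx y hy h
    by_cases hxB : x ∈ B
    · obtain ⟨v, hv, rfl⟩ := hxB
      rw [hc0B v hv] at h
      by_cases hyB : y ∈ B
      · obtain ⟨w, hw, rfl⟩ := hyB
        rw [hc0B w hw] at h
        rw [ia v hv w hw (ib _ (ma v hv) _ (ma w hw) h)]
      · rw [hc0N y hyB] at h
        exact (hyB ⟨_, ma v hv, h⟩).elim
    · rw [hc0N x hxB] at h
      by_cases hyB : y ∈ B
      · obtain ⟨w, hw, rfl⟩ := hyB
        rw [hc0B w hw] at h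
        exact (hxB ⟨_, ma w hw, h.symm⟩).elim
      · rwa [hc0N y hyB] at h
  · exact fun x hx y hy h => ib x hx.1 y hy.1 h
  · intro x hx y hy h
    by_cases hxB : x ∈ B
    · obtain ⟨v, hv, rfl⟩ := hxB
      rw [hc0B v hv] at h
      exact hy.2 ⟨v, hv, ib _ (ma v hv) _ hy.1 h⟩
    · rw [hc0N x hxB] at h
      exact hxB ⟨y, hy.1, h.symm⟩
  · intro z hz
    by_cases hzB : z ∈ B
    · obtain ⟨v, hv, rfl⟩ := hzB
      by_cases hvA : ∃ x ∈ V, a x • x = v
      · obtain ⟨w, hw, rfl⟩ := hvA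
        exact Or.inl ⟨b w • w, hBZ w hw, hc0B w hw⟩
      · exact Or.inr ⟨v, ⟨hv, hvA⟩, rfl⟩
    · exact Or.inl ⟨z, hz, hc0N z hzB⟩

end main

section amp

variable {Γ X : Type} [Group Γ] [TopologicalSpace X] [MulAction Γ X] [ContinuousConstSMul Γ X]

/-- **A paradox for `k` copies of a clopen set.** -/
theorem exists_thom_amp [CompactSpace X] {U : Set X} (hU : IsClopen U) (hne : U.Nonempty) {k : ℕ}
    (hk0 : 0 < k) (h : Sb Γ (fun _ : Fin k ⊕ Fin k => U) fun _ : Fin k => U) :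
    ∃ p q r : Equiv.Perm ((X × Fin k) × (Γ × Equiv.Perm (Fin k))), Thom p q r ∧ p ≠ 1 ∧
      p ∈ AG Γ X k ∧ q ∈ AG Γ X k ∧ r ∈ AG Γ X k := by
  classical
  let _ := ampAct Γ X k
  have := ampCont Γ X k
  unfold AG
  obtain ⟨c, l, h1, h2, h3, h4⟩ := h
  have hk : Nonempty (Fin k) := ⟨⟨0, hk0⟩⟩
  let F : (Fin k → Fin k ⊕ Fin k) → X × Fin k → Γ × Equiv.Perm (Fin k) := fun s p =>
    (c (s p.2) p.1, Equiv.swap p.2 (l (s p.2) p.1))
  have hF : ∀ s, IsLocallyConstant (F s) := by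
    intro s
    have e1 : IsLocallyConstant (Prod.snd : X × Fin k → Fin k) :=
      (IsLocallyConstant.iff_continuous _).2 continuous_snd
    refine lc_bind (F := fun (i : Fin k) (p : X × Fin k) =>
      ((c (s i) p.1, Equiv.swap i (l (s i) p.1)) : Γ × Equiv.Perm (Fin k))) e1 fun i => ?_
    have e2 : IsLocallyConstant fun x : X => ((c (s i) x, l (s i) x) : Γ × Fin k) :=
      (h1 (s i)).prodMk (h2 (s i))
    exact (e2.comp_continuous continuous_fst).comp fun q => (q.1, Equiv.swap i q.2)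
  have hFa : ∀ s x i, F s (x, i) • ((x, i) : X × Fin k) = (c (s i) x • x, l (s i) x) := by
    intro s x i
    exact Prod.ext rfl (Equiv.swap_apply_left _ _)
  have hm : ∀ s, ∀ p ∈ (Prod.fst ⁻¹' U : Set (X × Fin k)), F s p • p ∈ (Prod.fst ⁻¹' U : Set (X × Fin k)) := by
    rintro s ⟨x, i⟩ hx
    rw [hFa]
    exact h3 (s i) x hx
  have hi : ∀ s s', ∀ p ∈ (Prod.fst ⁻¹' U : Set (X × Fin k)), ∀ p' ∈ (Prod.fst ⁻¹' U : Set (X × Fin k)),
      F s p • p = F s' p' • p' → s p.2 = s' p'.2 ∧ p.1 = p'.1 := by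
    rintro s s' ⟨x, i⟩ hx ⟨y, j⟩ hy h
    rw [hFa, hFa] at h
    obtain ⟨e1, e2⟩ := Prod.mk.inj h
    exact h4 _ _ _ _ hx hy e1 e2
  refine exists_thom_par (V := Prod.fst ⁻¹' U) (hU.preimage continuous_fst) ?_ (hF Sum.inl)
    (hF Sum.inr) (hm _) (hm _) ?_ ?_ ?_
  · obtain ⟨x, hx⟩ := hne
    obtain ⟨i⟩ := hk
    exact ⟨(x, i), hx⟩
  · intro p hp p' hp' h
    obtain ⟨e1, e2⟩ := hi _ _ p hp p' hp' h
    exact Prod.ext e2 (Sum.inl_injective e1)
  · intro p hp p' hp' h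
    obtain ⟨e1, e2⟩ := hi _ _ p hp p' hp' h
    exact Prod.ext e2 (Sum.inr_injective e1)
  · intro p hp p' hp' h
    obtain ⟨e1, -⟩ := hi _ _ p hp p' hp' h
    cases e1

/-- No nontrivial solutions in the amplifications: invariant measures. -/
theorem noParG_of_noT [CompactSpace X] (h : ∀ n, NoT (AG Γ X n)) : NoParG Γ X := by
  intro U hU hne
  refine exists_measureC hU hne fun k hk hs => ?_
  obtain ⟨p, q, r, h1, h2, h3, h4, h5⟩ := exists_thom_amp hU hne hk hs
  exact h2 (noT_false (h k) h3 h4 h5 h1)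

end amp

section final

open Pool.Agent.Helper29.PA

/-- **The dichotomy for actions of directed colimits of virtually free groups.** -/
theorem compact_dichotomy (I : Type) [Preorder I] [IsDirectedOrder I] [Nonempty I] (G : I → Type)
    [∀ i, Group (G i)] (f : ∀ i j, i ≤ j → G i →* G j) (Γ : Type) [Group Γ] (g : ∀ i, G i →* Γ)
    (hff : ∀ i j k (h : i ≤ j) (h' : j ≤ k) x, f j k h' (f i j h x) = f i k (h.trans h') x)
    (hgf : ∀ i j (h : i ≤ j) x, g j (f i j h x) = g i x)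
    (hsur : ∀ x, ∃ i y, g i y = x)
    (hker : ∀ i y, g i y = 1 → ∃ j, ∃ h : i ≤ j, f i j h y = 1)
    (hG : ∀ i, ∃ (A : Type) (F : Subgroup (G i)), F.FiniteIndex ∧ Nonempty (F ≃* FreeGroup A))
    (X : Type) [TopologicalSpace X] [CompactSpace X] [MulAction Γ X] [ContinuousConstSMul Γ X] :
    List.TFAE [∀ (n : ℕ) (C : ∀ (G : Type) [Group G], Prop), ExtClass C → C (AG Γ X n),
      NoParG Γ X,
      ∀ (n : ℕ) (a b c : AG Γ X n), Thom a b c → a = 1 ∧ b = 1 ∧ c = 1,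
      ∀ (n : ℕ) (a b : AG Γ X n), ThF a b → a * b = b * a] := by
  tfae_have 1 → 4 := fun h n => noF_of_forall (h n)
  tfae_have 4 → 3 := fun h n => noT_of_noF (h n)
  tfae_have 3 → 2 := fun h => noParG_of_noT h
  tfae_have 2 → 1 := fun h n C hC => mem_AG hC f g hff hgf hsur hker hG h n
  tfae_finish

end final

end Pool.Agent.ZT
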