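import Pool.Agent.ZT.TreeMem

/-!
# Subexponential growth at one vertex of each component excludes paradoxical sets
-/

set_option autoImplicit false

namespace Pool.Agent.ZT

open Filter
open Pool.Agent.Helper29.BA Pool.Agent.Helper29.PA Pool.Agent.T59

variable {V : Type}

/-- The images of a vertex under the words in two maps. -/
def wordPt (a b : V → V) (x : V) : List Bool → V
  | [] => x
  | c :: l => if c then a (wordPt a b x l) else b (wordPt a b x l)

lemma wordPt_mem {a b : V → V} {U : Set V} (ha : Set.MapsTo a U U) (hb : Set.MapsTo b U U) {x : V}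
    (hx : x ∈ U) (l : List Bool) : wordPt a b x l ∈ U := by
  induction l with
  | nil => exact hx
  | cons c l ih =>
    unfold wordPt
    split_ifs
    · exact ha ih
    · exact hb ih

lemma wordPt_edist {T : SimpleGraph V} {a b : V → V} {U : Set V} (ha : Set.MapsTo a U U)
    (hb : Set.MapsTo b U U) {N : ℕ} (hN : ∀ u ∈ U, T.edist u (a u) ≤ N ∧ T.edist u (b u) ≤ N)
    {x : V} (hx : x ∈ U) (l : List Bool) :
    T.edist x (wordPt a b x l) ≤ ((N * l.length : ℕ) : ℕ∞) := by
  induction l with
  | nil =>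
    change T.edist x x ≤ _
    rw [SimpleGraph.edist_self]
    exact zero_le
  | cons c l ih =>
    have h1 := hN _ (wordPt_mem ha hb hx l)
    have h2 : T.edist (wordPt a b x l) (wordPt a b x (c :: l)) ≤ N := by
      cases c
      · exact h1.2
      · exact h1.1
    refine (SimpleGraph.edist_triangle (v := wordPt a b x l)).trans ((add_le_add ih h2).trans ?_)
    rw [List.length_cons, ← Nat.cast_add]
    exact_mod_cast (by rw [Nat.mul_succ])

lemma wordPt_inj {a b : V → V} {U : Set V} (ha : Set.MapsTo a U U) (hb : Set.MapsTo b U U)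
    (ia : Set.InjOn a U) (ib : Set.InjOn b U) (hd : Disjoint (a '' U) (b '' U)) {x : V}
    (hx : x ∈ U) (l : List Bool) : ∀ l' : List Bool, l.length = l'.length →
      wordPt a b x l = wordPt a b x l' → l = l' := by
  induction l with
  | nil =>
    intro l' h _
    exact (List.length_eq_zero_iff.1 h.symm).symm
  | cons c l ih =>
    intro l' h h2
    cases l' with
    | nil => simp at h
    | cons c' l' =>
      have h3 : l.length = l'.length := by simpa using h
      have m1 := wordPt_mem ha hb hx l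
      have m2 := wordPt_mem ha hb hx l'
      rw [Set.disjoint_left] at hd
      cases c <;> cases c'
      · have h4 : b (wordPt a b x l) = b (wordPt a b x l') := h2
        rw [ih l' h3 (ib m1 m2 h4)]
      · have h4 : b (wordPt a b x l) = a (wordPt a b x l') := h2
        exact absurd ⟨_, m1, h4⟩ (hd ⟨_, m2, rfl⟩)
      · have h4 : a (wordPt a b x l) = b (wordPt a b x l') := h2
        exact absurd ⟨_, m2, h4.symm⟩ (hd ⟨_, m1, rfl⟩)
      · have h4 : a (wordPt a b x l) = a (wordPt a b x l') := h2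
        rw [ih l' h3 (ia m1 m2 h4)]

/-- A paradoxical set has exponential growth at each of its points. -/
theorem two_pow_le {T : SimpleGraph V} {a b : V → V} {U : Set V} (ha : Set.MapsTo a U U)
    (hb : Set.MapsTo b U U) (ia : Set.InjOn a U) (ib : Set.InjOn b U)
    (hd : Disjoint (a '' U) (b '' U)) {N : ℕ}
    (hN : ∀ u ∈ U, T.edist u (a u) ≤ N ∧ T.edist u (b u) ≤ N) {x : V} (hx : x ∈ U) (n : ℕ)
    (F : Finset V) (hF : ∀ u, T.edist x u ≤ ((N * n : ℕ) : ℕ∞) → u ∈ F) : 2 ^ n ≤ F.card := by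
  classical
  have h1 : Fintype.card (List.Vector Bool n) = 2 ^ n := by
    rw [card_vector, Fintype.card_bool]
  rw [← h1, ← Finset.card_univ]
  apply Finset.card_le_card_of_injOn fun l : List.Vector Bool n => wordPt a b x l.1
  · intro l _
    rw [Finset.mem_coe]
    apply hF
    have := wordPt_edist ha hb hN hx l.1
    rwa [l.2] at this
  · intro l _ l' _ h
    exact Subtype.ext (wordPt_inj ha hb ia ib hd hx l.1 l'.1 (by rw [l.2, l'.2]) h)

/-- For each `c > 1` there are infinitely many `n` such that the ball of radius `n` about `v` has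
less than `c ^ n` vertices. -/
def SubexpAt (T : SimpleGraph V) (v : V) : Prop :=
  ∀ c : ℝ, 1 < c → ∃ᶠ n : ℕ in atTop, ∃ F : Finset V, (∀ u, T.edist v u ≤ n → u ∈ F) ∧
    (F.card : ℝ) < c ^ n

/-- **Subexponential growth at one vertex of each component excludes paradoxical sets.** -/
theorem not_paradoxG_of_subexp (T : SimpleGraph V)
    (h : ∀ v, ∃ w, T.Reachable v w ∧ SubexpAt T w) (U : Set V) (hU : U.Nonempty) :
    ¬ ParadoxG T U := by
  rintro ⟨N, a, b, ha, hb, ia, ib, hd, hN⟩
  obtain ⟨x, hx⟩ := hU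
  obtain ⟨w, hw, hg⟩ := h x
  obtain ⟨D, hD⟩ : ∃ D : ℕ, T.edist w x ≤ D := by
    obtain ⟨p⟩ := hw.symm
    exact ⟨p.length, SimpleGraph.Walk.edist_le p⟩
  obtain ⟨N', hN'⟩ : ∃ N', N' = N + 1 := ⟨_, rfl⟩
  have hN'0 : 0 < N' := by omega
  have hN'R : (0 : ℝ) < N' := by exact_mod_cast hN'0
  obtain ⟨c, hc⟩ : ∃ c : ℝ, c = (2 : ℝ) ^ ((1 : ℝ) / (2 * N')) := ⟨_, rfl⟩
  have hc1 : 1 < c := by
    rw [hc]
    exact Real.one_lt_rpow (by norm_num) (by positivity)
  obtain ⟨m, ⟨F, hF, hcard⟩, hm⟩ :=
    ((hg c hc1).and_eventually (eventually_ge_atTop (2 * (D + N')))).exists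
  obtain ⟨n, hn⟩ : ∃ n, n = (m - D) / N' := ⟨_, rfl⟩
  have h1 : N' * n ≤ m - D := by rw [hn]; exact Nat.mul_div_le _ _
  have h2 : m - D < N' * (n + 1) := by
    rw [hn]
    exact Nat.lt_mul_div_succ _ hN'0
  have h3 : m ≤ 2 * (N' * n) := by
    rw [Nat.mul_add, Nat.mul_one] at h2
    omega
  have h4 : N * n ≤ N' * n := Nat.mul_le_mul_right n (by omega)
  have h5 : 2 ^ n ≤ F.card := by
    refine two_pow_le ha hb ia ib hd hN hx n F fun u hu => hF u ?_
    refine (SimpleGraph.edist_triangle (v := x)).trans ((add_le_add hD hu).trans ?_)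
    rw [← Nat.cast_add]
    exact_mod_cast (by omega : D + N * n ≤ m)
  have h6 : c ^ m ≤ (2 : ℝ) ^ n := by
    rw [hc, ← Real.rpow_natCast, ← Real.rpow_mul (by norm_num), ← Real.rpow_natCast]
    apply Real.rpow_le_rpow_of_exponent_le (by norm_num)
    rw [one_div, inv_mul_le_iff₀ (by positivity)]
    have h7 : (m : ℝ) ≤ 2 * (N' * n) := by exact_mod_cast h3
    linarith
  have h7 : (2 : ℝ) ^ n ≤ F.card := by exact_mod_cast h5
  linarith

/-- Polynomial growth is subexponential. -/
theorem subexpAt_of_poly {T : SimpleGraph V} {v : V} (A k : ℕ)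
    (h : ∀ n : ℕ, ∃ F : Finset V, (∀ u, T.edist v u ≤ n → u ∈ F) ∧ F.card ≤ A * (n + 1) ^ k) :
    SubexpAt T v := by
  intro c hc
  have h1 : Tendsto (fun n : ℕ => (n : ℝ) ^ k / c ^ n) atTop (nhds 0) :=
    tendsto_pow_const_div_const_pow_of_one_lt k hc
  have h2 := (h1.comp (tendsto_add_atTop_nat 1)).const_mul (A * c)
  rw [mul_zero] at h2
  have h3 := h2.eventually (Metric.ball_mem_nhds (0 : ℝ) one_pos)
  refine (h3.mono fun n hn => ?_).frequently
  obtain ⟨F, hF1, hF2⟩ := h n
  refine ⟨F, hF1, ?_⟩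
  have hcn : 0 < c ^ n := pow_pos (by linarith) n
  have h4 := Metric.mem_ball.1 hn
  rw [Real.dist_eq, sub_zero, Function.comp_apply] at h4
  have h5 := (le_abs_self _).trans_lt h4
  have h6 : (A : ℝ) * c * (((n + 1 : ℕ) : ℝ) ^ k / c ^ (n + 1)) =
      A * ((n + 1 : ℕ) : ℝ) ^ k / c ^ n := by
    rw [pow_succ c n]
    field_simp
  rw [h6, div_lt_one hcn] at h5
  refine lt_of_le_of_lt ?_ h5
  exact_mod_cast hF2

/-- **Forests of subexponential growth**: for a forest with bounded degrees in which each component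
has a vertex with subexponential growth, every group of bounded displacement over it, with at most
`k` points of each orbit over each vertex, is in every class with the closure properties. -/
theorem mem_of_subexp {C : ∀ (G : Type) [Group G], Prop} (hC : ExtClass C)
    (T : SimpleGraph V) (hT : T.IsAcyclic) (d : ℕ) (hd : ∀ v, (T.neighborSet v).encard ≤ d)
    (hg : ∀ v, ∃ w, T.Reachable v w ∧ SubexpAt T w) (G S : Type) [Group G] [MulAction G S]
    [FaithfulSMul G S] (ρ : S → V) (k : ℕ)
    (hk : ∀ (s : S) (v : V), {t ∈ MulAction.orbit G s | ρ t = v}.encard ≤ k)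
    (hG : ∀ g : G, ∃ N : ℕ, ∀ s, T.edist (ρ s) (ρ (g • s)) ≤ N) : C G :=
  mem_of_forest hC T hT d hd (not_paradoxG_of_subexp T hg) G S ρ k hk hG

end Pool.Agent.ZT
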