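import Mathlib

/-!
# Permutations of bounded displacement of a graph
-/

set_option autoImplicit false

namespace Pool.Agent.ZT

/-- The group of the permutations `g` of the vertices such that the distance from `v` to `g v` is
bounded. -/
def WD {V : Type} (T : SimpleGraph V) : Subgroup (Equiv.Perm V) where
  carrier := {g | ∃ N : ℕ, ∀ v, T.edist v (g v) ≤ N}
  one_mem' := ⟨0, fun v => by
    rw [Equiv.Perm.one_apply, SimpleGraph.edist_self]
    exact zero_le⟩
  mul_mem' := by
    rintro a b ⟨N, hN⟩ ⟨M, hM⟩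
    refine ⟨M + N, fun v => ?_⟩
    rw [Equiv.Perm.mul_apply, Nat.cast_add]
    exact (SimpleGraph.edist_triangle (v := b v)).trans (add_le_add (hM v) (hN (b v)))
  inv_mem' := by
    rintro a ⟨N, hN⟩
    refine ⟨N, fun v => ?_⟩
    have h1 := hN (a⁻¹ v)
    rw [show a (a⁻¹ v) = v from a.apply_symm_apply v, SimpleGraph.edist_comm] at h1
    exact h1

theorem mem_WD {V : Type} {T : SimpleGraph V} {g : Equiv.Perm V} :
    g ∈ WD T ↔ ∃ N : ℕ, ∀ v, T.edist v (g v) ≤ N := Iff.rfl

end Pool.Agent.ZT
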