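import Pool.Agent.ZT.Thom
import Pool.Agent.ZT.WD

/-!
# A paradoxical set gives a solution of the relations of Thompson's group `T`

* `Dup.thom`: the action of `T` on a set `U` with a bijection `U ≃ U ⊕ U`;
* `exists_thom_wob`: if a nonempty set of vertices of a graph is paradoxical for maps of bounded displacement then
  the group of all permutations of the vertices with bounded displacement contains nontrivial solutions;
* `exists_thom_coc`: the same for the permutations of `S × F` given by cocycles of finite range.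
-/

set_option autoImplicit false

namespace Pool.Agent.ZT

/-- A set in bijection with two copies of itself. -/
structure Dup (U : Type) where
  /-- the bijection -/
  δ : U ≃ U ⊕ U

namespace Dup

variable {U : Type} (D : Dup U)

/-- The first half. -/
def i0 (w : U) : U := D.δ.symm (Sum.inl w)

/-- The second half. -/
def i1 (w : U) : U := D.δ.symm (Sum.inr w)

theorem δ_i0 (w : U) : D.δ (D.i0 w) = Sum.inl w := D.δ.apply_symm_apply _

theorem δ_i1 (w : U) : D.δ (D.i1 w) = Sum.inr w := D.δ.apply_symm_apply _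

theorem cases (u : U) : (∃ w, D.i0 w = u) ∨ ∃ w, D.i1 w = u := by
  rcases h : D.δ u with w | w
  · exact Or.inl ⟨w, by rw [i0, ← h, D.δ.symm_apply_apply]⟩
  · exact Or.inr ⟨w, by rw [i1, ← h, D.δ.symm_apply_apply]⟩

theorem i0_injective : Function.Injective D.i0 := fun _ _ h => Sum.inl_injective (D.δ.symm.injective h)

theorem i1_injective : Function.Injective D.i1 := fun _ _ h => Sum.inr_injective (D.δ.symm.injective h)

theorem i0_ne_i1 (v w : U) : D.i0 v ≠ D.i1 w := by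
  intro h
  have h1 := D.δ.symm.injective h
  cases h1

/-- Thompson's `A`. -/
def A : Equiv.Perm U :=
  (D.δ.trans (Equiv.sumCongr (Equiv.refl U) D.δ)).trans
    ((Equiv.sumAssoc U U U).symm.trans ((Equiv.sumCongr D.δ.symm (Equiv.refl U)).trans D.δ.symm))

theorem A_0 (w : U) : D.A (D.i0 w) = D.i0 (D.i0 w) := by
  simp only [A, Equiv.trans_apply, δ_i0, Equiv.sumCongr_apply, Sum.map_inl, Equiv.refl_apply,
    Equiv.sumAssoc_symm_apply_inl]
  rfl

theorem A_10 (w : U) : D.A (D.i1 (D.i0 w)) = D.i0 (D.i1 w) := by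
  simp only [A, Equiv.trans_apply, δ_i1, δ_i0, Equiv.sumCongr_apply, Sum.map_inl, Sum.map_inr,
    Equiv.sumAssoc_symm_apply_inr_inl]
  rfl

theorem A_11 (w : U) : D.A (D.i1 (D.i1 w)) = D.i1 w := by
  simp only [A, Equiv.trans_apply, δ_i1, Equiv.sumCongr_apply, Sum.map_inr,
    Equiv.sumAssoc_symm_apply_inr_inr]
  rfl

/-- Thompson's `B`. -/
def B : Equiv.Perm U := D.δ.trans ((Equiv.sumCongr (Equiv.refl U) D.A).trans D.δ.symm)

theorem B_0 (w : U) : D.B (D.i0 w) = D.i0 w := by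
  simp only [B, Equiv.trans_apply, δ_i0, Equiv.sumCongr_apply, Sum.map_inl]
  rfl

theorem B_1 (w : U) : D.B (D.i1 w) = D.i1 (D.A w) := by
  simp only [B, Equiv.trans_apply, δ_i1, Equiv.sumCongr_apply, Sum.map_inr]
  rfl

/-- Thompson's `C`. -/
def C : Equiv.Perm U :=
  (D.δ.trans (Equiv.sumCongr (Equiv.refl U) D.δ)).trans
    (((Equiv.sumComm U (U ⊕ U)).trans (Equiv.sumAssoc U U U)).trans
      (D.δ.trans (Equiv.sumCongr (Equiv.refl U) D.δ)).symm)

theorem C_0 (w : U) : D.C (D.i0 w) = D.i1 (D.i1 w) := by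
  simp only [C, Equiv.trans_apply, δ_i0, Equiv.sumCongr_apply, Sum.map_inl, Equiv.sumComm_apply,
    Sum.swap_inl, Equiv.sumAssoc_apply_inr]
  rfl

theorem C_10 (w : U) : D.C (D.i1 (D.i0 w)) = D.i0 w := by
  simp only [C, Equiv.trans_apply, δ_i1, δ_i0, Equiv.sumCongr_apply, Sum.map_inr, Equiv.sumComm_apply,
    Sum.swap_inr, Equiv.sumAssoc_apply_inl_inl]
  rfl

theorem C_11 (w : U) : D.C (D.i1 (D.i1 w)) = D.i1 (D.i0 w) := by
  simp only [C, Equiv.trans_apply, δ_i1, Equiv.sumCongr_apply, Sum.map_inr, Equiv.sumComm_apply,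
    Sum.swap_inr, Equiv.sumAssoc_apply_inl_inr]
  rfl

theorem A'_00 (w : U) : D.A⁻¹ (D.i0 (D.i0 w)) = D.i0 w := by
  rw [Equiv.Perm.inv_eq_iff_eq, A_0]

theorem A'_01 (w : U) : D.A⁻¹ (D.i0 (D.i1 w)) = D.i1 (D.i0 w) := by
  rw [Equiv.Perm.inv_eq_iff_eq, A_10]

theorem A'_1 (w : U) : D.A⁻¹ (D.i1 w) = D.i1 (D.i1 w) := by
  rw [Equiv.Perm.inv_eq_iff_eq, A_11]

theorem B'_0 (w : U) : D.B⁻¹ (D.i0 w) = D.i0 w := by
  rw [Equiv.Perm.inv_eq_iff_eq, B_0]

theorem B'_1 (w : U) : D.B⁻¹ (D.i1 w) = D.i1 (D.A⁻¹ w) := by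
  rw [Equiv.Perm.inv_eq_iff_eq, B_1]
  exact congrArg D.i1 (D.A.apply_symm_apply w).symm

/-- **The action of Thompson's group `T`.** -/
theorem thom : Thom D.A D.B D.C := by
  refine ⟨?_, ?_, ?_, ?_, ?_, ?_⟩ <;>
  · refine Equiv.ext fun u => ?_
    obtain ⟨u, rfl⟩ | ⟨u, rfl⟩ := D.cases u <;> obtain ⟨u, rfl⟩ | ⟨u, rfl⟩ := D.cases u <;>
      obtain ⟨u, rfl⟩ | ⟨u, rfl⟩ := D.cases u <;> obtain ⟨u, rfl⟩ | ⟨u, rfl⟩ := D.cases u <;>
      obtain ⟨u, rfl⟩ | ⟨u, rfl⟩ := D.cases u <;>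
      simp only [Equiv.Perm.mul_apply, Equiv.Perm.one_apply, A_0, A_10, A_11, B_0, B_1, C_0, C_10, C_11,
        A'_00, A'_01, A'_1, B'_0, B'_1]

theorem A_ne_one [Nonempty U] : D.A ≠ 1 := by
  intro h
  obtain ⟨w⟩ := ‹Nonempty U›
  have h1 := A_0 D (D.i1 w)
  rw [h] at h1
  exact D.i0_ne_i1 _ _ (D.i0_injective h1).symm

/-- `E n x y` is thought of as `y` being at distance at most `n` from `x`. -/
structure Tower {U : Type} (E : ℕ → U → U → Prop) : Prop where
  refl : ∀ x, E 0 x x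
  symm : ∀ n x y, E n x y → E n y x
  trans : ∀ n m x y z, E n x y → E m y z → E (n + m) x z
  mono : ∀ n m x y, n ≤ m → E n x y → E m x y

section tower

variable {D} {E : ℕ → U → U → Prop} (hE : Tower E) (h0 : ∀ w, E 1 w (D.i0 w)) (h1 : ∀ w, E 1 w (D.i1 w))

include hE h0 h1

theorem A_near (u : U) : E 4 u (D.A u) := by
  have key : ∀ n m w x y, n + m ≤ 4 → E n w x → E m w y → E 4 x y := fun n m w x y h hx hy =>
    hE.mono _ _ _ _ h (hE.trans _ _ _ _ _ (hE.symm _ _ _ hx) hy)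
  have h2 : ∀ (i j : U → U), (∀ w, E 1 w (i w)) → (∀ w, E 1 w (j w)) → ∀ w, E 2 w (i (j w)) :=
    fun i j hi hj w => hE.trans 1 1 _ _ _ (hj w) (hi _)
  obtain ⟨u, rfl⟩ | ⟨u, rfl⟩ := D.cases u
  · rw [A_0]
    exact key 1 2 u _ _ (by omega) (h0 u) (h2 _ _ h0 h0 u)
  · obtain ⟨u, rfl⟩ | ⟨u, rfl⟩ := D.cases u
    · rw [A_10]
      exact key 2 2 u _ _ (by omega) (h2 _ _ h1 h0 u) (h2 _ _ h0 h1 u)
    · rw [A_11]
      exact key 2 1 u _ _ (by omega) (h2 _ _ h1 h1 u) (h1 u)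

theorem B_near (u : U) : E 6 u (D.B u) := by
  obtain ⟨u, rfl⟩ | ⟨u, rfl⟩ := D.cases u
  · rw [B_0]
    exact hE.mono 0 6 _ _ (by omega) (hE.refl _)
  · rw [B_1]
    have h2 := hE.trans _ _ _ _ _ (hE.symm _ _ _ (h1 u)) (A_near hE h0 h1 u)
    exact hE.trans _ _ _ _ _ h2 (h1 _)

theorem C_near (u : U) : E 4 u (D.C u) := by
  have key : ∀ n m w x y, n + m ≤ 4 → E n w x → E m w y → E 4 x y := fun n m w x y h hx hy =>
    hE.mono _ _ _ _ h (hE.trans _ _ _ _ _ (hE.symm _ _ _ hx) hy)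
  have h2 : ∀ (i j : U → U), (∀ w, E 1 w (i w)) → (∀ w, E 1 w (j w)) → ∀ w, E 2 w (i (j w)) :=
    fun i j hi hj w => hE.trans 1 1 _ _ _ (hj w) (hi _)
  obtain ⟨u, rfl⟩ | ⟨u, rfl⟩ := D.cases u
  · rw [C_0]
    exact key 1 2 u _ _ (by omega) (h0 u) (h2 _ _ h1 h1 u)
  · obtain ⟨u, rfl⟩ | ⟨u, rfl⟩ := D.cases u
    · rw [C_10]
      exact key 2 1 u _ _ (by omega) (h2 _ _ h1 h0 u) (h0 u)
    · rw [C_11]
      exact key 2 2 u _ _ (by omega) (h2 _ _ h1 h1 u) (h2 _ _ h1 h0 u)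

end tower

section symm

variable {D} {ρ : U → U} (h0 : ∀ w, ρ (D.i0 w) = D.i0 (ρ w)) (h1 : ∀ w, ρ (D.i1 w) = D.i1 (ρ w))

include h0 h1

theorem A_comm (u : U) : ρ (D.A u) = D.A (ρ u) := by
  obtain ⟨u, rfl⟩ | ⟨u, rfl⟩ := D.cases u
  · simp only [h0, A_0]
  · obtain ⟨u, rfl⟩ | ⟨u, rfl⟩ := D.cases u
    · simp only [h0, h1, A_10]
    · simp only [h1, A_11]

theorem B_comm (u : U) : ρ (D.B u) = D.B (ρ u) := by
  obtain ⟨u, rfl⟩ | ⟨u, rfl⟩ := D.cases u
  · simp only [h0, B_0]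
  · simp only [h1, B_1, A_comm h0 h1]

theorem C_comm (u : U) : ρ (D.C u) = D.C (ρ u) := by
  obtain ⟨u, rfl⟩ | ⟨u, rfl⟩ := D.cases u
  · simp only [h0, h1, C_0]
  · obtain ⟨u, rfl⟩ | ⟨u, rfl⟩ := D.cases u
    · simp only [h0, h1, C_10]
    · simp only [h0, h1, C_11]

end symm

end Dup

section sb

/-- The theorem of Schroeder and Bernstein for two injections with disjoint images. -/
theorem exists_dup {P : Type} {α β : P → P} (hα : Function.Injective α) (hβ : Function.Injective β)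
    (hd : ∀ u v, α u ≠ β v) :
    ∃ D : Dup P, (∀ w, D.i0 w = α w ∨ D.i0 w = w) ∧ ∀ w, D.i1 w = β w := by
  have h1 : Function.Injective (Sum.elim α β) := by
    rintro (u | u) (v | v) h
    · exact congrArg Sum.inl (hα h)
    · exact (hd _ _ h).elim
    · exact (hd _ _ h.symm).elim
    · exact congrArg Sum.inr (hβ h)
  obtain ⟨h, h2, h3⟩ := Function.Embedding.schroeder_bernstein_of_rel h1
    (Sum.inl_injective (α := P) (β := P)) (fun x y => y = Sum.elim α β x ∨ x = Sum.inl y)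
    (fun _ => Or.inl rfl) (fun _ => Or.inr rfl)
  let e : P ⊕ P ≃ P := Equiv.ofBijective h h2
  refine ⟨⟨e.symm⟩, fun w => ?_, fun w => ?_⟩
  · change h (Sum.inl w) = α w ∨ h (Sum.inl w) = w
    rcases h3 (Sum.inl w) with h4 | h4
    · exact Or.inl h4
    · exact Or.inr (Sum.inl_injective h4).symm
  · change h (Sum.inr w) = β w
    rcases h3 (Sum.inr w) with h4 | h4
    · exact h4
    · cases h4

end sb

section wob

variable {V : Type} (Γ : SimpleGraph V)

/-- A set of vertices is paradoxical: there are two injections into itself with disjoint images and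
bounded displacement. -/
def ParadW (P : Set V) : Prop :=
  ∃ (α β : V → V) (N : ℕ), Set.InjOn α P ∧ Set.InjOn β P ∧ (∀ v ∈ P, α v ∈ P) ∧ (∀ v ∈ P, β v ∈ P) ∧
    (∀ u ∈ P, ∀ v ∈ P, α u ≠ β v) ∧ (∀ v ∈ P, Γ.edist v (α v) ≤ N) ∧ ∀ v ∈ P, Γ.edist v (β v) ≤ N

/-- Nontrivial solutions in the group of the permutations of bounded displacement. -/
theorem exists_thom_wob {P : Set V} (hP : P.Nonempty) (h : ParadW Γ P) :
    ∃ (a b c : Equiv.Perm V) (N : ℕ), Thom a b c ∧ a ≠ 1 ∧ (∀ v, Γ.edist v (a v) ≤ N) ∧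
      (∀ v, Γ.edist v (b v) ≤ N) ∧ ∀ v, Γ.edist v (c v) ≤ N := by
  classical
  obtain ⟨α, β, N, h1, h2, h3, h4, h5, h6, h7⟩ := h
  have : Nonempty P := hP.to_subtype
  obtain ⟨D, h8, h9⟩ := exists_dup (P := P) (α := fun v => ⟨α v, h3 v v.2⟩)
    (β := fun v => ⟨β v, h4 v v.2⟩)
    (fun u v h => Subtype.ext (h1 u.2 v.2 (congrArg Subtype.val h)))
    (fun u v h => Subtype.ext (h2 u.2 v.2 (congrArg Subtype.val h)))
    (fun u v h => h5 u u.2 v v.2 (congrArg Subtype.val h))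
  let E : ℕ → P → P → Prop := fun n x y => Γ.edist (x : V) y ≤ (n * N : ℕ)
  have hE : Dup.Tower E := by
    refine ⟨fun x => ?_, fun n x y h => ?_, fun n m x y z h h' => ?_, fun n m x y h h' => ?_⟩
    · change Γ.edist (x : V) x ≤ _
      rw [SimpleGraph.edist_self]
      exact zero_le
    · change Γ.edist (y : V) x ≤ _
      rw [SimpleGraph.edist_comm]
      exact h
    · refine SimpleGraph.edist_triangle.trans ((add_le_add h h').trans ?_)
      rw [add_mul]
      push_cast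
      exact le_rfl
    · refine h'.trans ?_
      exact_mod_cast Nat.mul_le_mul_right N h
  have e0 : ∀ w, E 1 w (D.i0 w) := by
    intro w
    rcases h8 w with h | h
    · rw [h]
      change Γ.edist (w : V) (α w) ≤ _
      rw [one_mul]
      exact h6 w w.2
    · rw [h]
      exact hE.mono 0 1 _ _ zero_le (hE.refl w)
  have e1 : ∀ w, E 1 w (D.i1 w) := by
    intro w
    rw [h9 w]
    change Γ.edist (w : V) (β w) ≤ _
    rw [one_mul]
    exact h7 w w.2
  have key : ∀ q : Equiv.Perm P, (∀ u, E 6 u (q u)) → ∀ v, Γ.edist v (Equiv.Perm.ofSubtype q v) ≤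
      (6 * N : ℕ) := by
    intro q hq v
    by_cases hv : v ∈ P
    · rw [Equiv.Perm.ofSubtype_apply_of_mem q hv]
      exact hq ⟨v, hv⟩
    · rw [Equiv.Perm.ofSubtype_apply_of_not_mem q hv, SimpleGraph.edist_self]
      exact zero_le
  refine ⟨Equiv.Perm.ofSubtype D.A, Equiv.Perm.ofSubtype D.B, Equiv.Perm.ofSubtype D.C, 6 * N,
    D.thom.map Equiv.Perm.ofSubtype, fun h => ?_, key _ fun u => ?_, key _ fun u => ?_,
    key _ fun u => ?_⟩
  · exact D.A_ne_one (Equiv.Perm.ofSubtype_injective (h.trans (map_one _).symm))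
  · exact hE.mono 4 6 _ _ (by omega) (Dup.A_near hE e0 e1 u)
  · exact Dup.B_near hE e0 e1 u
  · exact hE.mono 4 6 _ _ (by omega) (Dup.C_near hE e0 e1 u)

/-- Solutions in a subgroup. -/
theorem noT_false {G : Type} [Group G] {W : Subgroup G} (h : NoT W) {a b c : G} (ha : a ∈ W)
    (hb : b ∈ W) (hc : c ∈ W) (ht : Thom a b c) : a = 1 := by
  have h4 : Thom (⟨a, ha⟩ : W) ⟨b, hb⟩ ⟨c, hc⟩ :=
    ⟨Subtype.ext ht.r1, Subtype.ext ht.r2, Subtype.ext ht.r3, Subtype.ext ht.r4, Subtype.ext ht.r5,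
      Subtype.ext ht.r6⟩
  exact congrArg Subtype.val (h _ _ _ h4).1

/-- **No paradoxical sets.** If the group of the permutations of the vertices of a graph with bounded
displacement contains only trivial solutions of the relations of Thompson's group `T`, in particular
if it is in every class with `ExtClass`, then no nonempty set of vertices is paradoxical. -/
theorem not_paradW {P : Set V} (hP : P.Nonempty) (h : NoT (WD Γ)) : ¬ ParadW Γ P := by
  intro hp
  obtain ⟨a, b, c, N, h1, h2, h3, h4, h5⟩ := exists_thom_wob Γ hP hp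
  exact h2 (noT_false h ⟨N, h3⟩ ⟨N, h4⟩ ⟨N, h5⟩ h1)

/-- The same in terms of images. -/
theorem not_par_of_noT (h : NoT (WD Γ)) (U : Set V) (hU : U.Nonempty) :
    ¬ ∃ (N : ℕ) (a b : V → V), Set.MapsTo a U U ∧ Set.MapsTo b U U ∧ Set.InjOn a U ∧ Set.InjOn b U ∧
      Disjoint (a '' U) (b '' U) ∧ ∀ u ∈ U, Γ.edist u (a u) ≤ N ∧ Γ.edist u (b u) ≤ N := by
  rintro ⟨N, a, b, h1, h2, h3, h4, h5, h6⟩
  refine not_paradW Γ hU h ⟨a, b, N, h3, h4, fun v hv => h1 hv, fun v hv => h2 hv, fun u hu v hv h7 => ?_,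
    fun v hv => (h6 v hv).1, fun v hv => (h6 v hv).2⟩
  exact Set.disjoint_left.1 h5 ⟨u, hu, rfl⟩ ⟨v, hv, h7.symm⟩

/-- Membership in every class. -/
theorem noT_of_forall {G : Type} [Group G]
    (h : ∀ C : (∀ (G : Type) [Group G], Prop), Pool.Agent.Helper29.PA.ExtClass C → C G) : NoT G :=
  h (fun G _ => NoT G) extClass_noT

end wob

section coc

open Pointwise

variable {F S : Type} [Group F] [MulAction F S]

/-- A permutation of `S × F` given by a cocycle of finite range. -/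
def IsCoc (q : Equiv.Perm (S × F)) : Prop :=
  ∃ c : S → F, (Set.range c).Finite ∧ ∀ s g, q (s, g) = (s, c (g • s) * g)

/-- A subset is paradoxical: there are two injections into itself with disjoint images, given by
finitely many elements of `F`. -/
def ParadC (F : Type) {S : Type} [Group F] [MulAction F S] (P : Set S) : Prop :=
  ∃ α β : S → F, (Set.range α).Finite ∧ (Set.range β).Finite ∧
    Set.InjOn (fun s => α s • s) P ∧ Set.InjOn (fun s => β s • s) P ∧ (∀ v ∈ P, α v • v ∈ P) ∧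
    (∀ v ∈ P, β v • v ∈ P) ∧ ∀ u ∈ P, ∀ v ∈ P, α u • u ≠ β v • v

/-- Nontrivial solutions in the group of the permutations given by cocycles. -/
theorem exists_thom_coc {P : Set S} (hP : P.Nonempty) (h : ParadC F P) :
    ∃ a b c : Equiv.Perm (S × F), Thom a b c ∧ a ≠ 1 ∧ IsCoc a ∧ IsCoc b ∧ IsCoc c := by
  classical
  obtain ⟨α, β, f1, f2, h1, h2, h3, h4, h5⟩ := h
  have : Nonempty P := hP.to_subtype
  obtain ⟨D', h8, h9⟩ := exists_dup (P := P) (α := fun v => ⟨α v • (v : S), h3 v v.2⟩)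
    (β := fun v => ⟨β v • (v : S), h4 v v.2⟩)
    (fun u v h => Subtype.ext (h1 u.2 v.2 (congrArg Subtype.val h)))
    (fun u v h => Subtype.ext (h2 u.2 v.2 (congrArg Subtype.val h)))
    (fun u v h => h5 u u.2 v v.2 (congrArg Subtype.val h))
  -- the cocycles of the two halves
  have hγ : ∀ w : P, ∃ g : F, (g = α w ∨ g = 1) ∧ (D'.i0 w : S) = g • (w : S) := by
    intro w
    rcases h8 w with h | h
    · exact ⟨α w, Or.inl rfl, by rw [h]⟩
    · exact ⟨1, Or.inr rfl, by rw [h, one_smul]⟩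
  choose γ hγ1 hγ2 using hγ
  have hβ2 : ∀ w : P, (D'.i1 w : S) = β w • (w : S) := by
    intro w
    rw [h9]
  let Q : Set (S × F) := {x | x.2 • x.1 ∈ P}
  let pt : Q → P := fun x => ⟨x.1.2 • x.1.1, x.2⟩
  let j0 : Q → Q := fun x => ⟨(x.1.1, γ (pt x) * x.1.2), by
    change (γ (pt x) * x.1.2) • x.1.1 ∈ P
    rw [mul_smul]
    have h := hγ2 (pt x)
    change _ = γ (pt x) • x.1.2 • x.1.1 at h
    rw [← h]
    exact (D'.i0 (pt x)).2⟩
  let j1 : Q → Q := fun x => ⟨(x.1.1, β (pt x) * x.1.2), by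
    change (β (pt x : S) * x.1.2) • x.1.1 ∈ P
    rw [mul_smul]
    have h := hβ2 (pt x)
    change _ = β (pt x : S) • x.1.2 • x.1.1 at h
    rw [← h]
    exact (D'.i1 (pt x)).2⟩
  have pj0 : ∀ x, pt (j0 x) = D'.i0 (pt x) := by
    intro x
    refine Subtype.ext ?_
    rw [hγ2]
    exact mul_smul _ _ _
  have pj1 : ∀ x, pt (j1 x) = D'.i1 (pt x) := by
    intro x
    refine Subtype.ext ?_
    rw [hβ2]
    exact mul_smul _ _ _
  have key : ∀ x y : Q, pt x = pt y → ∀ g : F, (x.1.1, g * x.1.2) = (y.1.1, g * y.1.2) → x = y := by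
    intro x y _ g h
    exact Subtype.ext (Prod.ext (Prod.mk.inj h).1 (mul_left_cancel (Prod.mk.inj h).2))
  have hbij : Function.Bijective (Sum.elim j0 j1) := by
    constructor
    · rintro (x | x) (y | y) h
      · have e1 : pt x = pt y := D'.i0_injective (by rw [← pj0, ← pj0]; exact congrArg pt h)
        have e2 := congrArg Subtype.val h
        change (x.1.1, γ (pt x) * x.1.2) = (y.1.1, γ (pt y) * y.1.2) at e2
        rw [e1] at e2
        exact congrArg Sum.inl (key x y e1 _ e2)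
      · exact (D'.i0_ne_i1 (pt x) (pt y) (by rw [← pj0, ← pj1]; exact congrArg pt h)).elim
      · exact (D'.i0_ne_i1 (pt y) (pt x) (by rw [← pj0, ← pj1]; exact congrArg pt h.symm)).elim
      · have e1 : pt x = pt y := D'.i1_injective (by rw [← pj1, ← pj1]; exact congrArg pt h)
        have e2 := congrArg Subtype.val h
        change (x.1.1, β (pt x : S) * x.1.2) = (y.1.1, β (pt y : S) * y.1.2) at e2
        rw [e1] at e2
        exact congrArg Sum.inr (key x y e1 _ e2)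
    · intro y
      rcases D'.cases (pt y) with ⟨w, hw⟩ | ⟨w, hw⟩
      · have e1 : ((γ w)⁻¹ * y.1.2) • y.1.1 = (w : S) := by
          rw [mul_smul, inv_smul_eq_iff, ← hγ2, hw]
        refine ⟨Sum.inl ⟨(y.1.1, (γ w)⁻¹ * y.1.2), by
          change ((γ w)⁻¹ * y.1.2) • y.1.1 ∈ P
          rw [e1]
          exact w.2⟩, Subtype.ext (Prod.ext rfl ?_)⟩
        change γ (⟨((γ w)⁻¹ * y.1.2) • y.1.1, _⟩ : P) * ((γ w)⁻¹ * y.1.2) = y.1.2
        have e2 : ∀ h, (⟨((γ w)⁻¹ * y.1.2) • y.1.1, h⟩ : P) = w := fun h => Subtype.ext e1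
        rw [e2, mul_inv_cancel_left]
      · have e1 : ((β (w : S))⁻¹ * y.1.2) • y.1.1 = (w : S) := by
          rw [mul_smul, inv_smul_eq_iff, ← hβ2, hw]
        refine ⟨Sum.inr ⟨(y.1.1, (β (w : S))⁻¹ * y.1.2), by
          change ((β (w : S))⁻¹ * y.1.2) • y.1.1 ∈ P
          rw [e1]
          exact w.2⟩, Subtype.ext (Prod.ext rfl ?_)⟩
        change β (((β (w : S))⁻¹ * y.1.2) • y.1.1) * ((β (w : S))⁻¹ * y.1.2) = y.1.2
        rw [e1, mul_inv_cancel_left]
  let D : Dup Q := ⟨(Equiv.ofBijective _ hbij).symm⟩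
  have d0 : ∀ w, D.i0 w = j0 w := fun _ => rfl
  have d1 : ∀ w, D.i1 w = j1 w := fun _ => rfl
  -- the tower
  let K : Set F := insert 1 (Set.range α ∪ Set.range β)
  have hK : K.Finite := (f1.union f2).insert 1
  let K' : Set F := K ∪ K⁻¹
  have hK' : K'.Finite := hK.union hK.inv
  let E : ℕ → Q → Q → Prop := fun n x y => x.1.1 = y.1.1 ∧ y.1.2 * x.1.2⁻¹ ∈ K' ^ n
  have hone : (1 : F) ∈ K' := Or.inl (Or.inl rfl)
  have hE : Dup.Tower E := by
    refine ⟨fun x => ⟨rfl, ?_⟩, fun n x y h => ⟨h.1.symm, ?_⟩, fun n m x y z h h' => ⟨h.1.trans h'.1, ?_⟩,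
      fun n m x y h h' => ⟨h'.1, ?_⟩⟩
    · rw [mul_inv_cancel, pow_zero]
      exact Set.mem_one.2 rfl
    · have e1 : (K' ^ n)⁻¹ = K' ^ n := by
        rw [← inv_pow, Set.union_inv, inv_inv, Set.union_comm]
      have e2 := Set.inv_mem_inv.2 h.2
      rw [e1, mul_inv_rev, inv_inv] at e2
      exact e2
    · have e1 := Set.mul_mem_mul h'.2 h.2
      rw [← pow_add, Nat.add_comm m n] at e1
      have e2 : z.1.2 * y.1.2⁻¹ * (y.1.2 * x.1.2⁻¹) = z.1.2 * x.1.2⁻¹ := by group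
      rwa [e2] at e1
    · exact Set.pow_subset_pow_right hone h h'.2
  have e0 : ∀ w, E 1 w (D.i0 w) := by
    intro w
    rw [d0]
    refine ⟨rfl, ?_⟩
    change γ (pt w) * w.1.2 * w.1.2⁻¹ ∈ _
    rw [mul_inv_cancel_right, pow_one]
    rcases hγ1 (pt w) with h | h
    · rw [h]
      exact Or.inl (Or.inr (Or.inl ⟨_, rfl⟩))
    · rw [h]
      exact hone
  have e1 : ∀ w, E 1 w (D.i1 w) := by
    intro w
    rw [d1]
    refine ⟨rfl, ?_⟩
    change β (pt w : S) * w.1.2 * w.1.2⁻¹ ∈ _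
    rw [mul_inv_cancel_right, pow_one]
    exact Or.inl (Or.inr (Or.inr ⟨_, rfl⟩))
  -- the translations
  let ρ : F → Q → Q := fun g x => ⟨(g⁻¹ • x.1.1, x.1.2 * g), by
    change (x.1.2 * g) • g⁻¹ • x.1.1 ∈ P
    rw [mul_smul, smul_inv_smul]
    exact x.2⟩
  have pρ : ∀ g x, pt (ρ g x) = pt x := by
    intro g x
    refine Subtype.ext ?_
    change (x.1.2 * g) • g⁻¹ • x.1.1 = x.1.2 • x.1.1
    rw [mul_smul, smul_inv_smul]
  have r0 : ∀ g w, ρ g (D.i0 w) = D.i0 (ρ g w) := by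
    intro g w
    rw [d0, d0]
    refine Subtype.ext (Prod.ext rfl ?_)
    change γ (pt w) * w.1.2 * g = γ (pt (ρ g w)) * (w.1.2 * g)
    rw [pρ, mul_assoc]
  have r1 : ∀ g w, ρ g (D.i1 w) = D.i1 (ρ g w) := by
    intro g w
    rw [d1, d1]
    refine Subtype.ext (Prod.ext rfl ?_)
    change β (pt w : S) * w.1.2 * g = β (pt (ρ g w) : S) * (w.1.2 * g)
    rw [pρ, mul_assoc]
  have hpow : ∀ n : ℕ, (K' ^ n).Finite := by
    intro n
    induction n with
    | zero =>
      rw [pow_zero]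
      exact Set.finite_one
    | succ n ih =>
      rw [pow_succ]
      exact ih.mul hK'
  have fin : ∀ q : Equiv.Perm Q, (∀ u, E 6 u (q u)) → (∀ g u, ρ g (q u) = q (ρ g u)) →
      IsCoc (Equiv.Perm.ofSubtype q) := by
    intro q hq hρ
    refine ⟨fun s => (Equiv.Perm.ofSubtype q (s, 1)).2, ?_, fun s g => ?_⟩
    · refine ((hpow 6).union (Set.finite_singleton 1)).subset ?_
      rintro _ ⟨s, rfl⟩
      by_cases hs : ((s, 1) : S × F) ∈ Q
      · left
        change (Equiv.Perm.ofSubtype q (s, 1)).2 ∈ _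
        rw [Equiv.Perm.ofSubtype_apply_of_mem q hs]
        have h := (hq ⟨(s, 1), hs⟩).2
        rwa [inv_one, mul_one] at h
      · right
        change (Equiv.Perm.ofSubtype q (s, 1)).2 = 1
        rw [Equiv.Perm.ofSubtype_apply_of_not_mem q hs]
    · by_cases hs : ((s, g) : S × F) ∈ Q
      · have hs' : ((g • s, 1) : S × F) ∈ Q := by
          change (1 : F) • g • s ∈ P
          rw [one_smul]
          exact hs
        have h1 : (⟨(s, g), hs⟩ : Q) = ρ g ⟨(g • s, 1), hs'⟩ := by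
          refine Subtype.ext (Prod.ext ?_ ?_)
          · exact (inv_smul_smul g s).symm
          · exact (one_mul g).symm
        change Equiv.Perm.ofSubtype q (s, g) = (s, (Equiv.Perm.ofSubtype q (g • s, 1)).2 * g)
        rw [Equiv.Perm.ofSubtype_apply_of_mem q hs, Equiv.Perm.ofSubtype_apply_of_mem q hs']
        have h2 := (hq ⟨(s, g), hs⟩).1
        refine Prod.ext h2.symm ?_
        rw [h1, ← hρ]
      · have hs' : ((g • s, 1) : S × F) ∉ Q := by
          intro h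
          refine hs ?_
          have h' : (1 : F) • g • s ∈ P := h
          rwa [one_smul] at h'
        change Equiv.Perm.ofSubtype q (s, g) = (s, (Equiv.Perm.ofSubtype q (g • s, 1)).2 * g)
        rw [Equiv.Perm.ofSubtype_apply_of_not_mem q hs, Equiv.Perm.ofSubtype_apply_of_not_mem q hs',
          one_mul]
  have : Nonempty Q := by
    obtain ⟨s, hs⟩ := hP
    exact ⟨⟨(s, 1), by
      change (1 : F) • s ∈ P
      rwa [one_smul]⟩⟩
  refine ⟨Equiv.Perm.ofSubtype D.A, Equiv.Perm.ofSubtype D.B, Equiv.Perm.ofSubtype D.C,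
    D.thom.map Equiv.Perm.ofSubtype, fun h => ?_, fin _ (fun u => ?_) fun g u => ?_,
    fin _ (fun u => ?_) fun g u => ?_, fin _ (fun u => ?_) fun g u => ?_⟩
  · exact D.A_ne_one (Equiv.Perm.ofSubtype_injective (h.trans (map_one _).symm))
  · exact hE.mono 4 6 _ _ (by omega) (Dup.A_near hE e0 e1 u)
  · exact Dup.A_comm (r0 g) (r1 g) u
  · exact Dup.B_near hE e0 e1 u
  · exact Dup.B_comm (r0 g) (r1 g) u
  · exact hE.mono 4 6 _ _ (by omega) (Dup.C_near hE e0 e1 u)
  · exact Dup.C_comm (r0 g) (r1 g) u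

/-- The same for the permutations given by cocycles. -/
theorem not_paradC {P : Set S} (hP : P.Nonempty) {W : Subgroup (Equiv.Perm (S × F))}
    (hW : ∀ q, IsCoc q → q ∈ W) (h : NoT W) : ¬ ParadC F P := by
  intro hp
  obtain ⟨a, b, c, h1, h2, h3, h4, h5⟩ := exists_thom_coc hP hp
  exact h2 (noT_false h (hW a h3) (hW b h4) (hW c h5) h1)

end coc

end Pool.Agent.ZT
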