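import Pool.Agent.ZT.TreeMem
import Pool.Agent.ZT.Parad

/-!
# The groups of bounded displacement of forests
-/

set_option autoImplicit false

namespace Pool.Agent.ZT

open Pool.Agent.Helper29.BA Pool.Agent.Helper29.PA

/-- **The dichotomy for forests.** -/
theorem tree_dichotomy {V : Type} (T : SimpleGraph V) (hT : T.IsAcyclic) (d : ℕ)
    (hd : ∀ v, (T.neighborSet v).encard ≤ d) :
    List.TFAE [∀ C : (∀ (G : Type) [Group G], Prop), ExtClass C → C (WD T),
      ∀ (G S : Type) [Group G] [MulAction G S] [FaithfulSMul G S] (ρ : S → V) (k : ℕ),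
        (∀ s v, {t ∈ MulAction.orbit G s | ρ t = v}.encard ≤ k) →
        (∀ g : G, ∃ N : ℕ, ∀ s, T.edist (ρ s) (ρ (g • s)) ≤ N) →
        ∀ C : (∀ (G : Type) [Group G], Prop), ExtClass C → C G,
      ∀ U : Set V, U.Nonempty → ¬ ParadoxG T U,
      ∀ a b c : WD T, Thom a b c → a = 1 ∧ b = 1 ∧ c = 1] := by
  tfae_have 1 → 4 := fun h => noT_of_forall h
  tfae_have 4 → 3 := fun h U hU => not_par_of_noT T h U hU
  tfae_have 3 → 2 := fun h G S _ _ _ ρ k hk hG C hC => mem_of_forest hC T hT d hd h G S ρ k hk hG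
  tfae_have 2 → 1 := by
    intro h C hC
    refine h (WD T) V id 1 (fun s v => ?_) (fun g => g.2) C hC
    refine (Set.encard_le_encard (t := {v}) ?_).trans ?_
    · rintro t ⟨-, ht⟩
      exact ht
    · rw [Set.encard_singleton, Nat.cast_one]
  tfae_finish

end Pool.Agent.ZT
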