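import Pool.Agent.ZT.Act3

/-!
# Contracting maps: groups of permutations which are close to the identity after some steps

`σ : S → S` is a finite-to-one map and `E` a relation on `S` of bounded valency with
`E s t → E (σ s) (σ t)`, which is contracted: `E s t` and `E t u` imply
`E (σ^k s) (σ^k u)`. For example `S` is the set of infinite words over a finite alphabet, `σ` the
shift, and `E s t` means that `t = h s` for some `h` in the nucleus of a contracting self-similar
group. If some cover by sets of points which are close after some steps is of order two, then the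
group of the permutations `g` of `S` such that `E (σ^n s) (σ^n (g s))` for some `n` and all `s` is in
the classes: the orbits have asymptotic dimension at most one and polynomial growth.
-/

set_option autoImplicit false

namespace Pool.Agent.ZT

open Pool.Agent.Helper29.BA Pool.Agent.Helper29.PA

/-- A contracting relation. -/
structure Ctr {S : Type} (σ : S → S) (E : S → S → Prop) (d k : ℕ) : Prop where
  fib : ∀ s, {t | σ t = s}.encard ≤ d
  val : ∀ s, {t | E s t}.encard ≤ d
  refl : ∀ s, E s s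
  symm : ∀ s t, E s t → E t s
  step : ∀ s t, E s t → E (σ s) (σ t)
  comp : ∀ s t u, E s t → E t u → E (σ^[k] s) (σ^[k] u)

namespace Ctr

variable {S : Type} {σ : S → S} {E : S → S → Prop} {d k : ℕ} (hE : Ctr σ E d k)

include hE

theorem iter (n : ℕ) {s t : S} (h : E s t) : E (σ^[n] s) (σ^[n] t) := by
  induction n with
  | zero => exact h
  | succ n ih =>
    rw [Function.iterate_succ_apply', Function.iterate_succ_apply']
    exact hE.step _ _ ih

/-- The points which are close after `n` steps. -/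
theorem later {n m : ℕ} (h : n ≤ m) {s t : S} (h' : E (σ^[n] s) (σ^[n] t)) :
    E (σ^[m] s) (σ^[m] t) := by
  obtain ⟨j, rfl⟩ := Nat.exists_eq_add_of_le h
  rw [Nat.add_comm, Function.iterate_add_apply, Function.iterate_add_apply]
  exact hE.iter j h'

theorem ent : Ent (fun n s t => E (σ^[k * n] s) (σ^[k * n] t)) where
  refl n s := hE.refl _
  symm n s t h := hE.symm _ _ h
  comp n s t u h h' := by
    have := hE.comp _ _ _ h h'
    rw [← Function.iterate_add_apply, ← Function.iterate_add_apply] at this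
    rw [show k * (n + 1) = k + k * n by ring]
    exact this

/-- Iterated fibres. -/
theorem fib_iter (n : ℕ) (s : S) : {t | σ^[n] t = s}.encard ≤ (d ^ n : ℕ) := by
  classical
  induction n generalizing s with
  | zero =>
    rw [pow_zero, Nat.cast_one]
    refine (Set.encard_le_encard (t := {s}) ?_).trans (by rw [Set.encard_singleton])
    intro t ht
    exact ht
  | succ n ih =>
    have hfin : {t | σ t = s}.Finite := Set.finite_of_encard_le_coe (hE.fib s)
    have h1 : {t | σ^[n + 1] t = s} ⊆ ⋃ u ∈ hfin.toFinset, {t | σ^[n] t = u} := by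
      intro t ht
      have ht' : σ (σ^[n] t) = s := (Function.iterate_succ_apply' σ n t).symm.trans ht
      exact Set.mem_iUnion₂.2 ⟨σ^[n] t, hfin.mem_toFinset.2 ht', rfl⟩
    refine (Set.encard_le_encard h1).trans ?_
    have h3 : ∀ F : Finset S, (⋃ u ∈ F, {t | σ^[n] t = u}).encard ≤ F.card * (d ^ n : ℕ) := by
      intro F
      induction F using Finset.induction_on with
      | empty => simp
      | insert x F hx ihF =>
        rw [Finset.set_biUnion_insert, Finset.card_insert_of_notMem hx, Nat.cast_add, Nat.cast_one,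
          add_mul, one_mul, add_comm]
        exact (Set.encard_union_le _ _).trans (add_le_add (ih x) ihF)
    refine (h3 _).trans ?_
    have h4 : (hfin.toFinset.card : ENat) ≤ d := by
      rw [← hfin.encard_eq_coe_toFinset_card]
      exact hE.fib s
    rw [pow_succ, Nat.mul_comm, Nat.cast_mul]
    exact mul_le_mul_left h4 _

/-- The balls. -/
theorem ball (n : ℕ) (s : S) :
    {t | E (σ^[n] s) (σ^[n] t)}.encard ≤ (d * d ^ n : ℕ) := by
  classical
  have hfin : {u | E (σ^[n] s) u}.Finite := Set.finite_of_encard_le_coe (hE.val _)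
  have h1 : {t | E (σ^[n] s) (σ^[n] t)} ⊆ ⋃ u ∈ hfin.toFinset, {t | σ^[n] t = u} := by
    intro t ht
    exact Set.mem_iUnion₂.2 ⟨σ^[n] t, hfin.mem_toFinset.2 ht, rfl⟩
  refine (Set.encard_le_encard h1).trans ?_
  have h3 : ∀ F : Finset S, (⋃ u ∈ F, {t | σ^[n] t = u}).encard ≤ F.card * (d ^ n : ℕ) := by
    intro F
    induction F using Finset.induction_on with
    | empty => simp
    | insert x F hx ihF =>
      rw [Finset.set_biUnion_insert, Finset.card_insert_of_notMem hx, Nat.cast_add, Nat.cast_one,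
        add_mul, one_mul, add_comm]
      exact (Set.encard_union_le _ _).trans (add_le_add (hE.fib_iter n x) ihF)
  refine (h3 _).trans ?_
  have h4 : (hfin.toFinset.card : ENat) ≤ d := by
    rw [← hfin.encard_eq_coe_toFinset_card]
    exact hE.val _
  rw [Nat.cast_mul]
  exact mul_le_mul_left h4 _

omit hE in
theorem exists_big (c e : ℕ) : ∃ i, c + e * i < 2 ^ i := by
  refine ⟨2 * (c + 2 * e + 1), ?_⟩
  set m := c + 2 * e + 1 with hm
  have h1 : m + 1 ≤ 2 ^ m := Nat.lt_pow_self (by norm_num)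
  have h2 : (m + 1) * (m + 1) ≤ 2 ^ (2 * m) := by
    rw [two_mul, pow_add]
    exact Nat.mul_le_mul h1 h1
  refine lt_of_lt_of_le ?_ h2
  rw [hm]
  nlinarith

/-- There are no paradoxical sets. -/
theorem not_parM (U : Set (ES (fun n s t => E (σ^[k * n] s) (σ^[k * n] t)))) (hU : U.Nonempty) :
    ¬ @ParM _ hE.ent.space U := by
  classical
  intro h
  letI := hE.ent.space
  obtain ⟨N, a, b, ha, hb, hai, hbi, hab, hN⟩ := h
  obtain ⟨u₀, hu₀⟩ := hU
  have hcl : ∀ s t : S, eE (fun n s t => E (σ^[k * n] s) (σ^[k * n] t)) s t ≤ (N : ENNReal) →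
      E (σ^[k * N] s) (σ^[k * N] t) := by
    intro s t hst
    refine (eE_le hE.ent N s t).1 (hst.trans ?_)
    exact_mod_cast Nat.le_succ N
  -- compositions
  have key : ∀ i : ℕ, ∃ (ι : Type) (_ : Fintype ι) (f : ι → S → S), Fintype.card ι = 2 ^ 2 ^ i ∧
      (∀ j, ∀ x ∈ (show Set S from U), f j x ∈ (show Set S from U) ∧
        E (σ^[k * (N + i)] x) (σ^[k * (N + i)] (f j x))) ∧
      ∀ j j', ∀ x ∈ (show Set S from U), ∀ y ∈ (show Set S from U), f j x = f j' y →
        j = j' ∧ x = y := by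
    intro i
    induction i with
    | zero =>
      refine ⟨Bool, inferInstance, fun j => cond j a b, by simp, ?_, ?_⟩
      · rintro (_ | _) x hx
        · exact ⟨hb hx, hcl _ _ (hN x hx).2⟩
        · exact ⟨ha hx, hcl _ _ (hN x hx).1⟩
      · rintro (_ | _) (_ | _) x hx y hy hxy
        · exact ⟨rfl, hbi hx hy hxy⟩
        · exact (Set.disjoint_left.1 hab ⟨y, hy, rfl⟩ ⟨x, hx, hxy⟩).elim
        · exact (Set.disjoint_left.1 hab ⟨x, hx, rfl⟩ ⟨y, hy, hxy.symm⟩).elim
        · exact ⟨rfl, hai hx hy hxy⟩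
    | succ i ih =>
      obtain ⟨ι, _, f, h0, h1, h2⟩ := ih
      refine ⟨ι × ι, inferInstance, fun j x => f j.1 (f j.2 x), ?_, ?_, ?_⟩
      · rw [Fintype.card_prod, h0, ← pow_add, ← two_mul, ← pow_succ']
      · intro j x hx
        obtain ⟨g1, g2⟩ := h1 j.2 x hx
        obtain ⟨g3, g4⟩ := h1 j.1 _ g1
        exact ⟨g3, hE.ent.comp _ _ _ _ g2 g4⟩
      · intro j j' x hx y hy hxy
        obtain ⟨g1, g2⟩ := h2 _ _ _ (h1 j.2 x hx).1 _ (h1 j'.2 y hy).1 hxy
        obtain ⟨g3, g4⟩ := h2 _ _ _ hx _ hy g2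
        exact ⟨Prod.ext g1 g3, g4⟩
  obtain ⟨i, hi⟩ := exists_big (d * (1 + k * N)) (d * k)
  obtain ⟨ι, _, f, h0, h1, h2⟩ := key i
  have h3 : (2 ^ 2 ^ i : ℕ) ≤ d * d ^ (k * (N + i)) := by
    have h4 := hE.ball (k * (N + i)) u₀
    have h5 : Set.range (fun j => f j u₀) ⊆ {t | E (σ^[k * (N + i)] u₀) (σ^[k * (N + i)] t)} := by
      rintro _ ⟨j, rfl⟩
      exact (h1 j u₀ hu₀).2
    have h6 : Function.Injective (fun j => f j u₀) := fun j j' h => (h2 j j' _ hu₀ _ hu₀ h).1
    have h7 := (Set.encard_le_encard h5).trans h4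
    rw [← Set.image_univ, h6.encard_image, Set.encard_univ, ENat.card_eq_coe_fintype_card,
      h0] at h7
    exact_mod_cast h7
  have h8 : d * d ^ (k * (N + i)) ≤ 2 ^ (d * (1 + k * N) + d * k * i) := by
    have h9 : d ≤ 2 ^ d := (Nat.lt_pow_self (by norm_num)).le
    calc d * d ^ (k * (N + i)) = d ^ (k * (N + i) + 1) := by rw [pow_succ, Nat.mul_comm]
      _ ≤ (2 ^ d) ^ (k * (N + i) + 1) := Nat.pow_le_pow_left h9 _
      _ = 2 ^ (d * (1 + k * N) + d * k * i) := by
        rw [← pow_mul]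
        congr 1
        ring
  have h10 : (2 : ℕ) ^ (d * (1 + k * N) + d * k * i) < 2 ^ 2 ^ i :=
    Nat.pow_lt_pow_right (by norm_num) hi
  omega

/-- **Contracting maps with tiles of order two.** -/
theorem mem {C : ∀ (G : Type) [Group G], Prop} (hC : ExtClass C) (m : ℕ) (c : Set (Set S))
    (hc : ∀ s, ∃ U ∈ c, s ∈ U) (hc' : ∀ U ∈ c, ∀ s ∈ U, ∀ t ∈ U, E (σ^[m] s) (σ^[m] t))
    (hc2 : ∀ s, {U ∈ c | ∃ t ∈ U, E s t}.encard ≤ 2) (hk : 0 < k)
    (G : Subgroup (Equiv.Perm S)) (hG : ∀ g ∈ G, ∃ n, ∀ s, E (σ^[n] s) (σ^[n] (g s))) : C G := by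
  classical
  letI := hE.ent.space
  have hcl : ∀ (n : ℕ) (s t : S), eE (fun n s t => E (σ^[k * n] s) (σ^[k * n] t)) s t ≤
      ((n + 1 : ℕ) : ENNReal) ↔ E (σ^[k * n] s) (σ^[k * n] t) := fun n s t => eE_le hE.ent n s t
  have hn : ∀ n, n ≤ k * n := fun n => Nat.le_mul_of_pos_left n hk
  have hcov : ∀ (r : ℕ), ∀ U ∈ c, ∀ s t : S, σ^[k * r] s ∈ U → σ^[k * r] t ∈ U →
      E (σ^[k * (r + m)] s) (σ^[k * (r + m)] t) := by
    intro r U hU s t hs ht
    have h3 : E (σ^[m + k * r] s) (σ^[m + k * r] t) := by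
      rw [Function.iterate_add_apply, Function.iterate_add_apply]
      exact hc' U hU _ hs _ ht
    refine hE.later ?_ h3
    have := hn m
    nlinarith
  have h1 : BddGeom (ES (fun n s t => E (σ^[k * n] s) (σ^[k * n] t))) := by
    intro r
    refine ⟨d * d ^ (k * r), fun s => (Set.encard_le_encard ?_).trans (hE.ball (k * r) s)⟩
    intro t ht
    exact (hcl r s t).1 (le_trans ht (by exact_mod_cast Nat.le_succ r))
  have h2 : AsdimLeOne (ES (fun n s t => E (σ^[k * n] s) (σ^[k * n] t))) := by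
    intro r
    refine ⟨r + m + 1, {V | ∃ U ∈ c, V = {s | σ^[k * r] s ∈ U}}, ?_, ?_, ?_⟩
    · intro s
      obtain ⟨U, hU, hs⟩ := hc (σ^[k * r] s)
      exact ⟨_, ⟨U, hU, rfl⟩, hs⟩
    · rintro V ⟨U, hU, rfl⟩ s hs t ht
      exact (hcl (r + m) s t).2 (hcov r U hU s t hs ht)
    · intro s
      refine (Set.encard_le_encard (t := (fun U : Set S => {s | σ^[k * r] s ∈ U}) ''
        {U ∈ c | ∃ t ∈ U, E (σ^[k * r] s) t}) ?_).trans
        ((Set.encard_image_le _ _).trans (hc2 _))
      rintro V ⟨⟨U, hU, rfl⟩, t, ht, hst⟩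
      refine ⟨U, ⟨hU, _, ht, (hcl r s t).1 (le_trans hst ?_)⟩, rfl⟩
      exact_mod_cast Nat.le_succ r
  have h3 : C (WM (ES (fun n s t => E (σ^[k * n] s) (σ^[k * n] t)))) :=
    mem_WM hC h1 h2 hE.not_parM
  have h4 : ∀ g ∈ G, g ∈ (show Subgroup (Equiv.Perm S) from
      WM (ES (fun n s t => E (σ^[k * n] s) (σ^[k * n] t)))) := by
    intro g hg
    obtain ⟨n, hn'⟩ := hG g hg
    exact ⟨n + 1, fun s => (hcl n s (g s)).2 (hE.later (hn n) (hn' s))⟩
  exact hC.toClosedClass.inj (Subgroup.inclusion h4) (Subgroup.inclusion_injective h4) h3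

/-- An action which is contracted has no paradoxical sets. -/
theorem not_paradox {G : Type} [Group G] [MulAction G S]
    (hG : ∀ g : G, ∃ n, ∀ s : S, E (σ^[n] s) (σ^[n] (g • s))) (hk : 0 < k) (U : Set S)
    (hU : U.Nonempty) : ¬ Paradox G U := by
  classical
  rintro ⟨K, a, h1, h2⟩
  choose f hf using hG
  let N : ℕ := K.sup f
  refine hE.not_parM U hU ⟨N + 1, a true, a false, fun x hx => (h1 true x hx).1,
    fun x hx => (h1 false x hx).1, fun x hx y hy h => (h2 true true x hx y hy h).2,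
      fun x hx y hy h => (h2 false false x hx y hy h).2, ?_, fun u hu => ?_⟩
  · rw [Set.disjoint_left]
    rintro _ ⟨x, hx, rfl⟩ ⟨y, hy, h⟩
    exact absurd (h2 false true y hy x hx h).1 (by decide)
  · have key : ∀ i, eE (fun n s t => E (σ^[k * n] s) (σ^[k * n] t)) u (a i u) ≤
        ((N + 1 : ℕ) : ENNReal) := by
      intro i
      obtain ⟨-, g, hg, hgu⟩ := h1 i u hu
      refine (eE_le hE.ent N u (a i u)).2 (hE.later ?_ (hgu ▸ hf g u))
      exact (Finset.le_sup (f := f) hg).trans (Nat.le_mul_of_pos_left _ hk)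
    exact ⟨key true, key false⟩

end Ctr

section words

variable {X : Type}

/-- The shift. -/
def sh (ξ : ℕ → X) : ℕ → X := fun n => ξ (n + 1)

open Classical in
/-- **Contracting groups of asymptotic dimension at most one.** `G` is a group of permutations of
the set of infinite words over a finite alphabet which is contracting with nucleus `N`, and whose
action has asymptotic dimension at most one. -/
theorem mem_of_contracting {C : ∀ (G : Type) [Group G], Prop} (hC : ExtClass C) [Finite X]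
    (G : Subgroup (Equiv.Perm (ℕ → X))) (N : Finset (Equiv.Perm (ℕ → X))) (h1 : 1 ∈ N)
    (hi : ∀ h ∈ N, h⁻¹ ∈ N) (hs : ∀ h ∈ N, ∀ ξ, ∃ h' ∈ N, sh (h ξ) = h' (sh ξ)) (k : ℕ)
    (hk : 0 < k)
    (hc : ∀ h ∈ N, ∀ h' ∈ N, ∀ ξ, ∃ h'' ∈ N, sh^[k] (h (h' ξ)) = h'' (sh^[k] ξ))
    (hG : ∀ g ∈ G, ∃ n, ∀ ξ, ∃ h ∈ N, sh^[n] (g ξ) = h (sh^[n] ξ))
    (hA : AsdimAct G (ℕ → X)) : C G := by
  have hX : Fintype X := Fintype.ofFinite X
  let E : (ℕ → X) → (ℕ → X) → Prop := fun ξ η => ∃ h ∈ N, η = h ξ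
  have hE : Ctr (sh (X := X)) E (Fintype.card X + N.card) k := by
    constructor
    · intro ξ
      have h2 : {η : ℕ → X | sh η = ξ} ⊆ Set.range (fun x : X => fun n : ℕ =>
          if n = 0 then x else ξ (n - 1)) := by
        intro η hη
        refine ⟨η 0, ?_⟩
        have h3 : sh η = ξ := hη
        funext n
        rcases n with _ | n
        · simp
        · change (if n + 1 = 0 then η 0 else ξ n) = η (n + 1)
          rw [if_neg (Nat.succ_ne_zero n), ← h3]
          rfl
      refine (Set.encard_le_encard h2).trans ?_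
      rw [← Set.image_univ]
      refine (Set.encard_image_le _ _).trans ?_
      rw [Set.encard_univ, ENat.card_eq_coe_fintype_card]
      exact_mod_cast Nat.le_add_right _ _
    · intro ξ
      have h2 : {η : ℕ → X | E ξ η} ⊆ (fun h : Equiv.Perm (ℕ → X) => h ξ) '' (N : Set _) := by
        rintro η ⟨h, hh, rfl⟩
        exact ⟨h, hh, rfl⟩
      refine (Set.encard_le_encard h2).trans ((Set.encard_image_le _ _).trans ?_)
      rw [Set.encard_coe_eq_coe_finsetCard]
      exact_mod_cast Nat.le_add_left _ _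
    · intro ξ
      exact ⟨1, h1, rfl⟩
    · rintro ξ η ⟨h, hh, rfl⟩
      exact ⟨h⁻¹, hi h hh, (h.symm_apply_apply ξ).symm⟩
    · rintro ξ η ⟨h, hh, rfl⟩
      exact hs h hh ξ
    · rintro ξ η ζ ⟨h, hh, rfl⟩ ⟨h', hh', rfl⟩
      exact hc h' hh' h hh ξ
  have hF : FaithfulSMul G (ℕ → X) := ⟨fun {a b} h => Subtype.ext (Equiv.ext h)⟩
  refine mem_of_over hC hA ?_
  exact hE.not_paradox (fun g => hG g g.2) hk

end words

end Pool.Agent.ZT
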