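import Mathlib

/-! # Tree decompositions with bags of at most `k` vertices give balanced separators (row TW4)

If the graph `Γ` has a tree decomposition (tree `T` and bags possibly infinite in number) all of
whose bags have at most `k` vertices, then each finite set `S` of vertices is separated by at most
`k` vertices into two parts with at most `2 |S| / 3` elements of `S` each. -/

namespace ZT.TD

open SimpleGraph

variable {W : Type*} {T : SimpleGraph W}

/-- The first vertex after `w` on the path from `w` to `x`. -/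
noncomputable def nxt (hT : T.IsTree) (w x : W) : W := (hT.existsUnique_path w x).choose.snd

theorem nxt_eq_snd (hT : T.IsTree) {w x : W} (p : T.Walk w x) (hp : p.IsPath) :
    nxt hT w x = p.snd := by
  have h := (hT.existsUnique_path w x).choose_spec
  have h2 : p = (hT.existsUnique_path w x).choose := h.2 p hp
  rw [nxt, ← h2]

theorem nxt_dist (hT : T.IsTree) {w x : W} (hx : x ≠ w) :
    T.dist (nxt hT w x) x + 1 ≤ T.dist w x := by
  obtain ⟨p, hp, hl⟩ := hT.connected.exists_path_of_dist w x
  rw [nxt_eq_snd hT p hp, ← hl]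
  cases p with
  | nil => exact absurd rfl hx
  | cons h q =>
    rw [Walk.snd_cons, Walk.length_cons]
    have := SimpleGraph.dist_le q
    omega

/-- A path from `x` to `y` that avoids `w` keeps the first vertex after `w`. -/
theorem nxt_congr (hT : T.IsTree) {w x y : W} (hx : x ≠ w)
    (p : T.Walk x y) (hw : w ∉ p.support) : nxt hT w x = nxt hT w y := by
  classical
  obtain ⟨P, hP, -⟩ := (hT.existsUnique_path w x)
  rw [nxt_eq_snd hT P hP]
  cases P with
  | nil => exact absurd rfl hx
  | @cons _ c _ h q =>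
    rw [Walk.snd_cons]
    rw [Walk.cons_isPath_iff] at hP
    have hr : w ∉ (q.append p).bypass.support := by
      intro h1
      have h2 := Walk.support_bypass_subset_support _ h1
      rw [Walk.mem_support_append_iff] at h2
      exact h2.elim hP.2 hw
    have hr' : (Walk.cons h (q.append p).bypass).IsPath := by
      rw [Walk.cons_isPath_iff]
      exact ⟨Walk.bypass_isPath _, hr⟩
    rw [nxt_eq_snd hT _ hr', Walk.snd_cons]

/-- The grouping lemma: classes with at most half of the elements each can be put in two groups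
with at most two thirds of the elements each. -/
theorem exists_group {V : Type*} {L : Type*} (S S' : Finset V) (hS' : S' ⊆ S) (ν : V → L)
    [DecidableEq L]
    (h : ∀ c, 2 * (S'.filter (fun s => ν s = c)).card ≤ S.card) :
    ∃ P : Finset L, 3 * (S'.filter (fun s => ν s ∈ P)).card ≤ 2 * S.card ∧
      3 * (S'.filter (fun s => ν s ∉ P)).card ≤ 2 * S.card := by
  classical
  let f : Finset L → ℕ := fun P => (S'.filter (fun s => ν s ∈ P)).card
  let E : Finset (Finset L) := (S'.image ν).powerset.filter (fun P => 3 * f P ≤ 2 * S.card)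
  have hE : E.Nonempty := ⟨∅, by simp [E, f]⟩
  obtain ⟨P, hP, hmax⟩ := E.exists_max_image f hE
  have hP1 : P ⊆ S'.image ν ∧ 3 * f P ≤ 2 * S.card := by
    simpa [E] using hP
  refine ⟨P, hP1.2, ?_⟩
  by_contra hcon
  push Not at hcon
  have hsum : f P + (S'.filter (fun s => ν s ∉ P)).card = S'.card :=
    Finset.card_filter_add_card_filter_not (s := S') (fun s => ν s ∈ P)
  have hle : S'.card ≤ S.card := Finset.card_le_card hS'
  have hpos : 0 < (S'.filter (fun s => ν s ∉ P)).card := by omega
  obtain ⟨s, hs⟩ := Finset.card_pos.1 hpos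
  rw [Finset.mem_filter] at hs
  set c := ν s with hc
  have hfc : f {c} = (S'.filter (fun s => ν s = c)).card := by
    simp [f]
  have hc1 : 0 < f {c} := by
    rw [hfc]
    exact Finset.card_pos.2 ⟨s, Finset.mem_filter.2 ⟨hs.1, rfl⟩⟩
  have hadd : f (insert c P) = f {c} + f P := by
    have h1 : S'.filter (fun s => ν s ∈ insert c P)
        = S'.filter (fun s => ν s ∈ ({c} : Finset L)) ∪ S'.filter (fun s => ν s ∈ P) := by
      ext t
      simp only [Finset.mem_filter, Finset.mem_union, Finset.mem_insert, Finset.mem_singleton]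
      tauto
    have h2 : Disjoint (S'.filter (fun s => ν s ∈ ({c} : Finset L)))
        (S'.filter (fun s => ν s ∈ P)) := by
      rw [Finset.disjoint_left]
      intro t ht ht'
      rw [Finset.mem_filter, Finset.mem_singleton] at ht
      rw [Finset.mem_filter] at ht'
      rw [ht.2] at ht'
      exact hs.2 ht'.2
    show (S'.filter (fun s => ν s ∈ insert c P)).card = _
    rw [h1, Finset.card_union_of_disjoint h2]
  have hcim : c ∈ S'.image ν := Finset.mem_image_of_mem _ hs.1
  have hA : 2 * S.card < 3 * f (insert c P) := by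
    by_contra h3
    push Not at h3
    have : insert c P ∈ E := by
      simp only [E, Finset.mem_filter, Finset.mem_powerset]
      exact ⟨Finset.insert_subset hcim hP1.1, h3⟩
    have := hmax _ this
    omega
  have hB := h c
  rw [← hfc] at hB
  have hC : f {c} ≤ f P := by
    apply hmax
    simp only [E, Finset.mem_filter, Finset.mem_powerset]
    exact ⟨Finset.singleton_subset_iff.2 hcim, by omega⟩
  omega

/-- **Row TW4.**  A tree decomposition with bags of at most `k` vertices gives balanced
separators of at most `k` vertices for all finite sets of vertices. -/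
theorem exists_sep_of_treeDec {V : Type*} {Γ : SimpleGraph V} (hT : T.IsTree)
    (bag : W → Set V) (k : ℕ) (hk : ∀ w, (bag w).encard ≤ k)
    (hv : ∀ v, ∃ w, v ∈ bag w)
    (he : ∀ u v, Γ.Adj u v → ∃ w, u ∈ bag w ∧ v ∈ bag w)
    (hc : ∀ (x y : W) (p : T.Walk x y), p.IsPath → ∀ z ∈ p.support, bag x ∩ bag y ⊆ bag z)
    (S : Finset V) :
    ∃ A B : Set V, A ∪ B = Set.univ ∧ (∀ u v, Γ.Adj u v → u ∈ A \ B → v ∉ B \ A) ∧
      (A ∩ B).encard ≤ k ∧ 3 * ((S : Set V) ∩ (A \ B)).encard ≤ 2 * (S : Set V).encard ∧
      3 * ((S : Set V) ∩ (B \ A)).encard ≤ 2 * (S : Set V).encard := by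
  classical
  choose node hnode using hv
  have : Nonempty W := hT.connected.nonempty
  -- the median of the nodes of `S`
  obtain ⟨w, hw⟩ : ∃ w : W, ∀ c : W, ∑ s ∈ S, T.dist w (node s) ≤ ∑ s ∈ S, T.dist c (node s) := by
    have hne : (Set.range (fun w : W => ∑ s ∈ S, T.dist w (node s))).Nonempty :=
      Set.range_nonempty _
    obtain ⟨w, hw⟩ := Nat.sInf_mem hne
    refine ⟨w, fun c => ?_⟩
    have h1 : sInf (Set.range (fun w : W => ∑ s ∈ S, T.dist w (node s)))
        ≤ ∑ s ∈ S, T.dist c (node s) := Nat.sInf_le ⟨c, rfl⟩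
    exact (le_of_eq hw).trans h1
  let ν : V → W := fun s => nxt hT w (node s)
  let S' : Finset V := S.filter (fun s => node s ≠ w)
  have hhalf : ∀ c, 2 * (S'.filter (fun s => ν s = c)).card ≤ S.card := by
    intro c
    have hsub : S'.filter (fun s => ν s = c) ⊆ S :=
      (Finset.filter_subset _ _).trans (Finset.filter_subset _ _)
    rcases Finset.eq_empty_or_nonempty (S'.filter (fun s => ν s = c)) with h0 | ⟨s0, hs0⟩
    · rw [h0]; simp
    · -- `c` is a neighbour of `w`
      have hadj : T.dist c w ≤ 1 := by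
        rw [Finset.mem_filter, Finset.mem_filter] at hs0
        obtain ⟨⟨-, hne⟩, hc0⟩ := hs0
        obtain ⟨p, hp, -⟩ := hT.existsUnique_path w (node s0)
        have h1 : p.snd = c := by rw [← nxt_eq_snd hT p hp]; exact hc0
        cases p with
        | nil => exact absurd rfl hne
        | cons h q =>
          rw [Walk.snd_cons] at h1
          subst h1
          have := SimpleGraph.dist_le (Walk.cons h.symm Walk.nil)
          simpa using this
      have hpt : ∀ s ∈ S, T.dist c (node s) + (if s ∈ S'.filter (fun s => ν s = c) then 1 else 0)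
          ≤ T.dist w (node s) + (if s ∈ S'.filter (fun s => ν s = c) then 0 else 1) := by
        intro s hs
        by_cases hsc : s ∈ S'.filter (fun s => ν s = c)
        · rw [if_pos hsc, if_pos hsc]
          rw [Finset.mem_filter, Finset.mem_filter] at hsc
          have h1 := nxt_dist hT hsc.1.2
          have h2 : nxt hT w (node s) = c := hsc.2
          rw [h2] at h1
          omega
        · rw [if_neg hsc, if_neg hsc]
          have h1 := hT.connected.dist_triangle (u := c) (v := w) (w := node s)
          omega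
      have hsum := Finset.sum_le_sum hpt
      rw [Finset.sum_add_distrib, Finset.sum_add_distrib] at hsum
      have h1 : ∑ s ∈ S, (if s ∈ S'.filter (fun s => ν s = c) then 1 else 0)
          = (S'.filter (fun s => ν s = c)).card := by
        rw [Finset.sum_boole]
        simp only [Nat.cast_id]
        congr 1
        ext s
        rw [Finset.mem_filter]
        exact ⟨fun h => h.2, fun h => ⟨hsub h, h⟩⟩
      have h2 : ∑ s ∈ S, (if s ∈ S'.filter (fun s => ν s = c) then 0 else 1)
          + (S'.filter (fun s => ν s = c)).card = S.card := by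
        rw [← h1, ← Finset.sum_add_distrib, Finset.card_eq_sum_ones]
        refine Finset.sum_congr rfl fun s _ => ?_
        by_cases hsc : s ∈ S'.filter (fun s => ν s = c)
        · rw [if_pos hsc, if_pos hsc]
        · rw [if_neg hsc, if_neg hsc]
      have h3 := hw c
      omega
  obtain ⟨P, hP1, hP2⟩ := exists_group S S' (Finset.filter_subset _ _) ν hhalf
  refine ⟨bag w ∪ {v | ∃ x, x ≠ w ∧ nxt hT w x ∈ P ∧ v ∈ bag x},
    bag w ∪ {v | ∃ x, x ≠ w ∧ nxt hT w x ∉ P ∧ v ∈ bag x}, ?_, ?_, ?_, ?_, ?_⟩
  · rw [Set.eq_univ_iff_forall]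
    intro v
    by_cases h1 : node v = w
    · left; left; rw [← h1]; exact hnode v
    · by_cases h2 : nxt hT w (node v) ∈ P
      · left; right; exact ⟨_, h1, h2, hnode v⟩
      · right; right; exact ⟨_, h1, h2, hnode v⟩
  · rintro u v huv ⟨-, hu⟩ ⟨-, hv⟩
    obtain ⟨x, hux, hvx⟩ := he u v huv
    by_cases h1 : x = w
    · subst h1; exact hu (Or.inl hux)
    · by_cases h2 : nxt hT w x ∈ P
      · exact hv (Or.inr ⟨x, h1, h2, hvx⟩)
      · exact hu (Or.inr ⟨x, h1, h2, hux⟩)
  · refine le_trans (Set.encard_le_encard ?_) (hk w)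
    rintro v ⟨h1 | ⟨x, hx, hxP, hxv⟩, h2 | ⟨y, hy, hyP, hyv⟩⟩
    · exact h1
    · exact h1
    · exact h2
    · obtain ⟨p, hp, -⟩ := hT.existsUnique_path x y
      by_cases hwp : w ∈ p.support
      · exact hc x y p hp w hwp ⟨hxv, hyv⟩
      · rw [nxt_congr hT hx p hwp] at hxP
        exact absurd hxP hyP
  · have h1 : (S : Set V) ∩ ((bag w ∪ {v | ∃ x, x ≠ w ∧ nxt hT w x ∈ P ∧ v ∈ bag x})
        \ (bag w ∪ {v | ∃ x, x ≠ w ∧ nxt hT w x ∉ P ∧ v ∈ bag x}))
        ⊆ ((S'.filter (fun s => ν s ∈ P) : Finset V) : Set V) := by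
      rintro s ⟨hs, -, hs2⟩
      have h3 : node s ≠ w := fun h => hs2 (Or.inl (h ▸ hnode s))
      rw [Finset.mem_coe, Finset.mem_filter, Finset.mem_filter]
      refine ⟨⟨hs, h3⟩, ?_⟩
      by_contra h4
      exact hs2 (Or.inr ⟨_, h3, h4, hnode s⟩)
    have h2 := Set.encard_le_encard h1
    rw [Set.encard_coe_eq_coe_finsetCard] at h2
    rw [Set.encard_coe_eq_coe_finsetCard]
    calc 3 * _ ≤ 3 * (((S'.filter (fun s => ν s ∈ P)).card : ℕ∞)) := by gcongr
      _ ≤ _ := by exact_mod_cast hP1
  · have h1 : (S : Set V) ∩ ((bag w ∪ {v | ∃ x, x ≠ w ∧ nxt hT w x ∉ P ∧ v ∈ bag x})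
        \ (bag w ∪ {v | ∃ x, x ≠ w ∧ nxt hT w x ∈ P ∧ v ∈ bag x}))
        ⊆ ((S'.filter (fun s => ν s ∉ P) : Finset V) : Set V) := by
      rintro s ⟨hs, -, hs2⟩
      have h3 : node s ≠ w := fun h => hs2 (Or.inl (h ▸ hnode s))
      rw [Finset.mem_coe, Finset.mem_filter, Finset.mem_filter]
      refine ⟨⟨hs, h3⟩, ?_⟩
      intro h4
      exact hs2 (Or.inr ⟨_, h3, h4, hnode s⟩)
    have h2 := Set.encard_le_encard h1
    rw [Set.encard_coe_eq_coe_finsetCard] at h2
    rw [Set.encard_coe_eq_coe_finsetCard]
    calc 3 * _ ≤ 3 * (((S'.filter (fun s => ν s ∉ P)).card : ℕ∞)) := by gcongr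
      _ ≤ _ := by exact_mod_cast hP2

end ZT.TD
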