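import Pool.Agent.ZT.TreeW
import Pool.Agent.ZT.TDec

/-!
# Graphs of bounded degree and bounded tree-width
-/

set_option autoImplicit false

namespace Pool.Agent.ZT

/-- **Graphs of bounded degree and bounded tree-width have asymptotic dimension at most one.** -/
theorem asdim_of_treeDec {V W : Type} (Γ : SimpleGraph V) (d : ℕ)
    (hd : ∀ u, {v | Γ.Adj u v}.encard ≤ d) {T : SimpleGraph W} (hT : T.IsTree)
    (bag : W → Set V) (k : ℕ) (hk : ∀ w, (bag w).encard ≤ k) (hv : ∀ v, ∃ w, v ∈ bag w)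
    (he : ∀ u v, Γ.Adj u v → ∃ w, u ∈ bag w ∧ v ∈ bag w)
    (hc : ∀ (x y : W) (p : T.Walk x y), p.IsPath → ∀ z ∈ p.support, bag x ∩ bag y ⊆ bag z) :
    @AsdimLeOne V (gMet Γ) :=
  asdim_of_sep Γ d k hd fun S => _root_.ZT.TD.exists_sep_of_treeDec hT bag k hk hv he hc S

end Pool.Agent.ZT
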