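import Pool.Agent.ZT.AsdTfae

/-!
# Actions of asymptotic dimension at most one
-/

set_option autoImplicit false

namespace Pool.Agent.ZT

open Pool.Agent.Helper29.BA Pool.Agent.Helper29.PA

open scoped Pointwise

/-! ### Metrization -/

section metr

/-- An increasing sequence of relations. -/
structure Ent {S : Type} (E : ℕ → S → S → Prop) : Prop where
  refl : ∀ n s, E n s s
  symm : ∀ n s t, E n s t → E n t s
  comp : ∀ n s t u, E n s t → E n t u → E (n + 1) s u

variable {S : Type} {E : ℕ → S → S → Prop}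

theorem Ent.mono (hE : Ent E) {n m : ℕ} (h : n ≤ m) {s t : S} (h' : E n s t) : E m s t := by
  induction m, h using Nat.le_induction with
  | base => exact h'
  | succ m _ ih => exact hE.comp m s s t (hE.refl m s) ih

/-- The space. -/
def ES {S : Type} (_E : ℕ → S → S → Prop) : Type := S

open Classical in
/-- The distance. -/
noncomputable def eE (E : ℕ → S → S → Prop) (s t : S) : ENNReal :=
  if s = t then 0 else if h : ∃ n, E n s t then ((Nat.find h + 1 : ℕ) : ENNReal) else ⊤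

theorem eE_le (hE : Ent E) (n : ℕ) (s t : S) : eE E s t ≤ (n + 1 : ℕ) ↔ E n s t := by
  classical
  unfold eE
  by_cases h1 : s = t
  · rw [if_pos h1, h1]
    exact ⟨fun _ => hE.refl n t, fun _ => zero_le⟩
  · rw [if_neg h1]
    by_cases h2 : ∃ n, E n s t
    · rw [dif_pos h2, Nat.cast_le]
      constructor
      · intro h3
        exact hE.mono (Nat.le_of_succ_le_succ h3) (Nat.find_spec h2)
      · intro h3
        exact Nat.succ_le_succ (Nat.find_min' h2 h3)
    · rw [dif_neg h2]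
      constructor
      · intro h3
        exact absurd (h3.trans_lt (ENNReal.natCast_lt_top _)) (lt_irrefl _)
      · intro h3
        exact absurd ⟨n, h3⟩ h2

theorem eE_self (s : S) : eE E s s = 0 := if_pos rfl

theorem eE_cases (E : ℕ → S → S → Prop) (s t : S) :
    s = t ∨ eE E s t = ⊤ ∨ ∃ n : ℕ, eE E s t = (n + 1 : ℕ) ∧ E n s t := by
  classical
  by_cases h1 : s = t
  · exact Or.inl h1
  by_cases h2 : ∃ n, E n s t
  · refine Or.inr (Or.inr ⟨Nat.find h2, ?_, Nat.find_spec h2⟩)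
    unfold eE
    rw [if_neg h1, dif_pos h2]
  · refine Or.inr (Or.inl ?_)
    unfold eE
    rw [if_neg h1, dif_neg h2]

theorem eE_comm (hE : Ent E) (s t : S) : eE E s t = eE E t s := by
  have key : ∀ s t, eE E s t ≤ eE E t s := by
    intro s t
    rcases eE_cases E t s with h | h | ⟨n, h, h'⟩
    · rw [h]
    · rw [h]
      exact le_top
    · rw [h, eE_le hE]
      exact hE.symm n t s h'
  exact le_antisymm (key s t) (key t s)

theorem eE_triangle (hE : Ent E) (s t u : S) : eE E s u ≤ eE E s t + eE E t u := by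
  rcases eE_cases E s t with h | h | ⟨n, h, h'⟩
  · rw [h, eE_self, zero_add]
  · rw [h, top_add]
    exact le_top
  rcases eE_cases E t u with g | g | ⟨m, g, g'⟩
  · rw [g, eE_self, add_zero]
  · rw [g, add_top]
    exact le_top
  have h1 : E (max n m + 1) s u := hE.comp _ s t u (hE.mono (le_max_left n m) h')
    (hE.mono (le_max_right n m) g')
  refine ((eE_le hE _ s u).2 h1).trans ?_
  rw [h, g, ← Nat.cast_add, Nat.cast_le]
  omega

/-- The metric space. -/
@[reducible] noncomputable def Ent.space (hE : Ent E) : PseudoEMetricSpace (ES E) where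
  edist := eE E
  edist_self := eE_self
  edist_comm := eE_comm hE
  edist_triangle := eE_triangle hE

end metr

/-! ### Actions -/

section act

variable {G S : Type} [Group G] [MulAction G S]

/-- The full group of an action: the permutations which are piecewise given by finitely many
elements of the group. -/
def Fl (G S : Type) [Group G] [MulAction G S] : Subgroup (Equiv.Perm S) where
  carrier := {h | ∃ K : Finset G, ∀ s, ∃ g ∈ K, g • s = h s}
  one_mem' := ⟨{1}, fun s => ⟨1, by simp, one_smul _ _⟩⟩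
  mul_mem' := by
    classical
    rintro a b ⟨K, hK⟩ ⟨L, hL⟩
    refine ⟨K * L, fun s => ?_⟩
    obtain ⟨g, hg, h1⟩ := hL s
    obtain ⟨f, hf, h2⟩ := hK (b s)
    exact ⟨f * g, Finset.mul_mem_mul hf hg, by rw [mul_smul, h1, h2]; rfl⟩
  inv_mem' := by
    classical
    rintro a ⟨K, hK⟩
    refine ⟨K⁻¹, fun s => ?_⟩
    obtain ⟨g, hg, h1⟩ := hK (a⁻¹ s)
    refine ⟨g⁻¹, Finset.inv_mem_inv hg, ?_⟩
    have h2 : a (a⁻¹ s) = s := a.apply_symm_apply s
    rw [inv_smul_eq_iff, h1, h2]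

/-- The action has asymptotic dimension at most one. -/
def AsdimAct (G S : Type) [Group G] [MulAction G S] : Prop :=
  ∀ K : Finset G, ∃ (K' : Finset G) (c : Set (Set S)), (∀ s, ∃ U ∈ c, s ∈ U) ∧
    (∀ U ∈ c, ∀ s ∈ U, ∀ t ∈ U, ∃ g ∈ K', g • s = t) ∧
    ∀ s, {U ∈ c | ∃ g ∈ K, g • s ∈ U}.encard ≤ 2

/-- Sequences of finite sets. -/
structure FSeq (G S : Type) [Group G] [MulAction G S] [DecidableEq G] (F : ℕ → Finset G) :
    Prop where
  one : ∀ n, 1 ∈ F n
  inv : ∀ n, ∀ g ∈ F n, g⁻¹ ∈ F n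
  mul : ∀ n, F n * F n ⊆ F (n + 1)
  cov : ∀ n, ∃ (m : ℕ) (c : Set (Set S)), (∀ s, ∃ U ∈ c, s ∈ U) ∧
    (∀ U ∈ c, ∀ s ∈ U, ∀ t ∈ U, ∃ g ∈ F m, g • s = t) ∧
    ∀ s, {U ∈ c | ∃ g ∈ F n, g • s ∈ U}.encard ≤ 2

theorem exists_fSeq [DecidableEq G] (hS : AsdimAct G S) (K : Finset G) :
    ∃ F : ℕ → Finset G, FSeq G S F ∧ K ⊆ F 0 := by
  choose kk hkk using hS
  let st : Finset G → Finset G := fun F => F * F ∪ (kk F ∪ (kk F)⁻¹)
  let F : ℕ → Finset G := fun n => st^[n] (K ∪ K⁻¹ ∪ {1})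
  have hsucc : ∀ n, F (n + 1) = st (F n) := fun n => Function.iterate_succ_apply' st n _
  have hone : ∀ n, 1 ∈ F n := by
    intro n
    induction n with
    | zero =>
      change (1 : G) ∈ K ∪ K⁻¹ ∪ {1}
      simp
    | succ n ih =>
      rw [hsucc]
      refine Finset.mem_union_left _ ?_
      have h1 := Finset.mul_mem_mul ih ih
      rwa [mul_one] at h1
  have hinv : ∀ n, ∀ g ∈ F n, g⁻¹ ∈ F n := by
    intro n
    induction n with
    | zero =>
      intro g hg
      change g ∈ K ∪ K⁻¹ ∪ {1} at hg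
      change g⁻¹ ∈ K ∪ K⁻¹ ∪ {1}
      rw [Finset.mem_union, Finset.mem_union, Finset.mem_inv', Finset.mem_singleton] at hg ⊢
      rw [inv_inv, inv_eq_one]
      tauto
    | succ n ih =>
      intro g hg
      rw [hsucc] at hg ⊢
      change g ∈ F n * F n ∪ (kk (F n) ∪ (kk (F n))⁻¹) at hg
      change g⁻¹ ∈ F n * F n ∪ (kk (F n) ∪ (kk (F n))⁻¹)
      rw [Finset.mem_union, Finset.mem_union, Finset.mem_inv'] at hg ⊢
      rw [inv_inv]
      rcases hg with hg | hg | hg
      · obtain ⟨x, hx, y, hy, rfl⟩ := Finset.mem_mul.1 hg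
        refine Or.inl ?_
        rw [mul_inv_rev]
        exact Finset.mul_mem_mul (ih y hy) (ih x hx)
      · exact Or.inr (Or.inr hg)
      · exact Or.inr (Or.inl hg)
  refine ⟨F, ⟨hone, hinv, fun n => ?_, fun n => ?_⟩, ?_⟩
  · rw [hsucc]
    exact Finset.subset_union_left
  · obtain ⟨c, h1, h2, h3⟩ := hkk (F n)
    refine ⟨n + 1, c, h1, fun U hU s hs t ht => ?_, h3⟩
    obtain ⟨g, hg, h4⟩ := h2 U hU s hs t ht
    refine ⟨g, ?_, h4⟩
    rw [hsucc]
    exact Finset.mem_union_right _ (Finset.mem_union_left _ hg)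
  · intro k hk
    change k ∈ K ∪ K⁻¹ ∪ {1}
    simp [hk]

variable [DecidableEq G] {F : ℕ → Finset G}

/-- The relations. -/
def EF (S : Type) [MulAction G S] (F : ℕ → Finset G) (n : ℕ) (s t : S) : Prop :=
  ∃ g ∈ F n, g • s = t

omit [DecidableEq G] in
theorem FSeq.ent [DecidableEq G] (hF : FSeq G S F) : Ent (EF S F) where
  refl n s := ⟨1, hF.one n, one_smul _ _⟩
  symm := by
    rintro n s t ⟨g, hg, h⟩
    refine ⟨g⁻¹, hF.inv n g hg, ?_⟩
    rw [inv_smul_eq_iff, h]
  comp := by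
    rintro n s t u ⟨g, hg, h⟩ ⟨g', hg', h'⟩
    exact ⟨g' * g, hF.mul n (Finset.mul_mem_mul hg' hg), by rw [mul_smul, h, h']⟩

theorem FSeq.bddGeom (hF : FSeq G S F) :
    @BddGeom (ES (EF S F)) hF.ent.space := by
  classical
  let _ := hF.ent.space
  intro r
  refine ⟨(F r).card, fun s => ?_⟩
  let I : Finset S := (F r).image fun g => g • (show S from s)
  have h1 : {t : ES (EF S F) | edist s t ≤ r} ⊆ (show Set (ES (EF S F)) from (I : Set S)) := by
    intro t ht
    have h2 : eE (EF S F) s t ≤ (r + 1 : ℕ) :=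
      (show eE (EF S F) s t ≤ r from ht).trans (by exact_mod_cast Nat.le_succ r)
    obtain ⟨g, hg, h3⟩ := (eE_le hF.ent r s t).1 h2
    exact Finset.mem_coe.2 (Finset.mem_image.2 ⟨g, hg, h3⟩)
  have h2 : (I : Set S).encard ≤ (F r).card := by
    rw [Set.encard_coe_eq_coe_finsetCard]
    exact_mod_cast Finset.card_image_le
  exact (Set.encard_le_encard h1).trans h2

theorem FSeq.asdim (hF : FSeq G S F) :
    @AsdimLeOne (ES (EF S F)) hF.ent.space := by
  let _ := hF.ent.space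
  intro r
  obtain ⟨m, c, h1, h2, h3⟩ := hF.cov r
  refine ⟨m + 1, c, h1, fun U hU s hs t ht => ?_, fun s => ?_⟩
  · exact (eE_le hF.ent m s t).2 (h2 U hU s hs t ht)
  · refine (Set.encard_le_encard ?_).trans (h3 s)
    rintro U ⟨hU, t, ht, h4⟩
    have h5 : eE (EF S F) s t ≤ (r + 1 : ℕ) :=
      (show eE (EF S F) s t ≤ r from h4).trans (by exact_mod_cast Nat.le_succ r)
    obtain ⟨g, hg, h6⟩ := (eE_le hF.ent r s t).1 h5
    refine ⟨hU, g, hg, ?_⟩
    rw [h6]
    exact ht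

theorem FSeq.mem_WM (hF : FSeq G S F) (h : Equiv.Perm S) :
    h ∈ @WM (ES (EF S F)) hF.ent.space ↔ ∃ n, ∀ s, ∃ g ∈ F n, g • s = h s := by
  let _ := hF.ent.space
  constructor
  · rintro ⟨N, hN⟩
    refine ⟨N, fun s => ?_⟩
    have h5 : eE (EF S F) s (h s) ≤ (N + 1 : ℕ) :=
      (show eE (EF S F) s (h s) ≤ N from hN s).trans (by exact_mod_cast Nat.le_succ N)
    exact (eE_le hF.ent N s (h s)).1 h5
  · rintro ⟨n, hn⟩
    exact ⟨n + 1, fun s => (eE_le hF.ent n s (h s)).2 (hn s)⟩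

theorem FSeq.paradox (hF : FSeq G S F) {U : Set S}
    (h : @ParM (ES (EF S F)) hF.ent.space U) : Paradox G U := by
  let _ := hF.ent.space
  obtain ⟨N, a, b, h1, h2, h3, h4, h5, h6⟩ := h
  have key : ∀ s t : S, edist (show ES (EF S F) from s) t ≤ N → ∃ g ∈ F N, g • s = t := by
    intro s t h7
    have h8 : eE (EF S F) s t ≤ (N + 1 : ℕ) :=
      (show eE (EF S F) s t ≤ N from h7).trans (by exact_mod_cast Nat.le_succ N)
    exact (eE_le hF.ent N s t).1 h8
  refine ⟨F N, fun i => cond i a b, ?_, ?_⟩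
  · rintro (_ | _) x hx
    · exact ⟨h2 hx, key _ _ (h6 x hx).2⟩
    · exact ⟨h1 hx, key _ _ (h6 x hx).1⟩
  · rintro (_ | _) (_ | _) x hx y hy h
    · exact ⟨rfl, h4 hx hy h⟩
    · exact absurd h.symm (fun h => Set.disjoint_left.1 h5 ⟨y, hy, rfl⟩ ⟨x, hx, h.symm⟩)
    · exact absurd h (fun h => Set.disjoint_left.1 h5 ⟨x, hx, rfl⟩ ⟨y, hy, h.symm⟩)
    · exact ⟨rfl, h3 hx hy h⟩

theorem FSeq.parM (hF : FSeq G S F) {U : Set S} {K : Finset G} (hK : K ⊆ F 0)
    {a : Bool → S → S} (h1 : ∀ i, ∀ x ∈ U, a i x ∈ U ∧ ∃ g ∈ K, g • x = a i x)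
    (h2 : ∀ i j, ∀ x ∈ U, ∀ y ∈ U, a i x = a j y → i = j ∧ x = y) :
    @ParM (ES (EF S F)) hF.ent.space U := by
  let _ := hF.ent.space
  refine ⟨1, a true, a false, fun x hx => (h1 true x hx).1, fun x hx => (h1 false x hx).1,
    fun x hx y hy h => (h2 true true x hx y hy h).2,
    fun x hx y hy h => (h2 false false x hx y hy h).2, ?_, fun x hx => ?_⟩
  · rw [Set.disjoint_left]
    rintro _ ⟨x, hx, rfl⟩ ⟨y, hy, h⟩
    exact absurd (h2 false true y hy x hx h).1 (by decide)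
  · have h3 : ∀ i, edist (show ES (EF S F) from x) (a i x) ≤ (1 : ℕ) := by
      intro i
      obtain ⟨g, hg, h4⟩ := (h1 i x hx).2
      have h5 := (eE_le hF.ent 0 x (a i x)).2 ⟨g, hK hg, h4⟩
      rwa [zero_add] at h5
    exact ⟨h3 true, h3 false⟩

end act

/-! ### The theorem -/

section main

variable {G S : Type} [Group G] [MulAction G S]

/-- **Actions of asymptotic dimension at most one without paradoxical sets.** -/
theorem mem_Fl {C : ∀ (G : Type) [Group G], Prop} (hC : ExtClass C) (hS : AsdimAct G S)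
    (hU : ∀ U : Set S, U.Nonempty → ¬ Paradox G U) : C (Fl G S) := by
  classical
  refine hC.toClosedClass.ofClosure fun s => ?_
  have h1 : ∀ h : Fl G S, ∃ K : Finset G, ∀ x, ∃ g ∈ K, g • x = (h : Equiv.Perm S) x :=
    fun h => h.2
  choose kk hkk using h1
  obtain ⟨F, hF, hF0⟩ := exists_fSeq hS (s.biUnion kk)
  let _ := hF.ent.space
  have h2 : C (WM (ES (EF S F))) := mem_WM hC hF.bddGeom hF.asdim
    fun U hU' hp => hU U hU' (hF.paradox hp)
  let T : Subgroup (Fl G S) := (show Subgroup (Equiv.Perm S) from WM (ES (EF S F))).subgroupOf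
    (Fl G S)
  have h3 : Subgroup.closure (s : Set (Fl G S)) ≤ T := by
    rw [Subgroup.closure_le]
    intro h hh
    refine (hF.mem_WM _).2 ⟨0, fun x => ?_⟩
    obtain ⟨g, hg, h4⟩ := hkk h x
    exact ⟨g, hF0 (Finset.mem_biUnion.2 ⟨h, hh, hg⟩), h4⟩
  let φ : Subgroup.closure (s : Set (Fl G S)) →* WM (ES (EF S F)) :=
    { toFun := fun h => ⟨((h : Fl G S) : Equiv.Perm S), h3 h.2⟩
      map_one' := rfl
      map_mul' := fun _ _ => rfl }
  refine hC.toClosedClass.inj φ (fun h h' e => ?_) h2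
  have h4 : ((h : Fl G S) : Equiv.Perm S) = ((h' : Fl G S) : Equiv.Perm S) :=
    congrArg (fun x : WM (ES (EF S F)) => (x : Equiv.Perm (ES (EF S F)))) e
  exact Subtype.ext (Subtype.ext h4)

theorem not_paradox_of_noT (hS : AsdimAct G S) (h : NoT (Fl G S)) (U : Set S) (hU : U.Nonempty) :
    ¬ Paradox G U := by
  classical
  rintro ⟨K, a, h1, h2⟩
  obtain ⟨F, hF, hF0⟩ := exists_fSeq hS K
  let _ := hF.ent.space
  have h3 : @ParM (ES (EF S F)) hF.ent.space U := hF.parM hF0 h1 h2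
  obtain ⟨x, y, z, h4, h5, h6, h7, h8⟩ := exists_thom_WM (X := ES (EF S F)) hU h3
  have h9 : ∀ q ∈ WM (ES (EF S F)), q ∈ Fl G S := by
    intro q hq
    obtain ⟨n, hn⟩ := (hF.mem_WM q).1 hq
    exact ⟨F n, hn⟩
  exact h5 (noT_false h (h9 x h6) (h9 y h7) (h9 z h8) h4)

/-- **The dichotomy for actions of asymptotic dimension at most one.** -/
theorem act_dichotomy (hS : AsdimAct G S) :
    List.TFAE [∀ C : (∀ (G : Type) [Group G], Prop), ExtClass C → C (Fl G S),
      ∀ U : Set S, U.Nonempty → ¬ Paradox G U,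
      ∀ a b c : Fl G S, Thom a b c → a = 1 ∧ b = 1 ∧ c = 1,
      ∀ a b : Fl G S, ThF a b → a * b = b * a] := by
  tfae_have 1 → 4 := fun h => noF_of_forall h
  tfae_have 4 → 3 := fun h => noT_of_noF h
  tfae_have 3 → 2 := fun h U hU => not_paradox_of_noT hS h U hU
  tfae_have 2 → 1 := fun h C hC => mem_Fl hC hS h
  tfae_finish

end main

end Pool.Agent.ZT
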