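import Pool.Agent.ZT.Act1

/-!
# Actions over a space of asymptotic dimension at most one
-/

set_option autoImplicit false

namespace Pool.Agent.ZT

open Pool.Agent.Helper29.BA Pool.Agent.Helper29.PA

open scoped Pointwise

section ovr

variable {G S X : Type} [Group G] [MulAction G S]

/-- The graph on the points over a set. -/
def gU (K : Finset G) (ρ : S → X) (U : Set X) : SimpleGraph S :=
  SimpleGraph.fromRel fun a b => ρ a ∈ U ∧ ρ b ∈ U ∧ ∃ g ∈ K, g • a = b

variable {K : Finset G} {ρ : S → X} {U : Set X}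

theorem gU_adj (hK : ∀ g ∈ K, g⁻¹ ∈ K) {a b : S} (h : (gU K ρ U).Adj a b) :
    ρ a ∈ U ∧ ρ b ∈ U ∧ ∃ g ∈ K, g • a = b := by
  rcases ((SimpleGraph.fromRel_adj _ a b).1 h).2 with h1 | ⟨h1, h2, g, hg, h3⟩
  · exact h1
  · exact ⟨h2, h1, g⁻¹, hK g hg, by rw [inv_smul_eq_iff, h3]⟩

theorem gU_reachable {a b : S} (ha : ρ a ∈ U) (hb : ρ b ∈ U) {g : G} (hg : g ∈ K)
    (h : g • a = b) : (gU K ρ U).Reachable a b := by
  by_cases hab : a = b
  · rw [hab]
  · exact SimpleGraph.Adj.reachable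
      ((SimpleGraph.fromRel_adj _ a b).2 ⟨hab, Or.inl ⟨ha, hb, g, hg, h⟩⟩)

theorem gU_walk [DecidableEq G] (hK : ∀ g ∈ K, g⁻¹ ∈ K) {a b : S} (p : (gU K ρ U).Walk a b) :
    ∃ g ∈ K ^ p.length, g • a = b := by
  induction p with
  | nil => exact ⟨1, by simp, one_smul _ _⟩
  | cons h p ih =>
    obtain ⟨-, -, g, hg, h1⟩ := gU_adj hK h
    obtain ⟨g', hg', h2⟩ := ih
    refine ⟨g' * g, ?_, by rw [mul_smul, h1, h2]⟩
    rw [SimpleGraph.Walk.length_cons, pow_succ]
    exact Finset.mul_mem_mul hg' hg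

theorem gU_support (hK : ∀ g ∈ K, g⁻¹ ∈ K) {a b : S} (ha : ρ a ∈ U) (p : (gU K ρ U).Walk a b) :
    ∀ v ∈ p.support, v ∈ MulAction.orbit G a ∧ ρ v ∈ U := by
  induction p with
  | nil =>
    intro v hv
    rw [SimpleGraph.Walk.support_nil, List.mem_singleton] at hv
    rw [hv]
    exact ⟨MulAction.mem_orbit_self _, ha⟩
  | cons h p ih =>
    intro v hv
    rw [SimpleGraph.Walk.support_cons, List.mem_cons] at hv
    obtain ⟨-, h1, g, hg, h2⟩ := gU_adj hK h
    rcases hv with rfl | hv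
    · exact ⟨MulAction.mem_orbit_self _, ha⟩
    · obtain ⟨h3, h4⟩ := ih h1 v hv
      refine ⟨?_, h4⟩
      obtain ⟨g', hg'⟩ := h3
      exact ⟨g' * g, by
        change (g' * g) • _ = v
        rw [mul_smul, h2]
        exact hg'⟩

variable [PseudoEMetricSpace X]

/-- **Actions over spaces of asymptotic dimension at most one.** -/
theorem asdimAct_of_over (hX : BddGeom X) (hX' : AsdimLeOne X) (ρ : S → X) (k : ℕ)
    (hk : ∀ (s : S) (v : X), {t ∈ MulAction.orbit G s | ρ t = v}.encard ≤ k)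
    (hG : ∀ g : G, ∃ N : ℕ, ∀ s : S, edist (ρ s) (ρ (g • s)) ≤ N) : AsdimAct G S := by
  classical
  intro K
  choose f hf using hG
  let N : ℕ := K.sup f
  have hN : ∀ g ∈ K, ∀ s, edist (ρ s) (ρ (g • s)) ≤ N := by
    intro g hg s
    refine (hf g s).trans ?_
    exact_mod_cast Finset.le_sup (f := f) hg
  obtain ⟨D, c, h1, h2, h3⟩ := hX' N
  obtain ⟨M, hM⟩ := bddGeom_pb (G := G) (ρ := ρ) hX k hk D
  let K₁ : Finset G := insert 1 (K * K⁻¹)
  have hK₁ : ∀ g ∈ K₁, g⁻¹ ∈ K₁ := by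
    intro g hg
    rcases Finset.mem_insert.1 hg with rfl | hg
    · rw [inv_one]
      exact hg
    · obtain ⟨x, hx, y, hy, rfl⟩ := Finset.mem_mul.1 hg
      refine Finset.mem_insert_of_mem ?_
      rw [mul_inv_rev]
      exact Finset.mul_mem_mul (Finset.mem_inv'.1 hy) (Finset.inv_mem_inv hx)
  have hK₁' : (1 : G) ∈ K₁ := Finset.mem_insert_self _ _
  let V : Set X → S → Set S := fun U s => {t | (gU K₁ ρ U).Reachable s t}
  refine ⟨K₁ ^ M, {W | ∃ U ∈ c, ∃ s, ρ s ∈ U ∧ W = V U s}, ?_, ?_, ?_⟩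
  · intro s
    obtain ⟨U, hU, hs⟩ := h1 (ρ s)
    exact ⟨V U s, ⟨U, hU, s, hs, rfl⟩, SimpleGraph.Reachable.refl s⟩
  · rintro W ⟨U, hU, s₀, hs₀, rfl⟩ s hs t ht
    have hst : (gU K₁ ρ U).Reachable s t :=
      (show (gU K₁ ρ U).Reachable s₀ s from hs).symm.trans ht
    have hs' : ρ s ∈ U := by
      obtain ⟨p⟩ := (show (gU K₁ ρ U).Reachable s₀ s from hs)
      exact (gU_support hK₁ hs₀ p s p.end_mem_support).2
    obtain ⟨p, hp⟩ := hst.exists_isPath
    obtain ⟨g, hg, h4⟩ := gU_walk hK₁ p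
    refine ⟨g, ?_, h4⟩
    have h5 : p.length ≤ M := by
      have h6 : ((p.support.toFinset : Finset S) : Set S).encard ≤ M := by
        refine le_trans (Set.encard_le_encard ?_) (hM s)
        intro v hv
        have h7 : v ∈ p.support := by simpa using hv
        obtain ⟨h8, h9⟩ := gU_support hK₁ hs' p v h7
        exact (edist_pb_le (G := G) (ρ := ρ) (s := s) (t := v) (ENNReal.natCast_ne_top D)).2
          ⟨h8, h2 U hU _ hs' _ h9⟩
      rw [Set.encard_coe_eq_coe_finsetCard, List.toFinset_card_of_nodup hp.support_nodup,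
        SimpleGraph.Walk.length_support, Nat.cast_le] at h6
      omega
    exact Finset.pow_subset_pow_right hK₁' h5 hg
  · intro s
    let d : Set S → Set X := fun W => if h : ∃ U ∈ c, ∃ s, ρ s ∈ U ∧ W = V U s then h.choose else ∅
    have hd : ∀ W, (∃ U ∈ c, ∃ s, ρ s ∈ U ∧ W = V U s) →
        d W ∈ c ∧ ∃ s, ρ s ∈ d W ∧ W = V (d W) s := by
      intro W hW
      have h4 : d W = hW.choose := dif_pos hW
      rw [h4]
      exact hW.choose_spec
    refine le_trans ?_ (h3 (ρ s))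
    refine Set.encard_le_encard_of_injOn (f := d) ?_ ?_
    · rintro W ⟨hW, g, hg, hgs⟩
      obtain ⟨h4, s₀, h5, h6⟩ := hd W hW
      refine ⟨h4, ρ (g • s), ?_, hN g hg s⟩
      rw [h6] at hgs
      obtain ⟨p⟩ := (show (gU K₁ ρ (d W)).Reachable s₀ (g • s) from hgs)
      exact (gU_support hK₁ h5 p _ p.end_mem_support).2
    · rintro W ⟨hW, g, hg, hgs⟩ W' ⟨hW', g', hg', hgs'⟩ he
      obtain ⟨h4, s₀, h5, h6⟩ := hd W hW
      obtain ⟨h4', s₀', h5', h6'⟩ := hd W' hW'
      rw [← he] at h5' h6'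
      rw [h6] at hgs
      rw [h6'] at hgs'
      have h7 : (gU K₁ ρ (d W)).Reachable s₀ (g • s) := hgs
      have h8 : (gU K₁ ρ (d W)).Reachable s₀' (g' • s) := hgs'
      have h9 : ρ (g • s) ∈ d W := by
        obtain ⟨p⟩ := h7
        exact (gU_support hK₁ h5 p _ p.end_mem_support).2
      have h10 : ρ (g' • s) ∈ d W := by
        obtain ⟨p⟩ := h8
        exact (gU_support hK₁ h5' p _ p.end_mem_support).2
      have h11 : (gU K₁ ρ (d W)).Reachable (g • s) (g' • s) := by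
        refine gU_reachable h9 h10 (g := g' * g⁻¹)
          (Finset.mem_insert_of_mem (Finset.mul_mem_mul hg' (Finset.inv_mem_inv hg))) ?_
        rw [mul_smul, inv_smul_smul]
      rw [h6, h6']
      ext t
      exact ⟨fun h => h8.trans (h11.symm.trans (h7.symm.trans h)),
        fun h => h7.trans (h11.trans (h8.symm.trans h))⟩

/-- **The dichotomy for actions over a space of asymptotic dimension at most one.** -/
theorem over_dichotomy (hX : BddGeom X) (hX' : AsdimLeOne X) (ρ : S → X) (k : ℕ)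
    (hk : ∀ (s : S) (v : X), {t ∈ MulAction.orbit G s | ρ t = v}.encard ≤ k)
    (hG : ∀ g : G, ∃ N : ℕ, ∀ s : S, edist (ρ s) (ρ (g • s)) ≤ N) :
    List.TFAE [∀ C : (∀ (G : Type) [Group G], Prop), ExtClass C → C (Fl G S),
      ∀ U : Set S, U.Nonempty → ¬ Paradox G U,
      ∀ a b c : Fl G S, Thom a b c → a = 1 ∧ b = 1 ∧ c = 1,
      ∀ a b : Fl G S, ThF a b → a * b = b * a] :=
  act_dichotomy (asdimAct_of_over hX hX' ρ k hk hG)

/-- Groups acting over a space of asymptotic dimension at most one without paradoxical sets for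
the group. -/
theorem mem_of_over {C : ∀ (G : Type) [Group G], Prop} (hC : ExtClass C) (hS : AsdimAct G S)
    [FaithfulSMul G S] (hU : ∀ U : Set S, U.Nonempty → ¬ Paradox G U) : C G := by
  let φ : G →* Fl G S :=
    { toFun := fun g => ⟨MulAction.toPerm g, {g}, fun s => ⟨g, by simp, rfl⟩⟩
      map_one' := Subtype.ext (Equiv.ext fun s => one_smul G s)
      map_mul' := fun g h => Subtype.ext (Equiv.ext fun s => mul_smul g h s) }
  refine hC.toClosedClass.inj φ (fun g h e => ?_) (mem_Fl hC hS hU)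
  refine FaithfulSMul.eq_of_smul_eq_smul (α := S) fun s => ?_
  have h1 : ((φ g : Fl G S) : Equiv.Perm S) s = ((φ h : Fl G S) : Equiv.Perm S) s := by rw [e]
  exact h1

end ovr

end Pool.Agent.ZT
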