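import Pool.Agent.ZT.Act2

/-!
# Actions over spaces without paradoxical sets
-/

set_option autoImplicit false

namespace Pool.Agent.ZT

open Pool.Agent.Helper29.BA Pool.Agent.Helper29.PA

variable {G S X : Type} [Group G] [MulAction G S] [PseudoEMetricSpace X]

/-- Paradoxical sets of an action over `X` give paradoxical sets of `X`. -/
theorem exists_parM_of_over (hX : BddGeom X) (ρ : S → X) (k : ℕ)
    (hk : ∀ (s : S) (v : X), {t ∈ MulAction.orbit G s | ρ t = v}.encard ≤ k)
    (hG : ∀ g : G, ∃ N : ℕ, ∀ s : S, edist (ρ s) (ρ (g • s)) ≤ N) {V : Set S} (hV : V.Nonempty)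
    (hp : Paradox G V) : ∃ U : Set X, U.Nonempty ∧ ParM U := by
  classical
  obtain ⟨K, a, h1, h2⟩ := hp
  choose f hf using hG
  let N : ℕ := K.sup f
  have hN : ∀ i, ∀ x ∈ V, edist (toPb G ρ x) (toPb G ρ (a i x)) ≤ (N : ENNReal) := by
    intro i x hx
    obtain ⟨-, g, hg, hgx⟩ := h1 i x hx
    rw [edist_pb_le (ENNReal.natCast_ne_top N), ← hgx]
    refine ⟨MulAction.mem_orbit _ _, (hf g x).trans ?_⟩
    exact_mod_cast Finset.le_sup (f := f) hg
  refine parM_of_pb (G := G) (ρ := ρ) hX hk (U := (V : Set (Pb G ρ))) hV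
    ⟨N, a true, a false, fun x hx => (h1 true x hx).1, fun x hx => (h1 false x hx).1,
      fun x hx y hy h => (h2 true true x hx y hy h).2,
      fun x hx y hy h => (h2 false false x hx y hy h).2, ?_, fun u hu => ⟨hN true u hu, hN false u hu⟩⟩
  rw [Set.disjoint_left]
  rintro _ ⟨x, hx, rfl⟩ ⟨y, hy, h⟩
  exact absurd (h2 false true y hy x hx h).1 (by decide)

end Pool.Agent.ZT
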