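import Mathlib

/-!
# Permutations of bounded displacement and asymptotic dimension
-/

set_option autoImplicit false

namespace Pool.Agent.ZT

/-- The permutations of bounded displacement. -/
def WM (X : Type) [PseudoEMetricSpace X] : Subgroup (Equiv.Perm X) where
  carrier := {g | ∃ N : ℕ, ∀ x, edist x (g x) ≤ N}
  one_mem' := ⟨0, fun x => by simp⟩
  mul_mem' := by
    rintro a b ⟨N, h⟩ ⟨M, h'⟩
    refine ⟨M + N, fun x => ?_⟩
    refine (edist_triangle x (b x) (a (b x))).trans ?_
    rw [Nat.cast_add]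
    exact add_le_add (h' x) (h (b x))
  inv_mem' := by
    rintro a ⟨N, h⟩
    refine ⟨N, fun x => ?_⟩
    have h1 := h (a⁻¹ x)
    have h2 : a (a⁻¹ x) = x := a.apply_symm_apply x
    rw [h2, edist_comm] at h1
    exact h1

/-- Bounded geometry: for every `r` the balls of radius `r` have a bounded number of points. -/
def BddGeom (X : Type) [PseudoEMetricSpace X] : Prop :=
  ∀ r : ℕ, ∃ n : ℕ, ∀ x : X, {y | edist x y ≤ r}.encard ≤ n

/-- Asymptotic dimension at most one: for every `r` there is a cover by sets of bounded diameter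
such that each ball of radius `r` meets at most two of them. -/
def AsdimLeOne (X : Type) [PseudoEMetricSpace X] : Prop :=
  ∀ r : ℕ, ∃ (D : ℕ) (c : Set (Set X)), (∀ x, ∃ U ∈ c, x ∈ U) ∧
    (∀ U ∈ c, ∀ x ∈ U, ∀ y ∈ U, edist x y ≤ D) ∧
    ∀ x, {U ∈ c | ∃ y ∈ U, edist x y ≤ r}.encard ≤ 2

/-- A paradoxical set: there are two injections of the set into itself with disjoint images and
with bounded displacement. -/
def ParM {X : Type} [PseudoEMetricSpace X] (U : Set X) : Prop :=
  ∃ (N : ℕ) (a b : X → X), Set.MapsTo a U U ∧ Set.MapsTo b U U ∧ Set.InjOn a U ∧ Set.InjOn b U ∧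
    Disjoint (a '' U) (b '' U) ∧ ∀ u ∈ U, edist u (a u) ≤ N ∧ edist u (b u) ≤ N

end Pool.Agent.ZT
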