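import Pool.Agent.ZT.Asd

/-!
# The metric of a graph
-/

set_option autoImplicit false

namespace Pool.Agent.ZT

open scoped ENNReal

variable {V : Type}

/-- The distance of a graph. -/
@[reducible] noncomputable def gMet (Γ : SimpleGraph V) : PseudoEMetricSpace V where
  edist u v := ((Γ.edist u v : ℕ∞) : ℝ≥0∞)
  edist_self u := by rw [SimpleGraph.edist_self]; simp
  edist_comm u v := by rw [SimpleGraph.edist_comm]
  edist_triangle u v w := by
    rw [← ENat.toENNReal_add]
    exact ENat.toENNReal_le.2 Γ.edist_triangle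

theorem gMet_le_iff (Γ : SimpleGraph V) (u v : V) (n : ℕ) :
    @edist V (gMet Γ).toEDist u v ≤ (n : ℝ≥0∞) ↔ Γ.edist u v ≤ n := by
  change ((Γ.edist u v : ℕ∞) : ℝ≥0∞) ≤ (n : ℝ≥0∞) ↔ _
  rw [← ENat.toENNReal_coe, ENat.toENNReal_le]

theorem gMet_le (Γ : SimpleGraph V) (u v : V) (n : ℕ) :
    @edist V (gMet Γ).toEDist u v ≤ (n : ℝ≥0∞) ↔ ∃ p : Γ.Walk u v, p.length ≤ n := by
  rw [gMet_le_iff]
  constructor
  · intro h
    have h1 : Γ.edist u v ≠ ⊤ := fun h2 => by
      rw [h2] at h
      exact absurd h (by simp)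
    obtain ⟨p, hp⟩ := SimpleGraph.exists_walk_of_edist_ne_top h1
    refine ⟨p, ?_⟩
    rw [← hp] at h
    exact_mod_cast h
  · rintro ⟨p, hp⟩
    exact (SimpleGraph.edist_le p).trans (by exact_mod_cast hp)

/-- Neighbours have distance at most one. -/
theorem gMet_adj {Γ : SimpleGraph V} {u v : V} (h : Γ.Adj u v) :
    @edist V (gMet Γ).toEDist u v ≤ ((1 : ℕ) : ℝ≥0∞) :=
  (gMet_le Γ u v 1).2 ⟨h.toWalk, le_rfl⟩

/-- The balls of radius `n` in a graph with degrees at most `d`. -/
theorem ball_encard (Γ : SimpleGraph V) (d : ℕ) (hd : ∀ u, {v | Γ.Adj u v}.encard ≤ d) (n : ℕ)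
    (u : V) : {v | ∃ p : Γ.Walk u v, p.length ≤ n}.encard ≤ ((d + 1) ^ n : ℕ) := by
  induction n generalizing u with
  | zero =>
    have h : {v | ∃ p : Γ.Walk u v, p.length ≤ 0} ⊆ {u} := by
      rintro v ⟨p, hp⟩
      cases p with
      | nil => rfl
      | cons h q => simp at hp
    exact (Set.encard_le_encard h).trans (by simp)
  | succ n ih =>
    classical
    have hfin : {v | Γ.Adj u v}.Finite := Set.finite_of_encard_le_coe (hd u)
    have hcard : (insert u hfin.toFinset).card ≤ d + 1 := by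
      refine (Finset.card_insert_le _ _).trans (Nat.succ_le_succ ?_)
      have h := hd u
      rw [hfin.encard_eq_coe_toFinset_card] at h
      exact_mod_cast h
    have hsub : {v | ∃ p : Γ.Walk u v, p.length ≤ n + 1} ⊆
        ⋃ w ∈ insert u hfin.toFinset, {v | ∃ p : Γ.Walk w v, p.length ≤ n} := by
      rintro v ⟨p, hp⟩
      cases p with
      | nil =>
        exact Set.mem_biUnion (x := u) (Finset.mem_coe.2 (Finset.mem_insert_self _ _))
          ⟨SimpleGraph.Walk.nil, by simp⟩
      | cons h q =>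
        rename_i w
        refine Set.mem_biUnion (x := w)
          (Finset.mem_coe.2 (Finset.mem_insert_of_mem (hfin.mem_toFinset.2 h))) ⟨q, ?_⟩
        simpa using hp
    refine (Set.encard_le_encard hsub).trans ((Finset.set_encard_biUnion_le _ _).trans ?_)
    refine (Finset.sum_le_card_nsmul _ _ _ fun w _ => ih w).trans ?_
    rw [nsmul_eq_mul, pow_succ']
    exact_mod_cast Nat.mul_le_mul_right _ hcard

theorem bddGeom_gMet (Γ : SimpleGraph V) (d : ℕ) (hd : ∀ u, {v | Γ.Adj u v}.encard ≤ d) :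
    @BddGeom V (gMet Γ) := by
  intro r
  refine ⟨(d + 1) ^ r, fun u => ?_⟩
  refine (Set.encard_le_encard fun v hv => ?_).trans (ball_encard Γ d hd r u)
  exact (gMet_le Γ u v r).1 hv

end Pool.Agent.ZT
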