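import Pool.Agent.ZT.RootGraph
import Pool.Agent.ZT.GMet

/-!
# Forests have asymptotic dimension at most one
-/

set_option autoImplicit false

namespace Pool.Agent.ZT

variable {V : Type} {Γ : SimpleGraph V}

/-- The parents and the depths of the vertices of a forest. -/
theorem exists_par (hΓ : Γ.IsAcyclic) :
    ∃ (par : V → V) (dep : V → ℕ), (∀ v, dep v ≠ 0 → Γ.Adj (par v) v ∧ dep (par v) + 1 = dep v) ∧
      ∀ u v, Γ.Adj u v → (dep u ≠ 0 ∧ par u = v) ∨ (dep v ≠ 0 ∧ par v = u) := by
  classical
  have h1 : ∀ c : Γ.ConnectedComponent, ∃ v, Γ.connectedComponentMk v = c := fun c => by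
    induction c using SimpleGraph.ConnectedComponent.ind with
    | h v => exact ⟨v, rfl⟩
  choose b hb using h1
  let β : V → V := fun v => b (Γ.connectedComponentMk v)
  have hβ : ∀ v, Γ.Reachable (β v) v := fun v => SimpleGraph.ConnectedComponent.exact (hb _)
  have hβ' : ∀ v w, Γ.Adj v w → β v = β w := by
    intro v w h
    change b _ = b _
    rw [SimpleGraph.ConnectedComponent.sound h.reachable]
  let dep : V → ℕ := fun v => Γ.dist (β v) v
  have hpar : ∀ v, ∃ w, dep v ≠ 0 → Γ.Adj w v ∧ dep w + 1 = dep v := by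
    intro v
    by_cases h0 : dep v = 0
    · exact ⟨v, fun h => absurd h0 h⟩
    obtain ⟨p, hp, hpl⟩ := (hβ v).exists_path_of_dist
    have hnil : ¬ p.Nil := by
      rw [SimpleGraph.Walk.not_nil_iff_lt_length, hpl]
      exact Nat.pos_of_ne_zero h0
    have hadj : Γ.Adj p.penultimate v := p.adj_penultimate hnil
    refine ⟨p.penultimate, fun _ => ⟨hadj, ?_⟩⟩
    change Γ.dist (β p.penultimate) p.penultimate + 1 = Γ.dist (β v) v
    rw [hβ' _ _ hadj]
    have h2 := Γ.dist_le p.dropLast
    have h3 : p.dropLast.length + 1 = p.length := p.length_dropLast_add_one hnil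
    have h4 := hΓ.dist_eq_dist_add_one_of_adj_of_reachable (β v) hadj.symm (hβ v)
    omega
  choose par hpar using hpar
  refine ⟨par, dep, hpar, fun u v huv => ?_⟩
  have h2 := hΓ.dist_eq_dist_add_one_of_adj_of_reachable (β u) huv (hβ u)
  have hβuv := hβ' _ _ huv
  have hdv : dep v = Γ.dist (β u) v := by
    change Γ.dist (β v) v = _
    rw [hβuv]
  have hdu : dep u = Γ.dist (β u) u := rfl
  rcases h2 with h2 | h2
  · left
    have h3 : dep u ≠ 0 := by omega
    refine ⟨h3, ?_⟩
    have h4 := hpar u h3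
    refine unique_closer hΓ h4.1 huv.symm (hβ u) ?_ h2.symm
    have h5 := h4.2
    change Γ.dist (β (par u)) (par u) + 1 = Γ.dist (β u) u at h5
    rwa [hβ' _ _ h4.1] at h5
  · right
    have h3 : dep v ≠ 0 := by omega
    refine ⟨h3, ?_⟩
    have h4 := hpar v h3
    refine unique_closer hΓ (b := β v) h4.1 huv (hβ v) ?_ ?_
    · have h5 := h4.2
      change Γ.dist (β (par v)) (par v) + 1 = Γ.dist (β v) v at h5
      rwa [hβ' _ _ h4.1] at h5
    · rw [← hβuv]
      exact h2.symm

/-- Forests have asymptotic dimension at most one. -/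
theorem forest_cover (hΓ : Γ.IsAcyclic) (r : ℕ) :
    ∃ (D : ℕ) (c : Set (Set V)), (∀ x, ∃ U ∈ c, x ∈ U) ∧
      (∀ U ∈ c, ∀ x ∈ U, ∀ y ∈ U, ∃ p : Γ.Walk x y, p.length ≤ D) ∧
      ∀ x, {U ∈ c | ∃ y ∈ U, ∃ p : Γ.Walk x y, p.length ≤ r}.encard ≤ 2 := by
  classical
  obtain ⟨par, dep, hpar, hadj⟩ := exists_par hΓ
  -- the ancestor at depth `j`
  let anc : ℕ → V → V := fun j v => par^[dep v - j] v
  have hanc : ∀ j u v, Γ.Adj u v → j ≤ dep u → j ≤ dep v → anc j u = anc j v := by
    have key : ∀ j u v, dep u ≠ 0 → par u = v → j ≤ dep v → anc j u = anc j v := by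
      rintro j u v h0 rfl h1
      have h2 := (hpar u h0).2
      change par^[dep u - j] u = par^[dep (par u) - j] (par u)
      rw [← Function.iterate_succ_apply]
      congr 1
      omega
    intro j u v huv h1 h2
    rcases hadj u v huv with ⟨h0, h3⟩ | ⟨h0, h3⟩
    · exact key j u v h0 h3 h2
    · exact (key j v u h0 h3 h1).symm
  -- depths along walks
  have hdep : ∀ u v, Γ.Adj u v → dep u ≤ dep v + 1 ∧ dep v ≤ dep u + 1 := by
    intro u v huv
    rcases hadj u v huv with ⟨h0, rfl⟩ | ⟨h0, rfl⟩
    · have := (hpar u h0).2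
      omega
    · have := (hpar v h0).2
      omega
  have hdw : ∀ u v (p : Γ.Walk u v), dep u ≤ dep v + p.length ∧ dep v ≤ dep u + p.length := by
    intro u v p
    induction p with
    | nil => simp
    | cons h q ih =>
      have := hdep _ _ h
      rw [SimpleGraph.Walk.length_cons]
      omega
  have haw : ∀ j u v (p : Γ.Walk u v), j + p.length ≤ dep v → anc j u = anc j v := by
    intro j u v p
    induction p with
    | nil => intro _; rfl
    | cons h q ih =>
      intro h1
      rw [SimpleGraph.Walk.length_cons] at h1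
      have h2 := (hdw _ _ q).2
      have h3 := hdep _ _ h
      rw [hanc j _ _ h (by omega) (by omega)]
      exact ih (by omega)
  -- walks to the ancestors
  have hwa : ∀ n v, n ≤ dep v → ∃ p : Γ.Walk v (par^[n] v), p.length ≤ n := by
    intro n
    induction n with
    | zero => exact fun v _ => ⟨SimpleGraph.Walk.nil, le_refl _⟩
    | succ n ih =>
      intro v hv
      have h0 : dep v ≠ 0 := by omega
      obtain ⟨h1, h2⟩ := hpar v h0
      obtain ⟨p, hp⟩ := ih (par v) (by omega)
      rw [Function.iterate_succ_apply]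
      exact ⟨SimpleGraph.Walk.cons h1.symm p, by rw [SimpleGraph.Walk.length_cons]; omega⟩
  set R := 2 * r + 1 with hR
  let U : ℕ → V → Set V := fun k a => {y | dep y / R = k ∧ anc (k * R - r) y = a}
  refine ⟨2 * (R + r), {s | ∃ k a, s = U k a}, ?_, ?_, ?_⟩
  · intro x
    exact ⟨U (dep x / R) (anc (dep x / R * R - r) x), ⟨_, _, rfl⟩, rfl, rfl⟩
  · rintro _ ⟨k, a, rfl⟩ x ⟨hx1, hx2⟩ y ⟨hy1, hy2⟩
    have hRpos : 0 < R := by omega
    have hbd : ∀ z, dep z / R = k → dep z - (k * R - r) ≤ R + r := by
      intro z hz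
      have h1 : dep z < (k + 1) * R := by
        rw [← Nat.div_lt_iff_lt_mul hRpos]
        omega
      rw [Nat.add_mul, one_mul] at h1
      omega
    have hw : ∀ z, dep z / R = k → anc (k * R - r) z = a →
        ∃ p : Γ.Walk z a, p.length ≤ R + r := by
      intro z hz1 hz2
      obtain ⟨p, hp⟩ := hwa (dep z - (k * R - r)) z (Nat.sub_le _ _)
      change par^[dep z - (k * R - r)] z = a at hz2
      rw [← hz2]
      exact ⟨p, hp.trans (hbd z hz1)⟩
    obtain ⟨p, hp⟩ := hw x hx1 hx2
    obtain ⟨q, hq⟩ := hw y hy1 hy2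
    refine ⟨p.append q.reverse, ?_⟩
    rw [SimpleGraph.Walk.length_append, SimpleGraph.Walk.length_reverse]
    omega
  · intro x
    have hRpos : 0 < R := by omega
    have hsub : {s ∈ {s | ∃ k a, s = U k a} | ∃ y ∈ s, ∃ p : Γ.Walk x y, p.length ≤ r} ⊆
        {U ((dep x - r) / R) (anc ((dep x - r) / R * R - r) x),
          U ((dep x - r) / R + 1) (anc (((dep x - r) / R + 1) * R - r) x)} := by
      rintro s ⟨⟨k, a, rfl⟩, y, ⟨hy1, hy2⟩, p, hp⟩
      have h1 := hdw _ _ p
      have h2 : dep y < (k + 1) * R := by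
        rw [← Nat.div_lt_iff_lt_mul hRpos]
        omega
      have h3 : k * R ≤ dep y := by
        rw [← hy1]
        exact Nat.div_mul_le_self _ _
      have h4 : a = anc (k * R - r) x := by
        rw [← hy2]
        rcases Nat.lt_or_ge (k * R) r with h5 | h5
        · -- the depth of the ancestor is zero
          have h6 : k * R - r = 0 := by omega
          have hz : ∀ u v (q : Γ.Walk u v), anc 0 u = anc 0 v := by
            intro u v q
            induction q with
            | nil => rfl
            | cons h q ih => rw [hanc 0 _ _ h (Nat.zero_le _) (Nat.zero_le _)]; exact ih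
          rw [h6]
          exact (hz _ _ p).symm
        · exact (haw _ _ _ p (by omega)).symm
      have h5 : k = (dep x - r) / R ∨ k = (dep x - r) / R + 1 := by
        have h6 : (dep x - r) / R ≤ k := by
          rw [← hy1]
          exact Nat.div_le_div_right (by omega)
        have h7 : k ≤ (dep x - r) / R + 1 := by
          rw [← hy1, ← Nat.add_div_right _ hRpos]
          exact Nat.div_le_div_right (by omega)
        omega
      rw [h4]
      rcases h5 with h5 | h5
      · left
        rw [h5]
      · right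
        rw [h5]
        rfl
    exact (Set.encard_le_encard hsub).trans (Set.encard_insert_le _ _ |>.trans (by
      rw [Set.encard_singleton]; norm_num))

/-- Forests have asymptotic dimension at most one. -/
theorem asdim_forest (hΓ : Γ.IsAcyclic) : @AsdimLeOne V (gMet Γ) := by
  intro r
  obtain ⟨D, c, h1, h2, h3⟩ := forest_cover hΓ r
  refine ⟨D, c, h1, fun U hU x hx y hy => (gMet_le Γ x y D).2 (h2 U hU x hx y hy), fun x => ?_⟩
  refine (Set.encard_le_encard ?_).trans (h3 x)
  rintro U ⟨hU, y, hy, hxy⟩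
  exact ⟨hU, y, hy, (gMet_le Γ x y r).1 hxy⟩

end Pool.Agent.ZT
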