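import Pool.Agent.Helper29.BA.Defs

/-!
# Colimits of sequences
-/

set_option autoImplicit false

namespace Pool.Agent.ZT

open Pool.Agent.Helper29.BA

/-- Colimits of sequences of groups. -/
theorem mem_of_seq {C : ∀ (G : Type) [Group G], Prop} (hC : ClosedClass C) (G : ℕ → Type)
    [∀ n, Group (G n)] (f : ∀ n, G n →* G (n + 1)) (L : Type) [Group L] (g : ∀ n, G n →* L)
    (hg : ∀ n x, g (n + 1) (f n x) = g n x) (onto : ∀ y, ∃ n x, g n x = y)
    (it : ∀ n k, G n →* G (n + k)) (it0 : ∀ n x, it n 0 x = x)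
    (itS : ∀ n k x, it n (k + 1) x = f (n + k) (it n k x))
    (ker : ∀ n x, g n x = 1 → ∃ k, it n k x = 1) (h : ∀ n, C (G n)) : C L := by
  let fm : ∀ i j, i ≤ j → G i →* G j := fun i j hij =>
    Nat.leRecOn (C := fun k => G i →* G k) hij (fun {k} φ => (f k).comp φ) (MonoidHom.id (G i))
  have fm_self : ∀ i x, fm i i le_rfl x = x := by
    intro i x
    change Nat.leRecOn (C := fun k => G i →* G k) le_rfl (fun {k} φ => (f k).comp φ)
      (MonoidHom.id (G i)) x = x
    rw [Nat.leRecOn_self]
    rfl
  have fm_succ : ∀ i j (hij : i ≤ j) x, fm i (j + 1) (hij.trans (Nat.le_succ j)) x =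
      f j (fm i j hij x) := by
    intro i j hij x
    change Nat.leRecOn (C := fun k => G i →* G k) _ (fun {k} φ => (f k).comp φ)
      (MonoidHom.id (G i)) x = _
    rw [Nat.leRecOn_succ hij]
    rfl
  have fm_trans : ∀ i j k (hij : i ≤ j) (hjk : j ≤ k) x,
      fm j k hjk (fm i j hij x) = fm i k (hij.trans hjk) x := by
    intro i j k hij hjk x
    induction k, hjk using Nat.le_induction with
    | base => rw [fm_self]
    | succ k hjk ih => rw [fm_succ j k hjk, ih, fm_succ i k (hij.trans hjk)]
  have fm_g : ∀ i j (hij : i ≤ j) x, g j (fm i j hij x) = g i x := by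
    intro i j hij x
    induction j, hij using Nat.le_induction with
    | base => rw [fm_self]
    | succ j hij ih => rw [fm_succ i j hij, hg, ih]
  have fm_it : ∀ n k x, fm n (n + k) (Nat.le_add_right n k) x = it n k x := by
    intro n k x
    induction k with
    | zero => exact (fm_self n x).trans (it0 n x).symm
    | succ k ih =>
      rw [itS, ← ih]
      exact fm_succ n (n + k) (Nat.le_add_right n k) x
  refine hC.colimit ℕ G fm fm_trans L g fm_g onto (fun i y hy => ?_) h
  obtain ⟨k, hk⟩ := ker i y hy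
  exact ⟨i + k, Nat.le_add_right i k, (fm_it i k y).trans hk⟩

end Pool.Agent.ZT
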