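import Mathlib

/-!
# Rooted forests

A rooted forest with children numbered by `Fin d`: the parent `par v`, the depth `dep v` and the
number `ci v` of `v` among the children of its parent. The involution `sw (i, b)` exchanges `v`
and its parent, for all `v` with number `i` and depth of parity `b`. So there is a canonical
element `f v` of the free group on these involutions with `f v • root = v`.
-/

set_option autoImplicit false

namespace Pool.Agent.ZT

/-- Rooted forests with numbered children. -/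
structure RForest (V : Type) (d : ℕ) where
  /-- the parent -/
  par : V → V
  /-- the depth -/
  dep : V → ℕ
  /-- the number of the vertex -/
  ci : V → Fin d
  dep_par : ∀ v, dep v ≠ 0 → dep (par v) + 1 = dep v
  inj : ∀ u v, dep u ≠ 0 → dep v ≠ 0 → par u = par v → ci u = ci v → u = v

namespace RForest

variable {V : Type} {d : ℕ} (T : RForest V d)

/-- The letters. -/
abbrev Lab (d : ℕ) : Type := Fin d × Bool

/-- The letter of the edge from `v` to its parent. -/
def lb (v : V) : Lab d := (T.ci v, (T.dep v).bodd)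

theorem dep_bodd {v : V} (h : T.dep v ≠ 0) : (T.dep (T.par v)).bodd = !(T.dep v).bodd := by
  rw [← T.dep_par v h, Nat.bodd_succ, Bool.not_not]

open Classical in
/-- The involution, as a function. -/
noncomputable def swf (x : Lab d) (v : V) : V :=
  if T.dep v ≠ 0 ∧ T.lb v = x then T.par v
  else if h : ∃ u, T.dep u ≠ 0 ∧ T.lb u = x ∧ T.par u = v then h.choose else v

theorem swf_up {v : V} (h : T.dep v ≠ 0) : T.swf (T.lb v) v = T.par v := by
  unfold swf
  rw [if_pos ⟨h, rfl⟩]

theorem swf_down {u : V} (h : T.dep u ≠ 0) : T.swf (T.lb u) (T.par u) = u := by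
  have h1 : ¬ (T.dep (T.par u) ≠ 0 ∧ T.lb (T.par u) = T.lb u) := by
    rintro ⟨-, h2⟩
    have h3 : (T.dep (T.par u)).bodd = (T.dep u).bodd := congrArg Prod.snd h2
    rw [T.dep_bodd h] at h3
    cases (T.dep u).bodd <;> simp at h3
  have h2 : ∃ w, T.dep w ≠ 0 ∧ T.lb w = T.lb u ∧ T.par w = T.par u := ⟨u, h, rfl, rfl⟩
  unfold swf
  rw [if_neg h1, dif_pos h2]
  obtain ⟨h3, h4, h5⟩ := h2.choose_spec
  exact T.inj _ _ h3 h h5 (congrArg Prod.fst h4)

theorem swf_swf (x : Lab d) (v : V) : T.swf x (T.swf x v) = v := by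
  by_cases h1 : T.dep v ≠ 0 ∧ T.lb v = x
  · obtain ⟨h1, rfl⟩ := h1
    rw [T.swf_up h1, T.swf_down h1]
  · by_cases h2 : ∃ u, T.dep u ≠ 0 ∧ T.lb u = x ∧ T.par u = v
    · obtain ⟨u, h3, rfl, rfl⟩ := h2
      rw [T.swf_down h3, T.swf_up h3]
    · have h3 : T.swf x v = v := by
        unfold swf
        rw [if_neg h1, dif_neg h2]
      rw [h3, h3]

/-- The involutions. -/
noncomputable def sw (x : Lab d) : Equiv.Perm V := Function.Involutive.toPerm (T.swf x) (T.swf_swf x)

theorem sw_up {v : V} (h : T.dep v ≠ 0) : T.sw (T.lb v) v = T.par v := T.swf_up h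

theorem sw_down {v : V} (h : T.dep v ≠ 0) : T.sw (T.lb v) (T.par v) = v := T.swf_down h

/-- The involution moves each vertex to itself, to its parent or to a child. -/
theorem sw_cases (x : Lab d) (v : V) : T.sw x v = v ∨ (T.dep v ≠ 0 ∧ T.sw x v = T.par v) ∨
    (T.dep (T.sw x v) ≠ 0 ∧ T.par (T.sw x v) = v) := by
  by_cases h1 : T.dep v ≠ 0 ∧ T.lb v = x
  · obtain ⟨h1, rfl⟩ := h1
    exact Or.inr (Or.inl ⟨h1, T.sw_up h1⟩)
  · by_cases h2 : ∃ u, T.dep u ≠ 0 ∧ T.lb u = x ∧ T.par u = v
    · obtain ⟨u, h3, rfl, rfl⟩ := h2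
      rw [T.sw_down h3]
      exact Or.inr (Or.inr ⟨h3, rfl⟩)
    · left
      change T.swf x v = v
      unfold swf
      rw [if_neg h1, dif_neg h2]

/-- The word of the first `n` edges from `v` towards the root. -/
def pw : ℕ → V → FreeGroup (Lab d)
  | 0, _ => 1
  | n + 1, v => FreeGroup.of (T.lb v) * pw n (T.par v)

theorem pw_zero (v : V) : T.pw 0 v = 1 := rfl

theorem pw_succ (n : ℕ) (v : V) : T.pw (n + 1) v = FreeGroup.of (T.lb v) * T.pw n (T.par v) := rfl

theorem pw_add (m n : ℕ) (v : V) : T.pw (m + n) v = T.pw m v * T.pw n (T.par^[m] v) := by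
  induction m generalizing v with
  | zero => rw [zero_add, pw_zero, one_mul, Function.iterate_zero, id_eq]
  | succ m ih =>
    rw [Nat.add_right_comm, pw_succ, pw_succ, ih, mul_assoc, Function.iterate_succ_apply]

theorem dep_iterate {n : ℕ} {v : V} (h : n ≤ T.dep v) : T.dep (T.par^[n] v) + n = T.dep v := by
  induction n generalizing v with
  | zero => rfl
  | succ n ih =>
    have h1 := T.dep_par v (by omega)
    rw [Function.iterate_succ_apply]
    have h2 := ih (v := T.par v) (by omega)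
    omega

/-- The root of the component. -/
def rt (v : V) : V := T.par^[T.dep v] v

theorem rt_iterate {n : ℕ} {v : V} (h : n ≤ T.dep v) : T.rt (T.par^[n] v) = T.rt v := by
  have h1 := T.dep_iterate h
  unfold rt
  rw [← Function.iterate_add_apply, h1]

/-- The canonical element. -/
def fw (v : V) : FreeGroup (Lab d) := T.pw (T.dep v) v

theorem fw_eq {n : ℕ} {v : V} (h : n ≤ T.dep v) : T.fw v = T.pw n v * T.fw (T.par^[n] v) := by
  have h1 := T.dep_iterate h
  unfold fw
  rw [← pw_add]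
  congr 1
  omega

theorem lift_pw {n : ℕ} {v : V} (h : n ≤ T.dep v) :
    (FreeGroup.lift T.sw (T.pw n v)) (T.par^[n] v) = v := by
  induction n generalizing v with
  | zero => rw [pw_zero, map_one]; rfl
  | succ n ih =>
    have h1 := T.dep_par v (by omega)
    rw [pw_succ, map_mul, Function.iterate_succ_apply, Equiv.Perm.mul_apply, ih (by omega),
      FreeGroup.lift_apply_of, T.sw_down (by omega)]

theorem lift_fw (v : V) : (FreeGroup.lift T.sw (T.fw v)) (T.rt v) = v := T.lift_pw le_rfl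

/-- The element moving `u` to `v`. -/
def ww (u v : V) : FreeGroup (Lab d) := T.fw v * (T.fw u)⁻¹

theorem ww_self (u : V) : T.ww u u = 1 := mul_inv_cancel _

theorem ww_mul (u v w : V) : T.ww v w * T.ww u v = T.ww u w := by
  unfold ww
  group

theorem lift_ww {u v : V} (h : T.rt u = T.rt v) : (FreeGroup.lift T.sw (T.ww u v)) u = v := by
  unfold ww
  rw [map_mul, Equiv.Perm.mul_apply, map_inv]
  have h1 : (FreeGroup.lift T.sw (T.fw u))⁻¹ u = T.rt u := by
    rw [Equiv.Perm.inv_eq_iff_eq]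
    exact (T.lift_fw u).symm
  rw [h1, h, T.lift_fw]

/-- The distance is at most `N`. -/
def Near (N : ℕ) (u v : V) : Prop :=
  ∃ i j, i + j ≤ N ∧ i ≤ T.dep u ∧ j ≤ T.dep v ∧ T.par^[i] u = T.par^[j] v

theorem Near.rt_eq {N : ℕ} {u v : V} (h : T.Near N u v) : T.rt u = T.rt v := by
  obtain ⟨i, j, -, hi, hj, h⟩ := h
  rw [← T.rt_iterate hi, h, T.rt_iterate hj]

theorem Near.ww_eq {N : ℕ} {u v : V} (h : T.Near N u v) :
    ∃ i j, i ≤ N ∧ j ≤ N ∧ T.ww u v = T.pw j v * (T.pw i u)⁻¹ := by
  obtain ⟨i, j, hN, hi, hj, h⟩ := h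
  refine ⟨i, j, by omega, by omega, ?_⟩
  unfold ww
  rw [T.fw_eq hi, T.fw_eq hj, h]
  group

theorem Near.refl (u : V) : T.Near 0 u u := ⟨0, 0, le_rfl, Nat.zero_le _, Nat.zero_le _, rfl⟩

theorem Near.up {N : ℕ} {u v : V} (h : T.Near N u v) (hv : T.dep v ≠ 0) :
    T.Near (N + 1) u (T.par v) := by
  obtain ⟨i, j, hN, hi, hj, h⟩ := h
  have h1 := T.dep_par v hv
  cases j with
  | zero =>
    have h2 := T.dep_iterate hi
    rw [h] at h2
    change T.dep v + i = T.dep u at h2
    refine ⟨i + 1, 0, by omega, by omega, Nat.zero_le _, ?_⟩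
    rw [Function.iterate_succ_apply', h]
    rfl
  | succ j =>
    refine ⟨i, j, by omega, hi, by omega, ?_⟩
    rw [h, Function.iterate_succ_apply]

theorem Near.down {N : ℕ} {u v w : V} (h : T.Near N u v) (hw : T.dep w ≠ 0)
    (hwv : T.par w = v) : T.Near (N + 1) u w := by
  obtain ⟨i, j, hN, hi, hj, h⟩ := h
  have h1 := T.dep_par w hw
  rw [hwv] at h1
  refine ⟨i, j + 1, by omega, hi, by omega, ?_⟩
  rw [h, Function.iterate_succ_apply, hwv]

theorem finite_range_pw (n : ℕ) : (Set.range (T.pw n)).Finite := by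
  induction n with
  | zero => exact (Set.finite_singleton (1 : FreeGroup (Lab d))).subset (by rintro _ ⟨v, rfl⟩; rfl)
  | succ n ih =>
    refine ((Set.finite_range (FreeGroup.of (α := Lab d))).mul ih).subset ?_
    rintro _ ⟨v, rfl⟩
    exact Set.mul_mem_mul ⟨_, rfl⟩ ⟨_, rfl⟩

/-- The elements moving vertices by at most `N` are in a finite set. -/
theorem finite_ww (N : ℕ) : {g | ∃ u v, T.Near N u v ∧ g = T.ww u v}.Finite := by
  have h1 : (⋃ n ∈ Finset.range (N + 1), Set.range (T.pw n)).Finite :=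
    Set.Finite.biUnion (Finset.finite_toSet _) fun n _ => T.finite_range_pw n
  refine (h1.mul h1.inv).subset ?_
  rintro _ ⟨u, v, h, rfl⟩
  obtain ⟨i, j, hi, hj, h2⟩ := Near.ww_eq T h
  rw [h2]
  refine Set.mul_mem_mul (Set.mem_iUnion₂.2 ⟨j, Finset.mem_range.2 (by omega), v, rfl⟩) ?_
  rw [Set.inv_mem_inv]
  exact Set.mem_iUnion₂.2 ⟨i, Finset.mem_range.2 (by omega), u, rfl⟩

end RForest

end Pool.Agent.ZT
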