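import Pool.Agent.ZT.Coc
import Pool.Agent.ZT.RForest

/-!
# Permutations of bounded displacement along a rooted forest as cocycles of a free group
-/

set_option autoImplicit false

namespace Pool.Agent.ZT

open Pool.Agent.Helper29.BA Pool.Agent.T59

/-! ### The group of cocycles of finite range -/

section sets

variable {A S : Type} (φ : A → Equiv.Perm S)

/-- The action of the free group. -/
@[reducible] def actS : MulAction (FreeGroup A) S where
  smul g s := FreeGroup.lift φ g s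
  one_smul s := by
    change FreeGroup.lift φ 1 s = s
    rw [map_one]
    rfl
  mul_smul g h s := by
    change FreeGroup.lift φ (g * h) s = FreeGroup.lift φ g (FreeGroup.lift φ h s)
    rw [map_mul]
    rfl

/-- The permutations of `S × F` given by cocycles with finitely many values. -/
def FGS : Subgroup (Equiv.Perm (S × FreeGroup A)) where
  carrier := {q | ∃ c : S → FreeGroup A, (Set.range c).Finite ∧
    ∀ s g, q (s, g) = (s, c (FreeGroup.lift φ g s) * g)}
  one_mem' := ⟨fun _ => 1, (Set.finite_singleton 1).subset (by rintro _ ⟨s, rfl⟩; rfl),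
    fun x g => by rw [one_mul]; rfl⟩
  mul_mem' := by
    rintro a b ⟨c, hc, h⟩ ⟨d, hd, h'⟩
    refine ⟨fun s => c (FreeGroup.lift φ (d s) s) * d s, (hc.mul hd).subset ?_, fun s g => ?_⟩
    · rintro _ ⟨s, rfl⟩
      exact Set.mul_mem_mul ⟨_, rfl⟩ ⟨_, rfl⟩
    · rw [Equiv.Perm.mul_apply, h', h, map_mul, Equiv.Perm.mul_apply, mul_assoc]
  inv_mem' := by
    rintro a ⟨c, hc, h⟩
    have hai : ∀ x, a (a⁻¹ x) = x := fun x => Equiv.apply_symm_apply a x
    have hfst : ∀ x, (a⁻¹ x).1 = x.1 := by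
      intro x
      have h1 := hai x
      have h2 : a (a⁻¹ x) = ((a⁻¹ x).1, c (FreeGroup.lift φ (a⁻¹ x).2 (a⁻¹ x).1) * (a⁻¹ x).2) :=
        h _ _
      rw [h1] at h2
      exact (congrArg Prod.fst h2).symm
    have hd : ∀ s, c (FreeGroup.lift φ (a⁻¹ (s, 1)).2 s) * (a⁻¹ (s, 1)).2 = 1 := by
      intro s
      have h1 := hai (s, 1)
      have h2 : a⁻¹ (s, 1) = (s, (a⁻¹ (s, 1)).2) := Prod.ext (hfst (s, 1)) rfl
      rw [h2, h] at h1
      exact congrArg Prod.snd h1
    have hinv : ∀ s g g', c (FreeGroup.lift φ g' s) * g' = g → a⁻¹ (s, g) = (s, g') := by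
      intro s g g' hg
      rw [Equiv.Perm.inv_eq_iff_eq, h, hg]
    refine ⟨fun s => (a⁻¹ (s, 1)).2, hc.inv.subset ?_, fun s g => ?_⟩
    · rintro _ ⟨s, rfl⟩
      rw [Set.mem_inv]
      exact ⟨_, eq_inv_of_mul_eq_one_left (hd s)⟩
    · refine hinv s g _ ?_
      rw [map_mul, Equiv.Perm.mul_apply, ← mul_assoc, hd, one_mul]

/-- Groups with an injective family of cocycles of finite range. -/
theorem mem_of_cocycles {C : ∀ (G : Type) [Group G], Prop} (hC : ClosedClass C) {G : Type}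
    [Group G] (c : G → S → FreeGroup A) (h0 : ∀ s, c 1 s = 1)
    (h1 : ∀ g h s, c (g * h) s = c g (FreeGroup.lift φ (c h s) s) * c h s)
    (hfin : ∀ g, (Set.range (c g)).Finite) (hinj : ∀ g, (∀ s, c g s = 1) → g = 1)
    (h : C (FGS φ)) : C G := by
  let _ := actS φ
  let f : G →* Coc (FreeGroup A) S :=
    { toFun := c
      map_one' := Coc.ext h0
      map_mul' := fun g h => Coc.ext (h1 g h) }
  let F : G →* Equiv.Perm (S × FreeGroup A) := Coc.pm.comp f.toHomUnits
  have hF : ∀ g, F g ∈ FGS φ := fun g => ⟨c g, hfin g, fun s x => rfl⟩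
  refine hC.inj (F.codRestrict (FGS φ) hF) ?_ h
  rw [injective_iff_map_eq_one]
  intro g hg
  refine hinj g fun s => ?_
  have h2 : F g = 1 := congrArg Subtype.val hg
  have h3 : F g (s, 1) = (s, 1) := by rw [h2]; rfl
  change (s, c g ((1 : FreeGroup A) • s) * 1) = (s, 1) at h3
  rw [one_smul, mul_one] at h3
  exact congrArg Prod.snd h3

end sets

/-! ### The cocycles of a forest -/

section forest

variable {V Λ : Type} {d : ℕ} (T : RForest V d) (k : ℕ)

/-- The letters. -/
abbrev LabK (d k : ℕ) : Type := RForest.Lab d ⊕ Fin (k + 1)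

/-- The permutations of the copies of the forest. -/
noncomputable def gF (Λ : Type) : LabK d k → Equiv.Perm (Λ × V × Fin (k + 1))
  | Sum.inl x => Equiv.prodCongr (Equiv.refl Λ) (Equiv.prodCongr (T.sw x) (Equiv.refl _))
  | Sum.inr i => Equiv.prodCongr (Equiv.refl Λ) (Equiv.prodCongr (Equiv.refl _) (Equiv.swap 0 i))

theorem lift_gF_inl (g : FreeGroup (RForest.Lab d)) (l : Λ) (v : V) (j : Fin (k + 1)) :
    FreeGroup.lift (gF T k Λ) (FreeGroup.map Sum.inl g) (l, v, j) =
      (l, FreeGroup.lift T.sw g v, j) := by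
  let E : Equiv.Perm V →* Equiv.Perm (Λ × V × Fin (k + 1)) :=
    { toFun := fun e => Equiv.prodCongr (Equiv.refl Λ) (Equiv.prodCongr e (Equiv.refl _))
      map_one' := rfl
      map_mul' := fun _ _ => rfl }
  have h1 : (FreeGroup.lift (gF T k Λ)).comp (FreeGroup.map Sum.inl) = E.comp (FreeGroup.lift T.sw) := by
    refine FreeGroup.ext_hom _ _ fun x => ?_
    rw [MonoidHom.comp_apply, MonoidHom.comp_apply, FreeGroup.map.of,
      FreeGroup.lift_apply_of, FreeGroup.lift_apply_of]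
    rfl
  have h2 := DFunLike.congr_fun (DFunLike.congr_fun h1 g) (l, v, j)
  exact h2

theorem lift_gF_inr (i : Fin (k + 1)) (l : Λ) (v : V) (j : Fin (k + 1)) :
    FreeGroup.lift (gF T k Λ) (FreeGroup.of (Sum.inr i)) (l, v, j) = (l, v, Equiv.swap 0 i j) := by
  rw [FreeGroup.lift_apply_of]
  rfl

/-- The element moving `z` to `z'`. -/
def wG (z z' : Λ × V × Fin (k + 1)) : FreeGroup (LabK d k) :=
  FreeGroup.of (Sum.inr z'.2.2) * FreeGroup.map Sum.inl (T.ww z.2.1 z'.2.1) *
    (FreeGroup.of (Sum.inr z.2.2))⁻¹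

theorem wG_self (z : Λ × V × Fin (k + 1)) : wG T k z z = 1 := by
  unfold wG
  rw [T.ww_self, map_one, mul_one, mul_inv_cancel]

theorem wG_mul (z z' z'' : Λ × V × Fin (k + 1)) : wG T k z' z'' * wG T k z z' = wG T k z z'' := by
  unfold wG
  rw [← T.ww_mul z.2.1 z'.2.1 z''.2.1, map_mul]
  group

theorem lift_wG {z z' : Λ × V × Fin (k + 1)} (h1 : z.1 = z'.1) (h2 : T.rt z.2.1 = T.rt z'.2.1) :
    FreeGroup.lift (gF T k Λ) (wG T k z z') z = z' := by
  obtain ⟨l, v, j⟩ := z
  obtain ⟨l', v', j'⟩ := z'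
  cases h1
  have h3 : (FreeGroup.lift (gF T k Λ) (FreeGroup.of (Sum.inr j)))⁻¹ (l, v, j) = (l, v, 0) := by
    rw [Equiv.Perm.inv_eq_iff_eq, lift_gF_inr, Equiv.swap_apply_left]
  unfold wG
  rw [map_mul, map_mul, map_inv, Equiv.Perm.mul_apply, Equiv.Perm.mul_apply]
  change FreeGroup.lift (gF T k Λ) (FreeGroup.of (Sum.inr j')) (FreeGroup.lift (gF T k Λ)
    (FreeGroup.map Sum.inl (T.ww v v'))
      ((FreeGroup.lift (gF T k Λ) (FreeGroup.of (Sum.inr j)))⁻¹ (l, v, j))) = _
  rw [h3, lift_gF_inl, T.lift_ww h2, lift_gF_inr, Equiv.swap_apply_left]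

theorem finite_wG (N : ℕ) :
    {g | ∃ z z' : Λ × V × Fin (k + 1), T.Near N z.2.1 z'.2.1 ∧ g = wG T k z z'}.Finite := by
  have h1 := (Set.finite_range fun i : Fin (k + 1) =>
    (FreeGroup.of (Sum.inr i) : FreeGroup (LabK d k)))
  have h2 := (T.finite_ww N).image (FreeGroup.map (Sum.inl : RForest.Lab d → LabK d k))
  refine ((h1.mul h2).mul h1.inv).subset ?_
  rintro _ ⟨z, z', h, rfl⟩
  refine Set.mul_mem_mul (Set.mul_mem_mul ⟨_, rfl⟩ ⟨_, ⟨_, _, h, rfl⟩, rfl⟩) ?_
  rw [Set.inv_mem_inv]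
  exact ⟨_, rfl⟩

/-- **Bounded displacement along a rooted forest.** -/
theorem mem_of_rforest {C : ∀ (G : Type) [Group G], Prop} (hC : ClosedClass C) (G : Type)
    [Group G] {S : Type} [MulAction G S] [FaithfulSMul G S] (ρ : S → V) (k : ℕ)
    (hk : ∀ (s : S) (v : V), {t ∈ MulAction.orbit G s | ρ t = v}.encard ≤ k)
    (hG : ∀ g : G, ∃ N : ℕ, ∀ s : S, T.Near N (ρ s) (ρ (g • s)))
    (h : C (FGS (gF T k (MulAction.orbitRel.Quotient G S)))) : C G := by
  classical
  let Λ : Type := MulAction.orbitRel.Quotient G S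
  let π : S → Λ := fun s => Quotient.mk _ s
  have hπ : ∀ s t : S, π s = π t ↔ s ∈ MulAction.orbit G t := by
    intro s t
    change (Quotient.mk (MulAction.orbitRel G S) s = Quotient.mk _ t) ↔ _
    rw [Quotient.eq, MulAction.orbitRel_apply]
  -- the fibres
  let L : Λ → V → Set S := fun l n => {t | π t = l ∧ ρ t = n}
  have hL : ∀ l n, (L l n).encard ≤ k := by
    intro l n
    obtain ⟨s, rfl⟩ := Quotient.exists_rep l
    have h1 : L (Quotient.mk _ s) n = {t ∈ MulAction.orbit G s | ρ t = n} := by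
      ext t
      exact and_congr (hπ t s) Iff.rfl
    rw [h1]
    exact hk s n
  have hfin : ∀ l n, (L l n).Finite := fun l n =>
    Set.finite_of_encard_le_coe (hL l n)
  have hinj : ∀ l n, ∃ i : L l n → Fin (k + 1), Function.Injective i := by
    intro l n
    have := (hfin l n).to_subtype
    have h1 : Nat.card (L l n) ≤ k + 1 := by
      have h1 := hL l n
      rw [← (hfin l n).cast_ncard_eq] at h1
      have h2 : (L l n).ncard ≤ k := by exact_mod_cast h1
      exact h2.trans (Nat.le_succ k)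
    exact ⟨fun t => Fin.castLE h1 (Finite.equivFin (L l n) t),
      (Fin.castLE_injective h1).comp (Finite.equivFin (L l n)).injective⟩
  choose i hi using hinj
  let idx : S → Fin (k + 1) := fun s => i (π s) (ρ s) ⟨s, rfl, rfl⟩
  have hidx_inj : ∀ s t, π s = π t → ρ s = ρ t → idx s = idx t → s = t := by
    intro s t h1 h2 h3
    have h4 : ∀ (l : Λ) (n : V) (hs : π s = l ∧ ρ s = n) (ht : π t = l ∧ ρ t = n),
        i l n ⟨s, hs⟩ = i l n ⟨t, ht⟩ → s = t := by
      intro l n hs ht h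
      exact congrArg Subtype.val (hi l n h)
    have h5 : ∀ (l : Λ) (n : V) (ht : π t = l ∧ ρ t = n), idx t = i l n ⟨t, ht⟩ := by
      rintro l n ⟨rfl, rfl⟩
      rfl
    refine h4 (π s) (ρ s) ⟨rfl, rfl⟩ ⟨h1.symm, h2.symm⟩ ?_
    rw [← h5]
    exact h3
  let f : S → Λ × V × Fin (k + 1) := fun s => (π s, ρ s, idx s)
  have hf : Function.Injective f := by
    intro s t h
    have h2 : (ρ s, idx s) = (ρ t, idx t) := congrArg Prod.snd h
    exact hidx_inj s t (congrArg Prod.fst h) (congrArg Prod.fst h2) (congrArg Prod.snd h2)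
  have hπg : ∀ (g : G) s, π s = π (g • s) := fun g s =>
    ((hπ _ _).2 (MulAction.mem_orbit s g)).symm
  let c : G → Λ × V × Fin (k + 1) → FreeGroup (LabK d k) := fun g z =>
    if h : ∃ s, f s = z then wG T k z (f (g • h.choose)) else 1
  have hc1 : ∀ g s, c g (f s) = wG T k (f s) (f (g • s)) := by
    intro g s
    have h1 : ∃ t, f t = f s := ⟨s, rfl⟩
    change dite _ _ _ = _
    rw [dif_pos h1]
    have h2 : h1.choose = s := hf h1.choose_spec
    rw [h2]
  have hc2 : ∀ g z, z ∉ Set.range f → c g z = 1 := fun g z hz => dif_neg hz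
  have hnear : ∀ (g : G) s, T.rt (ρ s) = T.rt (ρ (g • s)) := by
    intro g s
    obtain ⟨N, hN⟩ := hG g
    exact (hN s).rt_eq
  have hact : ∀ g s, FreeGroup.lift (gF T k Λ) (c g (f s)) (f s) = f (g • s) := by
    intro g s
    rw [hc1]
    exact lift_wG T k (hπg g s) (hnear g s)
  refine mem_of_cocycles (gF T k Λ) hC c (fun z => ?_) (fun g g' z => ?_) (fun g => ?_)
    (fun g hg => ?_) h
  · by_cases hz : z ∈ Set.range f
    · obtain ⟨s, rfl⟩ := hz
      rw [hc1, one_smul, wG_self]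
    · exact hc2 1 z hz
  · by_cases hz : z ∈ Set.range f
    · obtain ⟨s, rfl⟩ := hz
      rw [hact, hc1, hc1, hc1, mul_smul, wG_mul]
    · rw [hc2 _ z hz, hc2 _ z hz, map_one, Equiv.Perm.one_apply, hc2 _ z hz, mul_one]
  · obtain ⟨N, hN⟩ := hG g
    refine ((finite_wG (Λ := Λ) T k N).insert 1).subset ?_
    rintro _ ⟨z, rfl⟩
    by_cases hz : z ∈ Set.range f
    · obtain ⟨s, rfl⟩ := hz
      exact Or.inr ⟨f s, f (g • s), hN s, hc1 g s⟩
    · exact Or.inl (hc2 g z hz)
  · refine eq_of_smul_eq_smul (α := S) fun s => ?_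
    have h1 := hact g s
    rw [hg, map_one] at h1
    rw [one_smul]
    exact (hf h1).symm

end forest

end Pool.Agent.ZT
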