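import Pool.Agent.ZT.RForest

/-!
# Acyclic graphs of bounded degree as rooted forests
-/

set_option autoImplicit false

namespace Pool.Agent.ZT

variable {V : Type} {Γ : SimpleGraph V}

/-- Neighbours of `v` closer to `b` are unique. -/
theorem unique_closer (hΓ : Γ.IsAcyclic) {b v w w' : V} (hw : Γ.Adj w v) (hw' : Γ.Adj w' v)
    (hr : Γ.Reachable b v) (h : Γ.dist b w + 1 = Γ.dist b v) (h' : Γ.dist b w' + 1 = Γ.dist b v) :
    w = w' := by
  classical
  obtain ⟨q, hq, hql⟩ := hr.exists_path_of_dist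
  have key : ∀ x, Γ.Adj x v → Γ.dist b x + 1 = Γ.dist b v → x = q.penultimate := by
    intro x hx hd
    obtain ⟨p, hp, hpl⟩ := (hr.trans hx.symm.reachable).exists_path_of_dist
    have h1 : v ∉ p.support := by
      intro hv
      have h2 := Γ.dist_le (p.takeUntil v hv)
      have h3 := p.length_takeUntil_le_length hv
      omega
    have h2 : x ∈ q.support := hΓ.mem_support_of_ne_mem_support_of_adj_of_isPath hq hp hx.symm h1
    exact hΓ.eq_penultimate_of_adj_end hq hx.symm h2
  rw [key w hw h, key w' hw' h']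

/-- An acyclic graph with degrees at most `d` is a rooted forest: the neighbours of a vertex are its
children and its parent. -/
theorem exists_rforest (hΓ : Γ.IsAcyclic) {d : ℕ} (hd : ∀ v, (Γ.neighborSet v).encard ≤ d) :
    ∃ T : RForest V (d + 1), (∀ v, T.dep v ≠ 0 → Γ.Adj (T.par v) v) ∧
      ∀ u v, Γ.Adj u v → (T.dep u ≠ 0 ∧ T.par u = v) ∨ (T.dep v ≠ 0 ∧ T.par v = u) := by
  classical
  have h1 : ∀ c : Γ.ConnectedComponent, ∃ v, Γ.connectedComponentMk v = c := fun c => by
    induction c using SimpleGraph.ConnectedComponent.ind with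
    | h v => exact ⟨v, rfl⟩
  choose b hb using h1
  let β : V → V := fun v => b (Γ.connectedComponentMk v)
  have hβ : ∀ v, Γ.Reachable (β v) v := fun v => SimpleGraph.ConnectedComponent.exact (hb _)
  have hβ' : ∀ v w, Γ.Adj v w → β v = β w := by
    intro v w h
    change b _ = b _
    rw [SimpleGraph.ConnectedComponent.sound h.reachable]
  let dep : V → ℕ := fun v => Γ.dist (β v) v
  have hpar : ∀ v, ∃ w, dep v ≠ 0 → Γ.Adj w v ∧ dep w + 1 = dep v := by
    intro v
    by_cases h0 : dep v = 0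
    · exact ⟨v, fun h => absurd h0 h⟩
    obtain ⟨p, hp, hpl⟩ := (hβ v).exists_path_of_dist
    have hnil : ¬ p.Nil := by
      rw [SimpleGraph.Walk.not_nil_iff_lt_length, hpl]
      exact Nat.pos_of_ne_zero h0
    have hadj : Γ.Adj p.penultimate v := p.adj_penultimate hnil
    refine ⟨p.penultimate, fun _ => ⟨hadj, ?_⟩⟩
    change Γ.dist (β p.penultimate) p.penultimate + 1 = Γ.dist (β v) v
    rw [hβ' _ _ hadj]
    have h2 := Γ.dist_le p.dropLast
    have h3 : p.dropLast.length + 1 = p.length := p.length_dropLast_add_one hnil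
    have h4 := hΓ.dist_eq_dist_add_one_of_adj_of_reachable (β v) hadj.symm (hβ v)
    omega
  choose par hpar using hpar
  let ch : V → Set V := fun u => {v | dep v ≠ 0 ∧ par v = u}
  have hch : ∀ u, (ch u).encard ≤ d := by
    intro u
    refine (Set.encard_le_encard ?_).trans (hd u)
    rintro v ⟨h2, rfl⟩
    exact (hpar v h2).1
  have hinj : ∀ u, ∃ i : ch u → Fin (d + 1), Function.Injective i := by
    intro u
    have hf : (ch u).Finite := Set.finite_of_encard_le_coe (hch u)
    have := hf.to_subtype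
    have h2 : Nat.card (ch u) ≤ d + 1 := by
      have h2 := hch u
      rw [← hf.cast_ncard_eq] at h2
      have h3 : (ch u).ncard ≤ d := by exact_mod_cast h2
      exact h3.trans (Nat.le_succ d)
    exact ⟨fun t => Fin.castLE h2 (Finite.equivFin (ch u) t),
      (Fin.castLE_injective h2).comp (Finite.equivFin (ch u)).injective⟩
  choose i hi using hinj
  let ci : V → Fin (d + 1) := fun v => if h : dep v ≠ 0 then i (par v) ⟨v, h, rfl⟩ else 0
  have hci : ∀ u v, dep u ≠ 0 → dep v ≠ 0 → par u = par v → ci u = ci v → u = v := by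
    intro u v hu hv huv h
    have h2 : ∀ (w : V) (hu' : dep u ≠ 0 ∧ par u = w) (hv' : dep v ≠ 0 ∧ par v = w),
        i w ⟨u, hu'⟩ = i w ⟨v, hv'⟩ → u = v := fun w hu' hv' h => congrArg Subtype.val (hi w h)
    have h3 : ∀ (w : V) (hu' : dep u ≠ 0 ∧ par u = w), ci u = i w ⟨u, hu'⟩ := by
      rintro w ⟨hu', rfl⟩
      exact dif_pos hu'
    have h4 : ci v = i (par v) ⟨v, hv, rfl⟩ := dif_pos hv
    refine h2 (par v) ⟨hu, huv⟩ ⟨hv, rfl⟩ ?_
    rw [← h3, ← h4, h]
  refine ⟨⟨par, dep, ci, fun v hv => (hpar v hv).2, hci⟩, fun v hv => (hpar v hv).1,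
    fun u v huv => ?_⟩
  have h2 := hΓ.dist_eq_dist_add_one_of_adj_of_reachable (β u) huv (hβ u)
  have hβuv := hβ' _ _ huv
  have hdv : dep v = Γ.dist (β u) v := by
    change Γ.dist (β v) v = _
    rw [hβuv]
  have hdu : dep u = Γ.dist (β u) u := rfl
  rcases h2 with h2 | h2
  · left
    have h3 : dep u ≠ 0 := by omega
    refine ⟨h3, ?_⟩
    have h4 := hpar u h3
    refine unique_closer hΓ h4.1 huv.symm (hβ u) ?_ h2.symm
    have h5 := h4.2
    change Γ.dist (β (par u)) (par u) + 1 = Γ.dist (β u) u at h5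
    rwa [hβ' _ _ h4.1] at h5
  · right
    have h3 : dep v ≠ 0 := by omega
    refine ⟨h3, ?_⟩
    have h4 := hpar v h3
    refine unique_closer hΓ (b := β v) h4.1 huv (hβ v) ?_ ?_
    · have h5 := h4.2
      change Γ.dist (β (par v)) (par v) + 1 = Γ.dist (β v) v at h5
      rwa [hβ' _ _ h4.1] at h5
    · rw [← hβuv]
      exact h2.symm

/-- Walks and `Near`. -/
theorem near_of_walk {d : ℕ} {T : RForest V d}
    (h : ∀ u v, Γ.Adj u v → (T.dep u ≠ 0 ∧ T.par u = v) ∨ (T.dep v ≠ 0 ∧ T.par v = u))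
    {u v : V} (p : Γ.Walk v u) : T.Near p.length u v := by
  induction p with
  | nil => exact RForest.Near.refl T _
  | cons hadj q ih =>
    rw [SimpleGraph.Walk.length_cons]
    rcases h _ _ hadj with ⟨h1, h2⟩ | ⟨h1, h2⟩
    · exact RForest.Near.down T ih h1 h2
    · rw [← h2]
      exact RForest.Near.up T ih h1

theorem near_mono {d : ℕ} {T : RForest V d} {N M : ℕ} (h : N ≤ M) {u v : V}
    (huv : T.Near N u v) : T.Near M u v := by
  obtain ⟨i, j, h1, h2⟩ := huv
  exact ⟨i, j, h1.trans h, h2⟩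

theorem near_of_edist {d : ℕ} {T : RForest V d}
    (h : ∀ u v, Γ.Adj u v → (T.dep u ≠ 0 ∧ T.par u = v) ∨ (T.dep v ≠ 0 ∧ T.par v = u))
    {u v : V} {N : ℕ} (huv : Γ.edist u v ≤ N) : T.Near N u v := by
  rw [SimpleGraph.edist_comm] at huv
  obtain ⟨p, hp⟩ := SimpleGraph.exists_walk_of_edist_ne_top
    (ne_top_of_le_ne_top (ENat.natCast_ne_top N) huv)
  rw [← hp] at huv
  exact near_mono (by exact_mod_cast huv) (near_of_walk h p)

/-- The involutions move each vertex by at most one. -/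
theorem edist_sw {d : ℕ} {T : RForest V d} (h : ∀ v, T.dep v ≠ 0 → Γ.Adj (T.par v) v)
    (x : RForest.Lab d) (v : V) : Γ.edist v (T.sw x v) ≤ 1 := by
  rw [SimpleGraph.edist_le_one_iff_adj_or_eq]
  rcases T.sw_cases x v with h1 | ⟨h1, h2⟩ | ⟨h1, h2⟩
  · exact Or.inr h1.symm
  · left
    rw [h2]
    exact (h v h1).symm
  · left
    have h3 := h _ h1
    rwa [h2] at h3

end Pool.Agent.ZT
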