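import Pool.Agent.ZT.Beta
import Pool.Agent.ZT.Forest
import Pool.Agent.ZT.RootGraph
import Pool.Agent.ZT.Hall
import Pool.Agent.ZT.WD

/-!
# Groups of bounded displacement along forests without paradoxical sets
-/

set_option autoImplicit false

namespace Pool.Agent.ZT

open Pool.Agent.Helper29.BA Pool.Agent.Helper29.PA Pool.Agent.T59

/-- Cocycle groups of sets with invariant measures. -/
theorem mem_FGS {C : ∀ (G : Type) [Group G], Prop} (hC : ExtClass C) {A S : Type}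
    (φ : A → Equiv.Perm S)
    (h : ∀ U : Set S, U.Nonempty → ∃ m : Set S → ENNReal, m ∅ = 0 ∧
      (∀ U V, Disjoint U V → m (U ∪ V) = m U + m V) ∧ (∀ a U, m (φ a ⁻¹' U) = m U) ∧
      m U ≠ 0 ∧ m U ≠ ⊤) : C (FGS φ) := by
  let _ := actS φ
  have h1 : FB A S = FGS φ := rfl
  rw [← h1]
  refine mem_FB hC fun U hU => ?_
  obtain ⟨m, h2, h3, h4, h5, h6⟩ := h U hU
  refine ⟨m, ⟨h2, h3, fun a W => ?_⟩, h5, h6⟩
  have h7 : (fun x : S => FreeGroup.of a • x) = φ a := by
    funext x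
    change FreeGroup.lift φ (FreeGroup.of a) x = φ a x
    rw [FreeGroup.lift_apply_of]
  rw [h7]
  exact h4 a W

/-- The set is paradoxical: there are two injections of `U` to itself with disjoint images which
move the vertices by a bounded amount. -/
def ParadoxG {V : Type} (T : SimpleGraph V) (U : Set V) : Prop :=
  ∃ (N : ℕ) (a b : V → V), Set.MapsTo a U U ∧ Set.MapsTo b U U ∧ Set.InjOn a U ∧ Set.InjOn b U ∧
    Disjoint (a '' U) (b '' U) ∧ ∀ u ∈ U, T.edist u (a u) ≤ N ∧ T.edist u (b u) ≤ N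

/-- Measures on the vertices invariant under all permutations of bounded displacement. -/
theorem exists_measure_WD {V : Type} {T : SimpleGraph V} {U : Set V} (hU : ¬ ParadoxG T U) :
    ∃ m : Set V → ENNReal, m ∅ = 0 ∧ (∀ V W, Disjoint V W → m (V ∪ W) = m V + m W) ∧
      (∀ g ∈ WD T, ∀ W : Set V, m (g ⁻¹' W) = m W) ∧ m U = 1 := by
  have h1 : ¬ Paradox (WD T) U := by
    rintro ⟨K, a, h1, h2⟩
    refine hU ?_
    have h3 : ∃ N : ℕ, ∀ g ∈ K, ∀ v, T.edist v (g • v) ≤ N := by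
      classical
      have h4 : ∀ g : WD T, ∃ N : ℕ, ∀ v, T.edist v (g • v) ≤ N := fun g => g.2
      choose f hf using h4
      refine ⟨K.sup f, fun g hg v => (hf g v).trans ?_⟩
      exact_mod_cast Finset.le_sup (f := f) hg
    obtain ⟨N, hN⟩ := h3
    refine ⟨N, a true, a false, fun x hx => (h1 true x hx).1, fun x hx => (h1 false x hx).1,
      fun x hx y hy h => (h2 true true x hx y hy h).2,
      fun x hx y hy h => (h2 false false x hx y hy h).2, ?_, fun x hx => ⟨?_, ?_⟩⟩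
    · rw [Set.disjoint_left]
      rintro _ ⟨x, hx, rfl⟩ ⟨y, hy, h⟩
      have h4 := (h2 false true y hy x hx h).1
      exact absurd h4 (by decide)
    · obtain ⟨g, hg, h4⟩ := (h1 true x hx).2
      rw [← h4]
      exact hN g hg x
    · obtain ⟨g, hg, h4⟩ := (h1 false x hx).2
      rw [← h4]
      exact hN g hg x
  obtain ⟨m, h2, h3, h4, h5⟩ := exists_measure h1
  refine ⟨m, h2, h3, fun g hg W => ?_, h5⟩
  rw [← h4 (⟨g, hg⟩ : WD T)⁻¹ W]
  congr 1
  ext v
  rw [Set.mem_inv_smul_set_iff]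
  rfl

/-- **Forests without paradoxical sets.** -/
theorem mem_of_forest {C : ∀ (G : Type) [Group G], Prop} (hC : ExtClass C) {V : Type}
    (T : SimpleGraph V) (hT : T.IsAcyclic) (d : ℕ) (hd : ∀ v, (T.neighborSet v).encard ≤ d)
    (hU : ∀ U : Set V, U.Nonempty → ¬ ParadoxG T U) (G S : Type) [Group G] [MulAction G S]
    [FaithfulSMul G S] (ρ : S → V) (k : ℕ)
    (hk : ∀ (s : S) (v : V), {t ∈ MulAction.orbit G s | ρ t = v}.encard ≤ k)
    (hG : ∀ g : G, ∃ N : ℕ, ∀ s, T.edist (ρ s) (ρ (g • s)) ≤ N) : C G := by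
  obtain ⟨F, hF1, hF2⟩ := exists_rforest hT hd
  refine mem_of_rforest F hC.toClosedClass G ρ k hk (fun g => ?_) (mem_FGS hC _ ?_)
  · obtain ⟨N, hN⟩ := hG g
    exact ⟨N, fun s => near_of_edist hF2 (hN s)⟩
  intro U' hU'
  obtain ⟨⟨l, v₀, j₀⟩, hv₀⟩ := hU'
  obtain ⟨m, h1, h2, h3, h4⟩ := exists_measure_WD (hU {v | ∃ j, (l, v, j) ∈ U'} ⟨v₀, j₀, hv₀⟩)
  have hsw : ∀ x, F.sw x ∈ WD T := fun x => ⟨1, fun v => by
    have h5 := edist_sw hF1 x v
    exact_mod_cast h5⟩
  have hmono : ∀ W W' : Set V, W ⊆ W' → m W ≤ m W' := by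
    intro W W' h
    have h5 : W' = W ∪ (W' \ W) := (Set.union_sdiff_cancel h).symm
    rw [h5, h2 _ _ Set.disjoint_sdiff_right]
    exact le_self_add
  have hsub : ∀ (J : Finset (Fin (k + 1))) (f : Fin (k + 1) → Set V),
      m {v | ∃ j ∈ J, v ∈ f j} ≤ ∑ j ∈ J, m (f j) := by
    classical
    intro J f
    induction J using Finset.induction_on with
    | empty =>
      have h5 : {v : V | ∃ j ∈ (∅ : Finset (Fin (k + 1))), v ∈ f j} = ∅ := by
        ext v
        simp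
      rw [h5, h1]
      exact zero_le
    | insert j J hj ih =>
      rw [Finset.sum_insert hj]
      have h5 : {v | ∃ i ∈ insert j J, v ∈ f i} = f j ∪ ({v | ∃ i ∈ J, v ∈ f i} \ f j) := by
        ext v
        constructor
        · rintro ⟨i, hi, hv⟩
          by_cases hvj : v ∈ f j
          · exact Or.inl hvj
          · rcases Finset.mem_insert.1 hi with rfl | hi
            · exact absurd hv hvj
            · exact Or.inr ⟨⟨i, hi, hv⟩, hvj⟩
        · rintro (hv | ⟨⟨i, hi, hv⟩, -⟩)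
          · exact ⟨j, Finset.mem_insert_self _ _, hv⟩
          · exact ⟨i, Finset.mem_insert_of_mem hi, hv⟩
      rw [h5, h2 _ _ Set.disjoint_sdiff_right]
      exact add_le_add le_rfl ((hmono _ _ Set.sdiff_subset).trans ih)
  refine ⟨fun W => ∑ j : Fin (k + 1), m {v | (l, v, j) ∈ W}, ?_, ?_, ?_, ?_, ?_⟩
  · refine Finset.sum_eq_zero fun j _ => ?_
    exact h1
  · intro W W' hd
    rw [← Finset.sum_add_distrib]
    refine Finset.sum_congr rfl fun j _ => ?_
    refine h2 {v | (l, v, j) ∈ W} {v | (l, v, j) ∈ W'} ?_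
    rw [Set.disjoint_left] at hd ⊢
    exact fun v hv hv' => hd hv hv'
  · rintro (x | i) W
    · refine Finset.sum_congr rfl fun j _ => ?_
      exact h3 (F.sw x) (hsw x) {v | (l, v, j) ∈ W}
    · exact Equiv.sum_comp (Equiv.swap 0 i) fun j => m {v | (l, v, j) ∈ W}
  · have h5 := hsub Finset.univ fun j => {v | (l, v, j) ∈ U'}
    have h6 : {v | ∃ j ∈ (Finset.univ : Finset (Fin (k + 1))), v ∈ {v | (l, v, j) ∈ U'}} =
        {v | ∃ j, (l, v, j) ∈ U'} := by
      ext v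
      exact ⟨fun ⟨j, _, h⟩ => ⟨j, h⟩, fun ⟨j, h⟩ => ⟨j, Finset.mem_univ _, h⟩⟩
    rw [h6, h4] at h5
    intro h7
    have h8 : (1 : ENNReal) ≤ 0 := h5.trans_eq h7
    exact absurd h8 (by norm_num)
  · refine (ENNReal.sum_lt_top.2 fun j _ => ?_).ne
    have h5 : m {v | (l, v, j) ∈ U'} ≤ m {v | ∃ j, (l, v, j) ∈ U'} :=
      hmono _ _ fun v hv => ⟨j, hv⟩
    rw [h4] at h5
    exact h5.trans_lt ENNReal.one_lt_top

end Pool.Agent.ZT
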