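import Pool.Agent.ZT.Scale
import Pool.Agent.ZT.SeqCol
import Pool.Agent.ZT.TreeMem

/-!
# Permutations of bounded displacement of spaces of asymptotic dimension one
-/

set_option autoImplicit false

namespace Pool.Agent.ZT

open Pool.Agent.Helper29.BA Pool.Agent.Helper29.PA

variable {X : Type} [PseudoEMetricSpace X]

/-- Measures invariant under all permutations of bounded displacement. -/
theorem exists_measure_WM {U : Set X} (hU : ¬ ParM U) :
    ∃ m : Set X → ENNReal, m ∅ = 0 ∧ (∀ V W, Disjoint V W → m (V ∪ W) = m V + m W) ∧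
      (∀ g ∈ WM X, ∀ W : Set X, m (g ⁻¹' W) = m W) ∧ m U = 1 := by
  have h1 : ¬ Paradox (WM X) U := by
    rintro ⟨K, a, h1, h2⟩
    refine hU ?_
    have h3 : ∃ N : ℕ, ∀ g ∈ K, ∀ v : X, edist v (g • v) ≤ N := by
      classical
      have h4 : ∀ g : WM X, ∃ N : ℕ, ∀ v : X, edist v (g • v) ≤ N := fun g => g.2
      choose f hf using h4
      refine ⟨K.sup f, fun g hg v => (hf g v).trans ?_⟩
      exact_mod_cast Finset.le_sup (f := f) hg
    obtain ⟨N, hN⟩ := h3
    refine ⟨N, a true, a false, fun x hx => (h1 true x hx).1, fun x hx => (h1 false x hx).1,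
      fun x hx y hy h => (h2 true true x hx y hy h).2,
      fun x hx y hy h => (h2 false false x hx y hy h).2, ?_, fun x hx => ⟨?_, ?_⟩⟩
    · rw [Set.disjoint_left]
      rintro _ ⟨x, hx, rfl⟩ ⟨y, hy, h⟩
      have h4 := (h2 false true y hy x hx h).1
      exact absurd h4 (by decide)
    · obtain ⟨g, hg, h4⟩ := (h1 true x hx).2
      rw [← h4]
      exact hN g hg x
    · obtain ⟨g, hg, h4⟩ := (h1 false x hx).2
      rw [← h4]
      exact hN g hg x
  obtain ⟨m, h2, h3, h4, h5⟩ := exists_measure h1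
  refine ⟨m, h2, h3, fun g hg W => ?_, h5⟩
  rw [← h4 (⟨g, hg⟩ : WM X)⁻¹ W]
  congr 1
  ext v
  rw [Set.mem_inv_smul_set_iff]
  rfl

/-- **Spaces of asymptotic dimension at most one without paradoxical sets.** -/
theorem mem_WM_of_letters {C : ∀ (G : Type) [Group G], Prop} (hC : ExtClass C)
    (hL : HasLetters X) (hX : AsdimLeOne X) (hU : ∀ U : Set X, U.Nonempty → ¬ ParM U) :
    C (WM X) := by
  obtain ⟨S, h0, h1, h2, h3⟩ := exists_seq hL hX
  refine mem_of_seq hC.toClosedClass (fun n => FGS (S n).s) (fS h2) (WM X)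
    (fun n => (evS (S n).s).codRestrict (WM X) (evS_mem n)) (fun n q => ?_) (fun g => ?_)
    (itS h2) (fun _ _ => rfl) (fun _ _ _ => rfl) (fun n q hq => ?_) (fun n => ?_)
  · exact Subtype.ext (evS_hatT (comp_tS h2 n) (fin_tS n) q)
  · obtain ⟨n, q, hq⟩ := exists_evS h0 g.2
    exact ⟨n, q, Subtype.ext hq⟩
  · exact exists_itS_eq_one h0 h1 h2 h3 n q (congrArg Subtype.val hq)
  · refine mem_FGS hC _ fun U hUn => ?_
    obtain ⟨m, k1, k2, k3, k4⟩ := exists_measure_WM (hU U hUn)
    refine ⟨m, k1, k2, fun a W => k3 _ ⟨(S n).N, (S n).hN a⟩ W, ?_, ?_⟩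
    · rw [k4]
      exact one_ne_zero
    · rw [k4]
      exact ENNReal.one_ne_top

end Pool.Agent.ZT
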