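import Pool.Agent.ZT.GMet

/-!
# Bounded-to-one maps of graphs to forests
-/

set_option autoImplicit false

namespace Pool.Agent.ZT

open scoped ENNReal

theorem encard_biUnion_mul {ι α : Type} (t : Set ι) (s : ι → Set α) (a b : ℕ)
    (ht : t.encard ≤ a) (hs : ∀ i ∈ t, (s i).encard ≤ b) :
    (⋃ i ∈ t, s i).encard ≤ (a * b : ℕ) := by
  have hfin : t.Finite := Set.finite_of_encard_le_coe ht
  have h1 : (⋃ i ∈ t, s i) = ⋃ i ∈ hfin.toFinset, s i := by simp
  rw [h1]
  refine (Finset.set_encard_biUnion_le _ _).trans ?_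
  refine (Finset.sum_le_card_nsmul _ _ _ fun i hi => hs i (hfin.mem_toFinset.1 hi)).trans ?_
  rw [hfin.encard_eq_coe_toFinset_card] at ht
  rw [nsmul_eq_mul]
  exact_mod_cast Nat.mul_le_mul_right _ (by exact_mod_cast ht)

/-- Chains of jumps in a finite set. -/
theorem edist_le_of_reachable {V : Type} [PseudoEMetricSpace V] (J : SimpleGraph V) (P : Set V)
    (R M : ℕ) (hP : P.encard ≤ M) (hJ : ∀ a b, J.Adj a b → b ∈ P)
    (hR : ∀ a b, J.Adj a b → edist a b ≤ (R : ℝ≥0∞)) {a b : V} (h : J.Reachable a b) :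
    edist a b ≤ ((R * M : ℕ) : ℝ≥0∞) := by
  classical
  obtain ⟨p⟩ := h
  have h1 : ∀ {a b : V} (p : J.Walk a b), edist a b ≤ ((R * p.length : ℕ) : ℝ≥0∞) := by
    intro a b p
    induction p with
    | nil => simp
    | cons h q ih =>
      refine (edist_triangle _ _ _).trans ((add_le_add (hR _ _ h) ih).trans ?_)
      rw [SimpleGraph.Walk.length_cons, mul_add, mul_one, Nat.cast_add, add_comm]
  have h2 : ∀ {a b : V} (p : J.Walk a b), ∀ v ∈ p.support.tail, v ∈ P := by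
    intro a b p
    induction p with
    | nil => simp
    | cons h q ih =>
      intro v hv
      rw [SimpleGraph.Walk.support_cons, List.tail_cons] at hv
      rw [← SimpleGraph.Walk.cons_tail_support, List.mem_cons] at hv
      rcases hv with rfl | hv
      · exact hJ _ _ h
      · exact ih v hv
  have h3 : p.toPath.1.length ≤ M := by
    have h4 : (p.toPath.1.support.tail).Nodup := p.toPath.2.support_nodup.tail
    have h5 : ((p.toPath.1.support.tail.toFinset : Finset V) : Set V) ⊆ P := by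
      intro v hv
      exact h2 p.toPath.1 v (by simpa using hv)
    have h6 := (Set.encard_le_encard h5).trans hP
    rw [Set.encard_coe_eq_coe_finsetCard, List.toFinset_card_of_nodup h4, List.length_tail,
      SimpleGraph.Walk.length_support, Nat.add_sub_cancel] at h6
    exact_mod_cast h6
  exact (h1 p.toPath.1).trans (by exact_mod_cast Nat.mul_le_mul_left R h3)

variable {V W : Type}

/-- **Bounded-to-one maps to forests.** -/
theorem asdim_of_map (Γ : SimpleGraph V) (d : ℕ) (hd : ∀ u, {v | Γ.Adj u v}.encard ≤ d)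
    (Q : SimpleGraph W) (hforest : ∀ Q' : SimpleGraph W, Q' ≤ Q → @AsdimLeOne W (gMet Q'))
    (ρ : V → W) (K : ℕ) (hK : ∀ w, {v | ρ v = w}.encard ≤ K)
    (hρ : ∀ u v, Γ.Adj u v → ρ u = ρ v ∨ Q.Adj (ρ u) (ρ v)) : @AsdimLeOne V (gMet Γ) := by
  intro r
  let Q' : SimpleGraph W :=
    { Adj := fun a b => Q.Adj a b ∧ ∃ u v, Γ.Adj u v ∧ ρ u = a ∧ ρ v = b
      symm := ⟨fun a b ⟨h, u, v, h1, h2, h3⟩ => ⟨h.symm, v, u, h1.symm, h3, h2⟩⟩
      loopless := ⟨fun a h => Q.irrefl h.1⟩ }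
  have hQ'd : ∀ w, {w' | Q'.Adj w w'}.encard ≤ (K * d : ℕ) := by
    intro w
    refine (Set.encard_le_encard ?_).trans (encard_biUnion_mul {v | ρ v = w}
      (fun u => ρ '' {v | Γ.Adj u v}) K d (hK w) fun u _ =>
        (Set.encard_image_le _ _).trans (hd u))
    rintro w' ⟨_, u, v, h1, h2, h3⟩
    exact Set.mem_biUnion (x := u) h2 ⟨v, h1, h3⟩
  have hwalk : ∀ {x y : V} (p : Γ.Walk x y), ∃ q : Q'.Walk (ρ x) (ρ y), q.length ≤ p.length := by
    intro x y p
    induction p with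
    | nil => exact ⟨SimpleGraph.Walk.nil, le_rfl⟩
    | cons h q ih =>
      obtain ⟨q', hq'⟩ := ih
      rcases hρ _ _ h with h1 | h1
      · refine ⟨q'.copy h1.symm rfl, ?_⟩
        rw [SimpleGraph.Walk.length_copy, SimpleGraph.Walk.length_cons]
        omega
      · refine ⟨SimpleGraph.Walk.cons (show Q'.Adj _ _ from ⟨h1, _, _, h, rfl, rfl⟩) q', ?_⟩
        rw [SimpleGraph.Walk.length_cons, SimpleGraph.Walk.length_cons]
        omega
  have hlip : ∀ (x y : V) (n : ℕ), @edist V (gMet Γ).toEDist x y ≤ (n : ℝ≥0∞) →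
      @edist W (gMet Q').toEDist (ρ x) (ρ y) ≤ (n : ℝ≥0∞) := by
    intro x y n h
    rw [gMet_le] at h ⊢
    obtain ⟨p, hp⟩ := h
    obtain ⟨q, hq⟩ := hwalk p
    exact ⟨q, hq.trans hp⟩
  obtain ⟨D, c, hc1, hc2, hc3⟩ := hforest Q' (fun a b h => h.1) r
  let _ := gMet Γ
  let J : Set W → SimpleGraph V := fun U =>
    { Adj := fun a b => a ≠ b ∧ ρ a ∈ U ∧ ρ b ∈ U ∧ edist a b ≤ ((2 * r : ℕ) : ℝ≥0∞)
      symm := ⟨fun a b h => ⟨h.1.symm, h.2.2.1, h.2.1, by rw [edist_comm]; exact h.2.2.2⟩⟩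
      loopless := ⟨fun a h => h.1 rfl⟩ }
  have hJ : ∀ U a b, ρ a ∈ U → (J U).Reachable a b → ρ b ∈ U := by
    rintro U a b ha ⟨p⟩
    induction p with
    | nil => exact ha
    | cons h q ih => exact ih h.2.2.1
  refine ⟨2 * r * ((K * d + 1) ^ D * K), {C | ∃ U ∈ c, ∃ x, ρ x ∈ U ∧ C = {y | (J U).Reachable x y}},
    fun x => ?_, ?_, fun x => ?_⟩
  · obtain ⟨U, hU, hx⟩ := hc1 (ρ x)
    exact ⟨_, ⟨U, hU, x, hx, rfl⟩, SimpleGraph.Reachable.refl _⟩
  · rintro _ ⟨U, hU, x, hx, rfl⟩ y hy z hz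
    refine edist_le_of_reachable (J U) {v | ρ v ∈ U} (2 * r) ((K * d + 1) ^ D * K) ?_
      (fun a b h => h.2.2.1) (fun a b h => h.2.2.2) (hy.symm.trans hz)
    refine (Set.encard_le_encard ?_).trans (encard_biUnion_mul
      {w | ∃ p : Q'.Walk (ρ x) w, p.length ≤ D} (fun w => {v | ρ v = w}) _ K
      (ball_encard Q' (K * d) hQ'd D (ρ x)) fun w _ => hK w)
    intro v hv
    exact Set.mem_biUnion (x := ρ v) ((gMet_le Q' _ _ _).1 (hc2 U hU _ hx _ hv)) rfl
  · refine le_trans ?_ (hc3 (ρ x))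
    refine le_trans (Set.encard_le_encard ?_) (Set.encard_image_le
      (fun U => {y | ∃ z, ρ z ∈ U ∧ edist x z ≤ (r : ℝ≥0∞) ∧ (J U).Reachable z y}) _)
    rintro _ ⟨⟨U, hU, x0, hx0, rfl⟩, y, hy, hxy⟩
    have hyU : ρ y ∈ U := hJ U x0 y hx0 hy
    refine ⟨U, ⟨hU, ρ y, hyU, hlip _ _ _ hxy⟩, ?_⟩
    ext y'
    constructor
    · rintro ⟨z, hz, hxz, hzy⟩
      have h1 : (J U).Reachable y z := by
        by_cases h : y = z
        · rw [h]
        · refine SimpleGraph.Adj.reachable ⟨h, hyU, hz, ?_⟩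
          refine (edist_triangle y x z).trans ?_
          rw [edist_comm y x, two_mul, Nat.cast_add]
          exact add_le_add hxy hxz
      exact SimpleGraph.Reachable.trans hy (h1.trans hzy)
    · intro hy'
      exact ⟨y, hyU, hxy, SimpleGraph.Reachable.trans (SimpleGraph.Reachable.symm hy) hy'⟩

end Pool.Agent.ZT
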