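import Pool.Agent.ZT.T1

/-!
# Letters for a space of bounded geometry

A space of bounded geometry has a colouring with a finite number of colours such that two different
points at distance at most `2 L` have different colours.  For two colours `i` and `j` the permutation
which swaps a point of colour `i` and the point of colour `j` at distance at most `L` (if there is
one) is well defined.  These permutations are the letters.
-/

set_option autoImplicit false

namespace Pool.Agent.ZT

/-- Greedy colouring along a well order. -/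
theorem exists_colour {X : Type} (adj : X → X → Prop) (n : ℕ) (hs : ∀ x y, adj x y → adj y x)
    (h : ∀ x, {y | adj x y}.encard ≤ n) :
    ∃ c : X → Fin (n + 1), ∀ x y, x ≠ y → adj x y → c x ≠ c y := by
  classical
  let R : X → X → Prop := WellOrderingRel
  have hwf : WellFounded R := IsWellFounded.wf
  let F : ∀ x : X, (∀ y, R y x → ℕ) → ℕ := fun x ih =>
    sInf {m | ∀ y (hy : R y x), adj x y → ih y hy ≠ m}
  let c : X → ℕ := hwf.fix F
  have hc : ∀ x, c x = sInf {m | ∀ y, R y x → adj x y → c y ≠ m} := fun x => hwf.fix_eq F x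
  have key : ∀ x, ∃ m, m < n + 1 ∧ ∀ y, R y x → adj x y → c y ≠ m := by
    intro x
    by_contra hcon
    push Not at hcon
    have h1 : Set.Iio (n + 1) ⊆ c '' {y | adj x y} := by
      intro m hm
      obtain ⟨y, -, hy, hyc⟩ := hcon m hm
      exact ⟨y, hy, hyc⟩
    have h2 : (Set.Iio (n + 1)).encard ≤ n :=
      (Set.encard_le_encard h1).trans ((Set.encard_image_le c _).trans (h x))
    have h3 : (Set.Iio (n + 1)).encard = ((n + 1 : ℕ) : ℕ∞) := by
      rw [← Finset.coe_Iio, Set.encard_coe_eq_coe_finsetCard, Nat.card_Iio]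
    rw [h3, Nat.cast_le] at h2
    omega
  have hlt : ∀ x, c x < n + 1 := by
    intro x
    obtain ⟨m, hm, hm'⟩ := key x
    rw [hc x]
    have h1 : sInf {m | ∀ y, R y x → adj x y → c y ≠ m} ≤ m := Nat.sInf_le hm'
    exact h1.trans_lt hm
  have hne : ∀ x y, R y x → adj x y → c y ≠ c x := by
    intro x y hyx hxy
    obtain ⟨m, hm, hm'⟩ := key x
    have h1 : sInf {m | ∀ y, R y x → adj x y → c y ≠ m} ∈ {m | ∀ y, R y x → adj x y → c y ≠ m} :=
      Nat.sInf_mem ⟨m, hm'⟩
    rw [← hc x] at h1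
    exact h1 y hyx hxy
  refine ⟨fun x => ⟨c x, hlt x⟩, fun x y hxy ha he => ?_⟩
  have he' : c x = c y := congrArg Fin.val he
  rcases trichotomous_of WellOrderingRel x y with h1 | h1 | h1
  · exact hne y x h1 (hs x y ha) he'
  · exact hxy h1
  · exact hne x y h1 ha he'.symm

variable {X : Type} [PseudoEMetricSpace X]

/-- Bounded geometry gives letters. -/
theorem hasLetters (h : BddGeom X) : HasLetters X := by
  classical
  intro L
  obtain ⟨n, hn⟩ := h (L + L)
  obtain ⟨c, hc⟩ := exists_colour (fun x y : X => edist x y ≤ (L + L : ℕ)) n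
    (fun x y hxy => by rwa [edist_comm]) hn
  let M : Fin (n + 1) × Fin (n + 1) → X → X → Prop := fun a x y =>
    edist x y ≤ L ∧ ((c x = a.1 ∧ c y = a.2) ∨ (c x = a.2 ∧ c y = a.1))
  have hMs : ∀ a x y, M a x y → M a y x := by
    rintro a x y ⟨h1, h2⟩
    refine ⟨by rwa [edist_comm], ?_⟩
    rcases h2 with ⟨h2, h3⟩ | ⟨h2, h3⟩
    · exact Or.inr ⟨h3, h2⟩
    · exact Or.inl ⟨h3, h2⟩
  have hMu : ∀ a x y z, M a x y → M a x z → y = z := by
    rintro a x y z ⟨h1, h2⟩ ⟨h3, h4⟩
    by_contra hne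
    refine hc y z hne ?_ ?_
    · refine (edist_triangle_left y z x).trans ?_
      rw [Nat.cast_add]
      exact add_le_add h1 h3
    · rcases h2 with ⟨h2, h5⟩ | ⟨h2, h5⟩ <;> rcases h4 with ⟨h4, h6⟩ | ⟨h4, h6⟩
      · rw [h5, h6]
      · rw [h5, h6, ← h4, ← h2]
      · rw [h5, h6, ← h4, ← h2]
      · rw [h5, h6]
  let f : Fin (n + 1) × Fin (n + 1) → X → X := fun a x =>
    if h : ∃ y, M a x y then h.choose else x
  have hf1 : ∀ a x y, M a x y → f a x = y := by
    intro a x y hxy
    have h1 : ∃ y, M a x y := ⟨y, hxy⟩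
    change dite _ _ _ = _
    rw [dif_pos h1]
    exact hMu a x _ _ h1.choose_spec hxy
  have hf2 : ∀ a x, (¬ ∃ y, M a x y) → f a x = x := by
    intro a x h1
    change dite _ _ _ = _
    rw [dif_neg h1]
  have hff : ∀ a x, f a (f a x) = x := by
    intro a x
    by_cases h1 : ∃ y, M a x y
    · obtain ⟨y, hy⟩ := h1
      rw [hf1 a x y hy]
      exact hf1 a y x (hMs a x y hy)
    · rw [hf2 a x h1, hf2 a x h1]
  have hfd : ∀ a x, edist x (f a x) ≤ L := by
    intro a x
    by_cases h1 : ∃ y, M a x y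
    · obtain ⟨y, hy⟩ := h1
      rw [hf1 a x y hy]
      exact hy.1
    · rw [hf2 a x h1, edist_self]
      exact zero_le
  refine ⟨Fin (n + 1) × Fin (n + 1), inferInstance, fun a => Function.Involutive.toPerm (f a) (hff a),
    fun a => ⟨L, hfd a⟩, ⟨L, hfd⟩, fun x y hxy => ⟨(c x, c y), ?_⟩⟩
  exact hf1 (c x, c y) x y ⟨hxy, Or.inl ⟨rfl, rfl⟩⟩

end Pool.Agent.ZT
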