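import Pool.Agent.ZT.Parad
import Pool.Agent.ZT.Asd

/-!
# Paradoxical sets of a metric space and Thompson's group `T`

If a nonempty set of points of a (pseudo, extended) metric space is paradoxical, the group of the
permutations of bounded displacement has a nontrivial solution of the relations of Thompson's `T`.
-/

set_option autoImplicit false

namespace Pool.Agent.ZT

section metric

variable {X : Type} [PseudoEMetricSpace X]

/-- Nontrivial solutions in the group of the permutations of bounded displacement. -/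
theorem exists_thom_WM {P : Set X} (hP : P.Nonempty) (h : ParM P) :
    ∃ a b c : Equiv.Perm X, Thom a b c ∧ a ≠ 1 ∧ a ∈ WM X ∧ b ∈ WM X ∧ c ∈ WM X := by
  classical
  obtain ⟨N, α, β, h3, h4, h1, h2, h5, h6⟩ := h
  have : Nonempty P := hP.to_subtype
  obtain ⟨D, h8, h9⟩ := exists_dup (P := P) (α := fun v => ⟨α v, h3 v.2⟩)
    (β := fun v => ⟨β v, h4 v.2⟩)
    (fun u v h => Subtype.ext (h1 u.2 v.2 (congrArg Subtype.val h)))
    (fun u v h => Subtype.ext (h2 u.2 v.2 (congrArg Subtype.val h)))
    (fun u v h => Set.disjoint_left.1 h5 ⟨u, u.2, rfl⟩ ⟨v, v.2, (congrArg Subtype.val h).symm⟩)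
  let E : ℕ → P → P → Prop := fun n x y => edist (x : X) y ≤ (n * N : ℕ)
  have hE : Dup.Tower E := by
    refine ⟨fun x => ?_, fun n x y h => ?_, fun n m x y z h h' => ?_, fun n m x y h h' => ?_⟩
    · change edist (x : X) x ≤ _
      rw [edist_self]
      exact zero_le
    · change edist (y : X) x ≤ _
      rw [edist_comm]
      exact h
    · refine (edist_triangle _ _ _).trans ((add_le_add h h').trans ?_)
      rw [add_mul]
      push_cast
      exact le_rfl
    · refine h'.trans ?_
      exact_mod_cast Nat.mul_le_mul_right N h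
  have e0 : ∀ w, E 1 w (D.i0 w) := by
    intro w
    rcases h8 w with h | h
    · rw [h]
      change edist (w : X) (α w) ≤ _
      rw [one_mul]
      exact (h6 w w.2).1
    · rw [h]
      exact hE.mono 0 1 _ _ zero_le (hE.refl w)
  have e1 : ∀ w, E 1 w (D.i1 w) := by
    intro w
    rw [h9 w]
    change edist (w : X) (β w) ≤ _
    rw [one_mul]
    exact (h6 w w.2).2
  have key : ∀ q : Equiv.Perm P, (∀ u, E 6 u (q u)) → Equiv.Perm.ofSubtype q ∈ WM X := by
    intro q hq
    refine ⟨6 * N, fun v => ?_⟩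
    by_cases hv : v ∈ P
    · rw [Equiv.Perm.ofSubtype_apply_of_mem q hv]
      exact hq ⟨v, hv⟩
    · rw [Equiv.Perm.ofSubtype_apply_of_not_mem q hv, edist_self]
      exact zero_le
  refine ⟨Equiv.Perm.ofSubtype D.A, Equiv.Perm.ofSubtype D.B, Equiv.Perm.ofSubtype D.C,
    D.thom.map Equiv.Perm.ofSubtype, fun h => ?_, key _ fun u => ?_, key _ fun u => ?_,
    key _ fun u => ?_⟩
  · exact D.A_ne_one (Equiv.Perm.ofSubtype_injective (h.trans (map_one _).symm))
  · exact hE.mono 4 6 _ _ (by omega) (Dup.A_near hE e0 e1 u)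
  · exact Dup.B_near hE e0 e1 u
  · exact hE.mono 4 6 _ _ (by omega) (Dup.C_near hE e0 e1 u)

/-- **No paradoxical sets.** -/
theorem not_parM_of_noT (h : NoT (WM X)) (U : Set X) (hU : U.Nonempty) : ¬ ParM U := by
  intro hp
  obtain ⟨a, b, c, h1, h2, h3, h4, h5⟩ := exists_thom_WM hU hp
  exact h2 (noT_false h h3 h4 h5 h1)

end metric

end Pool.Agent.ZT
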