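import Pool.Agent.ZT.Asd
import Pool.Agent.Helper29.PA.Defs

/-!
# Pull-back metrics

A group `G` acts on `S`, and `ρ : S → X` is a map into a metric space. The distance of two points of
one orbit is the distance of their images, and points of different orbits have distance `∞`.
-/

set_option autoImplicit false

namespace Pool.Agent.ZT

open Pool.Agent.Helper29.BA Pool.Agent.Helper29.PA

/-- The set `S` with the pull-back metric. -/
def Pb (_G : Type) {S X : Type} (_ρ : S → X) : Type := S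

section

variable (G : Type) {S X : Type} [Group G] [MulAction G S] [PseudoEMetricSpace X]

open Classical in
noncomputable instance (ρ : S → X) : PseudoEMetricSpace (Pb G ρ) where
  edist s t := if (show S from t) ∈ MulAction.orbit G (show S from s) then edist (ρ s) (ρ t) else ⊤
  edist_self s := by
    rw [if_pos (MulAction.mem_orbit_self _), edist_self]
  edist_comm s t := by
    by_cases h : (show S from t) ∈ MulAction.orbit G (show S from s)
    · rw [if_pos h, if_pos (MulAction.mem_orbit_symm.1 h), edist_comm]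
    · rw [if_neg h, if_neg (fun h' => h (MulAction.mem_orbit_symm.1 h'))]
  edist_triangle s t u := by
    by_cases h : (show S from t) ∈ MulAction.orbit G (show S from s)
    · by_cases h' : (show S from u) ∈ MulAction.orbit G (show S from t)
      · have h1 : (show S from u) ∈ MulAction.orbit G (show S from s) := by
          rw [← MulAction.orbit_eq_iff.2 h]
          exact h'
        rw [if_pos h, if_pos h', if_pos h1]
        exact edist_triangle _ _ _
      · rw [if_neg h', add_top]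
        exact le_top
    · rw [if_neg h, top_add]
      exact le_top

variable {G}
variable {ρ : S → X}

/-- The points of the pull-back space. -/
def toPb (G : Type) [Group G] [MulAction G S] (ρ : S → X) (s : S) : Pb G ρ := s

theorem edist_pb_le {s t : S} {N : ENNReal} (hN : N ≠ ⊤) :
    edist (toPb G ρ s) (toPb G ρ t) ≤ N ↔ t ∈ MulAction.orbit G s ∧ edist (ρ s) (ρ t) ≤ N := by
  classical
  change (if t ∈ MulAction.orbit G s then edist (ρ s) (ρ t) else ⊤) ≤ N ↔ _
  by_cases h : t ∈ MulAction.orbit G s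
  · rw [if_pos h]
    exact ⟨fun h1 => ⟨h, h1⟩, fun h1 => h1.2⟩
  · rw [if_neg h]
    exact ⟨fun h1 => (hN (top_le_iff.1 h1)).elim, fun h1 => (h h1.1).elim⟩

/-- Bounded geometry. -/
theorem bddGeom_pb (hX : BddGeom X) (k : ℕ)
    (hk : ∀ (s : S) (v : X), {t ∈ MulAction.orbit G s | ρ t = v}.encard ≤ k) :
    BddGeom (Pb G ρ) := by
  classical
  intro r
  obtain ⟨n, hn⟩ := hX r
  refine ⟨n * k, fun s => ?_⟩
  have hfin : {x : X | edist (ρ s) x ≤ r}.Finite :=
    Set.finite_of_encard_le_coe (hn (ρ s))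
  have h1 : {t : Pb G ρ | edist s t ≤ r} ⊆
      ⋃ x ∈ hfin.toFinset, {t : S | t ∈ MulAction.orbit G (show S from s) ∧ ρ t = x} := by
    intro t ht
    have h2 := (edist_pb_le (ENNReal.natCast_ne_top r)).1 (show edist (toPb G ρ s) (toPb G ρ t) ≤ _
      from ht)
    exact Set.mem_iUnion₂.2 ⟨ρ t, hfin.mem_toFinset.2 h2.2, h2.1, rfl⟩
  refine (Set.encard_le_encard h1).trans ?_
  have h3 : ∀ F : Finset X, (⋃ x ∈ F, {t : S | t ∈ MulAction.orbit G (show S from s) ∧
      ρ t = x}).encard ≤ F.card * k := by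
    intro F
    induction F using Finset.induction_on with
    | empty => simp
    | insert x F hx ih =>
      rw [Finset.set_biUnion_insert, Finset.card_insert_of_notMem hx, Nat.cast_add, Nat.cast_one,
        add_mul, one_mul, add_comm]
      exact (Set.encard_union_le _ _).trans (add_le_add (hk s x) ih)
  refine (h3 _).trans ?_
  rw [Nat.cast_mul]
  gcongr
  have h4 := hn (ρ s)
  rw [hfin.encard_eq_coe_toFinset_card] at h4
  exact_mod_cast h4

/-- Asymptotic dimension at most one. -/
theorem asdim_pb (hX : AsdimLeOne X) : AsdimLeOne (Pb G ρ) := by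
  intro r
  obtain ⟨D, c, h1, h2, h3⟩ := hX r
  refine ⟨D, {V | ∃ (s : S), ∃ U ∈ c, V = {t : S | t ∈ MulAction.orbit G s ∧ ρ t ∈ U}}, ?_, ?_, ?_⟩
  · intro s
    obtain ⟨U, hU, hs⟩ := h1 (ρ s)
    exact ⟨_, ⟨s, U, hU, rfl⟩, MulAction.mem_orbit_self _, hs⟩
  · rintro V ⟨s, U, hU, rfl⟩ x hx y hy
    refine (edist_pb_le (G := G) (ρ := ρ) (s := x) (t := y) (ENNReal.natCast_ne_top D)).2
      ⟨?_, h2 U hU _ hx.2 _ hy.2⟩
    rw [MulAction.orbit_eq_iff.2 hx.1]
    exact hy.1
  · intro s
    have h4 : {V ∈ {V : Set (Pb G ρ) | ∃ (s : S), ∃ U ∈ c, V = {t : S | t ∈ MulAction.orbit G s ∧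
        ρ t ∈ U}} | ∃ y ∈ V, edist s y ≤ r} ⊆
        (fun U : Set X => ({t : S | t ∈ MulAction.orbit G (show S from s) ∧ ρ t ∈ U} :
          Set (Pb G ρ))) '' {U ∈ c | ∃ y ∈ U, edist (ρ s) y ≤ r} := by
      rintro V ⟨⟨s', U, hU, rfl⟩, y, hy, hsy⟩
      have h5 := (edist_pb_le (ENNReal.natCast_ne_top r)).1
        (show edist (toPb G ρ s) (toPb G ρ y) ≤ _ from hsy)
      refine ⟨U, ⟨hU, ρ y, hy.2, h5.2⟩, ?_⟩
      have h6 : MulAction.orbit G (show S from s) = MulAction.orbit G s' := by
        rw [← MulAction.orbit_eq_iff.2 h5.1, ← MulAction.orbit_eq_iff.2 hy.1]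
      change {t : S | t ∈ MulAction.orbit G (show S from s) ∧ ρ t ∈ U} = _
      rw [h6]
    exact (Set.encard_le_encard h4).trans ((Set.encard_image_le _ _).trans (h3 (ρ s)))

/-- Words in two maps. -/
theorem exists_words {Y : Type} [PseudoEMetricSpace Y] {U : Set Y} {N : ℕ} {a b : Y → Y}
    (ha : Set.MapsTo a U U) (hb : Set.MapsTo b U U) (hai : Set.InjOn a U) (hbi : Set.InjOn b U)
    (hab : Disjoint (a '' U) (b '' U))
    (hN : ∀ u ∈ U, edist u (a u) ≤ N ∧ edist u (b u) ≤ N) (j : ℕ) (E : Finset Y)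
    (hE : (E : Set Y) ⊆ U) :
    ∃ E' : Finset Y, (E' : Set Y) ⊆ U ∧ E'.card = 2 ^ j * E.card ∧
      ∀ y ∈ E', ∃ x ∈ E, edist x y ≤ (j * N : ℕ) := by
  classical
  induction j with
  | zero =>
    refine ⟨E, hE, by rw [pow_zero, one_mul], fun y hy => ⟨y, hy, ?_⟩⟩
    rw [edist_self]
    exact zero_le
  | succ j ih =>
    obtain ⟨E', h1, h2, h3⟩ := ih
    refine ⟨E'.image a ∪ E'.image b, ?_, ?_, ?_⟩
    · intro y hy
      rw [Finset.coe_union, Finset.coe_image, Finset.coe_image] at hy
      rcases hy with ⟨x, hx, rfl⟩ | ⟨x, hx, rfl⟩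
      · exact ha (h1 hx)
      · exact hb (h1 hx)
    · rw [Finset.card_union_of_disjoint, Finset.card_image_of_injOn (hai.mono h1),
        Finset.card_image_of_injOn (hbi.mono h1), h2]
      · ring
      · rw [Finset.disjoint_left]
        intro y hy hy'
        obtain ⟨x, hx, rfl⟩ := Finset.mem_image.1 hy
        obtain ⟨x', hx', h4⟩ := Finset.mem_image.1 hy'
        exact Set.disjoint_left.1 hab ⟨x, h1 hx, rfl⟩ ⟨x', h1 hx', h4⟩
    · intro y hy
      have key : ∀ f : Y → Y, (∀ u ∈ U, edist u (f u) ≤ N) → y ∈ E'.image f →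
          ∃ x ∈ E, edist x y ≤ ((j + 1) * N : ℕ) := by
        intro f hf hy
        obtain ⟨z, hz, rfl⟩ := Finset.mem_image.1 hy
        obtain ⟨x, hx, hxz⟩ := h3 z hz
        refine ⟨x, hx, (edist_triangle _ z _).trans ?_⟩
        have h5 : (((j + 1) * N : ℕ) : ENNReal) = ((j * N : ℕ) : ENNReal) + (N : ENNReal) := by
          rw [← Nat.cast_add]
          congr 1
          ring
        rw [h5]
        exact add_le_add hxz (hf z (h1 hz))
      rcases Finset.mem_union.1 hy with hy | hy
      · exact key a (fun u hu => (hN u hu).1) hy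
      · exact key b (fun u hu => (hN u hu).2) hy

/-- **Transfer of paradoxes.** -/
theorem parM_of_pb (hX : BddGeom X) {k : ℕ}
    (hk : ∀ (s : S) (v : X), {t ∈ MulAction.orbit G s | ρ t = v}.encard ≤ k) {U : Set (Pb G ρ)}
    (hU : U.Nonempty) (hp : ParM U) : ∃ W : Set X, W.Nonempty ∧ ParM W := by
  classical
  obtain ⟨N, a, b, ha, hb, hai, hbi, hab, hN⟩ := hp
  obtain ⟨s₀, hs₀⟩ := hU
  -- the part of `U` in the orbit of `s₀`
  let O : Set S := MulAction.orbit G (show S from s₀)
  let U' : Set (Pb G ρ) := {s | s ∈ U ∧ (show S from s) ∈ O}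
  have horb : ∀ (s t : Pb G ρ), (show S from s) ∈ O → edist s t ≤ (N : ENNReal) →
      (show S from t) ∈ O := by
    intro s t hs h
    have h1 := ((edist_pb_le (ENNReal.natCast_ne_top N)).1
      (show edist (toPb G ρ s) (toPb G ρ t) ≤ _ from h)).1
    rw [MulAction.orbit_eq_iff.2 hs] at h1
    exact h1
  have ha' : Set.MapsTo a U' U' := fun s hs => ⟨ha hs.1, horb s _ hs.2 (hN s hs.1).1⟩
  have hb' : Set.MapsTo b U' U' := fun s hs => ⟨hb hs.1, horb s _ hs.2 (hN s hs.1).2⟩
  have hsub : U' ⊆ U := fun s hs => hs.1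
  have hab' : Disjoint (a '' U') (b '' U') :=
    hab.mono (Set.image_mono hsub) (Set.image_mono hsub)
  let W : Set X := {x | ∃ s : S, (s : Pb G ρ) ∈ U' ∧ ρ s = x}
  let M : ℕ := 2 * k * N
  refine ⟨W, ⟨ρ s₀, s₀, ⟨hs₀, MulAction.mem_orbit_self _⟩, rfl⟩, ?_⟩
  -- the neighbourhoods
  have hfin : ∀ x : X, {y : X | edist x y ≤ (M : ENNReal)}.Finite := by
    intro x
    obtain ⟨n, hn⟩ := hX M
    exact Set.finite_of_encard_le_coe (hn x)
  let t : W × Bool → Finset X := fun w => {y ∈ (hfin w.1.1).toFinset | y ∈ W}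
  have ht : ∀ w y, y ∈ t w ↔ edist w.1.1 y ≤ (M : ENNReal) ∧ y ∈ W := by
    intro w y
    change y ∈ Finset.filter _ _ ↔ _
    rw [Finset.mem_filter, Set.Finite.mem_toFinset]
    rfl
  -- Hall's condition
  have hall : ∀ F : Finset (W × Bool), F.card ≤ (F.biUnion t).card := by
    intro F
    let F1 : Finset W := F.image Prod.fst
    have hF1 : F.card ≤ 2 * F1.card := by
      have h1 : F ⊆ F1 ×ˢ (Finset.univ : Finset Bool) := by
        intro w hw
        exact Finset.mem_product.2 ⟨Finset.mem_image_of_mem _ hw, Finset.mem_univ _⟩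
      refine (Finset.card_le_card h1).trans ?_
      rw [Finset.card_product, Finset.card_univ, Fintype.card_bool, mul_comm]
    -- the representatives
    have hrep : ∀ w : W, ∃ s : S, (s : Pb G ρ) ∈ U' ∧ ρ s = w.1 := fun w => w.2
    choose rep hrep1 hrep2 using hrep
    have hinj : Function.Injective rep := by
      intro w w' h
      apply Subtype.ext
      rw [← hrep2 w, ← hrep2 w', h]
    let E : Finset (Pb G ρ) := F1.image rep
    have hEc : E.card = F1.card := Finset.card_image_of_injective _ hinj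
    have hEU : (E : Set (Pb G ρ)) ⊆ U' := by
      intro s hs
      obtain ⟨w, -, rfl⟩ := Finset.mem_image.1 hs
      exact hrep1 w
    obtain ⟨E', h1, h2, h3⟩ := exists_words ha' hb' (hai.mono hsub) (hbi.mono hsub) hab'
      (fun u hu => hN u hu.1) (2 * k) E hEU
    -- the image of `E'`
    have h4 : E'.card ≤ k * (E'.image fun s => ρ s).card := by
      refine Finset.card_le_mul_card_image _ _ fun x _ => ?_
      have h5 : ((Finset.filter (fun s : Pb G ρ => ρ s = x) E' : Finset (Pb G ρ)) :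
          Set (Pb G ρ)) ⊆ {t : Pb G ρ | (show S from t) ∈ MulAction.orbit G (show S from s₀) ∧
            ρ t = x} := by
        intro s hs
        rw [Finset.coe_filter] at hs
        exact ⟨(h1 hs.1).2, hs.2⟩
      have h6 := (Set.encard_le_encard h5).trans (hk s₀ x)
      rw [Set.encard_coe_eq_coe_finsetCard] at h6
      exact_mod_cast h6
    have h5 : (E'.image fun s => ρ s) ⊆ F.biUnion t := by
      intro x hx
      obtain ⟨s, hs, rfl⟩ := Finset.mem_image.1 hx
      obtain ⟨r, hr, hrs⟩ := h3 s hs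
      obtain ⟨w, hw, rfl⟩ := Finset.mem_image.1 hr
      obtain ⟨z, hz, rfl⟩ := Finset.mem_image.1 hw
      refine Finset.mem_biUnion.2 ⟨z, hz, (ht _ _).2 ⟨?_, s, h1 hs, rfl⟩⟩
      have h6 := ((edist_pb_le (ENNReal.natCast_ne_top _)).1
        (show edist (toPb G ρ (rep z.1)) (toPb G ρ s) ≤ _ from hrs)).2
      rw [hrep2] at h6
      exact h6
    have h6 := Finset.card_le_card h5
    have h7 : 2 * k ≤ 2 ^ (2 * k) := (Nat.lt_two_pow_self (n := 2 * k)).le
    rcases Nat.eq_zero_or_pos k with hk0 | hk0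
    · -- then there are no points
      exfalso
      have h8 := hk (show S from s₀) (ρ s₀)
      rw [hk0, Nat.cast_zero, nonpos_iff_eq_zero, Set.encard_eq_zero] at h8
      have h9 : (show S from s₀) ∈ {t ∈ MulAction.orbit G (show S from s₀) | ρ t = ρ s₀} :=
        ⟨MulAction.mem_orbit_self _, rfl⟩
      rw [h8] at h9
      exact h9
    · have h8 : 2 * k * F1.card ≤ k * (F.biUnion t).card :=
        calc 2 * k * F1.card ≤ 2 ^ (2 * k) * E.card := by
              rw [hEc]
              exact Nat.mul_le_mul_right _ h7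
          _ = E'.card := h2.symm
          _ ≤ k * (E'.image fun s => ρ s).card := h4
          _ ≤ k * (F.biUnion t).card := Nat.mul_le_mul_left _ h6
      have h9 : 2 * F1.card ≤ (F.biUnion t).card := by
        refine Nat.le_of_mul_le_mul_left ?_ hk0
        calc k * (2 * F1.card) = 2 * k * F1.card := by ring
          _ ≤ _ := h8
      exact hF1.trans h9
  obtain ⟨f, hf1, hf2⟩ := (Finset.all_card_le_biUnion_card_iff_exists_injective t).1 hall
  refine ⟨M, fun x => if h : x ∈ W then f (⟨x, h⟩, false) else x,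
    fun x => if h : x ∈ W then f (⟨x, h⟩, true) else x, ?_, ?_, ?_, ?_, ?_, ?_⟩
  · intro x hx
    change dite _ _ _ ∈ W
    rw [dif_pos hx]
    exact ((ht _ _).1 (hf2 _)).2
  · intro x hx
    change dite _ _ _ ∈ W
    rw [dif_pos hx]
    exact ((ht _ _).1 (hf2 _)).2
  · intro x hx y hy h
    change dite _ _ _ = dite _ _ _ at h
    rw [dif_pos hx, dif_pos hy] at h
    have h1 := hf1 h
    exact congrArg (fun z : W × Bool => z.1.1) h1
  · intro x hx y hy h
    change dite _ _ _ = dite _ _ _ at h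
    rw [dif_pos hx, dif_pos hy] at h
    have h1 := hf1 h
    exact congrArg (fun z : W × Bool => z.1.1) h1
  · rw [Set.disjoint_left]
    rintro _ ⟨x, hx, rfl⟩ ⟨y, hy, h⟩
    change dite _ _ _ = dite _ _ _ at h
    rw [dif_pos hx, dif_pos hy] at h
    have h1 := hf1 h
    exact absurd (congrArg Prod.snd h1) (by simp)
  · intro x hx
    change edist x (dite _ _ _) ≤ _ ∧ edist x (dite _ _ _) ≤ _
    rw [dif_pos hx, dif_pos hx]
    exact ⟨((ht (⟨x, hx⟩, false) _).1 (hf2 _)).1, ((ht (⟨x, hx⟩, true) _).1 (hf2 _)).1⟩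

/-- The action by permutations of bounded displacement. -/
def toWM (hG : ∀ g : G, ∃ N : ℕ, ∀ s : S, edist (ρ s) (ρ (g • s)) ≤ N) : G →* WM (Pb G ρ) where
  toFun g := ⟨show Equiv.Perm (Pb G ρ) from (MulAction.toPerm g : Equiv.Perm S), by
    obtain ⟨N, hN⟩ := hG g
    exact ⟨N, fun s => (edist_pb_le (G := G) (ρ := ρ) (s := s) (t := g • (show S from s))
      (ENNReal.natCast_ne_top N)).2 ⟨MulAction.mem_orbit _ _, hN s⟩⟩⟩
  map_one' := Subtype.ext (Equiv.ext fun s => one_smul G (show S from s))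
  map_mul' g h := Subtype.ext (Equiv.ext fun s => mul_smul g h (show S from s))

theorem toWM_injective [FaithfulSMul G S]
    (hG : ∀ g : G, ∃ N : ℕ, ∀ s : S, edist (ρ s) (ρ (g • s)) ≤ N) :
    Function.Injective (toWM (S := S) (ρ := ρ) hG) := by
  intro g h hgh
  refine FaithfulSMul.eq_of_smul_eq_smul (α := S) fun s => ?_
  have h1 : (toWM (S := S) (ρ := ρ) hG g : Equiv.Perm (Pb G ρ)) (toPb G ρ s) =
      (toWM (S := S) (ρ := ρ) hG h : Equiv.Perm (Pb G ρ)) (toPb G ρ s) := by
    rw [hgh]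
  exact h1

/-- **Groups acting over a space.** If the groups `WM Y` of all spaces `Y` of bounded geometry and
asymptotic dimension at most one without paradoxical sets are in `C`, then also all groups acting
with bounded displacement over such a space. -/
theorem mem_of_pb {C : ∀ (G : Type) [Group G], Prop} (hC : ClosedClass C)
    (main : ∀ (Y : Type) [PseudoEMetricSpace Y], BddGeom Y → AsdimLeOne Y →
      (∀ U : Set Y, U.Nonempty → ¬ ParM U) → C (WM Y))
    (hX : BddGeom X) (hX' : AsdimLeOne X) (hX'' : ∀ U : Set X, U.Nonempty → ¬ ParM U)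
    [FaithfulSMul G S] (ρ : S → X) (k : ℕ)
    (hk : ∀ (s : S) (v : X), {t ∈ MulAction.orbit G s | ρ t = v}.encard ≤ k)
    (hG : ∀ g : G, ∃ N : ℕ, ∀ s : S, edist (ρ s) (ρ (g • s)) ≤ N) : C G := by
  have h1 : C (WM (Pb G ρ)) := main (Pb G ρ) (bddGeom_pb hX k hk) (asdim_pb hX') fun U hU hp => by
    obtain ⟨W, hW, hpW⟩ := parM_of_pb hX hk hU hp
    exact hX'' W hW hpW
  have h2 := hC.subgroup _ (toWM (S := S) (ρ := ρ) hG).range h1
  exact hC.iso _ _ (MonoidHom.ofInjective (toWM_injective (S := S) (ρ := ρ) hG)).symm h2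

end

end Pool.Agent.ZT
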