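import Pool.Agent.ZT.AsdMain
import Pool.Agent.ZT.Colr
import Pool.Agent.ZT.Pb
import Pool.Agent.ZT.ParadM
import Pool.Agent.ZT.ThomF

/-!
# The dichotomy for spaces of asymptotic dimension at most one
-/

set_option autoImplicit false

namespace Pool.Agent.ZT

open Pool.Agent.Helper29.BA Pool.Agent.Helper29.PA

/-- **Spaces of asymptotic dimension at most one without paradoxical sets.** -/
theorem mem_WM {C : ∀ (G : Type) [Group G], Prop} (hC : ExtClass C) {X : Type}
    [PseudoEMetricSpace X] (hX : BddGeom X) (hX' : AsdimLeOne X)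
    (hU : ∀ U : Set X, U.Nonempty → ¬ ParM U) : C (WM X) :=
  mem_WM_of_letters hC (hasLetters hX) hX' hU

/-- **The dichotomy for spaces of asymptotic dimension at most one.** -/
theorem asdim_dichotomy {X : Type} [PseudoEMetricSpace X] (hX : BddGeom X) (hX' : AsdimLeOne X) :
    List.TFAE [∀ C : (∀ (G : Type) [Group G], Prop), ExtClass C → C (WM X),
      ∀ (G S : Type) [Group G] [MulAction G S] [FaithfulSMul G S] (ρ : S → X) (k : ℕ),
        (∀ s v, {t ∈ MulAction.orbit G s | ρ t = v}.encard ≤ k) →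
        (∀ g : G, ∃ N : ℕ, ∀ s, edist (ρ s) (ρ (g • s)) ≤ N) →
        ∀ C : (∀ (G : Type) [Group G], Prop), ExtClass C → C G,
      ∀ U : Set X, U.Nonempty → ¬ ParM U,
      ∀ a b c : WM X, Thom a b c → a = 1 ∧ b = 1 ∧ c = 1,
      ∀ a b : WM X, ThF a b → a * b = b * a] := by
  tfae_have 1 → 5 := fun h => noF_of_forall h
  tfae_have 5 → 4 := fun h => noT_of_noF h
  tfae_have 4 → 3 := fun h U hU => not_parM_of_noT h U hU
  tfae_have 3 → 2 := by
    intro h G S _ _ _ ρ k hk hG C hC
    exact mem_of_pb hC.toClosedClass (fun Y _ h1 h2 h3 => mem_WM hC h1 h2 h3) hX hX' h ρ k hk hG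
  tfae_have 2 → 1 := by
    intro h C hC
    refine h (WM X) X id 1 (fun s v => ?_) (fun g => g.2) C hC
    refine (Set.encard_le_encard (t := {v}) ?_).trans ?_
    · rintro t ⟨-, ht⟩
      exact ht
    · rw [Set.encard_singleton, Nat.cast_one]
  tfae_finish

end Pool.Agent.ZT
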