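import Pool.Agent.ZT.Per

/-!
# Bounded full groups of permutations

`BF T` is the group of the permutations `σ` of a set such that `σ x = T ^ k x` with bounded `k`.
It is contained in the topological full group of the homeomorphism of the space of ultrafilters
given by `T`, and contains the topological full groups of homeomorphisms of compact spaces.
-/

set_option autoImplicit false

open Filter Topology

namespace Pool.Agent.ZT

open Pool.Agent.Helper29.BA Pool.Agent.Helper29.PA Pool.Agent.T59

variable {Ω : Type}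

/-- The bounded full group of a permutation: the permutations `σ` such that for some `N` and all
`x` there is an integer `k` with `|k| ≤ N` and `σ x = T ^ k x`. -/
def BF (T : Equiv.Perm Ω) : Subgroup (Equiv.Perm Ω) where
  carrier := {σ | ∃ N : ℕ, ∀ x, ∃ k : ℤ, |k| ≤ N ∧ σ x = (T ^ k) x}
  one_mem' := ⟨0, fun x => ⟨0, by simp, by simp⟩⟩
  mul_mem' := by
    rintro a b ⟨N, h⟩ ⟨M, h'⟩
    refine ⟨N + M, fun x => ?_⟩
    obtain ⟨k, hk, h1⟩ := h' x
    obtain ⟨l, hl, h2⟩ := h (b x)
    refine ⟨l + k, (abs_add_le l k).trans (by push_cast; exact add_le_add hl hk), ?_⟩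
    rw [Equiv.Perm.mul_apply, h2, h1, zpow_add, Equiv.Perm.mul_apply]
  inv_mem' := by
    rintro a ⟨N, h⟩
    refine ⟨N, fun x => ?_⟩
    obtain ⟨k, hk, h1⟩ := h (a⁻¹ x)
    refine ⟨-k, by rwa [abs_neg], ?_⟩
    have h2 : a (a⁻¹ x) = x := a.apply_symm_apply x
    rw [h2] at h1
    rw [zpow_neg, Equiv.Perm.eq_inv_iff_eq]
    exact h1.symm

/-- The homeomorphism of the space of ultrafilters. -/
def uH : Equiv.Perm Ω →* (Ultrafilter Ω ≃ₜ Ultrafilter Ω) where
  toFun σ :=
    { toFun := Ultrafilter.map σ
      invFun := Ultrafilter.map σ.symm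
      left_inv := fun u => by
        rw [Ultrafilter.map_map, Equiv.symm_comp_self, Ultrafilter.map_id]
      right_inv := fun u => by
        rw [Ultrafilter.map_map, Equiv.self_comp_symm, Ultrafilter.map_id]
      continuous_toFun := by
        refine ultrafilterBasis_is_basis.continuous_iff.2 ?_
        rintro _ ⟨s, rfl⟩
        exact ultrafilter_isOpen_basic (σ ⁻¹' s)
      continuous_invFun := by
        refine ultrafilterBasis_is_basis.continuous_iff.2 ?_
        rintro _ ⟨s, rfl⟩
        exact ultrafilter_isOpen_basic (σ.symm ⁻¹' s) }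
  map_one' := Homeomorph.ext fun u => Ultrafilter.map_id u
  map_mul' σ τ := Homeomorph.ext fun u => (Ultrafilter.map_map u τ σ).symm

theorem uH_apply (σ : Equiv.Perm Ω) (u : Ultrafilter Ω) : uH σ u = Ultrafilter.map σ u := rfl

theorem uH_injective : Function.Injective (uH (Ω := Ω)) := by
  intro σ τ h
  ext x
  have h1 : Ultrafilter.map σ (pure x) = Ultrafilter.map τ (pure x) := DFunLike.congr_fun h _
  rw [Ultrafilter.map_pure, Ultrafilter.map_pure] at h1
  exact Ultrafilter.pure_injective h1

theorem uH_mem {T σ : Equiv.Perm Ω} (h : σ ∈ BF T) : uH σ ∈ topFull (uH T) := by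
  obtain ⟨N, h⟩ := h
  choose c hc hcx using h
  have h1 : ∀ u : Ultrafilter Ω, ∃ k : ℤ, Ultrafilter.map c u = pure k := by
    intro u
    have h2 : Set.Icc (-(N : ℤ)) N ∈ Ultrafilter.map c u := by
      rw [Ultrafilter.mem_map]
      refine Filter.univ_mem' fun x => ?_
      exact abs_le.1 (hc x)
    obtain ⟨k, -, hk⟩ := Ultrafilter.eq_pure_of_finite_mem (Set.finite_Icc _ _) h2
    exact ⟨k, hk⟩
  choose d hd using h1
  have hd' : ∀ (u : Ultrafilter Ω) (k : ℤ), d u = k ↔ c ⁻¹' {k} ∈ u := by
    intro u k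
    rw [← Ultrafilter.mem_map, hd, Ultrafilter.mem_pure]
    exact Iff.rfl
  refine ⟨d, (IsLocallyConstant.iff_continuous d).1 (IsLocallyConstant.iff_isOpen_fiber.2
    fun k => ?_), fun u => ?_⟩
  · have h2 : d ⁻¹' {k} = {u : Ultrafilter Ω | c ⁻¹' {k} ∈ u} := by
      ext u
      exact hd' u k
    rw [h2]
    exact ultrafilter_isOpen_basic _
  · rw [← map_zpow, uH_apply, uH_apply, ← Ultrafilter.coe_inj, Ultrafilter.coe_map,
      Ultrafilter.coe_map]
    refine Filter.map_congr ?_
    filter_upwards [(hd' u (d u)).1 rfl] with x hx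
    rw [hcx x, hx]

/-- The bounded full group of a permutation is in the class. -/
theorem mem_BF_of {C : ∀ (G : Type) [Group G], Prop} (hC : ExtClass C) (T : Equiv.Perm Ω)
    (h : C (FG (fun _ : Unit => uH T))) : C (BF T) := by
  have h1 := hC.toClosedClass.sub (topFull_le (uH T)) (mem_TF_unit hC h)
  refine hC.toClosedClass.inj ((uH.comp (BF T).subtype).codRestrict (topFull (uH T))
    fun σ => uH_mem σ.2) (fun σ τ hst => ?_) h1
  exact Subtype.ext (uH_injective (congrArg Subtype.val hst))

/-- The topological full group of a homeomorphism of a compact space is contained in the bounded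
full group. -/
theorem mem_topFull_of_BF {C : ∀ (G : Type) [Group G], Prop} (hC : ExtClass C) {X : Type}
    [TopologicalSpace X] [CompactSpace X] (φ : X ≃ₜ X) (h : C (BF φ.toEquiv)) :
    C (topFull φ) := by
  let f : (X ≃ₜ X) →* Equiv.Perm X :=
    { toFun := fun g => g.toEquiv
      map_one' := rfl
      map_mul' := fun _ _ => rfl }
  have hf : ∀ g ∈ topFull φ, f g ∈ BF φ.toEquiv := by
    rintro g ⟨c, hc, hg⟩
    have h1 : (Set.range c).Finite := (isCompact_range hc).finite_of_discrete
    obtain ⟨N, hN⟩ := (h1.image Int.natAbs).bddAbove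
    refine ⟨N, fun x => ⟨c x, ?_, ?_⟩⟩
    · have h2 := hN ⟨c x, ⟨x, rfl⟩, rfl⟩
      rw [Int.abs_eq_natAbs]
      exact_mod_cast h2
    · have h2 : f (φ ^ c x) = φ.toEquiv ^ c x := map_zpow f φ (c x)
      rw [← h2]
      exact hg x
  refine hC.toClosedClass.inj ((f.comp (topFull φ).subtype).codRestrict (BF φ.toEquiv)
    fun g => hf g.1 g.2) (fun g g' hgg => ?_) h
  refine Subtype.ext (Homeomorph.ext fun x => ?_)
  exact DFunLike.congr_fun (congrArg Subtype.val hgg) x

end Pool.Agent.ZT
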