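import Pool.Agent.ZT.ThD
import Pool.Agent.ZT.Bdd

/-!
# Theorem D for sets

For a set `S` with an action of `FreeGroup A` the group `FB A S` of the permutations
`(x, g) ↦ (x, c (g • x) * g)` of `S × FreeGroup A`, where `c` has finite range, is contained in the
full group of the space of ultrafilters.
-/

set_option autoImplicit false

open Filter Topology

namespace Pool.Agent.ZT

open Pool.Agent.Helper29.BA Pool.Agent.Helper29.PA Pool.Agent.T59

variable {C : ∀ (G : Type) [Group G], Prop}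

section lim

variable {S Y : Type}

/-- The limit of a function with finite range along an ultrafilter. -/
theorem exists_ulim {f : S → Y} (hf : (Set.range f).Finite) (u : Ultrafilter S) :
    ∃ y, f ⁻¹' {y} ∈ u := by
  have h2 : Set.range f ∈ Ultrafilter.map f u := by
    rw [Ultrafilter.mem_map]
    refine Filter.univ_mem' fun x => ?_
    exact ⟨x, rfl⟩
  obtain ⟨y, -, hy⟩ := Ultrafilter.eq_pure_of_finite_mem hf h2
  refine ⟨y, ?_⟩
  rw [← Ultrafilter.mem_map, hy, Ultrafilter.mem_pure]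
  exact rfl

theorem ulim_unique {f : S → Y} {u : Ultrafilter S} {y y' : Y} (h : f ⁻¹' {y} ∈ u)
    (h' : f ⁻¹' {y'} ∈ u) : y = y' := by
  obtain ⟨x, hx⟩ := u.nonempty_of_mem (Filter.inter_mem h h')
  have h1 : f x = y := hx.1
  have h2 : f x = y' := hx.2
  rw [← h1, h2]

end lim

section FB

variable (A S : Type) [MulAction (FreeGroup A) S]

/-- The bounded cocycle group. -/
def FB : Subgroup (Equiv.Perm (S × FreeGroup A)) where
  carrier := {q | ∃ c : S → FreeGroup A, (Set.range c).Finite ∧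
    ∀ x g, q (x, g) = (x, c (g • x) * g)}
  one_mem' := ⟨fun _ => 1, Set.finite_range_const, fun x g => by
    rw [one_mul]
    rfl⟩
  mul_mem' := by
    rintro a b ⟨c, hc, h⟩ ⟨d, hd, h'⟩
    refine ⟨fun x => c (d x • x) * d x, ?_, fun x g => ?_⟩
    · refine (hc.mul hd).subset ?_
      rintro _ ⟨x, rfl⟩
      exact ⟨_, ⟨_, rfl⟩, _, ⟨x, rfl⟩, rfl⟩
    · rw [Equiv.Perm.mul_apply, h', h, mul_smul, mul_assoc]
  inv_mem' := by
    rintro a ⟨c, hc, h⟩
    have hai : ∀ x, a (a⁻¹ x) = x := fun x => Equiv.apply_symm_apply a x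
    have hia : ∀ x, a⁻¹ (a x) = x := fun x => Equiv.symm_apply_apply a x
    have h0 : ∀ x g, (a⁻¹ (x, g)).1 = x := by
      intro x g
      have h1 := hai (x, g)
      have h2 : a (a⁻¹ (x, g)) = ((a⁻¹ (x, g)).1, _) := h _ _
      rw [h1] at h2
      exact (congrArg Prod.fst h2).symm
    have h3 : ∀ x (g k : FreeGroup A), a⁻¹ (x, g) = (x, k) → g = c (k • x) * k := by
      intro x g k h4
      have h5 := hai (x, g)
      rw [h4, h] at h5
      exact (congrArg Prod.snd h5).symm
    refine ⟨fun x => (a⁻¹ (x, 1)).2, ?_, fun x g => ?_⟩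
    · refine (hc.inv).subset ?_
      rintro _ ⟨x, rfl⟩
      have h4 : a⁻¹ (x, 1) = (x, (a⁻¹ (x, 1)).2) := Prod.ext (h0 x 1) rfl
      have h5 := h3 x 1 _ h4
      refine ⟨(a⁻¹ (x, 1)).2 • x, ?_⟩
      change c ((a⁻¹ (x, 1)).2 • x) = ((a⁻¹ (x, 1)).2)⁻¹
      exact eq_inv_of_mul_eq_one_left h5.symm
    · have h4 : a⁻¹ (g • x, 1) = (g • x, (a⁻¹ (g • x, 1)).2) := Prod.ext (h0 _ 1) rfl
      have h5 := h3 _ 1 _ h4
      rw [Equiv.Perm.inv_eq_iff_eq]
      rw [h]
      refine Prod.ext rfl ?_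
      change g = c (((a⁻¹ (g • x, 1)).2 * g) • x) * ((a⁻¹ (g • x, 1)).2 * g)
      rw [mul_smul, ← mul_assoc, ← h5, one_mul]

end FB

section beta

variable {A S : Type} [MulAction (FreeGroup A) S]

variable (A S) in
/-- The homeomorphisms of the space of ultrafilters. -/
noncomputable def ub (a : A) : Ultrafilter S ≃ₜ Ultrafilter S :=
  uH (MulAction.toPermHom (FreeGroup A) S (FreeGroup.of a))

theorem ac_ub (g : FreeGroup A) : ac (ub A S) g = uH (MulAction.toPermHom (FreeGroup A) S g) := by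
  have h1 : ac (ub A S) = uH.comp (MulAction.toPermHom (FreeGroup A) S) := by
    refine FreeGroup.ext_hom _ _ fun a => ?_
    unfold ac
    rw [FreeGroup.lift_apply_of]
    rfl
  rw [h1]
  rfl

theorem mem_ac_ub {g : FreeGroup A} {u : Ultrafilter S} {s : Set S} :
    s ∈ ac (ub A S) g u ↔ (fun x => g • x) ⁻¹' s ∈ u := by
  rw [ac_ub, uH_apply, Ultrafilter.mem_map]
  rfl

open Classical in
/-- The limit along an ultrafilter. -/
noncomputable def Lm (u : Ultrafilter S) (f : S → FreeGroup A) : FreeGroup A :=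
  if h : ∃ y, f ⁻¹' {y} ∈ u then h.choose else 1

omit [MulAction (FreeGroup A) S] in
theorem Lm_eq {u : Ultrafilter S} {f : S → FreeGroup A} {y : FreeGroup A} (h : f ⁻¹' {y} ∈ u) :
    Lm u f = y := by
  have h1 : ∃ y, f ⁻¹' {y} ∈ u := ⟨y, h⟩
  unfold Lm
  rw [dif_pos h1]
  exact ulim_unique h1.choose_spec h

omit [MulAction (FreeGroup A) S] in
theorem Lm_spec {u : Ultrafilter S} {f : S → FreeGroup A} (hf : (Set.range f).Finite) :
    f ⁻¹' {Lm u f} ∈ u := by
  obtain ⟨y, hy⟩ := exists_ulim hf u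
  rw [Lm_eq hy]
  exact hy

omit [MulAction (FreeGroup A) S] in
theorem Lm_pure (x : S) (f : S → FreeGroup A) : Lm (pure x) f = f x :=
  Lm_eq (Ultrafilter.mem_pure.2 rfl)

theorem FB_fst {q : Equiv.Perm (S × FreeGroup A)} (hq : q ∈ FB A S) (x : S) (g : FreeGroup A) :
    q (x, g) = (x, (q (x, g)).2) := by
  obtain ⟨c, -, h⟩ := hq
  rw [h]

theorem FB_range {q : Equiv.Perm (S × FreeGroup A)} (hq : q ∈ FB A S) (g : FreeGroup A) :
    (Set.range fun x => (q (x, g)).2).Finite := by
  obtain ⟨c, hc, h⟩ := hq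
  refine (hc.image (· * g)).subset ?_
  rintro _ ⟨x, rfl⟩
  refine ⟨c (g • x), ⟨_, rfl⟩, ?_⟩
  change _ = (q (x, g)).2
  rw [h]

variable (A S) in
/-- The extension to the ultrafilters. -/
noncomputable def hatF : FB A S →* Equiv.Perm (Ultrafilter S × FreeGroup A) :=
  MonoidHom.toHomPerm
    { toFun := fun q p => (p.1, Lm p.1 fun x => (q.1 (x, p.2)).2)
      map_one' := by
        funext p
        refine Prod.ext rfl (Lm_eq ?_)
        exact Filter.univ_mem' fun x => rfl
      map_mul' := by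
        rintro ⟨a, ha⟩ ⟨b, hb⟩
        funext p
        refine Prod.ext rfl (Lm_eq ?_)
        have h1 := Lm_spec (u := p.1) (FB_range hb p.2)
        have h2 := Lm_spec (u := p.1) (FB_range ha (Lm p.1 fun x => (b (x, p.2)).2))
        refine Filter.mem_of_superset (Filter.inter_mem h1 h2) ?_
        rintro x ⟨h3, h4⟩
        have h5 : (b (x, p.2)).2 = Lm p.1 fun x => (b (x, p.2)).2 := h3
        have h6 : (a (x, Lm p.1 fun x => (b (x, p.2)).2)).2 =
          Lm p.1 fun x => (a (x, Lm p.1 fun x => (b (x, p.2)).2)).2 := h4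
        change (a (b (x, p.2))).2 = _
        rw [FB_fst hb, h5]
        exact h6 }

theorem hatF_apply (q : FB A S) (u : Ultrafilter S) (g : FreeGroup A) :
    hatF A S q (u, g) = (u, Lm u fun x => (q.1 (x, g)).2) := rfl

theorem hatF_injective : Function.Injective (hatF A S) := by
  intro q q' h
  refine Subtype.ext (Equiv.ext fun p => ?_)
  have h1 : hatF A S q (pure p.1, p.2) = hatF A S q' (pure p.1, p.2) := by rw [h]
  rw [hatF_apply, hatF_apply, Lm_pure, Lm_pure] at h1
  have h2 := FB_fst q.2 p.1 p.2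
  have h3 := FB_fst q'.2 p.1 p.2
  have h4 : (q.1 (p.1, p.2)).2 = (q'.1 (p.1, p.2)).2 := (Prod.mk.inj h1).2
  rw [← Prod.mk.eta (p := p), h2, h3, h4]

theorem hatF_mem (q : FB A S) : hatF A S q ∈ FG (ub A S) := by
  obtain ⟨q, c, hc, h⟩ := q
  refine ⟨fun u => Lm u c, ?_, fun u g => ?_⟩
  · refine IsLocallyConstant.iff_isOpen_fiber.2 fun k => ?_
    have h2 : (fun u => Lm u c) ⁻¹' {k} = {u : Ultrafilter S | c ⁻¹' {k} ∈ u} := by
      ext u
      constructor
      · intro h3
        have h4 : Lm u c = k := h3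
        have h5 := Lm_spec (u := u) hc
        rwa [h4] at h5
      · intro h3
        exact Lm_eq h3
    change IsOpen ((fun u => Lm u c) ⁻¹' {k})
    rw [h2]
    exact ultrafilter_isOpen_basic _
  · rw [hatF_apply]
    refine Prod.ext rfl (Lm_eq ?_)
    have h3 : c ⁻¹' {Lm (ac (ub A S) g u) c} ∈ ac (ub A S) g u := Lm_spec hc
    rw [mem_ac_ub] at h3
    refine Filter.mem_of_superset h3 ?_
    intro x hx
    have h4 : c (g • x) = Lm (ac (ub A S) g u) c := hx
    change (q (x, g)).2 = Lm (ac (ub A S) g u) c * g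
    rw [h, ← h4]

/-- **Finitely additive invariant set functions on a set.** -/
structure InvS (A : Type) {S : Type} [MulAction (FreeGroup A) S] (m : Set S → ENNReal) : Prop where
  empty : m ∅ = 0
  union : ∀ U V : Set S, Disjoint U V → m (U ∪ V) = m U + m V
  inv : ∀ (a : A) (U : Set S), m ((fun x => FreeGroup.of a • x) ⁻¹' U) = m U

/-- The set function on the ultrafilters. -/
theorem InvS.beta {m : Set S → ENNReal} (h : InvS A m) :
    InvM (ub A S) fun W => m {x | pure x ∈ W} where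
  empty := h.empty
  union U V _ _ hd := by
    refine h.union _ _ ?_
    rw [Set.disjoint_left] at hd ⊢
    exact fun x hx hx' => hd hx hx'
  inv a U _ := by
    have h1 : ∀ x : S, ub A S a (pure x) = pure (FreeGroup.of a • x) := by
      intro x
      unfold ub
      rw [uH_apply, Ultrafilter.map_pure]
      rfl
    have h2 : ({x | pure x ∈ ub A S a ⁻¹' U} : Set S) =
        (fun x => FreeGroup.of a • x) ⁻¹' {x | pure x ∈ U} := by
      ext x
      change ub A S a (pure x) ∈ U ↔ pure (FreeGroup.of a • x) ∈ U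
      rw [h1]
    change m {x | pure x ∈ ub A S a ⁻¹' U} = _
    rw [h2]
    exact h.inv a _

/-- **Theorem D for sets.** -/
theorem mem_FB (hC : ExtClass C)
    (h : ∀ U : Set S, U.Nonempty → ∃ m : Set S → ENNReal, InvS A m ∧ m U ≠ 0 ∧ m U ≠ ⊤) :
    C (FB A S) := by
  refine hC.toClosedClass.inj ((hatF A S).codRestrict (FG (ub A S)) hatF_mem)
    (fun q q' hqq => hatF_injective (congrArg Subtype.val hqq)) (mem_FG_of_noPar hC (ub A S) ?_)
  intro U hU hne
  have h1 : ({x | pure x ∈ U} : Set S).Nonempty := by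
    obtain ⟨x, hx⟩ := denseRange_pure.exists_mem_open hU.isOpen hne
    exact ⟨x, hx⟩
  obtain ⟨m, hm, h2, h3⟩ := h _ h1
  exact ⟨_, hm.beta, h2, h3⟩

end beta

end Pool.Agent.ZT
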