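import Pool.Agent.ZT.Beta
import Pool.Agent.ZT.Forest

/-!
# Theorem D for families of permutations of a set
-/

set_option autoImplicit false

namespace Pool.Agent.ZT

open Pool.Agent.Helper29.BA Pool.Agent.Helper29.PA

variable {C : ∀ (G : Type) [Group G], Prop} {A S : Type}

/-- `m` is finitely additive on the subsets and invariant under the permutations `φ a`. -/
structure InvP (φ : A → Equiv.Perm S) (m : Set S → ENNReal) : Prop where
  empty : m ∅ = 0
  union : ∀ U V : Set S, Disjoint U V → m (U ∪ V) = m U + m V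
  inv : ∀ (a : A) (U : Set S), m (φ a ⁻¹' U) = m U

/-- **Theorem D for families of permutations of a set.** -/
theorem mem_FGS (hC : ExtClass C) (φ : A → Equiv.Perm S)
    (h : ∀ U : Set S, U.Nonempty → ∃ m : Set S → ENNReal, InvP φ m ∧ m U ≠ 0 ∧ m U ≠ ⊤) :
    C (FGS φ) := by
  let _ := actS φ
  have h1 : FGS φ = FB A S := rfl
  rw [h1]
  refine mem_FB hC fun U hU => ?_
  obtain ⟨m, hm, h2, h3⟩ := h U hU
  refine ⟨m, ⟨hm.empty, hm.union, fun a W => ?_⟩, h2, h3⟩
  have h4 : (fun x : S => FreeGroup.of a • x) = φ a := by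
    funext x
    change (FreeGroup.lift φ) (FreeGroup.of a) x = φ a x
    rw [FreeGroup.lift_apply_of]
  rw [h4]
  exact hm.inv a W

end Pool.Agent.ZT
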