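import Pool.Agent.ZT.Ra

/-!
# The cancellation lemma for right-angled Artin groups

A word in the generators whose product is in the subgroup generated by the generators of a set `U`
either has all its letters in `U` or has two letters `x ^ e`, `x ^ (-e)` between which all letters
commute with `x`. This follows from Britton's lemma.
-/

set_option autoImplicit false

namespace Pool.Agent.ZT

open Pool.Agent.Helper29.BA Pool.Agent.Helper29.PA Pool.Agent.T59 Pool.Agent.FS

section

variable {V : Type} {R : V → V → Prop}

variable (R) in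
/-- A letter. -/
def lt (a : V × Bool) : RA R := if a.2 then gen R a.1 else (gen R a.1)⁻¹

variable (R) in
/-- The product of a word. -/
def wprod (w : List (V × Bool)) : RA R := (w.map (lt R)).prod

@[simp] theorem wprod_nil : wprod R [] = 1 := rfl

@[simp] theorem wprod_cons (a : V × Bool) (w : List (V × Bool)) :
    wprod R (a :: w) = lt R a * wprod R w := by
  unfold wprod
  rw [List.map_cons, List.prod_cons]

@[simp] theorem wprod_append (w w' : List (V × Bool)) :
    wprod R (w ++ w') = wprod R w * wprod R w' := by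
  unfold wprod
  rw [List.map_append, List.prod_append]

theorem lt_not (x : V) (e : Bool) : lt R (x, !e) = (lt R (x, e))⁻¹ := by
  cases e <;> simp [lt]

theorem lt_comm {a b : V × Bool} (h : R a.1 b.1) : lt R a * lt R b = lt R b * lt R a := by
  have h1 : Commute (gen R a.1) (gen R b.1) := gen_comm h
  unfold lt
  split_ifs
  · exact h1.eq
  · exact h1.inv_right.eq
  · exact h1.inv_left.eq
  · exact h1.inv_inv.eq

/-- The product of a word in letters which commute with `x`. -/
theorem lt_comm_wprod {x : V} {e : Bool} {w : List (V × Bool)} (h : ∀ a ∈ w, R x a.1) :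
    lt R (x, e) * wprod R w = wprod R w * lt R (x, e) := by
  induction w with
  | nil => rw [wprod_nil, mul_one, one_mul]
  | cons a w ih =>
    have h1 : lt R (x, e) * lt R a = lt R a * lt R (x, e) := lt_comm (h a List.mem_cons_self)
    rw [wprod_cons, ← mul_assoc, h1, mul_assoc, ih fun b hb => h b (List.mem_cons_of_mem _ hb),
      mul_assoc]

/-- Cancellation of two letters. -/
theorem wprod_cancel {x : V} {e : Bool} {w1 w2 w3 : List (V × Bool)} (h : ∀ a ∈ w2, R x a.1) :
    wprod R (w1 ++ (x, e) :: w2 ++ (x, !e) :: w3) = wprod R (w1 ++ w2 ++ w3) := by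
  rw [wprod_append, wprod_append, wprod_cons, wprod_cons, wprod_append, wprod_append,
    lt_comm_wprod h, lt_not]
  group

/-- The subgroup of the link of `x`. -/
def Lk (R : V → V → Prop) (x : V) : Subgroup (RA R) := Subgroup.closure (gen R '' {y | R x y})

/-- The HNN extension. -/
abbrev HX (R : V → V → Prop) (x : V) : Type :=
  HNNExtension (RA R) (Lk R x) (Lk R x) (MulEquiv.refl _)

theorem t_comm {x y : V} (h : R x y) :
    (HNNExtension.t : HX R x) * HNNExtension.of (gen R y) =
      HNNExtension.of (gen R y) * HNNExtension.t :=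
  HNNExtension.t_mul_of (φ := MulEquiv.refl (Lk R x))
    ⟨gen R y, Subgroup.subset_closure ⟨y, h, rfl⟩⟩

open Classical in
/-- The homomorphism to the HNN extension. -/
noncomputable def toH (hs : ∀ u v, R u v → R v u) (x : V) : RA R →* HX R x :=
  raLift (fun y => if y = x then HNNExtension.t else HNNExtension.of (gen R y)) fun v w h => by
    by_cases hv : v = x
    · by_cases hw : w = x
      · rw [if_pos hv, if_pos hw]
      · rw [if_pos hv, if_neg hw]
        exact t_comm (hv ▸ h)
    · by_cases hw : w = x
      · rw [if_neg hv, if_pos hw]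
        exact (t_comm (hw ▸ hs _ _ h)).symm
      · rw [if_neg hv, if_neg hw, ← map_mul, ← map_mul, gen_comm h]

theorem toH_self (hs : ∀ u v, R u v → R v u) (x : V) :
    toH hs x (gen R x) = HNNExtension.t := by
  unfold toH
  rw [raLift_gen, if_pos rfl]

theorem toH_ne (hs : ∀ u v, R u v → R v u) {x y : V} (h : y ≠ x) :
    toH hs x (gen R y) = HNNExtension.of (gen R y) := by
  unfold toH
  rw [raLift_gen, if_neg h]

/-- The sign. -/
def sgn (b : Bool) : ℤˣ := if b then 1 else -1

theorem sgn_inj {b c : Bool} (h : sgn b = sgn c) : b = c := by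
  cases b <;> cases c <;> first | rfl | exact absurd h (by decide)

theorem toH_lt_self (hs : ∀ u v, R u v → R v u) (x : V) (b : Bool) :
    toH hs x (lt R (x, b)) = HNNExtension.t ^ ((sgn b : ℤˣ) : ℤ) := by
  cases b
  · change toH hs x (gen R x)⁻¹ = HNNExtension.t ^ (-1 : ℤ)
    rw [map_inv, toH_self, zpow_neg_one]
  · change toH hs x (gen R x) = HNNExtension.t ^ (1 : ℤ)
    rw [toH_self, zpow_one]

theorem toH_lt_ne (hs : ∀ u v, R u v → R v u) {x : V} {a : V × Bool} (h : a.1 ≠ x) :
    toH hs x (lt R a) = HNNExtension.of (lt R a) := by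
  unfold lt
  split_ifs
  · exact toH_ne hs h
  · rw [map_inv, toH_ne hs h, map_inv]

open Classical in
/-- The word, cut at the letters `x`. -/
noncomputable def cut (x : V) : List (V × Bool) → List (V × Bool) × List (Bool × List (V × Bool))
  | [] => ([], [])
  | a :: w => if a.1 = x then ([], (a.2, (cut x w).1) :: (cut x w).2)
      else (a :: (cut x w).1, (cut x w).2)

theorem cut_pos {x : V} {a : V × Bool} (h : a.1 = x) (w : List (V × Bool)) :
    cut x (a :: w) = ([], (a.2, (cut x w).1) :: (cut x w).2) := by
  rw [cut, if_pos h]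

theorem cut_neg {x : V} {a : V × Bool} (h : a.1 ≠ x) (w : List (V × Bool)) :
    cut x (a :: w) = (a :: (cut x w).1, (cut x w).2) := by
  rw [cut, if_neg h]

/-- The pieces, put together. -/
def glue (x : V) (l : List (Bool × List (V × Bool))) : List (V × Bool) :=
  l.flatMap fun p => (x, p.1) :: p.2

theorem cut_glue (x : V) (w : List (V × Bool)) : (cut x w).1 ++ glue x (cut x w).2 = w := by
  induction w with
  | nil => rfl
  | cons a w ih =>
    by_cases h : a.1 = x
    · rw [cut_pos h]
      change (x, a.2) :: (cut x w).1 ++ glue x (cut x w).2 = a :: w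
      rw [List.cons_append, ih, ← h]
    · rw [cut_neg h]
      change a :: ((cut x w).1 ++ glue x (cut x w).2) = a :: w
      rw [ih]

theorem cut_ne_nil {x : V} {w : List (V × Bool)} {a : V × Bool} (ha : a ∈ w) (hx : a.1 = x) :
    (cut x w).2 ≠ [] := by
  induction w with
  | nil => exact absurd ha List.not_mem_nil
  | cons b w ih =>
    by_cases h : b.1 = x
    · rw [cut_pos h]
      exact List.cons_ne_nil _ _
    · rw [cut_neg h]
      refine ih ((List.mem_cons.1 ha).resolve_left ?_)
      rintro rfl
      exact h hx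

theorem toH_wprod (hs : ∀ u v, R u v → R v u) (x : V) (w : List (V × Bool)) :
    toH hs x (wprod R w) = HNNExtension.of (wprod R (cut x w).1) *
      ((cut x w).2.map fun p => HNNExtension.t ^ ((sgn p.1 : ℤˣ) : ℤ) *
        HNNExtension.of (wprod R p.2)).prod := by
  induction w with
  | nil => simp [cut]
  | cons a w ih =>
    rw [wprod_cons, map_mul, ih]
    by_cases h : a.1 = x
    · rw [cut_pos h]
      have h1 : a = (x, a.2) := by rw [← h]
      simp only [wprod_nil, map_one, one_mul, List.map_cons, List.prod_cons]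
      rw [h1, toH_lt_self, mul_assoc]
    · rw [cut_neg h, toH_lt_ne hs h]
      simp only [wprod_cons, map_mul, mul_assoc]

theorem exists_of_not_isChain {α : Type} {r : α → α → Prop} {l : List α} (h : ¬ l.IsChain r) :
    ∃ l1 a b l2, l = l1 ++ a :: b :: l2 ∧ ¬ r a b := by
  induction l with
  | nil => exact absurd List.isChain_nil h
  | cons a l ih =>
    cases l with
    | nil => exact absurd (List.isChain_singleton a) h
    | cons b l =>
      by_cases hab : r a b
      · obtain ⟨l1, c, d, l2, h1, h2⟩ := ih fun h1 => h (List.isChain_cons_cons.2 ⟨hab, h1⟩)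
        exact ⟨a :: l1, c, d, l2, by rw [h1]; rfl, h2⟩
      · exact ⟨[], a, b, l, rfl, hab⟩

/-- **The cancellation lemma.** -/
theorem cl (hs : ∀ u v, R u v → R v u) (U : Set V) (w : List (V × Bool))
    (h : wprod R w ∈ Subgroup.closure (gen R '' U)) :
    (∀ a ∈ w, a.1 ∈ U) ∨ ∃ w1 x e w2 w3, w = w1 ++ (x, e) :: w2 ++ (x, !e) :: w3 ∧
      ∀ a ∈ w2, R x a.1 := by
  induction hn : w.length using Nat.strong_induction_on generalizing w U with
  | _ n ih =>
    subst hn
    by_cases hU : ∀ a ∈ w, a.1 ∈ U
    · exact Or.inl hU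
    right
    push Not at hU
    obtain ⟨a, ha, haU⟩ := hU
    set x := a.1 with hx
    have h1 : toH hs x (wprod R w) = HNNExtension.of (wprod R w) := by
      refine ra_eqOn (f := toH hs x) (g := HNNExtension.of) (fun y hy => toH_ne hs ?_) h
      rintro rfl
      exact haU hy
    have hl : (cut x w).2 ≠ [] := cut_ne_nil ha rfl
    have h2 : ¬ ((cut x w).2.map fun p => (sgn p.1, wprod R p.2)).IsChain
        (fun a b => a.2 ∈ HNNExtension.toSubgroup (Lk R x) (Lk R x) a.1 → a.1 = b.1) := by
      intro hc
      have h3 := HNNExtension.ReducedWord.toList_eq_nil_of_mem_of_range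
        (φ := MulEquiv.refl (Lk R x)) ⟨wprod R (cut x w).1, _, hc⟩ ⟨wprod R w, by
          rw [← h1, toH_wprod]
          unfold HNNExtension.NormalWord.ReducedWord.prod
          simp only [List.map_map]
          rfl⟩
      exact hl (List.map_eq_nil_iff.1 h3)
    obtain ⟨l1, c, d, l2, h3, h4⟩ := exists_of_not_isChain h2
    rw [List.map_eq_append_iff] at h3
    obtain ⟨m1, m2, h5, rfl, h6⟩ := h3
    rw [List.map_eq_cons_iff] at h6
    obtain ⟨p, m3, rfl, rfl, h7⟩ := h6
    rw [List.map_eq_cons_iff] at h7
    obtain ⟨p', m4, rfl, rfl, rfl⟩ := h7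
    push Not at h4
    obtain ⟨h8, h9⟩ := h4
    have h10 : wprod R p.2 ∈ Lk R x := by
      revert h8
      change wprod R p.2 ∈ HNNExtension.toSubgroup (Lk R x) (Lk R x) (sgn p.1) → _
      unfold HNNExtension.toSubgroup
      rw [ite_self]
      exact id
    have h11 : p'.1 = !p.1 := by
      have : p.1 ≠ p'.1 := fun h => h9 (congrArg sgn h)
      revert this
      cases p.1 <;> cases p'.1 <;> simp
    have h12 : w = ((cut x w).1 ++ glue x m1) ++ (x, p.1) :: p.2 ++ (x, !p.1) ::
        (p'.2 ++ glue x m4) := by
      conv_lhs => rw [← cut_glue x w, h5]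
      unfold glue
      rw [List.flatMap_append, List.flatMap_cons, List.flatMap_cons, h11]
      simp only [List.append_assoc, List.cons_append]
    have h13 : p.2.length < w.length := by
      rw [h12]
      simp only [List.length_append, List.length_cons]
      omega
    rcases ih _ h13 {y | R x y} p.2 h10 rfl with h14 | ⟨w1, y, e, w2, w3, h14, h15⟩
    · exact ⟨_, x, p.1, p.2, _, h12, h14⟩
    · refine ⟨(cut x w).1 ++ glue x m1 ++ (x, p.1) :: w1, y, e, w2, w3 ++ (x, !p.1) ::
        (p'.2 ++ glue x m4), ?_, h15⟩
      conv_lhs => rw [h12, h14]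
      simp only [List.append_assoc, List.cons_append]

/-- The cancellation lemma for words with trivial product. -/
theorem cl_one (hs : ∀ u v, R u v → R v u) (w : List (V × Bool)) (hw : w ≠ [])
    (h : wprod R w = 1) :
    ∃ w1 x e w2 w3, w = w1 ++ (x, e) :: w2 ++ (x, !e) :: w3 ∧ ∀ a ∈ w2, R x a.1 := by
  rcases cl hs ∅ w (by rw [h]; exact one_mem _) with h1 | h1
  · obtain ⟨a, ha⟩ := List.exists_mem_of_ne_nil w hw
    exact (h1 a ha).elim
  · exact h1

end

end Pool.Agent.ZT
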