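import Pool.Agent.ZT.Sets
import Pool.Agent.T59.LocFin

/-!
# Groups of local cocycles

For a group `F` acting on `Z` the functions `c : Z → F` form a monoid with the product
`(c c') z = c (c' z • z) * c' z`. For `F = FreeGroup A` and `κ : Z → ℕ` the group `LQ κ` consists of
the units which are local: their values and the values of their inverses have bounded length and
depend only on the values of `κ` at bounded distance.
-/

set_option autoImplicit false

namespace Pool.Agent.ZT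

open Pool.Agent.Helper29.BA Pool.Agent.Helper29.PA Pool.Agent.T59

/-- Functions with values in the group. -/
def Coc (F Z : Type) : Type := Z → F

namespace Coc

variable {F Z T : Type} [Group F] [MulAction F Z] [MulAction F T]

omit [Group F] [MulAction F Z] in
theorem ext {c c' : Coc F Z} (h : ∀ z, c z = c' z) : c = c' := funext h

instance : Monoid (Coc F Z) where
  mul c c' := fun z => c (c' z • z) * c' z
  one := fun _ => 1
  mul_assoc c c' c'' := by
    funext z
    change c (c' (c'' z • z) • c'' z • z) * c' (c'' z • z) * c'' z =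
      c ((c' (c'' z • z) * c'' z) • z) * (c' (c'' z • z) * c'' z)
    rw [mul_smul, mul_assoc]
  one_mul c := by
    funext z
    exact one_mul _
  mul_one c := by
    funext z
    change c ((1 : F) • z) * 1 = c z
    rw [one_smul, mul_one]

theorem mul_apply (c c' : Coc F Z) (z : Z) : (c * c') z = c (c' z • z) * c' z := rfl

theorem one_apply (z : Z) : (1 : Coc F Z) z = 1 := rfl

/-- The action on the set. -/
def sg : (Coc F Z)ˣ →* Equiv.Perm Z where
  toFun u :=
    { toFun := fun z => u.1 z • z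
      invFun := fun z => u⁻¹.1 z • z
      left_inv := fun z => by
        change u⁻¹.1 (u.1 z • z) • u.1 z • z = z
        rw [← mul_smul]
        change ((u⁻¹.1 * u.1 : Coc F Z) z) • z = z
        rw [← Units.val_mul, inv_mul_cancel]
        exact one_smul _ _
      right_inv := fun z => by
        change u.1 (u⁻¹.1 z • z) • u⁻¹.1 z • z = z
        rw [← mul_smul]
        change ((u.1 * u⁻¹.1 : Coc F Z) z) • z = z
        rw [← Units.val_mul, mul_inv_cancel]
        exact one_smul _ _ }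
  map_one' := by
    ext z
    exact one_smul _ _
  map_mul' u v := by
    ext z
    change (u.1 (v.1 z • z) * v.1 z) • z = u.1 (v.1 z • z) • v.1 z • z
    rw [mul_smul]

theorem sg_apply (u : (Coc F Z)ˣ) (z : Z) : sg u z = u.1 z • z := rfl

/-- The permutation of the points. -/
def pm : (Coc F Z)ˣ →* Equiv.Perm (Z × F) where
  toFun u :=
    { toFun := fun p => (p.1, u.1 (p.2 • p.1) * p.2)
      invFun := fun p => (p.1, u⁻¹.1 (p.2 • p.1) * p.2)
      left_inv := fun p => by
        refine Prod.ext rfl ?_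
        change u⁻¹.1 ((u.1 (p.2 • p.1) * p.2) • p.1) * (u.1 (p.2 • p.1) * p.2) = p.2
        rw [mul_smul, ← mul_assoc]
        change ((u⁻¹.1 * u.1 : Coc F Z) (p.2 • p.1)) * p.2 = p.2
        rw [← Units.val_mul, inv_mul_cancel]
        exact one_mul _
      right_inv := fun p => by
        refine Prod.ext rfl ?_
        change u.1 ((u⁻¹.1 (p.2 • p.1) * p.2) • p.1) * (u⁻¹.1 (p.2 • p.1) * p.2) = p.2
        rw [mul_smul, ← mul_assoc]
        change ((u.1 * u⁻¹.1 : Coc F Z) (p.2 • p.1)) * p.2 = p.2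
        rw [← Units.val_mul, mul_inv_cancel]
        exact one_mul _ }
  map_one' := by
    ext p
    · rfl
    · exact one_mul _
  map_mul' u v := by
    refine Equiv.ext fun p => Prod.ext rfl ?_
    change u.1 (v.1 (p.2 • p.1) • p.2 • p.1) * v.1 (p.2 • p.1) * p.2 =
      u.1 ((v.1 (p.2 • p.1) * p.2) • p.1) * (v.1 (p.2 • p.1) * p.2)
    rw [mul_smul, mul_assoc]

theorem pm_apply (u : (Coc F Z)ˣ) (z : Z) (h : F) : pm u (z, h) = (z, u.1 (h • z) * h) := rfl

theorem pm_injective : Function.Injective (pm (F := F) (Z := Z)) := by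
  intro u v h
  refine Units.ext (ext fun z => ?_)
  have h1 := congrArg Prod.snd (DFunLike.congr_fun h (z, (1 : F)))
  change u.1 ((1 : F) • z) * 1 = v.1 ((1 : F) • z) * 1 at h1
  rwa [one_smul, mul_one, mul_one] at h1

/-- Pull-back of cocycles. -/
def pb (i : T → Z) (hi : ∀ (g : F) t, i (g • t) = g • i t) : Coc F Z →* Coc F T where
  toFun c := fun t => c (i t)
  map_one' := rfl
  map_mul' c c' := by
    funext t
    change c (c' (i t) • i t) * c' (i t) = c (i (c' (i t) • t)) * c' (i t)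
    rw [hi]

theorem pb_apply (i : T → Z) (hi : ∀ (g : F) t, i (g • t) = g • i t) (c : Coc F Z) (t : T) :
    pb i hi c t = c (i t) := rfl

/-- The homomorphism to the wreath product. -/
def toUW : (Coc F Z)ˣ →* UW F Z where
  toFun u := ⟨fun z => u.1 ((sg u)⁻¹ z), sg u⟩
  map_one' := SemidirectProduct.ext (funext fun _ => rfl) (map_one sg)
  map_mul' u v := by
    refine SemidirectProduct.ext ?_ (map_mul sg u v)
    funext z
    change (u.1 * v.1 : Coc F Z) ((sg (u * v))⁻¹ z) =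
      u.1 ((sg u)⁻¹ z) * v.1 ((sg v)⁻¹ ((sg u)⁻¹ z))
    rw [map_mul, mul_inv_rev, Equiv.Perm.mul_apply, mul_apply]
    change u.1 (sg v ((sg v)⁻¹ ((sg u)⁻¹ z))) * _ = _
    rw [pai]

end Coc

section local'

variable {A Z T : Type} [MulAction (FreeGroup A) Z] [MulAction (FreeGroup A) T]

/-- The labels of `z` and `z'` agree up to distance `N`. -/
def Wd (κ : Z → ℕ) (κ' : T → ℕ) (N : ℕ) (z : Z) (z' : T) : Prop :=
  ∀ w : List (A × Bool), w.length ≤ N → κ (FreeGroup.mk w • z) = κ' (FreeGroup.mk w • z')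

/-- Local functions. -/
def Lcl (κ : Z → ℕ) (N : ℕ) (c : Coc (FreeGroup A) Z) : Prop :=
  (∀ z, ∃ w : List (A × Bool), w.length ≤ N ∧ c z = FreeGroup.mk w) ∧
    ∀ z z', Wd (A := A) κ κ N z z' → c z = c z'

theorem Lcl.one (κ : Z → ℕ) : Lcl κ 0 (1 : Coc (FreeGroup A) Z) :=
  ⟨fun _ => ⟨[], le_rfl, rfl⟩, fun _ _ _ => rfl⟩

theorem Lcl.mul {κ : Z → ℕ} {N N' : ℕ} {c c' : Coc (FreeGroup A) Z} (h : Lcl κ N c)
    (h' : Lcl κ N' c') : Lcl κ (N + N') (c * c') := by
  refine ⟨fun z => ?_, fun z z' hz => ?_⟩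
  · obtain ⟨w, h1, h2⟩ := h'.1 z
    obtain ⟨v, h3, h4⟩ := h.1 (c' z • z)
    refine ⟨v ++ w, by rw [List.length_append]; omega, ?_⟩
    rw [Coc.mul_apply, h4, h2, FreeGroup.mul_mk]
  · have h1 : c' z = c' z' := h'.2 z z' fun w hw => hz w (by omega)
    obtain ⟨w, h2, h3⟩ := h'.1 z
    rw [Coc.mul_apply, Coc.mul_apply, ← h1]
    congr 1
    refine h.2 _ _ fun v hv => ?_
    rw [h3, ← mul_smul, ← mul_smul, FreeGroup.mul_mk]
    exact hz _ (by rw [List.length_append]; omega)

/-- **The group of local cocycles.** -/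
def LQ (κ : Z → ℕ) : Subgroup (Coc (FreeGroup A) Z)ˣ where
  carrier := {u | (∃ N, Lcl κ N u.1) ∧ ∃ N, Lcl κ N u⁻¹.1}
  one_mem' := by
    refine ⟨⟨0, Lcl.one κ⟩, 0, ?_⟩
    rw [inv_one]
    exact Lcl.one κ
  mul_mem' := by
    rintro u v ⟨⟨N, h1⟩, N', h2⟩ ⟨⟨M, h3⟩, M', h4⟩
    refine ⟨⟨N + M, h1.mul h3⟩, M' + N', ?_⟩
    rw [mul_inv_rev]
    exact h4.mul h2
  inv_mem' := by
    rintro u ⟨h1, h2⟩
    refine ⟨h2, ?_⟩
    rw [inv_inv]
    exact h1

/-- The restriction of a local function. -/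
theorem Lcl.pb {κ : Z → ℕ} {N : ℕ} {c : Coc (FreeGroup A) Z} (h : Lcl κ N c) (i : T → Z)
    (hi : ∀ (g : FreeGroup A) t, i (g • t) = g • i t) :
    Lcl (fun t => κ (i t)) N (Coc.pb i hi c) := by
  refine ⟨fun t => h.1 (i t), fun t t' ht => h.2 _ _ fun w hw => ?_⟩
  have h1 : κ (i (FreeGroup.mk w • t)) = κ (i (FreeGroup.mk w • t')) := ht w hw
  rwa [hi, hi] at h1

/-- The restriction homomorphism. -/
def rLQ (κ : Z → ℕ) (i : T → Z) (hi : ∀ (g : FreeGroup A) t, i (g • t) = g • i t) :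
    LQ (A := A) κ →* LQ (A := A) (fun t => κ (i t)) :=
  ((Units.map (Coc.pb i hi)).comp (LQ (A := A) κ).subtype).codRestrict _ fun u => by
    obtain ⟨u, ⟨N, h1⟩, N', h2⟩ := u
    exact ⟨⟨N, h1.pb i hi⟩, N', h2.pb i hi⟩

theorem rLQ_apply (κ : Z → ℕ) (i : T → Z) (hi : ∀ (g : FreeGroup A) t, i (g • t) = g • i t)
    (u : LQ (A := A) κ) (t : T) : ((rLQ κ i hi u).1.1 : Coc (FreeGroup A) T) t = u.1.1 (i t) := rfl

variable {C : ∀ (G : Type) [Group G], Prop}

/-- The values of an element with trivial restriction. -/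
theorem finite_of_res {κ : Z → ℕ} {i : T → Z} {hi : ∀ (g : FreeGroup A) t, i (g • t) = g • i t}
    (hfin : ∀ N, {z | ¬ ∃ t, Wd (A := A) κ κ N z (i t)}.Finite) {u : LQ (A := A) κ}
    (hu : rLQ κ i hi u = 1) : {z | u.1.1 z ≠ 1}.Finite := by
  obtain ⟨N, h1⟩ := u.2.1
  refine (hfin N).subset fun z hz => ?_
  rintro ⟨t, ht⟩
  refine hz ((h1.2 z (i t) ht).trans ?_)
  rw [← rLQ_apply κ i hi u t, hu]
  rfl

theorem sg_eq_of_one {u : (Coc (FreeGroup A) Z)ˣ} {z : Z} (h : u.1 z = 1) : Coc.sg u z = z := by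
  rw [Coc.sg_apply, h, one_smul]

/-- **The step.** -/
theorem LQ_mem_step (hC : ExtClass C) (hF : C (FreeGroup A)) (κ : Z → ℕ) (i : T → Z)
    (hi : ∀ (g : FreeGroup A) t, i (g • t) = g • i t)
    (hfin : ∀ N, {z | ¬ ∃ t, Wd (A := A) κ κ N z (i t)}.Finite)
    (h : C (LQ (A := A) fun t => κ (i t))) : C (LQ (A := A) κ) := by
  classical
  let s : LQ (A := A) κ →* Equiv.Perm Z := Coc.sg.comp (LQ (A := A) κ).subtype
  let r : LQ (A := A) κ →* LQ (A := A) (fun t => κ (i t)) := rLQ κ i hi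
  let f : LQ (A := A) κ →* Equiv.Perm Z × LQ (A := A) (fun t => κ (i t)) := s.prod r
  -- the range of `f`
  have hR : C f.range := by
    refine mem_of_locallyFinite hC ((MonoidHom.snd _ _).comp f.range.subtype) h fun E hE => ?_
    have h1 : ∀ x ∈ E, {z | x.1.1 z ≠ z}.Finite := by
      rintro ⟨_, u, rfl⟩ hx
      have h2 : r u = 1 := hE _ hx
      refine (finite_of_res hfin h2).subset fun z hz hz' => hz ?_
      exact sg_eq_of_one hz'
    have h2 : (⋃ x ∈ E, {z | x.1.1 z ≠ z}).Finite := E.finite_toSet.biUnion h1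
    set W : Set Z := ⋃ x ∈ E, {z | x.1.1 z ≠ z} with hW
    have h3 : ∀ x ∈ Subgroup.closure (E : Set f.range), (∀ z, z ∉ W → x.1.1 z = z) ∧ x.1.2 = 1 := by
      intro x hx
      induction hx using Subgroup.closure_induction with
      | mem x hx =>
        refine ⟨fun z hz => ?_, hE x hx⟩
        by_contra h4
        exact hz (Set.mem_iUnion₂.2 ⟨x, hx, h4⟩)
      | one => exact ⟨fun _ _ => rfl, rfl⟩
      | mul x y _ _ hx hy =>
        refine ⟨fun z hz => ?_, ?_⟩
        · change x.1.1 (y.1.1 z) = z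
          rw [hy.1 z hz, hx.1 z hz]
        · change x.1.2 * y.1.2 = 1
          rw [hx.2, hy.2, one_mul]
      | inv x _ hx =>
        refine ⟨fun z hz => ?_, ?_⟩
        · change (x.1.1)⁻¹ z = z
          rw [Equiv.Perm.inv_eq_iff_eq, hx.1 z hz]
        · change (x.1.2)⁻¹ = 1
          rw [hx.2, inv_one]
    have : Finite W := h2.to_subtype
    have h4 : ∀ x ∈ Subgroup.closure (E : Set f.range), ∀ z ∈ W, x.1.1 z ∈ W := by
      intro x hx z hz
      by_contra h5
      have h6 := (h3 x hx).1 _ h5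
      exact h5 ((x.1.1.injective h6).symm ▸ hz)
    refine Finite.of_injective (β := W → W)
      (fun x z => ⟨x.1.1.1 z.1, h4 x.1 x.2 z.1 z.2⟩) fun x y hxy => ?_
    apply Subtype.ext
    apply Subtype.ext
    refine Prod.ext (Equiv.ext fun z => ?_) ((h3 x.1 x.2).2.trans (h3 y.1 y.2).2.symm)
    by_cases hz : z ∈ W
    · exact congrArg Subtype.val (congrFun hxy ⟨z, hz⟩)
    · rw [(h3 x.1 x.2).1 z hz, (h3 y.1 y.2).1 z hz]
  refine mem_of_wreathType hC f.rangeRestrict hR hF (Coc.toUW.comp (LQ (A := A) κ).subtype)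
    (fun u hu => ?_) fun u _ hu => ?_
  · have h1 : f u = 1 := congrArg Subtype.val hu
    have h2 : Coc.sg u.1 = 1 := congrArg Prod.fst h1
    have h3 : r u = 1 := congrArg Prod.snd h1
    refine ⟨h2, (finite_of_res hfin h3).subset fun z hz => ?_⟩
    change u.1.1 ((Coc.sg u.1)⁻¹ z) ≠ 1 at hz
    rw [h2, inv_one] at hz
    exact hz
  · have h1 : Coc.sg u.1 = 1 := congrArg SemidirectProduct.right hu
    refine Subtype.ext (Units.ext (Coc.ext fun z => ?_))
    have h2 := congrFun (congrArg SemidirectProduct.left hu) z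
    change u.1.1 ((Coc.sg u.1)⁻¹ z) = 1 at h2
    rw [h1, inv_one] at h2
    exact h2

/-- The empty set. -/
theorem LQ_mem_empty (hC : ClosedClass C) [IsEmpty Z] (κ : Z → ℕ) : C (LQ (A := A) κ) := by
  refine hC.finite _ ?_
  have h1 : ∀ u v : (Coc (FreeGroup A) Z)ˣ, u = v := fun u v =>
    Units.ext (Coc.ext fun z => isEmptyElim z)
  have : Subsingleton (LQ (A := A) κ) := ⟨fun u v => Subtype.ext (h1 _ _)⟩
  infer_instance

/-- The elements of the level group are local cocycles. -/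
theorem exists_LQ {κ : Z → ℕ} {x : (grF (A := A) κ).Am} (hx : x ∈ (grF (A := A) κ).D) :
    ∃ u ∈ LQ (A := A) κ, Coc.pm u = x.right.1 := by
  obtain ⟨c, N, h1, h2, h3⟩ := exists_cocycle hx
  obtain ⟨c', N', h1', h2', h3'⟩ := exists_cocycle ((grF (A := A) κ).D.inv_mem hx)
  have e1 : ∀ z, c (c' z • z) * c' z = 1 := by
    intro z
    have h4 : x.right.1 ((x⁻¹).right.1 (z, (1 : FreeGroup A))) = (z, 1) := by
      change x.right.1 ((x.right.1)⁻¹ (z, (1 : FreeGroup A))) = (z, 1)
      rw [pai]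
    rw [h1', h1, one_smul, mul_one] at h4
    exact congrArg Prod.snd h4
  have e2 : ∀ z, c' (c z • z) * c z = 1 := by
    intro z
    have h4 : (x⁻¹).right.1 (x.right.1 (z, (1 : FreeGroup A))) = (z, 1) := by
      change (x.right.1)⁻¹ (x.right.1 (z, (1 : FreeGroup A))) = (z, 1)
      rw [pia]
    rw [h1, h1', one_smul, mul_one] at h4
    exact congrArg Prod.snd h4
  refine ⟨⟨c, c', Coc.ext e1, Coc.ext e2⟩, ⟨⟨N, h2, h3⟩, N', h2', h3'⟩, ?_⟩
  refine Equiv.ext fun p => ?_
  exact (h1 p.1 p.2).symm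

/-- **The level group.** -/
theorem D_mem_of_LQ (hC : ExtClass C) {κ : Z → ℕ} (h : C (LQ (A := A) κ)) :
    C (grF (A := A) κ).D := by
  refine Gr.D_mem hC ((LQ (A := A) κ).map Coc.pm) ?_ fun x hx => ?_
  · exact hC.iso _ _ ((LQ (A := A) κ).equivMapOfInjective Coc.pm Coc.pm_injective) h
  · obtain ⟨u, hu, h1⟩ := exists_LQ hx
    exact ⟨u, hu, h1⟩

end local'

end Pool.Agent.ZT
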