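import Mathlib

/-!
# Finitely additive invariant set functions with values in `[0, ∞]`
-/

set_option autoImplicit false

namespace Pool.Agent.ZT

/-- `m` is finitely additive on the clopen sets and invariant under the homeomorphisms `φ a`. -/
structure InvM {A X : Type} [TopologicalSpace X] (φ : A → X ≃ₜ X) (m : Set X → ENNReal) : Prop where
  empty : m ∅ = 0
  union : ∀ U V : Set X, IsClopen U → IsClopen V → Disjoint U V → m (U ∪ V) = m U + m V
  inv : ∀ (a : A) (U : Set X), IsClopen U → m (φ a ⁻¹' U) = m U

theorem isClopen_pre {X E : Type} [TopologicalSpace X] {f : X → E} (hf : IsLocallyConstant f)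
    (s : Set E) : IsClopen (f ⁻¹' s) :=
  ⟨⟨by rw [← Set.preimage_compl]; exact hf sᶜ⟩, hf s⟩

namespace InvM

variable {A X : Type} [TopologicalSpace X] {φ : A → X ≃ₜ X} {m : Set X → ENNReal}

theorem mono (h : InvM φ m) {U V : Set X} (hU : IsClopen U) (hV : IsClopen V) (hUV : U ⊆ V) :
    m U ≤ m V := by
  have h1 : V = U ∪ (V \ U) := (Set.union_sdiff_cancel hUV).symm
  rw [h1, h.union U (V \ U) hU (hV.diff hU) Set.disjoint_sdiff_right]
  exact le_self_add

/-- Finite sums over the values of a locally constant function. -/
theorem sum_preimage (h : InvM φ m) {E : Type} {f : X → E} (hf : IsLocallyConstant f)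
    (s : Finset E) : m (f ⁻¹' (s : Set E)) = ∑ e ∈ s, m (f ⁻¹' {e}) := by
  classical
  induction s using Finset.induction_on with
  | empty => simpa using h.empty
  | insert e s he ih =>
    rw [Finset.sum_insert he, ← ih, ← h.union _ _ (isClopen_pre hf _) (isClopen_pre hf _) ?_]
    · rw [Finset.coe_insert, Set.insert_eq, Set.preimage_union]
    · refine Disjoint.preimage f ?_
      rw [Set.disjoint_singleton_left]
      exact he

end InvM

end Pool.Agent.ZT
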