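import Pool.Agent.ZT.Ext
import Pool.Agent.ZT.InvM
import Pool.Agent.ZT.Flow

/-!
# The core of an invariant set function

Given an invariant finitely additive set function `m` with values in `[0, ∞]`, the types of positive
finite measure form a finite core, with the rules of the types at all vertices of finite measure.
-/

set_option autoImplicit false

namespace Pool.Agent.ZT

variable {A X : Type}

/-- The type of a point of the space. -/
def tpX [TopologicalSpace X] (φ : A → X ≃ₜ X) (κ : X → ℕ) (x : X) : ℕ × (A → ℕ) :=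
  (κ x, fun a => κ (φ a x))

theorem isLocallyConstant_tpX [Finite A] [TopologicalSpace X] (φ : A → X ≃ₜ X) {κ : X → ℕ}
    (hκ : IsLocallyConstant κ) : IsLocallyConstant (tpX φ κ) := by
  refine hκ.prodMk ?_
  rw [IsLocallyConstant.iff_eventually_eq]
  intro x
  have h1 : ∀ᶠ y in nhds x, ∀ a, κ (φ a y) = κ (φ a x) :=
    Filter.eventually_all.2 fun a => (hκ.comp_continuous (φ a).continuous).eventually_eq x
  filter_upwards [h1] with y hy
  exact funext hy

/-- The number of points of the fibres. -/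
theorem card_fiber {E : Type} [Fintype E] (n : E → ℕ) (f : E → Prop) [DecidablePred f] :
    (Nat.card {p : (Σ e, Fin (n e)) // f p.1} : ℤ) =
      ∑ e, (if f e then (1 : ℤ) else 0) * (n e : ℤ) := by
  classical
  rw [Nat.card_eq_fintype_card, Fintype.card_subtype, Finset.card_filter]
  push_cast
  rw [Fintype.sum_sigma]
  refine Finset.sum_congr rfl fun e _ => ?_
  show (∑ _y : Fin (n e), if f e then (1 : ℤ) else 0) = _
  rw [Finset.sum_const, Finset.card_univ, Fintype.card_fin, nsmul_eq_mul, mul_comm]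

/-- **The core.** -/
theorem exists_core {T : Type} [MulAction (FreeGroup A) T] [Finite A] [TopologicalSpace X]
    [CompactSpace X] (φ : A → X ≃ₜ X) {m : Set X → ENNReal} (hm : InvM φ m) {κ : X → ℕ}
    (hκ : IsLocallyConstant κ) (κT : T → ℕ)
    (hT : ∀ x, m (tpX φ κ ⁻¹' {tpX φ κ x}) = ⊤ → ∃ t, tp κT t = tpX φ κ x) :
    ∃ (N : Type) (_ : Finite N) (e : N → ℕ × (A → ℕ)) (nx : A × Bool → N → N ⊕ T),
      (∀ p, ∃ x, e p = tpX φ κ x) ∧
      (∀ x, m (tpX φ κ ⁻¹' {tpX φ κ x}) ≠ 0 → m (tpX φ κ ⁻¹' {tpX φ κ x}) ≠ ⊤ →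
        ∃ p, e p = tpX φ κ x) ∧
      (∀ s p p', nx s p = Sum.inl p' → nx (bar s) p' = Sum.inl p) ∧
      (∀ a p p', nx (a, true) p = Sum.inl p' → (e p').1 = (e p).2 a) ∧
      (∀ a p t, nx (a, true) p = Sum.inr t → κT t = (e p).2 a) ∧
      (∀ a p t, nx (a, false) p = Sum.inr t → κT (FreeGroup.of a • t) = (e p).1) := by
  classical
  have hty := isLocallyConstant_tpX φ hκ
  have hfin : (Set.range (tpX φ κ)).Finite := hty.range_finite
  -- the types
  let R : Finset (ℕ × (A → ℕ)) := hfin.toFinset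
  let M : ℕ × (A → ℕ) → ENNReal := fun e => m (tpX φ κ ⁻¹' {e})
  have hsum : ∀ (P : ℕ × (A → ℕ) → Prop) [DecidablePred P],
      m {x | P (tpX φ κ x)} = ∑ e ∈ R.filter P, M e := by
    intro P _
    rw [← hm.sum_preimage hty]
    congr 1
    ext x
    simp only [Set.mem_ofPred_eq, Set.mem_preimage, Finset.mem_coe, Finset.mem_filter]
    refine ⟨fun h => ⟨?_, h⟩, fun h => h.2⟩
    rw [Set.Finite.mem_toFinset]
    exact ⟨x, rfl⟩
  -- the positive finite types
  let E : Type := {e : ℕ × (A → ℕ) // e ∈ R ∧ M e ≠ 0 ∧ M e ≠ ⊤}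
  have hE : Finite E := Finite.of_injective (fun e : E => (⟨e.1, e.2.1⟩ : R)) fun e e' h =>
    Subtype.ext (congrArg (fun z : R => z.1) h)
  have : Fintype E := Fintype.ofFinite E
  let μ : E → ℝ := fun e => (M e.1).toReal
  have hμ : ∀ e, 0 < μ e := fun e => ENNReal.toReal_pos e.2.2.1 e.2.2.2
  have hsumE : ∀ (P : ℕ × (A → ℕ) → Prop) [DecidablePred P], m {x | P (tpX φ κ x)} ≠ ⊤ →
      (m {x | P (tpX φ κ x)}).toReal = ∑ e : E, (if P e.1 then (1 : ℝ) else 0) * μ e := by
    intro P _ hP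
    rw [hsum P] at hP ⊢
    rw [ENNReal.sum_ne_top] at hP
    rw [ENNReal.toReal_sum fun e he => hP e he]
    have h1 : ∑ e : E, (if P e.1 then (1 : ℝ) else 0) * μ e =
        ∑ e ∈ Finset.univ.filter (fun e : E => P e.1), (M e.1).toReal := by
      rw [Finset.sum_filter]
      refine Finset.sum_congr rfl fun e _ => ?_
      split_ifs
      · rw [one_mul]
      · rw [zero_mul]
    rw [h1]
    symm
    refine Finset.sum_bij_ne_zero (fun e _ _ => e.1) ?_ ?_ ?_ ?_
    · intro e he _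
      rw [Finset.mem_filter] at he ⊢
      exact ⟨e.2.1, he.2⟩
    · intro e _ _ e' _ _ h
      exact Subtype.ext h
    · intro e he hne
      have h2 : M e ≠ ⊤ := hP e he
      rw [Finset.mem_filter] at he
      have h3 : M e ≠ 0 := by
        intro h
        exact hne (by rw [h, ENNReal.toReal_zero])
      refine ⟨⟨e, he.1, h3, h2⟩, ?_, hne, rfl⟩
      rw [Finset.mem_filter]
      exact ⟨Finset.mem_univ _, he.2⟩
    · intro e _ _
      rfl
  have hinv : ∀ (a : A) (v : ℕ), m {x | (tpX φ κ x).2 a = v} = m {x | (tpX φ κ x).1 = v} := by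
    intro a v
    exact hm.inv a {x | κ x = v} (isClopen_pre hκ {v})
  -- the integer solution
  obtain ⟨n, hn0, hn⟩ := exists_nat_solution μ hμ
  let N : Type := Σ e : E, Fin (n e)
  let ve : ℕ → Prop := fun v => m {x | (tpX φ κ x).1 = v} ≠ ⊤
  have hbij : ∀ (a : A) (v : ℕ), ve v →
      Nonempty ({p : N // p.1.1.2 a = v} ≃ {p : N // p.1.1.1 = v}) := by
    intro a v hv
    have h1 := hsumE (fun e => e.1 = v) hv
    have h2 := hsumE (fun e => e.2 a = v) (by rw [hinv a v]; exact hv)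
    rw [hinv a v, h1] at h2
    have h3 := hn (fun e => (if e.1.1 = v then 1 else 0) - (if e.1.2 a = v then 1 else 0)) (by
      push_cast
      simp only [sub_mul, Finset.sum_sub_distrib]
      rw [sub_eq_zero]
      exact h2)
    simp only [sub_mul, Finset.sum_sub_distrib] at h3
    have h4 := card_fiber n (fun e => e.1.1 = v)
    have h5 := card_fiber n (fun e => e.1.2 a = v)
    have h6 : Nat.card {p : N // p.1.1.2 a = v} = Nat.card {p : N // p.1.1.1 = v} := by
      have h7 : (Nat.card {p : N // p.1.1.2 a = v} : ℤ) = Nat.card {p : N // p.1.1.1 = v} := by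
        rw [h4, h5]
        exact (sub_eq_zero.1 h3).symm
      exact_mod_cast h7
    exact Finite.card_eq.1 h6
  -- the entries
  have hen1 : ∀ v, ¬ ve v → ∃ t, κT t = v := by
    intro v hv
    have h1 : m {x | (tpX φ κ x).1 = v} = ⊤ := not_not.1 hv
    rw [hsum (fun e => e.1 = v), ENNReal.sum_eq_top] at h1
    obtain ⟨e, he, h2⟩ := h1
    rw [Finset.mem_filter, Set.Finite.mem_toFinset] at he
    obtain ⟨⟨x, rfl⟩, h3⟩ := he
    obtain ⟨t, ht⟩ := hT x h2
    exact ⟨t, (congrArg Prod.fst ht).trans h3⟩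
  have hen2 : ∀ (a : A) (v : ℕ), ¬ ve v → ∃ t, κT (FreeGroup.of a • t) = v := by
    intro a v hv
    have h1 : m {x | (tpX φ κ x).1 = v} = ⊤ := not_not.1 hv
    rw [← hinv a v, hsum (fun e => e.2 a = v), ENNReal.sum_eq_top] at h1
    obtain ⟨e, he, h2⟩ := h1
    rw [Finset.mem_filter, Set.Finite.mem_toFinset] at he
    obtain ⟨⟨x, rfl⟩, h3⟩ := he
    obtain ⟨t, ht⟩ := hT x h2
    refine ⟨t, Eq.trans ?_ h3⟩
    exact congrFun (congrArg Prod.snd ht) a
  let B : ∀ (a : A) (v : ℕ), ve v → ({p : N // p.1.1.2 a = v} ≃ {p : N // p.1.1.1 = v}) :=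
    fun a v hv => (hbij a v hv).some
  let nx : A × Bool → N → N ⊕ T := fun s p =>
    if s.2 = true then
      (if h : ve (p.1.1.2 s.1) then Sum.inl (B s.1 _ h ⟨p, rfl⟩).1
        else Sum.inr (hen1 _ h).choose)
    else
      (if h : ve p.1.1.1 then Sum.inl ((B s.1 _ h).symm ⟨p, rfl⟩).1
        else Sum.inr (hen2 s.1 _ h).choose)
  have nt_inl : ∀ (a : A) (p : N) (h : ve (p.1.1.2 a)),
      nx (a, true) p = Sum.inl (B a _ h ⟨p, rfl⟩).1 := by
    intro a p h
    simp only [nx, if_true, dif_pos h]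
  have nt_inr : ∀ (a : A) (p : N) (h : ¬ ve (p.1.1.2 a)),
      nx (a, true) p = Sum.inr (hen1 _ h).choose := by
    intro a p h
    simp only [nx, if_true, dif_neg h]
  have nf_inl : ∀ (a : A) (p : N) (h : ve p.1.1.1),
      nx (a, false) p = Sum.inl ((B a _ h).symm ⟨p, rfl⟩).1 := by
    intro a p h
    simp only [nx, Bool.false_eq_true, if_false, dif_pos h]
  have nf_inr : ∀ (a : A) (p : N) (h : ¬ ve p.1.1.1),
      nx (a, false) p = Sum.inr (hen2 a _ h).choose := by
    intro a p h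
    simp only [nx, Bool.false_eq_true, if_false, dif_neg h]
  have key1 : ∀ (a : A) (v : ℕ) (h : ve v) (p p' : N) (hp : p.1.1.2 a = v) (hp' : p'.1.1.1 = v),
      B a v h ⟨p, hp⟩ = ⟨p', hp'⟩ → nx (a, true) p = Sum.inl p' := by
    intro a v h p p' hp hp' hB
    subst hp
    rw [nt_inl a p h, hB]
  have key2 : ∀ (a : A) (v : ℕ) (h : ve v) (p p' : N) (hp : p.1.1.2 a = v) (hp' : p'.1.1.1 = v),
      B a v h ⟨p, hp⟩ = ⟨p', hp'⟩ → nx (a, false) p' = Sum.inl p := by
    intro a v h p p' hp hp' hB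
    subst hp'
    rw [nf_inl a p' h, ← hB, Equiv.symm_apply_apply]
  refine ⟨N, inferInstance, fun p => p.1.1, nx, ?_, ?_, ?_, ?_, ?_, ?_⟩
  · intro p
    have h1 := p.1.2.1
    rw [Set.Finite.mem_toFinset] at h1
    obtain ⟨x, hx⟩ := h1
    exact ⟨x, hx.symm⟩
  · intro x h0 h1
    have h2 : tpX φ κ x ∈ R := by
      rw [Set.Finite.mem_toFinset]
      exact ⟨x, rfl⟩
    exact ⟨⟨⟨tpX φ κ x, h2, h0, h1⟩, ⟨0, hn0 _⟩⟩, rfl⟩
  · rintro ⟨a, ε⟩ p p' h
    cases ε
    · by_cases h1 : ve p.1.1.1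
      · rw [nf_inl a p h1] at h
        have h2 := Sum.inl.inj h
        refine key1 a p.1.1.1 h1 p' p (h2 ▸ ((B a _ h1).symm ⟨p, rfl⟩).2) rfl ?_
        rw [← Equiv.eq_symm_apply]
        exact Subtype.ext h2.symm
      · rw [nf_inr a p h1] at h
        cases h
    · by_cases h1 : ve (p.1.1.2 a)
      · rw [nt_inl a p h1] at h
        have h2 := Sum.inl.inj h
        refine key2 a (p.1.1.2 a) h1 p p' rfl (h2 ▸ (B a _ h1 ⟨p, rfl⟩).2) ?_
        exact Subtype.ext h2
      · rw [nt_inr a p h1] at h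
        cases h
  · intro a p p' h
    by_cases h1 : ve (p.1.1.2 a)
    · rw [nt_inl a p h1] at h
      have h2 := Sum.inl.inj h
      rw [← h2]
      exact (B a _ h1 ⟨p, rfl⟩).2
    · rw [nt_inr a p h1] at h
      cases h
  · intro a p t h
    by_cases h1 : ve (p.1.1.2 a)
    · rw [nt_inl a p h1] at h
      cases h
    · rw [nt_inr a p h1] at h
      rw [← Sum.inr.inj h]
      exact (hen1 _ h1).choose_spec
  · intro a p t h
    by_cases h1 : ve p.1.1.1
    · rw [nf_inl a p h1] at h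
      cases h
    · rw [nf_inr a p h1] at h
      rw [← Sum.inr.inj h]
      exact (hen2 a _ h1).choose_spec

end Pool.Agent.ZT
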