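import Pool.Agent.ZT.GMet

/-!
# Tree partitions of finite sets of vertices
-/

set_option autoImplicit false

namespace Pool.Agent.ZT

open Classical in
section

variable {V : Type}

/-- Every finite set of vertices has a balanced separation of order at most `k`. -/
def Sep (Γ : SimpleGraph V) (k : ℕ) : Prop :=
  ∀ S : Finset V, ∃ A B : Set V, A ∪ B = Set.univ ∧
    (∀ u v, Γ.Adj u v → u ∈ A \ B → v ∉ B \ A) ∧ (A ∩ B).encard ≤ k ∧
    3 * ((S : Set V) ∩ (A \ B)).encard ≤ 2 * (S : Set V).encard ∧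
    3 * ((S : Set V) ∩ (B \ A)).encard ≤ 2 * (S : Set V).encard

/-- One step down in the tree of lists. -/
def Par1 (l m : List ℕ) : Prop := ∃ a, m = l ++ [a]

/-- Two nodes are equal or adjacent in the tree of lists. -/
def Near (l m : List ℕ) : Prop := l = m ∨ Par1 l m ∨ Par1 m l

/-- Change the first step. -/
def fst1 (f : ℕ → ℕ) : List ℕ → List ℕ
  | [] => []
  | x :: t => f x :: t

theorem fst1_par (f : ℕ → ℕ) {l m : List ℕ} (h : Par1 l m) : Par1 (fst1 f l) (fst1 f m) := by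
  obtain ⟨a, rfl⟩ := h
  cases l with
  | nil => exact ⟨f a, rfl⟩
  | cons x t => exact ⟨a, rfl⟩

theorem fst1_near (f : ℕ → ℕ) {l m : List ℕ} (h : Near l m) : Near (fst1 f l) (fst1 f m) := by
  rcases h with rfl | h | h
  · exact Or.inl rfl
  · exact Or.inr (Or.inl (fst1_par f h))
  · exact Or.inr (Or.inr (fst1_par f h))

theorem cons_near (x : ℕ) {l m : List ℕ} (h : Near l m) : Near (x :: l) (x :: m) := by
  rcases h with rfl | ⟨a, rfl⟩ | ⟨a, rfl⟩
  · exact Or.inl rfl
  · exact Or.inr (Or.inl ⟨a, rfl⟩)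
  · exact Or.inr (Or.inr ⟨a, rfl⟩)

/-- The conclusion of the theorem of Ding and Oporowski for a finite set `U` with root set `S`. -/
def TP (Γ : SimpleGraph V) (d k : ℕ) (U S : Finset V) (ρ : V → List ℕ) : Prop :=
  (∀ u ∈ S, ρ u = []) ∧ (∀ u ∈ U, ∀ v ∈ U, Γ.Adj u v → Near (ρ u) (ρ v)) ∧
    (∀ l, (U.filter fun u => ρ u = l).card ≤ 18 * k * d) ∧
    2 * (U.filter fun u => ρ u = []).card + 4 * k ≤ 3 * S.card

theorem TP_small (Γ : SimpleGraph V) (d k : ℕ) (U S : Finset V)
    (h4 : 4 * k ≤ S.card) (h12 : S.card ≤ 12 * k * d)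
    (hsmall : (U \ S).card ≤ 18 * k * d) : ∃ ρ, TP Γ d k U S ρ := by
  obtain ⟨ρ, hρ⟩ : ∃ ρ : V → List ℕ, ρ = fun u => if u ∈ S then [] else [0] := ⟨_, rfl⟩
  have h1 : ∀ u ∈ S, ρ u = [] := fun u hu => by rw [hρ]; exact if_pos hu
  have h2 : ∀ u, u ∉ S → ρ u = [0] := fun u hu => by rw [hρ]; exact if_neg hu
  have h3 : (U.filter fun u => ρ u = []) ⊆ S := by
    intro u hu
    rw [Finset.mem_filter] at hu
    by_contra h
    rw [h2 u h] at hu
    exact absurd hu.2 (by simp)
  refine ⟨ρ, h1, fun u _ v _ _ => ?_, fun l => ?_, ?_⟩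
  · by_cases hu : u ∈ S
    · by_cases hv : v ∈ S
      · rw [h1 u hu, h1 v hv]
        exact Or.inl rfl
      · rw [h1 u hu, h2 v hv]
        exact Or.inr (Or.inl ⟨0, rfl⟩)
    · by_cases hv : v ∈ S
      · rw [h2 u hu, h1 v hv]
        exact Or.inr (Or.inr ⟨0, rfl⟩)
      · rw [h2 u hu, h2 v hv]
        exact Or.inl rfl
  · by_cases hl : l = []
    · rw [hl]
      refine (Finset.card_le_card h3).trans (h12.trans ?_)
      exact Nat.mul_le_mul_right _ (Nat.mul_le_mul_right _ (by norm_num))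
    · refine (Finset.card_le_card fun u hu => ?_).trans hsmall
      rw [Finset.mem_filter] at hu
      rw [Finset.mem_sdiff]
      refine ⟨hu.1, fun h => ?_⟩
      rw [h1 u h] at hu
      exact hl hu.2.symm
  · have h5 := Finset.card_le_card h3
    omega

theorem TP_nbr (Γ : SimpleGraph V) (d k : ℕ) (hd1 : 1 ≤ d) (U S S' : Finset V)
    (h4 : 4 * k ≤ S.card) (h12 : S.card ≤ 12 * k) (hS' : ∀ u ∈ S, ∀ v ∈ U \ S, Γ.Adj u v → v ∈ S')
    {ρ' : V → List ℕ} (h : TP Γ d k (U \ S) S' ρ') : ∃ ρ, TP Γ d k U S ρ := by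
  obtain ⟨ρ, hρ⟩ : ∃ ρ : V → List ℕ, ρ = fun u => if u ∈ S then [] else 0 :: ρ' u := ⟨_, rfl⟩
  have h1 : ∀ u ∈ S, ρ u = [] := fun u hu => by rw [hρ]; exact if_pos hu
  have h2 : ∀ u, u ∉ S → ρ u = 0 :: ρ' u := fun u hu => by rw [hρ]; exact if_neg hu
  have h3 : (U.filter fun u => ρ u = []) ⊆ S := by
    intro u hu
    rw [Finset.mem_filter] at hu
    by_contra h
    rw [h2 u h] at hu
    exact absurd hu.2 (by simp)
  have hkd : 12 * k ≤ 18 * k * d := by
    calc 12 * k ≤ 18 * k := Nat.mul_le_mul_right _ (by norm_num)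
      _ ≤ 18 * k * d := Nat.le_mul_of_pos_right _ hd1
  refine ⟨ρ, h1, fun u hu v hv huv => ?_, fun l => ?_, ?_⟩
  · by_cases hu1 : u ∈ S
    · by_cases hv1 : v ∈ S
      · rw [h1 u hu1, h1 v hv1]
        exact Or.inl rfl
      · rw [h1 u hu1, h2 v hv1, h.1 v (hS' u hu1 v (Finset.mem_sdiff.2 ⟨hv, hv1⟩) huv)]
        exact Or.inr (Or.inl ⟨0, rfl⟩)
    · by_cases hv1 : v ∈ S
      · rw [h2 u hu1, h1 v hv1, h.1 u (hS' v hv1 u (Finset.mem_sdiff.2 ⟨hu, hu1⟩) huv.symm)]
        exact Or.inr (Or.inr ⟨0, rfl⟩)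
      · rw [h2 u hu1, h2 v hv1]
        exact cons_near 0 (h.2.1 u (Finset.mem_sdiff.2 ⟨hu, hu1⟩) v (Finset.mem_sdiff.2 ⟨hv, hv1⟩) huv)
  · cases l with
    | nil => exact (Finset.card_le_card h3).trans (h12.trans hkd)
    | cons x t =>
      refine (Finset.card_le_card fun u hu => ?_).trans (h.2.2.1 t)
      rw [Finset.mem_filter] at hu ⊢
      have hu1 : u ∉ S := fun hu1 => by
        rw [h1 u hu1] at hu
        exact absurd hu.2 (by simp)
      refine ⟨Finset.mem_sdiff.2 ⟨hu.1, hu1⟩, ?_⟩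
      have h5 := hu.2
      rw [h2 u hu1] at h5
      exact (List.cons.inj h5).2
  · have h5 := Finset.card_le_card h3
    omega

theorem TP_glue (Γ : SimpleGraph V) (d k : ℕ) (U S : Finset V) (hSU : S ⊆ U)
    (h12 : S.card ≤ 12 * k * d) (A B : Set V) (hAB : A ∪ B = Set.univ)
    (hsep : ∀ u v, Γ.Adj u v → u ∈ A \ B → v ∉ B \ A)
    (hZ : (U.filter fun u => u ∈ A ∧ u ∈ B).card ≤ k)
    {ρ₁ ρ₂ : V → List ℕ}
    (h1 : TP Γ d k (U.filter fun u => u ∈ A)
      (U.filter fun u => u ∈ A ∧ (u ∈ S ∨ u ∈ B)) ρ₁)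
    (h2 : TP Γ d k (U.filter fun u => u ∈ B)
      (U.filter fun u => u ∈ B ∧ (u ∈ S ∨ u ∈ A)) ρ₂) : ∃ ρ, TP Γ d k U S ρ := by
  obtain ⟨f, hf⟩ : ∃ f : List ℕ → List ℕ, f = fst1 fun n => 2 * n := ⟨_, rfl⟩
  obtain ⟨g, hg⟩ : ∃ g : List ℕ → List ℕ, g = fst1 fun n => 2 * n + 1 := ⟨_, rfl⟩
  have hf0 : f [] = [] := by rw [hf]; rfl
  have hg0 : g [] = [] := by rw [hg]; rfl
  have hf1 : ∀ x t, f (x :: t) = 2 * x :: t := fun x t => by rw [hf]; rfl
  have hg1 : ∀ x t, g (x :: t) = (2 * x + 1) :: t := fun x t => by rw [hg]; rfl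
  have hfn : ∀ l, f l = [] → l = [] := by
    intro l hl
    cases l with
    | nil => rfl
    | cons x t => rw [hf1] at hl; exact absurd hl (by simp)
  have hgn : ∀ l, g l = [] → l = [] := by
    intro l hl
    cases l with
    | nil => rfl
    | cons x t => rw [hg1] at hl; exact absurd hl (by simp)
  obtain ⟨ρ, hρ⟩ : ∃ ρ : V → List ℕ, ρ = fun u => if u ∈ A then f (ρ₁ u) else g (ρ₂ u) := ⟨_, rfl⟩
  have hA : ∀ u ∈ A, ρ u = f (ρ₁ u) := fun u hu => by rw [hρ]; exact if_pos hu
  have hA' : ∀ u, u ∉ A → ρ u = g (ρ₂ u) := fun u hu => by rw [hρ]; exact if_neg hu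
  have hBm : ∀ u, u ∉ A → u ∈ B := fun u hu => by
    have h : u ∈ A ∪ B := by rw [hAB]; trivial
    exact h.resolve_left hu
  have hB : ∀ u ∈ U, u ∈ B → ρ u = g (ρ₂ u) := by
    intro u hu hub
    by_cases hua : u ∈ A
    · rw [hA u hua, h1.1 u (Finset.mem_filter.2 ⟨hu, hua, Or.inr hub⟩),
        h2.1 u (Finset.mem_filter.2 ⟨hu, hub, Or.inr hua⟩), hf0, hg0]
    · exact hA' u hua
  have hroot : (U.filter fun u => ρ u = []).card + (U.filter fun u => u ∈ A ∧ u ∈ B).card ≤
      ((U.filter fun u => u ∈ A).filter fun u => ρ₁ u = []).card +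
      ((U.filter fun u => u ∈ B).filter fun u => ρ₂ u = []).card := by
    have e1 : (U.filter fun u => ρ u = []) ⊆
        ((U.filter fun u => u ∈ A).filter fun u => ρ₁ u = []) ∪
          ((U.filter fun u => u ∈ B).filter fun u => ρ₂ u = []) := by
      intro u hu
      rw [Finset.mem_filter] at hu
      rw [Finset.mem_union, Finset.mem_filter, Finset.mem_filter, Finset.mem_filter,
        Finset.mem_filter]
      by_cases hua : u ∈ A
      · have h := hu.2
        rw [hA u hua] at h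
        exact Or.inl ⟨⟨hu.1, hua⟩, hfn _ h⟩
      · have h := hu.2
        rw [hA' u hua] at h
        exact Or.inr ⟨⟨hu.1, hBm u hua⟩, hgn _ h⟩
    have e2 : (U.filter fun u => u ∈ A ∧ u ∈ B) ⊆
        ((U.filter fun u => u ∈ A).filter fun u => ρ₁ u = []) ∩
          ((U.filter fun u => u ∈ B).filter fun u => ρ₂ u = []) := by
      intro u hu
      rw [Finset.mem_filter] at hu
      rw [Finset.mem_inter, Finset.mem_filter, Finset.mem_filter, Finset.mem_filter,
        Finset.mem_filter]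
      exact ⟨⟨⟨hu.1, hu.2.1⟩, h1.1 u (Finset.mem_filter.2 ⟨hu.1, hu.2.1, Or.inr hu.2.2⟩)⟩,
        ⟨hu.1, hu.2.2⟩, h2.1 u (Finset.mem_filter.2 ⟨hu.1, hu.2.2, Or.inr hu.2.1⟩)⟩
    rw [← Finset.card_union_add_card_inter ((U.filter fun u => u ∈ A).filter fun u => ρ₁ u = [])
      ((U.filter fun u => u ∈ B).filter fun u => ρ₂ u = [])]
    exact Nat.add_le_add (Finset.card_le_card e1) (Finset.card_le_card e2)
  have hSS : (U.filter fun u => u ∈ A ∧ (u ∈ S ∨ u ∈ B)).card +
      (U.filter fun u => u ∈ B ∧ (u ∈ S ∨ u ∈ A)).card ≤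
      S.card + 2 * (U.filter fun u => u ∈ A ∧ u ∈ B).card := by
    have e1 : (U.filter fun u => u ∈ A ∧ (u ∈ S ∨ u ∈ B)) ⊆
        (S.filter fun u => u ∈ A ∧ u ∉ B) ∪ (U.filter fun u => u ∈ A ∧ u ∈ B) := by
      intro u hu
      rw [Finset.mem_filter] at hu
      rw [Finset.mem_union, Finset.mem_filter, Finset.mem_filter]
      by_cases hub : u ∈ B
      · exact Or.inr ⟨hu.1, hu.2.1, hub⟩
      · exact Or.inl ⟨hu.2.2.resolve_right hub, hu.2.1, hub⟩
    have e2 : (U.filter fun u => u ∈ B ∧ (u ∈ S ∨ u ∈ A)) ⊆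
        (S.filter fun u => ¬ (u ∈ A ∧ u ∉ B)) ∪ (U.filter fun u => u ∈ A ∧ u ∈ B) := by
      intro u hu
      rw [Finset.mem_filter] at hu
      rw [Finset.mem_union, Finset.mem_filter, Finset.mem_filter]
      by_cases hua : u ∈ A
      · exact Or.inr ⟨hu.1, hua, hu.2.1⟩
      · exact Or.inl ⟨hu.2.2.resolve_right hua, fun h => hua h.1⟩
    have e3 := (Finset.card_le_card e1).trans (Finset.card_union_le _ _)
    have e4 := (Finset.card_le_card e2).trans (Finset.card_union_le _ _)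
    have e5 : (S.filter fun u => u ∈ A ∧ u ∉ B).card +
      (S.filter fun u => ¬ (u ∈ A ∧ u ∉ B)).card = S.card :=
      Finset.card_filter_add_card_filter_not _
    omega
  have hfin : 2 * (U.filter fun u => ρ u = []).card + 4 * k ≤ 3 * S.card := by
    have e1 := h1.2.2.2
    have e2 := h2.2.2.2
    omega
  refine ⟨ρ, fun u hu => ?_, fun u hu v hv huv => ?_, fun l => ?_, hfin⟩
  · by_cases hua : u ∈ A
    · rw [hA u hua, h1.1 u (Finset.mem_filter.2 ⟨hSU hu, hua, Or.inl hu⟩), hf0]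
    · rw [hA' u hua, h2.1 u (Finset.mem_filter.2 ⟨hSU hu, hBm u hua, Or.inl hu⟩), hg0]
  · by_cases hua : u ∈ A
    · by_cases hva : v ∈ A
      · rw [hA u hua, hA v hva, hf]
        exact fst1_near _ (h1.2.1 u (Finset.mem_filter.2 ⟨hu, hua⟩) v
          (Finset.mem_filter.2 ⟨hv, hva⟩) huv)
      · have hub : u ∈ B := by
          by_contra hub
          exact hsep u v huv ⟨hua, hub⟩ ⟨hBm v hva, hva⟩
        rw [hB u hu hub, hB v hv (hBm v hva), hg]
        exact fst1_near _ (h2.2.1 u (Finset.mem_filter.2 ⟨hu, hub⟩) v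
          (Finset.mem_filter.2 ⟨hv, hBm v hva⟩) huv)
    · have hvb : v ∈ B := by
        by_contra hvb
        have hva : v ∈ A := by
          by_contra hva
          exact hvb (hBm v hva)
        exact hsep v u huv.symm ⟨hva, hvb⟩ ⟨hBm u hua, hua⟩
      rw [hB u hu (hBm u hua), hB v hv hvb, hg]
      exact fst1_near _ (h2.2.1 u (Finset.mem_filter.2 ⟨hu, hBm u hua⟩) v
        (Finset.mem_filter.2 ⟨hv, hvb⟩) huv)
  · cases l with
    | nil =>
      have e1 : 18 * k * d = 18 * (k * d) := by ring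
      have e2 : 12 * k * d = 12 * (k * d) := by ring
      rw [e2] at h12
      rw [e1]
      omega
    | cons x t =>
      rcases Nat.even_or_odd' x with ⟨c, rfl | rfl⟩
      · refine (Finset.card_le_card fun u hu => ?_).trans (h1.2.2.1 (c :: t))
        rw [Finset.mem_filter] at hu
        rw [Finset.mem_filter, Finset.mem_filter]
        by_cases hua : u ∈ A
        · refine ⟨⟨hu.1, hua⟩, ?_⟩
          have h := hu.2
          rw [hA u hua] at h
          cases hr : ρ₁ u with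
          | nil =>
            rw [hr, hf0] at h
            exact absurd h (by simp)
          | cons y s =>
            rw [hr, hf1] at h
            obtain ⟨e1, e2⟩ := List.cons.inj h
            rw [e2, show y = c by omega]
        · exfalso
          have h := hu.2
          rw [hA' u hua] at h
          cases hr : ρ₂ u with
          | nil =>
            rw [hr, hg0] at h
            exact absurd h (by simp)
          | cons y s =>
            rw [hr, hg1] at h
            obtain ⟨e1, e2⟩ := List.cons.inj h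
            omega
      · refine (Finset.card_le_card fun u hu => ?_).trans (h2.2.2.1 (c :: t))
        rw [Finset.mem_filter] at hu
        rw [Finset.mem_filter, Finset.mem_filter]
        by_cases hua : u ∈ A
        · exfalso
          have h := hu.2
          rw [hA u hua] at h
          cases hr : ρ₁ u with
          | nil =>
            rw [hr, hf0] at h
            exact absurd h (by simp)
          | cons y s =>
            rw [hr, hf1] at h
            obtain ⟨e1, e2⟩ := List.cons.inj h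
            omega
        · refine ⟨⟨hu.1, hBm u hua⟩, ?_⟩
          have h := hu.2
          rw [hA' u hua] at h
          cases hr : ρ₂ u with
          | nil =>
            rw [hr, hg0] at h
            exact absurd h (by simp)
          | cons y s =>
            rw [hr, hg1] at h
            obtain ⟨e1, e2⟩ := List.cons.inj h
            rw [e2, show y = c by omega]

theorem exists_TP (Γ : SimpleGraph V) (d k : ℕ) (hd : ∀ u, {v | Γ.Adj u v}.encard ≤ d)
    (hd1 : 1 ≤ d) (hk1 : 1 ≤ k) (hS : Sep Γ k) (n : ℕ) : ∀ U S : Finset V, U.card = n → S ⊆ U →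
    4 * k ≤ S.card → S.card ≤ 12 * k * d → ∃ ρ, TP Γ d k U S ρ := by
  induction n using Nat.strong_induction_on with
  | _ n ih =>
  intro U S hUn hSU h4 h12
  by_cases hsmall : (U \ S).card ≤ 18 * k * d
  · exact TP_small Γ d k U S h4 h12 hsmall
  push Not at hsmall
  have e1 : 18 * k * d = 18 * (k * d) := by ring
  have e2 : 12 * k * d = 12 * (k * d) := by ring
  have e3 : k ≤ k * d := Nat.le_mul_of_pos_right k hd1
  have e4 := Finset.card_sdiff_add_card_eq_card hSU
  rw [e1] at hsmall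
  by_cases hS12 : S.card ≤ 12 * k
  · -- few roots: take the neighbours
    have hfin : ∀ u, {v | Γ.Adj u v}.Finite := fun u => Set.finite_of_encard_le_coe (hd u)
    have hN : ((S.biUnion fun u => (hfin u).toFinset) ∩ (U \ S)).card ≤ 12 * k * d := by
      refine (Finset.card_le_card Finset.inter_subset_left).trans ?_
      refine (Finset.card_biUnion_le_card_mul S _ d fun u _ => ?_).trans
        (Nat.mul_le_mul_right _ hS12)
      have h := hd u
      rw [(hfin u).encard_eq_coe_toFinset_card] at h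
      exact_mod_cast h
    obtain ⟨S', h1, h2, h3⟩ := Finset.exists_subsuperset_card_eq
      (s := (S.biUnion fun u => (hfin u).toFinset) ∩ (U \ S)) (t := U \ S)
      (n := 12 * k * d) Finset.inter_subset_right hN (by rw [e2]; omega)
    obtain ⟨ρ', hρ'⟩ := ih (U \ S).card (by omega) (U \ S) S' rfl h2
      (by rw [h3, e2]; omega) h3.le
    refine TP_nbr Γ d k hd1 U S S' h4 hS12 (fun u hu v hv huv => ?_) hρ'
    refine h1 (Finset.mem_inter.2 ⟨Finset.mem_biUnion.2 ⟨u, hu, ?_⟩, hv⟩)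
    exact (hfin u).mem_toFinset.2 huv
  · push Not at hS12
    obtain ⟨A, B, hAB, hsep, hk, hSA, hSB⟩ := hS S
    have hcard : ∀ P Q : Set V, ((S : Set V) ∩ (P \ Q)).encard =
        ((S.filter fun u => u ∈ P ∧ u ∉ Q).card : ℕ) := by
      intro P Q
      rw [← Set.encard_coe_eq_coe_finsetCard, Finset.coe_filter]
      rfl
    rw [hcard, Set.encard_coe_eq_coe_finsetCard] at hSA hSB
    have hSA' : 3 * (S.filter fun u => u ∈ A ∧ u ∉ B).card ≤ 2 * S.card := by exact_mod_cast hSA
    have hSB' : 3 * (S.filter fun u => u ∈ B ∧ u ∉ A).card ≤ 2 * S.card := by exact_mod_cast hSB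
    have hZ : (U.filter fun u => u ∈ A ∧ u ∈ B).card ≤ k := by
      have h : (((U.filter fun u => u ∈ A ∧ u ∈ B : Finset V) : Set V)).encard ≤ k := by
        refine (Set.encard_le_encard fun u hu => ?_).trans hk
        rw [Finset.mem_coe, Finset.mem_filter] at hu
        exact hu.2
      rw [Set.encard_coe_eq_coe_finsetCard] at h
      exact_mod_cast h
    have hBm : ∀ u, u ∈ A ∨ u ∈ B := fun u => by
      have h : u ∈ A ∪ B := by rw [hAB]; trivial
      exact h
    have key : ∀ P Q : Set V, (∀ u, u ∈ P ∨ u ∈ Q) →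
        3 * (S.filter fun u => u ∈ P ∧ u ∉ Q).card ≤ 2 * S.card →
        3 * (S.filter fun u => u ∈ Q ∧ u ∉ P).card ≤ 2 * S.card →
        (U.filter fun u => u ∈ P ∧ u ∈ Q).card ≤ k →
        4 * k ≤ (U.filter fun u => u ∈ P ∧ (u ∈ S ∨ u ∈ Q)).card ∧
        (U.filter fun u => u ∈ P ∧ (u ∈ S ∨ u ∈ Q)).card ≤ 12 * k * d ∧
        (U.filter fun u => u ∈ P).card < n := by
      intro P Q hPQ hP hQ hPQk
      have f1 : S ⊆ (U.filter fun u => u ∈ P ∧ (u ∈ S ∨ u ∈ Q)) ∪
          (S.filter fun u => u ∈ Q ∧ u ∉ P) := by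
        intro u hu
        rw [Finset.mem_union, Finset.mem_filter, Finset.mem_filter]
        by_cases huP : u ∈ P
        · exact Or.inl ⟨hSU hu, huP, Or.inl hu⟩
        · exact Or.inr ⟨hu, (hPQ u).resolve_left huP, huP⟩
      have f2 : (U.filter fun u => u ∈ P ∧ (u ∈ S ∨ u ∈ Q)) ⊆
          (S.filter fun u => u ∈ P ∧ u ∉ Q) ∪ (U.filter fun u => u ∈ P ∧ u ∈ Q) := by
        intro u hu
        rw [Finset.mem_filter] at hu
        rw [Finset.mem_union, Finset.mem_filter, Finset.mem_filter]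
        by_cases huQ : u ∈ Q
        · exact Or.inr ⟨hu.1, hu.2.1, huQ⟩
        · exact Or.inl ⟨hu.2.2.resolve_right huQ, hu.2.1, huQ⟩
      have f3 : S ⊆ (S.filter fun u => u ∈ P ∧ u ∉ Q) ∪ ((U.filter fun u => u ∈ P ∧ u ∈ Q) ∪
          (S.filter fun u => u ∈ Q ∧ u ∉ P)) := by
        intro u hu
        rw [Finset.mem_union, Finset.mem_union, Finset.mem_filter, Finset.mem_filter,
          Finset.mem_filter]
        by_cases huP : u ∈ P
        · by_cases huQ : u ∈ Q
          · exact Or.inr (Or.inl ⟨hSU hu, huP, huQ⟩)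
          · exact Or.inl ⟨hu, huP, huQ⟩
        · exact Or.inr (Or.inr ⟨hu, (hPQ u).resolve_left huP, huP⟩)
      have f4 : (U.filter fun u => u ∈ P) ∪ (S.filter fun u => u ∈ Q ∧ u ∉ P) ⊆ U := by
        intro u hu
        rw [Finset.mem_union, Finset.mem_filter, Finset.mem_filter] at hu
        rcases hu with hu | hu
        · exact hu.1
        · exact hSU hu.1
      have f5 : Disjoint (U.filter fun u => u ∈ P) (S.filter fun u => u ∈ Q ∧ u ∉ P) := by
        rw [Finset.disjoint_left]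
        intro u h1 h2
        rw [Finset.mem_filter] at h1 h2
        exact h2.2.2 h1.2
      have g1 := (Finset.card_le_card f1).trans (Finset.card_union_le _ _)
      have g2 := (Finset.card_le_card f2).trans (Finset.card_union_le _ _)
      have g3 := (Finset.card_le_card f3).trans ((Finset.card_union_le _ _).trans
        (Nat.add_le_add_left (Finset.card_union_le _ _) _))
      have g4 := Finset.card_le_card f4
      rw [Finset.card_union_of_disjoint f5] at g4
      rw [e2] at h12 ⊢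
      refine ⟨by omega, by omega, by omega⟩
    obtain ⟨a1, a2, a3⟩ := key A B hBm hSA' hSB' hZ
    obtain ⟨b1, b2, b3⟩ := key B A (fun u => (hBm u).symm) hSB' hSA'
      (by simpa only [and_comm] using hZ)
    obtain ⟨ρ₁, hρ₁⟩ := ih _ a3 (U.filter fun u => u ∈ A)
      (U.filter fun u => u ∈ A ∧ (u ∈ S ∨ u ∈ B)) rfl
      (fun u hu => by rw [Finset.mem_filter] at hu ⊢; exact ⟨hu.1, hu.2.1⟩) a1 a2
    obtain ⟨ρ₂, hρ₂⟩ := ih _ b3 (U.filter fun u => u ∈ B)
      (U.filter fun u => u ∈ B ∧ (u ∈ S ∨ u ∈ A)) rfl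
      (fun u hu => by rw [Finset.mem_filter] at hu ⊢; exact ⟨hu.1, hu.2.1⟩) b1 b2
    exact TP_glue Γ d k U S hSU h12 A B hAB hsep hZ hρ₁ hρ₂

/-- **Ding and Oporowski.** -/
theorem exists_tree_partition (Γ : SimpleGraph V) (d k : ℕ)
    (hd : ∀ u, {v | Γ.Adj u v}.encard ≤ d) (hd1 : 1 ≤ d) (hk1 : 1 ≤ k) (hS : Sep Γ k)
    (U : Finset V) : ∃ ρ : V → List ℕ, (∀ u ∈ U, ∀ v ∈ U, Γ.Adj u v → Near (ρ u) (ρ v)) ∧
      ∀ l, (U.filter fun u => ρ u = l).card ≤ 18 * k * d := by
  by_cases h : 4 * k ≤ U.card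
  · have e2 : 12 * k * d = 12 * (k * d) := by ring
    have e3 : k ≤ k * d := Nat.le_mul_of_pos_right k hd1
    obtain ⟨S, hSU, hS4⟩ := Finset.exists_subset_card_eq h
    obtain ⟨ρ, hρ⟩ := exists_TP Γ d k hd hd1 hk1 hS U.card U S rfl hSU hS4.ge
      (by rw [hS4, e2]; omega)
    exact ⟨ρ, hρ.2.1, hρ.2.2.1⟩
  · refine ⟨fun _ => [], fun _ _ _ _ _ => Or.inl rfl, fun l => ?_⟩
    have e1 : 18 * k * d = 18 * (k * d) := by ring
    have e3 : k ≤ k * d := Nat.le_mul_of_pos_right k hd1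
    have e5 := Finset.card_filter_le U fun _ : V => ([] : List ℕ) = l
    rw [e1]
    push Not at h
    exact e5.trans (by omega)

end

end Pool.Agent.ZT
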