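import Pool.Agent.T59.LocFin

/-!
# Permutations of the integers which almost commute with a translation

`EP p` is the group of the permutations `f` of `ℤ` with `f (n + p) = f n + p` for all but finitely many `n`
(`p ≥ 1`); `EPJ J p` is the group of the permutations of `J × ℤ` which preserve each line `{j} × ℤ` and belong
to `EP p` on it. For finite `J` these groups are in all classes `C` closed under the usual operations: the
germs at `+∞` and `-∞` are permutations which commute with the translation by `p`, a virtually abelian group, and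
the kernel consists of finitely supported permutations.
-/

set_option autoImplicit false

open Filter

namespace Pool.Agent.ZT

open Pool.Agent.Helper29.BA Pool.Agent.Helper29.PA Pool.Agent.T59

variable {C : ∀ (G : Type) [Group G], Prop}

/-- A permutation of the integers is proper. -/
theorem perm_finite (f : Equiv.Perm ℤ) {S : Set ℤ} (hS : S.Finite) : {n | f n ∈ S}.Finite :=
  hS.preimage f.injective.injOn

/-- The permutations which commute with the translation by `s`, up to finitely many points. -/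
def EP (s : ℤ) : Subgroup (Equiv.Perm ℤ) where
  carrier := {f | {n | f (n + s) ≠ f n + s}.Finite}
  mul_mem' := by
    intro f g hf hg
    refine (hg.union (perm_finite g hf)).subset ?_
    intro n hn
    by_contra h
    rw [Set.mem_union, not_or] at h
    have h1 : g (n + s) = g n + s := not_not.1 h.1
    have h2 : f (g n + s) = f (g n) + s := not_not.1 h.2
    apply hn
    change f (g (n + s)) = f (g n) + s
    rw [h1, h2]
  one_mem' := by
    have : {n : ℤ | (1 : Equiv.Perm ℤ) (n + s) ≠ (1 : Equiv.Perm ℤ) n + s} = ∅ := by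
      ext n
      simp
    change Set.Finite {n : ℤ | (1 : Equiv.Perm ℤ) (n + s) ≠ (1 : Equiv.Perm ℤ) n + s}
    rw [this]
    exact Set.finite_empty
  inv_mem' := by
    intro f hf
    refine (perm_finite (f⁻¹ : Equiv.Perm ℤ) hf).subset ?_
    intro n hn h
    apply hn
    have h1 : f ((f⁻¹ : Equiv.Perm ℤ) n) = n := f.apply_symm_apply n
    rw [h1] at h
    have h2 : (f⁻¹ : Equiv.Perm ℤ) (f ((f⁻¹ : Equiv.Perm ℤ) n + s)) = (f⁻¹ : Equiv.Perm ℤ) n + s :=
      f.symm_apply_apply _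
    rw [h] at h2
    exact h2

theorem mem_EP_iff {s : ℤ} {f : Equiv.Perm ℤ} : f ∈ EP s ↔ {n | f (n + s) ≠ f n + s}.Finite := Iff.rfl

theorem EP_neg {s : ℤ} {f : Equiv.Perm ℤ} (h : f ∈ EP s) : f ∈ EP (-s) := by
  refine (h.image fun n => n + s).subset ?_
  intro n hn
  refine ⟨n - s, ?_, by ring⟩
  intro h1
  apply hn
  have e : n - s + s = n := by ring
  rw [e] at h1
  have e2 : n + -s = n - s := by ring
  rw [e2, h1]
  ring

/-- `f (n + k s) = m + k s` for all large `k`. -/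
def Lim (s : ℤ) (f : Equiv.Perm ℤ) (n m : ℤ) : Prop := ∀ᶠ k : ℕ in atTop, f (n + k * s) = m + k * s

theorem Lim.unique {s : ℤ} {f : Equiv.Perm ℤ} {n m m' : ℤ} (h : Lim s f n m) (h' : Lim s f n m') : m = m' := by
  obtain ⟨k, h1, h2⟩ := (h.and h').exists
  rw [h1] at h2
  exact add_right_cancel h2

theorem Lim.mul {s : ℤ} {f g : Equiv.Perm ℤ} {n m l : ℤ} (hg : Lim s g n m) (hf : Lim s f m l) :
    Lim s (f * g) n l := by
  filter_upwards [hg, hf] with k h1 h2
  rw [Equiv.Perm.mul_apply, h1, h2]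

theorem Lim.inv {s : ℤ} {f : Equiv.Perm ℤ} {n m : ℤ} (h : Lim s f n m) : Lim s f⁻¹ m n := by
  filter_upwards [h] with k h1
  rw [← h1]
  exact f.symm_apply_apply _

theorem Lim.one (s n : ℤ) : Lim s 1 n n := Eventually.of_forall fun _ => rfl

theorem exists_Lim {s : ℤ} (hs : s ≠ 0) {f : Equiv.Perm ℤ} (hf : f ∈ EP s) (n : ℤ) : ∃ m, Lim s f n m := by
  have h1 : {k : ℕ | n + k * s ∈ {n | f (n + s) ≠ f n + s}}.Finite := by
    refine (mem_EP_iff.1 hf).preimage (f := fun k : ℕ => n + (k : ℤ) * s) ?_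
    intro a _ b _ hab
    have h2 : (a : ℤ) * s = b * s := add_left_cancel hab
    exact_mod_cast mul_right_cancel₀ hs h2
  obtain ⟨K, hK⟩ := h1.bddAbove
  have h2 : ∀ j : ℕ, f (n + ((K + 1 + j : ℕ) : ℤ) * s) = f (n + ((K + 1 : ℕ) : ℤ) * s) + j * s := by
    intro j
    induction j with
    | zero => simp
    | succ j ih =>
      have h3 : ¬ (K + 1 + j ∈ {k : ℕ | n + k * s ∈ {n | f (n + s) ≠ f n + s}}) := fun h => by
        have := hK h
        omega
      have h4 : f (n + ((K + 1 + j : ℕ) : ℤ) * s + s) = f (n + ((K + 1 + j : ℕ) : ℤ) * s) + s := not_not.1 h3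
      have e : n + ((K + 1 + (j + 1) : ℕ) : ℤ) * s = n + ((K + 1 + j : ℕ) : ℤ) * s + s := by push_cast; ring
      rw [e, h4, ih]
      push_cast
      ring
  refine ⟨f (n + ((K + 1 : ℕ) : ℤ) * s) - (K + 1 : ℕ) * s, ?_⟩
  rw [Lim, eventually_atTop]
  refine ⟨K + 1, fun k hk => ?_⟩
  obtain ⟨j, rfl⟩ := Nat.exists_eq_add_of_le hk
  rw [h2 j]
  push_cast
  ring

/-- The limit permutation in the direction of `s`. -/
noncomputable def lim (s : ℤ) (hs : s ≠ 0) (f : EP s) : Equiv.Perm ℤ where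
  toFun n := (exists_Lim hs f.2 n).choose
  invFun n := (exists_Lim hs (f⁻¹).2 n).choose
  left_inv n := by
    have h1 := (exists_Lim hs f.2 n).choose_spec
    have h2 := (exists_Lim hs (f⁻¹).2 (exists_Lim hs f.2 n).choose).choose_spec
    exact h2.unique h1.inv
  right_inv n := by
    have h1 := (exists_Lim hs (f⁻¹).2 n).choose_spec
    have h2 := (exists_Lim hs f.2 (exists_Lim hs (f⁻¹).2 n).choose).choose_spec
    have h3 := h1.inv
    have e : ((f⁻¹ : EP s) : Equiv.Perm ℤ)⁻¹ = f := inv_inv _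
    rw [e] at h3
    exact h2.unique h3

theorem lim_spec {s : ℤ} (hs : s ≠ 0) (f : EP s) (n : ℤ) : Lim s f n (lim s hs f n) :=
  (exists_Lim hs f.2 n).choose_spec

/-- The limit homomorphism. -/
noncomputable def limHom (s : ℤ) (hs : s ≠ 0) : EP s →* Equiv.Perm ℤ where
  toFun := lim s hs
  map_one' := by
    ext n
    exact (lim_spec hs 1 n).unique (Lim.one s n)
  map_mul' f g := by
    ext n
    exact (lim_spec hs (f * g) n).unique ((lim_spec hs g n).mul (lim_spec hs f _))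

/-- The permutations which commute with the translation by `s`. -/
def Per (s : ℤ) : Subgroup (Equiv.Perm ℤ) where
  carrier := {f | ∀ n, f (n + s) = f n + s}
  mul_mem' := by
    intro f g hf hg n
    change f (g (n + s)) = f (g n) + s
    rw [hg n, hf (g n)]
  one_mem' := fun n => rfl
  inv_mem' := by
    intro f hf n
    have h := hf ((f⁻¹ : Equiv.Perm ℤ) n)
    have h1 : f ((f⁻¹ : Equiv.Perm ℤ) n) = n := f.apply_symm_apply n
    rw [h1] at h
    rw [← h]
    exact f.symm_apply_apply _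

theorem lim_mem {s : ℤ} (hs : s ≠ 0) (f : EP s) : lim s hs f ∈ Per s := by
  intro n
  have h1 := lim_spec hs f n
  have h2 : Lim s f (n + s) (lim s hs f n + s) := by
    have h3 : ∀ᶠ k : ℕ in atTop, (f : Equiv.Perm ℤ) (n + ((k + 1 : ℕ) : ℤ) * s) =
        lim s hs f n + ((k + 1 : ℕ) : ℤ) * s := (tendsto_add_atTop_nat 1).eventually h1
    filter_upwards [h3] with k h4
    have e1 : n + ((k + 1 : ℕ) : ℤ) * s = n + s + k * s := by push_cast; ring
    have e2 : lim s hs f n + ((k + 1 : ℕ) : ℤ) * s = lim s hs f n + s + k * s := by push_cast; ring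
    rw [e1, e2] at h4
    exact h4
  exact (lim_spec hs f (n + s)).unique h2

theorem Per_neg {s : ℤ} {f : Equiv.Perm ℤ} (h : f ∈ Per (-s)) : f ∈ Per s := by
  intro n
  have h1 := h (n + s)
  have e : n + s + -s = n := by ring
  rw [e] at h1
  rw [h1]
  ring

/-! ### The group `Per p` is virtually abelian -/

theorem Per.add_mul {s : ℤ} {f : Equiv.Perm ℤ} (hf : f ∈ Per s) (n k : ℤ) : f (n + k * s) = f n + k * s := by
  induction k using Int.induction_on with
  | zero => simp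
  | succ k ih =>
    have e : n + ((k : ℤ) + 1) * s = n + k * s + s := by ring
    rw [e, hf, ih]
    ring
  | pred k ih =>
    have h1 := hf (n + (-(k : ℤ) - 1) * s)
    have e : n + (-(k : ℤ) - 1) * s + s = n + -(k : ℤ) * s := by ring
    rw [e, ih] at h1
    have h2 : f (n + (-(k : ℤ) - 1) * s) = f n + -(k : ℤ) * s - s := by rw [h1]; ring
    rw [h2]
    ring

theorem Per.dvd {s : ℤ} {f : Equiv.Perm ℤ} (hf : f ∈ Per s) {n m : ℤ} (h : s ∣ n - m) : s ∣ f n - f m := by
  obtain ⟨k, hk⟩ := h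
  have e : n = m + k * s := by rw [mul_comm k s, ← hk]; ring
  rw [e, Per.add_mul hf]
  exact ⟨k, by ring⟩

/-- The induced permutation of the residues. -/
def red (p : ℕ) [NeZero p] (f : Per (p : ℤ)) : Equiv.Perm (ZMod p) where
  toFun x := ((f : Equiv.Perm ℤ) (x.val : ℤ) : ZMod p)
  invFun x := (((f⁻¹ : Per (p : ℤ)) : Equiv.Perm ℤ) (x.val : ℤ) : ZMod p)
  left_inv x := by
    have h1 : (p : ℤ) ∣ ((((f : Equiv.Perm ℤ) (x.val : ℤ) : ZMod p)).val : ℤ) - (f : Equiv.Perm ℤ) (x.val : ℤ) := by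
      rw [← ZMod.intCast_eq_intCast_iff_dvd_sub]
      simp
    have h2 := Per.dvd (f⁻¹ : Per (p : ℤ)).2 h1
    have h3 : (((f⁻¹ : Per (p : ℤ)) : Equiv.Perm ℤ) ((f : Equiv.Perm ℤ) (x.val : ℤ))) = x.val :=
      (f : Equiv.Perm ℤ).symm_apply_apply _
    rw [h3, ← ZMod.intCast_eq_intCast_iff_dvd_sub] at h2
    exact h2.symm.trans (by simp)
  right_inv x := by
    have h1 : (p : ℤ) ∣ (((((f⁻¹ : Per (p : ℤ)) : Equiv.Perm ℤ) (x.val : ℤ) : ZMod p)).val : ℤ) -
        ((f⁻¹ : Per (p : ℤ)) : Equiv.Perm ℤ) (x.val : ℤ) := by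
      rw [← ZMod.intCast_eq_intCast_iff_dvd_sub]
      simp
    have h2 := Per.dvd f.2 h1
    have h3 : ((f : Equiv.Perm ℤ) (((f⁻¹ : Per (p : ℤ)) : Equiv.Perm ℤ) (x.val : ℤ))) = x.val :=
      (f : Equiv.Perm ℤ).apply_symm_apply _
    rw [h3, ← ZMod.intCast_eq_intCast_iff_dvd_sub] at h2
    exact h2.symm.trans (by simp)

/-- The homomorphism to the permutations of the residues. -/
def redHom (p : ℕ) [NeZero p] : Per (p : ℤ) →* Equiv.Perm (ZMod p) where
  toFun := red p
  map_one' := by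
    ext x
    change (((x.val : ℤ) : ZMod p)) = x
    simp
  map_mul' f g := by
    ext x
    change (((f : Equiv.Perm ℤ) ((g : Equiv.Perm ℤ) (x.val : ℤ)) : ℤ) : ZMod p) =
      (((f : Equiv.Perm ℤ) (((((g : Equiv.Perm ℤ) (x.val : ℤ) : ZMod p)).val : ℕ) : ℤ) : ℤ) : ZMod p)
    rw [eq_comm, ZMod.intCast_eq_intCast_iff_dvd_sub]
    apply Per.dvd f.2
    rw [← ZMod.intCast_eq_intCast_iff_dvd_sub]
    simp

theorem red_ker {p : ℕ} [NeZero p] {f : Per (p : ℤ)} (hf : redHom p f = 1) (n : ℤ) :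
    (p : ℤ) ∣ (f : Equiv.Perm ℤ) n - n := by
  have h1 := congrArg (fun q : Equiv.Perm (ZMod p) => q (n : ZMod p)) hf
  have h2 : (((f : Equiv.Perm ℤ) (((n : ZMod p)).val : ℤ) : ℤ) : ZMod p) = (n : ZMod p) := h1
  have h3 : (p : ℤ) ∣ (((n : ZMod p)).val : ℤ) - n := by
    rw [← ZMod.intCast_eq_intCast_iff_dvd_sub]
    simp
  have h4 := Per.dvd f.2 h3
  rw [ZMod.intCast_eq_intCast_iff_dvd_sub] at h2
  have e : (f : Equiv.Perm ℤ) n - n = -(((f : Equiv.Perm ℤ) (((n : ZMod p)).val : ℤ) - (f : Equiv.Perm ℤ) n) +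
      (n - (f : Equiv.Perm ℤ) (((n : ZMod p)).val : ℤ))) := by ring
  rw [e]
  exact dvd_neg.2 (dvd_add h4 h2)

/-- The displacements of an element of the kernel. -/
def disp (p : ℕ) [NeZero p] : (redHom p).ker →* (Fin p → Multiplicative ℤ) where
  toFun f i := Multiplicative.ofAdd ((((f : Per (p : ℤ)) : Equiv.Perm ℤ) (i : ℕ) - (i : ℕ)) / p)
  map_one' := by
    funext i
    change Multiplicative.ofAdd ((((i : ℕ) : ℤ) - (i : ℕ)) / p) = 1
    simp
  map_mul' f g := by
    funext i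
    obtain ⟨a, ha⟩ := red_ker f.2 (i : ℕ)
    obtain ⟨b, hb⟩ := red_ker g.2 (i : ℕ)
    have hp : (p : ℤ) ≠ 0 := by exact_mod_cast NeZero.ne p
    have e1 : ((g : Per (p : ℤ)) : Equiv.Perm ℤ) (i : ℕ) = (i : ℕ) + b * p := by rw [mul_comm b, ← hb]; ring
    have e2 : ((f : Per (p : ℤ)) : Equiv.Perm ℤ) (i : ℕ) = (i : ℕ) + a * p := by rw [mul_comm a, ← ha]; ring
    have e3 : ((((f * g : (redHom p).ker) : Per (p : ℤ)) : Equiv.Perm ℤ) (i : ℕ)) = (i : ℕ) + (a + b) * p := by
      change ((f : Per (p : ℤ)) : Equiv.Perm ℤ) (((g : Per (p : ℤ)) : Equiv.Perm ℤ) (i : ℕ)) = _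
      rw [e1, Per.add_mul (f : Per (p : ℤ)).2, e2]
      ring
    change Multiplicative.ofAdd ((((((f * g : (redHom p).ker) : Per (p : ℤ)) : Equiv.Perm ℤ) (i : ℕ)) - (i : ℕ)) / p) =
      Multiplicative.ofAdd ((((f : Per (p : ℤ)) : Equiv.Perm ℤ) (i : ℕ) - (i : ℕ)) / p) *
        Multiplicative.ofAdd ((((g : Per (p : ℤ)) : Equiv.Perm ℤ) (i : ℕ) - (i : ℕ)) / p)
    rw [e1, e2, e3, ← ofAdd_add]
    congr 1
    rw [add_sub_cancel_left, add_sub_cancel_left, add_sub_cancel_left, Int.mul_ediv_cancel _ hp,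
      Int.mul_ediv_cancel _ hp, Int.mul_ediv_cancel _ hp]

theorem disp_injective (p : ℕ) [NeZero p] : Function.Injective (disp p) := by
  rw [injective_iff_map_eq_one]
  intro f hf
  have hp : (p : ℤ) ≠ 0 := by exact_mod_cast NeZero.ne p
  have hp0 : 0 < p := Nat.pos_of_ne_zero (NeZero.ne p)
  apply Subtype.ext
  apply Subtype.ext
  ext n
  change ((f : Per (p : ℤ)) : Equiv.Perm ℤ) n = n
  obtain ⟨i, hi⟩ : ∃ i : ℕ, (i : ℤ) = n % p := ⟨(n % p).toNat, Int.toNat_of_nonneg (Int.emod_nonneg _ hp)⟩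
  have hip : i < p := by
    have := Int.emod_lt_of_pos n (show (0 : ℤ) < p by exact_mod_cast hp0)
    rw [← hi] at this
    exact_mod_cast this
  have h1 := congrFun hf ⟨i, hip⟩
  have h2 : (((f : Per (p : ℤ)) : Equiv.Perm ℤ) (i : ℤ) - (i : ℤ)) / p = 0 := h1
  obtain ⟨a, ha⟩ := red_ker f.2 (i : ℤ)
  rw [ha, Int.mul_ediv_cancel_left _ hp] at h2
  rw [h2, mul_zero, sub_eq_zero] at ha
  have e : n = (i : ℤ) + (n / p) * p := by
    rw [hi]
    exact (Int.emod_add_ediv_mul n p).symm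
  rw [e, Per.add_mul (f : Per (p : ℤ)).2, ha]

theorem mem_Per (hC : ExtClass C) (p : ℕ) [NeZero p] : C (Per (p : ℤ)) := by
  have h1 : C (redHom p).ker :=
    hC.toClosedClass.inj (disp p) (disp_injective p) (hC.toClosedClass.pi hC.int)
  exact hC.finiteIndex _ (redHom p).ker (Subgroup.finiteIndex_ker _) h1

/-! ### The group `EP p` -/

/-- The germs at `+∞` and `-∞`. -/
noncomputable def germs (p : ℕ) [NeZero p] : EP (p : ℤ) →* Per (p : ℤ) × Per (p : ℤ) :=
  have hp : (p : ℤ) ≠ 0 := by exact_mod_cast NeZero.ne p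
  MonoidHom.prod
    ((limHom (p : ℤ) hp).codRestrict (Per (p : ℤ)) fun f => lim_mem hp f)
    (((limHom (-(p : ℤ)) (neg_ne_zero.2 hp)).comp
      (Subgroup.inclusion (H := EP (p : ℤ)) (K := EP (-(p : ℤ))) fun _ h => EP_neg h)).codRestrict
      (Per (p : ℤ)) fun f => Per_neg (lim_mem (neg_ne_zero.2 hp) _))

theorem germs_ker {p : ℕ} [NeZero p] {f : EP (p : ℤ)} (hf : germs p f = 1) :
    ∃ K : ℕ, ∀ n : ℤ, (K : ℤ) ≤ |n| → (f : Equiv.Perm ℤ) n = n := by
  have hp : (p : ℤ) ≠ 0 := by exact_mod_cast NeZero.ne p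
  have hp0 : (0 : ℤ) < p := by exact_mod_cast Nat.pos_of_ne_zero (NeZero.ne p)
  have h1 : ∀ n, Lim (p : ℤ) f n n := by
    intro n
    have h2 := congrArg (fun q : Per (p : ℤ) × Per (p : ℤ) => (q.1 : Equiv.Perm ℤ) n) hf
    have h3 : lim (p : ℤ) hp f n = n := h2
    have h4 := lim_spec hp f n
    rwa [h3] at h4
  have h2 : ∀ n, Lim (-(p : ℤ)) f n n := by
    intro n
    have h2 := congrArg (fun q : Per (p : ℤ) × Per (p : ℤ) => (q.2 : Equiv.Perm ℤ) n) hf
    have h3 : lim (-(p : ℤ)) (neg_ne_zero.2 hp) ⟨f, EP_neg f.2⟩ n = n := h2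
    have h4 := lim_spec (neg_ne_zero.2 hp) ⟨f, EP_neg f.2⟩ n
    rw [h3] at h4
    exact h4
  have h3 : ∀ i : ℕ, ∃ K : ℕ, ∀ k : ℕ, K ≤ k → (f : Equiv.Perm ℤ) (i + k * p) = i + k * p ∧
      (f : Equiv.Perm ℤ) (i + k * -(p : ℤ)) = i + k * -(p : ℤ) := fun i =>
    eventually_atTop.1 ((h1 i).and (h2 i))
  choose K hK using h3
  refine ⟨((Finset.range p).sup K + 1) * p, fun n hn => ?_⟩
  obtain ⟨i, hi⟩ : ∃ i : ℕ, (i : ℤ) = n % p := ⟨(n % p).toNat, Int.toNat_of_nonneg (Int.emod_nonneg _ hp)⟩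
  have hip : i < p := by
    have := Int.emod_lt_of_pos n hp0
    rw [← hi] at this
    exact_mod_cast this
  have hKi : K i ≤ (Finset.range p).sup K := Finset.le_sup (Finset.mem_range.2 hip)
  have e : n = (i : ℤ) + (n / p) * p := by
    rw [hi]
    exact (Int.emod_add_ediv_mul n p).symm
  set S : ℕ := (Finset.range p).sup K with hS
  set k : ℤ := n / p with hk
  have hi0 : (0 : ℤ) ≤ i := Int.natCast_nonneg _
  have hip' : (i : ℤ) < p := by exact_mod_cast hip
  have hn' : ((S : ℤ) + 1) * p ≤ |n| := by exact_mod_cast hn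
  rcases le_total 0 n with h0 | h0
  · rw [abs_of_nonneg h0] at hn'
    have h5 : (S : ℤ) < k + 1 := by
      by_contra hc
      have h6 : (k + 1) * (p : ℤ) ≤ S * p := mul_le_mul_of_nonneg_right (not_lt.1 hc) hp0.le
      nlinarith
    obtain ⟨m, hm⟩ := Int.eq_ofNat_of_zero_le (show 0 ≤ k by omega)
    have h7 := (hK i m (by omega)).1
    rw [e, hm]
    exact h7
  · rw [abs_of_nonpos h0] at hn'
    have h5 : (S : ℤ) < -k + 1 := by
      by_contra hc
      have h6 : (-k + 1) * (p : ℤ) ≤ S * p := mul_le_mul_of_nonneg_right (not_lt.1 hc) hp0.le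
      nlinarith
    obtain ⟨m, hm⟩ := Int.eq_ofNat_of_zero_le (show 0 ≤ -k by omega)
    have h7 := (hK i m (by omega)).2
    have e2 : k = -(m : ℤ) := by rw [← hm]; ring
    have e3 : (m : ℤ) * -(p : ℤ) = k * p := by rw [e2]; ring
    rw [e3] at h7
    rw [e]
    exact h7

theorem finite_closure_of_fix {G : Type} [Group G] (ρ : G →* Equiv.Perm ℤ) (hρ : Function.Injective ρ)
    (T : Finset G) (hT : ∀ x ∈ T, ∃ K : ℕ, ∀ n : ℤ, (K : ℤ) ≤ |n| → ρ x n = n) :
    Finite (Subgroup.closure (T : Set G)) := by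
  classical
  choose! K hK using hT
  set L : ℕ := T.sup K with hL
  have h1 : ∀ x ∈ Subgroup.closure (T : Set G), ∀ n : ℤ, (L : ℤ) ≤ |n| → ρ x n = n := by
    intro x hx
    induction hx using Subgroup.closure_induction with
    | mem x hx =>
      intro n hn
      refine hK x hx n (le_trans ?_ hn)
      exact_mod_cast Finset.le_sup (f := K) hx
    | one => intro n _; rw [map_one]; rfl
    | mul x y _ _ hx hy =>
      intro n hn
      rw [map_mul, Equiv.Perm.mul_apply, hy n hn, hx n hn]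
    | inv x _ hx =>
      intro n hn
      rw [map_inv]
      nth_rewrite 1 [← hx n hn]
      exact (ρ x).symm_apply_apply n
  have hW : Finite {n : ℤ // |n| < L} := by
    refine Set.Finite.to_subtype ((Set.finite_Ioo (-(L : ℤ)) L).subset ?_)
    intro n hn
    exact abs_lt.1 hn
  refine Finite.of_injective (β := {n : ℤ // |n| < L} → {n : ℤ // |n| < L})
    (fun x n => ⟨ρ x n, ?_⟩) ?_
  · by_contra hc
    have h2 := h1 x.1 x.2 (ρ x n) (not_lt.1 hc)
    have h3 := (ρ x).injective h2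
    exact hc (by rw [h3]; exact n.2)
  · intro x y hxy
    apply Subtype.ext
    apply hρ
    ext n
    by_cases hn : |n| < L
    · have := congrFun hxy ⟨n, hn⟩
      exact congrArg Subtype.val this
    · rw [h1 x.1 x.2 n (not_lt.1 hn), h1 y.1 y.2 n (not_lt.1 hn)]

theorem mem_EP (hC : ExtClass C) (p : ℕ) [NeZero p] : C (EP (p : ℤ)) := by
  refine mem_of_locallyFinite hC (germs p) (hC.prod _ _ (mem_Per hC p) (mem_Per hC p)) ?_
  intro T hT
  exact finite_closure_of_fix (EP (p : ℤ)).subtype Subtype.val_injective T fun x hx => germs_ker (hT x hx)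

/-- The permutations of `J × ℤ` which preserve the lines `{j} × ℤ` and commute on them with the translation by `p`,
up to finitely many points. -/
def EPJ (J : Type) (p : ℕ) : Subgroup (Equiv.Perm (J × ℤ)) where
  carrier := {q | (∀ x, (q x).1 = x.1) ∧ ∀ j, {n | (q (j, n + p)).2 ≠ (q (j, n)).2 + p}.Finite}
  mul_mem' := by
    rintro f g ⟨hf, hf'⟩ ⟨hg, hg'⟩
    refine ⟨fun x => by rw [Equiv.Perm.mul_apply, hf, hg], fun j => ?_⟩
    have hinj : Function.Injective fun n : ℤ => (g (j, n)).2 := by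
      intro a b hab
      have h1 : g (j, a) = g (j, b) := Prod.ext (by rw [hg, hg]) hab
      exact congrArg Prod.snd (g.injective h1)
    refine ((hg' j).union ((hf' j).preimage hinj.injOn)).subset ?_
    intro n hn
    by_contra h
    rw [Set.mem_union, not_or] at h
    have h1 : (g (j, n + p)).2 = (g (j, n)).2 + p := not_not.1 h.1
    have h2 : (f (j, (g (j, n)).2 + p)).2 = (f (j, (g (j, n)).2)).2 + p := not_not.1 h.2
    apply hn
    have e : ∀ m, g (j, m) = (j, (g (j, m)).2) := fun m => Prod.ext (hg (j, m)) rfl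
    rw [Equiv.Perm.mul_apply, Equiv.Perm.mul_apply, e (n + p), e n, h1, h2]
  one_mem' := by
    refine ⟨fun x => rfl, fun j => ?_⟩
    have h1 : {n : ℤ | ((1 : Equiv.Perm (J × ℤ)) (j, n + p)).2 ≠ ((1 : Equiv.Perm (J × ℤ)) (j, n)).2 + p} = ∅ := by
      ext n
      simp
    rw [h1]
    exact Set.finite_empty
  inv_mem' := by
    rintro f ⟨hf, hf'⟩
    have hinv : ∀ x, ((f⁻¹ : Equiv.Perm (J × ℤ)) x).1 = x.1 := by
      intro x
      have h1 := hf ((f⁻¹ : Equiv.Perm (J × ℤ)) x)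
      have h2 : f ((f⁻¹ : Equiv.Perm (J × ℤ)) x) = x := f.apply_symm_apply x
      rw [h2] at h1
      exact h1.symm
    refine ⟨hinv, fun j => ?_⟩
    have hinj : Function.Injective fun n : ℤ => ((f⁻¹ : Equiv.Perm (J × ℤ)) (j, n)).2 := by
      intro a b hab
      have h1 : (f⁻¹ : Equiv.Perm (J × ℤ)) (j, a) = (f⁻¹ : Equiv.Perm (J × ℤ)) (j, b) :=
        Prod.ext (by rw [hinv, hinv]) hab
      exact congrArg Prod.snd ((f⁻¹ : Equiv.Perm (J × ℤ)).injective h1)
    refine ((hf' j).preimage hinj.injOn).subset ?_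
    intro n hn h
    apply hn
    have e : (f⁻¹ : Equiv.Perm (J × ℤ)) (j, n) = (j, ((f⁻¹ : Equiv.Perm (J × ℤ)) (j, n)).2) :=
      Prod.ext (hinv (j, n)) rfl
    have h1 : f (j, ((f⁻¹ : Equiv.Perm (J × ℤ)) (j, n)).2) = (j, n) := by
      rw [← e]
      exact f.apply_symm_apply _
    have h2 : f (j, ((f⁻¹ : Equiv.Perm (J × ℤ)) (j, n)).2 + p) = (j, n + p) :=
      Prod.ext (hf _) (by rw [h, h1])
    rw [← h2]
    exact congrArg Prod.snd (f.symm_apply_apply _)

theorem mem_EPJ (hC : ExtClass C) (J : Type) [Finite J] (p : ℕ) [NeZero p] : C (EPJ J p) := by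
  have hinv : ∀ (q : EPJ J p) x, (((q : Equiv.Perm (J × ℤ))⁻¹ : Equiv.Perm (J × ℤ)) x).1 = x.1 := fun q x =>
    ((EPJ J p).inv_mem q.2).1 x
  let φ : EPJ J p →* (J → EP (p : ℤ)) :=
    { toFun := fun q j => ⟨
        { toFun := fun n => ((q : Equiv.Perm (J × ℤ)) (j, n)).2
          invFun := fun n => (((q : Equiv.Perm (J × ℤ))⁻¹ : Equiv.Perm (J × ℤ)) (j, n)).2
          left_inv := fun n => by
            have e : (j, ((q : Equiv.Perm (J × ℤ)) (j, n)).2) = (q : Equiv.Perm (J × ℤ)) (j, n) :=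
              Prod.ext (q.2.1 (j, n)).symm rfl
            change (((q : Equiv.Perm (J × ℤ))⁻¹ : Equiv.Perm (J × ℤ))
              (j, ((q : Equiv.Perm (J × ℤ)) (j, n)).2)).2 = n
            rw [e]
            exact congrArg Prod.snd ((q : Equiv.Perm (J × ℤ)).symm_apply_apply _)
          right_inv := fun n => by
            have e : (j, (((q : Equiv.Perm (J × ℤ))⁻¹ : Equiv.Perm (J × ℤ)) (j, n)).2) =
                ((q : Equiv.Perm (J × ℤ))⁻¹ : Equiv.Perm (J × ℤ)) (j, n) :=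
              Prod.ext (hinv q (j, n)).symm rfl
            change ((q : Equiv.Perm (J × ℤ))
              (j, (((q : Equiv.Perm (J × ℤ))⁻¹ : Equiv.Perm (J × ℤ)) (j, n)).2)).2 = n
            rw [e]
            exact congrArg Prod.snd ((q : Equiv.Perm (J × ℤ)).apply_symm_apply _) },
        q.2.2 j⟩
      map_one' := rfl
      map_mul' := fun f g => by
        funext j
        apply Subtype.ext
        ext n
        change ((f : Equiv.Perm (J × ℤ)) ((g : Equiv.Perm (J × ℤ)) (j, n))).2 =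
          ((f : Equiv.Perm (J × ℤ)) (j, ((g : Equiv.Perm (J × ℤ)) (j, n)).2)).2
        have e : (j, ((g : Equiv.Perm (J × ℤ)) (j, n)).2) = (g : Equiv.Perm (J × ℤ)) (j, n) :=
          Prod.ext (g.2.1 (j, n)).symm rfl
        rw [e] }
  refine hC.toClosedClass.inj φ ?_ (hC.toClosedClass.pi (mem_EP hC p))
  intro f g hfg
  apply Subtype.ext
  ext x
  · rw [f.2.1, g.2.1]
  · have h1 := congrArg (fun u : J → EP (p : ℤ) => (u x.1 : Equiv.Perm ℤ) x.2) hfg
    exact h1

end Pool.Agent.ZT
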