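import Pool.Agent.ZT.Coc

/-!
# Core extensions

`T` is a set with an action of `FreeGroup A`, `N` is a finite set (the core) and `nx s p` is the
point of `N` or `T` to which the letter `s` moves the point `p` of the core. The core extension
consists of the pairs `(p, l)`, where `l` is a reduced word whose first letter (the last one in the
list) leaves the core at `p`.
-/

set_option autoImplicit false

namespace Pool.Agent.ZT

open Pool.Agent.Helper29.BA Pool.Agent.Helper29.PA Pool.Agent.T59

variable {A N T : Type}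

/-- The inverse letter. -/
def bar (s : A × Bool) : A × Bool := (s.1, !s.2)

theorem bar_bar (s : A × Bool) : bar (bar s) = s := by
  obtain ⟨a, b⟩ := s
  change (a, !!b) = (a, b)
  rw [Bool.not_not]

theorem bar_eq_comm {s s' : A × Bool} : s = bar s' ↔ s' = bar s := by
  constructor
  · intro h
    rw [h, bar_bar]
  · intro h
    rw [h, bar_bar]

/-- The letter as an element of the free group. -/
def el (s : A × Bool) : FreeGroup A := if s.2 then FreeGroup.of s.1 else (FreeGroup.of s.1)⁻¹

theorem mk_cons' (s : A × Bool) (u : List (A × Bool)) :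
    FreeGroup.mk (s :: u) = el s * FreeGroup.mk u := mk_cons s u

theorem el_bar (s : A × Bool) : el (bar s) = (el s)⁻¹ := by
  obtain ⟨a, b⟩ := s
  cases b
  · exact (inv_inv _).symm
  · rfl

variable (nx : A × Bool → N → N ⊕ T)

/-- The admissible words. -/
def OkL (p : N) : List (A × Bool) → Prop
  | [] => True
  | [s] => ∃ t, nx s p = Sum.inr t
  | s :: s' :: l => s ≠ bar s' ∧ OkL p (s' :: l)

open Classical in
/-- The action of a letter. -/
noncomputable def stp (s : A × Bool) : N × List (A × Bool) → N × List (A × Bool)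
  | (p, []) => match nx s p with
    | Sum.inl p' => (p', [])
    | Sum.inr _ => (p, [s])
  | (p, s' :: l) => if s' = bar s then (p, l) else (p, s :: s' :: l)

variable {nx}

theorem OkL.tail {p : N} {s : A × Bool} {l : List (A × Bool)} (h : OkL nx p (s :: l)) :
    OkL nx p l := by
  cases l with
  | nil => trivial
  | cons s' l => exact h.2

theorem stp_nil_inl {s : A × Bool} {p p' : N} (h : nx s p = Sum.inl p') :
    stp nx s (p, []) = (p', []) := by
  simp [stp, h]

theorem stp_nil_inr {s : A × Bool} {p : N} {t : T} (h : nx s p = Sum.inr t) :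
    stp nx s (p, []) = (p, [s]) := by
  simp [stp, h]

theorem stp_cons_eq {s : A × Bool} {p : N} {l : List (A × Bool)} :
    stp nx s (p, bar s :: l) = (p, l) := by
  unfold stp
  exact if_pos rfl

theorem stp_cons_ne {s s' : A × Bool} {p : N} {l : List (A × Bool)} (h : s' ≠ bar s) :
    stp nx s (p, s' :: l) = (p, s :: s' :: l) := by
  unfold stp
  exact if_neg h

theorem stp_ok {s : A × Bool} {x : N × List (A × Bool)} (h : OkL nx x.1 x.2) :
    OkL nx (stp nx s x).1 (stp nx s x).2 := by
  obtain ⟨p, l⟩ := x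
  cases l with
  | nil =>
    cases h1 : nx s p with
    | inl p' =>
      rw [stp_nil_inl h1]
      trivial
    | inr t =>
      rw [stp_nil_inr h1]
      exact ⟨t, h1⟩
  | cons s' l =>
    by_cases h1 : s' = bar s
    · subst h1
      rw [stp_cons_eq]
      exact h.tail
    · rw [stp_cons_ne h1]
      exact ⟨fun h2 => h1 (bar_eq_comm.1 h2), h⟩

theorem stp_stp (hnx : ∀ s p p', nx s p = Sum.inl p' → nx (bar s) p' = Sum.inl p)
    {s : A × Bool} {x : N × List (A × Bool)} (h : OkL nx x.1 x.2) :
    stp nx (bar s) (stp nx s x) = x := by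
  obtain ⟨p, l⟩ := x
  cases l with
  | nil =>
    cases h1 : nx s p with
    | inl p' =>
      rw [stp_nil_inl h1, stp_nil_inl (hnx s p p' h1)]
    | inr t =>
      rw [stp_nil_inr h1]
      have h2 := stp_cons_eq (nx := nx) (s := bar s) (p := p) (l := [])
      rw [bar_bar] at h2
      exact h2
  | cons s' l =>
    by_cases h1 : s' = bar s
    · subst h1
      rw [stp_cons_eq]
      cases l with
      | nil =>
        obtain ⟨t, ht⟩ := h
        exact stp_nil_inr ht
      | cons s'' l =>
        have h2 : s'' ≠ bar (bar s) := fun h3 => h.1 (bar_eq_comm.1 h3)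
        exact stp_cons_ne h2
    · rw [stp_cons_ne h1]
      have h2 := stp_cons_eq (nx := nx) (s := bar s) (p := p) (l := s' :: l)
      rw [bar_bar] at h2
      exact h2

variable (nx) in
/-- The core extension. -/
abbrev Ex : Type := {x : N × List (A × Bool) // OkL nx x.1 x.2}

/-- The action of a letter on the core extension. -/
noncomputable def Ex.st (s : A × Bool) (x : Ex nx) : Ex nx := ⟨stp nx s x.1, stp_ok x.2⟩

theorem Ex.st_st (hnx : ∀ s p p', nx s p = Sum.inl p' → nx (bar s) p' = Sum.inl p)
    (s : A × Bool) (x : Ex nx) : Ex.st (bar s) (Ex.st s x) = x :=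
  Subtype.ext (stp_stp hnx x.2)

/-- The permutations of the core extension. -/
noncomputable def Ex.pr (hnx : ∀ s p p', nx s p = Sum.inl p' → nx (bar s) p' = Sum.inl p) (a : A) :
    Equiv.Perm (Ex nx) where
  toFun := Ex.st (a, true)
  invFun := Ex.st (a, false)
  left_inv := Ex.st_st hnx (a, true)
  right_inv := Ex.st_st hnx (a, false)

/-- The action on the core extension. -/
@[reducible] noncomputable def Ex.act
    (hnx : ∀ s p p', nx s p = Sum.inl p' → nx (bar s) p' = Sum.inl p) :
    MulAction (FreeGroup A) (Ex nx) :=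
  MulAction.compHom (Ex nx) (FreeGroup.lift (Ex.pr hnx))

theorem Ex.el_smul (hnx : ∀ s p p', nx s p = Sum.inl p' → nx (bar s) p' = Sum.inl p)
    (s : A × Bool) (x : Ex nx) : letI := Ex.act hnx; el s • x = Ex.st s x := by
  obtain ⟨a, b⟩ := s
  cases b
  · change (FreeGroup.lift (Ex.pr hnx) (FreeGroup.of a)⁻¹) x = Ex.st (a, false) x
    rw [map_inv, FreeGroup.lift_apply_of]
    rfl
  · change (FreeGroup.lift (Ex.pr hnx) (FreeGroup.of a)) x = Ex.st (a, true) x
    rw [FreeGroup.lift_apply_of]
    rfl

section proj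

variable [MulAction (FreeGroup A) T]

variable (nx) in
/-- The projection to `T` outside the core. -/
def pj (p : N) : List (A × Bool) → Option T
  | [] => none
  | [s] => match nx s p with
    | Sum.inl _ => none
    | Sum.inr t => some t
  | s :: s' :: l => (pj p (s' :: l)).map fun t => el s • t

theorem pj_single {s : A × Bool} {p : N} {t : T} (h : nx s p = Sum.inr t) :
    pj nx p [s] = some t := by
  unfold pj
  rw [h]

theorem pj_cons {s s' : A × Bool} {p : N} {l : List (A × Bool)} {t : T}
    (h : pj nx p (s' :: l) = some t) : pj nx p (s :: s' :: l) = some (el s • t) := by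
  unfold pj
  rw [h]
  rfl

theorem exists_pj {p : N} {l : List (A × Bool)} (hl : l ≠ []) (h : OkL nx p l) :
    ∃ t, pj nx p l = some t := by
  induction l with
  | nil => exact (hl rfl).elim
  | cons s l ih =>
    cases l with
    | nil =>
      obtain ⟨t, ht⟩ := h
      exact ⟨t, pj_single ht⟩
    | cons s' l =>
      obtain ⟨t, ht⟩ := ih (by simp) h.2
      exact ⟨_, pj_cons ht⟩

/-- The projection is equivariant outside the core. -/
theorem pj_stp {s : A × Bool} {p : N} {l : List (A × Bool)} (h : OkL nx p l) {t : T}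
    (ht : pj nx p l = some t) (hs : (stp nx s (p, l)).2 ≠ []) :
    (stp nx s (p, l)).1 = p ∧ pj nx p (stp nx s (p, l)).2 = some (el s • t) := by
  cases l with
  | nil => cases ht
  | cons s' l =>
    by_cases h1 : s' = bar s
    · subst h1
      rw [stp_cons_eq] at hs ⊢
      refine ⟨rfl, ?_⟩
      cases l with
      | nil => exact (hs rfl).elim
      | cons s'' l =>
        obtain ⟨t', ht'⟩ := exists_pj (by simp) h.2
        have h2 := pj_cons (s := bar s) ht'
        rw [ht] at h2
        have h3 : t = el (bar s) • t' := Option.some.inj h2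
        change pj nx p (s'' :: l) = _
        rw [ht', h3, el_bar, smul_inv_smul]
    · rw [stp_cons_ne h1]
      exact ⟨rfl, pj_cons ht⟩

omit [MulAction (FreeGroup A) T] in
theorem length_stp {s : A × Bool} {p : N} {l : List (A × Bool)} :
    l.length ≤ (stp nx s (p, l)).2.length + 1 := by
  cases l with
  | nil => exact Nat.zero_le _
  | cons s' l =>
    by_cases h1 : s' = bar s
    · subst h1
      rw [stp_cons_eq]
      exact le_rfl
    · rw [stp_cons_ne h1]
      simp only [List.length_cons]
      omega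

variable (nx) in
/-- The labels of the core extension. -/
def lbl (κ : T → ℕ) (ν : N → ℕ) : T ⊕ Ex nx → ℕ
  | Sum.inl t => κ t
  | Sum.inr x => match pj nx x.1.1 x.1.2 with
    | some t => κ t
    | none => ν x.1.1

theorem lbl_inr_some {κ : T → ℕ} {ν : N → ℕ} {x : Ex nx} {t : T}
    (h : pj nx x.1.1 x.1.2 = some t) : lbl nx κ ν (Sum.inr x) = κ t := by
  simp [lbl, h]

theorem lbl_inr_nil {κ : T → ℕ} {ν : N → ℕ} {p : N} (h : OkL nx p []) :
    lbl nx κ ν (Sum.inr ⟨(p, []), h⟩) = ν p := rfl

/-- Far from the core the labels are the labels of the projection. -/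
theorem wd_pj (hnx : ∀ s p p', nx s p = Sum.inl p' → nx (bar s) p' = Sum.inl p) (κ : T → ℕ)
    (ν : N → ℕ) (n : ℕ) (x : Ex nx) (hx : n < x.1.2.length) :
    letI := Ex.act hnx
    ∃ t, ∀ w : List (A × Bool), w.length ≤ n →
      lbl nx κ ν (FreeGroup.mk w • (Sum.inr x : T ⊕ Ex nx)) =
        lbl nx κ ν (FreeGroup.mk w • (Sum.inl t : T ⊕ Ex nx)) := by
  let _ := Ex.act hnx
  have hne : x.1.2 ≠ [] := by
    intro h
    rw [h] at hx
    simp at hx
  obtain ⟨t, ht⟩ := exists_pj hne x.2
  refine ⟨t, ?_⟩
  have key : ∀ w : List (A × Bool), w.length ≤ n →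
      x.1.2.length ≤ (FreeGroup.mk w • x : Ex nx).1.2.length + w.length ∧
      pj nx (FreeGroup.mk w • x : Ex nx).1.1 (FreeGroup.mk w • x : Ex nx).1.2 =
        some (FreeGroup.mk w • t) := by
    intro w
    induction w with
    | nil =>
      intro _
      change x.1.2.length ≤ ((1 : FreeGroup A) • x : Ex nx).1.2.length + 0 ∧
        pj nx ((1 : FreeGroup A) • x : Ex nx).1.1 ((1 : FreeGroup A) • x : Ex nx).1.2 =
          some ((1 : FreeGroup A) • t)
      rw [one_smul, one_smul]
      exact ⟨le_rfl, ht⟩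
    | cons s w ih =>
      intro hw
      rw [List.length_cons] at hw
      obtain ⟨h1, h2⟩ := ih (by omega)
      rw [mk_cons', mul_smul, mul_smul, Ex.el_smul hnx, List.length_cons]
      generalize (FreeGroup.mk w • x : Ex nx) = y at h1 h2 ⊢
      obtain ⟨⟨p, l⟩, hy⟩ := y
      change x.1.2.length ≤ l.length + w.length at h1
      change pj nx p l = some (FreeGroup.mk w • t) at h2
      change x.1.2.length ≤ (stp nx s (p, l)).2.length + (w.length + 1) ∧
        pj nx (stp nx s (p, l)).1 (stp nx s (p, l)).2 = some (el s • FreeGroup.mk w • t)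
      have h3 : l.length ≤ (stp nx s (p, l)).2.length + 1 := length_stp
      have h4 : (stp nx s (p, l)).2 ≠ [] := by
        intro h5
        rw [h5, List.length_nil] at h3
        omega
      obtain ⟨h5, h6⟩ := pj_stp hy h2 h4
      rw [h5]
      exact ⟨by omega, h6⟩
  intro w hw
  have h1 := (key w hw).2
  change lbl nx κ ν (Sum.inr (FreeGroup.mk w • x : Ex nx)) = κ (FreeGroup.mk w • t)
  rw [lbl_inr_some h1]

omit [MulAction (FreeGroup A) T] in
/-- The points near the core. -/
theorem finite_near [Finite A] [Finite N] (n : ℕ) : {x : Ex nx | x.1.2.length ≤ n}.Finite := by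
  have h1 : {l : List (A × Bool) | l.length ≤ n}.Finite := by
    have h2 : {l : List (A × Bool) | l.length ≤ n} ⊆
        ⋃ k ∈ Finset.range (n + 1), {l : List (A × Bool) | l.length = k} := by
      intro l hl
      refine Set.mem_iUnion₂.2 ⟨l.length, ?_, rfl⟩
      rw [Finset.mem_range]
      exact Nat.lt_succ_of_le hl
    exact (Set.Finite.biUnion (Finset.finite_toSet _) fun k _ =>
      List.finite_length_eq (A × Bool) k).subset h2
  have h2 : ((Set.univ : Set N) ×ˢ {l : List (A × Bool) | l.length ≤ n}).Finite :=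
    Set.finite_univ.prod h1
  have h3 : {x : N × List (A × Bool) | x.2.length ≤ n}.Finite :=
    h2.subset fun x hx => ⟨trivial, hx⟩
  exact Set.Finite.preimage (f := fun x : Ex nx => x.1) (fun x _ y _ h => Subtype.ext h) h3

variable {C : ∀ (G : Type) [Group G], Prop}

/-- **The local cocycle group of a core extension.** -/
theorem LQ_mem_ext [Finite A] [Finite N] (hC : ExtClass C) (hF : C (FreeGroup A))
    (hnx : ∀ s p p', nx s p = Sum.inl p' → nx (bar s) p' = Sum.inl p) (κ : T → ℕ) (ν : N → ℕ)
    (h : C (LQ (A := A) κ)) : letI := Ex.act hnx; C (LQ (A := A) (lbl nx κ ν)) := by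
  let _ := Ex.act hnx
  refine LQ_mem_step hC hF (lbl nx κ ν) (Sum.inl : T → T ⊕ Ex nx) (fun _ _ => rfl) (fun n => ?_) h
  refine ((finite_near (nx := nx) n).image Sum.inr).subset ?_
  rintro (t | x) hz
  · exact (hz ⟨t, fun _ _ => rfl⟩).elim
  · refine ⟨x, ?_, rfl⟩
    change x.1.2.length ≤ n
    by_contra h1
    exact hz (wd_pj hnx κ ν n x (by omega))

/-- The type of a point. -/
def tp {Z : Type} [MulAction (FreeGroup A) Z] (κ : Z → ℕ) (z : Z) : ℕ × (A → ℕ) :=
  (κ z, fun a => κ (FreeGroup.of a • z))

/-- The types of the points of the core. -/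
theorem tp_core (hnx : ∀ s p p', nx s p = Sum.inl p' → nx (bar s) p' = Sum.inl p) (κ : T → ℕ)
    (e : N → ℕ × (A → ℕ)) (h1 : ∀ a p p', nx (a, true) p = Sum.inl p' → (e p').1 = (e p).2 a)
    (h2 : ∀ a p t, nx (a, true) p = Sum.inr t → κ t = (e p).2 a) (p : N) (hp : OkL nx p []) :
    letI := Ex.act hnx
    tp (A := A) (lbl nx κ fun p => (e p).1) (Sum.inr ⟨(p, []), hp⟩) = e p := by
  let _ := Ex.act hnx
  refine Prod.ext rfl (funext fun a => ?_)
  change lbl nx κ (fun p => (e p).1) (Sum.inr (el (a, true) • (⟨(p, []), hp⟩ : Ex nx))) = _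
  rw [Ex.el_smul hnx]
  cases h3 : nx (a, true) p with
  | inl p' =>
    have h4 : Ex.st (a, true) (⟨(p, []), hp⟩ : Ex nx) = ⟨(p', []), trivial⟩ :=
      Subtype.ext (stp_nil_inl h3)
    rw [h4]
    exact h1 a p p' h3
  | inr t =>
    have h4 : Ex.st (a, true) (⟨(p, []), hp⟩ : Ex nx) = ⟨(p, [(a, true)]), ⟨t, h3⟩⟩ :=
      Subtype.ext (stp_nil_inr h3)
    rw [h4, lbl_inr_some (pj_single h3)]
    exact h2 a p t h3

/-- The types of the other points. -/
theorem tp_branch (hnx : ∀ s p p', nx s p = Sum.inl p' → nx (bar s) p' = Sum.inl p) (κ : T → ℕ)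
    (e : N → ℕ × (A → ℕ))
    (h3 : ∀ a p t, nx (a, false) p = Sum.inr t → κ (FreeGroup.of a • t) = (e p).1)
    (x : Ex nx) (hx : x.1.2 ≠ []) :
    letI := Ex.act hnx
    ∃ t, tp (A := A) (lbl nx κ fun p => (e p).1) (Sum.inr x) = tp κ t := by
  let _ := Ex.act hnx
  obtain ⟨t, ht⟩ := exists_pj hx x.2
  have h0 : lbl nx κ (fun p => (e p).1) (Sum.inr x) = κ t := lbl_inr_some ht
  refine ⟨t, Prod.ext h0 (funext fun a => ?_)⟩
  change lbl nx κ (fun p => (e p).1) (Sum.inr (el (a, true) • x)) = κ (FreeGroup.of a • t)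
  rw [Ex.el_smul hnx]
  by_cases h4 : (stp nx (a, true) x.1).2 = []
  · obtain ⟨⟨p, l⟩, hl⟩ := x
    cases l with
    | nil => exact (hx rfl).elim
    | cons s' l =>
      by_cases h5 : s' = bar (a, true)
      · subst h5
        have h6 : stp nx (a, true) (p, bar (a, true) :: l) = (p, l) := stp_cons_eq
        change (stp nx (a, true) (p, bar (a, true) :: l)).2 = [] at h4
        rw [h6] at h4
        change l = [] at h4
        subst h4
        obtain ⟨t', ht'⟩ := hl
        change nx (a, false) p = Sum.inr t' at ht'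
        have h7 : t = t' := Option.some.inj (ht.symm.trans (pj_single ht'))
        have h8 : Ex.st (a, true) (⟨(p, [bar (a, true)]), ⟨t', ht'⟩⟩ : Ex nx) =
            ⟨(p, []), trivial⟩ := Subtype.ext h6
        rw [h8, h7, h3 a p t' ht']
        rfl
      · exfalso
        change (stp nx (a, true) (p, s' :: l)).2 = [] at h4
        rw [stp_cons_ne h5] at h4
        cases h4
  · obtain ⟨h5, h6⟩ := pj_stp (s := (a, true)) x.2 ht h4
    refine lbl_inr_some (t := FreeGroup.of a • t) ?_
    change pj nx (stp nx (a, true) x.1).1 (stp nx (a, true) x.1).2 = _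
    have h7 : (stp nx (a, true) x.1).1 = x.1.1 := h5
    rw [h7]
    exact h6

end proj

end Pool.Agent.ZT
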