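import Pool.Agent.ZT.Flow

/-!
# Finite models of the patterns of positive measure
-/

set_option autoImplicit false

namespace Pool.Agent.ZT

section

variable {X : Type} [TopologicalSpace X]

/-- Finitely additive nonnegative functions on the clopen sets. -/
structure Cont (m : Set X → ℝ) : Prop where
  nonneg : ∀ U, IsClopen U → 0 ≤ m U
  add : ∀ U V, IsClopen U → IsClopen V → Disjoint U V → m (U ∪ V) = m U + m V

theorem Cont.empty {m : Set X → ℝ} (h : Cont m) : m ∅ = 0 := by
  have h1 := h.add ∅ ∅ isClopen_empty isClopen_empty disjoint_bot_left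
  rw [Set.union_self] at h1
  linarith

theorem Cont.sum {m : Set X → ℝ} (h : Cont m) {E : Type} (s : Finset E) (U : E → Set X)
    (hU : ∀ e, IsClopen (U e)) (hd : ∀ e f, e ≠ f → Disjoint (U e) (U f)) :
    m (⋃ e ∈ s, U e) = ∑ e ∈ s, m (U e) := by
  classical
  induction s using Finset.induction_on with
  | empty => simp [h.empty]
  | insert a s ha ih =>
    rw [Finset.set_biUnion_insert, Finset.sum_insert ha, ← ih]
    refine h.add _ _ (hU a) (isClopen_biUnion_finset fun e _ => hU e) ?_
    rw [Set.disjoint_iUnion₂_right]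
    intro e he
    exact hd a e fun hae => ha (hae ▸ he)

/-- **Finite coloured models, patterns of positive measure.** -/
theorem exists_finite_coloured_model_pos {I K : Type} [Finite I] [CompactSpace X] {m : Set X → ℝ}
    (hm : Cont m) (φ : I → X ≃ₜ X) (hφ : ∀ i U, IsClopen U → m (φ i ⁻¹' U) = m U)
    (κ : X → K) (hκ : IsLocallyConstant κ) :
    ∃ (T : Type) (_ : Finite T) (κT : T → K) (p : I → Equiv.Perm T),
      (∀ t, ∃ x, (κ x = κT t ∧ ∀ i, κ (φ i x) = κT (p i t)) ∧
        0 < m {y | κ y = κ x ∧ ∀ i, κ (φ i y) = κ (φ i x)}) ∧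
      (∀ x, 0 < m {y | κ y = κ x ∧ ∀ i, κ (φ i y) = κ (φ i x)} →
        ∃ t, κ x = κT t ∧ ∀ i, κ (φ i x) = κT (p i t)) := by
  classical
  -- the pattern of a point
  let pat : X → K × (I → K) := fun x => (κ x, fun i => κ (φ i x))
  have hpat : IsLocallyConstant pat := by
    let _ : TopologicalSpace K := ⊥
    have : DiscreteTopology K := ⟨rfl⟩
    have h1 : Continuous κ := hκ.continuous
    have h2 : Continuous pat := by
      refine h1.prodMk (continuous_pi fun i => h1.comp (φ i).continuous)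
    exact (IsLocallyConstant.iff_continuous pat).2 h2
  have hset : ∀ x, {y | κ y = κ x ∧ ∀ i, κ (φ i y) = κ (φ i x)} = pat ⁻¹' {pat x} := by
    intro x
    ext y
    simp only [Set.mem_ofPred_eq, Set.mem_preimage, Set.mem_singleton_iff]
    constructor
    · rintro ⟨h1, h2⟩
      exact Prod.ext h1 (funext h2)
    · intro h1
      exact ⟨congrArg Prod.fst h1, fun i => congrFun (congrArg Prod.snd h1) i⟩
  have hclopen : ∀ s : Set (K × (I → K)), IsClopen (pat ⁻¹' s) := fun s =>
    ⟨⟨by rw [← Set.preimage_compl]; exact hpat _⟩, hpat s⟩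
  let P : Type := Set.range pat
  have hP : Finite P := hpat.range_finite.to_subtype
  have : Fintype P := Fintype.ofFinite P
  let E : Type := {e : P // 0 < m (pat ⁻¹' {e.1})}
  let μ : E → ℝ := fun e => m (pat ⁻¹' {e.1.1})
  -- the sum over the patterns of positive measure
  have hsum : ∀ F : K × (I → K) → Prop,
      ∑ᶠ (e : E) (_ : F e.1.1), μ e = m (pat ⁻¹' {e | F e}) := by
    intro F
    have h1 : pat ⁻¹' {e | F e} =
        ⋃ e ∈ (Finset.univ.filter fun e : P => F e.1), pat ⁻¹' {e.1} := by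
      ext x
      simp only [Set.mem_preimage, Set.mem_ofPred_eq, Finset.mem_filter, Finset.mem_univ, true_and,
        Set.mem_iUnion, Set.mem_singleton_iff, exists_prop]
      constructor
      · intro hx
        exact ⟨⟨pat x, x, rfl⟩, hx, rfl⟩
      · rintro ⟨e, he, hx⟩
        rw [hx]
        exact he
    rw [h1, hm.sum _ _ (fun e => hclopen _) fun e f hef => by
      refine Disjoint.preimage _ ?_
      rw [Set.disjoint_singleton]
      exact fun h => hef (Subtype.ext h)]
    rw [finsum_eq_sum_of_fintype]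
    have h2 : ∀ e : E, ∑ᶠ (_ : F e.1.1), μ e = if F e.1.1 then m (pat ⁻¹' {e.1.1}) else 0 :=
      fun e => finsum_eq_if
    rw [Finset.sum_congr rfl fun e _ => h2 e, Finset.sum_filter]
    have h3 : ∑ e : E, (if F e.1.1 then m (pat ⁻¹' {e.1.1}) else 0) =
        ∑ a ∈ Finset.univ.filter (fun a : P => 0 < m (pat ⁻¹' {a.1})),
          (if F a.1 then m (pat ⁻¹' {a.1}) else 0) :=
      (Finset.sum_subtype _ (by simp)
        (fun a : P => if F a.1 then m (pat ⁻¹' {a.1}) else 0)).symm
    rw [h3]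
    refine Finset.sum_filter_of_ne fun a _ hne => ?_
    have h5 : m (pat ⁻¹' {a.1}) ≠ 0 := by
      intro h0
      rw [h0] at hne
      simp at hne
    exact lt_of_le_of_ne (hm.nonneg _ (hclopen _)) h5.symm
  obtain ⟨T, hT, y, p, hy, hyp⟩ := exists_finite_model (V := fun _ : I => K)
    (fun i (e : E) => e.1.1.2 i) (fun _ (e : E) => e.1.1.1) μ (fun e => e.2) (fun i v => by
      rw [hsum (fun e => e.2 i = v), hsum (fun e => e.1 = v)]
      have h1 := hφ i (κ ⁻¹' {v}) ⟨⟨by rw [← Set.preimage_compl]; exact hκ _⟩, hκ _⟩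
      exact h1)
  refine ⟨T, hT, fun t => (y t).1.1.1, p, fun t => ?_, fun x hx => ?_⟩
  · obtain ⟨x, hx⟩ := (y t).1.2
    refine ⟨x, ⟨congrArg Prod.fst hx, fun i => ?_⟩, ?_⟩
    · show κ (φ i x) = (y (p i t)).1.1.1
      rw [hyp i t]
      exact congrFun (congrArg Prod.snd hx) i
    · rw [hset, hx]
      exact (y t).2
  · rw [hset] at hx
    obtain ⟨t, ht⟩ := hy ⟨⟨pat x, x, rfl⟩, hx⟩
    refine ⟨t, ?_, fun i => ?_⟩
    · show κ x = (y t).1.1.1
      rw [ht]
    · show κ (φ i x) = (y (p i t)).1.1.1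
      rw [hyp i t, ht]

end

end Pool.Agent.ZT
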