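import Pool.Agent.ZT.Flow

/-!
# The core of a model

A finitely additive function on the clopen sets, with values in `[0, ∞]` and invariant under the
homeomorphisms `φ a`, gives a finite set with partial bijections which has the local rules of the
patterns of finite positive measure.
-/

set_option autoImplicit false

namespace Pool.Agent.ZT

open scoped ENNReal

/-! ### Finite sets with partial bijections -/

/-- Two maps from a finite type with good fibres of the same size. -/
theorem exists_equiv_of_card {T V : Type*} [Finite T] (good : V → Prop) (f g : T → V)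
    (h : ∀ v, good v → Nat.card {t // f t = v} = Nat.card {t // g t = v}) :
    ∃ p : {t // good (f t)} ≃ {t // good (g t)}, ∀ t, g (p t).1 = f t.1 := by
  have h2 : ∀ (k : T → V) (v : {v // good v}),
      Nonempty ({t : {t // good (k t)} // (⟨k t.1, t.2⟩ : {v // good v}) = v} ≃
        {t // k t = v.1}) := by
    intro k v
    exact ⟨{
      toFun := fun t => ⟨t.1.1, congrArg Subtype.val t.2⟩
      invFun := fun t => ⟨⟨t.1, by rw [t.2]; exact v.2⟩, Subtype.ext t.2⟩
      left_inv := fun t => rfl
      right_inv := fun t => rfl }⟩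
  have h1 : ∀ v : {v // good v},
      Nonempty ({t : {t // good (f t)} // (⟨f t.1, t.2⟩ : {v // good v}) = v} ≃
        {t : {t // good (g t)} // (⟨g t.1, t.2⟩ : {v // good v}) = v}) := by
    intro v
    obtain ⟨e1⟩ := h2 f v
    obtain ⟨e2⟩ := h2 g v
    exact ⟨e1.trans (((Finite.equivFin _).trans ((finCongr (h v.1 v.2)).trans
      (Finite.equivFin _).symm)).trans e2.symm)⟩
  refine ⟨Equiv.ofFiberEquiv fun v => (h1 v).some, fun t => ?_⟩
  exact congrArg Subtype.val (Equiv.ofFiberEquiv_map (fun v => (h1 v).some) t)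

/-- **Finite sets with partial bijections.** -/
theorem exists_partial_model {A E V : Type} [Finite E] (s : A → E → V) (r : E → V)
    (good : V → Prop) (μ : E → ℝ) (hμ : ∀ e, 0 < μ e)
    (hflow : ∀ a v, good v → ∑ᶠ (e : E) (_ : s a e = v), μ e = ∑ᶠ (e : E) (_ : r e = v), μ e) :
    ∃ (T : Type) (_ : Finite T) (y : T → E) (nx : A × Bool → T → Option T),
      Function.Surjective y ∧
      (∀ b p q, nx b p = some q → nx (b.1, !b.2) q = some p) ∧
      (∀ a p q, nx (a, true) p = some q → r (y q) = s a (y p)) ∧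
      (∀ a p, nx (a, true) p = none → ¬ good (s a (y p))) ∧
      (∀ a p, nx (a, false) p = none → ¬ good (r (y p))) := by
  classical
  have : Fintype E := Fintype.ofFinite E
  obtain ⟨n, hn0, hn⟩ := exists_nat_solution μ hμ
  let T : Type := Σ e, Fin (n e)
  have hsum : ∀ (f : E → Prop) , ∑ᶠ (e : E) (_ : f e), μ e = ∑ e, if f e then μ e else 0 := by
    intro f
    rw [finsum_eq_sum_of_fintype]
    refine Finset.sum_congr rfl fun e _ => ?_
    exact finsum_eq_if
  have hcard : ∀ f : E → Prop, Nat.card {t : T // f t.1} = ∑ e, if f e then n e else 0 := by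
    intro f
    rw [Nat.card_eq_fintype_card, Fintype.card_subtype, Finset.card_filter, Fintype.sum_sigma]
    refine Finset.sum_congr rfl fun e _ => ?_
    show (∑ _y : Fin (n e), if f e then 1 else 0) = _
    rw [Finset.sum_const, Finset.card_univ, Fintype.card_fin]
    split_ifs <;> simp
  have hnat : ∀ a v, good v → (∑ e, if s a e = v then n e else 0) = ∑ e, if r e = v then n e else 0 := by
    intro a v hv
    have h1 := hflow a v hv
    rw [hsum, hsum] at h1
    have h2 := hn (fun e => (if s a e = v then 1 else 0) - (if r e = v then 1 else 0)) (by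
      have h3 : ∀ e, (((if s a e = v then 1 else 0) - (if r e = v then 1 else 0) : ℤ) : ℝ) * μ e =
          (if s a e = v then μ e else 0) - (if r e = v then μ e else 0) := by
        intro e
        split_ifs <;> simp
      rw [Finset.sum_congr rfl fun e _ => h3 e, Finset.sum_sub_distrib, h1, sub_self])
    have h4 : ∀ e, ((if s a e = v then 1 else 0) - (if r e = v then 1 else 0) : ℤ) * (n e : ℤ) =
        ((if s a e = v then n e else 0 : ℕ) : ℤ) - ((if r e = v then n e else 0 : ℕ) : ℤ) := by
      intro e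
      split_ifs <;> simp
    rw [Finset.sum_congr rfl fun e _ => h4 e, Finset.sum_sub_distrib, sub_eq_zero] at h2
    exact_mod_cast h2
  have hp : ∀ a, ∃ p : {t : T // good (s a t.1)} ≃ {t : T // good (r t.1)},
      ∀ t, r (p t).1.1 = s a t.1.1 := fun a =>
    exists_equiv_of_card good (fun t : T => s a t.1) (fun t : T => r t.1) fun v hv => by
      rw [hcard fun e => s a e = v, hcard fun e => r e = v, hnat a v hv]
  choose p hp using hp
  let nx : A × Bool → T → Option T := fun b t =>
    match b with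
    | (a, true) => if h : good (s a t.1) then some (p a ⟨t, h⟩).1 else none
    | (a, false) => if h : good (r t.1) then some ((p a).symm ⟨t, h⟩).1 else none
  refine ⟨T, inferInstance, fun t => t.1, nx, fun e => ⟨⟨e, ⟨0, hn0 e⟩⟩, rfl⟩, ?_, ?_, ?_, ?_⟩
  · rintro ⟨a, b⟩ t u h
    cases b with
    | true =>
      change (if h : good (s a t.1) then some (p a ⟨t, h⟩).1 else none) = some u at h
      change (if h : good (r u.1) then some ((p a).symm ⟨u, h⟩).1 else none) = some t
      by_cases hg : good (s a t.1)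
      · rw [dif_pos hg, Option.some.injEq] at h
        subst h
        rw [dif_pos (p a ⟨t, hg⟩).2]
        simp
      · rw [dif_neg hg] at h
        exact absurd h (by simp)
    | false =>
      change (if h : good (r t.1) then some ((p a).symm ⟨t, h⟩).1 else none) = some u at h
      change (if h : good (s a u.1) then some (p a ⟨u, h⟩).1 else none) = some t
      by_cases hg : good (r t.1)
      · rw [dif_pos hg, Option.some.injEq] at h
        subst h
        rw [dif_pos ((p a).symm ⟨t, hg⟩).2]
        simp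
      · rw [dif_neg hg] at h
        exact absurd h (by simp)
  · intro a t u h
    change (if h : good (s a t.1) then some (p a ⟨t, h⟩).1 else none) = some u at h
    by_cases hg : good (s a t.1)
    · rw [dif_pos hg, Option.some.injEq] at h
      subst h
      exact hp a ⟨t, hg⟩
    · rw [dif_neg hg] at h
      exact absurd h (by simp)
  · intro a t h hg
    change (if h : good (s a t.1) then some (p a ⟨t, h⟩).1 else none) = none at h
    rw [dif_pos hg] at h
    exact absurd h (by simp)
  · intro a t h hg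
    change (if h : good (r t.1) then some ((p a).symm ⟨t, h⟩).1 else none) = none at h
    rw [dif_pos hg] at h
    exact absurd h (by simp)

/-! ### Contents with values in `[0, ∞]` -/

section content

variable {X : Type} [TopologicalSpace X]

/-- Finitely additive functions on the clopen sets with values in `[0, ∞]`. -/
structure ECont (m : Set X → ℝ≥0∞) : Prop where
  empty : m ∅ = 0
  add : ∀ U V, IsClopen U → IsClopen V → Disjoint U V → m (U ∪ V) = m U + m V

theorem ECont.sum {m : Set X → ℝ≥0∞} (h : ECont m) {E : Type} (s : Finset E) (U : E → Set X)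
    (hU : ∀ e, IsClopen (U e)) (hd : ∀ e f, e ≠ f → Disjoint (U e) (U f)) :
    m (⋃ e ∈ s, U e) = ∑ e ∈ s, m (U e) := by
  classical
  induction s using Finset.induction_on with
  | empty => simp [h.empty]
  | insert a s ha ih =>
    rw [Finset.set_biUnion_insert, Finset.sum_insert ha, ← ih]
    refine h.add _ _ (hU a) (isClopen_biUnion_finset fun e _ => hU e) ?_
    rw [Set.disjoint_iUnion₂_right]
    intro e he
    exact hd a e fun hae => ha (hae ▸ he)

theorem ECont.mono {m : Set X → ℝ≥0∞} (h : ECont m) {U V : Set X} (hU : IsClopen U)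
    (hV : IsClopen V) (hUV : U ⊆ V) : m U ≤ m V := by
  have h1 := h.add U (V \ U) hU (hV.diff hU) Set.disjoint_sdiff_right
  rw [Set.union_sdiff_cancel hUV] at h1
  rw [h1]
  exact le_self_add

/-- **The core.** -/
theorem exists_core {A : Type} [Finite A] [CompactSpace X] (φ : A → X ≃ₜ X) {m : Set X → ℝ≥0∞}
    (hm : ECont m) (hinv : ∀ a U, IsClopen U → m (φ a ⁻¹' U) = m U) (κ : X → ℕ)
    (hκ : IsLocallyConstant κ) {T : Type} [MulAction (FreeGroup A) T] (κT : T → ℕ)
    (hT : ∀ x, m {y | κ y = κ x ∧ ∀ a, κ (φ a y) = κ (φ a x)} = ∞ →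
      ∃ t, κT t = κ x ∧ ∀ a, κT (FreeGroup.of a • t) = κ (φ a x)) :
    ∃ (N : Type) (_ : Finite N) (e : N → X) (nx : A × Bool → N → Option N),
      (∀ b p q, nx b p = some q → nx (b.1, !b.2) q = some p) ∧
      (∀ a p q, nx (a, true) p = some q → κ (φ a (e p)) = κ (e q)) ∧
      (∀ a p, nx (a, true) p = none → ∃ t, κT t = κ (φ a (e p))) ∧
      (∀ a p, nx (a, false) p = none → ∃ t, κT (FreeGroup.of a • t) = κ (e p)) ∧
      (∀ x, 0 < m {y | κ y = κ x ∧ ∀ a, κ (φ a y) = κ (φ a x)} →
        m {y | κ y = κ x ∧ ∀ a, κ (φ a y) = κ (φ a x)} ≠ ∞ →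
        ∃ p, κ (e p) = κ x ∧ ∀ a, κ (φ a (e p)) = κ (φ a x)) := by
  classical
  -- the patterns
  let pat : X → ℕ × (A → ℕ) := fun x => (κ x, fun a => κ (φ a x))
  have hpat : IsLocallyConstant pat := by
    have h1 : Continuous κ := hκ.continuous
    have h2 : Continuous pat := by
      refine h1.prodMk (continuous_pi fun i => h1.comp (φ i).continuous)
    exact (IsLocallyConstant.iff_continuous pat).2 h2
  have hset : ∀ x, {y | κ y = κ x ∧ ∀ a, κ (φ a y) = κ (φ a x)} = pat ⁻¹' {pat x} := by
    intro x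
    ext y
    simp only [pat, Set.mem_ofPred_eq, Set.mem_preimage, Set.mem_singleton_iff,
      Prod.mk.injEq, funext_iff]
  have hfin : (Set.range pat).Finite := hpat.range_finite
  have hclo : ∀ f : ℕ × (A → ℕ) → Prop, IsClopen {x | f (pat x)} := by
    intro f
    refine ⟨⟨?_⟩, hpat {e | f e}⟩
    exact hpat {e | ¬ f e}
  -- the measure of a union of classes
  have hsum : ∀ f : ℕ × (A → ℕ) → Prop,
      m {x | f (pat x)} = ∑ e ∈ hfin.toFinset.filter f, m (pat ⁻¹' {e}) := by
    intro f
    rw [← hm.sum _ (fun e => pat ⁻¹' {e}) (fun e => hpat.isClopen_fiber e)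
      fun e e' hee => Disjoint.preimage _ (Set.disjoint_singleton.2 hee)]
    congr 1
    ext x
    simp only [Set.mem_ofPred_eq, Set.mem_iUnion, Finset.mem_filter, Set.Finite.mem_toFinset,
      Set.mem_preimage, Set.mem_singleton_iff, exists_prop]
    constructor
    · intro h
      exact ⟨pat x, ⟨⟨x, rfl⟩, h⟩, rfl⟩
    · rintro ⟨e, ⟨-, h⟩, rfl⟩
      exact h
  -- the classes of finite positive measure
  let Pp : Finset (ℕ × (A → ℕ)) :=
    hfin.toFinset.filter fun e => 0 < m (pat ⁻¹' {e}) ∧ m (pat ⁻¹' {e}) ≠ ∞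
  let E : Type := {e // e ∈ Pp}
  let μ : E → ℝ := fun e => (m (pat ⁻¹' {e.1})).toReal
  have hμ : ∀ e, 0 < μ e := fun e =>
    ENNReal.toReal_pos (Finset.mem_filter.1 e.2).2.1.ne' (Finset.mem_filter.1 e.2).2.2
  have hreal : ∀ f : ℕ × (A → ℕ) → Prop, m {x | f (pat x)} ≠ ∞ →
      ∑ᶠ (e : E) (_ : f e.1), μ e = (m {x | f (pat x)}).toReal := by
    intro f hf
    rw [hsum f] at hf ⊢
    have h1 : ∀ e ∈ hfin.toFinset.filter f, m (pat ⁻¹' {e}) ≠ ∞ := fun e he =>
      ENNReal.sum_ne_top.1 hf e he
    rw [ENNReal.toReal_sum h1, finsum_eq_sum_of_fintype]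
    have h2 : ∀ e : E, (∑ᶠ (_ : f e.1), μ e) = if f e.1 then (m (pat ⁻¹' {e.1})).toReal else 0 :=
      fun e => finsum_eq_if
    rw [Finset.sum_congr rfl fun e _ => h2 e]
    have h3 : (∑ e : E, if f e.1 then (m (pat ⁻¹' {e.1})).toReal else 0) =
        ∑ e ∈ Pp, if f e then (m (pat ⁻¹' {e})).toReal else 0 :=
      Finset.sum_coe_sort Pp fun e => if f e then (m (pat ⁻¹' {e})).toReal else 0
    rw [h3, ← Finset.sum_filter]
    refine Finset.sum_subset (fun e he => ?_) fun e he he' => ?_
    · rw [Finset.mem_filter] at he ⊢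
      exact ⟨(Finset.mem_filter.1 he.1).1, he.2⟩
    · by_contra hne
      apply he'
      rw [Finset.mem_filter] at he ⊢
      refine ⟨Finset.mem_filter.2 ⟨he.1, ?_, h1 e (Finset.mem_filter.2 he)⟩, he.2⟩
      rw [pos_iff_ne_zero]
      intro h0
      exact hne (by rw [h0, ENNReal.toReal_zero])
  let good : ℕ → Prop := fun v => m {x | (pat x).1 = v} ≠ ∞
  obtain ⟨N, hN, y, nx, hy, h1, h2, h3, h4⟩ := exists_partial_model
    (fun a (e : E) => e.1.2 a) (fun e : E => e.1.1) good μ hμ (by
      intro a v hv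
      have h5 : m {x | (pat x).2 a = v} = m {x | (pat x).1 = v} :=
        hinv a {x | (pat x).1 = v} (hclo fun e => e.1 = v)
      rw [hreal (fun e => e.2 a = v) (by rw [h5]; exact hv), hreal (fun e => e.1 = v) hv, h5])
  have hrep : ∀ p : N, ∃ x, pat x = (y p).1 := fun p => by
    obtain ⟨x, hx⟩ := hfin.mem_toFinset.1 (Finset.mem_filter.1 (y p).2).1
    exact ⟨x, hx⟩
  choose e he using hrep
  have he1 : ∀ p, κ (e p) = (y p).1.1 := fun p => congrArg Prod.fst (he p)
  have he2 : ∀ p a, κ (φ a (e p)) = (y p).1.2 a := fun p a => congrFun (congrArg Prod.snd (he p)) a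
  -- a set of infinite measure contains a class of infinite measure
  have hinf : ∀ f : ℕ × (A → ℕ) → Prop, m {x | f (pat x)} = ∞ →
      ∃ x, f (pat x) ∧ m (pat ⁻¹' {pat x}) = ∞ := by
    intro f hf
    rw [hsum f, ENNReal.sum_eq_top] at hf
    obtain ⟨e, he, he'⟩ := hf
    obtain ⟨h5, h6⟩ := Finset.mem_filter.1 he
    obtain ⟨x, rfl⟩ := hfin.mem_toFinset.1 h5
    exact ⟨x, h6, he'⟩
  refine ⟨N, hN, e, nx, h1, ?_, ?_, ?_, ?_⟩
  · intro a p q h
    rw [he1, he2]
    exact (h2 a p q h).symm
  · intro a p h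
    obtain ⟨x, hx, hx'⟩ := hinf (fun c => c.1 = (y p).1.2 a) (not_not.1 (h3 a p h))
    rw [← hset] at hx'
    obtain ⟨t, ht, -⟩ := hT x hx'
    refine ⟨t, ?_⟩
    rw [ht, he2]
    exact hx
  · intro a p h
    have h5 : m {x | (pat x).2 a = (y p).1.1} = m {x | (pat x).1 = (y p).1.1} :=
      hinv a {x | (pat x).1 = (y p).1.1} (hclo fun e => e.1 = (y p).1.1)
    obtain ⟨x, hx, hx'⟩ := hinf (fun c => c.2 a = (y p).1.1) (by
      rw [h5]
      exact not_not.1 (h4 a p h))
    rw [← hset] at hx'
    obtain ⟨t, -, ht⟩ := hT x hx'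
    refine ⟨t, ?_⟩
    rw [ht, he1]
    exact hx
  · intro x hx hx'
    rw [hset] at hx hx'
    obtain ⟨p, hp⟩ := hy ⟨pat x, Finset.mem_filter.2 ⟨hfin.mem_toFinset.2 ⟨x, rfl⟩, hx, hx'⟩⟩
    have hp' : (y p).1 = pat x := congrArg Subtype.val hp
    refine ⟨p, ?_, fun a => ?_⟩
    · rw [he1, hp']
    · rw [he2, hp']

end content

end Pool.Agent.ZT
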