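import Pool.Agent.ZT.Full

/-!
# The topological full group of one homeomorphism
-/

set_option autoImplicit false

namespace Pool.Agent.ZT

open Pool.Agent.Helper29.BA

variable {X : Type} [TopologicalSpace X] (φ : X ≃ₜ X)

/-- The topological full group of a homeomorphism `φ`: the homeomorphisms `g` such that
`g x = φ ^ (c x) x` for all `x`, for some continuous function `c` with values in `ℤ`. -/
def topFull : Subgroup (X ≃ₜ X) where
  carrier := {g | ∃ c : X → ℤ, Continuous c ∧ ∀ x, g x = (φ ^ (c x)) x}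
  mul_mem' := by
    rintro a b ⟨c, hc, h⟩ ⟨d, hd, h'⟩
    refine ⟨fun x => c (b x) + d x, (hc.comp b.continuous).add hd, fun x => ?_⟩
    change a (b x) = _
    rw [h, zpow_add]
    change _ = (φ ^ c (b x)) ((φ ^ d x) x)
    rw [← h' x]
  one_mem' := ⟨fun _ => 0, continuous_const, fun x => by simp⟩
  inv_mem' := by
    rintro a ⟨c, hc, h⟩
    refine ⟨fun x => -c (a⁻¹ x), (hc.comp (a⁻¹ : X ≃ₜ X).continuous).neg, fun x => ?_⟩
    have h1 : a (a⁻¹ x) = x := a.apply_symm_apply x
    have h2 := h (a⁻¹ x)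
    rw [h1] at h2
    rw [zpow_neg]
    exact ((φ ^ c (a⁻¹ x)).toEquiv.symm_apply_eq.2 h2).symm

/-- The exponent of an element of the free group on one generator. -/
def ex : FreeGroup Unit →* Multiplicative ℤ := FreeGroup.lift fun _ => Multiplicative.ofAdd 1

theorem of_zpow_ex (g : FreeGroup Unit) :
    FreeGroup.of () ^ (Multiplicative.toAdd (ex g)) = g := by
  have h1 : (zpowersHom (FreeGroup Unit) (FreeGroup.of ())).comp ex = MonoidHom.id _ := by
    ext b
    simp [ex]
  exact DFunLike.congr_fun h1 g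

theorem ac_zpow (n : ℤ) : ac (fun _ : Unit => φ) (FreeGroup.of () ^ n) = φ ^ n := by
  rw [map_zpow]
  congr 1

theorem ac_ex (g : FreeGroup Unit) :
    ac (fun _ : Unit => φ) g = φ ^ (Multiplicative.toAdd (ex g)) := by
  conv_lhs => rw [← of_zpow_ex g]
  exact ac_zpow φ _

theorem topFull_le : topFull φ ≤ TF (fun _ : Unit => φ) := by
  rintro g ⟨c, hc, h⟩
  refine ⟨fun x => FreeGroup.of () ^ c x,
    ((IsLocallyConstant.iff_continuous c).2 hc).comp (fun n => FreeGroup.of () ^ n), fun x => ?_⟩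
  rw [h, ac_zpow]

theorem topFree_of_dense (h : Dense {x | ∀ n : ℤ, (φ ^ n) x = x → n = 0}) :
    TopFree (fun _ : Unit => φ) := by
  refine h.mono fun x hx g hg => ?_
  rw [ac_ex] at hg
  rw [← of_zpow_ex g, hx _ hg, zpow_zero]

/-- The topological full group of one homeomorphism with a dense set of aperiodic points. -/
theorem mem_topFull {C : ∀ (G : Type) [Group G], Prop} (hC : ClosedClass C)
    (h : Dense {x | ∀ n : ℤ, (φ ^ n) x = x → n = 0}) (hFG : C (FG (fun _ : Unit => φ))) :
    C (topFull φ) :=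
  hC.sub (topFull_le φ) (mem_TF hC (topFree_of_dense φ h) hFG)

/-- The powers of the generator. -/
def zEquiv : ℤ ≃ FreeGroup Unit where
  toFun n := FreeGroup.of () ^ n
  invFun g := Multiplicative.toAdd (ex g)
  left_inv n := by
    show Multiplicative.toAdd (ex (FreeGroup.of () ^ n)) = n
    have h1 : ex (FreeGroup.of ()) = Multiplicative.ofAdd 1 := FreeGroup.lift_apply_of
    rw [map_zpow, h1, toAdd_zpow, toAdd_ofAdd]
    simp
  right_inv g := of_zpow_ex g

/-- The topological full group of the transformation groupoid of a homeomorphism. -/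
def FGZ : Subgroup (Equiv.Perm (X × ℤ)) where
  carrier := {q | ∃ c : X → ℤ, Continuous c ∧ ∀ x n, q (x, n) = (x, n + c ((φ ^ n) x))}
  one_mem' := ⟨fun _ => 0, continuous_const, fun x n => by rw [add_zero]; rfl⟩
  mul_mem' := by
    rintro a b ⟨c, hc, h⟩ ⟨d, hd, h'⟩
    have hlc : IsLocallyConstant c := (IsLocallyConstant.iff_continuous c).2 hc
    have hld : IsLocallyConstant d := (IsLocallyConstant.iff_continuous d).2 hd
    refine ⟨fun x => d x + c ((φ ^ d x) x), hd.add ?_, fun x n => ?_⟩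
    · refine (IsLocallyConstant.iff_continuous _).1 (lc_comp hlc fun x => ⟨φ ^ d x, ?_⟩)
      filter_upwards [hld.eventually_eq x] with y hy
      rw [hy]
    · rw [Equiv.Perm.mul_apply, h', h]
      have h1 : (φ ^ (n + d ((φ ^ n) x))) x = (φ ^ d ((φ ^ n) x)) ((φ ^ n) x) := by
        rw [add_comm, zpow_add]
        rfl
      rw [h1, add_assoc]
  inv_mem' := by
    rintro a ⟨c, hc, h⟩
    have hlc : IsLocallyConstant c := (IsLocallyConstant.iff_continuous c).2 hc
    have hai : ∀ x, a (a⁻¹ x) = x := fun x => Equiv.apply_symm_apply a x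
    have hfst : ∀ x, (a⁻¹ x).1 = x.1 := by
      intro x
      have h1 := hai x
      have h2 : a (a⁻¹ x) = ((a⁻¹ x).1, (a⁻¹ x).2 + c ((φ ^ (a⁻¹ x).2) (a⁻¹ x).1)) := h _ _
      have h3 := h2.symm.trans h1
      calc (a⁻¹ x).1 = ((a⁻¹ x).1, (a⁻¹ x).2 + c ((φ ^ (a⁻¹ x).2) (a⁻¹ x).1)).1 := rfl
        _ = x.1 := by rw [h3]
    have hd : ∀ x, (a⁻¹ (x, 0)).2 + c ((φ ^ (a⁻¹ (x, 0)).2) x) = 0 := by
      intro x
      have h1 := hai (x, 0)
      have h2 : a⁻¹ (x, 0) = (x, (a⁻¹ (x, 0)).2) := Prod.ext (hfst (x, 0)) rfl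
      rw [h2, h] at h1
      exact congrArg Prod.snd h1
    have hinv : ∀ x n n', n' + c ((φ ^ n') x) = n → a⁻¹ (x, n) = (x, n') := by
      intro x n n' hn
      rw [Equiv.Perm.inv_eq_iff_eq, h, hn]
    refine ⟨fun x => (a⁻¹ (x, 0)).2, ?_, fun x n => ?_⟩
    · rw [← IsLocallyConstant.iff_continuous, IsLocallyConstant.iff_eventually_eq]
      intro x
      have h1 := (φ ^ (a⁻¹ (x, 0)).2 : X ≃ₜ X).continuous.continuousAt.eventually
        (hlc.eventually_eq ((φ ^ (a⁻¹ (x, 0)).2) x))
      filter_upwards [h1] with y hy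
      have h3 := hinv y 0 (a⁻¹ (x, 0)).2 (by rw [hy, hd])
      show (a⁻¹ (y, 0)).2 = _
      rw [h3]
    · refine hinv x n _ ?_
      have h1 := hd ((φ ^ n) x)
      have h2 : (φ ^ (n + (a⁻¹ ((φ ^ n) x, 0)).2)) x =
          (φ ^ (a⁻¹ ((φ ^ n) x, 0)).2) ((φ ^ n) x) := by
        rw [add_comm, zpow_add]
        rfl
      rw [h2, add_assoc, h1, add_zero]

/-- The two forms of the full group of the transformation groupoid of a homeomorphism. -/
theorem mem_FGZ {C : ∀ (G : Type) [Group G], Prop} (hC : ClosedClass C)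
    (h : C (FG (fun _ : Unit => φ))) : C (FGZ φ) := by
  let e : X × ℤ ≃ X × FreeGroup Unit := Equiv.prodCongr (Equiv.refl X) zEquiv
  let f : Equiv.Perm (X × ℤ) →* Equiv.Perm (X × FreeGroup Unit) :=
    { toFun := fun q => (e.symm.trans q).trans e
      map_one' := by
        ext x
        · simp
        · simp
      map_mul' := fun a b => by
        ext x
        · simp
        · simp }
  have hf : Function.Injective f := by
    intro a b hab
    ext x : 1
    have h1 := DFunLike.congr_fun hab (e x)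
    simpa [f] using h1
  refine hC.inj ((f.comp (FGZ φ).subtype).codRestrict (FG (fun _ : Unit => φ)) ?_) ?_ h
  · rintro ⟨q, c, hc, hq⟩
    refine ⟨fun x => FreeGroup.of () ^ c x,
      ((IsLocallyConstant.iff_continuous c).2 hc).comp (fun n => FreeGroup.of () ^ n),
      fun x g => ?_⟩
    show e (q (e.symm (x, g))) = _
    have h2 : e.symm (x, g) = (x, Multiplicative.toAdd (ex g)) := rfl
    rw [h2, hq]
    have h3 : ∀ n : ℤ, e (x, n) = (x, FreeGroup.of () ^ n) := fun n => rfl
    rw [h3, ac_ex, add_comm, zpow_add, of_zpow_ex]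
  · intro a b hab
    exact Subtype.ext (hf (congrArg Subtype.val hab))

end Pool.Agent.ZT
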