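import Mathlib

/-!
# The theorem of Hall and growth of finite sets in a space with finite balls
-/

set_option autoImplicit false

namespace Pool.Agent.ZT

variable {S : Type*}

open Classical in
/-- The points of `U` in the balls of radius `r` around the points of `E`. -/
noncomputable def nbB (B : ℕ → S → Finset S) (U : Set S) (r : ℕ) (E : Finset S) : Finset S :=
  (E.biUnion (B r)).filter (· ∈ U)

theorem mem_nbB {B : ℕ → S → Finset S} {U : Set S} {r : ℕ} {E : Finset S} {y : S} :
    y ∈ nbB B U r E ↔ (∃ x ∈ E, y ∈ B r x) ∧ y ∈ U := by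
  classical
  rw [nbB, Finset.mem_filter, Finset.mem_biUnion]

/-- `U` is paradoxical: there are two injections of `U` into itself with disjoint images which move
the points by a bounded distance. -/
def ParadoxB (B : ℕ → S → Finset S) (U : Set S) : Prop :=
  ∃ (r : ℕ) (a : Bool → S → S), (∀ i, ∀ x ∈ U, a i x ∈ U ∧ a i x ∈ B r x) ∧
    ∀ i j, ∀ x ∈ U, ∀ y ∈ U, a i x = a j y → i = j ∧ x = y

theorem exists_lt_twoB {B : ℕ → S → Finset S} {U : Set S} (hU : ¬ ParadoxB B U) (r : ℕ) :
    ∃ E : Finset S, (E : Set S) ⊆ U ∧ (nbB B U r E).card < 2 * E.card := by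
  classical
  by_contra hcon
  push Not at hcon
  apply hU
  have hall : ∀ s : Finset (↥U × Bool), s.card ≤ (s.biUnion fun p => nbB B U r {p.1.1}).card := by
    intro s
    have h1 : s.card ≤ 2 * (s.image fun p => p.1.1).card := by
      have h2 : s.card ≤ ((s.image fun p => p.1.1) ×ˢ (Finset.univ : Finset Bool)).card := by
        refine Finset.card_le_card_of_injOn (fun p => (p.1.1, p.2)) (fun p hp => ?_) ?_
        · exact Finset.mem_product.2 ⟨Finset.mem_image_of_mem _ hp, Finset.mem_univ _⟩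
        · intro p _ q _ hpq
          have h3 : (p.1.1, p.2) = (q.1.1, q.2) := hpq
          rw [Prod.mk.injEq] at h3
          exact Prod.ext (Subtype.ext h3.1) h3.2
      rw [Finset.card_product, Finset.card_univ, Fintype.card_bool, mul_comm] at h2
      exact h2
    refine h1.trans ((hcon _ ?_).trans (Finset.card_le_card ?_))
    · intro x hx
      obtain ⟨p, _, rfl⟩ := Finset.mem_image.1 (Finset.mem_coe.1 hx)
      exact p.1.2
    · intro y hy
      obtain ⟨⟨x, hx, hxy⟩, hyU⟩ := mem_nbB.1 hy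
      obtain ⟨p, hp, rfl⟩ := Finset.mem_image.1 hx
      exact Finset.mem_biUnion.2 ⟨p, hp, mem_nbB.2 ⟨⟨_, Finset.mem_singleton_self _, hxy⟩, hyU⟩⟩
  obtain ⟨f, hf, hf'⟩ := (Finset.all_card_le_biUnion_card_iff_exists_injective _).1 hall
  refine ⟨r, fun i x => if hx : x ∈ U then f (⟨x, hx⟩, i) else x, fun i x hx => ?_,
    fun i j x hx y hy h => ?_⟩
  · beta_reduce
    rw [dif_pos hx]
    obtain ⟨⟨z, hz, hzx⟩, hU'⟩ := mem_nbB.1 (hf' (⟨x, hx⟩, i))
    rw [Finset.mem_singleton] at hz
    subst hz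
    exact ⟨hU', hzx⟩
  · beta_reduce at h
    rw [dif_pos hx, dif_pos hy] at h
    have h1 := hf h
    rw [Prod.mk.injEq, Subtype.mk.injEq] at h1
    exact ⟨h1.2, h1.1⟩

/-- **Theorem.** If `U` is not paradoxical, there are for each `r` and `n` finite nonempty sets `E`
in `U` such that the balls of radius `r` around the points of `E` contain at most
`(1 + 1 / (n + 1)) |E|` points of `U`. -/
theorem exists_smallB {B : ℕ → S → Finset S} (h0 : ∀ x, x ∈ B 0 x)
    (hB : ∀ r s x y z, y ∈ B r x → z ∈ B s y → z ∈ B (r + s) x) {U : Set S}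
    (hU : ¬ ParadoxB B U) (r n : ℕ) :
    ∃ E : Finset S, (E : Set S) ⊆ U ∧ E.Nonempty ∧
      (n + 1) * (nbB B U r E).card ≤ (n + 2) * E.card := by
  classical
  by_contra hcon
  push Not at hcon
  have hcon' : ∀ E : Finset S, (E : Set S) ⊆ U →
      (n + 2) * E.card ≤ (n + 1) * (nbB B U r E).card := by
    intro E hE
    rcases E.eq_empty_or_nonempty with rfl | hne
    · simp
    · exact (hcon E hE hne).le
  have key : ∀ j : ℕ, ∀ E : Finset S, (E : Set S) ⊆ U →
      (n + 2) ^ j * E.card ≤ (n + 1) ^ j * (nbB B U (j * r) E).card := by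
    intro j
    induction j with
    | zero =>
      intro E hE
      rw [pow_zero, pow_zero, one_mul, one_mul, zero_mul]
      exact Finset.card_le_card fun x hx =>
        mem_nbB.2 ⟨⟨x, hx, h0 x⟩, hE (Finset.mem_coe.2 hx)⟩
    | succ j ih =>
      intro E hE
      have h1 := ih E hE
      have h2 := hcon' (nbB B U (j * r) E) fun x hx => (mem_nbB.1 (Finset.mem_coe.1 hx)).2
      have h3 : (nbB B U r (nbB B U (j * r) E)).card ≤ (nbB B U ((j + 1) * r) E).card := by
        refine Finset.card_le_card fun x hx => ?_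
        obtain ⟨⟨y, hy, hyx⟩, hxU⟩ := mem_nbB.1 hx
        obtain ⟨⟨z, hz, hzy⟩, -⟩ := mem_nbB.1 hy
        refine mem_nbB.2 ⟨⟨z, hz, ?_⟩, hxU⟩
        rw [add_mul, one_mul]
        exact hB _ _ _ _ _ hzy hyx
      calc (n + 2) ^ (j + 1) * E.card = (n + 2) * ((n + 2) ^ j * E.card) := by ring
        _ ≤ (n + 2) * ((n + 1) ^ j * (nbB B U (j * r) E).card) := Nat.mul_le_mul le_rfl h1
        _ = (n + 1) ^ j * ((n + 2) * (nbB B U (j * r) E).card) := by ring
        _ ≤ (n + 1) ^ j * ((n + 1) * (nbB B U r (nbB B U (j * r) E)).card) :=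
          Nat.mul_le_mul le_rfl h2
        _ ≤ (n + 1) ^ j * ((n + 1) * (nbB B U ((j + 1) * r) E).card) :=
          Nat.mul_le_mul le_rfl (Nat.mul_le_mul le_rfl h3)
        _ = (n + 1) ^ (j + 1) * (nbB B U ((j + 1) * r) E).card := by ring
  obtain ⟨E, hE, hlt⟩ := exists_lt_twoB hU ((n + 1) * r)
  have h1 := key (n + 1) E hE
  have h2 : 2 * (n + 1) ^ (n + 1) ≤ (n + 2) ^ (n + 1) := by
    have h3 : (n + 2) ^ (n + 1) =
        ∑ m ∈ Finset.range (n + 1 + 1), (n + 1) ^ m * 1 ^ (n + 1 - m) * ((n + 1).choose m) :=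
      add_pow (n + 1) 1 (n + 1)
    rw [h3]
    have h4 : (n + 1) ^ (n + 1) + (n + 1) * (n + 1) ^ n ≤
        ∑ m ∈ Finset.range (n + 1 + 1), (n + 1) ^ m * 1 ^ (n + 1 - m) * ((n + 1).choose m) := by
      rw [Finset.sum_range_succ, Finset.sum_range_succ, Nat.choose_self, Nat.choose_succ_self_right]
      simp only [one_pow, mul_one]
      have h5 : 0 ≤ ∑ x ∈ Finset.range n, (n + 1) ^ x * (n + 1).choose x := Nat.zero_le _
      nlinarith
    refine le_trans (le_of_eq ?_) h4
    ring
  have h6 : 2 * (n + 1) ^ (n + 1) * E.card < 2 * (n + 1) ^ (n + 1) * E.card := by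
    calc 2 * (n + 1) ^ (n + 1) * E.card ≤ (n + 2) ^ (n + 1) * E.card := Nat.mul_le_mul h2 le_rfl
      _ ≤ (n + 1) ^ (n + 1) * (nbB B U ((n + 1) * r) E).card := h1
      _ < (n + 1) ^ (n + 1) * (2 * E.card) := Nat.mul_lt_mul_of_pos_left hlt (by positivity)
      _ = 2 * (n + 1) ^ (n + 1) * E.card := by ring
  exact lt_irrefl _ h6

section graph

variable (Γ : SimpleGraph S)

/-- Balls in a locally finite graph are finite. -/
theorem finite_ball [Γ.LocallyFinite] (r : ℕ) (x : S) : {y | Γ.edist x y ≤ r}.Finite := by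
  classical
  induction r generalizing x with
  | zero =>
    refine (Set.finite_singleton x).subset fun y hy => ?_
    have h1 : Γ.edist x y = 0 := by
      refine le_antisymm ?_ bot_le
      exact_mod_cast hy
    exact (SimpleGraph.edist_eq_zero_iff.1 h1).symm
  | succ r ih =>
    have h1 : ({x} ∪ ⋃ z ∈ (Γ.neighborFinset x : Set S), {y | Γ.edist z y ≤ r}).Finite :=
      (Set.finite_singleton x).union (Set.Finite.biUnion (Finset.finite_toSet _) fun z _ => ih z)
    refine h1.subset fun y hy => ?_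
    by_cases hxy : y = x
    · exact Or.inl hxy
    · have h2 : Γ.edist x y ≠ ⊤ := fun h => by
        rw [Set.mem_ofPred_eq, h] at hy
        exact absurd hy (by simp)
      have h3 : Γ.Reachable x y := SimpleGraph.edist_ne_top_iff_reachable.1 h2
      obtain ⟨p, hp⟩ := h3.exists_walk_length_eq_edist
      cases p with
      | nil => exact absurd rfl hxy
      | cons h q =>
        refine Or.inr (Set.mem_biUnion ((Finset.mem_coe.2 ((Γ.mem_neighborFinset x _).2 h))) ?_)
        rw [Set.mem_ofPred_eq]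
        rw [Set.mem_ofPred_eq, ← hp, SimpleGraph.Walk.length_cons] at hy
        refine (SimpleGraph.edist_le q).trans ?_
        have h4 : (q.length + 1 : ℕ) ≤ r + 1 := by exact_mod_cast hy
        exact_mod_cast Nat.succ_le_succ_iff.1 h4

/-- The balls of a locally finite graph. -/
noncomputable def gball [Γ.LocallyFinite] (r : ℕ) (x : S) : Finset S := (finite_ball Γ r x).toFinset

theorem mem_gball [Γ.LocallyFinite] {r : ℕ} {x y : S} : y ∈ gball Γ r x ↔ Γ.edist x y ≤ r := by
  rw [gball, Set.Finite.mem_toFinset, Set.mem_ofPred_eq]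

/-- A set of vertices which is not paradoxical contains finite sets of small growth. -/
theorem exists_small_graph [Γ.LocallyFinite] {U : Set S}
    (hU : ¬ ∃ (N : ℕ) (a : Bool → S → S), (∀ i, ∀ x ∈ U, a i x ∈ U ∧ Γ.edist x (a i x) ≤ N) ∧
      ∀ i j, ∀ x ∈ U, ∀ y ∈ U, a i x = a j y → i = j ∧ x = y) (r n : ℕ) :
    ∃ E : Finset S, (E : Set S) ⊆ U ∧ E.Nonempty ∧
      (n + 1) * {y ∈ U | ∃ x ∈ E, Γ.edist x y ≤ r}.ncard ≤ (n + 2) * E.card := by
  have h1 : ¬ ParadoxB (gball Γ) U := by
    rintro ⟨N, a, h, h'⟩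
    exact hU ⟨N, a, fun i x hx => ⟨(h i x hx).1, (mem_gball Γ).1 (h i x hx).2⟩, h'⟩
  obtain ⟨E, hE, hne, hlt⟩ := exists_smallB (B := gball Γ) (fun x => (mem_gball Γ).2 (by simp))
    (fun r s x y z hxy hyz => by
      rw [mem_gball] at hxy hyz ⊢
      refine (Γ.edist_triangle (u := x) (v := y) (w := z)).trans ?_
      rw [Nat.cast_add]
      exact add_le_add hxy hyz) h1 r n
  refine ⟨E, hE, hne, le_trans (le_of_eq ?_) hlt⟩
  congr 1
  rw [← Set.ncard_coe_finset]
  congr 1
  ext y
  rw [Finset.mem_coe, mem_nbB, Set.mem_ofPred_eq, and_comm]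
  simp only [mem_gball]

end graph

end Pool.Agent.ZT
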