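import Pool.Agent.ZT.Hall
import Pool.Agent.ZT.Bdd

/-!
# Invariant finitely additive measures: growth, ultrafilters, orbits
-/

set_option autoImplicit false

namespace Pool.Agent.ZT

open Filter Topology Pointwise

section growth

variable {F S : Type*} [Group F] [MulAction F S]

/-- Larger sets of group elements. -/
theorem Paradox.of_hom {F' : Type*} [Group F'] [MulAction F' S] {U : Set S} (h : Paradox F U)
    (r : F → F') (hr : ∀ (g : F) (x : S), r g • x = g • x) : Paradox F' U := by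
  classical
  obtain ⟨K, a, h1, h2⟩ := h
  refine ⟨K.image r, a, fun i x hx => ⟨(h1 i x hx).1, ?_⟩, h2⟩
  obtain ⟨g, hg, hgx⟩ := (h1 i x hx).2
  exact ⟨r g, Finset.mem_image_of_mem _ hg, by rw [hr, hgx]⟩

open Classical in
/-- The neighbourhoods of the points of a paradoxical set grow exponentially. -/
theorem Paradox.growth {U : Set S} (h : Paradox F U) :
    ∃ K : Finset F, ∀ x ∈ U, ∀ n : ℕ, 2 ^ n ≤ (K ^ n • ({x} : Finset S)).card := by
  obtain ⟨K, a, h1, h2⟩ := h
  refine ⟨K, fun x hx n => ?_⟩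
  have key : ∀ n : ℕ, ∃ f : (Fin n → Bool) → S, Function.Injective f ∧
      ∀ w, f w ∈ U ∧ f w ∈ K ^ n • ({x} : Finset S) := by
    intro n
    induction n with
    | zero =>
      refine ⟨fun _ => x, fun w w' _ => Subsingleton.elim _ _, fun w => ⟨hx, ?_⟩⟩
      rw [pow_zero]
      exact Finset.mem_smul.2 ⟨1, Finset.mem_one.2 rfl, x, Finset.mem_singleton_self _, one_smul _ _⟩
    | succ n ih =>
      obtain ⟨f, hf, hf'⟩ := ih
      refine ⟨fun w => a (w 0) (f fun i => w i.succ), fun w w' hw => ?_, fun w =>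
        ⟨(h1 _ _ (hf' _).1).1, ?_⟩⟩
      · obtain ⟨h3, h4⟩ := h2 _ _ _ (hf' _).1 _ (hf' _).1 hw
        have h5 := hf h4
        funext i
        refine Fin.cases h3 (fun j => ?_) i
        exact congrFun h5 j
      · obtain ⟨g, hg, hgx⟩ := (h1 (w 0) _ (hf' fun i => w i.succ).1).2
        obtain ⟨k, hk, z, hz, hzx⟩ := Finset.mem_smul.1 (hf' fun i => w i.succ).2
        refine Finset.mem_smul.2 ⟨g * k, ?_, z, hz, ?_⟩
        · rw [pow_succ']
          exact Finset.mul_mem_mul hg hk
        · rw [mul_smul, hzx, hgx]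
  obtain ⟨f, hf, hf'⟩ := key n
  have h3 : (Finset.univ.image f).card ≤ (K ^ n • ({x} : Finset S)).card := by
    refine Finset.card_le_card fun y hy => ?_
    obtain ⟨w, -, rfl⟩ := Finset.mem_image.1 hy
    exact (hf' w).2
  rwa [Finset.card_image_of_injective _ hf, Finset.card_univ, Fintype.card_fun, Fintype.card_bool,
    Fintype.card_fin] at h3

end growth

section hom

variable {F : Type*} {S : Type*} [Group F]

/-- Paradoxical sets for a homomorphism to the permutations. -/
def ParadoxR (ρ : F →* Equiv.Perm S) (U : Set S) : Prop :=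
  ∃ (K : Finset F) (a : Bool → S → S), (∀ i, ∀ x ∈ U, a i x ∈ U ∧ ∃ g ∈ K, ρ g x = a i x) ∧
    ∀ i j, ∀ x ∈ U, ∀ y ∈ U, a i x = a j y → i = j ∧ x = y

theorem exists_measureR (ρ : F →* Equiv.Perm S) {U : Set S} (hU : ¬ ParadoxR ρ U) :
    ∃ m : Set S → ENNReal, m ∅ = 0 ∧ (∀ V W, Disjoint V W → m (V ∪ W) = m V + m W) ∧
      (∀ (g : F) (W : Set S), m (ρ g ⁻¹' W) = m W) ∧ m U = 1 := by
  let _ : MulAction F S := MulAction.compHom S ρ
  obtain ⟨m, h1, h2, h3, h4⟩ := exists_measure (F := F) (S := S) (U := U) hU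
  refine ⟨m, h1, h2, fun g W => ?_, h4⟩
  rw [← h3 g⁻¹ W]
  congr 1
  ext x
  rw [Set.mem_preimage, Set.mem_smul_set_iff_inv_smul_mem, inv_inv]
  rfl

end hom

section spaces

variable {A : Type}

/-- The action of the free group on a compact space, as permutations. -/
def acP {X : Type} [TopologicalSpace X] (φ : A → X ≃ₜ X) : FreeGroup A →* Equiv.Perm X where
  toFun g := (ac φ g).toEquiv
  map_one' := by
    ext x
    exact ac_one (φ := φ) x
  map_mul' g h := by
    ext x
    exact ac_mul φ g h x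

/-- Measures on the subsets of a space with an action of a free group. -/
theorem exists_measure_space {X : Type} [TopologicalSpace X] (φ : A → X ≃ₜ X) {U : Set X}
    (hU : ¬ ParadoxR (acP φ) U) :
    ∃ m : Set X → ENNReal, m ∅ = 0 ∧ (∀ V W, Disjoint V W → m (V ∪ W) = m V + m W) ∧
      (∀ (a : A) (W : Set X), m (φ a ⁻¹' W) = m W) ∧ m U = 1 := by
  obtain ⟨m, h1, h2, h3, h4⟩ := exists_measureR (acP φ) hU
  refine ⟨m, h1, h2, fun a W => ?_, h4⟩
  have h5 := h3 (FreeGroup.of a) W
  have h6 : (acP φ (FreeGroup.of a) : X → X) = φ a := by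
    funext x
    change ac φ (FreeGroup.of a) x = φ a x
    rw [ac, FreeGroup.lift_apply_of]
  rwa [h6] at h5

/-- Measures on the space of the ultrafilters. -/
theorem exists_measure_ultra {S : Type} (T : A → Equiv.Perm S)
    (hT : ∀ B : Set S, B.Nonempty → ¬ ParadoxR (FreeGroup.lift T) B) {U : Set (Ultrafilter S)}
    (hU : IsOpen U) (hne : U.Nonempty) :
    ∃ m : Set (Ultrafilter S) → ENNReal, m ∅ = 0 ∧
      (∀ V W, Disjoint V W → m (V ∪ W) = m V + m W) ∧
      (∀ (a : A) (W : Set (Ultrafilter S)), m (uH (T a) ⁻¹' W) = m W) ∧ m U = 1 := by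
  obtain ⟨s, hs⟩ := (denseRange_pure (α := S)).exists_mem_open hU hne
  obtain ⟨m, h1, h2, h3, h4⟩ := exists_measureR (FreeGroup.lift T)
    (U := {s | (pure s : Ultrafilter S) ∈ U}) (hT _ ⟨s, hs⟩)
  refine ⟨fun W => m {s | (pure s : Ultrafilter S) ∈ W}, ?_, fun V W h => ?_, fun a W => ?_, h4⟩
  · have h5 : {s | (pure s : Ultrafilter S) ∈ (∅ : Set (Ultrafilter S))} = ∅ := by
      ext x
      simp
    beta_reduce
    rw [h5, h1]
  · exact h2 _ _ (Set.disjoint_left.2 fun x hx hx' => Set.disjoint_left.1 h hx hx')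
  · have h5 := h3 (FreeGroup.of a) {s | (pure s : Ultrafilter S) ∈ W}
    rw [FreeGroup.lift_apply_of] at h5
    beta_reduce
    rw [← h5]
    congr 1

end spaces

end Pool.Agent.ZT
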