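import Mathlib

/-!
# The Cayley tree of a free group
-/

set_option autoImplicit false

namespace Pool.Agent.TZ

open FreeGroup

variable {A : Type} [DecidableEq A]

/-- The signed generator. -/
def gs (x : A × Bool) : FreeGroup A := FreeGroup.mk [x]

theorem gs_true (a : A) : gs (a, true) = FreeGroup.of a := rfl

theorem gs_false (a : A) : gs (a, false) = (FreeGroup.of a)⁻¹ := rfl

theorem gs_not (x : A × Bool) : gs (x.1, !x.2) = (gs x)⁻¹ := by
  obtain ⟨a, b⟩ := x
  cases b <;> rfl

theorem toWord_gs_mul (x : A × Bool) (u : FreeGroup A) :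
    (gs x * u).toWord = List.casesOn u.toWord [x] fun y tl =>
      if x.1 = y.1 ∧ x.2 = !y.2 then tl else x :: y :: tl := by
  have h1 : gs x * u = FreeGroup.mk (x :: u.toWord) := by
    conv_lhs => rw [← FreeGroup.mk_toWord (x := u)]
    rfl
  rw [h1, FreeGroup.toWord_mk, FreeGroup.reduce.cons, FreeGroup.reduce_toWord]

theorem norm_gs_mul (x : A × Bool) (u : FreeGroup A) :
    (gs x * u).norm = u.norm + 1 ∨
      ((gs x * u).norm + 1 = u.norm ∧ u.toWord.head? = some (x.1, !x.2)) := by
  unfold FreeGroup.norm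
  rw [toWord_gs_mul]
  rcases h : u.toWord with _ | ⟨y, tl⟩
  · exact Or.inl rfl
  · dsimp only
    by_cases h1 : x.1 = y.1 ∧ x.2 = !y.2
    · rw [if_pos h1]
      refine Or.inr ⟨rfl, ?_⟩
      rw [List.head?_cons, h1.1, h1.2, Bool.not_not]
    · rw [if_neg h1]
      exact Or.inl rfl

theorem norm_gs_mul_le (x : A × Bool) (u : FreeGroup A) : (gs x * u).norm ≤ u.norm + 1 := by
  rcases norm_gs_mul x u with h | h <;> omega

theorem norm_le_gs_mul (x : A × Bool) (u : FreeGroup A) : u.norm ≤ (gs x * u).norm + 1 := by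
  rcases norm_gs_mul x u with h | h <;> omega

theorem norm_gs_mul_ne (x : A × Bool) (u : FreeGroup A) : (gs x * u).norm ≠ u.norm := by
  rcases norm_gs_mul x u with h | h <;> omega

/-- Only one generator leads towards the root. -/
theorem eq_of_norm_lt {x y : A × Bool} {u : FreeGroup A} (hx : (gs x * u).norm < u.norm)
    (hy : (gs y * u).norm < u.norm) : x = y := by
  rcases norm_gs_mul x u with h | ⟨-, h⟩
  · omega
  rcases norm_gs_mul y u with h' | ⟨-, h'⟩
  · omega
  rw [h] at h'
  have h2 := Option.some.inj h'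
  have h3 := congrArg Prod.fst h2
  have h4 := congrArg Prod.snd h2
  exact Prod.ext h3 (by simpa using h4)

/-- The parent. -/
theorem exists_parent {u : FreeGroup A} (hu : u ≠ 1) :
    ∃ (x : A × Bool) (v : FreeGroup A), u = gs x * v ∧ u.norm = v.norm + 1 := by
  rcases h : u.toWord with _ | ⟨y, tl⟩
  · exact absurd (FreeGroup.toWord_eq_nil_iff.1 h) hu
  · have h1 : u = gs y * FreeGroup.mk tl := by
      rw [← FreeGroup.mk_toWord (x := u), h]
      rfl
    refine ⟨y, FreeGroup.mk tl, h1, ?_⟩
    rcases norm_gs_mul y (FreeGroup.mk tl) with h2 | ⟨h2, -⟩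
    · rw [← h1] at h2
      exact h2
    · rw [← h1] at h2
      have h3 : (FreeGroup.mk tl).norm ≤ tl.length := FreeGroup.norm_mk_le
      have h4 : u.norm = tl.length + 1 := by
        unfold FreeGroup.norm
        rw [h]
        rfl
      omega

theorem parent_unique {x y : A × Bool} {v w : FreeGroup A} (h : gs x * v = gs y * w)
    (hv : (gs x * v).norm = v.norm + 1) (hw : (gs y * w).norm = w.norm + 1) : x = y ∧ v = w := by
  have h1 : gs (x.1, !x.2) * (gs x * v) = v := by rw [gs_not, inv_mul_cancel_left]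
  have h2 : gs (y.1, !y.2) * (gs y * w) = w := by rw [gs_not, inv_mul_cancel_left]
  have h3 : ((x.1, !x.2) : A × Bool) = (y.1, !y.2) := by
    refine eq_of_norm_lt (u := gs x * v) ?_ ?_
    · rw [h1]; omega
    · rw [h, h2]; omega
  have h4 : x = y := by
    have h5 := congrArg Prod.fst h3
    have h6 := congrArg Prod.snd h3
    exact Prod.ext h5 (by simpa using h6)
  subst h4
  exact ⟨rfl, mul_left_cancel h⟩

/-- The balls are finite. -/
theorem finite_ball [Finite A] (n : ℕ) : {u : FreeGroup A | u.norm ≤ n}.Finite := by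
  have h1 : {l : List (A × Bool) | l.length ≤ n}.Finite := List.finite_length_le (A × Bool) n
  refine (h1.preimage (f := FreeGroup.toWord) FreeGroup.toWord_injective.injOn).subset ?_
  intro u hu
  exact hu

end Pool.Agent.TZ
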