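import Pool.Agent.ZT.Run
import Pool.Agent.ZT.Tree

/-!
# Runs with letters of constant displacement

If a run consists of letters with constant displacements, and all tokens of the first and of the
last state have displacement zero, then the product of the run is trivial.
-/

set_option autoImplicit false

namespace Pool.Agent.ZT.Gr

open Pool.Agent.TZ

variable {A P : Type} [MulAction (FreeGroup A) P] (S : Gr A P)

/-- The letter which moves the particles with displacement `u` over the junctions of type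
`(a, v)`. -/
def ML (a : A) (v : ℕ) (u : FreeGroup A) : Lt A P :=
  (a, {z | S.ν (S.σ a z.1) = v ∧ z.2 = u⁻¹ • z.1})

/-- All pairs have displacement `u`. -/
def Off (L : Set (P × P)) (u : FreeGroup A) : Prop := ∀ z ∈ L, z.2 = u⁻¹ • z.1

/-- The displacement before the step. -/
def bo (x : (A × ℕ × FreeGroup A) × Bool) : FreeGroup A :=
  if x.2 then x.1.2.2 else FreeGroup.of x.1.1 * x.1.2.2

/-- The displacement after the step. -/
def ao (x : (A × ℕ × FreeGroup A) × Bool) : FreeGroup A :=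
  if x.2 then FreeGroup.of x.1.1 * x.1.2.2 else x.1.2.2

/-- The letter of a datum. -/
def ltr (x : (A × ℕ × FreeGroup A) × Bool) : Lt A P × Bool :=
  (S.ML x.1.1 x.1.2.1 x.1.2.2, x.2)

theorem ao_eq (x : (A × ℕ × FreeGroup A) × Bool) : ao x = gs (x.1.1, x.2) * bo x := by
  obtain ⟨⟨a, v, u⟩, ε⟩ := x
  cases ε
  · change u = (FreeGroup.of a)⁻¹ * (FreeGroup.of a * u)
    rw [inv_mul_cancel_left]
  · rfl

theorem bo_eq (x : (A × ℕ × FreeGroup A) × Bool) : bo x = gs (x.1.1, !x.2) * ao x := by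
  obtain ⟨⟨a, v, u⟩, ε⟩ := x
  cases ε
  · rfl
  · change u = (FreeGroup.of a)⁻¹ * (FreeGroup.of a * u)
    rw [inv_mul_cancel_left]

variable {S}

theorem off_ML (a : A) (v : ℕ) (u : FreeGroup A) : Off (S.ML a v u).2 u := fun _ hz => hz.2

theorem off_side (hσ : ∀ a p, S.σ a p = FreeGroup.of a • p) (x : (A × ℕ × FreeGroup A) × Bool) :
    Off (S.side (S.ltr x).1 x.2) (bo x) ∧ Off (S.side (S.ltr x).1 (!x.2)) (ao x) := by
  obtain ⟨⟨a, v, u⟩, ε⟩ := x
  have h1 : Off (S.ML a v u).2 u := off_ML a v u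
  have h2 : Off (S.sh a (S.ML a v u).2) (FreeGroup.of a * u) := by
    rintro ⟨p, x⟩ hz
    have h3 := h1 _ (mem_sh.1 hz)
    dsimp only at h3 ⊢
    have h4 : S.σ a ((S.σ a)⁻¹ p) = p := pai _ _
    rw [hσ] at h4
    have h5 : (S.σ a)⁻¹ p = (FreeGroup.of a)⁻¹ • p := by
      rw [eq_inv_smul_iff, h4]
    rw [h3, h5, smul_smul, mul_inv_rev]
  cases ε
  · exact ⟨h2, h1⟩
  · exact ⟨h1, h2⟩

theorem Off.mono {L M : Set (P × P)} {u : FreeGroup A} (h : Off M u) (hL : L ⊆ M) : Off L u :=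
  fun z hz => h z (hL hz)

theorem Off.eq (hfree : ∀ (u : FreeGroup A) (p : P), u • p = p → u = 1) {L : Set (P × P)}
    (hL : L.Nonempty) {u v : FreeGroup A} (hu : Off L u) (hv : Off L v) : u = v := by
  obtain ⟨z, hz⟩ := hL
  have h1 := (hu z hz).symm.trans (hv z hz)
  have h2 : (v * u⁻¹) • z.1 = z.1 := by rw [mul_smul, h1, smul_inv_smul]
  have h3 := hfree _ _ h2
  exact (mul_inv_eq_one.1 h3).symm

theorem exists_first {α : Type*} (p : α → Prop) (l : List α) (h : ∃ x ∈ l, p x) :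
    ∃ l₁ x l₂, l = l₁ ++ x :: l₂ ∧ p x ∧ ∀ y ∈ l₁, ¬ p y := by
  classical
  induction l with
  | nil => simp at h
  | cons y l ih =>
    by_cases hy : p y
    · exact ⟨[], y, l, rfl, hy, by simp⟩
    · obtain ⟨l₁, x, l₂, rfl, h1, h2⟩ := ih (by
        obtain ⟨x, hx, hpx⟩ := h
        rcases List.mem_cons.1 hx with rfl | hx
        · exact (hy hpx).elim
        · exact ⟨x, hx, hpx⟩)
      refine ⟨y :: l₁, x, l₂, rfl, h1, fun z hz => ?_⟩
      rcases List.mem_cons.1 hz with rfl | hz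
      · exact hy
      · exact h2 z hz

/-- The letters which use none of the tokens of `T` keep the tokens of `T`. -/
theorem keep {T : Set (Set (P × P))} (w : List (Lt A P × Bool)) :
    ∀ {c c' : Set (Set (P × P))}, T ⊆ c → S.Run c w c' →
    (∀ z ∈ w, ∀ τ ∈ T, τ ∉ S.tk z.1 z.2) → T ⊆ c' := by
  induction w with
  | nil =>
    rintro c c' hT rfl _
    exact hT
  | cons z w ih =>
    rintro c c' hT ⟨c₁, ⟨-, -, rfl⟩, h2⟩ h
    refine ih (fun τ hτ => Or.inl ⟨hT hτ, ?_⟩) h2 fun y hy => h y (List.mem_cons_of_mem _ hy)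
    exact h z List.mem_cons_self τ hτ

/-- The letters which use none of the tokens of one side of the letter `ℓ` are disjoint
from `ℓ`. -/
theorem keep_R {ℓ : Lt A P} {ε : Bool} (hne : ℓ.2.Nonempty) (w : List (Lt A P × Bool)) :
    ∀ {c c' : Set (Set (P × P))}, S.Valid c → S.tk ℓ ε ⊆ c → S.Run c w c' →
    (∀ z ∈ w, ∀ τ ∈ S.tk ℓ ε, τ ∉ S.tk z.1 z.2) → ∀ z ∈ w, R ℓ z.1 := by
  induction w with
  | nil => simp
  | cons y w ih =>
    rintro c c' hc hT ⟨c₁, h1, h2⟩ h z hz
    rcases List.mem_cons.1 hz with rfl | hz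
    · refine ⟨hne, h1.1.1, fun x hx hx' => ?_⟩
      obtain ⟨τ, hτ, hxτ⟩ := exists_tk (S := S) ε hx
      obtain ⟨τ', hτ', hxτ'⟩ := exists_tk (S := S) z.2 hx'
      have h3 := hc.dis τ (hT hτ) τ' (h1.2.1 hτ') x hxτ hxτ'
      exact h z List.mem_cons_self τ hτ (h3 ▸ hτ')
    · refine ih (hc.step h1) (fun τ hτ => ?_) h2
        (fun y hy => h y (List.mem_cons_of_mem _ hy)) z hz
      obtain ⟨-, -, rfl⟩ := h1
      exact Or.inl ⟨hT hτ, h y List.mem_cons_self τ hτ⟩

variable [DecidableEq A]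

/-- The norms of the displacements of all tokens are smaller than `N`. -/
def Small (c : Set (Set (P × P))) (N : ℕ) : Prop :=
  ∀ τ ∈ c, ∃ u : FreeGroup A, Off τ u ∧ u.norm < N

theorem Small.run (hσ : ∀ a p, S.σ a p = FreeGroup.of a • p) {N : ℕ}
    (D : List ((A × ℕ × FreeGroup A) × Bool)) : ∀ {c c' : Set (Set (P × P))}, Small (A := A) c N →
    (∀ x ∈ D, (ao x).norm < N) → S.Run c (D.map S.ltr) c' → Small (A := A) c' N := by
  induction D with
  | nil =>
    rintro c c' hc _ h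
    obtain rfl : c = c' := h
    exact hc
  | cons x D ih =>
    rintro c c' hc h ⟨c₁, ⟨-, -, rfl⟩, h2⟩
    refine ih (fun τ hτ => ?_) (fun y hy => h y (List.mem_cons_of_mem _ hy)) h2
    rcases hτ with hτ | hτ
    · exact hc τ hτ.1
    · exact ⟨ao x, (off_side hσ x).2.mono (parts_sub hτ), h x List.mem_cons_self⟩

/-- A run with constant displacements from displacement zero to displacement zero contains a
cancelling pair. -/
theorem exists_canc (hσ : ∀ a p, S.σ a p = FreeGroup.of a • p)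
    (hfree : ∀ (u : FreeGroup A) (p : P), u • p = p → u = 1) {c c' : Set (Set (P × P))}
    (hc : S.Valid c) (h0 : ∀ τ ∈ c, Off τ (1 : FreeGroup A))
    (h1 : ∀ τ ∈ c', Off τ (1 : FreeGroup A)) (D : List ((A × ℕ × FreeGroup A) × Bool))
    (hD : D ≠ []) (hrun : S.Run c (D.map S.ltr) c') :
    ∃ D₁ x D₂ y D₃, D = D₁ ++ x :: (D₂ ++ y :: D₃) ∧ S.ltr y = ((S.ltr x).1, !(S.ltr x).2) ∧
      ∀ z ∈ D₂, R (S.ltr x).1 (S.ltr z).1 := by
  -- the largest norm
  obtain ⟨m, hm, hmax⟩ : ∃ m ∈ D, ∀ y ∈ D,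
      max (bo y).norm (ao y).norm ≤ max (bo m).norm (ao m).norm := by
    obtain ⟨m, hm, hmax⟩ := (D.toFinset).exists_max_image
      (fun y => max (bo y).norm (ao y).norm)
      ⟨D.head hD, by rw [List.mem_toFinset]; exact List.head_mem hD⟩
    exact ⟨m, List.mem_toFinset.1 hm, fun y hy => hmax y (List.mem_toFinset.2 hy)⟩
  generalize hN : max (bo m).norm (ao m).norm = N at hmax
  have hN0 : 0 < N := by
    have h2 := norm_gs_mul_ne (m.1.1, m.2) (bo m)
    rw [← ao_eq] at h2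
    omega
  obtain ⟨D₁, x, D', rfl, hx, hD₁⟩ := exists_first
    (fun y : (A × ℕ × FreeGroup A) × Bool => max (bo y).norm (ao y).norm = N) D ⟨m, hm, hN⟩
  rw [List.map_append, List.map_cons] at hrun
  obtain ⟨c₁, hr1, c₂, hst, hr2⟩ := run_append.1 hrun
  have hc₁ : S.Valid c₁ := hc.run hr1
  have hc₂ : S.Valid c₂ := hc₁.step hst
  have hlt : ∀ y ∈ D₁, max (bo y).norm (ao y).norm < N := fun y hy =>
    lt_of_le_of_ne (hmax y (List.mem_append_left _ hy)) (hD₁ y hy)
  have hsm : Small (A := A) c₁ N := by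
    refine Small.run hσ D₁ (c := c) (fun τ hτ => ⟨1, h0 τ hτ, ?_⟩) (fun y hy => ?_) hr1
    · rw [FreeGroup.norm_one]
      exact hN0
    · exact (max_lt_iff.1 (hlt y hy)).2
  -- the displacement before `x` is small
  have hbx : (bo x).norm < N := by
    obtain ⟨p, hp⟩ := hst.1.1
    obtain ⟨τ, hτ, -⟩ := exists_tk (S := S) (ℓ := (S.ltr x).1) x.2 ⟨p.1, hp⟩
    obtain ⟨u, hu, hu'⟩ := hsm τ (hst.2.1 hτ)
    have h2 := Off.eq hfree hτ.1 hu ((off_side hσ x).1.mono (parts_sub hτ))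
    rwa [← h2]
  have hax : (ao x).norm = N := by
    rcases max_choice (bo x).norm (ao x).norm with h2 | h2
    · omega
    · omega
  -- the tokens of `x` are used later
  have huse : ∃ y ∈ D', ∃ τ ∈ S.tk (S.ltr x).1 (!x.2), τ ∈ S.tk (S.ltr y).1 y.2 := by
    by_contra hcon
    push Not at hcon
    have h2 : S.tk (S.ltr x).1 (!x.2) ⊆ c' := by
      refine keep (D'.map S.ltr) (c := c₂) ?_ hr2 ?_
      · obtain ⟨-, -, rfl⟩ := hst
        exact Set.subset_union_right
      · intro z hz τ hτ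
        obtain ⟨y, hy, rfl⟩ := List.mem_map.1 hz
        exact hcon y hy τ hτ
    obtain ⟨p, hp⟩ := hst.1.1
    obtain ⟨τ, hτ, -⟩ := exists_tk (S := S) (ℓ := (S.ltr x).1) (!x.2) ⟨p.1, hp⟩
    have h3 := Off.eq hfree hτ.1 (h1 τ (h2 hτ)) ((off_side hσ x).2.mono (parts_sub hτ))
    rw [← h3, FreeGroup.norm_one] at hax
    omega
  obtain ⟨D₂, y, D₃, rfl, ⟨τ, hτ, hτ'⟩, hD₂⟩ := exists_first
    (fun y : (A × ℕ × FreeGroup A) × Bool => ∃ τ ∈ S.tk (S.ltr x).1 (!x.2),
      τ ∈ S.tk (S.ltr y).1 y.2) D' huse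
  refine ⟨D₁, x, D₂, y, D₃, rfl, ?_, ?_⟩
  · have h2 : ao x = bo y := Off.eq hfree hτ.1 ((off_side hσ x).2.mono (parts_sub hτ))
      ((off_side hσ y).1.mono (parts_sub hτ'))
    have h3 : (ao y).norm ≤ N := (le_max_right _ _).trans (hmax y (by simp))
    have h4 : (ao y).norm ≠ (bo y).norm := by
      rw [ao_eq]
      exact norm_gs_mul_ne _ _
    have h5 : ((y.1.1, y.2) : A × Bool) = (x.1.1, !x.2) := by
      refine eq_of_norm_lt (u := ao x) ?_ ?_
      · have h5 : (ao y).norm ≠ (ao x).norm := by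
          rw [h2]
          exact h4
        rw [h2, ← ao_eq, ← h2]
        omega
      · rw [← bo_eq]
        omega
    have h6 : y.1.1 = x.1.1 := (Prod.mk.inj h5).1
    have h7 : y.2 = !x.2 := (Prod.mk.inj h5).2
    obtain ⟨⟨a, v, u⟩, ε⟩ := x
    obtain ⟨⟨b, v', u'⟩, δ⟩ := y
    dsimp only at h6 h7
    subst h6 h7
    have h8 : u' = u := by
      cases ε
      · exact h2.symm
      · exact (mul_left_cancel h2).symm
    subst h8
    have h9 : v' = v := by
      obtain ⟨z, hz⟩ := hτ.1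
      have h10 := parts_sub hτ hz
      have h11 := parts_sub hτ' hz
      cases ε
      · exact h11.1.symm.trans h10.1
      · exact h11.1.symm.trans h10.1
    subst h9
    rfl
  · intro z hz
    rw [List.map_append] at hr2
    obtain ⟨c₃, hr3, -⟩ := run_append.1 hr2
    refine keep_R (ε := !x.2) hst.1.1 (D₂.map S.ltr) hc₂ ?_ hr3 ?_ (S.ltr z)
      (List.mem_map_of_mem hz)
    · obtain ⟨-, -, rfl⟩ := hst
      exact Set.subset_union_right
    · intro z' hz' τ hτ hτ'
      obtain ⟨y', hy', rfl⟩ := List.mem_map.1 hz'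
      exact hD₂ y' hy' ⟨τ, hτ, hτ'⟩

/-- **Kernel.** A run with constant displacements from displacement zero to displacement zero has
trivial product. -/
theorem wp_eq_one {Γ : Type} [Group Γ] {g : Lt A P → Γ}
    (hg : ∀ x y, R x y → g x * g y = g y * g x) (hσ : ∀ a p, S.σ a p = FreeGroup.of a • p)
    (hfree : ∀ (u : FreeGroup A) (p : P), u • p = p → u = 1) {c c' : Set (Set (P × P))}
    (hc : S.Valid c) (h0 : ∀ τ ∈ c, Off τ (1 : FreeGroup A))
    (h1 : ∀ τ ∈ c', Off τ (1 : FreeGroup A)) (n : ℕ) :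
    ∀ D : List ((A × ℕ × FreeGroup A) × Bool), D.length ≤ n → S.Run c (D.map S.ltr) c' →
      wp g (D.map S.ltr) = 1 := by
  induction n with
  | zero =>
    intro D hD _
    rw [List.eq_nil_of_length_eq_zero (Nat.le_zero.1 hD)]
    rfl
  | succ n ih =>
    intro D hD hrun
    by_cases hne : D = []
    · rw [hne]
      rfl
    · obtain ⟨D₁, x, D₂, y, D₃, rfl, hy, hR⟩ := exists_canc hσ hfree hc h0 h1 D hne hrun
      have e1 : (D₁ ++ x :: (D₂ ++ y :: D₃)).map S.ltr = D₁.map S.ltr ++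
          ((S.ltr x).1, (S.ltr x).2) :: (D₂.map S.ltr ++ ((S.ltr x).1, !(S.ltr x).2) ::
            D₃.map S.ltr) := by
        rw [List.map_append, List.map_cons, List.map_append, List.map_cons, hy]
      have hR' : ∀ z ∈ D₂.map S.ltr, R (S.ltr x).1 z.1 := fun z hz => by
        obtain ⟨z', hz', rfl⟩ := List.mem_map.1 hz
        exact hR z' hz'
      have e2 : (D₁ ++ (D₂ ++ D₃)).map S.ltr = D₁.map S.ltr ++ (D₂.map S.ltr ++ D₃.map S.ltr) := by
        rw [List.map_append, List.map_append]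
      rw [e1] at hrun ⊢
      rw [wp_canc hg _ _ _ _ _ hR', ← e2]
      refine ih _ ?_ ?_
      · simp only [List.length_append, List.length_cons] at hD ⊢
        omega
      · rw [e2]
        exact run_delete' hc hR' hrun

end Pool.Agent.ZT.Gr
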