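import Pool.Agent.ZT.Ker

/-!
# Realising local displacement functions by runs

`off` is a function which assigns to each particle its displacement. If it is local, then there is
a run which moves each particle `x` to the position `off x • x`.
-/

set_option autoImplicit false

namespace Pool.Agent.ZT.Gr

open Pool.Agent.TZ

variable {A P : Type} [MulAction (FreeGroup A) P] (S : Gr A P)

/-- The token of type `e` and displacement `u`. -/
def T (e : ℕ × (A → ℕ)) (u : FreeGroup A) : Set (P × P) :=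
  {z | S.ty z.1 = e ∧ z.2 = u⁻¹ • z.1}

/-- The state of a displacement function. -/
def St (off : P → FreeGroup A) : Set (Set (P × P)) :=
  {τ | τ.Nonempty ∧ ∃ e u, τ = S.T e u ∧ ∀ z ∈ τ, off z.2 = u}

variable {S}

theorem T_inj (hfree : ∀ (u : FreeGroup A) (p : P), u • p = p → u = 1) {e e' : ℕ × (A → ℕ)}
    {u u' : FreeGroup A} (hne : (S.T e u).Nonempty) (h : S.T e u = S.T e' u') :
    e = e' ∧ u = u' := by
  have h1 : Off (S.T e u) u := fun z hz => hz.2
  have h2 : Off (S.T e u) u' := fun z hz => by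
    rw [h] at hz
    exact hz.2
  refine ⟨?_, Off.eq hfree hne h1 h2⟩
  obtain ⟨z, hz⟩ := hne
  have h3 := hz.1
  rw [h] at hz
  exact h3.symm.trans hz.1

theorem σ_inv (hσ : ∀ a p, S.σ a p = FreeGroup.of a • p) (a : A) (p : P) :
    (S.σ a)⁻¹ p = (FreeGroup.of a)⁻¹ • p := by
  rw [eq_inv_smul_iff, ← hσ, pai]

/-- The tokens of the letters of constant displacement. -/
theorem tk_ML (a : A) (v : ℕ) (u : FreeGroup A) {τ : Set (P × P)} :
    τ ∈ S.tk (S.ML a v u) true ↔ τ.Nonempty ∧ ∃ e, e.2 a = v ∧ τ = S.T e u := by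
  constructor
  · rintro ⟨hne, e, rfl⟩
    have h1 : e.2 a = v := by
      obtain ⟨z, hz, hz'⟩ := hne
      rw [← hz', ← hz.1]
      rfl
    refine ⟨hne, e, h1, ?_⟩
    ext z
    constructor
    · rintro ⟨hz, hz'⟩
      exact ⟨hz', hz.2⟩
    · rintro ⟨hz', hz''⟩
      refine ⟨⟨?_, hz''⟩, hz'⟩
      rw [← h1, ← hz']
      rfl
  · rintro ⟨hne, e, h1, rfl⟩
    refine ⟨hne, e, ?_⟩
    ext z
    constructor
    · rintro ⟨hz', hz''⟩
      refine ⟨⟨?_, hz''⟩, hz'⟩
      rw [← h1, ← hz']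
      rfl
    · rintro ⟨hz, hz'⟩
      exact ⟨hz', hz.2⟩

theorem mem_sh_ML (hσ : ∀ a p, S.σ a p = FreeGroup.of a • p) (a : A) (v : ℕ) (u : FreeGroup A)
    (z : P × P) : z ∈ S.sh a (S.ML a v u).2 ↔
      S.ν z.1 = v ∧ z.2 = (FreeGroup.of a * u)⁻¹ • z.1 := by
  obtain ⟨p, x⟩ := z
  rw [mem_sh]
  change S.ν (S.σ a ((S.σ a)⁻¹ p)) = v ∧ x = u⁻¹ • (S.σ a)⁻¹ p ↔ _
  rw [pai, σ_inv hσ, smul_smul, ← mul_inv_rev]

theorem tk_ML' (hσ : ∀ a p, S.σ a p = FreeGroup.of a • p) (a : A) (v : ℕ) (u : FreeGroup A)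
    {τ : Set (P × P)} : τ ∈ S.tk (S.ML a v u) false ↔
      τ.Nonempty ∧ ∃ e, e.1 = v ∧ τ = S.T e (FreeGroup.of a * u) := by
  constructor
  · rintro ⟨hne, e, rfl⟩
    change (S.pt e (S.sh a (S.ML a v u).2)).Nonempty at hne
    have h1 : e.1 = v := by
      obtain ⟨z, hz, hz'⟩ := hne
      rw [← hz', ← ((mem_sh_ML hσ a v u z).1 hz).1]
      rfl
    refine ⟨hne, e, h1, ?_⟩
    ext z
    constructor
    · rintro ⟨hz, hz'⟩
      have h2 := (mem_sh_ML hσ a v u z).1 hz
      exact ⟨hz', h2.2⟩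
    · rintro ⟨hz', hz''⟩
      refine ⟨(mem_sh_ML hσ a v u z).2 ⟨?_, hz''⟩, hz'⟩
      rw [← h1, ← hz']
      rfl
  · rintro ⟨hne, e, h1, rfl⟩
    refine ⟨hne, e, ?_⟩
    ext z
    constructor
    · rintro ⟨hz', hz''⟩
      refine ⟨(mem_sh_ML hσ a v u z).2 ⟨?_, hz''⟩, hz'⟩
      rw [← h1, ← hz']
      rfl
    · rintro ⟨hz, hz'⟩
      have h2 := (mem_sh_ML hσ a v u z).1 hz
      exact ⟨hz', h2.2⟩

theorem isLet_ML {a : A} {v : ℕ} {u : FreeGroup A} (hne : (S.ML a v u).2.Nonempty) :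
    S.IsLet (S.ML a v u) := by
  refine ⟨hne, v, fun p => ?_⟩
  constructor
  · rintro ⟨x, hx⟩
    exact hx.1
  · intro h2
    exact ⟨u⁻¹ • p, h2, rfl⟩

/-- The tokens of the letter of a datum, before and after the step. -/
theorem tk_ltr (hσ : ∀ a p, S.σ a p = FreeGroup.of a • p) (x : (A × ℕ × FreeGroup A) × Bool)
    {τ : Set (P × P)} :
    (τ ∈ S.tk (S.ltr x).1 x.2 ↔ τ.Nonempty ∧ ∃ e : ℕ × (A → ℕ),
      (if x.2 then e.2 x.1.1 else e.1) = x.1.2.1 ∧ τ = S.T e (bo x)) ∧
    (τ ∈ S.tk (S.ltr x).1 (!x.2) ↔ τ.Nonempty ∧ ∃ e : ℕ × (A → ℕ),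
      (if x.2 then e.1 else e.2 x.1.1) = x.1.2.1 ∧ τ = S.T e (ao x)) := by
  obtain ⟨⟨a, v, u⟩, ε⟩ := x
  cases ε
  · exact ⟨tk_ML' hσ a v u, tk_ML a v u⟩
  · exact ⟨tk_ML a v u, tk_ML' hσ a v u⟩

/-- A run over a list of letters with independent tokens. -/
theorem run_list (D : List ((A × ℕ × FreeGroup A) × Bool)) :
    ∀ {c : Set (Set (P × P))}, (∀ x ∈ D, S.IsLet (S.ltr x).1) →
    (∀ x ∈ D, S.tk (S.ltr x).1 x.2 ⊆ c) →
    (D.Pairwise fun x y => ∀ τ ∈ S.tk (S.ltr x).1 x.2, τ ∉ S.tk (S.ltr y).1 y.2) →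
    (∀ x ∈ D, ∀ y ∈ D, ∀ τ ∈ S.tk (S.ltr x).1 (!x.2), τ ∉ S.tk (S.ltr y).1 y.2) →
    S.Run c (D.map S.ltr) ((c \ {τ | ∃ x ∈ D, τ ∈ S.tk (S.ltr x).1 x.2}) ∪
      {τ | ∃ x ∈ D, τ ∈ S.tk (S.ltr x).1 (!x.2)}) := by
  induction D with
  | nil =>
    intro c _ _ _ _
    change c = _
    simp
  | cons x D ih =>
    intro c h1 h2 h3 h4
    refine ⟨(c \ S.tk (S.ltr x).1 x.2) ∪ S.tk (S.ltr x).1 (!x.2),
      ⟨h1 x List.mem_cons_self, h2 x List.mem_cons_self, rfl⟩, ?_⟩
    rw [List.pairwise_cons] at h3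
    have h5 := ih (c := (c \ S.tk (S.ltr x).1 x.2) ∪ S.tk (S.ltr x).1 (!x.2))
      (fun y hy => h1 y (List.mem_cons_of_mem _ hy))
      (fun y hy τ hτ => Or.inl ⟨h2 y (List.mem_cons_of_mem _ hy) hτ, fun h => h3.1 y hy τ h hτ⟩)
      h3.2 (fun y hy z hz => h4 y (List.mem_cons_of_mem _ hy) z (List.mem_cons_of_mem _ hz))
    refine Eq.mp (congrArg (S.Run ((c \ S.tk (S.ltr x).1 x.2) ∪ S.tk (S.ltr x).1 (!x.2))
      (D.map S.ltr)) ?_) h5
    ext τ
    have e1 : (∃ y ∈ x :: D, τ ∈ S.tk (S.ltr y).1 y.2) ↔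
        (τ ∈ S.tk (S.ltr x).1 x.2 ∨ ∃ y ∈ D, τ ∈ S.tk (S.ltr y).1 y.2) := by
      simp only [List.mem_cons, exists_eq_or_imp]
    have e2 : (∃ y ∈ x :: D, τ ∈ S.tk (S.ltr y).1 (!y.2)) ↔
        (τ ∈ S.tk (S.ltr x).1 (!x.2) ∨ ∃ y ∈ D, τ ∈ S.tk (S.ltr y).1 (!y.2)) := by
      simp only [List.mem_cons, exists_eq_or_imp]
    have e3 : τ ∈ S.tk (S.ltr x).1 (!x.2) → ¬ ∃ y ∈ D, τ ∈ S.tk (S.ltr y).1 y.2 :=
      fun h6 ⟨y, hy, h7⟩ => h4 x List.mem_cons_self y (List.mem_cons_of_mem _ hy) τ h6 h7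
    change (((τ ∈ c ∧ τ ∉ S.tk (S.ltr x).1 x.2) ∨ τ ∈ S.tk (S.ltr x).1 (!x.2)) ∧
        ¬ ∃ y ∈ D, τ ∈ S.tk (S.ltr y).1 y.2) ∨ (∃ y ∈ D, τ ∈ S.tk (S.ltr y).1 (!y.2)) ↔
      (τ ∈ c ∧ ¬ ∃ y ∈ x :: D, τ ∈ S.tk (S.ltr y).1 y.2) ∨
        ∃ y ∈ x :: D, τ ∈ S.tk (S.ltr y).1 (!y.2)
    rw [e1, e2]
    generalize (τ ∈ S.tk (S.ltr x).1 (!x.2)) = a₁ at e3 ⊢
    generalize (∃ y ∈ D, τ ∈ S.tk (S.ltr y).1 y.2) = a₂ at e3 ⊢
    generalize (∃ y ∈ D, τ ∈ S.tk (S.ltr y).1 (!y.2)) = a₃
    generalize (τ ∈ S.tk (S.ltr x).1 x.2) = a₄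
    generalize (τ ∈ c) = a₅
    clear h1 h2 h3 h4 h5 e1 e2 ih
    tauto

variable [DecidableEq A]

variable (S) in
/-- Displacements near a point depend only on its label. -/
def Loc (off : P → FreeGroup A) (N : ℕ) : Prop :=
  ∀ p q, S.ν p = S.ν q → ∀ u : FreeGroup A, u.norm ≤ N → off (u⁻¹ • p) = off (u⁻¹ • q)

/-- The letters of the outer shell. -/
def Shell (S : Gr A P) (off : P → FreeGroup A) (n : ℕ) (x : (A × ℕ × FreeGroup A) × Bool) : Prop :=
  (S.ltr x).1.2.Nonempty ∧ (ao x).norm = n + 1 ∧ (bo x).norm = n ∧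
    ∀ z ∈ (S.ltr x).1.2, off z.2 = ao x

theorem finite_shell [Finite A] (hν : (Set.range S.ν).Finite) (off : P → FreeGroup A) (n : ℕ) :
    {x | Shell S off n x}.Finite := by
  have h1 : ((Set.univ : Set A) ×ˢ ((Set.range S.ν) ×ˢ {u : FreeGroup A | u.norm ≤ n + 1})).Finite :=
    Set.finite_univ.prod (hν.prod (finite_ball (n + 1)))
  refine (h1.prod (Set.finite_univ (α := Bool))).subset ?_
  rintro ⟨⟨a, v, u⟩, ε⟩ ⟨h2, h3, h4, -⟩
  refine ⟨⟨trivial, ?_, ?_⟩, trivial⟩
  · obtain ⟨z, hz⟩ := h2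
    exact ⟨S.σ a z.1, hz.1⟩
  · change u.norm ≤ n + 1
    cases ε
    · exact le_of_eq h3
    · change u.norm = n at h4
      omega

/-- The parent of the elements of norm `n + 1`. -/
noncomputable def par (n : ℕ) (u : FreeGroup A) : FreeGroup A :=
  open Classical in
  if h : ∃ (x : A × Bool) (v : FreeGroup A), u = gs x * v ∧ v.norm = n ∧ u.norm = n + 1 then
    h.choose_spec.choose else u

theorem par_of_ne {n : ℕ} {u : FreeGroup A} (h : u.norm ≠ n + 1) : par n u = u :=
  dif_neg fun ⟨_, _, _, _, h'⟩ => h h'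

theorem par_spec {n : ℕ} {u : FreeGroup A} (h : u.norm = n + 1) :
    ∃ x : A × Bool, u = gs x * par n u ∧ (par n u).norm = n := by
  have h1 : ∃ (x : A × Bool) (v : FreeGroup A), u = gs x * v ∧ v.norm = n ∧ u.norm = n + 1 := by
    obtain ⟨x, v, h2, h3⟩ := exists_parent (u := u) (by
      rintro rfl
      rw [FreeGroup.norm_one] at h
      omega)
    exact ⟨x, v, h2, by omega, h⟩
  have h2 : par n u = h1.choose_spec.choose := dif_pos h1
  have h3 := h1.choose_spec.choose_spec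
  rw [h2]
  exact ⟨_, h3.1, h3.2.1⟩

theorem par_gs {n : ℕ} {x : A × Bool} {v : FreeGroup A} (hv : v.norm = n)
    (h : (gs x * v).norm = n + 1) : par n (gs x * v) = v := by
  obtain ⟨y, h1, h2⟩ := par_spec h
  refine (parent_unique h1 ?_ ?_).2.symm
  · omega
  · rw [← h1]
    omega

theorem gs_injective {x y : A × Bool} (h : gs x = gs y) : x = y := by
  have h1 := congrArg FreeGroup.toWord h
  unfold gs at h1
  rw [FreeGroup.toWord_mk, FreeGroup.toWord_mk, FreeGroup.reduce_singleton,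
    FreeGroup.reduce_singleton] at h1
  exact (List.cons.inj h1).1

/-- The data are determined by the displacements and the label. -/
theorem data_ext {x y : (A × ℕ × FreeGroup A) × Bool} (hb : bo x = bo y) (ha : ao x = ao y)
    (hv : x.1.2.1 = y.1.2.1) : x = y := by
  have h1 : gs (x.1.1, x.2) = gs (y.1.1, y.2) := by
    have h2 := ao_eq x
    have h3 := ao_eq y
    rw [← ha, ← hb, h2] at h3
    exact mul_right_cancel h3
  have h2 := gs_injective h1
  obtain ⟨⟨a, v, u⟩, ε⟩ := x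
  obtain ⟨⟨b, v', u'⟩, δ⟩ := y
  obtain ⟨rfl, rfl⟩ := Prod.mk.inj h2
  obtain rfl : v = v' := hv
  have h3 : u = u' := by
    cases ε
    · exact ha
    · exact hb
  subst h3
  rfl

theorem im_ltr (x : (A × ℕ × FreeGroup A) × Bool) (ε : Bool) {τ : Set (P × P)}
    (hτ : τ ∈ S.tk (S.ltr x).1 ε) {off : P → FreeGroup A} {u : FreeGroup A}
    (h : ∀ z ∈ (S.ltr x).1.2, off z.2 = u) : ∀ z ∈ τ, off z.2 = u := by
  rintro ⟨p, y⟩ hz
  obtain ⟨p', hp'⟩ := im_tk hτ ⟨p, hz⟩
  exact h (p', y) hp'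

/-- **One shell.** -/
theorem run_shell [Finite A] (hσ : ∀ a p, S.σ a p = FreeGroup.of a • p)
    (hfree : ∀ (u : FreeGroup A) (p : P), u • p = p → u = 1) (hν : (Set.range S.ν).Finite)
    {off : P → FreeGroup A} {n : ℕ} (hle : ∀ x, (off x).norm ≤ n + 1)
    (hloc : Loc S off (n + 1)) : ∃ D : List ((A × ℕ × FreeGroup A) × Bool),
      S.Run (S.St fun x => par n (off x)) (D.map S.ltr) (S.St off) := by
  classical
  have hfin := finite_shell (A := A) hν off n
  have hmem : ∀ x, x ∈ hfin.toFinset.toList ↔ Shell S off n x := fun x => by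
    rw [Finset.mem_toList, Set.Finite.mem_toFinset]
    rfl
  refine ⟨hfin.toFinset.toList, ?_⟩
  have h0 := run_list (S := S) hfin.toFinset.toList (c := S.St fun x => par n (off x)) ?_ ?_ ?_ ?_
  rotate_left
  · intro x hx
    exact isLet_ML ((hmem x).1 hx).1
  · -- the tokens are there
    intro x hx τ hτ
    obtain ⟨h1, h2, h3, h4⟩ := (hmem x).1 hx
    obtain ⟨hne, e, -, rfl⟩ := (tk_ltr hσ x).1.1 hτ
    refine ⟨hne, e, bo x, rfl, fun z hz => ?_⟩
    have h5 := im_ltr x x.2 hτ h4 z hz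
    dsimp only
    rw [h5, ao_eq, par_gs h3 (by rw [← ao_eq]; exact h2)]
  · -- they are different
    refine (Finset.nodup_toList _).pairwise_of_forall_ne ?_
    intro x hx y hy hxy τ hτ hτ'
    obtain ⟨-, -, -, h4⟩ := (hmem x).1 hx
    obtain ⟨-, -, -, h4'⟩ := (hmem y).1 hy
    obtain ⟨hne, e, he, he'⟩ := (tk_ltr hσ x).1.1 hτ
    obtain ⟨-, f, hf, hf'⟩ := (tk_ltr hσ y).1.1 hτ'
    obtain ⟨h5, h6⟩ := T_inj hfree (he' ▸ hne) (he'.symm.trans hf')
    obtain ⟨z, hz⟩ := hne
    have h7 : ao x = ao y := (im_ltr x x.2 hτ h4 z hz).symm.trans (im_ltr y y.2 hτ' h4' z hz)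
    refine hxy (data_ext h6 h7 ?_)
    have h8 : ((x.1.1, x.2) : A × Bool) = (y.1.1, y.2) := gs_injective (by
      have h2 := ao_eq x
      have h3 := ao_eq y
      rw [← h7, ← h6, h2] at h3
      exact mul_right_cancel h3)
    obtain ⟨h9, h10⟩ := Prod.mk.inj h8
    rw [← he, ← hf, h5, h9, h10]
  · intro x hx y hy τ hτ hτ'
    obtain ⟨-, h2, -, -⟩ := (hmem x).1 hx
    obtain ⟨-, -, h3, -⟩ := (hmem y).1 hy
    obtain ⟨hne, e, he, he'⟩ := (tk_ltr hσ x).2.1 hτ
    obtain ⟨-, f, hf, hf'⟩ := (tk_ltr hσ y).1.1 hτ'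
    obtain ⟨-, h6⟩ := T_inj hfree (he' ▸ hne) (he'.symm.trans hf')
    rw [h6] at h2
    omega
  · -- the last state
    refine Eq.mp (congrArg (S.Run _ _) ?_) h0
    ext τ
    constructor
    · rintro (⟨⟨hne, e, u, rfl, h1⟩, h2⟩ | ⟨x, hx, h1⟩)
      · refine ⟨hne, e, u, rfl, fun z hz => ?_⟩
        by_contra hcon
        have h3 : (off z.2).norm = n + 1 := by
          by_contra h4
          have h5 := h1 z hz
          dsimp only at h5
          rw [par_of_ne h4] at h5
          exact hcon h5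
        obtain ⟨⟨a, b⟩, h4, h5⟩ := par_spec h3
        have h6 : par n (off z.2) = u := h1 z hz
        rw [h6] at h4 h5
        refine h2 ?_
        cases b
        · -- the letter goes backwards
          have h7 : (FreeGroup.of a) * off z.2 = u := by
            rw [h4]
            exact mul_inv_cancel_left _ _
          have h8 : Shell S off n ((a, e.1, off z.2), false) := by
            refine ⟨⟨((FreeGroup.of a)⁻¹ • z.1, (off z.2)⁻¹ • (FreeGroup.of a)⁻¹ • z.1), ?_,
              rfl⟩, h3, ?_, ?_⟩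
            · dsimp only
              rw [hσ, smul_inv_smul, ← hz.1]
              rfl
            · change (FreeGroup.of a * off z.2).norm = n
              rw [h7]
              exact h5
            · rintro ⟨p, x⟩ ⟨h10, h11⟩
              dsimp only at h10 h11
              subst h11
              have h12 := hloc (S.σ a p) z.1 (by
                rw [h10, ← hz.1]
                rfl) u (by omega)
              have h13 : u⁻¹ • S.σ a p = (off z.2)⁻¹ • p := by
                rw [hσ, smul_smul, ← h7, mul_inv_rev, inv_mul_cancel_right]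
              rw [← hz.2, h13] at h12
              exact h12
          refine ⟨_, (hmem _).2 h8, ?_⟩
          refine (tk_ltr hσ _).1.2 ⟨hne, e, rfl, ?_⟩
          congr 1
          exact h7.symm
        · have h7 : (FreeGroup.of a) * u = off z.2 := h4.symm
          have h8 : Shell S off n ((a, e.2 a, u), true) := by
            refine ⟨⟨z, ?_, hz.2⟩, ?_, h5, ?_⟩
            · rw [← hz.1]
              rfl
            · change (FreeGroup.of a * u).norm = n + 1
              rw [h7]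
              exact h3
            · rintro ⟨p, x⟩ ⟨h10, h11⟩
              dsimp only at h10 h11
              subst h11
              have h12 := hloc (S.σ a p) (S.σ a z.1) (by
                rw [h10, ← hz.1]
                rfl) (off z.2) (le_of_eq h3)
              change off (u⁻¹ • p) = FreeGroup.of a * u
              rw [h7]
              have h13 : ∀ q : P, (off z.2)⁻¹ • S.σ a q = u⁻¹ • q := fun q => by
                rw [hσ, smul_smul, ← h7, mul_inv_rev, inv_mul_cancel_right]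
              rw [h13, h13, ← hz.2] at h12
              exact h12
          refine ⟨_, (hmem _).2 h8, ?_⟩
          exact (tk_ltr hσ _).1.2 ⟨hne, e, rfl, rfl⟩
      · obtain ⟨-, -, -, h4⟩ := (hmem x).1 hx
        obtain ⟨hne, e, he, rfl⟩ := (tk_ltr hσ x).2.1 h1
        exact ⟨hne, e, ao x, rfl, im_ltr x (!x.2) h1 h4⟩
    · rintro ⟨hne, e, u, rfl, h1⟩
      obtain ⟨z, hz⟩ := id hne
      have hu : u.norm ≤ n + 1 := by
        rw [← h1 z hz]
        exact hle _
      by_cases hn : u.norm = n + 1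
      · refine Or.inr ?_
        obtain ⟨⟨a, b⟩, h4, h5⟩ := par_spec hn
        cases b
        · have h7 : (FreeGroup.of a) * u = par n u := by
            conv_lhs => rw [h4]
            exact mul_inv_cancel_left _ _
          have h8 : Shell S off n ((a, e.2 a, u), false) := by
            refine ⟨⟨z, ?_, hz.2⟩, hn, ?_, ?_⟩
            · rw [← hz.1]
              rfl
            · change (FreeGroup.of a * u).norm = n
              rw [h7]
              exact h5
            · rintro ⟨p, x⟩ ⟨h10, h11⟩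
              dsimp only at h10 h11
              subst h11
              have h12 := hloc (S.σ a p) (S.σ a z.1) (by
                rw [h10, ← hz.1]
                rfl) (par n u) (by omega)
              have h13 : ∀ q : P, (par n u)⁻¹ • S.σ a q = u⁻¹ • q := fun q => by
                rw [hσ, smul_smul, ← h7, mul_inv_rev, inv_mul_cancel_right]
              rw [h13, h13, ← hz.2] at h12
              change off (u⁻¹ • p) = u
              rw [h12]
              exact h1 z hz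
          refine ⟨_, (hmem _).2 h8, ?_⟩
          exact (tk_ltr hσ _).2.2 ⟨hne, e, rfl, rfl⟩
        · have h7 : (FreeGroup.of a) * par n u = u := h4.symm
          have h8 : Shell S off n ((a, e.1, par n u), true) := by
            refine ⟨⟨((FreeGroup.of a)⁻¹ • z.1, (par n u)⁻¹ • (FreeGroup.of a)⁻¹ • z.1), ?_,
              rfl⟩, ?_, h5, ?_⟩
            · dsimp only
              rw [hσ, smul_inv_smul, ← hz.1]
              rfl
            · change (FreeGroup.of a * par n u).norm = n + 1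
              rw [h7]
              exact hn
            · rintro ⟨p, x⟩ ⟨h10, h11⟩
              dsimp only at h10 h11
              subst h11
              have h12 := hloc (S.σ a p) z.1 (by
                rw [h10, ← hz.1]
                rfl) u (by omega)
              have h13 : u⁻¹ • S.σ a p = (par n u)⁻¹ • p := by
                have h14 : u⁻¹ * FreeGroup.of a = (par n u)⁻¹ := by
                  conv_lhs => rw [← h7]
                  rw [mul_inv_rev, inv_mul_cancel_right]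
                rw [hσ, smul_smul, h14]
              rw [← hz.2, h13] at h12
              change off ((par n u)⁻¹ • p) = FreeGroup.of a * par n u
              rw [h7, h12]
              exact h1 z hz
          refine ⟨_, (hmem _).2 h8, ?_⟩
          refine (tk_ltr hσ _).2.2 ⟨hne, e, rfl, ?_⟩
          congr 1
      · refine Or.inl ⟨⟨hne, e, u, rfl, fun z hz => ?_⟩, ?_⟩
        · dsimp only
          rw [h1 z hz, par_of_ne hn]
        · rintro ⟨x, hx, hx'⟩
          obtain ⟨-, h3, -, h4⟩ := (hmem x).1 hx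
          have h5 := im_ltr x x.2 hx' h4 z hz
          rw [h1 z hz] at h5
          rw [← h5] at h3
          exact hn h3

theorem st_one : S.St (fun _ => (1 : FreeGroup A)) = S.parts {z | z.2 = z.1} := by
  have h1 : ∀ e, S.T e 1 = S.pt e {z | z.2 = z.1} := fun e => by
    ext z
    constructor
    · rintro ⟨h1, h2⟩
      rw [inv_one, one_smul] at h2
      exact ⟨h2, h1⟩
    · rintro ⟨h2, h1⟩
      refine ⟨h1, ?_⟩
      rw [inv_one, one_smul]
      exact h2
  ext τ
  constructor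
  · rintro ⟨hne, e, u, rfl, h2⟩
    refine ⟨hne, e, ?_⟩
    obtain ⟨z, hz⟩ := hne
    rw [← h2 z hz, h1]
  · rintro ⟨hne, e, rfl⟩
    exact ⟨hne, e, 1, (h1 e).symm, fun _ _ => rfl⟩

theorem st_eq {off : P → FreeGroup A} {N : ℕ} (hle : ∀ x, (off x).norm ≤ N)
    (hloc : Loc S off N) (q : Equiv.Perm P) (hq : ∀ x, q (off x • x) = x) :
    S.St off = S.parts {z | z.2 = q z.1} := by
  have h1 : ∀ e u, (∀ z ∈ S.T e u, off z.2 = u) → S.T e u = S.pt e {z | z.2 = q z.1} := by
    intro e u h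
    have h2 : ∀ p, S.ty p = e → q p = u⁻¹ • p := fun p hp => by
      have h3 := h (p, u⁻¹ • p) ⟨hp, rfl⟩
      have h4 := hq (u⁻¹ • p)
      rw [h3, smul_inv_smul] at h4
      exact h4
    ext z
    constructor
    · rintro ⟨h3, h4⟩
      exact ⟨h4.trans (h2 _ h3).symm, h3⟩
    · rintro ⟨h3, h4⟩
      refine ⟨h4, ?_⟩
      rw [← h2 _ h4]
      exact h3
  ext τ
  constructor
  · rintro ⟨hne, e, u, rfl, h2⟩
    exact ⟨hne, e, h1 e u h2⟩
  · rintro ⟨hne, e, rfl⟩
    obtain ⟨z₀, hz₀⟩ := id hne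
    have h3 : z₀.1 = off z₀.2 • z₀.2 := q.injective (by
      rw [hq]
      exact hz₀.1.symm)
    have h4 : z₀.2 = (off z₀.2)⁻¹ • z₀.1 := by
      conv_rhs => rw [h3]
      rw [inv_smul_smul]
    have h5 : ∀ z ∈ S.T e (off z₀.2), off z.2 = off z₀.2 := by
      rintro z ⟨h6, h7⟩
      have h8 := hloc z.1 z₀.1 (by
        rw [← hz₀.2] at h6
        exact congrArg Prod.fst h6) (off z₀.2) (hle _)
      rw [← h4] at h8
      rw [h7]
      exact h8
    exact ⟨hne, e, off z₀.2, (h1 e _ h5).symm, fun z hz => h5 z (by rwa [h1 e _ h5])⟩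

theorem exists_run_st [Finite A] (hσ : ∀ a p, S.σ a p = FreeGroup.of a • p)
    (hfree : ∀ (u : FreeGroup A) (p : P), u • p = p → u = 1) (hν : (Set.range S.ν).Finite)
    (n : ℕ) : ∀ off : P → FreeGroup A, (∀ x, (off x).norm ≤ n) → Loc S off n →
      ∃ D : List ((A × ℕ × FreeGroup A) × Bool),
        S.Run (S.St fun _ => 1) (D.map S.ltr) (S.St off) := by
  induction n with
  | zero =>
    intro off h _
    refine ⟨[], ?_⟩
    have h1 : off = fun _ => 1 := funext fun x => FreeGroup.norm_eq_zero.1 (Nat.le_zero.1 (h x))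
    rw [h1]
    exact rfl
  | succ n ih =>
    intro off h hloc
    obtain ⟨D, hD⟩ := ih (fun x => par n (off x)) (fun x => by
      by_cases h1 : (off x).norm = n + 1
      · obtain ⟨-, -, h2⟩ := par_spec h1
        exact h2.le
      · rw [par_of_ne h1]
        have := h x
        omega) (fun p q hpq u hu => by
      dsimp only
      rw [hloc p q hpq u (by omega)])
    obtain ⟨D', hD'⟩ := run_shell hσ hfree hν h hloc
    refine ⟨D ++ D', ?_⟩
    rw [List.map_append]
    exact run_append.2 ⟨_, hD, hD'⟩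

/-- **Surjectivity.** A permutation whose inverse moves the points by a local bounded displacement
is realised by a run. -/
theorem exists_run [Finite A] (hσ : ∀ a p, S.σ a p = FreeGroup.of a • p)
    (hfree : ∀ (u : FreeGroup A) (p : P), u • p = p → u = 1) (hν : (Set.range S.ν).Finite)
    {off : P → FreeGroup A} {N : ℕ} (hle : ∀ x, (off x).norm ≤ N) (hloc : Loc S off N)
    (q : Equiv.Perm P) (hq : ∀ x, q (off x • x) = x) :
    ∃ D : List ((A × ℕ × FreeGroup A) × Bool),
      S.Run (S.parts {z | z.2 = z.1}) (D.map S.ltr) (S.parts {z | z.2 = q z.1}) := by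
  rw [← st_one, ← st_eq hle hloc q hq]
  exact exists_run_st hσ hfree hν N off hle hloc

end Pool.Agent.ZT.Gr
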