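import Pool.Agent.ZT.Win
import Pool.Agent.ZT.Surj

/-!
# The pieces of the letters of a run have constant displacement

`S` and `S'` have the same permutations; the labels of `S'` determine the labels of `S` at
bounded distance.
-/

set_option autoImplicit false

namespace Pool.Agent.ZT.Gr

open Pool.Agent.TZ

variable {A P : Type} [MulAction (FreeGroup A) P]

/-- The piece of a letter with the label `v` of `S'`. -/
def piece (S' : Gr A P) (ℓ : Lt A P) (v : ℕ) : Lt A P :=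
  (ℓ.1, {z | z ∈ ℓ.2 ∧ S'.ν (S'.σ ℓ.1 z.1) = v})

variable {S S' : Gr A P}

theorem mv_eq (hσ : ∀ a p, S.σ a p = FreeGroup.of a • p) (u : List (A × Bool)) (x : P) :
    S.mv u x = (FreeGroup.mk u : FreeGroup A) • x := by
  induction u with
  | nil => exact (one_smul _ x).symm
  | cons z u ih =>
    have h1 : (FreeGroup.mk (z :: u) : FreeGroup A) = gs z * FreeGroup.mk u := rfl
    rw [mv_cons, ih, h1, mul_smul]
    obtain ⟨a, b⟩ := z
    cases b
    · exact σ_inv hσ a _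
    · exact hσ a _

/-- A piece of a letter has constant displacement. -/
theorem piece_eq (hσ : ∀ a p, S.σ a p = FreeGroup.of a • p)
    (hσ' : ∀ a p, S'.σ a p = FreeGroup.of a • p)
    (hfree : ∀ (u : FreeGroup A) (p : P), u • p = p → u = 1) {c : Set (Set (P × P))}
    (hc : S.Valid c) {N : ℕ} (hwin : S.Win N c) {ℓ : Lt A P} {ε : Bool} (hs : S.tk ℓ ε ⊆ c)
    (hfine : ∀ p p', S'.ν p = S'.ν p' → S.Near (2 * N + 2) p p') (v : ℕ)
    (hne : (S'.piece ℓ v).2.Nonempty) : ∃ u, S'.piece ℓ v = S'.ML ℓ.1 v u := by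
  obtain ⟨⟨p₀, x₀⟩, h0, hv0⟩ := hne
  -- the position of `x₀`
  obtain ⟨q₀, hq₀, hq₀'⟩ : ∃ q₀, (q₀, x₀) ∈ S.side ℓ ε ∧
      q₀ = if ε then p₀ else FreeGroup.of ℓ.1 • p₀ := by
    cases ε
    · exact ⟨_, mem_sh'.2 h0, hσ _ _⟩
    · exact ⟨_, h0, rfl⟩
  obtain ⟨τ, hτ, w, hw, h1, -⟩ := hwin x₀ x₀ fun _ _ => rfl
  have hτ₀ := pt_mem_parts (S := S) hq₀
  have h2 := hc.dis τ hτ _ (hs hτ₀) x₀ ⟨_, h1⟩ ⟨q₀, hq₀, rfl⟩
  have h3 : S.mv w x₀ = q₀ := by
    rw [h2] at h1
    exact (hc.tok _ (hs hτ₀)).inj _ _ _ h1 ⟨hq₀, rfl⟩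
  rw [mv_eq hσ] at h3
  obtain ⟨u, hu⟩ : ∃ u : FreeGroup A, u = if ε then FreeGroup.mk w else
      (FreeGroup.of ℓ.1)⁻¹ * FreeGroup.mk w := ⟨_, rfl⟩
  have hpx : p₀ = u • x₀ := by
    cases ε
    · have hu' : u = (FreeGroup.of ℓ.1)⁻¹ * FreeGroup.mk w := hu
      have hq' : q₀ = FreeGroup.of ℓ.1 • p₀ := hq₀'
      rw [hu', mul_smul, h3, hq', inv_smul_smul]
    · have hu' : u = FreeGroup.mk w := hu
      have hq' : q₀ = p₀ := hq₀'
      rw [hu', h3, hq']
  have hx₀ : x₀ = u⁻¹ • p₀ := by rw [hpx, inv_smul_smul]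
  -- the particles with the same labels
  have key : ∀ p, S'.ν (S'.σ ℓ.1 p) = v → (p, u⁻¹ • p) ∈ ℓ.2 := by
    intro p hp
    have hnear : S.Near (N + 1) x₀ (u⁻¹ • p) := by
      intro w' hw'
      obtain ⟨w'', hw'', hlen⟩ : ∃ w'' : List (A × Bool),
          u⁻¹ * (FreeGroup.of ℓ.1)⁻¹ = FreeGroup.mk w'' ∧ w''.length ≤ N + 1 := by
        cases ε
        · refine ⟨FreeGroup.invRev w, ?_, ?_⟩
          · have hu' : u = (FreeGroup.of ℓ.1)⁻¹ * FreeGroup.mk w := hu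
            rw [hu', ← FreeGroup.inv_mk]
            group
          · rw [FreeGroup.invRev_length]
            omega
        · refine ⟨FreeGroup.invRev w ++ [(ℓ.1, false)], ?_, ?_⟩
          · have hu' : u = FreeGroup.mk w := hu
            rw [hu', FreeGroup.inv_mk, ← FreeGroup.mul_mk]
            rfl
          · rw [List.length_append, FreeGroup.invRev_length]
            change w.length + 1 ≤ N + 1
            omega
      have h4 : ∀ r : P, S.mv w' (u⁻¹ • r) = S.mv (w' ++ w'') (FreeGroup.of ℓ.1 • r) := by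
        intro r
        rw [mv_eq hσ, mv_eq hσ, ← FreeGroup.mul_mk, ← hw'', smul_smul, smul_smul]
        congr 1
        group
      have h5 := hfine (S'.σ ℓ.1 p₀) (S'.σ ℓ.1 p) (hv0.trans hp.symm) (w' ++ w'') (by
        rw [List.length_append]
        omega)
      rw [hσ', hσ', ← h4, ← h4, ← hx₀] at h5
      exact h5
    obtain ⟨τ₁, hτ₁, w₁, -, h6, h7⟩ := hwin x₀ (u⁻¹ • p) hnear
    have h8 := hc.dis τ₁ hτ₁ _ (hs hτ₀) x₀ ⟨_, h6⟩ ⟨q₀, hq₀, rfl⟩
    have h9 : S.mv w₁ x₀ = q₀ := by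
      rw [h8] at h6
      exact (hc.tok _ (hs hτ₀)).inj _ _ _ h6 ⟨hq₀, rfl⟩
    rw [mv_eq hσ, ← h3] at h9
    have h10 : (FreeGroup.mk w₁ : FreeGroup A) = FreeGroup.mk w := by
      have h11 : ((FreeGroup.mk w)⁻¹ * FreeGroup.mk w₁ : FreeGroup A) • x₀ = x₀ := by
        rw [mul_smul, h9, inv_smul_smul]
      have h12 := hfree _ _ h11
      exact (inv_mul_eq_one.1 h12).symm
    rw [h8, mv_eq hσ, h10] at h7
    have h13 : ((FreeGroup.mk w : FreeGroup A) • u⁻¹ • p, u⁻¹ • p) ∈ S.side ℓ ε := h7.1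
    cases ε
    · have hu' : u = (FreeGroup.of ℓ.1)⁻¹ * FreeGroup.mk w := hu
      have h14 : (FreeGroup.mk w : FreeGroup A) • u⁻¹ • p = S.σ ℓ.1 p := by
        have h15 : (FreeGroup.mk w : FreeGroup A) = FreeGroup.of ℓ.1 * u := by
          rw [hu', mul_inv_cancel_left]
        rw [h15, mul_smul, smul_inv_smul, hσ]
      rw [h14] at h13
      exact mem_sh'.1 h13
    · have hu' : u = FreeGroup.mk w := hu
      rw [← hu', smul_inv_smul] at h13
      exact h13
  refine ⟨u, ?_⟩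
  have hfn : ∀ p x x', (p, x) ∈ ℓ.2 → (p, x') ∈ ℓ.2 → x = x' := by
    intro p x x' h4 h5
    have h6 := hc.side_props hs
    cases ε
    · exact h6.1 _ _ _ (mem_sh'.2 h4) (mem_sh'.2 h5)
    · exact h6.1 _ _ _ h4 h5
  unfold piece ML
  congr 1
  ext ⟨p, x⟩
  constructor
  · rintro ⟨h4, h5⟩
    exact ⟨h5, hfn p x _ h4 (key p h5)⟩
  · rintro ⟨h5, h4⟩
    change x = u⁻¹ • p at h4
    rw [h4]
    exact ⟨key p h5, h5⟩

/-- The pieces of the letters of a run have constant displacements. -/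
theorem run_piece (hσ : ∀ a p, S.σ a p = FreeGroup.of a • p)
    (hσ' : ∀ a p, S'.σ a p = FreeGroup.of a • p)
    (hfree : ∀ (u : FreeGroup A) (p : P), u • p = p → u = 1) (w : List (Lt A P × Bool)) :
    ∀ {c c' : Set (Set (P × P))} {N : ℕ}, S.Valid c → S.Win N c → S.Run c w c' →
    (∀ p p', S'.ν p = S'.ν p' → S.Near (2 * (N + w.length) + 2) p p') →
    ∀ z ∈ w, ∀ v, (S'.piece z.1 v).2.Nonempty → ∃ u, S'.piece z.1 v = S'.ML z.1.1 v u := by
  induction w with
  | nil => simp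
  | cons y w ih =>
    rintro c c' N hc hwin ⟨c₁, h1, h2⟩ hfine z hz v hne
    rcases List.mem_cons.1 hz with rfl | hz
    · exact piece_eq hσ hσ' hfree hc hwin h1.2.1
        (fun p p' h => (hfine p p' h).mono (by
          rw [List.length_cons]
          omega)) v hne
    · refine ih (N := N + 1) (hc.step h1) (hwin.step h1) h2 (fun p p' h => ?_) z hz v hne
      have e : 2 * (N + 1 + w.length) + 2 = 2 * (N + (y :: w).length) + 2 := by
        rw [List.length_cons]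
        omega
      rw [e]
      exact hfine p p' h

end Pool.Agent.ZT.Gr
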