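import Pool.Agent.ZT.Tr
import Pool.Agent.ZT.Piece

/-!
# The kernel in the limit

An element of a level group whose permutation is trivial becomes trivial at all sufficiently fine
levels.
-/

set_option autoImplicit false

namespace Pool.Agent.ZT.Gr

open Pool.Agent.TZ

variable {A P : Type} [MulAction (FreeGroup A) P] {S : Gr A P}

theorem exists_map_eq {α β : Type*} (f : α → β) (l : List β) (h : ∀ y ∈ l, ∃ x, f x = y) :
    ∃ l' : List α, l'.map f = l := by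
  induction l with
  | nil => exact ⟨[], rfl⟩
  | cons y l ih =>
    obtain ⟨x, hx⟩ := h y List.mem_cons_self
    obtain ⟨l', hl'⟩ := ih fun z hz => h z (List.mem_cons_of_mem _ hz)
    exact ⟨x :: l', by rw [List.map_cons, hx, hl']⟩

theorem mem_pw {T : Gr A P} {ℓ : Lt A P} {n : ℕ} {y : Lt A P × Bool} (h : y ∈ T.pw ℓ n) :
    ∃ v, y = (T.piece ℓ v, true) ∧ (T.piece ℓ v).2.Nonempty := by
  unfold pw at h
  obtain ⟨v, -, hv⟩ := List.mem_flatMap.1 h
  split_ifs at hv with h1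
  · exact ⟨v, List.mem_singleton.1 hv, h1⟩
  · exact absurd hv List.not_mem_nil

theorem mem_rfw {T : Gr A P} {n : ℕ} {w : List (Lt A P × Bool)} {y : Lt A P × Bool}
    (h : y ∈ T.rfw n w) : ∃ z ∈ w, ∃ v, y.1 = T.piece z.1 v ∧ (T.piece z.1 v).2.Nonempty := by
  unfold rfw at h
  obtain ⟨z, hz, hy⟩ := List.mem_flatMap.1 h
  refine ⟨z, hz, ?_⟩
  split_ifs at hy with h1
  · obtain ⟨v, rfl, h2⟩ := mem_pw hy
    exact ⟨v, rfl, h2⟩
  · unfold rev at hy
    rw [List.mem_reverse, List.mem_map] at hy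
    obtain ⟨y', hy', rfl⟩ := hy
    obtain ⟨v, rfl, h2⟩ := mem_pw hy'
    exact ⟨v, rfl, h2⟩

theorem off_B_one {τ : Set (P × P)} (h : τ ∈ S.B 1) : Off τ (1 : FreeGroup A) := by
  intro z hz
  have h1 : z.2 = z.1 := parts_sub h hz
  rw [h1, inv_one, one_smul]

theorem B_one_eq : S.B 1 = S.parts {z : P × P | z.1 = z.2} := by
  unfold B
  congr 1
  ext z
  exact ⟨fun h => Eq.symm h, fun h => Eq.symm h⟩

/-- **The kernel.** -/
theorem trA_eq_one [DecidableEq A] (hσ : ∀ a p, S.σ a p = FreeGroup.of a • p)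
    (hfree : ∀ (u : FreeGroup A) (p : P), u • p = p → u = 1) {x : S.Am} (hx : x ∈ S.D)
    (hx1 : (x.right : Equiv.Perm P) = 1) :
    ∃ m : ℕ, ∀ (μ : P → ℕ) (φ : ℕ → ℕ) (n : ℕ), (∀ p, S.ν p = φ (μ p)) → (∀ p, μ p < n) →
      (∀ p p', μ p = μ p' → S.Near m p p') → S.trA μ n x = 1 := by
  obtain ⟨w, hw, hwp⟩ := hx
  rw [hx1] at hw
  refine ⟨2 * (0 + w.length) + 2, fun μ φ n hφ hn hnear => ?_⟩
  have hvB : S.Valid (S.B 1) := valid_B (one_mem S.Ln)
  obtain ⟨hrun, hinj⟩ := hvB.run_re hφ hn w hw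
  rw [← B_re hφ] at hrun
  have hwin : S.Win 0 (S.B 1) := by
    rw [B_one_eq]
    exact win_diag
  have hpc := run_piece (S' := S.re μ) hσ hσ hfree w hvB hwin hw fun p p' h => hnear p p' h
  obtain ⟨D, hD⟩ := exists_map_eq (S.re μ).ltr ((S.re μ).rfw n w) fun y hy => by
    obtain ⟨z, hz, v, h1, h2⟩ := mem_rfw hy
    obtain ⟨u, hu⟩ := hpc z hz v h2
    refine ⟨((z.1.1, v, u), y.2), ?_⟩
    unfold ltr
    refine Prod.ext ?_ rfl
    dsimp only
    rw [h1, hu]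
  have hone : wp (gen R) ((S.re μ).rfw n w) = 1 := by
    rw [← hD] at hrun ⊢
    exact wp_eq_one (S := S.re μ) (g := gen R) (fun _ _ h => gen_comm h) hσ hfree
      (valid_B (one_mem (S.re μ).Ln)) (fun τ hτ => off_B_one hτ) (fun τ hτ => off_B_one hτ)
      D.length D le_rfl hrun
  refine SemidirectProduct.ext ?_ ?_
  · rw [trA_left, ← hwp, ← wp_rfw _ _ _ hinj, hone]
    rfl
  · refine Subtype.ext ?_
    rw [trA_right, hx1]
    rfl

end Pool.Agent.ZT.Gr
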