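import Pool.Agent.ZT.Bdd
import Pool.Agent.ZT.Core

/-!
# Permutations of bounded displacement

`mem_of_rank`: groups acting faithfully on a set with a function to the integers such that each
element changes the function by a bounded amount and the orbits have at most `k` points in each
fibre of the function. Consequences: groups acting with bounded displacement on the vertices of
graphs with spheres of at most `k` points, or of graphs with all degrees at most `2`.
-/

set_option autoImplicit false

namespace Pool.Agent.ZT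

open Pool.Agent.Helper29.BA Pool.Agent.Helper29.PA Pool.Agent.T59

variable {C : ∀ (G : Type) [Group G], Prop}

/-- The bounded full group of every permutation is in the class. -/
theorem mem_BF (hC : ExtClass C) {Ω : Type} (T : Equiv.Perm Ω) : C (BF T) :=
  mem_BF_of hC T (mem_FG_unit hC (uH T))

/-- The translation of the lines. -/
def lineShift (Λ : Type) : Equiv.Perm (Λ × ℤ) := Equiv.prodCongr (Equiv.refl Λ) (Equiv.addRight 1)

theorem lineShift_zpow {Λ : Type} (l : Λ) (n m : ℤ) : (lineShift Λ ^ m) (l, n) = (l, n + m) := by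
  have h1 : ∀ m : ℕ, (lineShift Λ ^ m) (l, n) = (l, n + m) := by
    intro m
    induction m with
    | zero => simp
    | succ m ih =>
      rw [pow_succ', Equiv.Perm.mul_apply, ih]
      change (l, n + m + 1) = _
      rw [Nat.cast_succ, add_assoc]
  have h2 : ∀ (m : ℕ) (n : ℤ), (lineShift Λ ^ m) (l, n) = (l, n + m) := by
    intro m
    induction m with
    | zero => intro n; simp
    | succ m ih =>
      intro n
      rw [pow_succ', Equiv.Perm.mul_apply, ih]
      change (l, n + m + 1) = _
      rw [Nat.cast_succ, add_assoc]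
  rcases m with m | m
  · exact h1 m
  · rw [zpow_negSucc, Equiv.Perm.inv_eq_iff_eq, h2]
    refine Prod.ext rfl ?_
    change n = n + Int.negSucc m + ((m + 1 : ℕ) : ℤ)
    rw [Int.negSucc_eq]
    push_cast
    ring

/-- **Groups of permutations of bounded displacement.** -/
theorem mem_of_rank (hC : ExtClass C) (G : Type) [Group G] {S : Type} [MulAction G S]
    [FaithfulSMul G S] (ρ : S → ℤ) (k : ℕ)
    (hk : ∀ (s : S) (n : ℤ), {t ∈ MulAction.orbit G s | ρ t = n}.encard ≤ k)
    (hG : ∀ g : G, ∃ N : ℕ, ∀ s : S, |ρ (g • s) - ρ s| ≤ N) : C G := by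
  classical
  let Λ : Type := MulAction.orbitRel.Quotient G S
  let π : S → Λ := fun s => Quotient.mk _ s
  have hπ : ∀ s t : S, π s = π t ↔ s ∈ MulAction.orbit G t := by
    intro s t
    change (Quotient.mk (MulAction.orbitRel G S) s = Quotient.mk _ t) ↔ _
    rw [Quotient.eq, MulAction.orbitRel_apply]
  -- the fibres
  let L : Λ → ℤ → Set S := fun l n => {t | π t = l ∧ ρ t = n}
  have hL : ∀ l n, (L l n).encard ≤ k := by
    intro l n
    obtain ⟨s, rfl⟩ := Quotient.exists_rep l
    have h1 : L (Quotient.mk _ s) n = {t ∈ MulAction.orbit G s | ρ t = n} := by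
      ext t
      exact and_congr (hπ t s) Iff.rfl
    rw [h1]
    exact hk s n
  have hfin : ∀ l n, (L l n).Finite := fun l n =>
    Set.finite_of_encard_le_coe (hL l n)
  have hinj : ∀ l n, ∃ i : L l n → ℕ, Function.Injective i ∧ ∀ t, i t < k := by
    intro l n
    have := (hfin l n).to_subtype
    refine ⟨fun t => (Finite.equivFin (L l n) t).1, fun t t' h => ?_, fun t => ?_⟩
    · exact (Finite.equivFin (L l n)).injective (Fin.ext h)
    · refine (Finite.equivFin (L l n) t).2.trans_le ?_
      have h1 := hL l n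
      rw [← (hfin l n).cast_ncard_eq] at h1
      exact_mod_cast h1
  choose i hi hik using hinj
  let idx : S → ℕ := fun s => i (π s) (ρ s) ⟨s, rfl, rfl⟩
  have hidx : ∀ s, idx s < k := fun s => hik _ _ _
  have hidx_inj : ∀ s t, π s = π t → ρ s = ρ t → idx s = idx t → s = t := by
    intro s t h1 h2 h3
    have h4 : ∀ (l : Λ) (n : ℤ) (hs : π s = l ∧ ρ s = n) (ht : π t = l ∧ ρ t = n),
        i l n ⟨s, hs⟩ = i l n ⟨t, ht⟩ → s = t := by
      intro l n hs ht h
      exact congrArg Subtype.val (hi l n h)
    have h5 : ∀ (l : Λ) (n : ℤ) (ht : π t = l ∧ ρ t = n), idx t = i l n ⟨t, ht⟩ := by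
      rintro l n ⟨rfl, rfl⟩
      rfl
    refine h4 (π s) (ρ s) ⟨rfl, rfl⟩ ⟨h1.symm, h2.symm⟩ ?_
    rw [← h5]
    exact h3
  let f : S → Λ × ℤ := fun s => (π s, k * ρ s + idx s)
  have hf : Function.Injective f := by
    intro s t h
    have h1 : π s = π t := congrArg Prod.fst h
    have h2 : (k : ℤ) * ρ s + idx s = k * ρ t + idx t := congrArg Prod.snd h
    have hk0 : (0 : ℤ) < k := by
      have := hidx s
      omega
    have e1 : ((k : ℤ) * ρ s + idx s) / k = ρ s := by
      rw [Int.mul_add_ediv_left _ _ hk0.ne', Int.ediv_eq_zero_of_lt (by positivity)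
        (by exact_mod_cast hidx s), add_zero]
    have e2 : ((k : ℤ) * ρ t + idx t) / k = ρ t := by
      rw [Int.mul_add_ediv_left _ _ hk0.ne', Int.ediv_eq_zero_of_lt (by positivity)
        (by exact_mod_cast hidx t), add_zero]
    have h3 : ρ s = ρ t := by rw [← e1, ← e2, h2]
    refine hidx_inj s t h1 h3 ?_
    rw [h3] at h2
    exact_mod_cast add_left_cancel h2
  let F : G →* Equiv.Perm (Λ × ℤ) :=
    (Equiv.Perm.viaEmbeddingHom (⟨f, hf⟩ : S ↪ Λ × ℤ)).comp (MulAction.toPermHom G S)
  have hF1 : ∀ g s, F g (f s) = f (g • s) := fun g s =>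
    Equiv.Perm.viaEmbedding_apply _ (⟨f, hf⟩ : S ↪ Λ × ℤ) s
  have hF2 : ∀ g p, p ∉ Set.range f → F g p = p := fun g p hp =>
    Equiv.Perm.viaEmbedding_apply_of_notMem _ (⟨f, hf⟩ : S ↪ Λ × ℤ) p hp
  have hF : ∀ g, F g ∈ BF (lineShift Λ) := by
    intro g
    obtain ⟨N, hN⟩ := hG g
    refine ⟨k * N + k, fun p => ?_⟩
    by_cases hp : p ∈ Set.range f
    · obtain ⟨s, rfl⟩ := hp
      refine ⟨(f (g • s)).2 - (f s).2, ?_, ?_⟩
      · change |((k : ℤ) * ρ (g • s) + idx (g • s)) - (k * ρ s + idx s)| ≤ _
        have h1 := abs_le.1 (hN s)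
        have h2 := hidx s
        have h3 := hidx (g • s)
        have h4 : (k : ℤ) * (ρ (g • s) - ρ s) ≤ k * N :=
          mul_le_mul_of_nonneg_left h1.2 (by positivity)
        have h5 : (k : ℤ) * (-N) ≤ k * (ρ (g • s) - ρ s) :=
          mul_le_mul_of_nonneg_left h1.1 (by positivity)
        rw [abs_le]
        push_cast
        constructor <;> nlinarith
      · rw [hF1]
        have h1 : f s = (π s, (f s).2) := rfl
        rw [h1, lineShift_zpow]
        refine Prod.ext ?_ ?_
        · exact (hπ _ _).2 (MulAction.mem_orbit s g)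
        · change _ = (f s).2 + _
          ring
    · exact ⟨0, by positivity, by rw [hF2 g p hp, zpow_zero]; rfl⟩
  refine hC.toClosedClass.inj (F.codRestrict (BF (lineShift Λ)) hF) (fun g h hgh => ?_)
    (mem_BF hC (lineShift Λ))
  refine MulAction.toPerm_injective (β := S) (Equiv.ext fun s => ?_)
  have h1 : F g (f s) = F h (f s) := DFunLike.congr_fun (congrArg Subtype.val hgh) (f s)
  rw [hF1, hF1] at h1
  exact hf h1

end Pool.Agent.ZT
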