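import Pool.Agent.ZT.Res
import Pool.Agent.ZT.CL

/-!
# The level groups

`D S` is the group of the pairs `(a, q)` where `q` is a line preserving permutation of the points
and `a` is the product of the letters of a run from the diagonal to the graph of `q`.
-/

set_option autoImplicit false

namespace Pool.Agent.ZT

variable {A P P' : Type}

/-- Relabelling of the particles. -/
def rel (q : Equiv.Perm P) (L : Set (P × P)) : Set (P × P) := {z | (z.1, q⁻¹ z.2) ∈ L}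

theorem mem_rel {q : Equiv.Perm P} {L : Set (P × P)} {p x : P} :
    (p, x) ∈ rel q L ↔ (p, q⁻¹ x) ∈ L := Iff.rfl

theorem mem_rel' {q : Equiv.Perm P} {L : Set (P × P)} {p x : P} :
    (p, q x) ∈ rel q L ↔ (p, x) ∈ L := by
  rw [mem_rel, pia]

theorem rel_inj {q : Equiv.Perm P} : Function.Injective (rel q) := by
  intro L M h
  ext ⟨p, x⟩
  rw [← mem_rel' (q := q), h, mem_rel']

/-- The permutations of the points act on the letters. -/
instance ltAct : MulAction (Equiv.Perm P) (Lt A P) where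
  smul q ℓ := (ℓ.1, rel q ℓ.2)
  one_smul _ := rfl
  mul_smul _ _ _ := rfl

theorem smul_lt (q : Equiv.Perm P) (ℓ : Lt A P) : q • ℓ = (ℓ.1, rel q ℓ.2) := rfl

theorem im_rel {q : Equiv.Perm P} {L : Set (P × P)} {x : P} : x ∈ im (rel q L) ↔ q⁻¹ x ∈ im L :=
  Iff.rfl

theorem R.smul (q : Equiv.Perm P) {ℓ m : Lt A P} (h : R ℓ m) : R (q • ℓ) (q • m) := by
  obtain ⟨⟨⟨p, x⟩, h1⟩, ⟨⟨p', x'⟩, h2⟩, h3⟩ := h
  exact ⟨⟨(p, q x), mem_rel'.2 h1⟩, ⟨(p', q x'), mem_rel'.2 h2⟩,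
    fun y hy hy' => h3 (q⁻¹ y) hy hy'⟩

/-- The line preserving permutations. -/
def Gr.Ln (S : Gr A P) : Subgroup (Equiv.Perm P) where
  carrier := {q | ∀ p, S.ln (q p) = S.ln p}
  one_mem' := fun _ => rfl
  mul_mem' := fun {a b} ha hb p => (ha (b p)).trans (hb p)
  inv_mem' := fun {a} ha p => by
    have h := ha (a⁻¹ p)
    rw [pai] at h
    exact h.symm

theorem R_Ln (S : Gr A P) (q : S.Ln) (v w : Lt A P) (h : R v w) : R (q • v) (q • w) :=
  h.smul q.1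

/-- The action on the right-angled Artin group. -/
abbrev Gr.act (S : Gr A P) : S.Ln →* MulAut (RA (R (A := A) (P := P))) := raAct (R_Ln S)

/-- The ambient group. -/
abbrev Gr.Am (S : Gr A P) : Type := RA (R (A := A) (P := P)) ⋊[S.act] S.Ln

/-- The reversed word. -/
def rev {G : Type} (w : List (G × Bool)) : List (G × Bool) := (w.map fun z => (z.1, !z.2)).reverse

theorem rev_cons {G : Type} (z : G × Bool) (w : List (G × Bool)) :
    rev (z :: w) = rev w ++ [(z.1, !z.2)] := by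
  simp [rev]

theorem wp_rev {G Γ : Type} [Group Γ] (g : G → Γ) (w : List (G × Bool)) :
    wp g (rev w) = (wp g w)⁻¹ := by
  induction w with
  | nil => simp [rev, wp_nil]
  | cons z w ih =>
    rw [rev_cons, wp_append, ih, wp_cons, wp_cons, wp_nil, mul_inv_rev, mul_one]
    congr 1
    obtain ⟨x, ε⟩ := z
    cases ε <;> simp

/-- The action on words. -/
def smw {G Q : Type} [SMul Q G] (q : Q) (w : List (G × Bool)) : List (G × Bool) :=
  w.map fun z => (q • z.1, z.2)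

namespace Gr

variable (S : Gr A P)

/-- The graph of a permutation. -/
def diag (q : Equiv.Perm P) : Set (P × P) := {z | z.2 = q z.1}

/-- The state of a permutation. -/
def B (q : Equiv.Perm P) : Set (Set (P × P)) := S.parts (diag q)

variable {S}

theorem tk_smul (q : Equiv.Perm P) (ℓ : Lt A P) (ε : Bool) :
    S.tk (q • ℓ) ε = rel q '' S.tk ℓ ε := by
  have h1 : S.side (q • ℓ) ε = rel q (S.side ℓ ε) := by cases ε <;> rfl
  unfold tk
  rw [h1]
  ext τ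
  constructor
  · rintro ⟨⟨⟨p, x⟩, h⟩, e, rfl⟩
    exact ⟨S.pt e (S.side ℓ ε), ⟨⟨(p, q⁻¹ x), h⟩, e, rfl⟩, rfl⟩
  · rintro ⟨_, ⟨⟨⟨p, x⟩, h⟩, e, rfl⟩, rfl⟩
    exact ⟨⟨(p, q x), mem_rel'.2 h⟩, e, rfl⟩

theorem isLet_smul {q : Equiv.Perm P} {ℓ : Lt A P} (h : S.IsLet ℓ) : S.IsLet (q • ℓ) := by
  obtain ⟨⟨⟨p, x⟩, h1⟩, v, hv⟩ := h
  refine ⟨⟨(p, q x), mem_rel'.2 h1⟩, v, fun p => ?_⟩
  change p ∈ pos (rel q ℓ.2) ↔ S.ν (S.σ ℓ.1 p) = v
  rw [← hv p]
  constructor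
  · rintro ⟨x, hx⟩
    exact ⟨_, hx⟩
  · rintro ⟨x, hx⟩
    exact ⟨q x, mem_rel'.2 hx⟩

theorem Step.smul (q : Equiv.Perm P) {c c' : Set (Set (P × P))} {z : Lt A P × Bool}
    (h : S.Step c z c') : S.Step (rel q '' c) (q • z.1, z.2) (rel q '' c') := by
  obtain ⟨h1, h2, rfl⟩ := h
  refine ⟨isLet_smul h1, ?_, ?_⟩
  · rw [tk_smul]
    exact Set.image_mono h2
  · change _ = (rel q '' c \ S.tk (q • z.1) z.2) ∪ S.tk (q • z.1) (!z.2)
    rw [tk_smul, tk_smul, Set.image_union, Set.image_sdiff rel_inj]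

theorem run_smul (q : Equiv.Perm P) (w : List (Lt A P × Bool)) : ∀ {c c' : Set (Set (P × P))},
    S.Run c w c' → S.Run (rel q '' c) (smw q w) (rel q '' c') := by
  induction w with
  | nil =>
    rintro c c' rfl
    exact rfl
  | cons z w ih =>
    rintro c c' ⟨c₁, h1, h2⟩
    exact ⟨_, h1.smul q, ih h2⟩

theorem Valid.run_rev (w : List (Lt A P × Bool)) : ∀ {c c' : Set (Set (P × P))}, S.Valid c →
    S.Run c w c' → S.Run c' (rev w) c := by
  induction w with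
  | nil =>
    rintro c c' _ rfl
    exact rfl
  | cons z w ih =>
    rintro c c' hc ⟨c₁, h1, h2⟩
    rw [rev_cons]
    exact run_append.2 ⟨c₁, ih (hc.step h1) h2, c, h1.symm hc, rfl⟩

theorem rel_B (q q' : Equiv.Perm P) : rel q '' S.B q' = S.B (q * q') := by
  have h1 : ∀ e, rel q (S.pt e (diag q')) = S.pt e (diag (q * q')) := by
    intro e
    ext ⟨p, x⟩
    change (q⁻¹ x = q' p ∧ S.ty p = e) ↔ (x = q (q' p) ∧ S.ty p = e)
    refine and_congr ⟨fun h => ?_, fun h => ?_⟩ Iff.rfl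
    · rw [← h, pai]
    · rw [h, pia]
  ext τ
  constructor
  · rintro ⟨_, ⟨⟨⟨p, x⟩, h⟩, e, rfl⟩, rfl⟩
    refine ⟨?_, e, h1 e⟩
    exact ⟨(p, q x), mem_rel'.2 h⟩
  · rintro ⟨⟨⟨p, x⟩, h⟩, e, rfl⟩
    refine ⟨S.pt e (diag q'), ⟨?_, e, rfl⟩, h1 e⟩
    rw [← h1] at h
    exact ⟨_, h⟩

theorem mem_B_iff {q : Equiv.Perm P} {τ : Set (P × P)} :
    τ ∈ S.B q ↔ ∃ p, τ = S.pt (S.ty p) (diag q) := by
  constructor
  · rintro ⟨⟨⟨p, x⟩, h⟩, e, rfl⟩
    exact ⟨p, by rw [h.2]⟩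
  · rintro ⟨p, rfl⟩
    exact ⟨⟨(p, q p), rfl, rfl⟩, _, rfl⟩

theorem mem_pt_diag {q : Equiv.Perm P} {e : ℕ × (A → ℕ)} {p x : P} :
    (p, x) ∈ S.pt e (diag q) ↔ x = q p ∧ S.ty p = e := Iff.rfl

theorem valid_B {q : Equiv.Perm P} (hq : q ∈ S.Ln) : S.Valid (S.B q) := by
  refine ⟨?_, ?_, ?_⟩
  · rintro τ hτ
    obtain ⟨p, rfl⟩ := mem_B_iff.1 hτ
    refine ⟨⟨(p, q p), rfl, rfl⟩, ⟨S.ty p, fun p' => ?_⟩, ?_, ?_, ?_⟩
    · constructor
      · rintro ⟨x, -, h⟩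
        exact h
      · intro h
        exact ⟨q p', rfl, h⟩
    · rintro p x x' ⟨h, -⟩ ⟨h', -⟩
      exact h.trans h'.symm
    · rintro p p' x ⟨h, -⟩ ⟨h', -⟩
      exact q.injective (h.symm.trans h')
    · rintro p x ⟨h, -⟩
      change x = q p at h
      rw [h, hq p]
  · intro τ hτ τ' hτ' x hx hx'
    obtain ⟨p₀, rfl⟩ := mem_B_iff.1 hτ
    obtain ⟨p₀', rfl⟩ := mem_B_iff.1 hτ'
    obtain ⟨p, h1, h2⟩ := hx
    obtain ⟨p', h3, h4⟩ := hx'
    obtain rfl : p = p' := q.injective (h1.symm.trans h3)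
    change S.ty p = _ at h2 h4
    rw [← h2, ← h4]
  · intro x
    refine ⟨_, mem_B_iff.2 ⟨q⁻¹ x, rfl⟩, q⁻¹ x, ?_, rfl⟩
    exact (pai q x).symm

theorem B_inj {q q' : Equiv.Perm P} (h : S.B q = S.B q') : q = q' := by
  ext p
  have h1 : S.pt (S.ty p) (diag q) ∈ S.B q' := h ▸ mem_B_iff.2 ⟨p, rfl⟩
  obtain ⟨p', h2⟩ := mem_B_iff.1 h1
  have h3 : (p, q p) ∈ S.pt (S.ty p) (diag q) := ⟨rfl, rfl⟩
  rw [h2] at h3
  exact h3.1

theorem wp_smw (q : S.Ln) (w : List (Lt A P × Bool)) :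
    wp (gen R) (smw q w) = S.act q (wp (gen R) w) := by
  induction w with
  | nil => rw [wp_nil, map_one]; rfl
  | cons z w ih =>
    obtain ⟨x, ε⟩ := z
    change wp (gen R) ((q • x, ε) :: smw q w) = _
    rw [wp_cons, wp_cons, map_mul, ih]
    congr 1
    cases ε
    · change (gen R (q • x))⁻¹ = S.act q (gen R x)⁻¹
      rw [map_inv, Gr.act, raAct_gen]
    · change gen R (q • x) = S.act q (gen R x)
      rw [Gr.act, raAct_gen]

variable (S) in
/-- **The level group.** -/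
def D : Subgroup S.Am where
  carrier := {x | ∃ w, S.Run (S.B 1) w (S.B x.right) ∧ wp (gen R) w = x.left}
  one_mem' := ⟨[], rfl, rfl⟩
  mul_mem' := by
    rintro ⟨a, q⟩ ⟨a', q'⟩ ⟨w, h1, h2⟩ ⟨w', h3, h4⟩
    change S.Run (S.B 1) w (S.B q.1) at h1
    change S.Run (S.B 1) w' (S.B q'.1) at h3
    change wp (gen R) w = a at h2
    change wp (gen R) w' = a' at h4
    refine ⟨w ++ smw q w', ?_, ?_⟩
    · change S.Run (S.B 1) _ (S.B (q.1 * q'.1))
      have h5 := run_smul q.1 w' h3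
      rw [rel_B, rel_B, mul_one] at h5
      exact run_append.2 ⟨_, h1, h5⟩
    · change _ = a * S.act q a'
      rw [wp_append, h2, wp_smw, h4]
  inv_mem' := by
    rintro ⟨a, q⟩ ⟨w, h1, h2⟩
    change S.Run (S.B 1) w (S.B q.1) at h1
    change wp (gen R) w = a at h2
    refine ⟨smw q⁻¹ (rev w), ?_, ?_⟩
    · change S.Run (S.B 1) _ (S.B (q.1⁻¹))
      have h3 := run_smul q.1⁻¹ _ ((valid_B (one_mem S.Ln)).run_rev w h1)
      rw [rel_B, rel_B, mul_one, inv_mul_cancel] at h3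
      exact h3
    · change _ = S.act q⁻¹ a⁻¹
      rw [wp_smw, wp_rev, h2]

theorem mem_D {x : S.Am} :
    x ∈ S.D ↔ ∃ w, S.Run (S.B 1) w (S.B x.right) ∧ wp (gen R) w = x.left := Iff.rfl

end Gr

end Pool.Agent.ZT
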