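import Pool.Agent.ZT.Hall
import Pool.Agent.ZT.WD
import Pool.Agent.ZT.Forest
import Pool.Agent.ZT.Beta

/-!
# Invariant set functions on the copies of a forest
-/

set_option autoImplicit false

namespace Pool.Agent.ZT

open Pointwise

section add

variable {S : Type*} {m : Set S → ENNReal}

theorem mono_of_add (h : ∀ V W, Disjoint V W → m (V ∪ W) = m V + m W) {V W : Set S} (hVW : V ⊆ W) :
    m V ≤ m W := by
  have h1 := h V (W \ V) Set.disjoint_sdiff_right
  rw [Set.union_sdiff_cancel hVW] at h1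
  rw [h1]
  exact le_self_add

theorem le_add_of_add (h : ∀ V W, Disjoint V W → m (V ∪ W) = m V + m W) (V W : Set S) :
    m (V ∪ W) ≤ m V + m W := by
  have h1 := h V (W \ V) Set.disjoint_sdiff_right
  rw [Set.union_sdiff_self] at h1
  rw [h1]
  exact add_le_add le_rfl (mono_of_add h Set.sdiff_subset)

theorem le_sum_of_add (h0 : m ∅ = 0) (h : ∀ V W, Disjoint V W → m (V ∪ W) = m V + m W)
    {ι : Type*} (s : Finset ι) (U : ι → Set S) : m (⋃ i ∈ s, U i) ≤ ∑ i ∈ s, m (U i) := by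
  classical
  induction s using Finset.induction_on with
  | empty => simp [h0]
  | insert i s hi ih =>
    rw [Finset.set_biUnion_insert, Finset.sum_insert hi]
    exact (le_add_of_add h _ _).trans (add_le_add le_rfl ih)

end add

/-- If no nonempty set of vertices is paradoxical for a group `W` of permutations which contains the
involutions of the forest, then there are invariant set functions on the copies of the forest. -/
theorem exists_invS_gF {V Λ : Type} {d : ℕ} (T : RForest V d) (k : ℕ)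
    (W : Subgroup (Equiv.Perm V)) (hsw : ∀ x, T.sw x ∈ W)
    (hP : ∀ U : Set V, U.Nonempty → ¬ Paradox W U)
    {U' : Set (Λ × V × Fin (k + 1))} (hne : U'.Nonempty) :
    ∃ m : Set (Λ × V × Fin (k + 1)) → ENNReal, m ∅ = 0 ∧
      (∀ X Y, Disjoint X Y → m (X ∪ Y) = m X + m Y) ∧
      (∀ (a : LabK d k) (X : Set (Λ × V × Fin (k + 1))), m (gF T k Λ a ⁻¹' X) = m X) ∧
      m U' ≠ 0 ∧ m U' ≠ ⊤ := by
  classical
  obtain ⟨⟨l, v₀, j₀⟩, h₀⟩ := hne
  obtain ⟨Uj, hUj⟩ : ∃ Uj : Set (Λ × V × Fin (k + 1)) → Fin (k + 1) → Set V,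
      Uj = fun X j => {v | (l, v, j) ∈ X} := ⟨_, rfl⟩
  have hUj' : ∀ X j v, v ∈ Uj X j ↔ (l, v, j) ∈ X := fun X j v => by rw [hUj]; rfl
  obtain ⟨m, h1, h2, h3, h4⟩ := exists_measure (F := W) (U := ⋃ j ∈ Finset.univ, Uj U' j)
    (hP _ ⟨v₀, Set.mem_biUnion (Finset.mem_univ j₀) ((hUj' _ _ _).2 h₀)⟩)
  refine ⟨fun X => ∑ j, m (Uj X j), ?_, fun X Y h => ?_, fun a X => ?_, ?_, ?_⟩
  · refine Finset.sum_eq_zero fun j _ => ?_
    have h5 : Uj ∅ j = ∅ := Set.eq_empty_of_forall_notMem fun v hv => (hUj' _ _ _).1 hv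
    rw [h5, h1]
  · rw [← Finset.sum_add_distrib]
    refine Finset.sum_congr rfl fun j _ => ?_
    rw [← h2]
    · congr 1
      ext v
      rw [hUj', Set.mem_union, Set.mem_union, hUj', hUj']
    · rw [Set.disjoint_left]
      intro v hv hv'
      exact Set.disjoint_left.1 h ((hUj' _ _ _).1 hv) ((hUj' _ _ _).1 hv')
  · rcases a with x | i
    · refine Finset.sum_congr rfl fun j _ => ?_
      have h5 := h3 (⟨T.sw x, hsw x⟩⁻¹ : W) (Uj X j)
      rw [← h5]
      congr 1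
      ext v
      rw [hUj', Set.mem_smul_set_iff_inv_smul_mem, inv_inv]
      change _ ↔ T.sw x v ∈ Uj X j
      rw [hUj']
      rfl
    · beta_reduce
      rw [← Equiv.sum_comp (Equiv.swap 0 i) (fun j => m (Uj X j))]
      refine Finset.sum_congr rfl fun j _ => ?_
      congr 1
      ext v
      rw [hUj', hUj']
      rfl
  · intro h
    have h5 := le_sum_of_add h1 h2 Finset.univ (Uj U')
    beta_reduce at h
    rw [h4, h] at h5
    exact absurd h5 (by simp)
  · beta_reduce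
    refine ne_of_lt (ENNReal.sum_lt_top.2 fun j _ => ?_)
    have h5 : m (Uj U' j) ≤ m (⋃ j ∈ Finset.univ, Uj U' j) :=
      mono_of_add h2 (Set.subset_biUnion_of_mem (u := Uj U') (Finset.mem_univ j))
    rw [h4] at h5
    exact lt_of_le_of_lt h5 ENNReal.one_lt_top

/-- The same in the form for Theorem D. -/
theorem exists_invS_actS {V Λ : Type} {d : ℕ} (T : RForest V d) (k : ℕ)
    (W : Subgroup (Equiv.Perm V)) (hsw : ∀ x, T.sw x ∈ W)
    (hP : ∀ U : Set V, U.Nonempty → ¬ Paradox W U)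
    {U' : Set (Λ × V × Fin (k + 1))} (hne : U'.Nonempty) :
    let _ := actS (gF T k Λ)
    ∃ m : Set (Λ × V × Fin (k + 1)) → ENNReal, InvS (LabK d k) m ∧ m U' ≠ 0 ∧ m U' ≠ ⊤ := by
  intro inst
  obtain ⟨m, h1, h2, h3, h4, h5⟩ := exists_invS_gF T k W hsw hP hne
  refine ⟨m, ⟨h1, h2, fun a U => ?_⟩, h4, h5⟩
  rw [← h3 a U]
  congr 1

/-- Bounded maps. -/
theorem not_paradox_WD {V : Type} {Γ : SimpleGraph V} {U : Set V}
    (h : ¬ ∃ (N : ℕ) (a b : V → V), Set.MapsTo a U U ∧ Set.MapsTo b U U ∧ Set.InjOn a U ∧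
      Set.InjOn b U ∧ Disjoint (a '' U) (b '' U) ∧
      ∀ u ∈ U, Γ.edist u (a u) ≤ N ∧ Γ.edist u (b u) ≤ N) : ¬ Paradox (WD Γ) U := by
  classical
  rintro ⟨K, a, h1, h2⟩
  apply h
  choose N hN using fun g : WD Γ => g.2
  have h3 : ∀ i, ∀ u ∈ U, Γ.edist u (a i u) ≤ (K.sup N : ℕ) := by
    intro i u hu
    obtain ⟨g, hg, hgu⟩ := (h1 i u hu).2
    rw [← hgu]
    refine (hN g u).trans ?_
    exact_mod_cast Finset.le_sup (f := N) hg
  refine ⟨K.sup N, a false, a true, fun u hu => (h1 _ u hu).1, fun u hu => (h1 _ u hu).1,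
    fun u hu v hv huv => (h2 _ _ u hu v hv huv).2, fun u hu v hv huv => (h2 _ _ u hu v hv huv).2,
    ?_, fun u hu => ⟨h3 _ u hu, h3 _ u hu⟩⟩
  rw [Set.disjoint_left]
  rintro _ ⟨u, hu, rfl⟩ ⟨v, hv, hvu⟩
  exact absurd (h2 true false v hv u hu hvu).1 (by decide)

end Pool.Agent.ZT
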