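import Pool.Agent.ZT.Sets
import Pool.Agent.T59.LocFin

/-!
# Trees which are finally parts of finite sets

`T` is a finite set with an action of `F = FreeGroup A` and labels `κT`. The labels of the orbit of a
point `x` are changed after the first point, on each way from `x`, whose type is the type of a point of
`T`: from there on they are the labels of the orbit of the point of `T`. If there are only finitely many
points before, then the level group of `X` is in the class.
-/

set_option autoImplicit false

namespace Pool.Agent.ZT

open Pool.Agent.Helper29.BA Pool.Agent.Helper29.PA Pool.Agent.T59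

/-- Finitely many permutations with finite supports generate a finite group. -/
theorem finite_closure_of_supp {G P : Type} [Group G] (ρ : G →* Equiv.Perm P)
    (hρ : Function.Injective ρ) (T : Finset G) (hT : ∀ x ∈ T, {p | ρ x p ≠ p}.Finite) :
    Finite (Subgroup.closure (T : Set G)) := by
  classical
  let W : Set P := ⋃ x ∈ T, {p | ρ x p ≠ p}
  have hW : W.Finite := Set.Finite.biUnion T.finite_toSet hT
  have h1 : ∀ x ∈ Subgroup.closure (T : Set G), ∀ p, p ∉ W → ρ x p = p := by
    intro x hx
    induction hx using Subgroup.closure_induction with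
    | mem x hx =>
      intro p hp
      by_contra h
      exact hp (Set.mem_biUnion hx h)
    | one => intro n _; rw [map_one]; rfl
    | mul x y _ _ hx hy =>
      intro n hn
      rw [map_mul, Equiv.Perm.mul_apply, hy n hn, hx n hn]
    | inv x _ hx =>
      intro n hn
      rw [map_inv]
      nth_rewrite 1 [← hx n hn]
      exact (ρ x).symm_apply_apply n
  have hW' : Finite W := hW.to_subtype
  refine Finite.of_injective (β := W → W) (fun x n => ⟨ρ x n, ?_⟩) ?_
  · by_contra hc
    have h2 := h1 x.1 x.2 (ρ x n) hc
    have h3 := (ρ x).injective h2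
    exact hc (by rw [h3]; exact n.2)
  · intro x y hxy
    apply Subtype.ext
    apply hρ
    ext n
    by_cases hn : n ∈ W
    · have := congrFun hxy ⟨n, hn⟩
      exact congrArg Subtype.val this
    · rw [h1 x.1 x.2 n hn, h1 y.1 y.2 n hn]

section word

variable {A : Type} [DecidableEq A]

/-- The reduced word after multiplication by a letter. -/
theorem toWord_step (s : A × Bool) (h : FreeGroup A) :
    (FreeGroup.mk [s] * h).toWord = s :: h.toWord ∨
      h.toWord = (s.1, !s.2) :: (FreeGroup.mk [s] * h).toWord := by
  have e : (FreeGroup.mk [s] * h).toWord = FreeGroup.reduce (s :: h.toWord) := by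
    conv_lhs => rw [← FreeGroup.mk_toWord (x := h)]
    rw [FreeGroup.mul_mk, FreeGroup.toWord_mk]
    rfl
  rw [FreeGroup.reduce.cons, FreeGroup.reduce_toWord] at e
  rcases hw : h.toWord with _ | ⟨b, l⟩
  · left
    rw [e, hw]
  · rw [hw] at e
    by_cases hb : s.1 = b.1 ∧ s.2 = !b.2
    · right
      have e' : (FreeGroup.mk [s] * h).toWord = l := by
        rw [e]
        exact if_pos hb
      rw [e', hb.1, hb.2, Bool.not_not]
    · left
      rw [e]
      exact if_neg hb

end word

section tree

variable {A X T : Type} [MulAction (FreeGroup A) X] [MulAction (FreeGroup A) T] (κ : X → ℕ)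
  (κT : T → ℕ)

variable (A) in
/-- Points of the same type. -/
def Same (t : T) (x : X) : Prop :=
  κT t = κ x ∧ ∀ a : A, κT (FreeGroup.of a • t) = κ (FreeGroup.of a • x)

variable (A) in
open Classical in
/-- A point of `T` of the same type. -/
noncomputable def pick (x : X) : Option T :=
  if h : ∃ t, Same A κ κT t x then some h.choose else none

/-- The point of `T` which replaces the point of the word. -/
noncomputable def ent (x : X) : List (A × Bool) → Option T
  | [] => pick A κ κT x
  | s :: l => (ent x l).elim (pick A κ κT (FreeGroup.mk (s :: l) • x))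
      fun t => some (FreeGroup.mk [s] • t)

variable {κ κT} {x : X}

theorem pick_some {t : T} (h : pick A κ κT x = some t) : Same A κ κT t x := by
  unfold pick at h
  split_ifs at h with h1
  rw [← Option.some_inj.1 h]
  exact h1.choose_spec

theorem pick_none (h : pick A κ κT x = none) : ¬ ∃ t, Same A κ κT t x := by
  unfold pick at h
  split_ifs at h with h1
  exact h1

theorem ent_cons (s : A × Bool) (l : List (A × Bool)) {t : T} (h : ent κ κT x l = some t) :
    ent κ κT x (s :: l) = some (FreeGroup.mk [s] • t) := by
  rw [ent, h]
  rfl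

theorem ent_cons_none {s : A × Bool} {l : List (A × Bool)} (h : ent κ κT x (s :: l) = none) :
    ent κ κT x l = none ∧ ¬ ∃ t, Same A κ κT t (FreeGroup.mk (s :: l) • x) := by
  rcases h1 : ent κ κT x l with _ | t
  · refine ⟨rfl, ?_⟩
    rw [ent, h1] at h
    exact pick_none h
  · rw [ent_cons s l h1] at h
    cases h

theorem ent_cons_some {s : A × Bool} {l : List (A × Bool)} {t : T}
    (h : ent κ κT x (s :: l) = some t) : (∃ t', ent κ κT x l = some t' ∧ t = FreeGroup.mk [s] • t') ∨
      (ent κ κT x l = none ∧ Same A κ κT t (FreeGroup.mk (s :: l) • x)) := by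
  rcases h1 : ent κ κT x l with _ | t'
  · right
    refine ⟨rfl, ?_⟩
    rw [ent, h1] at h
    exact pick_some h
  · left
    rw [ent_cons s l h1] at h
    exact ⟨t', rfl, (Option.some_inj.1 h).symm⟩

/-- No point of the word has the type of a point of `T`. -/
theorem ent_none {l : List (A × Bool)} (h : ent κ κT x l = none) :
    ∀ l', l' <:+ l → ¬ ∃ t, Same A κ κT t (FreeGroup.mk l' • x) := by
  induction l with
  | nil =>
    intro l' hl'
    rw [List.suffix_nil.1 hl']
    have e : (FreeGroup.mk ([] : List (A × Bool))) • x = x := one_smul (FreeGroup A) x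
    rw [e]
    exact pick_none h
  | cons s l ih =>
    intro l' hl'
    rcases List.suffix_cons_iff.1 hl' with rfl | h1
    · exact (ent_cons_none h).2
    · exact ih (ent_cons_none h).1 l' h1

variable [DecidableEq A] (κ κT)

/-- The new labels. -/
noncomputable def nu (x : X) (h : FreeGroup A) : ℕ := (ent κ κT x h.toWord).elim (κ (h • x)) κT

variable {κ κT}

theorem nu_some {h : FreeGroup A} {t : T} (e : ent κ κT x h.toWord = some t) :
    nu κ κT x h = κT t := by
  unfold nu
  rw [e]
  rfl

theorem nu_none {h : FreeGroup A} (e : ent κ κT x h.toWord = none) :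
    nu κ κT x h = κ (h • x) := by
  unfold nu
  rw [e]
  rfl

theorem mk_consM (s : A × Bool) (l : List (A × Bool)) :
    FreeGroup.mk (s :: l) = FreeGroup.mk [s] * FreeGroup.mk l := by
  rw [FreeGroup.mul_mk]
  rfl

theorem mk_inv_letter (s : A × Bool) : FreeGroup.mk [s] * FreeGroup.mk [(s.1, !s.2)] = 1 := by
  rw [FreeGroup.mul_mk, FreeGroup.one_eq_mk]
  obtain ⟨a, b⟩ := s
  exact Quot.sound (FreeGroup.Red.Step.not (L₁ := []) (L₂ := []) (x := a) (b := b))

/-- The labels of the neighbours. -/
theorem nu_step (a : A) (h : FreeGroup A) :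
    nu κ κT x (FreeGroup.of a * h) =
      (ent κ κT x h.toWord).elim (κ (FreeGroup.of a • h • x)) fun t => κT (FreeGroup.of a • t) := by
  have ea : (FreeGroup.of a : FreeGroup A) = FreeGroup.mk [(a, true)] := rfl
  rcases toWord_step (a, true) h with h1 | h1
  · rcases h2 : ent κ κT x h.toWord with _ | t
    · change _ = κ (FreeGroup.of a • h • x)
      rw [ea]
      rcases h3 : ent κ κT x (FreeGroup.mk [(a, true)] * h).toWord with _ | t
      · rw [nu_none h3, mul_smul]
      · rw [nu_some h3]
        rw [h1] at h3
        rcases ent_cons_some h3 with ⟨t', h4, -⟩ | ⟨-, h4⟩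
        · rw [h2] at h4
          cases h4
        · rw [h4.1, mk_consM, FreeGroup.mk_toWord, mul_smul]
    · have h3 : ent κ κT x (FreeGroup.mk [(a, true)] * h).toWord =
          some (FreeGroup.mk [(a, true)] • t) := by
        rw [h1]
        exact ent_cons _ _ h2
      rw [ea, nu_some h3]
      rfl
  · have e0 : FreeGroup.mk (h.toWord) = h := FreeGroup.mk_toWord
    rcases h3 : ent κ κT x (FreeGroup.mk [(a, true)] * h).toWord with _ | t'
    · rw [ea, nu_none h3]
      rcases h2 : ent κ κT x h.toWord with _ | t
      · change _ = κ (FreeGroup.mk [(a, true)] • h • x)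
        rw [mul_smul]
      · rw [h1] at h2
        rcases ent_cons_some h2 with ⟨t', h4, -⟩ | ⟨-, h4⟩
        · rw [h3] at h4
          cases h4
        · rw [← h1, e0] at h4
          change _ = κT (FreeGroup.of a • t)
          rw [h4.2 a, mul_smul]
          rfl
    · have h2 : ent κ κT x h.toWord = some (FreeGroup.mk [(a, !true)] • t') := by
        rw [h1]
        exact ent_cons _ _ h3
      rw [ea, nu_some h3, h2]
      change _ = κT (FreeGroup.mk [(a, true)] • FreeGroup.mk [(a, !true)] • t')
      rw [smul_smul, mk_inv_letter (a, true), one_smul]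

/-- Away from the points before `T` the replacement is equivariant. -/
theorem ent_step (s : A × Bool) {h : FreeGroup A} {t : T} (e : ent κ κT x h.toWord = some t)
    (e' : ent κ κT x (FreeGroup.mk [s] * h).toWord ≠ none) :
    ent κ κT x (FreeGroup.mk [s] * h).toWord = some (FreeGroup.mk [s] • t) := by
  rcases toWord_step s h with h1 | h1
  · rw [h1]
    exact ent_cons _ _ e
  · obtain ⟨t', h2⟩ := Option.ne_none_iff_exists'.1 e'
    have h3 : ent κ κT x h.toWord = some (FreeGroup.mk [(s.1, !s.2)] • t') := by
      rw [h1]
      exact ent_cons _ _ h2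
    rw [h3] at e
    rw [h2, ← Option.some_inj.1 e, smul_smul, mk_inv_letter, one_smul]

end tree

end Pool.Agent.ZT
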