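import Pool.Agent.ZT.Model

/-!
# The level group of a union of trees
-/

set_option autoImplicit false

namespace Pool.Agent.ZT

open Pool.Agent.Helper29.BA Pool.Agent.Helper29.PA Pool.Agent.T59

variable {A X T : Type} [MulAction (FreeGroup A) X] [MulAction (FreeGroup A) T] [DecidableEq A]
  (κ : X → ℕ) (κT : T → ℕ) {E : Type} (y : E → X)

/-- The points of the trees. -/
noncomputable def grT : Gr A (E × FreeGroup A) where
  σ a := Equiv.prodCongr (Equiv.refl E) (Equiv.mulLeft (FreeGroup.of a))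
  ν p := nu κ κT (y p.1) p.2
  Λ := E
  ln := Prod.fst
  ln_σ _ _ := rfl

/-- Both kinds of points. -/
noncomputable abbrev grS : Gr A ((T × FreeGroup A) ⊕ (E × FreeGroup A)) :=
  (grF κT).sum (grT κ κT y)

variable {κ κT y}

theorem mv_inl (u : List (A × Bool)) (t : T) (h : FreeGroup A) :
    (grS κ κT y).mv u (Sum.inl (t, h)) = Sum.inl (t, FreeGroup.mk u * h) := by
  induction u with
  | nil =>
    change Sum.inl (t, h) = Sum.inl (t, 1 * h)
    rw [one_mul]
  | cons z u ih =>
    rw [Gr.mv_cons, ih, mk_cons]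
    obtain ⟨a, ε⟩ := z
    cases ε
    · change ((grS κ κT y).σ a)⁻¹ _ = Sum.inl (t, (FreeGroup.of a)⁻¹ * FreeGroup.mk u * h)
      rw [Equiv.Perm.inv_eq_iff_eq]
      change _ = Sum.inl (t, FreeGroup.of a * ((FreeGroup.of a)⁻¹ * FreeGroup.mk u * h))
      rw [mul_assoc (FreeGroup.of a)⁻¹, mul_inv_cancel_left]
    · change Sum.inl (t, FreeGroup.of a * (FreeGroup.mk u * h)) =
        Sum.inl (t, FreeGroup.of a * FreeGroup.mk u * h)
      rw [mul_assoc]

theorem mv_inr (u : List (A × Bool)) (e : E) (h : FreeGroup A) :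
    (grS κ κT y).mv u (Sum.inr (e, h)) = Sum.inr (e, FreeGroup.mk u * h) := by
  induction u with
  | nil =>
    change Sum.inr (e, h) = Sum.inr (e, 1 * h)
    rw [one_mul]
  | cons z u ih =>
    rw [Gr.mv_cons, ih, mk_cons]
    obtain ⟨a, ε⟩ := z
    cases ε
    · change ((grS κ κT y).σ a)⁻¹ _ = Sum.inr (e, (FreeGroup.of a)⁻¹ * FreeGroup.mk u * h)
      rw [Equiv.Perm.inv_eq_iff_eq]
      change _ = Sum.inr (e, FreeGroup.of a * ((FreeGroup.of a)⁻¹ * FreeGroup.mk u * h))
      rw [mul_assoc (FreeGroup.of a)⁻¹, mul_inv_cancel_left]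
    · change Sum.inr (e, FreeGroup.of a * (FreeGroup.mk u * h)) =
        Sum.inr (e, FreeGroup.of a * FreeGroup.mk u * h)
      rw [mul_assoc]

variable (κ κT y)

/-- The points where the replacement does not commute with `g`. -/
def Bad (g : FreeGroup A) : Set (E × FreeGroup A) :=
  {z | ¬ ∃ t, ent κ κT (y z.1) z.2.toWord = some t ∧
    ent κ κT (y z.1) (g * z.2).toWord = some (g • t)}

variable {κ κT y}

/-- The replacement commutes with each element up to finitely many points. -/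
theorem finite_Bad [Finite A] [Finite E]
    (hB : ∀ x : X, {h : FreeGroup A | ent κ κT x h.toWord = none}.Finite) (g : FreeGroup A) :
    (Bad κ κT y g).Finite := by
  have h0 : {z : E × FreeGroup A | ent κ κT (y z.1) z.2.toWord = none}.Finite := by
    have h1 : {z : E × FreeGroup A | ent κ κT (y z.1) z.2.toWord = none} ⊆
        ⋃ e : E, (fun h => (e, h)) '' {h : FreeGroup A | ent κ κT (y e) h.toWord = none} := by
      rintro ⟨e, h⟩ hz
      exact Set.mem_iUnion.2 ⟨e, h, hz, rfl⟩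
    exact (Set.finite_iUnion fun e => (hB (y e)).image _).subset h1
  have hsh : ∀ (u : FreeGroup A) (S : Set (E × FreeGroup A)), S.Finite →
      {z : E × FreeGroup A | (z.1, u * z.2) ∈ S}.Finite := by
    intro u S hS
    refine hS.preimage (f := fun z : E × FreeGroup A => (z.1, u * z.2)) fun a _ b _ hab => ?_
    have h1 := Prod.mk.inj hab
    exact Prod.ext h1.1 (mul_left_cancel h1.2)
  have key : ∀ u : List (A × Bool), (Bad κ κT y (FreeGroup.mk u)).Finite := by
    intro u
    induction u with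
    | nil =>
      refine h0.subset fun z hz => ?_
      by_contra hc
      obtain ⟨t, ht⟩ := Option.ne_none_iff_exists'.1 hc
      refine hz ⟨t, ht, ?_⟩
      have e1 : (FreeGroup.mk ([] : List (A × Bool))) = 1 := rfl
      rw [e1, one_mul, one_smul]
      exact ht
    | cons s u ih =>
      refine (ih.union (hsh (FreeGroup.mk (s :: u)) _ h0)).subset fun z hz => ?_
      by_contra hc
      rw [Set.mem_union, not_or] at hc
      obtain ⟨hc1, hc2⟩ := hc
      obtain ⟨t, h1, h2⟩ := not_not.1 hc1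
      refine hz ⟨t, h1, ?_⟩
      rw [mk_consM, mul_assoc, mul_smul]
      refine ent_step s h2 ?_
      rw [← mul_assoc, ← mk_consM]
      exact hc2
  rw [← FreeGroup.mk_toWord (x := g)]
  exact key _

variable (κ κT y)

/-- The permutations of the lines of `T` which commute with the action, together with permutations of
the trees which agree with them up to finitely many points. -/
def QE [Finite A] [Finite E] [Finite T]
    (hB : ∀ x : X, {h : FreeGroup A | ent κ κT x h.toWord = none}.Finite) :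
    Subgroup (Equiv.Perm (T × FreeGroup A) × Equiv.Perm (E × FreeGroup A)) where
  carrier := {q | q.1 ∈ QF (F := FreeGroup A) (Set.univ : Set T) ∧ (∀ z, (q.2 z).1 = z.1) ∧
    {z : E × FreeGroup A | ¬ ∃ t, ent κ κT (y z.1) z.2.toWord = some t ∧
      q.2 z = (z.1, qc q.1 t * z.2)}.Finite}
  one_mem' := by
    refine ⟨one_mem _, fun _ => rfl, (finite_Bad (y := y) hB 1).subset fun z hz => ?_⟩
    rintro ⟨t, h1, -⟩
    refine hz ⟨t, h1, ?_⟩
    change z = (z.1, 1 * z.2)
    rw [one_mul]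
  mul_mem' := by
    rintro q q' ⟨h1, h2, h3⟩ ⟨h1', h2', h3'⟩
    refine ⟨mul_mem h1 h1', fun z => (h2 _).trans (h2' z), ?_⟩
    have h4 : {z : E × FreeGroup A | ¬ ∃ t, ent κ κT (y (q'.2 z).1) (q'.2 z).2.toWord = some t ∧
        q.2 (q'.2 z) = ((q'.2 z).1, qc q.1 t * (q'.2 z).2)}.Finite :=
      h3.preimage (f := q'.2) (q'.2.injective.injOn)
    refine ((h3'.union h4).union (Set.finite_iUnion fun t : T =>
      finite_Bad (y := y) hB (qc q'.1 t))).subset fun z hz => ?_
    by_contra hc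
    rw [Set.mem_union, Set.mem_union, not_or, not_or] at hc
    obtain ⟨⟨hc1, hc2⟩, hc3⟩ := hc
    obtain ⟨t, h5, h6⟩ := not_not.1 hc1
    obtain ⟨t₁, h7, h8⟩ := not_not.1 hc2
    have h9 : z ∉ Bad κ κT y (qc q'.1 t) := fun h => hc3 (Set.mem_iUnion.2 ⟨t, h⟩)
    obtain ⟨t₂, h10, h11⟩ := not_not.1 h9
    rw [h10] at h5
    obtain rfl := Option.some_inj.1 h5
    rw [h6] at h7 h8
    change ent κ κT (y z.1) (qc q'.1 t₂ * z.2).toWord = some t₁ at h7
    rw [h11] at h7
    obtain rfl := Option.some_inj.1 h7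
    refine hz ⟨t₂, h10, ?_⟩
    change q.2 (q'.2 z) = (z.1, qc (q.1 * q'.1) t₂ * z.2)
    rw [h6, h8, qc_mul h1 h1' (fun _ _ _ => trivial) trivial]
    change (z.1, _ * (_ * z.2)) = _
    rw [mul_assoc]
  inv_mem' := by
    rintro q ⟨h1, h2, h3⟩
    have hq : ∀ z, (q.2⁻¹ z).1 = z.1 := fun z => by
      have h4 := h2 (q.2⁻¹ z)
      rw [pai] at h4
      exact h4.symm
    refine ⟨inv_mem h1, hq, ?_⟩
    have hsh : ∀ u : FreeGroup A, {z : E × FreeGroup A | (z.1, u * z.2) ∈
        {z : E × FreeGroup A | ¬ ∃ t, ent κ κT (y z.1) z.2.toWord = some t ∧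
          q.2 z = (z.1, qc q.1 t * z.2)}}.Finite := by
      intro u
      refine h3.preimage (f := fun z : E × FreeGroup A => (z.1, u * z.2)) fun a _ b _ hab => ?_
      have h1 := Prod.mk.inj hab
      exact Prod.ext h1.1 (mul_left_cancel h1.2)
    refine ((finite_Bad (y := y) hB 1).union (Set.finite_iUnion fun t : T =>
      (finite_Bad (y := y) hB (qc q.1⁻¹ t)).union (hsh (qc q.1⁻¹ t)))).subset fun z hz => ?_
    by_contra hc
    rw [Set.mem_union, not_or] at hc
    obtain ⟨hc1, hc2⟩ := hc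
    obtain ⟨t, h5, -⟩ := not_not.1 hc1
    have h6 : z ∉ Bad κ κT y (qc q.1⁻¹ t) := fun h => hc2 (Set.mem_iUnion.2 ⟨t, Or.inl h⟩)
    have h7 : ¬ (z.1, qc q.1⁻¹ t * z.2) ∈
        {z : E × FreeGroup A | ¬ ∃ t, ent κ κT (y z.1) z.2.toWord = some t ∧
          q.2 z = (z.1, qc q.1 t * z.2)} := fun h => hc2 (Set.mem_iUnion.2 ⟨t, Or.inr h⟩)
    obtain ⟨t₂, h8, h9⟩ := not_not.1 h6
    obtain ⟨t₃, h10, h11⟩ := not_not.1 h7
    rw [h8] at h5
    obtain rfl := Option.some_inj.1 h5
    change ent κ κT (y z.1) (qc q.1⁻¹ t₂ * z.2).toWord = some t₃ at h10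
    rw [h9] at h10
    obtain rfl := Option.some_inj.1 h10
    refine hz ⟨t₂, h8, ?_⟩
    change q.2⁻¹ z = (z.1, qc q.1⁻¹ t₂ * z.2)
    rw [Equiv.Perm.inv_eq_iff_eq, h11]
    change z = (z.1, _ * (_ * z.2))
    rw [← mul_assoc, ← qc_mul h1 (inv_mem h1) (fun _ _ _ => trivial) trivial, mul_inv_cancel]
    change z = (z.1, 1 * z.2)
    rw [one_mul]

variable {κ κT y}

/-- The group is in the class. -/
theorem mem_QE {C : ∀ (G : Type) [Group G], Prop} (hC : ExtClass C) [Finite A] [Finite E] [Finite T]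
    (hB : ∀ x : X, {h : FreeGroup A | ent κ κT x h.toWord = none}.Finite) :
    C (QE κ κT y hB) := by
  let f : QE κ κT y hB →* QF (F := FreeGroup A) (Set.univ : Set T) :=
    ((MonoidHom.fst _ _).comp (QE κ κT y hB).subtype).codRestrict _ fun q => q.2.1
  refine mem_of_locallyFinite hC f (mem_QF_free hC.toClosedClass Set.finite_univ
    fun _ _ _ => trivial) fun S hS => ?_
  refine finite_closure_of_supp ((Equiv.Perm.sumCongrHom _ _).comp (QE κ κT y hB).subtype)
    (fun a b hab => Subtype.ext (Equiv.Perm.sumCongrHom_injective hab)) S fun q hq => ?_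
  have h1 : q.1.1 = 1 := congrArg Subtype.val (hS q hq)
  refine ((q.2.2.2).image Sum.inr).subset ?_
  rintro (z | z) hz
  · refine (hz ?_).elim
    change Sum.inl (q.1.1 z) = Sum.inl z
    rw [h1]
    rfl
  · refine ⟨z, ?_, rfl⟩
    rintro ⟨t, -, h3⟩
    refine hz ?_
    change Sum.inr (q.1.2 z) = Sum.inr z
    rw [h3, h1]
    change Sum.inr (z.1, 1 * z.2) = Sum.inr z
    rw [one_mul]

/-- A permutation of a disjoint union which preserves both parts. -/
theorem exists_sumCongr {α β : Type} (q : Equiv.Perm (α ⊕ β)) (h1 : ∀ a, ∃ a', q (Sum.inl a) = Sum.inl a')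
    (h2 : ∀ b, ∃ b', q (Sum.inr b) = Sum.inr b') :
    ∃ p : Equiv.Perm α × Equiv.Perm β, Equiv.Perm.sumCongrHom α β p = q := by
  choose f hf using h1
  choose g hg using h2
  have h3 : ∀ a, ∃ a', q⁻¹ (Sum.inl a) = Sum.inl a' := by
    intro a
    rcases h : q⁻¹ (Sum.inl a) with a' | b
    · exact ⟨a', rfl⟩
    · rw [Equiv.Perm.inv_eq_iff_eq, hg] at h
      cases h
  have h4 : ∀ b, ∃ b', q⁻¹ (Sum.inr b) = Sum.inr b' := by
    intro b
    rcases h : q⁻¹ (Sum.inr b) with a | b'
    · rw [Equiv.Perm.inv_eq_iff_eq, hf] at h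
      cases h
    · exact ⟨b', rfl⟩
  choose f' hf' using h3
  choose g' hg' using h4
  refine ⟨(⟨f, f', fun a => ?_, fun a => ?_⟩, ⟨g, g', fun b => ?_, fun b => ?_⟩), ?_⟩
  · apply Sum.inl_injective (β := β)
    rw [← hf', ← hf, pia]
  · apply Sum.inl_injective (β := β)
    rw [← hf, ← hf', pai]
  · apply Sum.inr_injective (α := α)
    rw [← hg', ← hg, pia]
  · apply Sum.inr_injective (α := α)
    rw [← hg, ← hg', pai]
  · ext z
    rcases z with a | b
    · exact (hf a).symm
    · exact (hg b).symm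

/-- The permutations of the level group. -/
theorem grS_right_mem [Finite A] [Finite E] [Finite T]
    (hB : ∀ x : X, {h : FreeGroup A | ent κ κT x h.toWord = none}.Finite) {x : (grS κ κT y).Am}
    (hx : x ∈ (grS κ κT y).D) :
    x.right.1 ∈ (QE κ κT y hB).map (Equiv.Perm.sumCongrHom _ _) := by
  obtain ⟨w, h1, -⟩ := (grS κ κT y).D.inv_mem hx
  have h2 : (grS κ κT y).Run ((grS κ κT y).parts {z | z.1 = z.2}) w
      ((grS κ κT y).parts {z | z.2 = (x.right.1)⁻¹ z.1}) := by
    have e1 : ({z | z.1 = z.2} : Set (((T × FreeGroup A) ⊕ (E × FreeGroup A)) ×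
        ((T × FreeGroup A) ⊕ (E × FreeGroup A)))) = Gr.diag 1 := by
      ext z
      exact ⟨fun h => h.symm, fun h => h.symm⟩
    rw [e1]
    exact h1
  have key : ∀ p p', (grS κ κT y).Near (w.length + 1) p p' → ∃ u : List (A × Bool),
      x.right.1 p = (grS κ κT y).mv u p ∧ x.right.1 p' = (grS κ κT y).mv u p' := by
    intro p p' hp
    obtain ⟨u, -, h3, h4⟩ := Gr.window h2 hp
    rw [inv_inv] at h3 h4
    exact ⟨u, h3, h4⟩
  obtain ⟨p, hp⟩ := exists_sumCongr x.right.1 (fun z => by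
    obtain ⟨u, h3, -⟩ := key (Sum.inl z) (Sum.inl z) fun _ _ => rfl
    exact ⟨_, h3.trans (mv_inl u z.1 z.2)⟩) (fun z => by
    obtain ⟨u, h3, -⟩ := key (Sum.inr z) (Sum.inr z) fun _ _ => rfl
    exact ⟨_, h3.trans (mv_inr u z.1 z.2)⟩)
  have hl : ∀ z, x.right.1 (Sum.inl z) = Sum.inl (p.1 z) := fun z => by
    rw [← hp]
    rfl
  have hr : ∀ z, x.right.1 (Sum.inr z) = Sum.inr (p.2 z) := fun z => by
    rw [← hp]
    rfl
  refine ⟨p, ⟨⟨fun z => ?_, fun z hz => (hz trivial).elim, fun k t h _ => ?_⟩, fun z => ?_, ?_⟩, hp⟩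
  · obtain ⟨u, h3, -⟩ := key (Sum.inl z) (Sum.inl z) fun _ _ => rfl
    rw [hl] at h3
    have h4 := h3.trans (mv_inl u z.1 z.2)
    rw [Sum.inl_injective h4]
  · obtain ⟨u, h3, h4⟩ := key (Sum.inl (t, h)) (Sum.inl (k • t, h * k⁻¹)) fun u _ => by
      rw [mv_inl, mv_inl]
      change κT ((FreeGroup.mk u * h) • t) = κT ((FreeGroup.mk u * (h * k⁻¹)) • k • t)
      rw [smul_smul, mul_assoc, mul_assoc, inv_mul_cancel, mul_one]
    rw [hl] at h3 h4
    have h5 := Sum.inl_injective (h3.trans (mv_inl u _ _))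
    have h6 := Sum.inl_injective (h4.trans (mv_inl u _ _))
    rw [h5, h6, mul_assoc]
  · obtain ⟨u, h3, -⟩ := key (Sum.inr z) (Sum.inr z) fun _ _ => rfl
    rw [hr] at h3
    have h4 := h3.trans (mv_inr u z.1 z.2)
    rw [Sum.inr_injective h4]
  · have hfin : {u : List (A × Bool) | u.length ≤ w.length + 1}.Finite := List.finite_length_le _ _
    refine (((finite_Bad (y := y) hB 1)).union (hfin.biUnion fun u _ =>
      finite_Bad (y := y) hB (FreeGroup.mk u))).subset fun z hz => ?_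
    by_contra hc
    rw [Set.mem_union, not_or] at hc
    obtain ⟨hc1, hc2⟩ := hc
    obtain ⟨t, h5, -⟩ := not_not.1 hc1
    obtain ⟨u, h3, h4⟩ := key (Sum.inr z) (Sum.inl (t, 1)) fun u hu => by
      have h6 : z ∉ Bad κ κT y (FreeGroup.mk u) := fun h => hc2 (Set.mem_biUnion hu h)
      obtain ⟨t', h7, h8⟩ := not_not.1 h6
      rw [h7] at h5
      obtain rfl := Option.some_inj.1 h5
      have h9 := mv_inr (κ := κ) (κT := κT) (y := y) u z.1 z.2
      change (grS κ κT y).ν ((grS κ κT y).mv u (Sum.inr (z.1, z.2))) = _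
      rw [h9, mv_inl, mul_one]
      change nu κ κT (y z.1) (FreeGroup.mk u * z.2) = κT (FreeGroup.mk u • t')
      exact nu_some h8
    refine hz ⟨t, h5, ?_⟩
    rw [hr] at h3
    rw [hl] at h4
    have h6 := Sum.inr_injective (h3.trans (mv_inr u z.1 z.2))
    have h7 := Sum.inl_injective (h4.trans (mv_inl u t 1))
    rw [h6]
    unfold qc
    rw [h7, mul_one]

/-- **The level group of the union of the lines of `T` and of finitely many trees.** -/
theorem mem_grS {C : ∀ (G : Type) [Group G], Prop} (hC : ExtClass C) [Finite A] [Finite E] [Finite T]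
    (hB : ∀ x : X, {h : FreeGroup A | ent κ κT x h.toWord = none}.Finite) :
    C (grS (A := A) κ κT y).D :=
  Gr.D_mem hC _ (hC.iso _ _ ((QE κ κT y hB).equivMapOfInjective _
    Equiv.Perm.sumCongrHom_injective) (mem_QE hC hB)) fun _ hx => grS_right_mem hB hx

/-- **The level group of a set.** -/
theorem mem_grF_of_ent {C : ∀ (G : Type) [Group G], Prop} (hC : ExtClass C) [Finite A] [Finite T]
    (hκ : (Set.range κ).Finite)
    (hT : ∀ t, ∃ x, κ x = κT t ∧ ∀ a : A, κ (FreeGroup.of a • x) = κT (FreeGroup.of a • t))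
    (hB : ∀ x : X, {h : FreeGroup A | ent κ κT x h.toWord = none}.Finite) :
    C (grF (A := A) κ).D := by
  let pat : X → ℕ × (A → ℕ) := fun x => (κ x, fun a => κ (FreeGroup.of a • x))
  have hpat : (Set.range pat).Finite := by
    refine (hκ.prod (Set.Finite.pi' (t := fun _ : A => Set.range κ) fun _ => hκ)).subset ?_
    rintro _ ⟨x, rfl⟩
    exact ⟨⟨x, rfl⟩, fun a => ⟨_, rfl⟩⟩
  have hE : Finite (Set.range pat) := hpat.to_subtype
  let y : Set.range pat → X := fun e => e.2.choose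
  have hy : ∀ e, pat (y e) = e.1 := fun e => e.2.choose_spec
  -- the types of the trees
  have hty : ∀ (e : Set.range pat) (h : FreeGroup A), (∃ t, ent κ κT (y e) h.toWord = some t ∧
      (grT κ κT y).ty (e, h) = (κT t, fun a => κT (FreeGroup.of a • t))) ∨
      (ent κ κT (y e) h.toWord = none ∧ (grT κ κT y).ty (e, h) = pat (h • y e)) := by
    intro e h
    have h1 : (grT κ κT y).ty (e, h) =
        (nu κ κT (y e) h, fun a => nu κ κT (y e) (FreeGroup.of a * h)) := rfl
    rcases h2 : ent κ κT (y e) h.toWord with _ | t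
    · right
      refine ⟨rfl, ?_⟩
      rw [h1]
      refine Prod.ext (nu_none h2) (funext fun a => ?_)
      change nu κ κT (y e) (FreeGroup.of a * h) = _
      rw [nu_step, h2]
      rfl
    · left
      refine ⟨t, rfl, ?_⟩
      rw [h1]
      refine Prod.ext (nu_some h2) (funext fun a => ?_)
      change nu κ κT (y e) (FreeGroup.of a * h) = _
      rw [nu_step, h2]
      rfl
  have hpt : ∀ x, (grF (A := A) κ).ty (x, 1) = pat x := fun x => by
    rw [grF_ty, one_smul]
  have hTt : ∀ t, ∃ x, pat x = (κT t, fun a : A => κT (FreeGroup.of a • t)) := fun t => by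
    obtain ⟨x, h1, h2⟩ := hT t
    exact ⟨x, Prod.ext h1 (funext h2)⟩
  refine D_mem_of_types (grF κ) (grS κ κT y) hC ?_ ?_ (mem_grS hC hB)
  · rintro ⟨x, g⟩
    let e : Set.range pat := ⟨pat (g • x), _, rfl⟩
    refine ⟨Sum.inr (e, 1), ?_⟩
    change (grT κ κT y).ty (e, 1) = (grF κ).ty (x, g)
    have h1 : (grF (A := A) κ).ty (x, g) = e.1 := by rw [grF_ty]
    rw [h1]
    rcases hty e 1 with ⟨t, h2, h3⟩ | ⟨-, h3⟩
    · rw [FreeGroup.toWord_one] at h2
      have h4 : Same A κ κT t (y e) := pick_some h2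
      rw [h3, ← hy e]
      exact Prod.ext h4.1 (funext h4.2)
    · rw [h3, one_smul, hy]
  · rintro (⟨t, g⟩ | ⟨e, h⟩)
    · obtain ⟨x, hx⟩ := hTt (g • t)
      refine ⟨(x, 1), ?_⟩
      rw [hpt, hx]
      change _ = (grF κT).ty (t, g)
      rw [grF_ty]
    · change ∃ p, (grF κ).ty p = (grT κ κT y).ty (e, h)
      rcases hty e h with ⟨t, -, h3⟩ | ⟨-, h3⟩
      · obtain ⟨x, hx⟩ := hTt t
        exact ⟨(x, 1), by rw [hpt, hx, h3]⟩
      · exact ⟨(h • y e, 1), by rw [hpt, h3]⟩

end Pool.Agent.ZT
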