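import Pool.Agent.ZT.State

/-!
# Tarski's theorem for clopen sets

Let `Γ` act on a compact space `X`. If a clopen set `U` has no invariant finitely additive measure
on the clopen sets with `0 < m U < ∞`, there is `k` such that `2 k` copies of `U` can be mapped injectively
into `k` copies of `U` by locally constant elements of `Γ`.
-/

set_option autoImplicit false

open Topology

namespace Pool.Agent.ZT

section lc

variable {X Y : Type} [TopologicalSpace X]

theorem lc_bind {κ : Type} {l : X → κ} (hl : IsLocallyConstant l) {F : κ → X → Y}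
    (hF : ∀ k, IsLocallyConstant (F k)) : IsLocallyConstant fun x => F (l x) x := by
  rw [IsLocallyConstant.iff_eventually_eq]
  intro x
  filter_upwards [hl.eventually_eq x, (hF (l x)).eventually_eq x] with y h1 h2
  rw [h1, h2]

theorem lc_smul {Γ : Type} [Group Γ] [MulAction Γ X] [ContinuousConstSMul Γ X] {c : X → Γ}
    (hc : IsLocallyConstant c) {F : X → Y} (hF : IsLocallyConstant F) :
    IsLocallyConstant fun x => F (c x • x) :=
  lc_bind (F := fun g x => F (g • x)) hc fun g => hF.comp_continuous (continuous_const_smul g)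

theorem lc_set {ι : Type} [Finite ι] {V : ι → Set X} (h : ∀ i, IsClopen (V i)) :
    IsLocallyConstant fun x => {i | x ∈ V i} := by
  rw [IsLocallyConstant.iff_eventually_eq]
  intro x
  have h1 : ∀ i, ∀ᶠ y in 𝓝 x, (y ∈ V i ↔ x ∈ V i) := by
    intro i
    by_cases hx : x ∈ V i
    · filter_upwards [(h i).isOpen.mem_nhds hx] with y hy
      exact ⟨fun _ => hx, fun _ => hy⟩
    · filter_upwards [(h i).compl.isOpen.mem_nhds hx] with y hy
      exact ⟨fun hh => (hy hh).elim, fun hh => (hx hh).elim⟩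
  filter_upwards [Filter.eventually_all.2 h1] with y hy
  ext i
  exact hy i

theorem clopen_lt {f : X → ℤ} (hf : IsLocallyConstant f) (j : ℤ) : IsClopen {x | j < f x} := by
  have h1 : {x | j < f x} = f ⁻¹' (Set.Ioi j) := rfl
  rw [h1]
  exact ⟨⟨by rw [← Set.preimage_compl]; exact hf _⟩, hf _⟩

end lc

section sub

variable (Γ : Type) {X : Type} [Group Γ] [TopologicalSpace X] [MulAction Γ X]

/-- The disjoint union of the `V i` can be mapped injectively into the disjoint union of the `W k` by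
locally constant elements of `Γ`. -/
def Sb {ι κ : Type} (V : ι → Set X) (W : κ → Set X) : Prop :=
  ∃ (c : ι → X → Γ) (l : ι → X → κ), (∀ i, IsLocallyConstant (c i)) ∧
    (∀ i, IsLocallyConstant (l i)) ∧ (∀ i, ∀ x ∈ V i, c i x • x ∈ W (l i x)) ∧
    ∀ i j x y, x ∈ V i → y ∈ V j → c i x • x = c j y • y → l i x = l j y → i = j ∧ x = y

variable {Γ} {ι κ μ ν : Type}

theorem Sb.trans [ContinuousConstSMul Γ X] {V : ι → Set X} {W : κ → Set X} {Z : μ → Set X}
    (h : Sb Γ V W) (h' : Sb Γ W Z) : Sb Γ V Z := by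
  obtain ⟨c, l, h1, h2, h3, h4⟩ := h
  obtain ⟨c', l', h1', h2', h3', h4'⟩ := h'
  refine ⟨fun i x => c' (l i x) (c i x • x) * c i x, fun i x => l' (l i x) (c i x • x), fun i => ?_,
    fun i => ?_, fun i x hx => ?_, fun i j x y hx hy hxy hl => ?_⟩
  · exact IsLocallyConstant.mul
      (lc_bind (F := fun k x => c' k (c i x • x)) (h2 i) fun k => lc_smul (h1 i) (h1' k)) (h1 i)
  · exact lc_bind (F := fun k x => l' k (c i x • x)) (h2 i) fun k => lc_smul (h1 i) (h2' k)
  · rw [mul_smul]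
    exact h3' _ _ (h3 i x hx)
  · rw [mul_smul, mul_smul] at hxy
    obtain ⟨e1, e2⟩ := h4' _ _ _ _ (h3 i x hx) (h3 j y hy) hxy hl
    exact h4 i j x y hx hy e2 e1

theorem Sb.sum {V : ι → Set X} {W : κ → Set X} {V' : μ → Set X} {W' : ν → Set X}
    (h : Sb Γ V W) (h' : Sb Γ V' W') : Sb Γ (Sum.elim V V') (Sum.elim W W') := by
  obtain ⟨c, l, h1, h2, h3, h4⟩ := h
  obtain ⟨c', l', h1', h2', h3', h4'⟩ := h'
  refine ⟨Sum.elim c c', Sum.elim (fun i x => Sum.inl (l i x)) (fun i x => Sum.inr (l' i x)), ?_, ?_,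
    ?_, ?_⟩
  · rintro (i | i)
    · exact h1 i
    · exact h1' i
  · rintro (i | i)
    · exact (h2 i).comp Sum.inl
    · exact (h2' i).comp Sum.inr
  · rintro (i | i) x hx
    · exact h3 i x hx
    · exact h3' i x hx
  · rintro (i | i) (j | j) x y hx hy hxy hl
    · obtain ⟨e1, e2⟩ := h4 i j x y hx hy hxy (Sum.inl_injective hl)
      exact ⟨congrArg Sum.inl e1, e2⟩
    · cases hl
    · cases hl
    · obtain ⟨e1, e2⟩ := h4' i j x y hx hy hxy (Sum.inr_injective hl)
      exact ⟨congrArg Sum.inr e1, e2⟩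

/-- Comparison of the fibres. -/
theorem sb_fib [Finite ι] [Finite κ] [Nonempty κ] {V : ι → Set X} {W : κ → Set X}
    (hV : ∀ i, IsClopen (V i)) (hW : ∀ k, IsClopen (W k))
    (h : ∀ x, {i | x ∈ V i}.encard ≤ {k | x ∈ W k}.encard) : Sb Γ V W := by
  have h1 : ∀ (S : Set ι) (T : Set κ), ∃ f : ι → κ, S.encard ≤ T.encard →
      (∀ i ∈ S, f i ∈ T) ∧ Set.InjOn f S := by
    intro S T
    by_cases hST : S.encard ≤ T.encard
    · obtain ⟨f, h2, h3⟩ := S.toFinite.exists_injOn_of_encard_le hST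
      exact ⟨f, fun _ => ⟨fun i hi => h2 hi, h3⟩⟩
    · exact ⟨fun _ => Classical.arbitrary κ, fun hh => (hST hh).elim⟩
  choose f hf using h1
  refine ⟨fun _ _ => 1, fun i x => f {i | x ∈ V i} {k | x ∈ W k} i, fun i => IsLocallyConstant.const 1,
    fun i => ?_, fun i x hx => ?_, fun i j x y hx hy hxy hl => ?_⟩
  · exact lc_bind (F := fun S x => f S {k | x ∈ W k} i) (lc_set hV) fun S =>
      (lc_set hW).comp fun T => f S T i
  · rw [one_smul]
    exact (hf _ _ (h x)).1 i hx
  · rw [one_smul, one_smul] at hxy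
    subst hxy
    exact ⟨(hf _ _ (h x)).2 hx hy hl, rfl⟩

theorem sb_refl (V : ι → Set X) : Sb Γ V V :=
  ⟨fun _ _ => 1, fun i _ => i, fun _ => IsLocallyConstant.const _, fun _ => IsLocallyConstant.const _,
    fun i x hx => by rwa [one_smul], fun i j x y _ _ hxy hl => ⟨hl, by rwa [one_smul, one_smul] at hxy⟩⟩

open Classical in
omit [TopologicalSpace X] in
theorem encard_const [Fintype κ] (U : Set X) (x : X) :
    {_k : κ | x ∈ U}.encard = ((if x ∈ U then Fintype.card κ else 0 : ℕ) : ℕ∞) := by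
  by_cases hx : x ∈ U
  · rw [if_pos hx]
    have h1 : {_k : κ | x ∈ U} = Set.univ := by
      ext k
      exact ⟨fun _ => trivial, fun _ => hx⟩
    rw [h1, Set.encard_univ, ENat.card_eq_coe_fintype_card]
  · rw [if_neg hx]
    have h1 : {_k : κ | x ∈ U} = ∅ := by
      ext k
      exact ⟨fun h => (hx h).elim, fun h => h.elim⟩
    rw [h1, Set.encard_empty]
    rfl

theorem encard_sum (S : Set ι) (T : Set κ) (A : Set (ι ⊕ κ)) (h1 : ∀ i, Sum.inl i ∈ A ↔ i ∈ S)
    (h2 : ∀ i, Sum.inr i ∈ A ↔ i ∈ T) : A.encard = S.encard + T.encard := by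
  have h3 : A = Sum.inl '' S ∪ Sum.inr '' T := by
    ext (i | i)
    · rw [h1]
      constructor
      · exact fun h => Or.inl ⟨i, h, rfl⟩
      · rintro (⟨j, hj, e⟩ | ⟨j, hj, e⟩)
        · rwa [← Sum.inl_injective e]
        · cases e
    · rw [h2]
      constructor
      · exact fun h => Or.inr ⟨i, h, rfl⟩
      · rintro (⟨j, hj, e⟩ | ⟨j, hj, e⟩)
        · cases e
        · rwa [← Sum.inr_injective e]
  rw [h3, Set.encard_union_eq, Sum.inl_injective.encard_image, Sum.inr_injective.encard_image]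
  rw [Set.disjoint_left]
  rintro _ ⟨i, -, rfl⟩ ⟨j, -, e⟩
  cases e

end sub

section iter

variable {Γ X : Type} [Group Γ] [TopologicalSpace X] [MulAction Γ X] [ContinuousConstSMul Γ X]

/-- The iteration. -/
theorem sb_iter {ι : Type} [Finite ι] {V : ι → Set X} (hV : ∀ i, IsClopen (V i)) {U : Set X}
    (hU : IsClopen U) (hne : U.Nonempty) (h : Sb Γ (Sum.elim V fun _ : Unit => U) V) (N : ℕ) :
    Sb Γ (Sum.elim V fun _ : Fin N => U) V := by
  classical
  have : Nonempty ι := by
    obtain ⟨x, hx⟩ := hne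
    obtain ⟨c, l, -⟩ := h
    exact ⟨l (Sum.inr ()) x⟩
  have key : ∀ (κ : Type) [Fintype κ] (x : X),
      {i : ι ⊕ κ | x ∈ Sum.elim V (fun _ => U) i}.encard =
        {i | x ∈ V i}.encard + ((if x ∈ U then Fintype.card κ else 0 : ℕ) : ℕ∞) := by
    intro κ _ x
    rw [← encard_const]
    exact encard_sum _ _ _ (fun _ => Iff.rfl) fun _ => Iff.rfl
  have hcl : ∀ (κ : Type) (i : ι ⊕ κ), IsClopen (Sum.elim V (fun _ => U) i) := by
    rintro κ (i | i)
    · exact hV i
    · exact hU
  induction N with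
  | zero =>
    refine sb_fib (hcl _) hV fun x => ?_
    rw [key, Fintype.card_fin, ite_self, Nat.cast_zero, add_zero]
  | succ N ih =>
    have h1 : Sb Γ (Sum.elim V fun _ : Fin (N + 1) => U)
        (Sum.elim (Sum.elim V fun _ : Unit => U) fun _ : Fin N => U) := by
      refine sb_fib (hcl _) ?_ fun x => ?_
      · rintro (i | i)
        · exact hcl _ i
        · exact hU
      · have h2 : {k : (ι ⊕ Unit) ⊕ Fin N | x ∈ Sum.elim (Sum.elim V fun _ : Unit => U)
            (fun _ : Fin N => U) k}.encard = {i | x ∈ V i}.encard +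
              ((if x ∈ U then Fintype.card Unit else 0 : ℕ) : ℕ∞) +
              ((if x ∈ U then Fintype.card (Fin N) else 0 : ℕ) : ℕ∞) := by
          rw [← key, ← encard_const]
          exact encard_sum _ _ _ (fun _ => Iff.rfl) fun _ => Iff.rfl
        rw [h2, key, add_assoc]
        by_cases hx : x ∈ U
        · rw [if_pos hx, if_pos hx, if_pos hx, Fintype.card_fin, Fintype.card_fin, Fintype.card_unit,
            ← Nat.cast_add, Nat.add_comm 1 N]
        · simp only [if_neg hx, Nat.cast_zero, add_zero, le_refl]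
    exact (h1.trans (h.sum (sb_refl _))).trans ih

end iter

section cone

variable (Γ : Type) {X : Type} [Group Γ] [TopologicalSpace X] [MulAction Γ X]
  [ContinuousConstSMul Γ X]

/-- The locally constant functions which vanish outside finitely many translates of `U`. -/
def GU (U : Set X) : AddSubgroup (X → ℤ) where
  carrier := {h | IsLocallyConstant h ∧ ∃ T : Finset Γ, ∀ x, h x ≠ 0 → ∃ γ ∈ T, γ • x ∈ U}
  zero_mem' := ⟨IsLocallyConstant.const 0, ∅, fun x hx => (hx rfl).elim⟩
  add_mem' := by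
    classical
    rintro f g ⟨hf, T, hT⟩ ⟨hg, T', hT'⟩
    refine ⟨hf.add hg, T ∪ T', fun x hx => ?_⟩
    by_cases h1 : f x = 0
    · obtain ⟨γ, h2, h3⟩ := hT' x fun h => hx (by rw [Pi.add_apply, h1, h, add_zero])
      exact ⟨γ, Finset.mem_union_right _ h2, h3⟩
    · obtain ⟨γ, h2, h3⟩ := hT x h1
      exact ⟨γ, Finset.mem_union_left _ h2, h3⟩
  neg_mem' := by
    rintro f ⟨hf, T, hT⟩
    exact ⟨hf.neg, T, fun x hx => hT x fun h => hx (by rw [Pi.neg_apply, h, neg_zero])⟩

variable {Γ} {U : Set X}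

theorem GU_shift {f : X → ℤ} (hf : f ∈ GU Γ U) (γ : Γ) : (fun x => f (γ • x)) ∈ GU Γ U := by
  classical
  obtain ⟨h1, T, hT⟩ := hf
  refine ⟨h1.comp_continuous (continuous_const_smul γ), T.image (· * γ), fun x hx => ?_⟩
  obtain ⟨δ, h2, h3⟩ := hT _ hx
  exact ⟨δ * γ, Finset.mem_image_of_mem _ h2, by rwa [mul_smul]⟩

omit [ContinuousConstSMul Γ X] in
theorem GU_comp {f : X → ℤ} (hf : f ∈ GU Γ U) (q : ℤ → ℤ) (hq : q 0 = 0) :
    (fun x => q (f x)) ∈ GU Γ U := by
  obtain ⟨h1, T, hT⟩ := hf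
  refine ⟨h1.comp q, T, fun x hx => hT x fun h => hx ?_⟩
  change q (f x) = 0
  rw [h, hq]

variable (Γ U) in
/-- The cone. -/
def PU : AddSubmonoid (GU Γ U) where
  carrier := {h | ∃ (ι : Type) (_ : Fintype ι) (f : ι → X → ℤ) (γ : ι → Γ),
    (∀ i, f i ∈ GU Γ U) ∧ ∀ x, ∑ i, (f i x - f i (γ i • x)) ≤ h.1 x}
  zero_mem' := ⟨Empty, inferInstance, fun e => e.elim, fun e => e.elim, fun e => e.elim,
    fun x => by simp⟩
  add_mem' := by
    rintro a b ⟨ι, _, f, γ, h1, h2⟩ ⟨κ, _, g, δ, h3, h4⟩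
    refine ⟨ι ⊕ κ, inferInstance, Sum.elim f g, Sum.elim γ δ, ?_, fun x => ?_⟩
    · rintro (i | i)
      · exact h1 i
      · exact h3 i
    · rw [Fintype.sum_sum_type]
      exact add_le_add (h2 x) (h4 x)

end cone

end Pool.Agent.ZT
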