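import Pool.Agent.ZT.Full

/-!
# Actions of locally virtually free groups

`GG Γ X` is the topological full group of the transformation groupoid of an action of the group
`Γ` on the space `X`. If `F` is a free subgroup of finite index, then it embeds into the group
`GG` of a free group which acts on the product of `X` and the finite set of the cosets.
-/

set_option autoImplicit false

namespace Pool.Agent.ZT

open Pool.Agent.Helper29.BA Pool.Agent.T59

section defs

variable (Γ X : Type) [Group Γ] [TopologicalSpace X] [MulAction Γ X] [ContinuousConstSMul Γ X]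

/-- The topological full group of the transformation groupoid of the action of `Γ` on `X`. -/
def GG : Subgroup (Equiv.Perm (X × Γ)) where
  carrier := {q | ∃ c : X → Γ, IsLocallyConstant c ∧ ∀ x g, q (x, g) = (x, c (g • x) * g)}
  one_mem' := ⟨fun _ => 1, IsLocallyConstant.const 1, fun x g => by rw [one_mul]; rfl⟩
  mul_mem' := by
    rintro a b ⟨c, hc, h⟩ ⟨d, hd, h'⟩
    refine ⟨fun x => c (d x • x) * d x, ?_, fun x g => ?_⟩
    · refine IsLocallyConstant.mul (lc_comp hc fun x => ⟨Homeomorph.smul (d x), ?_⟩) hd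
      filter_upwards [hd.eventually_eq x] with y hy
      rw [hy]
      rfl
    · rw [Equiv.Perm.mul_apply, h', h, mul_smul, mul_assoc]
  inv_mem' := by
    rintro a ⟨c, hc, h⟩
    have hai : ∀ x, a (a⁻¹ x) = x := fun x => Equiv.apply_symm_apply a x
    have hfst : ∀ x, (a⁻¹ x).1 = x.1 := by
      intro x
      have h1 := hai x
      have h2 : a (a⁻¹ x) = ((a⁻¹ x).1, c ((a⁻¹ x).2 • (a⁻¹ x).1) * (a⁻¹ x).2) := h _ _
      have h3 := h2.symm.trans h1
      calc (a⁻¹ x).1 = ((a⁻¹ x).1, c ((a⁻¹ x).2 • (a⁻¹ x).1) * (a⁻¹ x).2).1 := rfl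
        _ = x.1 := by rw [h3]
    have hd : ∀ x, c ((a⁻¹ (x, 1)).2 • x) * (a⁻¹ (x, 1)).2 = 1 := by
      intro x
      have h1 := hai (x, 1)
      have h2 : a⁻¹ (x, 1) = (x, (a⁻¹ (x, 1)).2) := Prod.ext (hfst (x, 1)) rfl
      rw [h2, h] at h1
      exact congrArg Prod.snd h1
    have hinv : ∀ x g g', c (g' • x) * g' = g → a⁻¹ (x, g) = (x, g') := by
      intro x g g' hg
      rw [Equiv.Perm.inv_eq_iff_eq, h, hg]
    refine ⟨fun x => (a⁻¹ (x, 1)).2, ?_, fun x g => ?_⟩
    · rw [IsLocallyConstant.iff_eventually_eq]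
      intro x
      have h2 := (Homeomorph.smul (α := X) (a⁻¹ (x, 1)).2).continuous.continuousAt.eventually
        (hc.eventually_eq ((a⁻¹ (x, 1)).2 • x))
      filter_upwards [h2] with y hy
      have h3 := hinv y 1 (a⁻¹ (x, 1)).2 (by
        have h4 : c ((a⁻¹ (x, 1)).2 • y) = c ((a⁻¹ (x, 1)).2 • x) := hy
        rw [h4, hd])
      show (a⁻¹ (y, 1)).2 = _
      rw [h3]
    · refine hinv x g _ ?_
      rw [mul_smul, ← mul_assoc, hd, one_mul]

/-- The topological full group of the action. -/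
def TG : Subgroup (X ≃ₜ X) where
  carrier := {h | ∃ c : X → Γ, IsLocallyConstant c ∧ ∀ x, h x = c x • x}
  one_mem' := ⟨fun _ => 1, IsLocallyConstant.const 1, fun x => (one_smul Γ x).symm⟩
  mul_mem' := by
    rintro a b ⟨c, hc, h⟩ ⟨d, hd, h'⟩
    refine ⟨fun x => c (b x) * d x, (hc.comp_continuous b.continuous).mul hd, fun x => ?_⟩
    rw [mul_smul, ← h']
    exact h (b x)
  inv_mem' := by
    rintro a ⟨c, hc, h⟩
    refine ⟨fun x => (c (a⁻¹ x))⁻¹, (hc.comp_continuous (a⁻¹ : X ≃ₜ X).continuous).inv,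
      fun x => ?_⟩
    have h1 : a (a⁻¹ x) = x := a.apply_symm_apply x
    have h2 := h (a⁻¹ x)
    rw [h1] at h2
    exact (inv_smul_eq_iff.2 h2).symm

variable {Γ X}

omit [TopologicalSpace X] [ContinuousConstSMul Γ X] in
/-- The value of the cocycle of an element of the full group. -/
theorem GG_snd {q : Equiv.Perm (X × Γ)} {c : X → Γ} (h : ∀ x g, q (x, g) = (x, c (g • x) * g))
    (x : X) : (q (x, 1)).2 = c x := by
  rw [h, one_smul, mul_one]

theorem GG_apply {q : Equiv.Perm (X × Γ)} (hq : q ∈ GG Γ X) (x : X) (g : Γ) :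
    q (x, g) = (x, (q (g • x, 1)).2 * g) := by
  obtain ⟨c, hc, h⟩ := hq
  rw [GG_snd h, h]

theorem GG_lc {q : Equiv.Perm (X × Γ)} (hq : q ∈ GG Γ X) :
    IsLocallyConstant fun x => (q (x, 1)).2 := by
  obtain ⟨c, hc, h⟩ := hq
  have h1 : (fun x => (q (x, 1)).2) = c := funext fun x => GG_snd h x
  rw [h1]
  exact hc

theorem GG_mul {a b : Equiv.Perm (X × Γ)} (ha : a ∈ GG Γ X) (hb : b ∈ GG Γ X) (x : X) :
    ((a * b) (x, 1)).2 = (a ((b (x, 1)).2 • x, 1)).2 * (b (x, 1)).2 := by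
  rw [Equiv.Perm.mul_apply, GG_apply hb x 1, one_smul, mul_one, GG_apply ha]

end defs

/-! ### The case of a free group -/

section free

variable {A X : Type} [TopologicalSpace X] [MulAction (FreeGroup A) X]
  [ContinuousConstSMul (FreeGroup A) X]

/-- The homeomorphisms of the generators. -/
def gens (A X : Type) [TopologicalSpace X] [MulAction (FreeGroup A) X]
    [ContinuousConstSMul (FreeGroup A) X] (a : A) : X ≃ₜ X := Homeomorph.smul (FreeGroup.of a)

theorem ac_gens (g : FreeGroup A) (x : X) : ac (gens A X) g x = g • x := by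
  induction g using FreeGroup.induction_on generalizing x with
  | C1 => rw [ac_one, one_smul]
  | of a =>
    have h1 : ac (gens A X) (FreeGroup.of a) = gens A X a := FreeGroup.lift_apply_of
    rw [h1]
    rfl
  | inv_of a h =>
    have h1 : ac (gens A X) (FreeGroup.of a) ((FreeGroup.of a)⁻¹ • x) = x := by
      have h2 := h ((FreeGroup.of a)⁻¹ • x)
      rw [smul_inv_smul] at h2
      exact h2
    conv_lhs => rw [← h1]
    rw [ac_inv_ac]
  | mul g h hg hh => rw [ac_mul, hh, hg, mul_smul]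

theorem GG_free : GG (FreeGroup A) X = FG (gens A X) := by
  ext q
  constructor
  · rintro ⟨c, hc, h⟩
    exact ⟨c, hc, fun x g => by rw [h, ac_gens]⟩
  · rintro ⟨c, hc, h⟩
    exact ⟨c, hc, fun x g => by rw [h, ac_gens]⟩

end free

/-! ### Subgroups -/

section sub

variable {Γ X : Type} [Group Γ] [TopologicalSpace X] [MulAction Γ X] [ContinuousConstSMul Γ X]

instance subCont (Δ : Subgroup Γ) : ContinuousConstSMul Δ X :=
  ⟨fun g => continuous_const_smul (g : Γ)⟩

/-- The elements of the full group with values in a subgroup. -/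
def SG (Δ : Subgroup Γ) : Subgroup (Equiv.Perm (X × Γ)) where
  carrier := {q | q ∈ GG Γ X ∧ ∀ x, (q (x, 1)).2 ∈ Δ}
  one_mem' := ⟨one_mem _, fun _ => one_mem _⟩
  mul_mem' := by
    rintro a b ⟨ha, ha'⟩ ⟨hb, hb'⟩
    refine ⟨mul_mem ha hb, fun x => ?_⟩
    rw [GG_mul ha hb]
    exact mul_mem (ha' _) (hb' _)
  inv_mem' := by
    rintro a ⟨ha, ha'⟩
    refine ⟨inv_mem ha, fun x => ?_⟩
    have h1 := GG_mul ha (inv_mem ha) x
    rw [mul_inv_cancel] at h1
    have h2 : (a⁻¹ (x, 1)).2 = ((a ((a⁻¹ (x, 1)).2 • x, 1)).2)⁻¹ :=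
      eq_inv_of_mul_eq_one_right h1.symm
    rw [h2]
    exact inv_mem (ha' _)

theorem SG_snd {Δ : Subgroup Γ} {q : Equiv.Perm (X × Γ)} (hq : q ∈ SG (X := X) Δ) (x : X)
    (g : Δ) : (q (x, (g : Γ))).2 ∈ Δ := by
  rw [GG_apply hq.1]
  exact mul_mem (hq.2 _) g.2

/-- The restriction to a subgroup. -/
def toSub (Δ : Subgroup Γ) : SG (X := X) Δ →* Equiv.Perm (X × Δ) :=
  MonoidHom.toHomPerm
    { toFun := fun q p => (p.1, ⟨(q.1 (p.1, (p.2 : Γ))).2, SG_snd q.2 p.1 p.2⟩)
      map_one' := rfl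
      map_mul' := fun a b => by
        funext p
        refine Prod.ext rfl (Subtype.ext ?_)
        show (a.1 (b.1 (p.1, (p.2 : Γ)))).2 = (a.1 (p.1, (b.1 (p.1, (p.2 : Γ))).2)).2
        have h1 : b.1 (p.1, (p.2 : Γ)) = (p.1, (b.1 (p.1, (p.2 : Γ))).2) := by
          refine Prod.ext ?_ rfl
          rw [GG_apply b.2.1]
        rw [← h1] }

theorem toSub_mem (Δ : Subgroup Γ) (q : SG (X := X) Δ) : toSub Δ q ∈ GG Δ X := by
  refine ⟨fun x => ⟨(q.1 (x, 1)).2, q.2.2 x⟩, ?_, fun x g => ?_⟩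
  · rw [IsLocallyConstant.iff_eventually_eq]
    intro x
    filter_upwards [(GG_lc q.2.1).eventually_eq x] with y hy
    exact Subtype.ext hy
  · refine Prod.ext rfl (Subtype.ext ?_)
    show (q.1 (x, (g : Γ))).2 = (q.1 ((g : Γ) • x, 1)).2 * (g : Γ)
    rw [GG_apply q.2.1]

theorem toSub_injective (Δ : Subgroup Γ) : Function.Injective (toSub (X := X) Δ) := by
  rw [injective_iff_map_eq_one]
  intro q h1
  apply Subtype.ext
  apply Equiv.ext
  rintro ⟨x, g⟩
  have h2 : ∀ y, (q.1 (y, 1)).2 = 1 := by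
    intro y
    have h3 : toSub Δ q (y, 1) = (y, 1) := by rw [h1]; rfl
    exact congrArg Subtype.val (congrArg Prod.snd h3)
  rw [GG_apply q.2.1, h2, one_mul]
  rfl

theorem SG_mono {Δ Δ' : Subgroup Γ} (h : Δ ≤ Δ') : SG (X := X) Δ ≤ SG Δ' :=
  fun _ hq => ⟨hq.1, fun x => h (hq.2 x)⟩

/-- **Reduction to finitely generated subgroups.** -/
theorem mem_GG_of_fg {C : ∀ (G : Type) [Group G], Prop} (hC : ClosedClass C) [CompactSpace X]
    (h : ∀ B : Finset Γ, C (GG (Subgroup.closure (B : Set Γ)) X)) : C (GG Γ X) := by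
  classical
  refine mem_of_directed hC (I := Finset Γ)
    (S := fun B => SG (X := X) (Subgroup.closure (B : Set Γ)))
    (fun B B' hB => SG_mono (Subgroup.closure_mono (by exact_mod_cast hB)))
    (fun B q hq => hq.1) (fun q hq => ?_) fun B => ?_
  · refine ⟨(GG_lc hq).range_finite.toFinset, hq, fun x => Subgroup.subset_closure ?_⟩
    simp
  · exact hC.inj ((toSub (Subgroup.closure (B : Set Γ))).codRestrict _ (toSub_mem _))
      (fun q q' hqq => toSub_injective _ (congrArg Subtype.val hqq)) (h B)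

end sub

/-! ### Inflation by a finite set -/

section infl

variable {Γ X ι Δ : Type} [Group Γ] [TopologicalSpace X] [MulAction Γ X]
  [ContinuousConstSMul Γ X] [MulAction Γ ι] [Group Δ] [TopologicalSpace ι] [DiscreteTopology ι]
  [MulAction Δ (X × ι)] [ContinuousConstSMul Δ (X × ι)]

/-- The data of an embedding of groupoids. -/
structure Infl (Γ X ι Δ : Type) [Group Γ] [MulAction Γ X] [MulAction Γ ι] [Group Δ]
    [MulAction Δ (X × ι)] where
  /-- the representatives -/
  r : ι → Γ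
  /-- the cocycle -/
  κ : ι → Γ → Δ
  act : ∀ i g y, κ i g • ((y, i) : X × ι) = ((r (g • i))⁻¹ • g • r i • y, g • i)
  mul : ∀ i g g', κ i (g' * g) = κ (g • i) g' * κ i g
  inj : ∀ i g, κ i g = 1 → g = 1

namespace Infl

variable (D : Infl Γ X ι Δ)

omit [TopologicalSpace X] [ContinuousConstSMul Γ X] [TopologicalSpace ι] [DiscreteTopology ι]
  [ContinuousConstSMul Δ (X × ι)] in
theorem one (i : ι) : D.κ i 1 = 1 := by
  have h1 := D.mul i 1 1
  rw [mul_one, one_smul] at h1
  exact (mul_eq_left.1 h1.symm)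

/-- The image cocycle. -/
def coc (q : Equiv.Perm (X × Γ)) (z : X × ι) : Δ := D.κ z.2 (q (D.r z.2 • z.1, 1)).2

omit [TopologicalSpace ι] [DiscreteTopology ι] [ContinuousConstSMul Δ (X × ι)] in
theorem coc_mul {a b : Equiv.Perm (X × Γ)} (ha : a ∈ GG Γ X) (hb : b ∈ GG Γ X) (z : X × ι) :
    D.coc (a * b) z = D.coc a (D.coc b z • z) * D.coc b z := by
  obtain ⟨y, i⟩ := z
  unfold coc
  rw [GG_mul ha hb, D.mul, D.act]
  congr 2
  show _ = (a (D.r _ • (D.r _)⁻¹ • _, 1)).2
  rw [smul_inv_smul]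

/-- The homomorphism. -/
def hom : GG Γ X →* Equiv.Perm ((X × ι) × Δ) :=
  MonoidHom.toHomPerm
    { toFun := fun q p => (p.1, D.coc q.1 (p.2 • p.1) * p.2)
      map_one' := by
        funext p
        show (p.1, D.κ _ 1 * p.2) = p
        rw [D.one, one_mul]
      map_mul' := fun a b => by
        funext p
        show (p.1, D.coc (a.1 * b.1) (p.2 • p.1) * p.2) =
          (p.1, D.coc a.1 ((D.coc b.1 (p.2 • p.1) * p.2) • p.1) * (D.coc b.1 (p.2 • p.1) * p.2))
        rw [D.coc_mul a.2 b.2, mul_smul, mul_assoc] }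

theorem hom_mem (q : GG Γ X) : D.hom q ∈ GG Δ (X × ι) := by
  refine ⟨D.coc q.1, ?_, fun x g => rfl⟩
  rw [IsLocallyConstant.iff_eventually_eq]
  rintro ⟨y, i⟩
  have h1 : ∀ᶠ y' in nhds y, (q.1 (D.r i • y', 1)).2 = (q.1 (D.r i • y, 1)).2 :=
    (Homeomorph.smul (α := X) (D.r i)).continuous.continuousAt.eventually
      ((GG_lc q.2).eventually_eq (D.r i • y))
  have h2 : ∀ᶠ i' in nhds i, i' = i := by
    rw [nhds_discrete]
    exact Filter.eventually_pure.2 rfl
  rw [nhds_prod_eq]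
  filter_upwards [h1.prod_mk h2] with z hz
  obtain ⟨y', i'⟩ := z
  obtain ⟨h3, rfl⟩ := hz
  show D.κ _ _ = D.κ _ _
  rw [h3]

omit [TopologicalSpace ι] [DiscreteTopology ι] [ContinuousConstSMul Δ (X × ι)] in
theorem hom_injective [Nonempty ι] : Function.Injective D.hom := by
  rw [injective_iff_map_eq_one]
  intro q h1
  apply Subtype.ext
  apply Equiv.ext
  rintro ⟨x, g⟩
  have h2 : ∀ y, (q.1 (y, 1)).2 = 1 := by
    intro y
    obtain ⟨i⟩ := ‹Nonempty ι›
    have h3 : D.hom q (((D.r i)⁻¹ • y, i), 1) = (((D.r i)⁻¹ • y, i), 1) := by rw [h1]; rfl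
    have h4 : D.coc q.1 ((1 : Δ) • ((D.r i)⁻¹ • y, i)) * 1 = 1 := congrArg Prod.snd h3
    rw [one_smul, mul_one] at h4
    have h5 := D.inj _ _ h4
    rw [smul_inv_smul] at h5
    exact h5
  rw [GG_apply q.2, h2, one_mul]
  rfl

include D in
/-- **Inflation.** -/
theorem mem {C : ∀ (G : Type) [Group G], Prop} (hC : ClosedClass C) [Nonempty ι]
    (h : C (GG Δ (X × ι))) : C (GG Γ X) :=
  hC.inj (D.hom.codRestrict _ D.hom_mem)
    (fun _ _ hqq => D.hom_injective (congrArg Subtype.val hqq)) h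

end Infl

end infl

end Pool.Agent.ZT
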