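import Pool.Agent.ZT.Parad
import Pool.Agent.ZT.Virt
import Pool.Agent.ZT.TypeC

/-!
# A paradoxical clopen set gives a solution of the relations of Thompson's group `T`
-/

set_option autoImplicit false

open Topology

namespace Pool.Agent.ZT

section dup

variable {U : Type} [TopologicalSpace U] (D : Dup U) (h : Continuous D.δ) (h' : Continuous D.δ.symm)

include h h'

theorem Dup.A_cont : Continuous D.A := by
  have h1 : Continuous (Sum.map (id : U → U) D.δ) := continuous_id.sumMap h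
  have h2 : Continuous (Sum.map D.δ.symm (id : U → U)) := h'.sumMap continuous_id
  exact h'.comp (h2.comp ((Homeomorph.continuous_sumAssoc_symm U U U).comp (h1.comp h)))

theorem Dup.B_cont : Continuous D.B := by
  have h1 : Continuous (Sum.map (id : U → U) D.A) := continuous_id.sumMap (D.A_cont h h')
  exact h'.comp (h1.comp h)

theorem Dup.C_cont : Continuous D.C := by
  have h1 : Continuous (Sum.map (id : U → U) D.δ) := continuous_id.sumMap h
  have h2 : Continuous (Sum.map (id : U → U) D.δ.symm) := continuous_id.sumMap h'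
  exact (h'.comp h2).comp (((Homeomorph.continuous_sumAssoc U U U).comp
    (Homeomorph.sumComm U (U ⊕ U)).continuous).comp (h1.comp h))

end dup

section main

variable {Δ Y : Type} [Group Δ] [TopologicalSpace Y] [MulAction Δ Y] [ContinuousConstSMul Δ Y]

/-- The lift of a cocycle to a map of `Y × Δ`. -/
def Jc (c : Y → Δ) (p : Y × Δ) : Y × Δ := (p.1, c (p.2 • p.1) * p.2)

theorem Jc_cont [TopologicalSpace Δ] [DiscreteTopology Δ] {c : Y → Δ} (hc : IsLocallyConstant c) :
    Continuous (Jc c) := by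
  rw [continuous_prod_of_discrete_right]
  intro g
  have h1 : IsLocallyConstant fun y => c (g • y) * g :=
    (hc.comp_continuous (continuous_const_smul g)).comp fun a => a * g
  exact continuous_id.prodMk h1.continuous

theorem Jc_open [TopologicalSpace Δ] [DiscreteTopology Δ] {c : Y → Δ} (hc : IsLocallyConstant c) :
    IsOpenMap (Jc c) := by
  rw [isOpenMap_prod_of_discrete_right]
  intro g O hO
  have h1 : IsLocallyConstant fun y => c (g • y) * g :=
    (hc.comp_continuous (continuous_const_smul g)).comp fun a => a * g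
  have h2 : (fun y => Jc c (y, g)) '' O = (Prod.fst ⁻¹' O) ∩
      (fun p : Y × Δ => (c (g • p.1) * g, p.2)) ⁻¹' {q : Δ × Δ | q.1 = q.2} := by
    ext p
    constructor
    · rintro ⟨y, hy, rfl⟩
      exact ⟨hy, rfl⟩
    · rintro ⟨h3, h4⟩
      exact ⟨p.1, h3, Prod.ext rfl h4⟩
  rw [h2]
  exact (hO.preimage continuous_fst).inter
    ((isOpen_discrete _).preimage ((h1.continuous.comp continuous_fst).prodMk continuous_snd))

/-- **Nontrivial solutions** from a clopen set which is the disjoint union of two copies of itself. -/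
theorem exists_thom_GG {Z : Set Y} (hZ : IsClopen Z) (hne : Z.Nonempty) {c0 c1 : Y → Δ}
    (h0 : IsLocallyConstant c0) (h1 : IsLocallyConstant c1) (m0 : ∀ y ∈ Z, c0 y • y ∈ Z)
    (m1 : ∀ y ∈ Z, c1 y • y ∈ Z) (i0 : ∀ x ∈ Z, ∀ y ∈ Z, c0 x • x = c0 y • y → x = y)
    (i1 : ∀ x ∈ Z, ∀ y ∈ Z, c1 x • x = c1 y • y → x = y)
    (dis : ∀ x ∈ Z, ∀ y ∈ Z, c0 x • x ≠ c1 y • y)
    (sur : ∀ z ∈ Z, (∃ x ∈ Z, c0 x • x = z) ∨ ∃ x ∈ Z, c1 x • x = z) :
    ∃ a b c : Equiv.Perm (Y × Δ), Thom a b c ∧ a ≠ 1 ∧ a ∈ GG Δ Y ∧ b ∈ GG Δ Y ∧ c ∈ GG Δ Y := by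
  classical
  let tD : TopologicalSpace Δ := ⊥
  have dD : DiscreteTopology Δ := ⟨rfl⟩
  let Q : Set (Y × Δ) := {p | p.2 • p.1 ∈ Z}
  have hQ : IsClopen Q := by
    have h2 : Continuous fun p : Y × Δ => p.2 • p.1 := by
      rw [continuous_prod_of_discrete_right]
      exact fun g => continuous_const_smul g
    exact hZ.preimage h2
  have mem : ∀ (c : Y → Δ), (∀ y ∈ Z, c y • y ∈ Z) → ∀ x : Q, Jc c x.1 ∈ Q := by
    intro c hc x
    change (c (x.1.2 • x.1.1) * x.1.2) • x.1.1 ∈ Z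
    rw [mul_smul]
    exact hc _ x.2
  let pt : Q → Y := fun x => x.1.2 • x.1.1
  let j0 : Q → Q := fun x => ⟨Jc c0 x.1, mem c0 m0 x⟩
  let j1 : Q → Q := fun x => ⟨Jc c1 x.1, mem c1 m1 x⟩
  have pj0 : ∀ x, pt (j0 x) = c0 (pt x) • pt x := fun x => mul_smul _ _ _
  have pj1 : ∀ x, pt (j1 x) = c1 (pt x) • pt x := fun x => mul_smul _ _ _
  have keyc : ∀ (c : Y → Δ), (∀ x ∈ Z, ∀ y ∈ Z, c x • x = c y • y → x = y) →
      ∀ x y : Q, Jc c x.1 = Jc c y.1 → x = y := by
    intro c hc x y h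
    have h' : (x.1.1, c (x.1.2 • x.1.1) * x.1.2) = (y.1.1, c (y.1.2 • y.1.1) * y.1.2) := h
    obtain ⟨e1, e2⟩ := Prod.mk.inj h'
    have e3 : x.1.2 • x.1.1 = y.1.2 • y.1.1 := by
      refine hc _ x.2 _ y.2 ?_
      rw [← mul_smul, ← mul_smul, e2, e1]
    rw [e3] at e2
    exact Subtype.ext (Prod.ext e1 (mul_left_cancel e2))
  have hsurc : ∀ (c : Y → Δ) (y : Q) (x : Y), x ∈ Z → c x • x = pt y →
      ∃ w : Q, Jc c w.1 = y.1 := by
    intro c y x hx hxy
    have e1 : ((c x)⁻¹ * y.1.2) • y.1.1 = x := by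
      rw [mul_smul, inv_smul_eq_iff]
      exact hxy.symm
    refine ⟨⟨(y.1.1, (c x)⁻¹ * y.1.2), ?_⟩, Prod.ext rfl ?_⟩
    · change ((c x)⁻¹ * y.1.2) • y.1.1 ∈ Z
      rw [e1]
      exact hx
    · change c (((c x)⁻¹ * y.1.2) • y.1.1) * ((c x)⁻¹ * y.1.2) = y.1.2
      rw [e1, mul_inv_cancel_left]
  have hbij : Function.Bijective (Sum.elim j0 j1) := by
    constructor
    · rintro (x | x) (y | y) h
      · exact congrArg Sum.inl (keyc c0 i0 x y (congrArg Subtype.val h))
      · have e1 : pt (j0 x) = pt (j1 y) := congrArg pt h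
        rw [pj0, pj1] at e1
        exact (dis _ x.2 _ y.2 e1).elim
      · have e1 : pt (j1 x) = pt (j0 y) := congrArg pt h
        rw [pj0, pj1] at e1
        exact (dis _ y.2 _ x.2 e1.symm).elim
      · exact congrArg Sum.inr (keyc c1 i1 x y (congrArg Subtype.val h))
    · intro y
      rcases sur (pt y) y.2 with ⟨x, hx, hxy⟩ | ⟨x, hx, hxy⟩
      · obtain ⟨w, hw⟩ := hsurc c0 y x hx hxy
        exact ⟨Sum.inl w, Subtype.ext hw⟩
      · obtain ⟨w, hw⟩ := hsurc c1 y x hx hxy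
        exact ⟨Sum.inr w, Subtype.ext hw⟩
  -- the homeomorphism
  have hj0 : Continuous j0 := ((Jc_cont h0).comp continuous_subtype_val).subtype_mk _
  have hj1 : Continuous j1 := ((Jc_cont h1).comp continuous_subtype_val).subtype_mk _
  have ho0 : IsOpenMap j0 := ((Jc_open h0).comp hQ.isOpen.isOpenMap_subtype_val).subtype_mk _
  have ho1 : IsOpenMap j1 := ((Jc_open h1).comp hQ.isOpen.isOpenMap_subtype_val).subtype_mk _
  let e : Q ⊕ Q ≃ Q := Equiv.ofBijective _ hbij
  let H : Q ⊕ Q ≃ₜ Q := e.toHomeomorphOfContinuousOpen (hj0.sumElim hj1) (ho0.sumElim ho1)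
  let D : Dup Q := ⟨e.symm⟩
  have hδ : Continuous D.δ := H.symm.continuous
  have hδ' : Continuous D.δ.symm := H.continuous
  have d0 : ∀ w, D.i0 w = j0 w := fun _ => rfl
  have d1 : ∀ w, D.i1 w = j1 w := fun _ => rfl
  -- the first coordinate
  let E : ℕ → Q → Q → Prop := fun _ x y => x.1.1 = y.1.1
  have hE : Dup.Tower E := ⟨fun _ => rfl, fun _ _ _ h => h.symm, fun _ _ _ _ _ h h' => h.trans h',
    fun _ _ _ _ _ h => h⟩
  have e0 : ∀ w, E 1 w (D.i0 w) := fun w => rfl
  have e1 : ∀ w, E 1 w (D.i1 w) := fun w => rfl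
  -- the translations
  let ρ : Δ → Q → Q := fun g x => ⟨(g⁻¹ • x.1.1, x.1.2 * g), by
    change (x.1.2 * g) • g⁻¹ • x.1.1 ∈ Z
    rw [mul_smul, smul_inv_smul]
    exact x.2⟩
  have pρ : ∀ g x, pt (ρ g x) = pt x := by
    intro g x
    change (x.1.2 * g) • g⁻¹ • x.1.1 = x.1.2 • x.1.1
    rw [mul_smul, smul_inv_smul]
  have r0 : ∀ g w, ρ g (D.i0 w) = D.i0 (ρ g w) := by
    intro g w
    rw [d0, d0]
    refine Subtype.ext (Prod.ext rfl ?_)
    change c0 (pt w) * w.1.2 * g = c0 (pt (ρ g w)) * (w.1.2 * g)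
    rw [pρ, mul_assoc]
  have r1 : ∀ g w, ρ g (D.i1 w) = D.i1 (ρ g w) := by
    intro g w
    rw [d1, d1]
    refine Subtype.ext (Prod.ext rfl ?_)
    change c1 (pt w) * w.1.2 * g = c1 (pt (ρ g w)) * (w.1.2 * g)
    rw [pρ, mul_assoc]
  have fin : ∀ q : Equiv.Perm Q, Continuous q → (∀ u, u.1.1 = (q u).1.1) →
      (∀ g u, ρ g (q u) = q (ρ g u)) → Equiv.Perm.ofSubtype q ∈ GG Δ Y := by
    intro q hq hfst hρ
    refine ⟨fun y => (Equiv.Perm.ofSubtype q (y, 1)).2, ?_, fun y g => ?_⟩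
    · rw [IsLocallyConstant.iff_continuous]
      let S : Set Y := (fun y : Y => (y, (1 : Δ))) ⁻¹' Q
      have hS : IsClopen S := hQ.preimage (Continuous.prodMk_left 1)
      have hcS : ContinuousOn (fun y => (Equiv.Perm.ofSubtype q (y, 1)).2) S := by
        rw [continuousOn_iff_continuous_domRestrict]
        have h2 : Continuous fun s : S => (q ⟨(s.1, 1), s.2⟩).1.2 :=
          continuous_snd.comp (continuous_subtype_val.comp (hq.comp
            (((Continuous.prodMk_left 1).comp continuous_subtype_val).subtype_mk _)))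
        refine h2.congr fun s => ?_
        change _ = (Equiv.Perm.ofSubtype q (s.1, 1)).2
        rw [Equiv.Perm.ofSubtype_apply_of_mem q s.2]
      rw [continuous_iff_continuousAt]
      intro y
      by_cases hy : y ∈ S
      · exact hcS.continuousAt (hS.isOpen.mem_nhds hy)
      · have h3 : (fun y => (Equiv.Perm.ofSubtype q (y, 1)).2) =ᶠ[𝓝 y] fun _ => (1 : Δ) := by
          filter_upwards [hS.compl.isOpen.mem_nhds hy] with z hz
          rw [Equiv.Perm.ofSubtype_apply_of_not_mem q hz]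
        exact continuousAt_const.congr h3.symm
    · by_cases hs : ((y, g) : Y × Δ) ∈ Q
      · have hs' : ((g • y, 1) : Y × Δ) ∈ Q := by
          change (1 : Δ) • g • y ∈ Z
          rw [one_smul]
          exact hs
        have h2 : (⟨(y, g), hs⟩ : Q) = ρ g ⟨(g • y, 1), hs'⟩ := by
          refine Subtype.ext (Prod.ext ?_ ?_)
          · exact (inv_smul_smul g y).symm
          · exact (one_mul g).symm
        change Equiv.Perm.ofSubtype q (y, g) = (y, (Equiv.Perm.ofSubtype q (g • y, 1)).2 * g)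
        rw [Equiv.Perm.ofSubtype_apply_of_mem q hs, Equiv.Perm.ofSubtype_apply_of_mem q hs']
        refine Prod.ext (hfst ⟨(y, g), hs⟩).symm ?_
        rw [h2, ← hρ]
      · have hs' : ((g • y, 1) : Y × Δ) ∉ Q := by
          intro h
          refine hs ?_
          have h' : (1 : Δ) • g • y ∈ Z := h
          rwa [one_smul] at h'
        change Equiv.Perm.ofSubtype q (y, g) = (y, (Equiv.Perm.ofSubtype q (g • y, 1)).2 * g)
        rw [Equiv.Perm.ofSubtype_apply_of_not_mem q hs, Equiv.Perm.ofSubtype_apply_of_not_mem q hs',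
          one_mul]
  have : Nonempty Q := by
    obtain ⟨y, hy⟩ := hne
    exact ⟨⟨(y, 1), by
      change (1 : Δ) • y ∈ Z
      rwa [one_smul]⟩⟩
  refine ⟨Equiv.Perm.ofSubtype D.A, Equiv.Perm.ofSubtype D.B, Equiv.Perm.ofSubtype D.C,
    D.thom.map Equiv.Perm.ofSubtype, fun h => ?_, fin _ (D.A_cont hδ hδ') (fun u => ?_) fun g u => ?_,
    fin _ (D.B_cont hδ hδ') (fun u => ?_) fun g u => ?_,
    fin _ (D.C_cont hδ hδ') (fun u => ?_) fun g u => ?_⟩
  · exact D.A_ne_one (Equiv.Perm.ofSubtype_injective (h.trans (map_one _).symm))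
  · exact Dup.A_near hE e0 e1 u
  · exact Dup.A_comm (r0 g) (r1 g) u
  · exact Dup.B_near hE e0 e1 u
  · exact Dup.B_comm (r0 g) (r1 g) u
  · exact Dup.C_near hE e0 e1 u
  · exact Dup.C_comm (r0 g) (r1 g) u

end main

end Pool.Agent.ZT
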