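import Pool.Agent.ZT.FullZ
import Pool.Agent.FS.RgMem

/-!
# Topological full groups of actions with periodic points

`ev` maps the topological full group `FG φ` of the transformation groupoid onto the topological
full group `TF φ`. For a single homeomorphism the kernel is supported on clopen invariant sets of
points of bounded period.
-/

set_option autoImplicit false

open Filter Topology

namespace Pool.Agent.ZT

open Pool.Agent.Helper29.BA Pool.Agent.Helper29.PA Pool.Agent.T59 Pool.Agent.FS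

section ev

variable {X : Type} [TopologicalSpace X] {A : Type} {φ : A → X ≃ₜ X}

/-- A permutation given by a locally constant cocycle is a homeomorphism. -/
def mkH (f : Equiv.Perm X) (c : X → FreeGroup A) (hc : IsLocallyConstant c)
    (hf : ∀ x, f x = ac φ (c x) x) : X ≃ₜ X :=
  f.toHomeomorphOfContinuousOpen
    (continuous_iff_continuousAt.2 fun x => by
      have h1 : (fun y => ac φ (c x) y) =ᶠ[𝓝 x] f := by
        filter_upwards [hc.eventually_eq x] with y hy
        rw [hf, hy]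
      exact ((ac φ (c x)).continuous.continuousAt).congr h1)
    (isOpenMap_iff_nhds_le.2 fun x => by
      have h1 : (fun y => ac φ (c x) y) =ᶠ[𝓝 x] f := by
        filter_upwards [hc.eventually_eq x] with y hy
        rw [hf, hy]
      rw [← Filter.map_congr h1, hf]
      exact ((ac φ (c x)).map_nhds_eq x).ge)

theorem mkH_apply (f : Equiv.Perm X) (c : X → FreeGroup A) (hc : IsLocallyConstant c)
    (hf : ∀ x, f x = ac φ (c x) x) (x : X) : mkH f c hc hf x = f x := rfl

/-- The element of the topological full group. -/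
def mkT (f : Equiv.Perm X) (c : X → FreeGroup A) (hc : IsLocallyConstant c)
    (hf : ∀ x, f x = ac φ (c x) x) : TF φ := ⟨mkH f c hc hf, c, hc, hf⟩

theorem TF_ext {a b : TF φ} (h : ∀ x, a.1 x = b.1 x) : a = b :=
  Subtype.ext (Homeomorph.ext h)

/-- The cocycle. -/
def cc (q : FG φ) (x : X) : FreeGroup A := (q.1 (x, 1)).2

theorem cc_eq {q : FG φ} {c : X → FreeGroup A} (hc : ∀ x g, q.1 (x, g) = (x, c (ac φ g x) * g)) :
    cc q = c := by
  funext x
  unfold cc
  rw [hc, ac_one, mul_one]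

theorem cc_spec (q : FG φ) (x : X) (g : FreeGroup A) :
    q.1 (x, g) = (x, cc q (ac φ g x) * g) := by
  obtain ⟨c, -, h⟩ := q.2
  rw [cc_eq h, h]

theorem cc_lc (q : FG φ) : IsLocallyConstant (cc q) := by
  obtain ⟨c, hc, h⟩ := q.2
  rw [cc_eq h]
  exact hc

theorem cc_one (x : X) : cc (1 : FG φ) x = 1 := rfl

theorem cc_mul (a b : FG φ) (x : X) :
    cc (a * b) x = cc a (ac φ (cc b x) x) * cc b x := by
  have h : (a * b).1 (x, 1) = a.1 (b.1 (x, 1)) := rfl
  rw [cc_spec b, ac_one, mul_one, cc_spec a] at h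
  exact congrArg Prod.snd h

/-- The permutation of the space. -/
def evP (q : FG φ) : Equiv.Perm X where
  toFun x := ac φ (cc q x) x
  invFun x := ac φ (cc q⁻¹ x) x
  left_inv x := by
    have h := cc_mul q⁻¹ q x
    rw [inv_mul_cancel, cc_one] at h
    change ac φ (cc q⁻¹ (ac φ (cc q x) x)) (ac φ (cc q x) x) = x
    rw [← ac_mul, ← h, ac_one]
  right_inv x := by
    have h := cc_mul q q⁻¹ x
    rw [mul_inv_cancel, cc_one] at h
    change ac φ (cc q (ac φ (cc q⁻¹ x) x)) (ac φ (cc q⁻¹ x) x) = x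
    rw [← ac_mul, ← h, ac_one]

/-- The map to the topological full group. -/
def ev : FG φ →* TF φ where
  toFun q := mkT (evP q) (cc q) (cc_lc q) fun _ => rfl
  map_one' := TF_ext fun x => ac_one φ x
  map_mul' a b := TF_ext fun x => by
    change ac φ (cc (a * b) x) x = ac φ (cc a (ac φ (cc b x) x)) (ac φ (cc b x) x)
    rw [cc_mul, ac_mul]

theorem ev_apply (q : FG φ) (x : X) : (ev q).1 x = ac φ (cc q x) x := rfl

theorem ev_surj (h : TF φ) : ∃ q : FG φ, ev q = h := by
  obtain ⟨c, hc, hh⟩ := h.2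
  have hb : Function.Bijective fun p : X × FreeGroup A => (p.1, c (ac φ p.2 p.1) * p.2) := by
    constructor
    · rintro ⟨x, g⟩ ⟨y, k⟩ hxy
      obtain rfl : x = y := congrArg Prod.fst hxy
      have h1 : c (ac φ g x) * g = c (ac φ k x) * k := congrArg Prod.snd hxy
      have h2 : h.1 (ac φ g x) = h.1 (ac φ k x) := by
        rw [hh, hh, ← ac_mul, ← ac_mul, h1]
      have h3 := h.1.injective h2
      rw [h3] at h1
      rw [mul_left_cancel h1]
    · rintro ⟨x, k⟩
      obtain ⟨y, hy⟩ := h.1.surjective (ac φ k x)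
      refine ⟨(x, (c y)⁻¹ * k), ?_⟩
      have h1 : ac φ ((c y)⁻¹ * k) x = y := by
        rw [ac_mul, ← hy, hh, ac_inv_ac]
      change (x, c (ac φ ((c y)⁻¹ * k) x) * ((c y)⁻¹ * k)) = (x, k)
      rw [h1, mul_inv_cancel_left]
  let q : FG φ := ⟨Equiv.ofBijective _ hb, c, hc, fun x g => rfl⟩
  refine ⟨q, TF_ext fun x => ?_⟩
  rw [ev_apply, hh, cc_eq (q := q) (c := c) fun x g => rfl]

/-- Invariant sets. -/
def Ivt (φ : A → X ≃ₜ X) (U : Set X) : Prop := ∀ (g : FreeGroup A) (x : X), ac φ g x ∈ U ↔ x ∈ U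

variable {U U' : Set X}

theorem TF_mem_iff (hU : Ivt φ U) (h : TF φ) (x : X) : h.1 x ∈ U ↔ x ∈ U := by
  obtain ⟨c, -, hh⟩ := h.2
  rw [hh]
  exact hU _ _

open Classical in
/-- The cocycle outside `U`. -/
noncomputable def offc (U : Set X) (c : X → FreeGroup A) (x : X) : FreeGroup A :=
  if x ∈ U then 1 else c x

theorem offc_lc {c : X → FreeGroup A} (hU : IsClopen U) (hc : IsLocallyConstant c) :
    IsLocallyConstant (offc U c) := by
  classical
  rw [IsLocallyConstant.iff_eventually_eq]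
  intro x
  by_cases hx : x ∈ U
  · filter_upwards [hU.isOpen.mem_nhds hx] with y hy
    unfold offc
    rw [if_pos hy, if_pos hx]
  · filter_upwards [hU.compl.isOpen.mem_nhds hx, hc.eventually_eq x] with y hy hy'
    unfold offc
    rw [if_neg hy, if_neg hx, hy']

open Classical in
/-- The permutation outside `U`. -/
noncomputable def offP (U : Set X) (q : FG φ) : Equiv.Perm (X × FreeGroup A) where
  toFun p := if p.1 ∈ U then p else q.1 p
  invFun p := if p.1 ∈ U then p else q.1⁻¹ p
  left_inv p := by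
    by_cases hx : p.1 ∈ U
    · simp only [if_pos hx]
    · have h1 : (q.1 p).1 = p.1 := by
        have h2 := cc_spec q p.1 p.2
        rw [Prod.mk.eta] at h2
        rw [h2]
      simp only [if_neg hx, h1]
      exact q.1.symm_apply_apply _
  right_inv p := by
    by_cases hx : p.1 ∈ U
    · simp only [if_pos hx]
    · have h1 : (q.1⁻¹ p).1 = p.1 := by
        have h2 := cc_spec q⁻¹ p.1 p.2
        rw [Prod.mk.eta, Subgroup.coe_inv] at h2
        rw [h2]
      simp only [if_neg hx, h1]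
      exact q.1.apply_symm_apply _

theorem offP_in {q : FG φ} {p : X × FreeGroup A} (h : p.1 ∈ U) : offP U q p = p := by
  classical exact if_pos h

theorem offP_out {q : FG φ} {p : X × FreeGroup A} (h : p.1 ∉ U) : offP U q p = q.1 p := by
  classical exact if_neg h

/-- Restriction to the complement of `U`. -/
noncomputable def off (hU : IsClopen U) (hi : Ivt φ U) : FG φ →* FG φ where
  toFun q := ⟨offP U q, offc U (cc q), offc_lc hU (cc_lc q), fun x g => by
    by_cases hx : x ∈ U
    · rw [offP_in hx]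
      unfold offc
      rw [if_pos ((hi g x).2 hx), one_mul]
    · rw [offP_out hx]
      unfold offc
      rw [if_neg (fun h => hx ((hi g x).1 h)), cc_spec]⟩
  map_one' := by
    refine Subtype.ext (Equiv.ext fun p => ?_)
    change offP U 1 p = p
    by_cases hx : p.1 ∈ U
    · exact offP_in hx
    · exact offP_out hx
  map_mul' a b := by
    refine Subtype.ext (Equiv.ext fun p => ?_)
    change offP U (a * b) p = offP U a (offP U b p)
    by_cases hx : p.1 ∈ U
    · rw [offP_in hx, offP_in hx, offP_in hx]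
    · have h1 : (b.1 p).1 = p.1 := by
        have := cc_spec b p.1 p.2
        rw [Prod.mk.eta] at this
        rw [this]
      rw [offP_out hx, offP_out hx, offP_out (by rwa [h1])]
      rfl

theorem off_in (hU : IsClopen U) (hi : Ivt φ U) {q : FG φ} {p : X × FreeGroup A} (h : p.1 ∈ U) :
    (off hU hi q).1 p = p := offP_in h

theorem off_out (hU : IsClopen U) (hi : Ivt φ U) {q : FG φ} {p : X × FreeGroup A} (h : p.1 ∉ U) :
    (off hU hi q).1 p = q.1 p := offP_out h

theorem ev_off_in (hU : IsClopen U) (hi : Ivt φ U) (q : FG φ) {x : X} (h : x ∈ U) :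
    (ev (off hU hi q)).1 x = x := by
  rw [ev_apply, cc, off_in hU hi (p := (x, 1)) h, ac_one]

theorem ev_off_out (hU : IsClopen U) (hi : Ivt φ U) (q : FG φ) {x : X} (h : x ∉ U) :
    (ev (off hU hi q)).1 x = (ev q).1 x := by
  rw [ev_apply, cc, off_out hU hi (p := (x, 1)) h, ev_apply, cc]

open Classical in
/-- The restriction of an element of the topological full group to `U`. -/
noncomputable def onP (hi : Ivt φ U) (h : TF φ) : Equiv.Perm X where
  toFun x := if x ∈ U then h.1 x else x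
  invFun x := if x ∈ U then h.1.symm x else x
  left_inv x := by
    by_cases hx : x ∈ U
    · simp only [if_pos hx, if_pos ((TF_mem_iff hi h x).2 hx), Homeomorph.symm_apply_apply]
    · simp only [if_neg hx]
  right_inv x := by
    by_cases hx : x ∈ U
    · have h1 : h.1.symm x ∈ U := by
        rw [← TF_mem_iff hi h, Homeomorph.apply_symm_apply]
        exact hx
      simp only [if_pos hx, if_pos h1, Homeomorph.apply_symm_apply]
    · simp only [if_neg hx]

theorem onP_in {hi : Ivt φ U} {h : TF φ} {x : X} (hx : x ∈ U) : onP hi h x = h.1 x := by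
  classical exact if_pos hx

theorem onP_out {hi : Ivt φ U} {h : TF φ} {x : X} (hx : x ∉ U) : onP hi h x = x := by
  classical exact if_neg hx

/-- Restriction to `U`. -/
noncomputable def on (hU : IsClopen U) (hi : Ivt φ U) : TF φ →* TF φ where
  toFun h := mkT (onP hi h) (offc Uᶜ (coc h)) (offc_lc hU.compl (coc_lc h)) fun x => by
    by_cases hx : x ∈ U
    · rw [onP_in hx]
      unfold offc
      rw [if_neg (show x ∉ Uᶜ from fun h => h hx), coc_spec]
    · rw [onP_out hx]
      unfold offc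
      rw [if_pos (show x ∈ Uᶜ from hx), ac_one]
  map_one' := TF_ext fun x => by
    change onP hi 1 x = x
    by_cases hx : x ∈ U
    · exact onP_in hx
    · exact onP_out hx
  map_mul' a b := TF_ext fun x => by
    change onP hi (a * b) x = onP hi a (onP hi b x)
    by_cases hx : x ∈ U
    · rw [onP_in hx, onP_in hx, onP_in ((TF_mem_iff hi b x).2 hx)]
      rfl
    · rw [onP_out hx, onP_out hx, onP_out hx]

theorem on_in (hU : IsClopen U) (hi : Ivt φ U) {h : TF φ} {x : X} (hx : x ∈ U) :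
    (on hU hi h).1 x = h.1 x := onP_in (hi := hi) hx

theorem on_out (hU : IsClopen U) (hi : Ivt φ U) {h : TF φ} {x : X} (hx : x ∉ U) :
    (on hU hi h).1 x = x := onP_out (hi := hi) hx

/-- The elements which are trivial over `U`. -/
def KU (φ : A → X ≃ₜ X) (U : Set X) : Subgroup (FG φ) where
  carrier := {q | ∀ x ∈ U, ∀ g, q.1 (x, g) = (x, g)}
  one_mem' := fun _ _ _ => rfl
  mul_mem' := fun {a b} ha hb x hx g => by
    change a.1 (b.1 (x, g)) = _
    rw [hb x hx g, ha x hx g]
  inv_mem' := fun {a} ha x hx g => by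
    change a.1.symm (x, g) = (x, g)
    rw [Equiv.symm_apply_eq, ha x hx g]

/-- The elements supported on `U`. -/
def LU (φ : A → X ≃ₜ X) (U : Set X) : Subgroup (TF φ) where
  carrier := {h | ∀ x, x ∉ U → h.1 x = x}
  one_mem' := fun _ _ => rfl
  mul_mem' := fun {a b} ha hb x hx => by
    change a.1 (b.1 x) = x
    rw [hb x hx, ha x hx]
  inv_mem' := fun {a} ha x hx => by
    change a.1.symm x = x
    rw [Homeomorph.symm_apply_eq, ha x hx]

theorem ev_KU {q : FG φ} (hq : q ∈ KU φ U) {x : X} (hx : x ∈ U) : (ev q).1 x = x := by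
  rw [ev_apply, cc, hq x hx 1, ac_one]

/-- Elements with complementary supports commute. -/
theorem supp_comm (hi : Ivt φ U) {a b : TF φ} (ha : ∀ x ∈ U, a.1 x = x)
    (hb : ∀ x, x ∉ U → b.1 x = x) : Commute a b := by
  refine TF_ext fun x => ?_
  change a.1 (b.1 x) = b.1 (a.1 x)
  by_cases hx : x ∈ U
  · rw [ha x hx, ha _ ((TF_mem_iff hi b x).2 hx)]
  · rw [hb x hx, hb _ (fun h => hx ((TF_mem_iff hi a x).1 h))]

end ev

section per

variable {X : Type} [TopologicalSpace X]

/-- The clopen invariant sets of points of bounded period. -/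
def PS (φ : X ≃ₜ X) : Type := {U : Set X // IsClopen U ∧ Ivt (fun _ : Unit => φ) U ∧
  ∃ P : ℕ, 0 < P ∧ ∀ x ∈ U, (φ ^ P) x = x}

variable {φ : X ≃ₜ X}

theorem pow_mul_fix {P : ℕ} (m : ℕ) {x : X} (h : (φ ^ P) x = x) : (φ ^ (P * m)) x = x := by
  induction m with
  | zero => rfl
  | succ m ih =>
    rw [mul_add, mul_one, pow_add]
    change (φ ^ (P * m)) ((φ ^ P) x) = x
    rw [h, ih]

theorem inv_iff_unit {U : Set X} (h : ∀ n : ℤ, ∀ x, (φ ^ n) x ∈ U ↔ x ∈ U) :
    Ivt (fun _ : Unit => φ) U := fun g x => by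
  rw [ac_ex]
  exact h _ x

instance : Preorder (PS φ) where
  le U V := U.1 ⊆ V.1
  le_refl _ := subset_rfl
  le_trans _ _ _ h h' := h.trans h'

theorem PS_le {U V : PS φ} : U ≤ V ↔ U.1 ⊆ V.1 := Iff.rfl

instance : IsDirectedOrder (PS φ) := ⟨fun U V => by
  obtain ⟨U, hU, hi, P, hP, hp⟩ := U
  obtain ⟨V, hV, hi', P', hP', hp'⟩ := V
  refine ⟨⟨U ∪ V, hU.union hV, fun g x => or_congr (hi g x) (hi' g x), P * P', Nat.mul_pos hP hP',
    ?_⟩, Set.subset_union_left, Set.subset_union_right⟩
  rintro x (hx | hx)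
  · exact pow_mul_fix P' (hp x hx)
  · rw [mul_comm]
    exact pow_mul_fix P (hp' x hx)⟩

instance : Nonempty (PS φ) := ⟨⟨∅, isClopen_empty, fun _ _ => Iff.rfl, 1, Nat.one_pos,
  fun x hx => hx.elim⟩⟩

/-- The groups of the system. -/
abbrev GU (U : PS φ) : Type := KU (fun _ : Unit => φ) U.1 × LU (fun _ : Unit => φ) U.1

/-- The map to the topological full group. -/
noncomputable def comb (U : PS φ) : GU U →* TF (fun _ : Unit => φ) :=
  MonoidHom.noncommCoprod (ev.comp (KU (fun _ : Unit => φ) U.1).subtype)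
    (LU (fun _ : Unit => φ) U.1).subtype fun q h =>
      supp_comm U.2.2.1 (fun _ hx => ev_KU q.2 hx) h.2

theorem comb_apply (U : PS φ) (x : GU U) : comb U x = ev x.1.1 * x.2.1 := rfl

/-- The second coordinate of the transition map. -/
noncomputable def tr2 {U V : PS φ} (h : U ≤ V) : GU U →* TF (fun _ : Unit => φ) :=
  MonoidHom.noncommCoprod (((on V.2.1 V.2.2.1).comp ev).comp (KU (fun _ : Unit => φ) U.1).subtype)
    (LU (fun _ : Unit => φ) U.1).subtype fun q k =>
      supp_comm U.2.2.1 (fun x hx => (on_in V.2.1 V.2.2.1 (h hx)).trans (ev_KU q.2 hx)) k.2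

theorem tr2_apply {U V : PS φ} (h : U ≤ V) (x : GU U) :
    tr2 h x = on V.2.1 V.2.2.1 (ev x.1.1) * x.2.1 := rfl

theorem tr2_mem {U V : PS φ} (h : U ≤ V) (x : GU U) : tr2 h x ∈ LU (fun _ : Unit => φ) V.1 := by
  intro y hy
  rw [tr2_apply]
  change (on V.2.1 V.2.2.1 (ev x.1.1)).1 (x.2.1.1 y) = y
  rw [x.2.2 y (fun hy' => hy (h hy')), on_out _ _ hy]

theorem off_mem (V : PS φ) (q : FG (fun _ : Unit => φ)) :
    off V.2.1 V.2.2.1 q ∈ KU (fun _ : Unit => φ) V.1 := fun _ hx _ => off_in _ _ hx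

/-- The transition map. -/
noncomputable def trU {U V : PS φ} (h : U ≤ V) : GU U →* GU V :=
  (((((off V.2.1 V.2.2.1).comp (KU (fun _ : Unit => φ) U.1).subtype)).codRestrict
    (KU (fun _ : Unit => φ) V.1) fun q => off_mem V q.1).comp (MonoidHom.fst _ _)).prod
      ((tr2 h).codRestrict (LU (fun _ : Unit => φ) V.1) (tr2_mem h))

theorem trU_fst {U V : PS φ} (h : U ≤ V) (x : GU U) :
    (trU h x).1.1 = off V.2.1 V.2.2.1 x.1.1 := rfl

theorem trU_snd {U V : PS φ} (h : U ≤ V) (x : GU U) :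
    (trU h x).2.1 = on V.2.1 V.2.2.1 (ev x.1.1) * x.2.1 := rfl

/-- The periodic part. -/
theorem exists_period [CompactSpace X] (q : FG (fun _ : Unit => φ)) (h : ev q = 1) :
    ∃ P : ℕ, 0 < P ∧ ∀ x, cc q x ≠ 1 → (φ ^ P) x = x := by
  have h1 : (Set.range (cc q)).Finite := (cc_lc q).range_finite
  have h2 : ∀ g : FreeGroup Unit, ∃ n : ℕ, 0 < n ∧ (g ≠ 1 → ∀ x, cc q x = g → (φ ^ n) x = x) := by
    intro g
    by_cases hg : g = 1
    · exact ⟨1, Nat.one_pos, fun h => (h hg).elim⟩
    · have h3 : Multiplicative.toAdd (ex g) ≠ 0 := by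
        intro h4
        apply hg
        rw [← of_zpow_ex g, h4, zpow_zero]
      refine ⟨(Multiplicative.toAdd (ex g)).natAbs, Int.natAbs_pos.2 h3, fun _ x hx => ?_⟩
      have h4 : (φ ^ (Multiplicative.toAdd (ex g))) x = x := by
        rw [← ac_ex, ← hx]
        exact congrArg (fun f : TF (fun _ : Unit => φ) => f.1 x) h
      rcases Int.natAbs_eq (Multiplicative.toAdd (ex g)) with h5 | h5
      · rw [h5, zpow_natCast] at h4
        exact h4
      · rw [h5, zpow_neg, zpow_natCast] at h4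
        exact ((φ ^ _).toEquiv.symm_apply_eq.1 h4).symm
  choose n hn hn' using h2
  refine ⟨∏ g ∈ h1.toFinset, n g, Finset.prod_pos fun g _ => hn g, fun x hx => ?_⟩
  have h3 : cc q x ∈ h1.toFinset := h1.mem_toFinset.2 ⟨x, rfl⟩
  obtain ⟨m, hm⟩ := Finset.dvd_prod_of_mem n h3
  rw [hm]
  exact pow_mul_fix m (hn' _ hx x rfl)

theorem fix_zpow {g : X ≃ₜ X} {x : X} (h : g x = x) (m : ℤ) : (g ^ m) x = x := by
  have h1 : ∀ n : ℕ, (g ^ n) x = x := fun n => by
    induction n with
    | zero => rfl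
    | succ n ih =>
      rw [pow_succ]
      change (g ^ n) (g x) = x
      rw [h, ih]
  rcases Int.natAbs_eq m with h5 | h5
  · rw [h5, zpow_natCast, h1]
  · rw [h5, zpow_neg, zpow_natCast]
    exact (g ^ m.natAbs).toEquiv.symm_apply_eq.2 (h1 _).symm

theorem zpow_add_apply (n m : ℤ) (x : X) : (φ ^ (n + m)) x = (φ ^ n) ((φ ^ m) x) := by
  rw [zpow_add]
  rfl

theorem exists_PS [CompactSpace X] (q : FG (fun _ : Unit => φ)) (h : ev q = 1) :
    ∃ U : PS φ, ∀ x, cc q x ≠ 1 → x ∈ U.1 := by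
  obtain ⟨P, hP, hp⟩ := exists_period q h
  let W : Set X := {x | cc q x ≠ 1}
  have hW : IsClopen W := ((cc_lc q).isClopen_fiber 1).compl
  let U : Set X := {x | ∃ j : ℤ, (φ ^ j) x ∈ W}
  have hUp : ∀ x ∈ U, (φ ^ P) x = x := by
    rintro x ⟨j, hj⟩
    have h1 := hp _ hj
    rw [← zpow_natCast, ← zpow_add_apply, add_comm, zpow_add_apply] at h1
    rw [← zpow_natCast]
    exact (φ ^ j).injective h1
  have hUr : U = ⋃ j ∈ Finset.range P, (φ ^ j) ⁻¹' W := by
    ext x
    rw [Set.mem_iUnion₂]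
    constructor
    · intro hx
      obtain ⟨j, hj⟩ := id hx
      have hP0 : (P : ℤ) ≠ 0 := by exact_mod_cast hP.ne'
      have h1 : (j % P).toNat < P := by
        have h2 := Int.emod_lt_of_pos j (by exact_mod_cast hP : (0 : ℤ) < P)
        have h3 := Int.emod_nonneg j hP0
        omega
      refine ⟨(j % P).toNat, Finset.mem_range.2 h1, ?_⟩
      have h2 : j = (j % P).toNat + P * (j / P) := by
        rw [Int.toNat_of_nonneg (Int.emod_nonneg j hP0)]
        exact (Int.emod_add_mul_ediv j P).symm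
      rw [h2, zpow_add_apply, zpow_mul, zpow_natCast, zpow_natCast,
        fix_zpow (hUp x hx)] at hj
      exact hj
    · rintro ⟨j, -, hj⟩
      exact ⟨j, by rw [zpow_natCast]; exact hj⟩
  have hUc : IsClopen U := by
    rw [hUr]
    exact isClopen_biUnion_finset fun j _ => hW.preimage (φ ^ j).continuous
  refine ⟨⟨U, hUc, inv_iff_unit fun n x => ?_, P, hP, hUp⟩, fun x hx => ⟨0, hx⟩⟩
  constructor
  · rintro ⟨j, hj⟩
    exact ⟨j + n, by rw [zpow_add_apply]; exact hj⟩
  · rintro ⟨j, hj⟩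
    refine ⟨j - n, ?_⟩
    rw [← zpow_add_apply, sub_add_cancel]
    exact hj

/-- The groups of the elements supported on `U` are locally finite. -/
theorem locFin_LU (U : PS φ) : LocFin (LU (fun _ : Unit => φ) U.1) := by
  classical
  obtain ⟨U, hU, hi, P, hP, hp⟩ := U
  intro T hT
  have hi1 : ∀ x, φ x ∈ U ↔ x ∈ U := fun x => by
    have h1 := hi (FreeGroup.of ()) x
    have h2 := ac_zpow φ 1
    rw [zpow_one, zpow_one] at h2
    rwa [h2] at h1
  let f : Equiv.Perm X :=
    { toFun := fun x => if x ∈ U then φ x else x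
      invFun := fun x => if x ∈ U then φ.symm x else x
      left_inv := fun x => by
        by_cases hx : x ∈ U
        · simp only [if_pos hx, if_pos ((hi1 x).2 hx), Homeomorph.symm_apply_apply]
        · simp only [if_neg hx]
      right_inv := fun x => by
        by_cases hx : x ∈ U
        · have h1 : φ.symm x ∈ U := by
            rw [← hi1, Homeomorph.apply_symm_apply]
            exact hx
          simp only [if_pos hx, if_pos h1, Homeomorph.apply_symm_apply]
        · simp only [if_neg hx] }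
  have hf : ∀ (n : ℕ) (x : X), x ∈ U → (f ^ n) x = (φ ^ n) x ∧ (φ ^ n) x ∈ U := by
    intro n
    induction n with
    | zero => exact fun x hx => ⟨rfl, hx⟩
    | succ n ih =>
      intro x hx
      have h1 : (φ ^ (n + 1)) x = φ ((φ ^ n) x) := by
        rw [pow_succ']
        rfl
      have h2 : (f ^ (n + 1)) x = f ((f ^ n) x) := by
        rw [pow_succ']
        rfl
      rw [h1, h2, (ih x hx).1]
      exact ⟨if_pos (ih x hx).2, (hi1 _).2 (ih x hx).2⟩
  have hf' : ∀ (n : ℕ) (x : X), x ∉ U → (f ^ n) x = x := by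
    intro n
    induction n with
    | zero => exact fun x hx => rfl
    | succ n ih =>
      intro x hx
      have h2 : (f ^ (n + 1)) x = f ((f ^ n) x) := by
        rw [pow_succ']
        rfl
      rw [h2, ih x hx]
      exact if_neg hx
  have hfP : f ^ P = 1 := by
    ext x
    by_cases hx : x ∈ U
    · rw [(hf P x hx).1, hp x hx]
      rfl
    · rw [hf' P x hx]
      rfl
  have hfin : Finite (Subgroup.zpowers f) :=
    isOfFinOrder_iff_pow_eq_one.2 ⟨P, hP, hfP⟩ |>.finite_zpowers
  have key : ∀ (n : ℤ) (x : X), x ∈ U → ∃ l : Subgroup.zpowers f, (φ ^ n) x = l • x := by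
    intro n x hx
    have h1 : (φ ^ n) x = (φ ^ (n % P).toNat) x := by
      have hP0 : (P : ℤ) ≠ 0 := by exact_mod_cast hP.ne'
      have h2 : n = (n % P).toNat + P * (n / P) := by
        rw [Int.toNat_of_nonneg (Int.emod_nonneg n hP0)]
        exact (Int.emod_add_mul_ediv n P).symm
      conv_lhs => rw [h2]
      rw [zpow_add_apply, zpow_mul, zpow_natCast, zpow_natCast, fix_zpow (hp x hx)]
    refine ⟨⟨f ^ (n % P).toNat, Subgroup.npow_mem_zpowers f _⟩, ?_⟩
    rw [h1, ← (hf _ x hx).1]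
    rfl
  let ρ : TF (fun _ : Unit => φ) →* Equiv.Perm X :=
    { toFun := fun h => h.1.toEquiv
      map_one' := rfl
      map_mul' := fun _ _ => rfl }
  refine finite_closure_orbits (L := Subgroup.zpowers f) ρ (fun a b hab => TF_ext fun x =>
    DFunLike.congr_fun hab x) T fun a ha x => ?_
  by_cases hx : x ∈ U
  · have h1 : ρ a x = (φ ^ (Multiplicative.toAdd (ex (coc a x)))) x := by
      rw [← ac_ex]
      exact coc_spec a x
    rw [h1]
    exact key _ x hx
  · exact ⟨1, by rw [one_smul]; exact hT a ha x hx⟩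

/-- **The topological full group of one homeomorphism.** -/
theorem mem_TF_unit {C : ∀ (G : Type) [Group G], Prop} (hC : ExtClass C) [CompactSpace X]
    (h : C (FG (fun _ : Unit => φ))) : C (TF (fun _ : Unit => φ)) := by
  refine hC.colimit (PS φ) (fun U => GU U) (fun U V hUV => trU hUV) ?_
    (TF (fun _ : Unit => φ)) (fun U => comb U) ?_ ?_ ?_ (fun U => ?_)
  · intro U V W hUV hVW x
    refine Prod.ext (Subtype.ext (Subtype.ext (Equiv.ext fun p => ?_))) (Subtype.ext ?_)
    · change (off W.2.1 W.2.2.1 (off V.2.1 V.2.2.1 x.1.1)).1 p = (off W.2.1 W.2.2.1 x.1.1).1 p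
      by_cases hW : p.1 ∈ W.1
      · rw [off_in _ _ hW, off_in _ _ hW]
      · rw [off_out _ _ hW, off_out _ _ hW, off_out _ _ fun h' => hW (hVW h')]
    · change on W.2.1 W.2.2.1 (ev (off V.2.1 V.2.2.1 x.1.1)) *
        (on V.2.1 V.2.2.1 (ev x.1.1) * x.2.1) = on W.2.1 W.2.2.1 (ev x.1.1) * x.2.1
      rw [← mul_assoc]
      congr 1
      refine TF_ext fun y => ?_
      change (on W.2.1 W.2.2.1 (ev (off V.2.1 V.2.2.1 x.1.1))).1
        ((on V.2.1 V.2.2.1 (ev x.1.1)).1 y) = _
      by_cases hV : y ∈ V.1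
      · have h1 : (ev x.1.1).1 y ∈ V.1 := (TF_mem_iff V.2.2.1 _ _).2 hV
        rw [on_in _ _ hV, on_in _ _ (hVW h1), on_in _ _ (hVW hV), ev_off_in _ _ _ h1]
      · rw [on_out _ _ hV]
        by_cases hW : y ∈ W.1
        · rw [on_in _ _ hW, on_in _ _ hW, ev_off_out _ _ _ hV]
        · rw [on_out _ _ hW, on_out _ _ hW]
  · intro U V hUV x
    rw [comb_apply, comb_apply]
    change ev (off V.2.1 V.2.2.1 x.1.1) * (on V.2.1 V.2.2.1 (ev x.1.1) * x.2.1) = _
    rw [← mul_assoc]
    congr 1
    refine TF_ext fun y => ?_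
    change (ev (off V.2.1 V.2.2.1 x.1.1)).1 ((on V.2.1 V.2.2.1 (ev x.1.1)).1 y) = _
    by_cases hV : y ∈ V.1
    · have h1 : (ev x.1.1).1 y ∈ V.1 := (TF_mem_iff V.2.2.1 _ _).2 hV
      rw [on_in _ _ hV, ev_off_in _ _ _ h1]
    · rw [on_out _ _ hV, ev_off_out _ _ _ hV]
  · intro x
    obtain ⟨q, rfl⟩ := ev_surj x
    refine ⟨⟨∅, isClopen_empty, fun _ _ => Iff.rfl, 1, Nat.one_pos, fun x hx => hx.elim⟩,
      (⟨q, fun _ hx => hx.elim⟩, 1), ?_⟩
    change ev q * 1 = ev q
    exact mul_one _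
  · rintro U ⟨⟨q, hq⟩, ⟨k, hk⟩⟩ hx
    change ev q * k = 1 at hx
    have hk1 : k = 1 := TF_ext fun x => by
      by_cases hxU : x ∈ U.1
      · have h1 : (ev q).1 (k.1 x) = x := congrArg (fun f : TF (fun _ : Unit => φ) => f.1 x) hx
        have h2 : (ev q).1 (k.1 x) = k.1 x := ev_KU hq ((TF_mem_iff U.2.2.1 k x).2 hxU)
        rw [← h2]
        exact h1
      · exact hk x hxU
    subst hk1
    rw [mul_one] at hx
    obtain ⟨U₀, hU₀⟩ := exists_PS q hx
    obtain ⟨V, hV, hV'⟩ := exists_ge_ge U U₀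
    refine ⟨V, hV, Prod.ext (Subtype.ext (Subtype.ext (Equiv.ext fun p => ?_)))
      (Subtype.ext ?_)⟩
    · change (off V.2.1 V.2.2.1 q).1 p = p
      by_cases hp : p.1 ∈ V.1
      · exact off_in _ _ hp
      · rw [off_out _ _ hp]
        obtain ⟨x, g⟩ := p
        have h1 : ac (fun _ : Unit => φ) g x ∉ V.1 := fun h' => hp ((V.2.2.1 g x).1 h')
        have h2 : cc q (ac (fun _ : Unit => φ) g x) = 1 := by
          by_contra h3
          exact h1 (hV' (hU₀ _ h3))
        rw [cc_spec, h2, one_mul]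
    · change on V.2.1 V.2.2.1 (ev q) * 1 = 1
      rw [hx, map_one, mul_one]
  · exact hC.prod _ _ (hC.subgroup _ _ h) (mem_of_LocFin hC (locFin_LU U))

end per

end Pool.Agent.ZT
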