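import Mathlib

/-!
# Free groups are residually finite
-/

set_option autoImplicit false

namespace Pool.Agent.ZT

/-- A functional and injective relation on a finite type extends to a permutation. -/
theorem exists_perm_of_rel {N : Type} [Finite N] (R : N → N → Prop)
    (h1 : ∀ x y z, R x y → R x z → y = z) (h2 : ∀ x y z, R x z → R y z → x = y) :
    ∃ e : Equiv.Perm N, ∀ x y, R x y → e x = y := by
  classical
  have : Fintype N := Fintype.ofFinite N
  let f : {x // ∃ y, R x y} ≃ {y // ∃ x, R x y} :=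
    { toFun := fun x => ⟨x.2.choose, x.1, x.2.choose_spec⟩
      invFun := fun y => ⟨y.2.choose, y.1, y.2.choose_spec⟩
      left_inv := fun x => by
        refine Subtype.ext ?_
        have h3 : ∃ z, R z x.2.choose := ⟨x.1, x.2.choose_spec⟩
        exact h2 _ _ _ h3.choose_spec x.2.choose_spec
      right_inv := fun y => by
        refine Subtype.ext ?_
        have h3 : ∃ z, R y.2.choose z := ⟨y.1, y.2.choose_spec⟩
        exact h1 _ _ _ h3.choose_spec y.2.choose_spec }
  refine ⟨f.extendSubtype, fun x y h => ?_⟩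
  have h3 : ∃ y, R x y := ⟨y, h⟩
  rw [Equiv.extendSubtype_apply_of_mem f x h3]
  exact h1 _ _ _ h3.choose_spec h

variable {α : Type}

/-- **Free groups are residually finite.** -/
theorem exists_finite_hom (w : FreeGroup α) (hw : w ≠ 1) :
    ∃ (n : ℕ) (f : FreeGroup α →* Equiv.Perm (Fin n)), f w ≠ 1 := by
  classical
  let L := w.toWord
  have hL : FreeGroup.IsReduced L := FreeGroup.isReduced_toWord
  let n := L.length
  have hn : 0 < n := by
    rw [List.length_pos_iff]
    intro h
    exact hw (FreeGroup.toWord_eq_nil_iff.1 h)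
  have hadj : ∀ (i : ℕ) (h : i + 1 < n), (L[i]'(by omega)).1 = (L[i + 1]'h).1 →
      (L[i]'(by omega)).2 = (L[i + 1]'h).2 := by
    intro i h
    exact (List.isChain_iff_getElem.1 hL) i h
  let R : α → Fin (n + 1) → Fin (n + 1) → Prop := fun a x y =>
    ∃ (i : ℕ) (h : i < n), (L[i]'h = (a, true) ∧ x.1 = i + 1 ∧ y.1 = i) ∨
      (L[i]'h = (a, false) ∧ x.1 = i ∧ y.1 = i + 1)
  have key : ∀ (a : α) (i j : ℕ) (hi : i < n) (hj : j < n), L[i]'hi = (a, true) →
      L[j]'hj = (a, false) → i + 1 ≠ j ∧ j + 1 ≠ i := by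
    intro a i j hi hj h1 h2
    constructor
    · rintro rfl
      have h3 := hadj i hj (by rw [h1, h2])
      rw [h1, h2] at h3
      cases h3
    · rintro rfl
      have h3 := hadj j hi (by rw [h1, h2])
      rw [h1, h2] at h3
      cases h3
  have hex : ∀ a, ∃ e : Equiv.Perm (Fin (n + 1)), ∀ x y, R a x y → e x = y := by
    intro a
    refine exists_perm_of_rel (R a) ?_ ?_
    · rintro x y z ⟨i, hi, ⟨h1, h2, h3⟩ | ⟨h1, h2, h3⟩⟩ ⟨j, hj, ⟨h4, h5, h6⟩ | ⟨h4, h5, h6⟩⟩
      · exact Fin.ext (by omega)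
      · exact absurd (by omega) (key a i j hi hj h1 h4).1
      · exact absurd (by omega) (key a j i hj hi h4 h1).1
      · exact Fin.ext (by omega)
    · rintro x y z ⟨i, hi, ⟨h1, h2, h3⟩ | ⟨h1, h2, h3⟩⟩ ⟨j, hj, ⟨h4, h5, h6⟩ | ⟨h4, h5, h6⟩⟩
      · exact Fin.ext (by omega)
      · exact absurd (by omega) (key a i j hi hj h1 h4).2
      · exact absurd (by omega) (key a j i hj hi h4 h1).2
      · exact Fin.ext (by omega)
  choose e he using hex
  let f : FreeGroup α →* Equiv.Perm (Fin (n + 1)) := FreeGroup.lift e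
  refine ⟨n + 1, f, fun hf => ?_⟩
  have hstep : ∀ (i : ℕ) (hi : i ≤ n), f (FreeGroup.mk (L.drop (n - i))) (Fin.last n) =
      ⟨n - i, by omega⟩ := by
    intro i
    induction i with
    | zero =>
      intro _
      have h1 : L.drop (n - 0) = [] := List.drop_eq_nil_of_le (by omega)
      rw [h1]
      change f 1 (Fin.last n) = _
      rw [map_one]
      rfl
    | succ i ih =>
      intro hi
      have h1 : n - (i + 1) < L.length := by
        change n - (i + 1) < n
        omega
      have h2 : L.drop (n - (i + 1)) = L[n - (i + 1)] :: L.drop (n - i) := by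
        rw [List.drop_eq_getElem_cons h1]
        congr 2
        omega
      rw [h2]
      have h3 : FreeGroup.mk (L[n - (i + 1)] :: L.drop (n - i)) =
          FreeGroup.mk [L[n - (i + 1)]] * FreeGroup.mk (L.drop (n - i)) := by
        rw [FreeGroup.mul_mk]
        rfl
      rw [h3, map_mul, Equiv.Perm.mul_apply, ih (by omega)]
      obtain ⟨a, ε, hx⟩ : ∃ a ε, L[n - (i + 1)] = (a, ε) := ⟨_, _, rfl⟩
      rw [hx]
      cases ε
      · have h4 : f (FreeGroup.mk [(a, false)]) = (e a)⁻¹ := by
          change f (FreeGroup.of a)⁻¹ = _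
          rw [map_inv, FreeGroup.lift_apply_of]
        rw [h4, Equiv.Perm.inv_eq_iff_eq]
        exact (he a _ _ ⟨n - (i + 1), h1, Or.inr ⟨hx, rfl, by change n - i = n - (i + 1) + 1; omega⟩⟩).symm
      · have h4 : f (FreeGroup.mk [(a, true)]) = e a := by
          change f (FreeGroup.of a) = _
          rw [FreeGroup.lift_apply_of]
        rw [h4]
        exact he a _ _ ⟨n - (i + 1), h1, Or.inl ⟨hx, by change n - i = n - (i + 1) + 1; omega, rfl⟩⟩
  have h1 := congrArg Fin.val (hstep n le_rfl)
  change (f (FreeGroup.mk (L.drop (n - n))) (Fin.last n)).1 = n - n at h1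
  have h2 : FreeGroup.mk L = w := FreeGroup.mk_toWord
  rw [Nat.sub_self, List.drop_zero, h2, hf] at h1
  change n = 0 at h1
  omega

end Pool.Agent.ZT
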