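import Pool.Agent.FS.GpQ

/-!
# Right-angled Artin groups

`RA R` is the right-angled Artin group with the generators `gen R v`, `v : V`, where the
generators of `R`-related `v`, `w` commute.
-/

set_option autoImplicit false

namespace Pool.Agent.ZT

open Pool.Agent.Helper29.BA Pool.Agent.Helper29.PA Pool.Agent.T59 Pool.Agent.FS

section

variable {V : Type} (R : V → V → Prop)

/-- The relation on the vertices of the one type. -/
def R1 (u v : Σ _ : Unit, V) : Prop := R u.2 v.2

/-- The right-angled Artin group. -/
abbrev RA : Type := GPS (fun _ : Unit => V) (fun _ => Multiplicative ℤ) (R1 R)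

/-- The generators. -/
def gen (v : V) : RA R := gι (V := fun _ : Unit => V) (K := fun _ => Multiplicative ℤ) (R1 R) () v
  (Multiplicative.ofAdd 1)

variable {R}

theorem gen_comm {v w : V} (h : R v w) : gen R v * gen R w = gen R w * gen R v :=
  gcomm (V := fun _ : Unit => V) (K := fun _ => Multiplicative ℤ) (R := R1 R) (i := ()) (j := ())
    h _ _

/-- The universal property. -/
def raLift {G : Type} [Group G] (f : V → G) (h : ∀ v w, R v w → f v * f w = f w * f v) :
    RA R →* G :=
  glift (fun _ v => zpowersHom G (f v)) fun _ v _ w k l hvw => by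
    have h1 : Commute (f v) (f w) := h v w hvw
    exact (h1.zpow_zpow (Multiplicative.toAdd k) (Multiplicative.toAdd l)).eq

@[simp] theorem raLift_gen {G : Type} [Group G] (f : V → G)
    (h : ∀ v w, R v w → f v * f w = f w * f v) (v : V) : raLift f h (gen R v) = f v := by
  unfold raLift gen
  rw [glift_ι]
  change f v ^ (1 : ℤ) = f v
  rw [zpow_one]

theorem ra_hom_ext {G : Type} [Group G] {f g : RA R →* G}
    (h : ∀ v, f (gen R v) = g (gen R v)) : f = g := by
  refine ghom_ext fun j v k => ?_
  have h1 : f.comp (gι (V := fun _ : Unit => V) (K := fun _ => Multiplicative ℤ) (R1 R) j v) =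
      g.comp (gι (V := fun _ : Unit => V) (K := fun _ => Multiplicative ℤ) (R1 R) j v) :=
    MonoidHom.ext_mint (h v)
  exact DFunLike.congr_fun h1 k

/-- Homomorphisms to a group which agree on the generators of a set agree on the subgroup. -/
theorem ra_eqOn {G : Type} [Group G] {f g : RA R →* G} {U : Set V}
    (h : ∀ v ∈ U, f (gen R v) = g (gen R v)) {x : RA R}
    (hx : x ∈ Subgroup.closure (gen R '' U)) : f x = g x := by
  induction hx using Subgroup.closure_induction with
  | mem x hx =>
    obtain ⟨v, hv, rfl⟩ := hx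
    exact h v hv
  | one => rw [map_one, map_one]
  | mul x y _ _ h1 h2 => rw [map_mul, map_mul, h1, h2]
  | inv x _ h1 => rw [map_inv, map_inv, h1]

theorem closure_gen : Subgroup.closure (Set.range (gen R)) = ⊤ := by
  rw [eq_top_iff]
  intro x _
  let f : RA R →* Subgroup.closure (Set.range (gen R)) :=
    raLift (fun v => ⟨gen R v, Subgroup.subset_closure ⟨v, rfl⟩⟩) fun v w h =>
      Subtype.ext (gen_comm h)
  have h1 : (Subgroup.subtype _).comp f = MonoidHom.id (RA R) :=
    ra_hom_ext fun v => by
      rw [MonoidHom.comp_apply, raLift_gen]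
      rfl
  have h2 : ((f x : Subgroup.closure (Set.range (gen R))) : RA R) = x := DFunLike.congr_fun h1 x
  rw [← h2]
  exact (f x).2

/-- The class is closed under the semidirect products with right-angled Artin groups. -/
theorem R1_smul {Q : Type} [Group Q] [MulAction Q V]
    (hR : ∀ (q : Q) v w, R v w → R (q • v) (q • w)) (p : Q) (i : Unit) (v : V) (j : Unit) (w : V)
    (h : R1 R ⟨i, v⟩ ⟨j, w⟩) : R1 R ⟨i, p • v⟩ ⟨j, p • w⟩ :=
  hR p v w h

/-- The action on the right-angled Artin group. -/
def raAct {Q : Type} [Group Q] [MulAction Q V]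
    (hR : ∀ (q : Q) v w, R v w → R (q • v) (q • w)) : Q →* MulAut (RA R) :=
  gpAct (V := fun _ : Unit => V) (K := fun _ => Multiplicative ℤ) (R1_smul hR)

@[simp] theorem raAct_gen {Q : Type} [Group Q] [MulAction Q V]
    (hR : ∀ (q : Q) v w, R v w → R (q • v) (q • w)) (q : Q) (v : V) :
    raAct hR q (gen R v) = gen R (q • v) :=
  gpAct_ι (V := fun _ : Unit => V) (K := fun _ => Multiplicative ℤ) (R1_smul hR) q () v _

/-- **Semidirect products of right-angled Artin groups with groups of the class.** -/
theorem ra_mem {C : ∀ (G : Type) [Group G], Prop} (hC : ExtClass C) {Q : Type} [Group Q]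
    [MulAction Q V] (hR : ∀ (q : Q) v w, R v w → R (q • v) (q • w)) (hirr : ∀ v, ¬ R v v)
    (hQ : C Q) : C (RA R ⋊[raAct hR] Q) :=
  GQ.mem_gps (V := fun _ : Unit => V) (K := fun _ => Multiplicative ℤ) hC (R1_smul hR)
    (fun u => hirr u.2) (fun _ => hC.int) hQ

end

end Pool.Agent.ZT
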