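import Pool.Agent.ZT.ThA

/-!
# Refinement of the colouring

A letter is the product of its pieces for a finer colouring. A run for the colouring `ν` becomes a
run for the finer colouring.
-/

set_option autoImplicit false

namespace Pool.Agent.ZT

variable {A P : Type}

/-- Change of the colouring. -/
def Gr.re (S : Gr A P) (μ : P → ℕ) : Gr A P := { S with ν := μ }

/-- The piece of a set of pairs. -/
def Gr.pc (S : Gr A P) (a : A) (L : Set (P × P)) (v : ℕ) : Set (P × P) :=
  {z | z ∈ L ∧ S.ν (S.σ a z.1) = v}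

/-- The pieces with small indices. -/
def Gr.pl (S : Gr A P) (a : A) (L : Set (P × P)) (n : ℕ) : Set (P × P) :=
  {z | z ∈ L ∧ S.ν (S.σ a z.1) < n}

/-- Different positions have different particles. -/
def Inj (L : Set (P × P)) : Prop := ∀ p p' x, (p, x) ∈ L → (p', x) ∈ L → p = p'

open Classical in
/-- The word of the pieces of a letter. -/
noncomputable def Gr.pw (S : Gr A P) (ℓ : Lt A P) (n : ℕ) : List (Lt A P × Bool) :=
  (List.range n).flatMap fun v =>
    if (S.pc ℓ.1 ℓ.2 v).Nonempty then [((ℓ.1, S.pc ℓ.1 ℓ.2 v), true)] else []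

/-- The product of the pieces. -/
noncomputable def Gr.pp (S : Gr A P) (ℓ : Lt A P) (n : ℕ) : RA (R (A := A) (P := P)) :=
  ((List.range n).map fun v => ltg (ℓ.1, S.pc ℓ.1 ℓ.2 v)).prod

namespace Gr

variable {S : Gr A P}

theorem pw_succ (ℓ : Lt A P) (n : ℕ) (h : (S.pc ℓ.1 ℓ.2 n).Nonempty) :
    S.pw ℓ (n + 1) = S.pw ℓ n ++ [((ℓ.1, S.pc ℓ.1 ℓ.2 n), true)] := by
  unfold pw
  rw [List.range_succ, List.flatMap_append]
  congr 1
  rw [List.flatMap_cons, List.flatMap_nil, List.append_nil, if_pos h]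

theorem pw_succ' (ℓ : Lt A P) (n : ℕ) (h : ¬ (S.pc ℓ.1 ℓ.2 n).Nonempty) :
    S.pw ℓ (n + 1) = S.pw ℓ n := by
  unfold pw
  rw [List.range_succ, List.flatMap_append, List.flatMap_cons, List.flatMap_nil, List.append_nil,
    if_neg h, List.append_nil]

theorem pp_succ (ℓ : Lt A P) (n : ℕ) :
    S.pp ℓ (n + 1) = S.pp ℓ n * ltg (ℓ.1, S.pc ℓ.1 ℓ.2 n) := by
  unfold pp
  rw [List.range_succ, List.map_append, List.prod_append, List.map_cons, List.map_nil,
    List.prod_cons, List.prod_nil, mul_one]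

theorem wp_pw (ℓ : Lt A P) (n : ℕ) : wp (gen R) (S.pw ℓ n) = S.pp ℓ n := by
  induction n with
  | zero => rfl
  | succ n ih =>
    rw [pp_succ]
    by_cases h : (S.pc ℓ.1 ℓ.2 n).Nonempty
    · rw [pw_succ ℓ n h, wp_append, ih, wp_cons, wp_nil, mul_one, ltg_ne h]
      rfl
    · rw [pw_succ' ℓ n h, ih, ltg_empty h, mul_one]

theorem pl_succ (a : A) (L : Set (P × P)) (n : ℕ) : S.pl a L (n + 1) = S.pl a L n ∪ S.pc a L n := by
  ext z
  change (z ∈ L ∧ S.ν (S.σ a z.1) < n + 1) ↔ (z ∈ L ∧ _ < n) ∨ (z ∈ L ∧ _ = n)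
  rw [Nat.lt_succ_iff_lt_or_eq]
  tauto

theorem pl_zero (a : A) (L : Set (P × P)) : S.pl a L 0 = ∅ := by
  ext z
  change (z ∈ L ∧ S.ν (S.σ a z.1) < 0) ↔ False
  simp

theorem pl_of_bound {N : ℕ} (hN : ∀ p, S.ν p < N) (a : A) (L : Set (P × P)) : S.pl a L N = L := by
  ext z
  exact ⟨fun h => h.1, fun h => ⟨h, hN _⟩⟩

theorem parts_empty : S.parts ∅ = ∅ := by
  ext τ
  constructor
  · rintro ⟨⟨z, hz⟩, e, rfl⟩
    exact hz.1.elim
  · exact fun h => h.elim

theorem parts_union {M K : Set (P × P)} (h : ∀ z ∈ M, ∀ y ∈ K, S.ty z.1 ≠ S.ty y.1) :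
    S.parts (M ∪ K) = S.parts M ∪ S.parts K := by
  have h1 : ∀ z ∈ M, S.pt (S.ty z.1) (M ∪ K) = S.pt (S.ty z.1) M := by
    intro z hz
    ext y
    constructor
    · rintro ⟨hy | hy, h2⟩
      · exact ⟨hy, h2⟩
      · exact (h z hz y hy h2.symm).elim
    · rintro ⟨hy, h2⟩
      exact ⟨Or.inl hy, h2⟩
  have h2 : ∀ z ∈ K, S.pt (S.ty z.1) (M ∪ K) = S.pt (S.ty z.1) K := by
    intro z hz
    ext y
    constructor
    · rintro ⟨hy | hy, h2⟩
      · exact (h y hy z hz h2).elim
      · exact ⟨hy, h2⟩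
    · rintro ⟨hy, h2⟩
      exact ⟨Or.inr hy, h2⟩
  ext τ
  constructor
  · rintro ⟨⟨z, h0⟩, e, rfl⟩
    obtain ⟨hz, h3⟩ := h0
    subst h3
    rcases hz with hz | hz
    · rw [h1 z hz]
      exact Or.inl (pt_mem_parts hz)
    · rw [h2 z hz]
      exact Or.inr (pt_mem_parts hz)
  · rintro (⟨⟨z, h0⟩, e, rfl⟩ | ⟨⟨z, h0⟩, e, rfl⟩)
    · obtain ⟨hz, h3⟩ := h0
      subst h3
      rw [← h1 z hz]
      exact pt_mem_parts (Or.inl hz)
    · obtain ⟨hz, h3⟩ := h0
      subst h3
      rw [← h2 z hz]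
      exact pt_mem_parts (Or.inr hz)

/-- The pieces one after the other. -/
theorem sweep {c : Set (Set (P × P))} {a : A} {L : Set (P × P)} (hL : Inj L)
    (hc : S.parts L ⊆ c) {v : ℕ} {φ : ℕ → ℕ} (hv : ∀ p, p ∈ pos L ↔ φ (S.ν (S.σ a p)) = v)
    (n : ℕ) :
    S.Run c (S.pw (a, L) n) ((c \ S.parts (S.pl a L n)) ∪ S.parts (S.sh a (S.pl a L n))) := by
  induction n with
  | zero =>
    have h1 : S.sh a (∅ : Set (P × P)) = ∅ := rfl
    rw [pl_zero, h1, parts_empty, Set.sdiff_empty, Set.union_empty]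
    exact rfl
  | succ n ih =>
    by_cases h : (S.pc a L n).Nonempty
    · rw [pw_succ (a, L) n h]
      refine run_append.2 ⟨_, ih, _, ⟨?_, ?_, rfl⟩, ?_⟩
      · -- it is a letter
        refine ⟨h, n, fun p => ?_⟩
        obtain ⟨⟨p₀, x₀⟩, h0, h1⟩ := h
        change S.ν (S.σ a p₀) = n at h1
        have h2 := (hv p₀).1 ⟨x₀, h0⟩
        rw [h1] at h2
        change (∃ x, (p, x) ∈ L ∧ S.ν (S.σ a p) = n) ↔ S.ν (S.σ a p) = n
        constructor
        · rintro ⟨x, -, h3⟩
          exact h3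
        · intro h3
          obtain ⟨x, hx⟩ := (hv p).2 (by rw [h3, h2])
          exact ⟨x, hx, h3⟩
      · -- the tokens are there
        intro τ hτ
        change τ ∈ S.parts (S.pc a L n) at hτ
        refine Or.inl ⟨hc ?_, ?_⟩
        · obtain ⟨⟨z, h0⟩, e, rfl⟩ := hτ
          obtain ⟨hz, h3⟩ := h0
          subst h3
          have h4 : S.pt (S.ty z.1) (S.pc a L n) = S.pt (S.ty z.1) L := by
            ext y
            constructor
            · rintro ⟨h5, h6⟩
              exact ⟨h5.1, h6⟩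
            · rintro ⟨h5, h6⟩
              refine ⟨⟨h5, ?_⟩, h6⟩
              have h7 := congrFun (congrArg Prod.snd h6) a
              exact h7.trans hz.2
          rw [h4]
          exact pt_mem_parts hz.1
        · intro hτ'
          obtain ⟨z, hz⟩ := hτ.1
          have h3 := (parts_sub hτ hz).2
          have h4 := (parts_sub hτ' hz).2
          omega
      · change (((c \ S.parts (S.pl a L n)) ∪ S.parts (S.sh a (S.pl a L n))) \
          S.parts (S.pc a L n)) ∪ S.parts (S.sh a (S.pc a L n)) = _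
        have h1 : S.parts (S.pl a L (n + 1)) = S.parts (S.pl a L n) ∪ S.parts (S.pc a L n) := by
          rw [pl_succ, parts_union]
          intro z hz y hy h2
          have h3 := congrFun (congrArg Prod.snd h2) a
          change S.ν (S.σ a z.1) = S.ν (S.σ a y.1) at h3
          have h4 := hz.2
          have h5 := hy.2
          omega
        have h2 : S.parts (S.sh a (S.pl a L (n + 1))) =
            S.parts (S.sh a (S.pl a L n)) ∪ S.parts (S.sh a (S.pc a L n)) := by
          rw [pl_succ]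
          change S.parts (S.sh a (S.pl a L n) ∪ S.sh a (S.pc a L n)) = _
          rw [parts_union]
          intro z hz y hy h2
          have h3 := congrArg Prod.fst h2
          change S.ν z.1 = S.ν y.1 at h3
          have h4 : S.ν (S.σ a ((S.σ a)⁻¹ z.1)) < n := hz.2
          have h5 : S.ν (S.σ a ((S.σ a)⁻¹ y.1)) = n := hy.2
          rw [pai] at h4 h5
          omega
        have h3 : ∀ τ, τ ∈ S.parts (S.sh a (S.pl a L n)) → τ ∉ S.parts (S.pc a L n) := by
          intro τ h4 h5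
          obtain ⟨⟨p, x⟩, hz⟩ := h4.1
          have h6 : S.ν (S.σ a ((S.σ a)⁻¹ p)) < n := (parts_sub h4 hz).2
          have h7 : S.ν (S.σ a p) = n := (parts_sub h5 hz).2
          have h8 := hL _ _ x (parts_sub h4 hz).1 (parts_sub h5 hz).1
          change (S.σ a)⁻¹ p = p at h8
          rw [h8] at h6
          omega
        rw [h1, h2]
        ext τ
        have h4 := h3 τ
        simp only [Set.mem_union, Set.mem_sdiff]
        tauto
    · have h1 : S.pl a L (n + 1) = S.pl a L n := by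
        rw [pl_succ, Set.not_nonempty_iff_eq_empty.1 h, Set.union_empty]
      rw [pw_succ' (a, L) n h, h1]
      exact ih

end Gr

end Pool.Agent.ZT
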