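import Pool.Agent.ZT.Rl

/-!
# Restriction and lifting of runs
-/

set_option autoImplicit false

namespace Pool.Agent.ZT

variable {A P P' : Type}

/-- The colour of the type used on the side `ε`. -/
def ec (a : A) (ε : Bool) (e : ℕ × (A → ℕ)) : ℕ := if ε then e.2 a else e.1

/-- The letter with the given side. -/
def Gr.ofSide (S : Gr A P) (a : A) (ε : Bool) (U : Set (P × P)) : Lt A P :=
  (a, if ε then U else {z | (S.σ a z.1, z.2) ∈ U})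

variable {S' : Gr A P'} {S : Gr A P}

/-- The restriction of a state. -/
def Hm.rst (f : Hm S' S) (c : Set (Set (P × P))) : Set (Set (P' × P')) := pull f.j '' c

namespace Gr

theorem side_ofSide (a : A) (ε : Bool) (U : Set (P × P)) : S.side (S.ofSide a ε U) ε = U := by
  cases ε
  · ext ⟨p, x⟩
    change (S.σ a ((S.σ a)⁻¹ p), x) ∈ U ↔ _
    rw [pai]
  · rfl

theorem isLet_iff (ℓ : Lt A P) (ε : Bool) : S.IsLet ℓ ↔ (S.side ℓ ε).Nonempty ∧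
    ∃ v, ∀ p, p ∈ pos (S.side ℓ ε) ↔ ec ℓ.1 ε (S.ty p) = v := by
  cases ε
  · constructor
    · rintro ⟨⟨⟨p, x⟩, h⟩, v, hv⟩
      refine ⟨⟨(S.σ ℓ.1 p, x), mem_sh'.2 h⟩, v, fun p => ?_⟩
      change (S.σ ℓ.1)⁻¹ p ∈ pos ℓ.2 ↔ S.ν p = v
      rw [hv, pai]
    · rintro ⟨⟨⟨p, x⟩, h⟩, v, hv⟩
      refine ⟨⟨_, h⟩, v, fun p => ?_⟩
      rw [← show _ ↔ S.ν (S.σ ℓ.1 p) = v from hv (S.σ ℓ.1 p)]
      exact exists_congr fun x => mem_sh'.symm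
  · exact Iff.rfl

theorem parts_pull (f : Hm S' S) {L : Set (P × P)}
    (h : ∀ τ ∈ S.parts L, (pull f.j τ).Nonempty) :
    S'.parts (pull f.j L) = pull f.j '' S.parts L := by
  ext τ
  constructor
  · rintro ⟨hne, e, rfl⟩
    refine ⟨S.pt e L, ⟨?_, e, rfl⟩, (pt_pull f e L).symm⟩
    obtain ⟨⟨p, x⟩, hz⟩ := hne
    rw [pt_pull] at hz
    exact ⟨_, hz⟩
  · rintro ⟨τ, hτ, rfl⟩
    have h1 := h τ hτ
    obtain ⟨hne, e, rfl⟩ := hτ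
    exact ⟨h1, e, (pt_pull f e L).symm⟩

theorem Valid.tk_pull (f : Hm S' S) {c : Set (Set (P × P))} (hc : S.Valid c) {ℓ : Lt A P}
    {ε : Bool} (h : S.tk ℓ ε ⊆ c) : S'.tk (rs f.j ℓ) ε = pull f.j '' S.tk ℓ ε := by
  unfold tk
  rw [side_pull]
  refine parts_pull f fun τ hτ => ?_
  obtain ⟨p, y, hy⟩ := (hc.tok τ (h hτ)).meet f
  exact ⟨_, hy⟩

theorem Valid.pull_inj (f : Hm S' S) {c : Set (Set (P × P))} (hc : S.Valid c)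
    {τ τ' : Set (P × P)} (hτ : τ ∈ c) (hτ' : τ' ∈ c) (h : pull f.j τ = pull f.j τ') : τ = τ' := by
  obtain ⟨p, y, hy⟩ := (hc.tok τ hτ).meet f
  have hy' := hy
  rw [h] at hy'
  exact hc.dis τ hτ τ' hτ' (f.j y) ⟨_, hy⟩ ⟨_, hy'⟩

theorem IsLet.res (f : Hm S' S) {ℓ : Lt A P} (hℓ : S.IsLet ℓ)
    (h : ∀ p x, (p, x) ∈ ℓ.2 → S.ln p = S.ln x) : S'.IsLet (rs f.j ℓ) := by
  obtain ⟨⟨⟨p, x⟩, h0⟩, v, hv⟩ := hℓ
  have h1 : ∀ q, q ∈ pos (pull f.j ℓ.2) ↔ f.j q ∈ pos ℓ.2 := by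
    intro q
    constructor
    · rintro ⟨y, hy⟩
      exact ⟨_, hy⟩
    · rintro ⟨y, hy⟩
      obtain ⟨y', rfl⟩ := f.rg q y (h _ _ hy).symm
      exact ⟨y', hy⟩
  have h2 : ∀ q, q ∈ pos (pull f.j ℓ.2) ↔ S'.ν (S'.σ ℓ.1 q) = v := by
    intro q
    rw [h1, hv, ← f.σ, f.ν]
  obtain ⟨p', h3⟩ := f.meet p
  obtain ⟨y, hy⟩ := (h2 p').2 (by
    have h4 := (hv p).1 ⟨x, h0⟩
    have h5 := congrFun (congrArg Prod.snd h3) ℓ.1
    change S.ν (S.σ ℓ.1 (f.j p')) = S.ν (S.σ ℓ.1 p) at h5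
    rw [← f.ν, f.σ, h5, h4])
  exact ⟨⟨_, hy⟩, v, h2⟩

theorem line_of_side {ℓ : Lt A P} {ε : Bool} (h : ∀ p x, (p, x) ∈ S.side ℓ ε → S.ln p = S.ln x) :
    ∀ p x, (p, x) ∈ ℓ.2 → S.ln p = S.ln x := by
  cases ε
  · intro p x h1
    rw [← h _ _ (mem_sh' (S := S) (a := ℓ.1).2 h1), S.ln_σ]
  · exact h

theorem Valid.rst_step (f : Hm S' S) {c c' : Set (Set (P × P))} (hc : S.Valid c) {ℓ : Lt A P}
    {ε : Bool} (h : S.Step c (ℓ, ε) c') : S'.Step (f.rst c) (rs f.j ℓ, ε) (f.rst c') := by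
  have hc' := hc.step h
  have h1 := hc.tk_pull f h.2.1
  have h2 : S'.tk (rs f.j ℓ) (!ε) = pull f.j '' S.tk ℓ (!ε) := hc'.tk_pull f (by
    rw [h.2.2]
    exact Set.subset_union_right)
  refine ⟨h.1.res f (line_of_side (hc.side_props h.2.1).2.2), ?_, ?_⟩
  · change S'.tk (rs f.j ℓ) ε ⊆ _
    rw [h1]
    exact Set.image_mono h.2.1
  · change _ = (f.rst c \ S'.tk (rs f.j ℓ) ε) ∪ S'.tk (rs f.j ℓ) (!ε)
    rw [h1, h2, h.2.2]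
    ext τ
    constructor
    · rintro ⟨τ, ⟨h3, h4⟩ | h3, rfl⟩
      · refine Or.inl ⟨⟨τ, h3, rfl⟩, ?_⟩
        rintro ⟨τ', h5, h6⟩
        rw [hc.pull_inj f (h.2.1 h5) h3 h6] at h5
        exact h4 h5
      · exact Or.inr ⟨τ, h3, rfl⟩
    · rintro (⟨⟨τ, h3, rfl⟩, h4⟩ | ⟨τ, h3, rfl⟩)
      · exact ⟨τ, Or.inl ⟨h3, fun h5 => h4 ⟨τ, h5, rfl⟩⟩, rfl⟩
      · exact ⟨τ, Or.inr h3, rfl⟩

theorem Valid.rst_run (f : Hm S' S) (w : List (Lt A P × Bool)) : ∀ {c c' : Set (Set (P × P))},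
    S.Valid c → S.Run c w c' → S'.Run (f.rst c) (rsw f.j w) (f.rst c') := by
  induction w with
  | nil =>
    rintro c c' _ rfl
    exact rfl
  | cons z w ih =>
    rintro c c' hc ⟨c₁, h1, h2⟩
    exact ⟨f.rst c₁, hc.rst_step f h1, ih (hc.step h1) h2⟩

/-- Lifting a step. -/
theorem Valid.lift_step (f : Hm S' S) {c : Set (Set (P × P))} (hc : S.Valid c) {ℓ' : Lt A P'}
    {ε : Bool} {c₁' : Set (Set (P' × P'))} (h : S'.Step (f.rst c) (ℓ', ε) c₁') :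
    ∃ ℓ c₁, rs f.j ℓ = ℓ' ∧ S.Step c (ℓ, ε) c₁ ∧ f.rst c₁ = c₁' := by
  obtain ⟨hℓ, hs, rfl⟩ := h
  change S'.tk ℓ' ε ⊆ f.rst c at hs
  change ∃ ℓ c₁, rs f.j ℓ = ℓ' ∧ S.Step c (ℓ, ε) c₁ ∧
    f.rst c₁ = (f.rst c \ S'.tk ℓ' ε) ∪ S'.tk ℓ' (!ε)
  set U : Set (P × P) := {z | ∃ τ ∈ c, pull f.j τ ∈ S'.tk ℓ' ε ∧ z ∈ τ} with hU
  set ℓ := S.ofSide ℓ'.1 ε U with hℓdef
  have hsd : S.side ℓ ε = U := side_ofSide _ _ _
  have hpU : pull f.j U = S'.side ℓ' ε := by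
    ext ⟨p, x⟩
    constructor
    · rintro ⟨τ, h1, h2, h3⟩
      exact parts_sub h2 h3
    · intro h1
      obtain ⟨τ, h2, h3⟩ := hs (pt_mem_parts h1)
      refine ⟨τ, h2, ?_, ?_⟩
      · rw [h3]
        exact pt_mem_parts h1
      · change (p, x) ∈ pull f.j τ
        rw [h3]
        exact ⟨h1, rfl⟩
  have hrs : rs f.j ℓ = ℓ' := eq_of_side (S := S') (ε := ε) rfl (by rw [side_pull, hsd, hpU])
  -- the tokens
  have ht : ∀ τ ∈ c, pull f.j τ ∈ S'.tk ℓ' ε → ∀ p x, (p, x) ∈ τ → τ = S.pt (S.ty p) U := by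
    intro τ h1 h2 p x h3
    obtain ⟨e, he⟩ := (hc.tok τ h1).full
    have h4 := (he p).1 ⟨x, h3⟩
    ext ⟨q, y⟩
    constructor
    · intro h5
      exact ⟨⟨τ, h1, h2, h5⟩, ((he q).1 ⟨y, h5⟩).trans h4.symm⟩
    · rintro ⟨⟨τ₂, h5, h6, h7⟩, h8⟩
      obtain ⟨e₂, he₂⟩ := (hc.tok τ₂ h5).full
      have h9 := (he₂ q).1 ⟨y, h7⟩
      change S.ty q = S.ty p at h8
      have h10 : e₂ = e := by rw [← h9, h8, h4]
      subst h10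
      have h11 : pull f.j τ = pull f.j τ₂ := by
        obtain ⟨p₁, x₁, hp₁⟩ := (hc.tok τ h1).meet f
        obtain ⟨p₂, x₂, hp₂⟩ := (hc.tok τ₂ h5).meet f
        obtain ⟨-, e₃, h12⟩ := h2
        obtain ⟨-, e₄, h13⟩ := h6
        have h14 : S'.ty p₁ = e₃ := by
          rw [h12] at hp₁
          exact hp₁.2
        have h15 : S'.ty p₂ = e₄ := by
          rw [h13] at hp₂
          exact hp₂.2
        have h16 := (he (f.j p₁)).1 ⟨_, hp₁⟩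
        have h17 := (he₂ (f.j p₂)).1 ⟨_, hp₂⟩
        rw [f.ty] at h16 h17
        rw [h12, h13, ← h14, ← h15, h16, h17]
      rw [hc.pull_inj f h1 h5 h11]
      exact h7
  have htk : S.tk ℓ ε ⊆ c := by
    rintro τ ⟨⟨⟨p, x⟩, h1⟩, e, rfl⟩
    rw [hsd] at h1
    obtain ⟨⟨τ, h2, h3, h4⟩, h5⟩ := h1
    rw [hsd]
    change S.ty p = e at h5
    rw [← h5, ← ht τ h2 h3 p x h4]
    exact h2
  have hlet : S.IsLet ℓ := by
    obtain ⟨⟨⟨p₀, x₀⟩, h0⟩, v, hv⟩ := (isLet_iff ℓ' ε).1 hℓ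
    refine (isLet_iff ℓ ε).2 ⟨?_, v, fun p => ?_⟩
    · rw [← hpU] at h0
      rw [hsd]
      exact ⟨_, h0⟩
    · rw [hsd]
      change _ ↔ ec ℓ'.1 ε (S.ty p) = v
      constructor
      · rintro ⟨x, τ, h1, h2, h3⟩
        obtain ⟨e, he⟩ := (hc.tok τ h1).full
        obtain ⟨p', y', hp'⟩ := (hc.tok τ h1).meet f
        rw [(he p).1 ⟨x, h3⟩, ← (he (f.j p')).1 ⟨_, hp'⟩, f.ty]
        exact (hv p').1 ⟨y', parts_sub h2 hp'⟩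
      · intro h1
        obtain ⟨p', hp'⟩ := f.meet p
        rw [← hp', f.ty] at h1
        obtain ⟨x', hx'⟩ := (hv p').2 h1
        obtain ⟨τ, h2, h3⟩ := hs (pt_mem_parts hx')
        have h4 : (p', x') ∈ pull f.j τ := by
          rw [h3]
          exact ⟨hx', rfl⟩
        obtain ⟨e, he⟩ := (hc.tok τ h2).full
        have h5 := (he (f.j p')).1 ⟨_, h4⟩
        obtain ⟨x, hx⟩ := (he p).2 (hp'.symm.trans h5)
        refine ⟨x, τ, h2, ?_, hx⟩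
        rw [h3]
        exact pt_mem_parts hx'
  have hstep : S.Step c (ℓ, ε) ((c \ S.tk ℓ ε) ∪ S.tk ℓ (!ε)) := ⟨hlet, htk, rfl⟩
  refine ⟨ℓ, _, hrs, hstep, ?_⟩
  have h1 := (hc.rst_step f hstep).2.2
  rw [hrs] at h1
  exact h1

/-- Lifting a run. -/
theorem Valid.lift_run (f : Hm S' S) (w' : List (Lt A P' × Bool)) : ∀ {c : Set (Set (P × P))}
    {c₁' : Set (Set (P' × P'))}, S.Valid c → S'.Run (f.rst c) w' c₁' →
    ∃ w c₁, rsw f.j w = w' ∧ S.Run c w c₁ ∧ f.rst c₁ = c₁' := by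
  induction w' with
  | nil =>
    rintro c c₁' _ rfl
    exact ⟨[], c, rfl, rfl, rfl⟩
  | cons z w' ih =>
    obtain ⟨ℓ', ε⟩ := z
    rintro c c₁' hc ⟨c₂', h1, h2⟩
    obtain ⟨ℓ, c₂, rfl, h3, rfl⟩ := hc.lift_step f h1
    obtain ⟨w, c₁, rfl, h4, h5⟩ := ih (hc.step h3) h2
    exact ⟨(ℓ, ε) :: w, c₁, rfl, ⟨c₂, h3, h4⟩, h5⟩

end Gr

end Pool.Agent.ZT
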