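import Pool.Agent.ZT.Run

/-!
# The restriction lemma

A run whose restriction to a set of lines meeting all types has trivial product has trivial
product, and it is closed.
-/

set_option autoImplicit false

namespace Pool.Agent.ZT

variable {A P P' : Type}

/-- Inclusions of unions of lines meeting all types. -/
structure Hm (S' : Gr A P') (S : Gr A P) where
  /-- the map -/
  j : P' → P
  inj : Function.Injective j
  σ : ∀ a p, j (S'.σ a p) = S.σ a (j p)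
  ν : ∀ p, S.ν (j p) = S'.ν p
  ln : ∀ p q, S.ln (j p) = S.ln (j q) ↔ S'.ln p = S'.ln q
  rg : ∀ p q, S.ln q = S.ln (j p) → ∃ q', j q' = q
  meet : ∀ p, ∃ p', S.ty (j p') = S.ty p

/-- Pull-back of a set of pairs. -/
def pull (j : P' → P) (L : Set (P × P)) : Set (P' × P') := {z | (j z.1, j z.2) ∈ L}

theorem mem_pull {j : P' → P} {L : Set (P × P)} {p x : P'} :
    (p, x) ∈ pull j L ↔ (j p, j x) ∈ L := Iff.rfl

/-- The restriction of a letter. -/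
def rs (j : P' → P) (ℓ : Lt A P) : Lt A P' := (ℓ.1, pull j ℓ.2)

/-- The restriction of a word. -/
def rsw (j : P' → P) (w : List (Lt A P × Bool)) : List (Lt A P' × Bool) :=
  w.map fun z => (rs j z.1, z.2)

variable {S' : Gr A P'} {S : Gr A P}

theorem Hm.ty (f : Hm S' S) (p : P') : S.ty (f.j p) = S'.ty p := by
  unfold Gr.ty
  rw [f.ν]
  congr 1
  funext a
  rw [← f.σ, f.ν]

theorem Hm.σ_inv (f : Hm S' S) (a : A) (p : P') : f.j ((S'.σ a)⁻¹ p) = (S.σ a)⁻¹ (f.j p) := by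
  have h := f.σ a ((S'.σ a)⁻¹ p)
  rw [pai] at h
  rw [h, pia]

namespace Gr

theorem side_sub_of_tk {ℓ m : Lt A P} {ε δ : Bool} (h : S.tk ℓ ε ⊆ S.tk m δ) :
    S.side ℓ ε ⊆ S.side m δ := fun _ hz => parts_sub (h (pt_mem_parts hz)) ⟨hz, rfl⟩

theorem eq_of_side {ℓ m : Lt A P} {ε : Bool} (h1 : ℓ.1 = m.1) (h : S.side ℓ ε = S.side m ε) :
    ℓ = m := by
  obtain ⟨a, L⟩ := ℓ
  obtain ⟨b, M⟩ := m
  obtain rfl : a = b := h1
  congr 1
  cases ε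
  · change S.sh a L = S.sh a M at h
    ext ⟨p, x⟩
    rw [← mem_sh' (S := S) (a := a) (L := L), h, mem_sh']
  · exact h

theorem eq_of_tk {ℓ m : Lt A P} {ε : Bool} (h1 : ℓ.1 = m.1) (h : S.tk ℓ ε = S.tk m ε) :
    ℓ = m :=
  eq_of_side h1 (Set.Subset.antisymm (side_sub_of_tk h.subset) (side_sub_of_tk h.symm.subset))

theorem side_pull (f : Hm S' S) (ℓ : Lt A P) (ε : Bool) :
    S'.side (rs f.j ℓ) ε = pull f.j (S.side ℓ ε) := by
  cases ε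
  · ext ⟨p, x⟩
    change (f.j ((S'.σ ℓ.1)⁻¹ p), f.j x) ∈ ℓ.2 ↔ ((S.σ ℓ.1)⁻¹ (f.j p), f.j x) ∈ ℓ.2
    rw [f.σ_inv]
  · rfl

theorem pt_pull (f : Hm S' S) (e : ℕ × (A → ℕ)) (L : Set (P × P)) :
    S'.pt e (pull f.j L) = pull f.j (S.pt e L) := by
  ext ⟨p, x⟩
  change (_ ∧ S'.ty p = e) ↔ (_ ∧ S.ty (f.j p) = e)
  rw [f.ty]
  rfl

/-- The tokens of a valid state have a particle and a position in the image. -/
theorem Tok.meet (f : Hm S' S) {τ : Set (P × P)} (ht : S.Tok τ) :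
    ∃ p y, (p, y) ∈ pull f.j τ := by
  obtain ⟨⟨p, x⟩, hp⟩ := ht.ne
  obtain ⟨e, he⟩ := ht.full
  have h2 := (he p).1 ⟨x, hp⟩
  obtain ⟨p', h5⟩ := f.meet p
  obtain ⟨y, hy⟩ := (he (f.j p')).2 (h5.trans h2)
  obtain ⟨y', rfl⟩ := f.rg p' y (ht.line _ _ hy).symm
  exact ⟨p', y', hy⟩

theorem Valid.meet (f : Hm S' S) {c : Set (Set (P × P))}
    (hc : S.Valid c) {τ : Set (P × P)} (hτ : τ ∈ c) :
    ∃ y, f.j y ∈ im τ ∧ ∀ (ℓ : Lt A P) (ε : Bool), τ ∈ S.tk ℓ ε → y ∈ im (rs f.j ℓ).2 := by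
  obtain ⟨p, y, hy⟩ := (hc.tok τ hτ).meet f
  refine ⟨y, ⟨_, hy⟩, fun ℓ ε h => ?_⟩
  rw [← im_side (S := S') (rs f.j ℓ) ε, side_pull]
  exact ⟨p, parts_sub h hy⟩

theorem run_between (f : Hm S' S) {ℓ : Lt A P} (hℓ : ℓ.2.Nonempty)
    {ε : Bool} (w : List (Lt A P × Bool)) : ∀ {c c' : Set (Set (P × P))}, S.Valid c →
    S.tk ℓ ε ⊆ c → S.Run c w c' → (∀ y ∈ w, R (rs f.j ℓ) (rs f.j y.1)) →
    S.tk ℓ ε ⊆ c' ∧ ∀ y ∈ w, R ℓ y.1 := by
  induction w with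
  | nil =>
    rintro c c' _ h rfl _
    exact ⟨h, fun y hy => absurd hy List.not_mem_nil⟩
  | cons y w ih =>
    rintro c c' hc h ⟨c₁, h1, h2⟩ h3
    have h4 : R ℓ y.1 := by
      refine ⟨hℓ, h1.1.1, fun x hx hx' => ?_⟩
      obtain ⟨τ, hτ, h5⟩ := exists_tk (S := S) ε hx
      obtain ⟨τ', hτ', h6⟩ := exists_tk (S := S) y.2 hx'
      obtain rfl := hc.dis τ (h hτ) τ' (h1.2.1 hτ') x h5 h6
      obtain ⟨z, -, hz⟩ := hc.meet f (h hτ)
      exact (h3 y List.mem_cons_self).2.2 z (hz _ _ hτ) (hz _ _ hτ')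
    have h5 : S.tk ℓ ε ⊆ c₁ := by
      rw [h1.2.2]
      exact fun τ hτ => Or.inl ⟨h hτ, fun h6 => tk_disjoint h4 hτ h6⟩
    obtain ⟨h6, h7⟩ := ih (hc.step h1) h5 h2 fun z hz => h3 z (List.mem_cons_of_mem _ hz)
    refine ⟨h6, fun z hz => ?_⟩
    rcases List.mem_cons.1 hz with rfl | hz
    · exact h4
    · exact h7 z hz

/-- **The restriction lemma.** -/
theorem restriction (f : Hm S' S) {Γ Γ' : Type} [Group Γ] [Group Γ']
    {g : Lt A P → Γ} (hg : ∀ x y, R x y → g x * g y = g y * g x)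
    {g' : Lt A P' → Γ'} (hg' : ∀ x y, R x y → g' x * g' y = g' y * g' x)
    (hcl : ∀ w : List (Lt A P' × Bool), w ≠ [] → wp g' w = 1 → Canc R w) (n : ℕ) :
    ∀ (w : List (Lt A P × Bool)), w.length ≤ n → ∀ {c c' : Set (Set (P × P))}, S.Valid c →
    S.Run c w c' → wp g' (rsw f.j w) = 1 → wp g w = 1 ∧ c = c' := by
  induction n with
  | zero =>
    intro w hn c c' hc h _
    obtain rfl := List.eq_nil_of_length_eq_zero (Nat.le_zero.1 hn)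
    exact ⟨rfl, h⟩
  | succ n ih =>
    intro w hn c c' hc h hw
    by_cases hw0 : w = []
    · subst hw0
      exact ⟨rfl, h⟩
    obtain ⟨v₁, x, ε, v₂, v₃, h1, h2⟩ := hcl (rsw f.j w) (by simpa [rsw] using hw0) hw
    obtain ⟨w₁, u, rfl, hw₁, hu⟩ := List.map_eq_append_iff.1 h1
    obtain ⟨⟨ℓ, ε'⟩, u', rfl, hℓ, hu'⟩ := List.map_eq_cons_iff.1 hu
    obtain ⟨w₂, u'', rfl, hw₂, hu''⟩ := List.map_eq_append_iff.1 hu'
    obtain ⟨⟨m, δ⟩, w₃, rfl, hm, hw₃⟩ := List.map_eq_cons_iff.1 hu''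
    obtain ⟨hℓ1, hε⟩ := Prod.mk.inj hℓ
    obtain ⟨hm1, hδ⟩ := Prod.mk.inj hm
    change rs f.j ℓ = x at hℓ1
    change rs f.j m = x at hm1
    change ε' = ε at hε
    change δ = !ε at hδ
    subst hε hδ
    obtain ⟨c₁, r1, c₂, r2, r3⟩ := run_append.1 h
    obtain ⟨c₃, r4, c₄, r5, r6⟩ := run_append.1 r3
    have hc1 := hc.run r1
    have hc2 := hc1.step r2
    have hc3 := hc2.run r4
    have h3 : ∀ y ∈ w₂, R (rs f.j ℓ) (rs f.j y.1) := by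
      intro y hy
      rw [hℓ1]
      exact h2 (rs f.j y.1, y.2) (hw₂ ▸ List.mem_map.2 ⟨y, hy, rfl⟩)
    have h4 : S.tk ℓ (!ε') ⊆ c₂ := by
      rw [r2.2.2]
      exact Set.subset_union_right
    obtain ⟨h5, h6⟩ := run_between f r2.1.1 w₂ hc2 h4 r4 h3
    have h7 : ∀ {l k : Lt A P}, S.tk l (!ε') ⊆ c₃ → S.tk k (!ε') ⊆ c₃ → rs f.j l = rs f.j k →
        S.tk l (!ε') ⊆ S.tk k (!ε') := by
      intro l k hl1 hk1 he τ hτ
      obtain ⟨y, hy, hy'⟩ := hc3.meet f (hl1 hτ)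
      have h8 := hy' _ _ hτ
      rw [he] at h8
      obtain ⟨p, hp⟩ := h8
      obtain ⟨τ', hτ', h9⟩ := exists_tk (S := S) (ℓ := k) (!ε') ⟨f.j p, hp⟩
      rw [hc3.dis τ (hl1 hτ) τ' (hk1 hτ') _ hy h9]
      exact hτ'
    have h8 : S.tk m (!ε') ⊆ c₃ := r5.2.1
    have h9 : ℓ = m := eq_of_tk (S := S) (ε := !ε')
      (show (rs f.j ℓ).1 = (rs f.j m).1 from congrArg Prod.fst (hℓ1.trans hm1.symm))
      (Set.Subset.antisymm (h7 h5 h8 (hℓ1.trans hm1.symm)) (h7 h8 h5 (hm1.trans hℓ1.symm)))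
    subst h9
    have h10 : S.Run c (w₁ ++ (w₂ ++ w₃)) c' := run_delete' hc h6 h
    have h11 : wp g' (rsw f.j (w₁ ++ (w₂ ++ w₃))) = 1 := by
      have h12 := wp_canc hg' (rsw f.j w₁) (rsw f.j w₂) (rsw f.j w₃) (rs f.j ℓ) ε' (by
        intro y hy
        obtain ⟨y', hy', rfl⟩ := List.mem_map.1 hy
        exact h3 y' hy')
      have h13 : rsw f.j (w₁ ++ (w₂ ++ w₃)) = rsw f.j w₁ ++ (rsw f.j w₂ ++ rsw f.j w₃) := by
        simp [rsw]
      rw [h13, ← h12, ← hw]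
      simp [rsw]
    have h12 : (w₁ ++ (w₂ ++ w₃)).length ≤ n := by
      simp only [List.length_append, List.length_cons] at hn ⊢
      omega
    obtain ⟨h13, h14⟩ := ih _ h12 hc h10 h11
    exact ⟨by rw [wp_canc hg _ _ _ _ _ h6, h13], h14⟩

end Gr

end Pool.Agent.ZT
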