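import Mathlib

/-!
# Tokens, states and runs

`P` is a set of points with permutations `σ a` (`a` in `A`) and labels `ν p`. The type of a point
is its label together with the labels of the points `σ a p`. A token is a bijection of the set of
the points of one type (the positions) and a set of particles, given by its graph. A state is a
set of tokens with disjoint sets of particles. The letter `(a, L)` replaces the tokens whose union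
is `L` (all positions `p` with `ν (σ a p) = v`) by the parts of `L`, moved by `σ a`.
-/

set_option autoImplicit false

namespace Pool.Agent.ZT

/-- Points with permutations, labels and lines. -/
structure Gr (A P : Type) where
  /-- the permutations -/
  σ : A → Equiv.Perm P
  /-- the labels -/
  ν : P → ℕ
  /-- the type of the lines -/
  Λ : Type
  /-- the line of a point -/
  ln : P → Λ
  ln_σ : ∀ a p, ln (σ a p) = ln p

variable {A P : Type}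

theorem pai {Q : Type} (f : Equiv.Perm Q) (x : Q) : f (f⁻¹ x) = x := f.apply_symm_apply x

theorem pia {Q : Type} (f : Equiv.Perm Q) (x : Q) : f⁻¹ (f x) = x := f.symm_apply_apply x

/-- The particles. -/
def im (L : Set (P × P)) : Set P := {x | ∃ p, (p, x) ∈ L}

/-- The positions. -/
def pos (L : Set (P × P)) : Set P := {p | ∃ x, (p, x) ∈ L}

/-- A letter: an element of `A` and a set of pairs (position, particle). -/
abbrev Lt (A P : Type) : Type := A × Set (P × P)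

/-- Letters commute if their sets of particles are disjoint. -/
def R (ℓ m : Lt A P) : Prop :=
  ℓ.2.Nonempty ∧ m.2.Nonempty ∧ ∀ x, x ∈ im ℓ.2 → x ∉ im m.2

theorem R.symm {ℓ m : Lt A P} (h : R ℓ m) : R m ℓ := ⟨h.2.1, h.1, fun x hx hx' => h.2.2 x hx' hx⟩

theorem not_R_self (ℓ : Lt A P) : ¬ R ℓ ℓ := by
  rintro ⟨⟨⟨p, x⟩, h⟩, -, h'⟩
  exact h' x ⟨p, h⟩ ⟨p, h⟩

/-- The product of a word. -/
def wp {G Γ : Type} [Group Γ] (g : G → Γ) (w : List (G × Bool)) : Γ :=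
  (w.map fun z => if z.2 then g z.1 else (g z.1)⁻¹).prod

theorem wp_nil {G Γ : Type} [Group Γ] (g : G → Γ) : wp g [] = 1 := rfl

theorem wp_cons {G Γ : Type} [Group Γ] (g : G → Γ) (z : G × Bool) (w : List (G × Bool)) :
    wp g (z :: w) = (if z.2 then g z.1 else (g z.1)⁻¹) * wp g w := by
  unfold wp
  rw [List.map_cons, List.prod_cons]

theorem wp_append {G Γ : Type} [Group Γ] (g : G → Γ) (w w' : List (G × Bool)) :
    wp g (w ++ w') = wp g w * wp g w' := by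
  unfold wp
  rw [List.map_append, List.prod_append]

/-- The word contains a cancelling pair. -/
def Canc {G : Type} (r : G → G → Prop) (w : List (G × Bool)) : Prop :=
  ∃ w₁ x ε w₂ w₃, w = w₁ ++ (x, ε) :: (w₂ ++ (x, !ε) :: w₃) ∧ ∀ y ∈ w₂, r x y.1

/-- Deleting a cancelling pair does not change the product. -/
theorem wp_canc {G Γ : Type} [Group Γ] {g : G → Γ} {r : G → G → Prop}
    (hg : ∀ x y, r x y → g x * g y = g y * g x) (w₁ w₂ w₃ : List (G × Bool)) (x : G) (ε : Bool)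
    (h : ∀ y ∈ w₂, r x y.1) :
    wp g (w₁ ++ (x, ε) :: (w₂ ++ (x, !ε) :: w₃)) = wp g (w₁ ++ (w₂ ++ w₃)) := by
  have h1 : Commute (g x) (wp g w₂) := by
    induction w₂ with
    | nil => exact Commute.one_right _
    | cons y w₂ ih =>
      rw [wp_cons]
      refine Commute.mul_right ?_ (ih fun z hz => h z (List.mem_cons_of_mem _ hz))
      have h2 : Commute (g x) (g y.1) := hg _ _ (h y List.mem_cons_self)
      split_ifs
      · exact h2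
      · exact h2.inv_right
  rw [wp_append, wp_cons, wp_append, wp_cons, wp_append, wp_append]
  congr 1
  cases ε
  · change (g x)⁻¹ * (wp g w₂ * (g x * wp g w₃)) = _
    rw [← mul_assoc (wp g w₂), ← h1.eq]
    group
  · change g x * (wp g w₂ * ((g x)⁻¹ * wp g w₃)) = _
    rw [← mul_assoc (wp g w₂), ← (h1.inv_left).eq]
    group

namespace Gr

variable (S : Gr A P)

/-- The type of a point. -/
def ty (p : P) : ℕ × (A → ℕ) := (S.ν p, fun a => S.ν (S.σ a p))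

/-- The part of `L` with positions of type `e`. -/
def pt (e : ℕ × (A → ℕ)) (L : Set (P × P)) : Set (P × P) := {z | z ∈ L ∧ S.ty z.1 = e}

/-- The parts of `L`. -/
def parts (L : Set (P × P)) : Set (Set (P × P)) := {τ | τ.Nonempty ∧ ∃ e, τ = S.pt e L}

/-- Moving the positions by `σ a`. -/
def sh (a : A) (L : Set (P × P)) : Set (P × P) := {z | ((S.σ a)⁻¹ z.1, z.2) ∈ L}

/-- The union of the tokens on the side `ε` of the letter: before a step if `ε` is true. -/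
def side (ℓ : Lt A P) (ε : Bool) : Set (P × P) := if ε then ℓ.2 else S.sh ℓ.1 ℓ.2

/-- The tokens on the side `ε` of the letter. -/
def tk (ℓ : Lt A P) (ε : Bool) : Set (Set (P × P)) := S.parts (S.side ℓ ε)

/-- The positions of the letter are the points `p` with `ν (σ a p) = v`. -/
def IsLet (ℓ : Lt A P) : Prop :=
  ℓ.2.Nonempty ∧ ∃ v, ∀ p, p ∈ pos ℓ.2 ↔ S.ν (S.σ ℓ.1 p) = v

/-- One step. -/
def Step (c : Set (Set (P × P))) (z : Lt A P × Bool) (c' : Set (Set (P × P))) : Prop :=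
  S.IsLet z.1 ∧ S.tk z.1 z.2 ⊆ c ∧ c' = (c \ S.tk z.1 z.2) ∪ S.tk z.1 (!z.2)

/-- A sequence of steps. -/
def Run (c : Set (Set (P × P))) : List (Lt A P × Bool) → Set (Set (P × P)) → Prop
  | [], c' => c = c'
  | z :: w, c' => ∃ c₁, S.Step c z c₁ ∧ Run c₁ w c'

/-- Tokens. -/
structure Tok (τ : Set (P × P)) : Prop where
  ne : τ.Nonempty
  full : ∃ e, ∀ p, p ∈ pos τ ↔ S.ty p = e
  fn : ∀ p x x', (p, x) ∈ τ → (p, x') ∈ τ → x = x'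
  inj : ∀ p p' x, (p, x) ∈ τ → (p', x) ∈ τ → p = p'
  line : ∀ p x, (p, x) ∈ τ → S.ln p = S.ln x

/-- Valid states. -/
structure Valid (c : Set (Set (P × P))) : Prop where
  tok : ∀ τ ∈ c, S.Tok τ
  dis : ∀ τ ∈ c, ∀ τ' ∈ c, ∀ x, x ∈ im τ → x ∈ im τ' → τ = τ'
  cover : ∀ x, ∃ τ ∈ c, x ∈ im τ

variable {S}

theorem mem_pt {e : ℕ × (A → ℕ)} {L : Set (P × P)} {z : P × P} :
    z ∈ S.pt e L ↔ z ∈ L ∧ S.ty z.1 = e := Iff.rfl

theorem mem_parts {L τ : Set (P × P)} : τ ∈ S.parts L ↔ τ.Nonempty ∧ ∃ e, τ = S.pt e L := Iff.rfl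

theorem mem_sh {a : A} {L : Set (P × P)} {p x : P} :
    (p, x) ∈ S.sh a L ↔ ((S.σ a)⁻¹ p, x) ∈ L := Iff.rfl

theorem mem_sh' {a : A} {L : Set (P × P)} {p x : P} :
    (S.σ a p, x) ∈ S.sh a L ↔ (p, x) ∈ L := by
  rw [mem_sh, pia]

theorem pt_mem_parts {L : Set (P × P)} {z : P × P} (hz : z ∈ L) :
    S.pt (S.ty z.1) L ∈ S.parts L := ⟨⟨z, hz, rfl⟩, _, rfl⟩

theorem parts_sub {L τ : Set (P × P)} (h : τ ∈ S.parts L) : τ ⊆ L := by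
  obtain ⟨-, e, rfl⟩ := h
  exact fun z hz => hz.1

/-- Two parts with a common position are equal. -/
theorem parts_eq {L τ τ' : Set (P × P)} (h : τ ∈ S.parts L) (h' : τ' ∈ S.parts L) {p x x' : P}
    (hp : (p, x) ∈ τ) (hp' : (p, x') ∈ τ') : τ = τ' := by
  obtain ⟨-, e, rfl⟩ := h
  obtain ⟨-, e', rfl⟩ := h'
  rw [← hp.2, ← hp'.2]

theorem im_mono {L M : Set (P × P)} (h : L ⊆ M) : im L ⊆ im M := fun _ ⟨p, hp⟩ => ⟨p, h hp⟩

theorem im_sh {a : A} {L : Set (P × P)} : im (S.sh a L) = im L := by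
  ext x
  constructor
  · rintro ⟨p, hp⟩
    exact ⟨_, hp⟩
  · rintro ⟨p, hp⟩
    exact ⟨S.σ a p, mem_sh'.2 hp⟩

theorem im_side (ℓ : Lt A P) (ε : Bool) : im (S.side ℓ ε) = im ℓ.2 := by
  cases ε
  · exact im_sh
  · rfl

theorem exists_tk {ℓ : Lt A P} (ε : Bool) {x : P} (hx : x ∈ im ℓ.2) :
    ∃ τ ∈ S.tk ℓ ε, x ∈ im τ := by
  rw [← im_side (S := S) ℓ ε] at hx
  obtain ⟨p, hp⟩ := hx
  exact ⟨_, pt_mem_parts hp, p, hp, rfl⟩

theorem im_tk {ℓ : Lt A P} {ε : Bool} {τ : Set (P × P)} (h : τ ∈ S.tk ℓ ε) : im τ ⊆ im ℓ.2 := by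
  rw [← im_side (S := S) ℓ ε]
  exact im_mono (parts_sub h)

theorem ne_im {τ : Set (P × P)} (h : τ.Nonempty) : ∃ x, x ∈ im τ := by
  obtain ⟨⟨p, x⟩, h⟩ := h
  exact ⟨x, p, h⟩

/-- The positions of the tokens of a letter. -/
theorem IsLet.full {ℓ : Lt A P} (h : S.IsLet ℓ) {ε : Bool} {τ : Set (P × P)}
    (hτ : τ ∈ S.tk ℓ ε) : ∃ e, ∀ p, p ∈ pos τ ↔ S.ty p = e := by
  obtain ⟨v, hv⟩ := h.2
  obtain ⟨⟨⟨p₀, x₀⟩, h0⟩, e, rfl⟩ := hτ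
  refine ⟨e, fun p => ?_⟩
  cases ε
  · change (p₀, x₀) ∈ S.pt e (S.sh ℓ.1 ℓ.2) at h0
    change p ∈ pos (S.pt e (S.sh ℓ.1 ℓ.2)) ↔ _
    have h1 := (hv _).1 ⟨x₀, h0.1⟩
    have h2 : e.1 = v := by
      rw [← h0.2, ← h1, pai]
      rfl
    constructor
    · rintro ⟨x, hx, h3⟩
      exact h3
    · intro h4
      obtain ⟨x, hx⟩ := (hv ((S.σ ℓ.1)⁻¹ p)).2 (by
        rw [pai, ← h2, ← h4]
        rfl)
      exact ⟨x, hx, h4⟩
  · change (p₀, x₀) ∈ S.pt e ℓ.2 at h0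
    change p ∈ pos (S.pt e ℓ.2) ↔ _
    have h1 := (hv _).1 ⟨x₀, h0.1⟩
    have h2 : e.2 ℓ.1 = v := by
      rw [← h0.2, ← h1]
      rfl
    constructor
    · rintro ⟨x, hx, h3⟩
      exact h3
    · intro h4
      obtain ⟨x, hx⟩ := (hv p).2 (by
        rw [← h2, ← h4]
        rfl)
      exact ⟨x, hx, h4⟩

/-- The properties of the union of the tokens. -/
theorem Valid.side_props {c : Set (Set (P × P))} (hc : S.Valid c) {ℓ : Lt A P} {ε : Bool}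
    (h : S.tk ℓ ε ⊆ c) :
    (∀ p x x', (p, x) ∈ S.side ℓ ε → (p, x') ∈ S.side ℓ ε → x = x') ∧
    (∀ p p' x, (p, x) ∈ S.side ℓ ε → (p', x) ∈ S.side ℓ ε → p = p') ∧
    ∀ p x, (p, x) ∈ S.side ℓ ε → S.ln p = S.ln x := by
  refine ⟨fun p x x' h1 h2 => ?_, fun p p' x h1 h2 => ?_, fun p x h1 => ?_⟩
  · exact (hc.tok _ (h (pt_mem_parts h1))).fn p x x' ⟨h1, rfl⟩ ⟨h2, rfl⟩
  · have h3 := hc.dis _ (h (pt_mem_parts h1)) _ (h (pt_mem_parts h2)) x ⟨p, h1, rfl⟩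
      ⟨p', h2, rfl⟩
    have h4 : (p', x) ∈ S.pt (S.ty p) (S.side ℓ ε) := by
      have h5 : (p', x) ∈ S.pt (S.ty p') (S.side ℓ ε) := ⟨h2, rfl⟩
      rwa [← h3] at h5
    exact (hc.tok _ (h (pt_mem_parts h1))).inj p p' x ⟨h1, rfl⟩ h4
  · exact (hc.tok _ (h (pt_mem_parts h1))).line p x ⟨h1, rfl⟩

/-- The properties pass to the other side. -/
theorem side_props_not {ℓ : Lt A P} {ε : Bool}
    (h : (∀ p x x', (p, x) ∈ S.side ℓ ε → (p, x') ∈ S.side ℓ ε → x = x') ∧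
      (∀ p p' x, (p, x) ∈ S.side ℓ ε → (p', x) ∈ S.side ℓ ε → p = p') ∧
      ∀ p x, (p, x) ∈ S.side ℓ ε → S.ln p = S.ln x) :
    (∀ p x x', (p, x) ∈ S.side ℓ (!ε) → (p, x') ∈ S.side ℓ (!ε) → x = x') ∧
    (∀ p p' x, (p, x) ∈ S.side ℓ (!ε) → (p', x) ∈ S.side ℓ (!ε) → p = p') ∧
    ∀ p x, (p, x) ∈ S.side ℓ (!ε) → S.ln p = S.ln x := by
  obtain ⟨h1, h2, h3⟩ := h
  cases ε
  · change (∀ p x x', (p, x) ∈ S.sh ℓ.1 ℓ.2 → (p, x') ∈ S.sh ℓ.1 ℓ.2 → x = x') at h1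
    change (∀ p p' x, (p, x) ∈ S.sh ℓ.1 ℓ.2 → (p', x) ∈ S.sh ℓ.1 ℓ.2 → p = p') at h2
    change (∀ p x, (p, x) ∈ S.sh ℓ.1 ℓ.2 → S.ln p = S.ln x) at h3
    refine ⟨fun p x x' h4 h5 => h1 _ _ _ (mem_sh'.2 h4) (mem_sh'.2 h5), fun p p' x h4 h5 =>
      (S.σ ℓ.1).injective (h2 _ _ _ (mem_sh'.2 h4) (mem_sh'.2 h5)), fun p x h4 => ?_⟩
    rw [← h3 _ _ (mem_sh'.2 h4), S.ln_σ]
  · change (∀ p x x', (p, x) ∈ ℓ.2 → (p, x') ∈ ℓ.2 → x = x') at h1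
    change (∀ p p' x, (p, x) ∈ ℓ.2 → (p', x) ∈ ℓ.2 → p = p') at h2
    change (∀ p x, (p, x) ∈ ℓ.2 → S.ln p = S.ln x) at h3
    refine ⟨fun p x x' h4 h5 => h1 _ _ _ h4 h5, fun p p' x h4 h5 =>
      (S.σ ℓ.1)⁻¹.injective (h2 _ _ _ h4 h5), fun p x h4 => ?_⟩
    rw [← h3 _ _ h4]
    have h5 := S.ln_σ ℓ.1 ((S.σ ℓ.1)⁻¹ p)
    rw [pai] at h5
    exact h5

/-- Steps preserve validity. -/
theorem Valid.step {c c' : Set (Set (P × P))} (hc : S.Valid c) {z : Lt A P × Bool}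
    (h : S.Step c z c') : S.Valid c' := by
  obtain ⟨ℓ, ε⟩ := z
  obtain ⟨hℓ, hs, rfl⟩ := h
  change S.Valid ((c \ S.tk ℓ ε) ∪ S.tk ℓ (!ε))
  have hp := side_props_not (hc.side_props hs)
  have h1 : ∀ τ ∈ c, ∀ x, x ∈ im τ → x ∈ im ℓ.2 → τ ∈ S.tk ℓ ε := by
    intro τ hτ x hx hx'
    obtain ⟨τ', hτ', hx''⟩ := exists_tk (S := S) ε hx'
    rw [hc.dis τ hτ τ' (hs hτ') x hx hx'']
    exact hτ'
  refine ⟨?_, ?_, ?_⟩
  · rintro τ (⟨hτ, -⟩ | hτ)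
    · exact hc.tok τ hτ
    · exact ⟨hτ.1, hℓ.full hτ, fun p x x' h2 h3 => hp.1 p x x' (parts_sub hτ h2) (parts_sub hτ h3),
        fun p p' x h2 h3 => hp.2.1 p p' x (parts_sub hτ h2) (parts_sub hτ h3),
        fun p x h2 => hp.2.2 p x (parts_sub hτ h2)⟩
  · rintro τ (⟨hτ, hτn⟩ | hτ) τ' (⟨hτ', hτn'⟩ | hτ') x hx hx'
    · exact hc.dis τ hτ τ' hτ' x hx hx'
    · exact (hτn (h1 τ hτ x hx (im_tk hτ' hx'))).elim
    · exact (hτn' (h1 τ' hτ' x hx' (im_tk hτ hx))).elim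
    · obtain ⟨p, hp1⟩ := hx
      obtain ⟨p', hp2⟩ := hx'
      obtain rfl := hp.2.1 p p' x (parts_sub hτ hp1) (parts_sub hτ' hp2)
      exact parts_eq hτ hτ' hp1 hp2
  · intro x
    obtain ⟨τ, hτ, hx'⟩ := hc.cover x
    by_cases h2 : τ ∈ S.tk ℓ ε
    · obtain ⟨τ', hτ', h3⟩ := exists_tk (S := S) (!ε) (im_tk h2 hx')
      exact ⟨τ', Or.inr hτ', h3⟩
    · exact ⟨τ, Or.inl ⟨hτ, h2⟩, hx'⟩

theorem Valid.run {w : List (Lt A P × Bool)} : ∀ {c c' : Set (Set (P × P))}, S.Valid c →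
    S.Run c w c' → S.Valid c' := by
  induction w with
  | nil =>
    rintro c c' hc rfl
    exact hc
  | cons z w ih =>
    rintro c c' hc ⟨c₁, h1, h2⟩
    exact ih (hc.step h1) h2

theorem run_append {w w' : List (Lt A P × Bool)} : ∀ {c c' : Set (Set (P × P))},
    S.Run c (w ++ w') c' ↔ ∃ c₁, S.Run c w c₁ ∧ S.Run c₁ w' c' := by
  induction w with
  | nil =>
    intro c c'
    exact ⟨fun h => ⟨c, rfl, h⟩, fun ⟨_, h1, h2⟩ => h1 ▸ h2⟩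
  | cons z w ih =>
    intro c c'
    constructor
    · rintro ⟨c₁, h1, h2⟩
      obtain ⟨c₂, h3, h4⟩ := ih.1 h2
      exact ⟨c₂, ⟨c₁, h1, h3⟩, h4⟩
    · rintro ⟨c₂, ⟨c₁, h1, h3⟩, h4⟩
      exact ⟨c₁, h1, ih.2 ⟨c₂, h3, h4⟩⟩

theorem Step.ne {c c' : Set (Set (P × P))} {z : Lt A P × Bool} (h : S.Step c z c') :
    z.1.2.Nonempty := h.1.1

theorem run_ne {w : List (Lt A P × Bool)} : ∀ {c c' : Set (Set (P × P))}, S.Run c w c' →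
    ∀ z ∈ w, S.IsLet z.1 := by
  induction w with
  | nil =>
    intro c c' _ z hz
    exact absurd hz List.not_mem_nil
  | cons y w ih =>
    rintro c c' ⟨c₁, h1, h2⟩ z hz
    rcases List.mem_cons.1 hz with rfl | hz
    · exact h1.1
    · exact ih h2 z hz

/-- A step can be reversed. -/
theorem Step.symm {c c' : Set (Set (P × P))} (hc : S.Valid c) {ℓ : Lt A P} {ε : Bool}
    (h : S.Step c (ℓ, ε) c') : S.Step c' (ℓ, !ε) c := by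
  obtain ⟨hℓ, hs, rfl⟩ := h
  refine ⟨hℓ, Set.subset_union_right, ?_⟩
  change c = ((c \ S.tk ℓ ε ∪ S.tk ℓ (!ε)) \ S.tk ℓ (!ε)) ∪ S.tk ℓ (!!ε)
  rw [Bool.not_not]
  ext τ
  constructor
  · intro hτ
    by_cases h1 : τ ∈ S.tk ℓ ε
    · exact Or.inr h1
    · refine Or.inl ⟨Or.inl ⟨hτ, h1⟩, fun h2 => h1 ?_⟩
      obtain ⟨x, hx⟩ := ne_im h2.1
      obtain ⟨τ', hτ', hx'⟩ := exists_tk (S := S) ε (im_tk h2 hx)
      rw [hc.dis τ hτ τ' (hs hτ') x hx hx']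
      exact hτ'
  · rintro (⟨⟨h1, -⟩ | h1, h2⟩ | h1)
    · exact h1
    · exact (h2 h1).elim
    · exact hs h1

/-- Disjoint letters have disjoint sets of tokens. -/
theorem tk_disjoint {ℓ m : Lt A P} (h : R ℓ m) {ε δ : Bool} {τ : Set (P × P)}
    (h1 : τ ∈ S.tk ℓ ε) (h2 : τ ∈ S.tk m δ) : False := by
  obtain ⟨x, hx⟩ := ne_im h1.1
  exact h.2.2 x (im_tk h1 hx) (im_tk h2 hx)

/-- A letter can be moved before a disjoint one. -/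
theorem step_swap {c c₂ : Set (Set (P × P))} {ℓ m : Lt A P} {ε δ : Bool} (h : R ℓ m)
    (hs : S.tk ℓ ε ⊆ c) (h2 : S.Step ((c \ S.tk ℓ ε) ∪ S.tk ℓ (!ε)) (m, δ) c₂) :
    ∃ c₁, S.Step c (m, δ) c₁ ∧ S.tk ℓ ε ⊆ c₁ ∧ c₂ = (c₁ \ S.tk ℓ ε) ∪ S.tk ℓ (!ε) := by
  obtain ⟨hm, hs', rfl⟩ := h2
  refine ⟨(c \ S.tk m δ) ∪ S.tk m (!δ), ⟨hm, fun τ hτ => ?_, rfl⟩, fun τ hτ => ?_, ?_⟩
  · rcases hs' hτ with h1 | h1
    · exact h1.1
    · exact (tk_disjoint h h1 hτ).elim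
  · exact Or.inl ⟨hs hτ, fun h1 => tk_disjoint h hτ h1⟩
  · ext τ
    have e1 : τ ∈ S.tk ℓ ε → τ ∉ S.tk m δ := fun h1 h2 => tk_disjoint h h1 h2
    have e2 : τ ∈ S.tk ℓ ε → τ ∉ S.tk m (!δ) := fun h1 h2 => tk_disjoint h h1 h2
    have e3 : τ ∈ S.tk ℓ (!ε) → τ ∉ S.tk m δ := fun h1 h2 => tk_disjoint h h1 h2
    have e4 : τ ∈ S.tk ℓ (!ε) → τ ∉ S.tk m (!δ) := fun h1 h2 => tk_disjoint h h1 h2
    change (((τ ∈ c ∧ τ ∉ S.tk ℓ ε) ∨ τ ∈ S.tk ℓ (!ε)) ∧ τ ∉ S.tk m δ) ∨ τ ∈ S.tk m (!δ) ↔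
      (((τ ∈ c ∧ τ ∉ S.tk m δ) ∨ τ ∈ S.tk m (!δ)) ∧ τ ∉ S.tk ℓ ε) ∨ τ ∈ S.tk ℓ (!ε)
    tauto

theorem run_swap {ℓ : Lt A P} {ε : Bool} (w : List (Lt A P × Bool)) :
    ∀ {c c₂ : Set (Set (P × P))}, (∀ y ∈ w, R ℓ y.1) → S.tk ℓ ε ⊆ c →
    S.Run ((c \ S.tk ℓ ε) ∪ S.tk ℓ (!ε)) w c₂ →
    ∃ c₁, S.Run c w c₁ ∧ S.tk ℓ ε ⊆ c₁ ∧ c₂ = (c₁ \ S.tk ℓ ε) ∪ S.tk ℓ (!ε) := by
  induction w with
  | nil =>
    rintro c c₂ _ hs rfl
    exact ⟨c, rfl, hs, rfl⟩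
  | cons y w ih =>
    rintro c c₂ h hs ⟨c₃, h1, h2⟩
    obtain ⟨c₄, h3, h4, rfl⟩ := step_swap (h y List.mem_cons_self) hs h1
    obtain ⟨c₅, h5, h6, h7⟩ := ih (fun z hz => h z (List.mem_cons_of_mem _ hz)) h4 h2
    exact ⟨c₅, ⟨c₄, h3, h5⟩, h6, h7⟩

/-- **Deletion** of a cancelling pair. -/
theorem run_delete {c c' : Set (Set (P × P))} (hc : S.Valid c) {ℓ : Lt A P} {ε : Bool}
    {w : List (Lt A P × Bool)} (h : ∀ y ∈ w, R ℓ y.1)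
    (h1 : S.Run c ((ℓ, ε) :: (w ++ [(ℓ, !ε)])) c') : S.Run c w c' := by
  obtain ⟨c₁, ⟨hℓ, hs, rfl⟩, h2⟩ := h1
  obtain ⟨c₂, h3, c₃, h4, rfl⟩ := run_append.1 h2
  obtain ⟨c₄, h5, h6, rfl⟩ := run_swap w h hs h3
  have h7 : S.Step c₄ (ℓ, ε) ((c₄ \ S.tk ℓ ε) ∪ S.tk ℓ (!ε)) := ⟨hℓ, h6, rfl⟩
  have h8 := h7.symm (hc.run h5)
  have h9 : c₃ = c₄ := by rw [h4.2.2, ← h8.2.2]
  rwa [h9]

theorem run_delete' {c c' : Set (Set (P × P))} (hc : S.Valid c) {ℓ : Lt A P} {ε : Bool}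
    {w₁ w₂ w₃ : List (Lt A P × Bool)} (h : ∀ y ∈ w₂, R ℓ y.1)
    (h1 : S.Run c (w₁ ++ (ℓ, ε) :: (w₂ ++ (ℓ, !ε) :: w₃)) c') : S.Run c (w₁ ++ (w₂ ++ w₃)) c' := by
  obtain ⟨c₁, h2, h3⟩ := run_append.1 h1
  have h4 : (ℓ, ε) :: (w₂ ++ (ℓ, !ε) :: w₃) = ((ℓ, ε) :: (w₂ ++ [(ℓ, !ε)])) ++ w₃ := by simp
  rw [h4] at h3
  obtain ⟨c₂, h5, h6⟩ := run_append.1 h3
  exact run_append.2 ⟨c₁, h2, run_append.2 ⟨c₂, run_delete (hc.run h2) h h5, h6⟩⟩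

end Gr

end Pool.Agent.ZT
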