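import Pool.Agent.ZT.Tau

/-!
# The sequence of scales
-/

set_option autoImplicit false

namespace Pool.Agent.ZT

variable {X : Type} [PseudoEMetricSpace X]

variable (X) in
/-- A free group with a local cocycle. -/
structure ScaleD where
  /-- the letters -/
  A : Type
  /-- their permutations -/
  s : A → Equiv.Perm X
  /-- the displacement of the letters -/
  N : ℕ
  hN : ∀ a x, edist x (s a x) ≤ N
  /-- the scale -/
  r : ℕ
  /-- the local cocycle -/
  e : X → X → FreeGroup A
  loc : LocC s r e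
  /-- the length of the values -/
  l : ℕ
  hl : ∀ x y, ∃ u : List (A × Bool), u.length ≤ l ∧ e x y = FreeGroup.mk u

/-- Words of bounded length. -/
theorem exists_len {A Y : Type} {f : Y → FreeGroup A} (hf : (Set.range f).Finite) :
    ∃ l : ℕ, ∀ y, ∃ u : List (A × Bool), u.length ≤ l ∧ f y = FreeGroup.mk u := by
  classical
  obtain ⟨l, hl⟩ := (hf.image FreeGroup.norm).bddAbove
  refine ⟨l, fun y => ⟨(f y).toWord, hl ⟨f y, ⟨y, rfl⟩, rfl⟩, ?_⟩⟩
  exact FreeGroup.mk_toWord.symm

theorem exists_scale (hL : HasLetters X) (hX : AsdimLeOne X) (r : ℕ) :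
    ∃ S : ScaleD X, S.r = r := by
  obtain ⟨A, -, s, e, -, ⟨N, hN⟩, he⟩ := exists_locC hL hX r
  obtain ⟨l, hl⟩ := exists_len he.fin
  exact ⟨⟨A, s, N, hN, r, e, he, l, fun x y => hl (x, y)⟩, rfl⟩

theorem edist_word {A : Type} {s : A → Equiv.Perm X} {N : ℕ} (hN : ∀ a x, edist x (s a x) ≤ N)
    (u : List (A × Bool)) (x : X) :
    edist x (FreeGroup.lift s (FreeGroup.mk u) x) ≤ (u.length * N : ℕ) := by
  have h1 : ∀ (a : A × Bool) (x : X), edist x (FreeGroup.lift s (FreeGroup.mk [a]) x) ≤ N := by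
    rintro ⟨a, ε⟩ x
    cases ε
    · have h2 : FreeGroup.lift s (FreeGroup.mk [(a, false)]) = (s a)⁻¹ := by
        change FreeGroup.lift s (FreeGroup.of a)⁻¹ = _
        rw [map_inv, FreeGroup.lift_apply_of]
      rw [h2]
      have h3 := hN a ((s a)⁻¹ x)
      have h4 : s a ((s a)⁻¹ x) = x := (s a).apply_symm_apply x
      rw [h4, edist_comm] at h3
      exact h3
    · have h2 : FreeGroup.lift s (FreeGroup.mk [(a, true)]) = s a := by
        change FreeGroup.lift s (FreeGroup.of a) = _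
        rw [FreeGroup.lift_apply_of]
      rw [h2]
      exact hN a x
  induction u with
  | nil =>
    change edist x (FreeGroup.lift s 1 x) ≤ _
    rw [map_one]
    simp
  | cons a u ih =>
    have h2 : FreeGroup.mk (a :: u) = FreeGroup.mk [a] * FreeGroup.mk u := by
      rw [FreeGroup.mul_mk]
      rfl
    rw [h2, map_mul, Equiv.Perm.mul_apply]
    refine (edist_triangle _ _ _).trans ((add_le_add ih (h1 a _)).trans ?_)
    rw [List.length_cons, add_mul, one_mul, Nat.cast_add]

namespace ScaleD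

theorem e_self (S : ScaleD X) (x : X) : S.e x x = 1 := by
  have h1 : edist x x ≤ S.r := by simp
  have h2 := S.loc.coc x x x h1 h1 h1
  exact mul_eq_left.1 h2

theorem e_symm (S : ScaleD X) {x y : X} (h : edist x y ≤ S.r) : S.e y x * S.e x y = 1 := by
  have h1 : edist x x ≤ S.r := by simp
  have h2 : edist y x ≤ S.r := by rwa [edist_comm]
  rw [S.loc.coc x y x h h2 h1, S.e_self]

/-- **Telescoping.** -/
theorem tel (S : ScaleD X) {A : Type} {s : A → Equiv.Perm X} {N : ℕ}
    (hN : ∀ a x, edist x (s a x) ≤ N) (θ : FreeGroup A → X → FreeGroup S.A)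
    (hmul : ∀ g h x, θ (g * h) x = θ g (FreeGroup.lift s h x) * θ h x)
    (hof : ∀ a x, θ (FreeGroup.of a) x = S.e x (s a x)) (u : List (A × Bool))
    (hu : u.length * N ≤ S.r) (x : X) :
    θ (FreeGroup.mk u) x = S.e x (FreeGroup.lift s (FreeGroup.mk u) x) := by
  have hone : ∀ x, θ 1 x = 1 := by
    intro x
    have h1 := hmul 1 1 x
    rw [map_one, one_mul] at h1
    change θ 1 x = θ 1 x * θ 1 x at h1
    exact mul_eq_left.1 h1.symm
  induction u with
  | nil =>
    change θ 1 x = S.e x (FreeGroup.lift s 1 x)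
    rw [hone, map_one]
    exact (S.e_self x).symm
  | cons a u ih =>
    rw [List.length_cons, add_mul, one_mul] at hu
    have ih' := ih (by omega)
    have h2 : FreeGroup.mk (a :: u) = FreeGroup.mk [a] * FreeGroup.mk u := by
      rw [FreeGroup.mul_mk]
      rfl
    have hNr : (N : ENNReal) ≤ S.r := by exact_mod_cast (by omega : N ≤ S.r)
    have h3 : ∀ y, θ (FreeGroup.mk [a]) y = S.e y (FreeGroup.lift s (FreeGroup.mk [a]) y) := by
      intro y
      obtain ⟨a, ε⟩ := a
      cases ε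
      · have h4 : FreeGroup.lift s (FreeGroup.mk [(a, false)]) = (s a)⁻¹ := by
          change FreeGroup.lift s (FreeGroup.of a)⁻¹ = _
          rw [map_inv, FreeGroup.lift_apply_of]
        rw [h4]
        have h5 : s a ((s a)⁻¹ y) = y := (s a).apply_symm_apply y
        have h6 := hmul (FreeGroup.of a) (FreeGroup.of a)⁻¹ y
        rw [mul_inv_cancel, hone, map_inv, FreeGroup.lift_apply_of, hof, h5] at h6
        have h7 : S.e ((s a)⁻¹ y) y * S.e y ((s a)⁻¹ y) = 1 := by
          refine S.e_symm ?_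
          have h8 := hN a ((s a)⁻¹ y)
          rw [h5, edist_comm] at h8
          exact h8.trans hNr
        have h8 : S.e ((s a)⁻¹ y) y * θ (FreeGroup.of a)⁻¹ y =
            S.e ((s a)⁻¹ y) y * S.e y ((s a)⁻¹ y) := by rw [h7, ← h6]
        exact mul_left_cancel h8
      · have h4 : FreeGroup.lift s (FreeGroup.mk [(a, true)]) = s a := by
          change FreeGroup.lift s (FreeGroup.of a) = _
          rw [FreeGroup.lift_apply_of]
        rw [h4]
        exact hof a y
    rw [h2, hmul, ih', h3, map_mul, Equiv.Perm.mul_apply]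
    refine S.loc.coc _ _ _ ?_ ?_ ?_
    · refine (edist_word hN u x).trans ?_
      exact_mod_cast (by omega : u.length * N ≤ S.r)
    · refine (edist_word hN [a] _).trans ?_
      rw [List.length_singleton, one_mul]
      exact hNr
    · have h5 := edist_word hN (a :: u) x
      rw [h2, map_mul, Equiv.Perm.mul_apply, List.length_cons, add_mul, one_mul] at h5
      exact h5.trans (by exact_mod_cast hu)

end ScaleD

/-- A sequence of scales. -/
theorem exists_seq (hL : HasLetters X) (hX : AsdimLeOne X) :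
    ∃ S : ℕ → ScaleD X, (∀ n, n ≤ (S n).r) ∧ (∀ n, (S n).r ≤ (S (n + 1)).r) ∧
      (∀ n, (S n).N ≤ (S (n + 1)).r) ∧ ∀ n, (S n).l * (S n).N ≤ (S (n + 1)).r := by
  choose sc hsc using exists_scale hL hX
  let nx : ℕ → ScaleD X → ScaleD X := fun n S =>
    sc (max (n + 1) (max S.r (max S.N (S.l * S.N))))
  let S : ℕ → ScaleD X := fun n => Nat.rec (sc 0) nx n
  have h1 : ∀ n, (S (n + 1)).r =
      max (n + 1) (max (S n).r (max (S n).N ((S n).l * (S n).N))) := fun n => hsc _
  refine ⟨S, fun n => ?_, fun n => ?_, fun n => ?_, fun n => ?_⟩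
  · cases n with
    | zero => exact Nat.zero_le _
    | succ n =>
      rw [h1]
      exact le_max_left _ _
  · rw [h1]
    exact (le_max_left _ _).trans (le_max_right _ _)
  · rw [h1]
    exact ((le_max_left _ _).trans (le_max_right _ _)).trans (le_max_right _ _)
  · rw [h1]
    exact ((le_max_right _ _).trans (le_max_right _ _)).trans (le_max_right _ _)

section seq

variable (S : ℕ → ScaleD X)

/-- The values on the letters. -/
def tS (n : ℕ) (a : (S n).A) (x : X) : FreeGroup (S (n + 1)).A := (S (n + 1)).e x ((S n).s a x)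

variable {S}

theorem comp_tS (h2 : ∀ n, (S n).N ≤ (S (n + 1)).r) (n : ℕ) :
    Comp (S n).s (S (n + 1)).s (tS S n) := by
  intro a x
  refine (S (n + 1)).loc.act _ _ (((S n).hN a x).trans ?_)
  exact_mod_cast h2 n

theorem fin_tS (n : ℕ) (a : (S n).A) : (Set.range (tS S n a)).Finite := by
  refine (S (n + 1)).loc.fin.subset ?_
  rintro _ ⟨x, rfl⟩
  exact ⟨(x, (S n).s a x), rfl⟩

/-- The homomorphisms of the sequence. -/
noncomputable def fS (h2 : ∀ n, (S n).N ≤ (S (n + 1)).r) (n : ℕ) :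
    FGS (S n).s →* FGS (S (n + 1)).s :=
  hatT (S n).s (S (n + 1)).s (tS S n) (comp_tS h2 n) (fin_tS n)

/-- The iterates. -/
noncomputable def itS (h2 : ∀ n, (S n).N ≤ (S (n + 1)).r) (n : ℕ) :
    ∀ k, FGS (S n).s →* FGS (S (n + k)).s
  | 0 => MonoidHom.id _
  | k + 1 => (fS h2 (n + k)).comp (itS h2 n k)

theorem mono_r (h1 : ∀ n, (S n).r ≤ (S (n + 1)).r) (n k : ℕ) : (S n).r ≤ (S (n + k)).r := by
  induction k with
  | zero => exact le_rfl
  | succ k ih => exact ih.trans (h1 _)

/-- The cocycle of the iterates. -/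
theorem exists_theta (h1 : ∀ n, (S n).r ≤ (S (n + 1)).r) (h2 : ∀ n, (S n).N ≤ (S (n + 1)).r)
    (h3 : ∀ n, (S n).l * (S n).N ≤ (S (n + 1)).r) (n k : ℕ) :
    ∃ θ : FreeGroup (S n).A → X → FreeGroup (S (n + (k + 1))).A,
      (∀ q x, cq (itS h2 n (k + 1) q).1 x = θ (cq q.1 x) x) ∧
      (∀ g h x, θ (g * h) x = θ g (FreeGroup.lift (S n).s h x) * θ h x) ∧
      (∀ g x, FreeGroup.lift (S (n + (k + 1))).s (θ g x) x = FreeGroup.lift (S n).s g x) ∧
      (∀ a x, θ (FreeGroup.of a) x = (S (n + (k + 1))).e x ((S n).s a x)) := by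
  induction k with
  | zero =>
    refine ⟨tau (S n).s (tS S n), fun q x => ?_, tau_mul _ _, fun g => lift_tau (comp_tS h2 n) g,
      fun a x => tau_of _ _ a x⟩
    exact cq_hatT (comp_tS h2 n) (fin_tS n) q x
  | succ k ih =>
    obtain ⟨θ, i1, i2, i3, i4⟩ := ih
    refine ⟨fun g x => tau (S (n + (k + 1))).s (tS S (n + (k + 1))) (θ g x) x, fun q x => ?_,
      fun g h x => ?_, fun g x => ?_, fun a x => ?_⟩
    · change cq (hatT (S (n + (k + 1))).s (S (n + (k + 1) + 1)).s (tS S (n + (k + 1)))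
        (comp_tS h2 _) (fin_tS _) (itS h2 n (k + 1) q)).1 x = _
      rw [cq_hatT, i1]
    · change tau (S (n + (k + 1))).s (tS S (n + (k + 1))) (θ (g * h) x) x = _
      rw [i2, tau_mul, i3]
    · change FreeGroup.lift (S (n + (k + 1) + 1)).s
        (tau (S (n + (k + 1))).s (tS S (n + (k + 1))) (θ g x) x) x = _
      rw [lift_tau (comp_tS h2 (n + (k + 1))), i3]
    · change tau (S (n + (k + 1))).s (tS S (n + (k + 1))) (θ (FreeGroup.of a) x) x =
        (S (n + (k + 1) + 1)).e x ((S n).s a x)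
      rw [i4]
      obtain ⟨u, hu, hue⟩ := (S (n + (k + 1))).hl x ((S n).s a x)
      have h4 := (S (n + (k + 1) + 1)).tel (S (n + (k + 1))).hN
        (tau (S (n + (k + 1))).s (tS S (n + (k + 1))))
        (tau_mul _ _) (fun a x => tau_of _ _ a x) u
        ((Nat.mul_le_mul_right _ hu).trans (h3 (n + (k + 1)))) x
      rw [← hue] at h4
      rw [h4, (S (n + (k + 1))).loc.act]
      refine ((S n).hN a x).trans ?_
      have h5 := (h2 n).trans (mono_r h1 (n + 1) k)
      rw [show n + 1 + k = n + (k + 1) by omega] at h5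
      exact_mod_cast h5

/-- The kernels. -/
theorem exists_itS_eq_one (h0 : ∀ n, n ≤ (S n).r) (h1 : ∀ n, (S n).r ≤ (S (n + 1)).r)
    (h2 : ∀ n, (S n).N ≤ (S (n + 1)).r) (h3 : ∀ n, (S n).l * (S n).N ≤ (S (n + 1)).r) (n : ℕ)
    (q : FGS (S n).s) (hq : evS (S n).s q = 1) : ∃ k, itS h2 n k q = 1 := by
  obtain ⟨M, hM⟩ := exists_len (cq_finite q.2)
  obtain ⟨θ, i1, i2, i3, i4⟩ := exists_theta h1 h2 h3 n (M * (S n).N)
  refine ⟨M * (S n).N + 1, eq_one_of_cq fun x => ?_⟩
  rw [i1]
  obtain ⟨u, hu, hue⟩ := hM x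
  have h4 := (S (n + (M * (S n).N + 1))).tel (S n).hN θ i2 i4 u
    ((Nat.mul_le_mul_right _ hu).trans ((by omega : M * (S n).N ≤ n + (M * (S n).N + 1)).trans
      (h0 _))) x
  rw [← hue] at h4
  have h5 : FreeGroup.lift (S n).s (cq q.1 x) x = x := by
    rw [← evS_apply, hq]
    rfl
  rw [h4, h5]
  exact ScaleD.e_self _ x

/-- The permutations of bounded displacement are reached. -/
theorem exists_evS (h0 : ∀ n, n ≤ (S n).r) {g : Equiv.Perm X} (hg : g ∈ WM X) :
    ∃ (n : ℕ) (q : FGS (S n).s), evS (S n).s q = g := by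
  obtain ⟨N, hN⟩ := hg
  have h1 : (N : ENNReal) ≤ (S N).r := by exact_mod_cast h0 N
  have h2 : ∀ x, edist x (g x) ≤ (S N).r := fun x => (hN x).trans h1
  have h3 : ∀ x, edist x (g⁻¹ x) ≤ (S N).r := by
    intro x
    have h4 := h2 (g⁻¹ x)
    have h5 : g (g⁻¹ x) = x := g.apply_symm_apply x
    rw [h5, edist_comm] at h4
    exact h4
  have k1 : (Set.range fun x => (S N).e x (g x)).Finite := by
    refine (S N).loc.fin.subset ?_
    rintro _ ⟨x, rfl⟩
    exact ⟨(x, g x), rfl⟩
  have k2 : ∀ x, (S N).e (FreeGroup.lift (S N).s ((S N).e x (g x)) x)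
      (g⁻¹ (FreeGroup.lift (S N).s ((S N).e x (g x)) x)) * (S N).e x (g x) = 1 := by
    intro x
    rw [(S N).loc.act _ _ (h2 x)]
    have h5 : g⁻¹ (g x) = x := g.symm_apply_apply x
    rw [h5]
    exact (S N).e_symm (h2 x)
  have k3 : ∀ x, (S N).e (FreeGroup.lift (S N).s ((S N).e x (g⁻¹ x)) x)
      (g (FreeGroup.lift (S N).s ((S N).e x (g⁻¹ x)) x)) * (S N).e x (g⁻¹ x) = 1 := by
    intro x
    rw [(S N).loc.act _ _ (h3 x)]
    have h5 : g (g⁻¹ x) = x := g.apply_symm_apply x
    rw [h5]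
    exact (S N).e_symm (h3 x)
  obtain ⟨q, hq⟩ := exists_of_cocycle (s := (S N).s) (fun x => (S N).e x (g x))
    (fun x => (S N).e x (g⁻¹ x)) k1 k2 k3
  refine ⟨N, q, Equiv.ext fun x => ?_⟩
  rw [evS_apply, hq, (S N).loc.act _ _ (h2 x)]

/-- The values are of bounded displacement. -/
theorem evS_mem (n : ℕ) (q : FGS (S n).s) : evS (S n).s q ∈ WM X := by
  obtain ⟨M, hM⟩ := exists_len (cq_finite q.2)
  refine ⟨M * (S n).N, fun x => ?_⟩
  obtain ⟨u, hu, hue⟩ := hM x
  rw [evS_apply, hue]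
  refine (edist_word (S n).hN u x).trans ?_
  exact_mod_cast Nat.mul_le_mul_right _ hu

end seq

end Pool.Agent.ZT
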