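import Mathlib

/-!
# Invariant measures and infinite paths

`φ a` (`a` in `A`) are homeomorphisms of `X`. The condition `Star φ` says that a clopen set which is
null for all invariant probability measures does not contain an infinite path
`x`, `s₁ x`, `s₂ s₁ x`, ... where `s₁`, `s₂`, ... is an infinite reduced word in the `φ a` and
their inverses.
-/

set_option autoImplicit false

namespace Pool.Agent.ZT

variable {A X : Type} [TopologicalSpace X]

/-- Invariant finitely additive probability measures on the clopen sets. -/
structure Inv (φ : A → X ≃ₜ X) (m : Set X → ℝ) : Prop where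
  univ : m Set.univ = 1
  nonneg : ∀ U, IsClopen U → 0 ≤ m U
  union : ∀ U V, IsClopen U → IsClopen V → Disjoint U V → m (U ∪ V) = m U + m V
  map : ∀ a U, IsClopen U → m (φ a '' U) = m U

/-- The path `x`, `s₀ x`, `s₁ s₀ x`, ... of a sequence of letters. -/
def path (φ : A → X ≃ₜ X) (s : ℕ → A × Bool) (x : X) : ℕ → X
  | 0 => x
  | n + 1 => if (s n).2 then φ (s n).1 (path φ s x n) else (φ (s n).1).symm (path φ s x n)

/-- No clopen set which is null for all invariant probability measures contains the path of an
infinite reduced word. -/
def Star (φ : A → X ≃ₜ X) : Prop :=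
  ∀ U : Set X, IsClopen U → (∀ m, Inv φ m → m U = 0) → ∀ (x : X) (s : ℕ → A × Bool),
    (∀ n, (s (n + 1)).1 = (s n).1 → (s (n + 1)).2 = (s n).2) → ∃ n, path φ s x n ∉ U

end Pool.Agent.ZT
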