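import Pool.Agent.ZT.ModelQ
import Pool.Agent.ZT.Flow2
import Pool.Agent.ZT.Star

/-!
# Level groups of actions without infinite paths in null sets
-/

set_option autoImplicit false

namespace Pool.Agent.ZT

open Pool.Agent.Helper29.BA Pool.Agent.Helper29.PA Pool.Agent.T59

section konig

/-- An infinite set of words which is closed under suffixes contains the suffixes of an infinite
word. -/
theorem exists_seq_of_infinite {S : Type} [Finite S] {B : Set (List S)} (hB : B.Infinite)
    (hs : ∀ l ∈ B, ∀ l', l' <:+ l → l' ∈ B) :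
    ∃ L : ℕ → List S, ∃ s : ℕ → S, L 0 = [] ∧ (∀ n, L (n + 1) = s n :: L n) ∧ ∀ n, L n ∈ B := by
  classical
  let Ext : List S → Prop := fun l => {l' | l' ∈ B ∧ l <:+ l'}.Infinite
  have h0 : Ext [] := by
    have e : {l' | l' ∈ B ∧ [] <:+ l'} = B := by
      ext l
      exact ⟨fun h => h.1, fun h => ⟨h, List.nil_suffix⟩⟩
    change {l' | l' ∈ B ∧ [] <:+ l'}.Infinite
    rw [e]
    exact hB
  have h1 : ∀ l, Ext l → ∃ s, Ext (s :: l) := by
    intro l hl
    by_contra hc
    push Not at hc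
    have h2 : ∀ s, {l' | l' ∈ B ∧ (s :: l) <:+ l'}.Finite := fun s => Set.not_infinite.1 (hc s)
    refine hl (((Set.finite_singleton l).union (Set.finite_iUnion h2)).subset ?_)
    rintro l' ⟨h3, t, rfl⟩
    rcases List.eq_nil_or_concat t with rfl | ⟨t', s, rfl⟩
    · exact Or.inl rfl
    · refine Or.inr (Set.mem_iUnion.2 ⟨s, h3, t', ?_⟩)
      simp
  have hne : Nonempty S := ⟨(h1 [] h0).choose⟩
  choose! nx hnx using h1
  let L : ℕ → List S := fun n => Nat.rec [] (fun _ l => nx l :: l) n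
  have hL : ∀ n, Ext (L n) := by
    intro n
    induction n with
    | zero => exact h0
    | succ n ih => exact hnx _ ih
  refine ⟨L, fun n => nx (L n), rfl, fun n => rfl, fun n => ?_⟩
  obtain ⟨l, h2, h3⟩ := (hL n).nonempty
  exact hs l h2 _ h3

end konig

section inv

variable {A X : Type} [TopologicalSpace X] {φ : A → X ≃ₜ X}

theorem Inv.cont {m : Set X → ℝ} (h : Inv φ m) : Cont m := ⟨h.nonneg, h.union⟩

theorem Inv.preimage {m : Set X → ℝ} (h : Inv φ m) (a : A) (U : Set X) (hU : IsClopen U) :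
    m (φ a ⁻¹' U) = m U := by
  have h1 := h.map a (φ a ⁻¹' U) (hU.preimage (φ a).continuous)
  rw [Set.image_preimage_eq U (φ a).surjective] at h1
  exact h1.symm

/-- An average of finitely many invariant measures. -/
theorem exists_avg {E : Type} (s : Finset E) (hs : s.Nonempty) (m : E → Set X → ℝ)
    (hm : ∀ e ∈ s, Inv φ (m e)) :
    ∃ m' : Set X → ℝ, Inv φ m' ∧ ∀ U, IsClopen U → ∀ e ∈ s, 0 < m e U → 0 < m' U := by
  have hc : (0 : ℝ) < s.card := by exact_mod_cast hs.card_pos
  refine ⟨fun U => (s.card : ℝ)⁻¹ * ∑ e ∈ s, m e U, ⟨?_, ?_, ?_, ?_⟩, ?_⟩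
  · have h1 : ∑ e ∈ s, m e Set.univ = s.card := by
      rw [Finset.sum_congr rfl fun e he => (hm e he).univ, Finset.sum_const, nsmul_eq_mul, mul_one]
    rw [h1]
    exact inv_mul_cancel₀ hc.ne'
  · intro U hU
    exact mul_nonneg (inv_nonneg.2 hc.le) (Finset.sum_nonneg fun e he => (hm e he).nonneg U hU)
  · intro U V hU hV hd
    rw [← mul_add, ← Finset.sum_add_distrib]
    congr 1
    exact Finset.sum_congr rfl fun e he => (hm e he).union U V hU hV hd
  · intro a U hU
    congr 1
    exact Finset.sum_congr rfl fun e he => (hm e he).map a U hU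
  · intro U hU e he h
    refine mul_pos (inv_pos.2 hc) ?_
    exact lt_of_lt_of_le h (Finset.single_le_sum (f := fun e => m e U)
      (fun e he => (hm e he).nonneg U hU) he)

end inv

/-- **Level groups of actions without infinite paths in null sets.** -/
theorem mem_grF_star {C : ∀ (G : Type) [Group G], Prop} (hC : ExtClass C) {A X : Type} [Finite A]
    [TopologicalSpace X] [CompactSpace X] [MulAction (FreeGroup A) X] (φ : A → X ≃ₜ X)
    (hφ : ∀ a x, FreeGroup.of a • x = φ a x) (hs : Star φ) (κ : X → ℕ)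
    (hκ : IsLocallyConstant κ) : C (grF (A := A) κ).D := by
  classical
  -- the patterns
  let pat : X → ℕ × (A → ℕ) := fun x => (κ x, fun a => κ (φ a x))
  have hpat : IsLocallyConstant pat := by
    have h1 : Continuous κ := hκ.continuous
    have h2 : Continuous pat := by
      refine h1.prodMk (continuous_pi fun i => h1.comp (φ i).continuous)
    exact (IsLocallyConstant.iff_continuous pat).2 h2
  let cls : X → Set X := fun x => {y | κ y = κ x ∧ ∀ a, κ (φ a y) = κ (φ a x)}
  have hcls : ∀ x, cls x = pat ⁻¹' {pat x} := by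
    intro x
    ext y
    simp only [cls, pat, Set.mem_ofPred_eq, Set.mem_preimage, Set.mem_singleton_iff,
      Prod.mk.injEq, funext_iff]
  have hclo : ∀ x, IsClopen (cls x) := fun x => by
    rw [hcls]
    exact hpat.isClopen_fiber _
  have hfin : (Set.range pat).Finite := hpat.range_finite
  -- the recurrent patterns
  let Rc : Set X := {x | ∃ m, Inv φ m ∧ 0 < m (cls x)}
  have hRc : ∀ x y, pat x = pat y → (x ∈ Rc ↔ y ∈ Rc) := by
    intro x y hxy
    have h1 : cls x = cls y := by rw [hcls, hcls, hxy]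
    change (∃ m, Inv φ m ∧ 0 < m (cls x)) ↔ ∃ m, Inv φ m ∧ 0 < m (cls y)
    rw [h1]
  have hRc' : IsClopen Rc := by
    have h1 : Rc = pat ⁻¹' (pat '' Rc) := by
      ext x
      refine ⟨fun h => ⟨x, h, rfl⟩, ?_⟩
      rintro ⟨y, hy, hxy⟩
      exact (hRc x y hxy.symm).2 hy
    rw [h1]
    refine ⟨⟨?_⟩, hpat _⟩
    rw [← Set.preimage_compl]
    exact hpat _
  -- the finite model of the recurrent patterns
  obtain ⟨T, hT, κT, p, h1, h2⟩ : ∃ (T : Type) (_ : Finite T) (κT : T → ℕ)
      (p : A → Equiv.Perm T), (∀ t, ∃ x, κ x = κT t ∧ ∀ a, κ (φ a x) = κT (p a t)) ∧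
      ∀ x ∈ Rc, ∃ t, κ x = κT t ∧ ∀ a, κ (φ a x) = κT (p a t) := by
    by_cases hne : Rc.Nonempty
    · have hf : (pat '' Rc).Finite := hfin.subset (Set.image_subset_range _ _)
      have h1 : ∀ e ∈ hf.toFinset, ∃ m, Inv φ m ∧ 0 < m (pat ⁻¹' {e}) := by
        intro e he
        obtain ⟨x, ⟨m, hm, hx⟩, rfl⟩ := hf.mem_toFinset.1 he
        exact ⟨m, hm, by rwa [← hcls]⟩
      choose! m hm hm' using h1
      obtain ⟨m', hm1, hm2⟩ := exists_avg hf.toFinset
        (hf.toFinset_nonempty.2 (hne.image _)) m hm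
      obtain ⟨T, hT, κT, p, h3, h4⟩ := exists_finite_coloured_model_pos hm1.cont φ
        hm1.preimage κ hκ
      refine ⟨T, hT, κT, p, fun t => ?_, fun x hx => h4 x ?_⟩
      · obtain ⟨x, h5, -⟩ := h3 t
        exact ⟨x, h5⟩
      · have h5 : pat x ∈ hf.toFinset := hf.mem_toFinset.2 ⟨x, hx, rfl⟩
        have h6 := hm2 _ (hpat.isClopen_fiber _) _ h5 (hm' _ h5)
        have h7 : {y | κ y = κ x ∧ ∀ a, κ (φ a y) = κ (φ a x)} = pat ⁻¹' {pat x} := hcls x
        rw [h7]
        exact h6
    · exact ⟨Empty, inferInstance, Empty.elim, fun _ => 1, fun t => t.elim,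
        fun x hx => (hne ⟨x, hx⟩).elim⟩
  let _ : MulAction (FreeGroup A) T := MulAction.compHom T (FreeGroup.lift p)
  have hp : ∀ a t, FreeGroup.of a • t = p a t := by
    intro a t
    change (FreeGroup.lift p (FreeGroup.of a)) t = p a t
    rw [FreeGroup.lift_apply_of]
  refine mem_grF_of_ent (κT := κT) hC hκ.range_finite (fun t => ?_) fun x => ?_
  · obtain ⟨x, h3, h4⟩ := h1 t
    exact ⟨x, h3, fun a => by rw [hp, hφ]; exact h4 a⟩
  -- the points before the model
  have hnull : ∀ m, Inv φ m → m Rcᶜ = 0 := by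
    intro m hm
    have hf : (pat '' Rcᶜ).Finite := hfin.subset (Set.image_subset_range _ _)
    have h3 : Rcᶜ = ⋃ e ∈ hf.toFinset, pat ⁻¹' {e} := by
      ext y
      simp only [Set.mem_iUnion, hf.mem_toFinset, exists_prop]
      constructor
      · intro hy
        exact ⟨pat y, ⟨y, hy, rfl⟩, rfl⟩
      · rintro ⟨e, ⟨z, hz, rfl⟩, hy⟩ h
        exact hz ((hRc z y (Eq.symm hy)).2 h)
    rw [h3, hm.cont.sum hf.toFinset (fun e => pat ⁻¹' {e}) (fun e => hpat.isClopen_fiber e)
      fun e f hef => Disjoint.preimage _ (Set.disjoint_singleton.2 hef)]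
    refine Finset.sum_eq_zero fun e he => ?_
    obtain ⟨z, hz, rfl⟩ := hf.mem_toFinset.1 he
    refine le_antisymm (not_lt.1 fun h => hz ⟨m, hm, ?_⟩) (hm.nonneg _ (hpat.isClopen_fiber _))
    rw [hcls]
    exact h
  by_contra hinf
  let B : Set (List (A × Bool)) :=
    {l | FreeGroup.IsReduced l ∧ ∀ l', l' <:+ l → FreeGroup.mk l' • x ∉ Rc}
  have hB : B.Infinite := by
    refine Set.Infinite.mono ?_ (Set.Infinite.image (f := FreeGroup.toWord)
      FreeGroup.toWord_injective.injOn hinf)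
    rintro _ ⟨h, hh, rfl⟩
    refine ⟨FreeGroup.isReduced_toWord, fun l' hl' hc => ?_⟩
    obtain ⟨t, h3, h4⟩ := h2 _ hc
    refine ent_none hh l' hl' ⟨t, h3.symm, fun a => ?_⟩
    rw [hp, hφ]
    exact (h4 a).symm
  obtain ⟨L, s, hL0, hL1, hL⟩ := exists_seq_of_infinite hB fun l hl l' hl' =>
    ⟨hl.1.suffix hl', fun l'' h => hl.2 l'' (h.trans hl')⟩
  obtain ⟨n, hn⟩ := hs Rcᶜ hRc'.compl hnull x s fun n => by
    have h3 := (hL (n + 2)).1
    rw [hL1, hL1] at h3
    exact (List.isChain_cons_cons.1 h3).1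
  refine hn ?_
  have h3 : ∀ n, path φ s x n = FreeGroup.mk (L n) • x := by
    intro n
    induction n with
    | zero =>
      rw [hL0]
      exact (one_smul (FreeGroup A) x).symm
    | succ n ih =>
      rw [hL1, mk_consM, mul_smul, ← ih, path]
      rcases h4 : s n with ⟨a, ε⟩
      cases ε
      · change (φ a).symm _ = (FreeGroup.of a)⁻¹ • _
        rw [eq_inv_smul_iff, hφ]
        exact (φ a).apply_symm_apply _
      · exact (hφ a _).symm
  rw [h3]
  exact (hL n).2 _ List.suffix_rfl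

end Pool.Agent.ZT
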