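import Mathlib

/-!
# States on preordered abelian groups

Let `P` be a submonoid of an abelian group `G` and `u` an order unit such that no `- n u`, `n > 0`, is in
`P`. There is a homomorphism `f : G → ℝ` with `f u = 1` which is nonnegative on `P`.
-/

set_option autoImplicit false

namespace Pool.Agent.ZT

section state

variable {G : Type} [AddCommGroup G]

/-- No negative multiple of `u` is in `P`. -/
def NoNeg (u : G) (P : AddSubmonoid G) : Prop := ∀ n : ℕ, 0 < n → -(n • u) ∉ P

theorem exists_total {u : G} {P : AddSubmonoid G} (hP : NoNeg u P) :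
    ∃ M : AddSubmonoid G, P ≤ M ∧ NoNeg u M ∧ ∀ x, x ∈ M ∨ -x ∈ M := by
  obtain ⟨M, hPM, hM⟩ := zorn_le_nonempty₀ {M : AddSubmonoid G | NoNeg u M} (by
    intro c hc hch M₀ hM₀
    refine ⟨sSup c, ?_, fun z hz => le_sSup hz⟩
    intro n hn hmem
    rw [AddSubmonoid.mem_sSup_of_directedOn ⟨M₀, hM₀⟩ hch.directedOn] at hmem
    obtain ⟨M', hM', h⟩ := hmem
    exact hc hM' n hn h) P hP
  refine ⟨M, hPM, hM.prop, fun x => ?_⟩
  by_contra hx
  rw [not_or] at hx
  have key : ∀ y : G, y ∉ M → ∃ n : ℕ, 0 < n ∧ ∃ m ∈ M, ∃ j : ℕ, 0 < j ∧ -(n • u) = m + j • y := by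
    intro y hy
    have h1 : ¬ NoNeg u (M ⊔ AddSubmonoid.multiples y) := by
      intro h2
      have h3 := hM.le_of_ge h2 le_sup_left
      exact hy (h3 (AddSubmonoid.mem_sup_right (AddSubmonoid.mem_multiples y)))
    unfold NoNeg at h1
    push Not at h1
    obtain ⟨n, hn, h2⟩ := h1
    obtain ⟨m, hm, w, hw, h3⟩ := AddSubmonoid.mem_sup.1 h2
    obtain ⟨j, rfl⟩ := (AddSubmonoid.mem_multiples_iff _ _).1 hw
    refine ⟨n, hn, m, hm, j, Nat.pos_of_ne_zero ?_, h3.symm⟩
    rintro rfl
    rw [zero_smul, add_zero] at h3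
    exact hM.prop n hn (h3 ▸ hm)
  obtain ⟨n, hn, m, hm, j, hj, h1⟩ := key x hx.1
  obtain ⟨n', hn', m', hm', j', hj', h2⟩ := key (-x) hx.2
  refine hM.prop (j' * n + j * n') (by positivity) ?_
  have h3 : -((j' * n + j * n') • u) = j' • m + j • m' := by
    have h4 : -((j' * n + j * n') • u) = j' • (-(n • u)) + j • (-(n' • u)) := by
      rw [add_smul, mul_smul, mul_smul, neg_add, smul_neg, smul_neg]
    rw [h4, h1, h2, smul_add, smul_add, smul_neg, smul_neg, ← mul_smul, ← mul_smul, mul_comm j' j]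
    abel
  rw [h3]
  exact M.add_mem (M.nsmul_mem hm _) (M.nsmul_mem hm' _)

/-- **States.** -/
theorem exists_state {u : G} {P : AddSubmonoid G} (hP : NoNeg u P)
    (hu : ∀ x : G, ∃ n : ℕ, n • u - x ∈ P) :
    ∃ f : G →+ ℝ, f u = 1 ∧ ∀ x ∈ P, 0 ≤ f x := by
  obtain ⟨M, hPM, hM, htot⟩ := exists_total hP
  -- the cuts
  let L : G → Set ℝ := fun x => {r | ∃ (p : ℤ) (q : ℕ), 0 < q ∧ q • x - p • u ∈ M ∧ r = p / q}
  have hneg : ∀ p : ℤ, p • u ∈ M → 0 ≤ p := by
    intro p hp
    by_contra h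
    push Not at h
    obtain ⟨n, hn⟩ := Int.eq_ofNat_of_zero_le (show 0 ≤ -p by omega)
    refine hM n (by omega) ?_
    have h1 : -(n • u) = p • u := by
      rw [← natCast_zsmul, ← neg_smul, ← hn, neg_neg]
    rw [h1]
    exact hp
  have huM : u ∈ M := by
    rcases htot u with h | h
    · exact h
    · have h1 := hneg (-1) (by rwa [neg_one_zsmul])
      omega
  have hbdd : ∀ x, BddAbove (L x) := by
    intro x
    obtain ⟨n, hn⟩ := hu x
    refine ⟨n, ?_⟩
    rintro r ⟨p, q, hq, h, rfl⟩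
    have h1 : ((q * n : ℕ) - p : ℤ) • u ∈ M := by
      have h2 := M.add_mem (M.nsmul_mem (hPM hn) q) h
      have h3 : q • (n • u - x) + (q • x - p • u) = ((q * n : ℕ) - p : ℤ) • u := by
        rw [sub_smul, natCast_zsmul, smul_sub, ← mul_smul]
        abel
      rwa [h3] at h2
    have h4 := hneg _ h1
    have h5 : (p : ℝ) ≤ q * n := by
      have h6 : p ≤ ((q * n : ℕ) : ℤ) := by omega
      exact_mod_cast h6
    rw [div_le_iff₀ (by exact_mod_cast hq)]
    linarith [h5, mul_comm (n : ℝ) q]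
  have hne : ∀ x, (L x).Nonempty := by
    intro x
    obtain ⟨n, hn⟩ := hu (-x)
    refine ⟨_, -(n : ℤ), 1, one_pos, ?_, rfl⟩
    have h1 := hPM hn
    rw [sub_neg_eq_add] at h1
    rw [one_smul, neg_smul, natCast_zsmul, sub_neg_eq_add, add_comm]
    exact h1
  let F : G → ℝ := fun x => sSup (L x)
  have hadd1 : ∀ x y, F x + F y ≤ F (x + y) := by
    intro x y
    have h1 : ∀ r ∈ L x, ∀ s ∈ L y, r + s ≤ F (x + y) := by
      rintro r ⟨p, q, hq, h, rfl⟩ s ⟨p', q', hq', h', rfl⟩
      refine le_csSup (hbdd _) ⟨p * q' + p' * q, q * q', by positivity, ?_, ?_⟩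
      · have h2 := M.add_mem (M.nsmul_mem h q') (M.nsmul_mem h' q)
        have h3 : q' • (q • x - p • u) + q • (q' • y - p' • u) =
            (q * q') • (x + y) - (p * q' + p' * q) • u := by
          rw [smul_sub, smul_sub, smul_add, add_smul, ← mul_smul, ← mul_smul, mul_comm q' q,
            ← natCast_zsmul (p • u) q', ← natCast_zsmul (p' • u) q, ← mul_smul, ← mul_smul,
            mul_comm p, mul_comm p']
          abel
        rwa [h3] at h2
      · have : (q : ℝ) ≠ 0 := by positivity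
        have : (q' : ℝ) ≠ 0 := by positivity
        push_cast
        field_simp
    have h2 : ∀ s ∈ L y, F x + s ≤ F (x + y) := by
      intro s hs
      have h3 : F x ≤ F (x + y) - s := csSup_le (hne x) fun r hr => by linarith [h1 r hr s hs]
      linarith
    have h3 : F y ≤ F (x + y) - F x := csSup_le (hne y) fun s hs => by linarith [h2 s hs]
    linarith
  have hzero : F 0 = 0 := by
    refine le_antisymm (csSup_le (hne 0) ?_) (le_csSup (hbdd 0) ⟨0, 1, one_pos, ?_, by simp⟩)
    · rintro r ⟨p, q, hq, h, rfl⟩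
      rw [smul_zero, zero_sub, ← neg_smul] at h
      have h1 := hneg _ h
      have h2 : (p : ℝ) ≤ 0 := by exact_mod_cast (by omega : p ≤ 0)
      exact div_nonpos_of_nonpos_of_nonneg h2 (by positivity)
    · rw [smul_zero, zero_smul, sub_zero]
      exact M.zero_mem
  have hneg2 : ∀ x, -F x ≤ F (-x) := by
    intro x
    refine le_of_forall_pos_lt_add fun ε hε => ?_
    obtain ⟨s, h1, h2⟩ := exists_rat_btwn (show F x < F x + ε by linarith)
    have h3 : ((s.den • x - s.num • u) : G) ∉ M := by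
      intro h4
      have h5 : (s : ℝ) ∈ L x := ⟨s.num, s.den, s.pos, h4, by exact_mod_cast (Rat.num_div_den s).symm⟩
      exact absurd (le_csSup (hbdd x) h5) (not_le.2 h1)
    have h4 := (htot (s.den • x - s.num • u)).resolve_left h3
    have h5 : ((-s : ℚ) : ℝ) ∈ L (-x) := by
      refine ⟨-s.num, s.den, s.pos, ?_, ?_⟩
      · rw [smul_neg, neg_smul, sub_neg_eq_add]
        rwa [neg_sub, sub_eq_add_neg, add_comm] at h4
      · have h6 : (s : ℝ) = s.num / s.den := by exact_mod_cast (Rat.num_div_den s).symm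
        push_cast
        rw [h6, neg_div]
    have h6 := le_csSup (hbdd (-x)) h5
    push_cast at h6
    have h7 : -(s : ℝ) ≤ F (-x) := h6
    linarith
  have hneg3 : ∀ x, F (-x) = -F x := by
    intro x
    refine le_antisymm ?_ (hneg2 x)
    have h1 := hadd1 x (-x)
    rw [add_neg_cancel, hzero] at h1
    linarith
  have hadd : ∀ x y, F (x + y) = F x + F y := by
    intro x y
    refine le_antisymm ?_ (hadd1 x y)
    have h1 := hadd1 (x + y) (-y)
    rw [add_neg_cancel_right, hneg3] at h1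
    linarith
  refine ⟨AddMonoidHom.mk' F hadd, ?_, fun x hx => ?_⟩
  · refine le_antisymm (csSup_le (hne u) ?_) (le_csSup (hbdd u) ⟨1, 1, one_pos, ?_, by simp⟩)
    · rintro r ⟨p, q, hq, h, rfl⟩
      rw [← natCast_zsmul, ← sub_smul] at h
      have h1 := hneg _ h
      rw [div_le_one (by exact_mod_cast hq)]
      exact_mod_cast (by omega : p ≤ (q : ℤ))
    · rw [one_smul, one_smul, sub_self]
      exact M.zero_mem
  · refine le_csSup (hbdd x) ⟨0, 1, one_pos, ?_, by simp⟩
    rw [one_smul, zero_smul, sub_zero]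
    exact hPM hx

end state

end Pool.Agent.ZT
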