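import Pool.Agent.ZT.Asd

/-!
# Local cocycles with values in free groups

If the asymptotic dimension is at most one then for every scale `r` there is a free group acting by
permutations of bounded displacement, and elements `e x y` of this group with `e x y • x = y` and
`e y z * e x y = e x z` at scale `r`.
-/

set_option autoImplicit false

namespace Pool.Agent.ZT

variable {X : Type} [PseudoEMetricSpace X]

/-- A local cocycle at scale `r`. -/
structure LocC {A : Type} (s : A → Equiv.Perm X) (r : ℕ) (e : X → X → FreeGroup A) : Prop where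
  fin : (Set.range fun p : X × X => e p.1 p.2).Finite
  act : ∀ x y, edist x y ≤ r → FreeGroup.lift s (e x y) x = y
  coc : ∀ x y z, edist x y ≤ r → edist y z ≤ r → edist x z ≤ r → e y z * e x y = e x z

/-- Three elements of a set with at most two elements. -/
theorem eq_of_encard_le_two {Y : Type} {S : Set Y} (h : S.encard ≤ 2) {a b c : Y} (ha : a ∈ S)
    (hb : b ∈ S) (hc : c ∈ S) : a = b ∨ b = c ∨ a = c := by
  by_contra hcon
  push Not at hcon
  obtain ⟨h1, h2, h3⟩ := hcon
  have h4 : ({a, b, c} : Set Y) ⊆ S := by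
    rintro x (rfl | rfl | rfl)
    · exact ha
    · exact hb
    · exact hc
  have h5 : ({a, b, c} : Set Y).encard = 3 := by
    rw [Set.encard_insert_of_notMem, Set.encard_pair h2]
    · rfl
    · rintro (rfl | rfl)
      · exact h1 rfl
      · exact h3 rfl
  have h6 := (Set.encard_le_encard h4).trans h
  rw [h5] at h6
  exact absurd h6 (by decide)

/-- The statement about the letters. -/
def HasLetters (X : Type) [PseudoEMetricSpace X] : Prop :=
  ∀ L : ℕ, ∃ (A : Type) (_ : Finite A) (s : A → Equiv.Perm X), (∀ a, s a ∈ WM X) ∧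
    (∃ N : ℕ, ∀ a x, edist x (s a x) ≤ N) ∧ ∀ x y, edist x y ≤ L → ∃ a, s a x = y

theorem exists_locC (hL : HasLetters X) (hX : AsdimLeOne X) (r : ℕ) :
    ∃ (A : Type) (_ : Finite A) (s : A → Equiv.Perm X) (e : X → X → FreeGroup A),
      (∀ a, s a ∈ WM X) ∧ (∃ N : ℕ, ∀ a x, edist x (s a x) ≤ N) ∧ LocC s r e := by
  classical
  obtain ⟨D, c, hcov, hdiam, hmul⟩ := hX r
  choose p hpc hxp using hcov
  let q : X → X := fun x => Set.rangeSplitting p ⟨p x, x, rfl⟩
  have hpq : ∀ x, p (q x) = p x := fun x => Set.apply_rangeSplitting p ⟨p x, x, rfl⟩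
  have hqq : ∀ x y, p x = p y → q x = q y := by
    intro x y h
    have h1 : (⟨p x, x, rfl⟩ : Set.range p) = ⟨p y, y, rfl⟩ := Subtype.ext h
    exact congrArg (Set.rangeSplitting p) h1
  have hq : ∀ x, edist x (q x) ≤ D := by
    intro x
    refine hdiam _ (hpc x) _ (hxp x) _ ?_
    rw [← hpq x]
    exact hxp _
  obtain ⟨A, hA, s, hsW, ⟨N, hN⟩, hj⟩ := hL (D + r + D)
  let R : X → X → Prop := WellOrderingRel
  have hR1 : ∀ x y, x ≠ y → R x y ∨ R y x := by
    intro x y hxy
    rcases trichotomous_of WellOrderingRel x y with h | h | h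
    · exact Or.inl h
    · exact absurd h hxy
    · exact Or.inr h
  have hR2 : ∀ x y, R x y → ¬ R y x := fun x y h h' => asymm_of WellOrderingRel h h'
  let ep : X → X → FreeGroup A := fun x y =>
    if R x y then (if h : edist x y ≤ (D + r + D : ℕ) then FreeGroup.of (hj x y h).choose else 1)
    else if R y x then
      (if h : edist y x ≤ (D + r + D : ℕ) then (FreeGroup.of (hj y x h).choose)⁻¹ else 1)
    else 1
  have ep_lt : ∀ x y, R x y → ep x y =
      if h : edist x y ≤ (D + r + D : ℕ) then FreeGroup.of (hj x y h).choose else 1 :=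
    fun x y h => if_pos h
  have ep_gt : ∀ x y, R y x → ep x y =
      if h : edist y x ≤ (D + r + D : ℕ) then (FreeGroup.of (hj y x h).choose)⁻¹ else 1 := by
    intro x y h
    have h1 : ¬ R x y := hR2 y x h
    change ite _ _ _ = _
    rw [if_neg h1, if_pos h]
  have ep_self : ∀ x, ep x x = 1 := by
    intro x
    have h1 : ¬ R x x := irrefl_of WellOrderingRel x
    change ite _ _ _ = _
    rw [if_neg h1, if_neg h1]
  have ep_inv : ∀ x y, ep y x * ep x y = 1 := by
    intro x y
    by_cases hxy : x = y
    · subst hxy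
      rw [ep_self, mul_one]
    · rcases hR1 x y hxy with h | h
      · rw [ep_lt x y h, ep_gt y x h]
        split_ifs
        · rw [inv_mul_cancel]
        · rw [mul_one]
      · rw [ep_gt x y h, ep_lt y x h]
        split_ifs
        · rw [mul_inv_cancel]
        · rw [mul_one]
  have ep_act : ∀ x y, edist x y ≤ (D + r + D : ℕ) → FreeGroup.lift s (ep x y) x = y := by
    intro x y h
    by_cases hxy : x = y
    · subst hxy
      rw [ep_self, map_one]
      rfl
    · rcases hR1 x y hxy with h1 | h1
      · rw [ep_lt x y h1, dif_pos h, FreeGroup.lift_apply_of]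
        exact (hj x y h).choose_spec
      · have h2 : edist y x ≤ (D + r + D : ℕ) := by rwa [edist_comm]
        rw [ep_gt x y h1, dif_pos h2, map_inv, FreeGroup.lift_apply_of, Equiv.Perm.inv_eq_iff_eq]
        exact (hj y x h2).choose_spec.symm
  have ep_fin : (Set.range fun p : X × X => ep p.1 p.2).Finite := by
    refine (((Set.finite_range (FreeGroup.of (α := A))).union
      (Set.finite_range (FreeGroup.of (α := A))).inv).insert 1).subset ?_
    rintro _ ⟨⟨x, y⟩, rfl⟩
    change ep x y ∈ _
    by_cases hxy : x = y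
    · subst hxy
      rw [ep_self]
      exact Or.inl rfl
    · rcases hR1 x y hxy with h | h
      · rw [ep_lt x y h]
        split_ifs
        · exact Or.inr (Or.inl ⟨_, rfl⟩)
        · exact Or.inl rfl
      · rw [ep_gt x y h]
        split_ifs
        · refine Or.inr (Or.inr ?_)
          rw [Set.inv_mem_inv]
          exact ⟨_, rfl⟩
        · exact Or.inl rfl
  refine ⟨A, hA, s, fun x y => ep (q y) y * ep (q x) (q y) * ep x (q x), hsW, ⟨N, hN⟩, ?_, ?_, ?_⟩
  · refine ((ep_fin.mul ep_fin).mul ep_fin).subset ?_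
    rintro _ ⟨⟨x, y⟩, rfl⟩
    exact Set.mul_mem_mul (Set.mul_mem_mul ⟨(q y, y), rfl⟩ ⟨(q x, q y), rfl⟩) ⟨(x, q x), rfl⟩
  · intro x y h
    have h1 : edist x (q x) ≤ (D + r + D : ℕ) := (hq x).trans (by
      exact_mod_cast (by omega : D ≤ D + r + D))
    have h2 : edist (q y) y ≤ (D + r + D : ℕ) := by
      rw [edist_comm]
      exact (hq y).trans (by exact_mod_cast (by omega : D ≤ D + r + D))
    have h3 : edist (q x) (q y) ≤ (D + r + D : ℕ) := by
      refine (edist_triangle4 (q x) x y (q y)).trans ?_
      push_cast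
      refine add_le_add (add_le_add ?_ h) (hq y)
      rw [edist_comm]
      exact hq x
    rw [map_mul, map_mul, Equiv.Perm.mul_apply, Equiv.Perm.mul_apply, ep_act _ _ h1,
      ep_act _ _ h3, ep_act _ _ h2]
  · intro x y z hxy hyz hxz
    have h1 : p x = p y ∨ p y = p z ∨ p x = p z := by
      refine eq_of_encard_le_two (hmul x) ⟨hpc x, x, hxp x, ?_⟩ ⟨hpc y, y, hxp y, hxy⟩
        ⟨hpc z, z, hxp z, hxz⟩
      rw [edist_self]
      exact zero_le
    have h2 : ep (q y) (q z) * ep (q x) (q y) = ep (q x) (q z) := by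
      rcases h1 with h | h | h
      · rw [hqq x y h, ep_self, mul_one]
      · rw [hqq y z h, ep_self, one_mul]
      · rw [← hqq x z h, ep_inv, ep_self]
    calc ep (q z) z * ep (q y) (q z) * ep y (q y) * (ep (q y) y * ep (q x) (q y) * ep x (q x))
        = ep (q z) z * (ep (q y) (q z) * ((ep y (q y) * ep (q y) y) * ep (q x) (q y))) *
            ep x (q x) := by group
      _ = ep (q z) z * ep (q x) (q z) * ep x (q x) := by rw [ep_inv, one_mul, h2]

end Pool.Agent.ZT
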