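import Pool.Agent.ZT.TypeC

/-!
# Tarski's theorem for clopen sets: the proof
-/

set_option autoImplicit false

open Topology

namespace Pool.Agent.ZT

theorem encard_below {ι : Type} [Fintype ι] {J : ℕ} (a : ι → ℤ) (h0 : ∀ i, 0 ≤ a i)
    (hJ : ∀ i, a i ≤ J) :
    {p : ι × Fin J | ((p.2 : ℕ) : ℤ) < a p.1}.encard = ((∑ i, (a i).toNat : ℕ) : ℕ∞) := by
  classical
  have h1 : {p : ι × Fin J | ((p.2 : ℕ) : ℤ) < a p.1} =
      ((Finset.univ.filter fun p : ι × Fin J => ((p.2 : ℕ) : ℤ) < a p.1 : Finset (ι × Fin J)) :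
        Set (ι × Fin J)) := by
    ext p
    simp
  rw [h1, Set.encard_coe_eq_coe_finsetCard, Finset.card_filter, Fintype.sum_prod_type]
  refine congrArg _ (Finset.sum_congr rfl fun i _ => ?_)
  change ∑ j : Fin J, (fun k : ℕ => if (k : ℤ) < a i then 1 else 0) j = _
  rw [Fin.sum_univ_eq_sum_range (fun k : ℕ => if (k : ℤ) < a i then 1 else 0) J,
    ← Finset.card_filter]
  have h2 : (Finset.range J).filter (fun k : ℕ => (k : ℤ) < a i) = Finset.range (a i).toNat := by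
    ext k
    rw [Finset.mem_filter, Finset.mem_range, Finset.mem_range]
    have := h0 i
    have := hJ i
    omega
  rw [h2, Finset.card_range]

section

variable {Γ X : Type} [Group Γ] [TopologicalSpace X] [MulAction Γ X] [ContinuousConstSMul Γ X]
  {U : Set X}

/-- One can take nonnegative functions. -/
theorem exists_nonneg {ι : Type} [Fintype ι] {f : ι → X → ℤ} {γ : ι → Γ}
    (hf : ∀ i, f i ∈ GU Γ U) :
    ∃ (g : ι ⊕ ι → X → ℤ) (δ : ι ⊕ ι → Γ), (∀ i, g i ∈ GU Γ U) ∧ (∀ i x, 0 ≤ g i x) ∧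
      ∀ x, ∑ i, (g i x - g i (δ i • x)) = ∑ i, (f i x - f i (γ i • x)) := by
  refine ⟨Sum.elim (fun i x => max (f i x) 0) fun i x => max (-f i (γ i • x)) 0,
    Sum.elim γ fun i => (γ i)⁻¹, ?_, ?_, fun x => ?_⟩
  · rintro (i | i)
    · exact GU_comp (hf i) (fun a => max a 0) (max_self 0)
    · exact GU_comp (GU_shift (hf i) (γ i)) (fun a => max (-a) 0) (by simp)
  · rintro (i | i) x
    · exact le_max_right _ _
    · exact le_max_right _ _
  · rw [Fintype.sum_sum_type, ← Finset.sum_add_distrib]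
    refine Finset.sum_congr rfl fun i _ => ?_
    change max (f i x) 0 - max (f i (γ i • x)) 0 +
      (max (-f i (γ i • x)) 0 - max (-f i (γ i • (γ i)⁻¹ • x)) 0) = _
    rw [smul_inv_smul]
    omega

/-- Bounded types are below a number of copies of `U`. -/
theorem sb_bounded {κ : Type} {V : κ → Set X}
    (hU : IsClopen U) (T : Finset Γ) (hT : ∀ i, ∀ x ∈ V i, ∃ γ ∈ T, γ • x ∈ U) (hT' : T.Nonempty) :
    Sb Γ V fun _ : κ × T => U := by
  classical
  have h1 : ∀ S : Set T, ∃ t : T, S.Nonempty → t ∈ S := by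
    intro S
    by_cases hS : S.Nonempty
    · exact ⟨hS.choose, fun _ => hS.choose_spec⟩
    · exact ⟨⟨_, hT'.choose_spec⟩, fun h => (hS h).elim⟩
  choose q hq using h1
  have h2 : IsLocallyConstant fun x : X => {t : T | x ∈ (fun x => (t : Γ) • x) ⁻¹' U} :=
    lc_set fun t => hU.preimage (continuous_const_smul (t : Γ))
  have h3 : ∀ i, ∀ x ∈ V i, ((q {t : T | x ∈ (fun x => (t : Γ) • x) ⁻¹' U} : T) : Γ) • x ∈ U := by
    intro i x hx
    obtain ⟨γ, hγ, h⟩ := hT i x hx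
    exact hq {t : T | x ∈ (fun x => (t : Γ) • x) ⁻¹' U} ⟨⟨γ, hγ⟩, h⟩
  refine ⟨fun i x => (q {t : T | x ∈ (fun x => (t : Γ) • x) ⁻¹' U} : T),
    fun i x => (i, q {t : T | x ∈ (fun x => (t : Γ) • x) ⁻¹' U}), fun i => ?_, fun i => ?_, h3,
    fun i j x y hx hy hxy hl => ?_⟩
  · exact h2.comp fun S => ((q S : T) : Γ)
  · exact h2.comp fun S => (i, q S)
  · obtain ⟨e1, e2⟩ := Prod.mk.inj hl
    refine ⟨e1, ?_⟩
    change ((q {t : T | x ∈ (fun x => (t : Γ) • x) ⁻¹' U} : T) : Γ) • x =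
      ((q {t : T | y ∈ (fun x => (t : Γ) • x) ⁻¹' U} : T) : Γ) • y at hxy
    rw [e2] at hxy
    exact smul_left_cancel _ hxy

/-- **The paradox.** -/
theorem sb_of_neg [CompactSpace X] (hU : IsClopen U) (hne : U.Nonempty) {ι : Type} [Fintype ι]
    {f : ι → X → ℤ} {γ : ι → Γ} (hf : ∀ i, f i ∈ GU Γ U)
    (h : ∀ x, ∑ i, (f i x - f i (γ i • x)) ≤ 0) (h' : ∀ x ∈ U, ∑ i, (f i x - f i (γ i • x)) ≤ -1) :
    ∃ k : ℕ, 0 < k ∧ Sb Γ (fun _ : Fin k ⊕ Fin k => U) fun _ : Fin k => U := by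
  classical
  obtain ⟨g, δ, hg, hg0, hgs⟩ := exists_nonneg (γ := γ) hf
  -- bounds
  have h1 : ∀ i, ∃ J : ℕ, ∀ x, g i x ≤ J := by
    intro i
    obtain ⟨M, hM⟩ := (hg i).1.range_finite.bddAbove
    exact ⟨M.toNat, fun x => (hM ⟨x, rfl⟩).trans (Int.self_le_toNat M)⟩
  choose J₀ hJ₀ using h1
  obtain ⟨J, hJ⟩ : ∃ J : ℕ, ∀ i x, g i x ≤ J := by
    refine ⟨∑ i, J₀ i, fun i x => (hJ₀ i x).trans ?_⟩
    exact_mod_cast Finset.single_le_sum (f := J₀) (fun _ _ => Nat.zero_le _) (Finset.mem_univ i)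
  let V : (ι ⊕ ι) × Fin J → Set X := fun p => {x | ((p.2 : ℕ) : ℤ) < g p.1 x}
  let V' : (ι ⊕ ι) × Fin J → Set X := fun p => {x | ((p.2 : ℕ) : ℤ) < g p.1 (δ p.1 • x)}
  have hV : ∀ p, IsClopen (V p) := fun p => clopen_lt (hg p.1).1 _
  have hV' : ∀ p, IsClopen (V' p) := fun p =>
    clopen_lt ((hg p.1).1.comp_continuous (continuous_const_smul (δ p.1))) _
  have hVV : Sb Γ V' V := by
    refine ⟨fun p _ => δ p.1, fun p _ => p, fun p => IsLocallyConstant.const _,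
      fun p => IsLocallyConstant.const _, fun p x hx => hx, fun p p' x y _ _ hxy hl => ?_⟩
    change p = p' at hl
    subst hl
    exact ⟨rfl, smul_left_cancel _ hxy⟩
  have hc1 : ∀ x, {p | x ∈ V p}.encard = ((∑ i, (g i x).toNat : ℕ) : ℕ∞) := fun x =>
    encard_below (fun i => g i x) (fun i => hg0 i x) fun i => hJ i x
  have hc2 : ∀ x, {p | x ∈ V' p}.encard = ((∑ i, (g i (δ i • x)).toNat : ℕ) : ℕ∞) := fun x =>
    encard_below (fun i => g i (δ i • x)) (fun i => hg0 i _) fun i => hJ i _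
  have hsum : ∀ x, ((∑ i, (g i x).toNat : ℕ) : ℤ) = ∑ i, g i x := by
    intro x
    push_cast
    exact Finset.sum_congr rfl fun i _ => Int.toNat_of_nonneg (hg0 i x)
  have hsum' : ∀ x, ((∑ i, (g i (δ i • x)).toNat : ℕ) : ℤ) = ∑ i, g i (δ i • x) := by
    intro x
    push_cast
    exact Finset.sum_congr rfl fun i _ => Int.toNat_of_nonneg (hg0 i _)
  have hcmp : ∀ x, (∑ i, (g i x).toNat) + (if x ∈ U then 1 else 0) ≤
      ∑ i, (g i (δ i • x)).toNat := by
    intro x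
    have e1 := hgs x
    rw [Finset.sum_sub_distrib, ← hsum, ← hsum'] at e1
    have e2 := h x
    by_cases hx : x ∈ U
    · have e3 := h' x hx
      rw [if_pos hx]
      omega
    · rw [if_neg hx]
      omega
  have hneI : Nonempty ((ι ⊕ ι) × Fin J) := by
    obtain ⟨x, hx⟩ := hne
    by_contra hemp
    rw [not_nonempty_iff] at hemp
    have e1 := hcmp x
    rw [if_pos hx] at e1
    have e2 := hc2 x
    have e3 : {p | x ∈ V' p} = ∅ := Set.eq_empty_of_isEmpty _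
    rw [e3, Set.encard_empty] at e2
    have e4 : (∑ i, (g i (δ i • x)).toNat) = 0 := by exact_mod_cast e2.symm
    omega
  have hstep : Sb Γ (Sum.elim V fun _ : Unit => U) V := by
    refine Sb.trans (sb_fib ?_ hV' fun x => ?_) hVV
    · rintro (i | i)
      · exact hV i
      · exact hU
    · have e1 : {i : ((ι ⊕ ι) × Fin J) ⊕ Unit | x ∈ Sum.elim V (fun _ => U) i}.encard =
          {i | x ∈ V i}.encard + ((if x ∈ U then Fintype.card Unit else 0 : ℕ) : ℕ∞) := by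
        rw [← encard_const]
        exact encard_sum _ _ _ (fun _ => Iff.rfl) fun _ => Iff.rfl
      rw [e1, hc1, hc2, ← Nat.cast_add, Fintype.card_unit]
      exact_mod_cast hcmp x
  -- bounded
  have hT : ∀ i, ∃ T : Finset Γ, ∀ x, g i x ≠ 0 → ∃ γ ∈ T, γ • x ∈ U := fun i => (hg i).2
  choose T hT using hT
  let T' : Finset Γ := insert 1 (Finset.univ.biUnion T)
  have hT' : ∀ p, ∀ x ∈ V p, ∃ γ ∈ T', γ • x ∈ U := by
    intro p x hx
    have e1 : ((p.2 : ℕ) : ℤ) < g p.1 x := hx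
    obtain ⟨γ, h2, h3⟩ := hT p.1 x (by omega)
    exact ⟨γ, Finset.mem_insert_of_mem (Finset.mem_biUnion.2 ⟨p.1, Finset.mem_univ _, h2⟩), h3⟩
  have hb := sb_bounded hU T' hT' (Finset.insert_nonempty _ _)
  let k := Fintype.card (((ι ⊕ ι) × Fin J) × T')
  have hkp : Nonempty (((ι ⊕ ι) × Fin J) × T') := ⟨(Classical.arbitrary _, ⟨1, Finset.mem_insert_self _ _⟩)⟩
  have hk : 0 < k := Fintype.card_pos
  refine ⟨k, hk, ?_⟩
  have : Nonempty (Fin k) := ⟨⟨0, hk⟩⟩
  have hcl : ∀ (κ : Type) (i : κ), IsClopen ((fun _ => U) i) := fun _ _ => hU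
  have s1 : Sb Γ (fun _ : Fin k ⊕ Fin k => U) (Sum.elim V fun _ : Fin (k + k) => U) := by
    refine sb_fib (hcl _) ?_ fun x => ?_
    · rintro (i | i)
      · exact hV i
      · exact hU
    · have e1 : {i : ((ι ⊕ ι) × Fin J) ⊕ Fin (k + k) | x ∈ Sum.elim V (fun _ => U) i}.encard =
          {i | x ∈ V i}.encard + ((if x ∈ U then Fintype.card (Fin (k + k)) else 0 : ℕ) : ℕ∞) := by
        rw [← encard_const]
        exact encard_sum _ _ _ (fun _ => Iff.rfl) fun _ => Iff.rfl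
      rw [e1, encard_const, Fintype.card_sum, Fintype.card_fin, Fintype.card_fin]
      exact le_add_self
  have s2 : Sb Γ (fun _ : ((ι ⊕ ι) × Fin J) × T' => U) (fun _ : Fin k => U) := by
    refine sb_fib (hcl _) (hcl _) fun x => ?_
    rw [encard_const, encard_const, Fintype.card_fin]
  exact ((s1.trans (sb_iter hV hU hne hstep (k + k))).trans hb).trans s2

end

end Pool.Agent.ZT
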