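import Pool.Agent.ZT.T1
import Pool.Agent.ZT.Forest

/-!
# Cocycles of free groups and telescoping
-/

set_option autoImplicit false

namespace Pool.Agent.ZT

section tau

variable {A X B : Type} [Group B] (s : A → Equiv.Perm X) (t : A → X → B)

/-- The permutation of a letter. -/
def tauP (a : A) : Equiv.Perm (X × B) where
  toFun p := (s a p.1, t a p.1 * p.2)
  invFun p := ((s a).symm p.1, (t a ((s a).symm p.1))⁻¹ * p.2)
  left_inv := by
    rintro ⟨x, b⟩
    change ((s a).symm (s a x), (t a ((s a).symm (s a x)))⁻¹ * (t a x * b)) = (x, b)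
    rw [Equiv.symm_apply_apply, inv_mul_cancel_left]
  right_inv := by
    rintro ⟨x, b⟩
    change (s a ((s a).symm x), t a ((s a).symm x) * ((t a ((s a).symm x))⁻¹ * b)) = (x, b)
    rw [Equiv.apply_symm_apply, mul_inv_cancel_left]

/-- The cocycle with given values on the letters. -/
def tau (g : FreeGroup A) (x : X) : B := (FreeGroup.lift (tauP s t) g (x, 1)).2

theorem tau_key (g : FreeGroup A) : ∀ (x : X) (b : B),
    FreeGroup.lift (tauP s t) g (x, b) = (FreeGroup.lift s g x, tau s t g x * b) := by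
  have hinv : ∀ a : A, ∀ (x : X) (b : B), (tauP s t a)⁻¹ (x, b) =
      ((s a)⁻¹ x, (t a ((s a)⁻¹ x))⁻¹ * b) := fun _ _ _ => rfl
  induction g using FreeGroup.induction_on with
  | C1 =>
    intro x b
    unfold tau
    rw [map_one, map_one]
    change (x, b) = (x, 1 * b)
    rw [one_mul]
  | of a =>
    intro x b
    unfold tau
    rw [FreeGroup.lift_apply_of, FreeGroup.lift_apply_of]
    change (s a x, t a x * b) = (s a x, t a x * 1 * b)
    rw [mul_one]
  | inv_of a _ =>
    intro x b
    unfold tau
    rw [map_inv, map_inv, FreeGroup.lift_apply_of, FreeGroup.lift_apply_of, hinv, hinv]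
    change _ = ((s a)⁻¹ x, (t a ((s a)⁻¹ x))⁻¹ * 1 * b)
    rw [mul_one]
  | mul g h hg hh =>
    intro x b
    have h1 : ∀ b, FreeGroup.lift (tauP s t) (g * h) (x, b) =
        (FreeGroup.lift s g (FreeGroup.lift s h x),
          tau s t g (FreeGroup.lift s h x) * (tau s t h x * b)) := by
      intro b
      rw [map_mul, Equiv.Perm.mul_apply, hh, hg]
    have h2 : tau s t (g * h) x = tau s t g (FreeGroup.lift s h x) * tau s t h x := by
      have h3 := congrArg Prod.snd (h1 1)
      rw [mul_one] at h3
      exact h3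
    rw [h1, h2, map_mul, Equiv.Perm.mul_apply, mul_assoc]

theorem tau_mul (g h : FreeGroup A) (x : X) :
    tau s t (g * h) x = tau s t g (FreeGroup.lift s h x) * tau s t h x := by
  have h1 := tau_key s t (g * h) x 1
  rw [map_mul, Equiv.Perm.mul_apply, tau_key s t h, tau_key s t g] at h1
  have h2 := congrArg Prod.snd h1
  rw [mul_one, mul_one] at h2
  exact h2.symm

theorem tau_of (a : A) (x : X) : tau s t (FreeGroup.of a) x = t a x := by
  unfold tau
  rw [FreeGroup.lift_apply_of]
  exact mul_one _

theorem tau_one (x : X) : tau s t 1 x = 1 := by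
  unfold tau
  rw [map_one]
  rfl

theorem tau_inv (g : FreeGroup A) (x : X) :
    tau s t g⁻¹ x = (tau s t g ((FreeGroup.lift s g)⁻¹ x))⁻¹ := by
  have h1 := tau_mul s t g g⁻¹ x
  rw [mul_inv_cancel, tau_one, map_inv] at h1
  exact (inv_eq_of_mul_eq_one_right h1.symm).symm

/-- The values of the cocycle on one element are in a finite set. -/
theorem tau_finite (ht : ∀ a, (Set.range (t a)).Finite) (g : FreeGroup A) :
    (Set.range (tau s t g)).Finite := by
  induction g using FreeGroup.induction_on with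
  | C1 =>
    refine (Set.finite_singleton (1 : B)).subset ?_
    rintro _ ⟨x, rfl⟩
    exact tau_one s t x
  | of a =>
    refine (ht a).subset ?_
    rintro _ ⟨x, rfl⟩
    exact ⟨x, (tau_of s t a x).symm⟩
  | inv_of a ih =>
    refine ih.inv.subset ?_
    rintro _ ⟨x, rfl⟩
    rw [tau_inv, Set.inv_mem_inv]
    exact ⟨_, rfl⟩
  | mul g h hg hh =>
    refine (hg.mul hh).subset ?_
    rintro _ ⟨x, rfl⟩
    rw [tau_mul]
    exact Set.mul_mem_mul ⟨_, rfl⟩ ⟨_, rfl⟩

end tau

section hom

variable {A A' X : Type} (s : A → Equiv.Perm X) (s' : A' → Equiv.Perm X)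
  (t : A → X → FreeGroup A')

/-- The values of the letters move the points as the letters do. -/
def Comp : Prop := ∀ a x, FreeGroup.lift s' (t a x) x = s a x

variable {s s' t}

theorem lift_tau (h : Comp s s' t) (g : FreeGroup A) :
    ∀ x, FreeGroup.lift s' (tau s t g x) x = FreeGroup.lift s g x := by
  induction g using FreeGroup.induction_on with
  | C1 =>
    intro x
    rw [tau_one, map_one, map_one]
  | of a =>
    intro x
    rw [tau_of, h, FreeGroup.lift_apply_of]
  | inv_of a ih =>
    intro x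
    rw [tau_inv, map_inv, map_inv, Equiv.Perm.inv_eq_iff_eq, FreeGroup.lift_apply_of, tau_of, h]
    exact (Equiv.apply_symm_apply _ _).symm
  | mul g k hg hk =>
    intro x
    rw [tau_mul, map_mul, Equiv.Perm.mul_apply, hk, hg, map_mul, Equiv.Perm.mul_apply]

/-- The cocycle of an element of the group. -/
def cq (q : Equiv.Perm (X × FreeGroup A)) (x : X) : FreeGroup A := (q (x, 1)).2

theorem cq_apply {q : Equiv.Perm (X × FreeGroup A)} (hq : q ∈ FGS s) (x : X) (g : FreeGroup A) :
    q (x, g) = (x, cq q (FreeGroup.lift s g x) * g) := by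
  obtain ⟨c, -, h⟩ := hq
  have h1 : ∀ y, cq q y = c y := by
    intro y
    unfold cq
    rw [h, map_one]
    exact mul_one _
  rw [h1, h]

theorem cq_finite {q : Equiv.Perm (X × FreeGroup A)} (hq : q ∈ FGS s) :
    (Set.range (cq q)).Finite := by
  obtain ⟨c, hc, h⟩ := hq
  refine hc.subset ?_
  rintro _ ⟨y, rfl⟩
  refine ⟨y, ?_⟩
  unfold cq
  rw [h, map_one]
  exact (mul_one _).symm

theorem cq_mul {q q' : Equiv.Perm (X × FreeGroup A)} (hq : q ∈ FGS s) (hq' : q' ∈ FGS s) (x : X) :
    cq (q * q') x = cq q (FreeGroup.lift s (cq q' x) x) * cq q' x := by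
  have h1 : q' (x, 1) = (x, cq q' x) := by
    rw [cq_apply hq', map_one, mul_one]
    rfl
  change (q (q' (x, 1))).2 = _
  rw [h1, cq_apply hq]

theorem cq_one (x : X) : cq (1 : Equiv.Perm (X × FreeGroup A)) x = 1 := rfl

/-- The homomorphism given by the cocycle. -/
def hatT (s : A → Equiv.Perm X) (s' : A' → Equiv.Perm X) (t : A → X → FreeGroup A')
    (h : Comp s s' t) (ht : ∀ a, (Set.range (t a)).Finite) : FGS s →* FGS s' :=
  (MonoidHom.toHomPerm
    { toFun := fun (q : FGS s) (p : X × FreeGroup A') =>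
        (p.1, tau s t (cq q.1 (FreeGroup.lift s' p.2 p.1)) (FreeGroup.lift s' p.2 p.1) * p.2)
      map_one' := by
        funext p
        change (p.1, tau s t 1 _ * p.2) = p
        rw [tau_one, one_mul]
      map_mul' := by
        rintro ⟨q, hq⟩ ⟨q', hq'⟩
        funext p
        obtain ⟨x, g⟩ := p
        change (x, tau s t (cq (q * q') (FreeGroup.lift s' g x)) (FreeGroup.lift s' g x) * g) =
          (x, tau s t (cq q (FreeGroup.lift s'
            (tau s t (cq q' (FreeGroup.lift s' g x)) (FreeGroup.lift s' g x) * g) x))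
            (FreeGroup.lift s'
              (tau s t (cq q' (FreeGroup.lift s' g x)) (FreeGroup.lift s' g x) * g) x) *
            (tau s t (cq q' (FreeGroup.lift s' g x)) (FreeGroup.lift s' g x) * g))
        rw [map_mul, Equiv.Perm.mul_apply, lift_tau h, cq_mul hq hq', tau_mul, mul_assoc] }).codRestrict
    (FGS s') fun q => by
      refine ⟨fun x => tau s t (cq q.1 x) x, ?_, fun x g => rfl⟩
      have h1 : (⋃ g ∈ Set.range (cq q.1), Set.range (tau s t g)).Finite :=
        Set.Finite.biUnion (cq_finite q.2) fun g _ => tau_finite s t ht g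
      refine h1.subset ?_
      rintro _ ⟨x, rfl⟩
      exact Set.mem_biUnion ⟨x, rfl⟩ ⟨x, rfl⟩

theorem cq_hatT (h : Comp s s' t) (ht : ∀ a, (Set.range (t a)).Finite) (q : FGS s) (x : X) :
    cq (hatT s s' t h ht q).1 x = tau s t (cq q.1 x) x := by
  change tau s t (cq q.1 (FreeGroup.lift s' 1 x)) (FreeGroup.lift s' 1 x) * 1 = _
  rw [map_one, mul_one]
  rfl

/-- The homomorphism to the permutations of `X`. -/
def evS (s : A → Equiv.Perm X) : FGS s →* Equiv.Perm X :=
  MonoidHom.toHomPerm
    { toFun := fun (q : FGS s) (x : X) => FreeGroup.lift s (cq q.1 x) x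
      map_one' := by
        funext x
        change FreeGroup.lift s 1 x = x
        rw [map_one]
        rfl
      map_mul' := by
        rintro ⟨q, hq⟩ ⟨q', hq'⟩
        funext x
        change FreeGroup.lift s (cq (q * q') x) x =
          FreeGroup.lift s (cq q (FreeGroup.lift s (cq q' x) x)) (FreeGroup.lift s (cq q' x) x)
        rw [cq_mul hq hq', map_mul, Equiv.Perm.mul_apply] }

theorem evS_apply (q : FGS s) (x : X) : evS s q x = FreeGroup.lift s (cq q.1 x) x := rfl

theorem evS_hatT (h : Comp s s' t) (ht : ∀ a, (Set.range (t a)).Finite) (q : FGS s) :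
    evS s' (hatT s s' t h ht q) = evS s q := by
  refine Equiv.ext fun x => ?_
  rw [evS_apply, evS_apply, cq_hatT, lift_tau h]

theorem eq_one_of_cq {q : FGS s} (h : ∀ x, cq q.1 x = 1) : q = 1 := by
  refine Subtype.ext (Equiv.ext fun p => ?_)
  obtain ⟨x, g⟩ := p
  rw [cq_apply q.2, h, one_mul]
  rfl

/-- Elements from invertible cocycles. -/
theorem exists_of_cocycle (c c' : X → FreeGroup A) (hc : (Set.range c).Finite)
    (h1 : ∀ x, c' (FreeGroup.lift s (c x) x) * c x = 1)
    (h2 : ∀ x, c (FreeGroup.lift s (c' x) x) * c' x = 1) :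
    ∃ q : FGS s, ∀ x, cq q.1 x = c x := by
  let q : Equiv.Perm (X × FreeGroup A) :=
    { toFun := fun p => (p.1, c (FreeGroup.lift s p.2 p.1) * p.2)
      invFun := fun p => (p.1, c' (FreeGroup.lift s p.2 p.1) * p.2)
      left_inv := by
        rintro ⟨x, g⟩
        refine Prod.ext rfl ?_
        change c' (FreeGroup.lift s (c (FreeGroup.lift s g x) * g) x) *
          (c (FreeGroup.lift s g x) * g) = g
        rw [map_mul, Equiv.Perm.mul_apply, ← mul_assoc, h1, one_mul]
      right_inv := by
        rintro ⟨x, g⟩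
        refine Prod.ext rfl ?_
        change c (FreeGroup.lift s (c' (FreeGroup.lift s g x) * g) x) *
          (c' (FreeGroup.lift s g x) * g) = g
        rw [map_mul, Equiv.Perm.mul_apply, ← mul_assoc, h2, one_mul] }
  refine ⟨⟨q, c, hc, fun x g => rfl⟩, fun x => ?_⟩
  change c (FreeGroup.lift s 1 x) * 1 = c x
  rw [map_one, mul_one]
  rfl

end hom

end Pool.Agent.ZT
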