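import Pool.Agent.ZT.Lvl

/-!
# The level groups of a set and of a union of lines meeting all types are isomorphic
-/

set_option autoImplicit false

namespace Pool.Agent.ZT

open Pool.Agent.Helper29.BA Pool.Agent.Helper29.PA

variable {A P P' : Type} {S' : Gr A P'} {S : Gr A P}

open Classical in
/-- The generator of a nonempty letter, and the trivial element for an empty one. -/
noncomputable def ltg (ℓ : Lt A P) : RA (R (A := A) (P := P)) :=
  if ℓ.2.Nonempty then gen R ℓ else 1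

theorem ltg_ne {ℓ : Lt A P} (h : ℓ.2.Nonempty) : ltg ℓ = gen R ℓ := by
  unfold ltg
  rw [if_pos h]

theorem ltg_empty {ℓ : Lt A P} (h : ¬ ℓ.2.Nonempty) : ltg ℓ = 1 := by
  unfold ltg
  rw [if_neg h]

theorem ltg_comm {ℓ m : Lt A P} (h : ∀ x, x ∈ im ℓ.2 → x ∉ im m.2) :
    ltg ℓ * ltg m = ltg m * ltg ℓ := by
  by_cases h1 : ℓ.2.Nonempty
  · by_cases h2 : m.2.Nonempty
    · rw [ltg_ne h1, ltg_ne h2]
      exact gen_comm ⟨h1, h2, h⟩
    · rw [ltg_empty h2, mul_one, one_mul]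
  · rw [ltg_empty h1, mul_one, one_mul]

theorem act_ltg (q : S.Ln) (ℓ : Lt A P) : S.act q (ltg ℓ) = ltg (q • ℓ) := by
  by_cases h : ℓ.2.Nonempty
  · have h1 : (q • ℓ : Lt A P).2.Nonempty := by
      obtain ⟨⟨p, x⟩, h1⟩ := h
      exact ⟨(p, q.1 x), mem_rel'.2 h1⟩
    rw [ltg_ne h, ltg_ne h1, Gr.act, raAct_gen]
  · have h1 : ¬ (q • ℓ : Lt A P).2.Nonempty := by
      rintro ⟨⟨p, x⟩, h1⟩
      exact h ⟨_, h1⟩
    rw [ltg_empty h, ltg_empty h1, map_one]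

theorem im_pull {j : P' → P} {L : Set (P × P)} {x : P'} (h : x ∈ im (pull j L)) : j x ∈ im L := by
  obtain ⟨p, hp⟩ := h
  exact ⟨_, hp⟩

/-- The restriction homomorphism of right-angled Artin groups. -/
noncomputable def resRA (j : P' → P) :
    RA (R (A := A) (P := P)) →* RA (R (A := A) (P := P')) :=
  raLift (fun ℓ => ltg (rs j ℓ)) fun _ _ h =>
    ltg_comm fun _ hx hx' => h.2.2 _ (im_pull hx) (im_pull hx')

theorem resRA_gen (j : P' → P) (ℓ : Lt A P) : resRA j (gen R ℓ) = ltg (rs j ℓ) := by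
  unfold resRA
  rw [raLift_gen]

theorem resRA_wp (j : P' → P) (w : List (Lt A P × Bool))
    (h : ∀ z ∈ w, (pull j z.1.2).Nonempty) :
    resRA j (wp (gen R) w) = wp (gen R) (rsw j w) := by
  induction w with
  | nil => rw [wp_nil, map_one]; rfl
  | cons z w ih =>
    obtain ⟨ℓ, ε⟩ := z
    change _ = wp (gen R) ((rs j ℓ, ε) :: rsw j w)
    rw [wp_cons, wp_cons, map_mul, ih fun z hz => h z (List.mem_cons_of_mem _ hz)]
    congr 1
    have h1 : resRA j (gen R ℓ) = gen R (rs j ℓ) := by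
      rw [resRA_gen, ltg_ne]
      exact h (ℓ, ε) List.mem_cons_self
    cases ε
    · change resRA j (gen R ℓ)⁻¹ = (gen R (rs j ℓ))⁻¹
      rw [map_inv, h1]
    · exact h1

/-- The restricted permutation. -/
noncomputable def Hm.rp (f : Hm S' S) (q : S.Ln) (p : P') : P' :=
  Classical.choose (f.rg p (q.1 (f.j p)) (q.2 _))

theorem Hm.j_rp (f : Hm S' S) (q : S.Ln) (p : P') : f.j (f.rp q p) = q.1 (f.j p) :=
  Classical.choose_spec (f.rg p (q.1 (f.j p)) (q.2 _))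

/-- The restriction homomorphism of permutations. -/
noncomputable def Hm.resP (f : Hm S' S) : S.Ln →* S'.Ln where
  toFun q := ⟨{
    toFun := f.rp q
    invFun := f.rp q⁻¹
    left_inv := fun p => f.inj (by
      rw [f.j_rp, f.j_rp]
      exact pia _ _)
    right_inv := fun p => f.inj (by
      rw [f.j_rp, f.j_rp]
      exact pai _ _) }, fun p => (f.ln _ _).1 (by
        change S.ln (f.j (f.rp q p)) = _
        rw [f.j_rp]
        exact q.2 _)⟩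
  map_one' := by
    ext p
    exact f.inj (f.j_rp 1 p)
  map_mul' q q' := by
    ext p
    change f.rp (q * q') p = f.rp q (f.rp q' p)
    exact f.inj (by rw [f.j_rp, f.j_rp, f.j_rp]; rfl)

theorem Hm.j_resP (f : Hm S' S) (q : S.Ln) (p : P') : f.j ((f.resP q).1 p) = q.1 (f.j p) :=
  f.j_rp q p

theorem Hm.rs_smul (f : Hm S' S) (q : S.Ln) (ℓ : Lt A P) :
    rs f.j (q • ℓ) = f.resP q • rs f.j ℓ := by
  have h : pull f.j (rel q.1 ℓ.2) = rel (f.resP q).1 (pull f.j ℓ.2) := by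
    ext ⟨p, x⟩
    change (f.j p, q.1⁻¹ (f.j x)) ∈ ℓ.2 ↔ (f.j p, f.j ((f.resP q).1⁻¹ x)) ∈ ℓ.2
    have h1 : q.1⁻¹ (f.j x) = f.j ((f.resP q).1⁻¹ x) := by
      have h2 := f.j_resP q ((f.resP q).1⁻¹ x)
      rw [pai] at h2
      rw [h2, pia]
    rw [h1]
  exact Prod.ext rfl h

/-- The restriction homomorphism. -/
noncomputable def Hm.res (f : Hm S' S) : S.Am →* S'.Am :=
  SemidirectProduct.map (resRA f.j) f.resP fun q => by
    refine ra_hom_ext fun ℓ => ?_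
    change resRA f.j (S.act q (gen R ℓ)) = S'.act (f.resP q) (resRA f.j (gen R ℓ))
    rw [resRA_gen, act_ltg, ← f.rs_smul, Gr.act, raAct_gen, resRA_gen]

theorem Hm.res_left (f : Hm S' S) (x : S.Am) : (f.res x).left = resRA f.j x.left := rfl

theorem Hm.res_right (f : Hm S' S) (x : S.Am) : (f.res x).right = f.resP x.right := rfl

namespace Gr

theorem Hm.rst_B (f : Hm S' S) (q : S.Ln) : f.rst (S.B q.1) = S'.B (f.resP q).1 := by
  have h1 : ∀ e, pull f.j (S.pt e (diag q.1)) = S'.pt e (diag (f.resP q).1) := by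
    intro e
    ext ⟨p, x⟩
    change (f.j x = q.1 (f.j p) ∧ S.ty (f.j p) = e) ↔ (x = (f.resP q).1 p ∧ S'.ty p = e)
    rw [f.ty, ← f.j_resP, f.inj.eq_iff]
  ext τ
  constructor
  · rintro ⟨τ, hτ, rfl⟩
    obtain ⟨p, rfl⟩ := mem_B_iff.1 hτ
    obtain ⟨p', hp'⟩ := f.meet p
    refine mem_B_iff.2 ⟨p', ?_⟩
    rw [h1, ← hp', f.ty]
  · intro hτ
    obtain ⟨p, rfl⟩ := mem_B_iff.1 hτ
    exact ⟨_, mem_B_iff.2 ⟨f.j p, rfl⟩, by rw [h1, f.ty]⟩

theorem Valid.run_ne' (f : Hm S' S) (w : List (Lt A P × Bool)) : ∀ {c c' : Set (Set (P × P))},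
    S.Valid c → S.Run c w c' → ∀ z ∈ w, (pull f.j z.1.2).Nonempty := by
  induction w with
  | nil =>
    intro c c' _ _ z hz
    exact absurd hz List.not_mem_nil
  | cons y w ih =>
    rintro c c' hc ⟨c₁, h1, h2⟩ z hz
    rcases List.mem_cons.1 hz with rfl | hz
    · exact (hc.rst_step f h1).1.1
    · exact ih (hc.step h1) h2 z hz

theorem res_mem (f : Hm S' S) {x : S.Am} (h : x ∈ S.D) : f.res x ∈ S'.D := by
  obtain ⟨w, h1, h2⟩ := h
  refine ⟨rsw f.j w, ?_, ?_⟩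
  · have h3 := (valid_B (one_mem S.Ln)).rst_run f w h1
    rw [Hm.rst_B f x.right] at h3
    have h4 := Hm.rst_B f (1 : S.Ln)
    rw [map_one] at h4
    change f.rst (S.B 1) = S'.B 1 at h4
    rw [h4] at h3
    exact h3
  · rw [f.res_left, ← h2, resRA_wp f.j w ((valid_B (one_mem S.Ln)).run_ne' f w h1)]

theorem canc_of_one (w : List (Lt A P × Bool)) (hw : w ≠ []) (h : wp (gen R) w = 1) :
    Canc R w := by
  obtain ⟨w1, x, e, w2, w3, h1, h2⟩ := cl_one (R := R) (fun _ _ h => h.symm) w hw h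
  refine ⟨w1, x, e, w2, w3, ?_, h2⟩
  rw [h1]
  simp

theorem res_injOn (f : Hm S' S) {x : S.Am} (h : x ∈ S.D) (hx : f.res x = 1) : x = 1 := by
  obtain ⟨w, h1, h2⟩ := h
  have hv := valid_B (S := S) (one_mem S.Ln)
  have h3 : wp (gen R) (rsw f.j w) = 1 := by
    rw [← resRA_wp f.j w (hv.run_ne' f w h1), h2, ← f.res_left, hx]
    rfl
  obtain ⟨h4, h5⟩ := restriction f (fun _ _ h => gen_comm h) (fun _ _ h => gen_comm h)
    canc_of_one w.length w le_rfl hv h1 h3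
  refine SemidirectProduct.ext (h2.symm.trans h4) ?_
  exact Subtype.ext (B_inj h5).symm

/-- A valid state with one token for each type is the state of a permutation. -/
theorem Valid.exists_perm {c : Set (Set (P × P))} (hc : S.Valid c)
    (h : ∀ p, ∃ τ ∈ c, p ∈ pos τ)
    (h' : ∀ τ ∈ c, ∀ τ' ∈ c, ∀ p, p ∈ pos τ → p ∈ pos τ' → τ = τ') :
    ∃ q : S.Ln, c = S.B q.1 := by
  choose τ hτ x hx using h
  choose τ' hτ' p hp using hc.cover
  have h1 : ∀ p₁ x₁, (∃ t ∈ c, (p₁, x₁) ∈ t) → x₁ = x p₁ := by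
    rintro p₁ x₁ ⟨t, ht, h2⟩
    obtain rfl := h' t ht (τ p₁) (hτ p₁) p₁ ⟨x₁, h2⟩ ⟨_, hx p₁⟩
    exact (hc.tok _ (hτ p₁)).fn _ _ _ h2 (hx p₁)
  have h2 : ∀ p₁ x₁, (∃ t ∈ c, (p₁, x₁) ∈ t) → p₁ = p x₁ := by
    rintro p₁ x₁ ⟨t, ht, h3⟩
    obtain rfl := hc.dis t ht (τ' x₁) (hτ' x₁) x₁ ⟨p₁, h3⟩ ⟨_, hp x₁⟩
    exact (hc.tok _ (hτ' x₁)).inj _ _ _ h3 (hp x₁)
  have hpx : ∀ y, x (p y) = y := fun y => (h1 _ _ ⟨τ' y, hτ' y, hp y⟩).symm
  have hxp : ∀ y, p (x y) = y := fun y => (h2 _ _ ⟨τ y, hτ y, hx y⟩).symm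
  refine ⟨⟨⟨x, p, hxp, hpx⟩, fun y => ((hc.tok _ (hτ y)).line _ _ (hx y)).symm⟩, ?_⟩
  have h3 : ∀ t ∈ c, ∀ p₁ x₁, (p₁, x₁) ∈ t →
      t = S.pt (S.ty p₁) (diag (⟨x, p, hxp, hpx⟩ : Equiv.Perm P)) := by
    intro t ht p₁ x₁ h4
    obtain ⟨e, he⟩ := (hc.tok t ht).full
    have h5 := (he p₁).1 ⟨x₁, h4⟩
    ext ⟨p₂, x₂⟩
    constructor
    · intro h6
      exact ⟨h1 _ _ ⟨t, ht, h6⟩, ((he p₂).1 ⟨x₂, h6⟩).trans h5.symm⟩
    · rintro ⟨h6, h7⟩
      change x₂ = x p₂ at h6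
      change S.ty p₂ = S.ty p₁ at h7
      subst h6
      rw [h' t ht (τ p₂) (hτ p₂) p₂ ((he p₂).2 (h7.trans h5)) ⟨_, hx p₂⟩]
      exact hx p₂
  ext t
  constructor
  · intro ht
    obtain ⟨⟨p₁, x₁⟩, h4⟩ := (hc.tok t ht).ne
    exact mem_B_iff.2 ⟨p₁, h3 t ht p₁ x₁ h4⟩
  · intro ht
    obtain ⟨p₁, rfl⟩ := mem_B_iff.1 ht
    rw [← h3 _ (hτ p₁) p₁ _ (hx p₁)]
    exact hτ p₁

theorem res_surjOn (f : Hm S' S) {y : S'.Am} (h : y ∈ S'.D) : ∃ x ∈ S.D, f.res x = y := by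
  obtain ⟨w', h1, h2⟩ := h
  have hv := valid_B (S := S) (one_mem S.Ln)
  have h4 := Hm.rst_B f (1 : S.Ln)
  rw [map_one] at h4
  change f.rst (S.B 1) = S'.B 1 at h4
  rw [← h4] at h1
  obtain ⟨w, c, rfl, h5, h6⟩ := hv.lift_run f w' h1
  have hc := hv.run h5
  -- the state is a permutation
  have h7 : ∀ p, ∃ τ ∈ c, p ∈ pos τ := by
    intro p
    obtain ⟨p', hp'⟩ := f.meet p
    have h8 : S'.pt (S'.ty p') (diag y.right.1) ∈ f.rst c := by
      rw [h6]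
      exact mem_B_iff.2 ⟨p', rfl⟩
    obtain ⟨τ, h9, h10⟩ := h8
    have h11 : (p', y.right.1 p') ∈ pull f.j τ := by
      rw [h10]
      exact ⟨rfl, rfl⟩
    obtain ⟨e, he⟩ := (hc.tok τ h9).full
    exact ⟨τ, h9, (he p).2 (hp'.symm.trans ((he (f.j p')).1 ⟨_, h11⟩))⟩
  have h8 : ∀ τ ∈ c, ∀ τ' ∈ c, ∀ p, p ∈ pos τ → p ∈ pos τ' → τ = τ' := by
    intro τ hτ τ' hτ' p hp hp'
    have h9 : ∀ t ∈ c, p ∈ pos t → pull f.j t = S'.pt (S.ty p) (diag y.right.1) := by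
      intro t ht hpt
      obtain ⟨e, he⟩ := (hc.tok t ht).full
      have h10 : pull f.j t ∈ f.rst c := ⟨t, ht, rfl⟩
      rw [h6] at h10
      obtain ⟨p₁, h11⟩ := mem_B_iff.1 h10
      have h12 : (p₁, y.right.1 p₁) ∈ pull f.j t := by
        rw [h11]
        exact ⟨rfl, rfl⟩
      have h13 := (he (f.j p₁)).1 ⟨_, h12⟩
      rw [h11, (he p).1 hpt, ← h13, f.ty]
    exact hc.pull_inj f hτ hτ' ((h9 τ hτ hp).trans (h9 τ' hτ' hp').symm)
  obtain ⟨q, rfl⟩ := hc.exists_perm h7 h8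
  refine ⟨⟨wp (gen R) w, q⟩, ⟨w, h5, rfl⟩, ?_⟩
  refine SemidirectProduct.ext ?_ ?_
  · change resRA f.j (wp (gen R) w) = y.left
    rw [resRA_wp f.j w (hv.run_ne' f w h5), h2]
  · change f.resP q = y.right
    rw [Hm.rst_B f q] at h6
    exact Subtype.ext (B_inj h6)

/-- **Theorem A.** -/
theorem exists_equiv (f : Hm S' S) : Nonempty (S.D ≃* S'.D) := by
  let g : S.D →* S'.D := (f.res.comp S.D.subtype).codRestrict S'.D fun x => res_mem f x.2
  refine ⟨MulEquiv.ofBijective g ⟨?_, ?_⟩⟩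
  · refine (injective_iff_map_eq_one g).2 fun x hx => Subtype.ext ?_
    exact res_injOn f x.2 (congrArg Subtype.val hx)
  · rintro ⟨y, hy⟩
    obtain ⟨x, hx, rfl⟩ := res_surjOn f hy
    exact ⟨⟨x, hx⟩, rfl⟩

/-- The class contains the level group if it contains a group of permutations. -/
theorem D_mem {C : ∀ (G : Type) [Group G], Prop} (hC : ExtClass C) (Q : Subgroup (Equiv.Perm P))
    (hQ : C Q) (h : ∀ x ∈ S.D, (x.right : Equiv.Perm P) ∈ Q) : C S.D := by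
  have hR : ∀ (q : Q) (v w : Lt A P), R v w → R (q • v) (q • w) := fun q v w h => h.smul q.1
  let φ : Q →* MulAut (RA (R (A := A) (P := P))) := raAct hR
  have hφ : ∀ (q : S.Ln) (q' : Q), q.1 = q'.1 → ∀ a, S.act q a = φ q' a := by
    intro q q' hq a
    have h1 : (S.act q).toMonoidHom = (φ q').toMonoidHom := by
      refine ra_hom_ext fun ℓ => ?_
      change S.act q (gen R ℓ) = φ q' (gen R ℓ)
      rw [Gr.act, raAct_gen, raAct_gen]
      change gen R (q.1 • ℓ) = gen R (q'.1 • ℓ)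
      rw [hq]
    exact DFunLike.congr_fun h1 a
  let g : S.D →* RA (R (A := A) (P := P)) ⋊[φ] Q :=
    { toFun := fun x => ⟨x.1.left, ⟨x.1.right.1, h x.1 x.2⟩⟩
      map_one' := rfl
      map_mul' := fun x y => by
        refine SemidirectProduct.ext ?_ rfl
        change x.1.left * S.act x.1.right y.1.left = x.1.left * φ _ y.1.left
        rw [hφ x.1.right ⟨x.1.right.1, h x.1 x.2⟩ rfl] }
  have hg : Function.Injective g := by
    intro x y hxy
    refine Subtype.ext (SemidirectProduct.ext ?_ ?_)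
    · exact congrArg (fun z : RA (R (A := A) (P := P)) ⋊[φ] Q => z.left) hxy
    · exact Subtype.ext
        (congrArg (fun z : RA (R (A := A) (P := P)) ⋊[φ] Q => z.right.1) hxy)
  exact hC.iso _ _ (MonoidHom.ofInjective hg).symm
    (hC.subgroup _ _ (ra_mem hC hR not_R_self hQ))

/-- Both ends of two inclusions. -/
theorem D_mem_of_hm {C : ∀ (G : Type) [Group G], Prop} (hC : ExtClass C) {P₀ : Type}
    {S₀ : Gr A P₀} (f : Hm S' S) (f₀ : Hm S₀ S) (h : C S₀.D) : C S'.D := by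
  obtain ⟨e⟩ := exists_equiv f
  obtain ⟨e₀⟩ := exists_equiv f₀
  exact hC.iso _ _ (e₀.symm.trans e) h

end Gr

end Pool.Agent.ZT
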