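import Pool.Agent.ZT.CoreF
import Pool.Agent.ZT.Core

/-!
# Theorem D

If no nonempty clopen set is paradoxical (every nonempty clopen set has positive finite mass for a
finitely additive invariant set function with values in `[0, ∞]`), then the full group is in every
class with the closure properties.
-/

set_option autoImplicit false

namespace Pool.Agent.ZT

open Pool.Agent.Helper29.BA Pool.Agent.Helper29.PA Pool.Agent.T59

variable {C : ∀ (G : Type) [Group G], Prop} {A X : Type} [TopologicalSpace X]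

/-- Every nonempty clopen set has positive finite mass for some invariant set function. -/
def NoPar (φ : A → X ≃ₜ X) : Prop :=
  ∀ U : Set X, IsClopen U → U.Nonempty → ∃ m : Set X → ENNReal, InvM φ m ∧ m U ≠ 0 ∧ m U ≠ ⊤

/-- The missing types. -/
def Mis (φ : A → X ≃ₜ X) (κ : X → ℕ) {T : Type} [MulAction (FreeGroup A) T] (κT : T → ℕ) :
    Set (ℕ × (A → ℕ)) := {e | (∃ x, tpX φ κ x = e) ∧ ¬ ∃ t : T, tp κT t = e}

/-- **The tower of core extensions.** -/
theorem exists_tower (hC : ExtClass C) [Finite A] [CompactSpace X] (φ : A → X ≃ₜ X)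
    (h : NoPar φ) {κ : X → ℕ} (hκ : IsLocallyConstant κ) (k : ℕ) :
    ∀ (T : Type) (_ : MulAction (FreeGroup A) T) (κT : T → ℕ),
      (∀ t, ∃ x, tpX φ κ x = tp κT t) → (Mis φ κ κT).ncard ≤ k → C (LQ (A := A) κT) →
      ∃ (T' : Type) (_ : MulAction (FreeGroup A) T') (κT' : T' → ℕ),
        (∀ t, ∃ x, tpX φ κ x = tp κT' t) ∧ (∀ x, ∃ t, tp κT' t = tpX φ κ x) ∧
          C (LQ (A := A) κT') := by
  have hty := isLocallyConstant_tpX φ hκ
  have hfinM : ∀ (T : Type) (_ : MulAction (FreeGroup A) T) (κT : T → ℕ),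
      (Mis φ κ κT).Finite := fun T _ κT => hty.range_finite.subset fun e he => he.1
  induction k with
  | zero =>
    intro T _ κT h1 h2 h3
    refine ⟨T, _, κT, h1, fun x => ?_, h3⟩
    have h4 : Mis φ κ κT = ∅ := (Set.ncard_eq_zero (hfinM T inferInstance κT)).1 (Nat.le_zero.1 h2)
    by_contra h5
    have h6 : tpX φ κ x ∈ Mis φ κ κT := ⟨⟨x, rfl⟩, h5⟩
    rw [h4] at h6
    exact h6
  | succ k ih =>
    intro T _ κT h1 h2 h3
    by_cases hU : ∀ x, ∃ t, tp κT t = tpX φ κ x
    · exact ⟨T, _, κT, h1, hU, h3⟩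
    have hUne : ({x | ¬ ∃ t, tp κT t = tpX φ κ x} : Set X).Nonempty := by
      by_contra h4
      refine hU fun x => ?_
      by_contra h5
      exact h4 ⟨x, h5⟩
    have hUc : IsClopen ({x | ¬ ∃ t, tp κT t = tpX φ κ x} : Set X) :=
      isClopen_pre hty {e | ¬ ∃ t, tp κT t = e}
    obtain ⟨m, hm, hm0, hm1⟩ := h _ hUc hUne
    obtain ⟨N, hN, e, nx, he1, he2, hnx, hh1, hh2, hh3⟩ := exists_core φ hm hκ κT (fun x hx => by
      by_contra h4
      refine hm1 (top_le_iff.1 ?_)
      rw [← hx]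
      refine hm.mono (isClopen_pre hty _) hUc fun y hy => ?_
      have h5 : tpX φ κ y = tpX φ κ x := hy
      change ¬ ∃ t, tp κT t = tpX φ κ y
      rw [h5]
      exact h4)
    -- a missing type in the core
    obtain ⟨x, hx, p, hp⟩ : ∃ x, (¬ ∃ t, tp κT t = tpX φ κ x) ∧ ∃ p, e p = tpX φ κ x := by
      classical
      let F : Finset (ℕ × (A → ℕ)) := (hfinM T inferInstance κT).toFinset
      have h4 : ({x | ¬ ∃ t, tp κT t = tpX φ κ x} : Set X) = tpX φ κ ⁻¹' (F : Set _) := by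
        ext x
        rw [Set.mem_preimage, Finset.mem_coe, Set.Finite.mem_toFinset]
        exact ⟨fun h => ⟨⟨x, rfl⟩, h⟩, fun h => h.2⟩
      have h5 := hm0
      rw [h4, hm.sum_preimage hty] at h5
      obtain ⟨f, hf, hf0⟩ := Finset.exists_ne_zero_of_sum_ne_zero h5
      rw [Set.Finite.mem_toFinset] at hf
      obtain ⟨⟨x, rfl⟩, h6⟩ := hf
      refine ⟨x, h6, he2 x hf0 ?_⟩
      intro h7
      refine hm1 (top_le_iff.1 ?_)
      rw [← h7]
      refine hm.mono (isClopen_pre hty _) hUc fun y hy => ?_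
      have h5 : tpX φ κ y = tpX φ κ x := hy
      change ¬ ∃ t, tp κT t = tpX φ κ y
      rw [h5]
      exact h6
    let _ : MulAction (FreeGroup A) (Ex nx) := Ex.act hnx
    have hinl : ∀ t : T, tp (A := A) (lbl nx κT fun p => (e p).1) (Sum.inl t) = tp κT t :=
      fun t => rfl
    have hsub : ∀ z : T ⊕ Ex nx, ∃ x, tpX φ κ x = tp (lbl nx κT fun p => (e p).1) z := by
      rintro (t | ⟨⟨p, l⟩, hl⟩)
      · exact h1 t
      · cases l with
        | nil =>
          obtain ⟨x, hx⟩ := he1 p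
          refine ⟨x, ?_⟩
          rw [← hx]
          exact (tp_core hnx κT e hh1 hh2 p hl).symm
        | cons s l =>
          obtain ⟨t, ht⟩ := tp_branch hnx κT e hh3 ⟨(p, s :: l), hl⟩ (List.cons_ne_nil _ _)
          obtain ⟨x, hx⟩ := h1 t
          exact ⟨x, hx.trans ht.symm⟩
    refine ih (T ⊕ Ex nx) inferInstance (lbl nx κT fun p => (e p).1) hsub ?_
      (LQ_mem_ext hC (hC.freeGroup A) hnx κT _ h3)
    have hss : Mis φ κ (lbl nx κT fun p => (e p).1) ⊂ Mis φ κ κT := by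
      refine Set.ssubset_iff_subset_ne.2 ⟨?_, ?_⟩
      · rintro f ⟨h4, h5⟩
        exact ⟨h4, fun ⟨t, ht⟩ => h5 ⟨Sum.inl t, ht⟩⟩
      · intro h4
        have h5 : tpX φ κ x ∈ Mis φ κ κT := ⟨⟨x, rfl⟩, hx⟩
        rw [← h4] at h5
        exact h5.2 ⟨Sum.inr ⟨(p, []), trivial⟩, (tp_core hnx κT e hh1 hh2 p trivial).trans hp⟩
    have h6 := Set.ncard_lt_ncard hss (hfinM T inferInstance κT)
    omega

/-- **Theorem D, for finitely many homeomorphisms.** -/
theorem mem_FG_of_noPar' (hC : ExtClass C) [Finite A] [CompactSpace X] (φ : A → X ≃ₜ X)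
    (h : NoPar φ) : C (FG φ) := by
  refine core φ hC.toClosedClass ?_
  let _ := actF φ
  intro κ hκ
  let _ : MulAction (FreeGroup A) Empty :=
    { smul := fun _ x => x
      one_smul := fun x => rfl
      mul_smul := fun _ _ x => rfl }
  have hsm : ∀ (a : A) (x : X), FreeGroup.of a • x = φ a x := by
    intro a x
    change ac φ (FreeGroup.of a) x = _
    unfold ac
    rw [FreeGroup.lift_apply_of]
  obtain ⟨T, _, κT, h1, h2, h3⟩ := exists_tower hC φ h hκ _ Empty inferInstance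
    (fun x => x.elim) (fun x => x.elim) le_rfl (LQ_mem_empty hC.toClosedClass _)
  refine mem_grF_of_types hC κ κT (fun x => ?_) (fun t => ?_) (D_mem_of_LQ hC h3)
  · obtain ⟨t, ht⟩ := h2 x
    refine ⟨t, congrArg Prod.fst ht, fun a => ?_⟩
    rw [hsm]
    exact congrFun (congrArg Prod.snd ht) a
  · obtain ⟨x, hx⟩ := h1 t
    refine ⟨x, congrArg Prod.fst hx, fun a => ?_⟩
    rw [hsm]
    exact congrFun (congrArg Prod.snd hx) a

/-- **Theorem D.** -/
theorem mem_FG_of_noPar (hC : ExtClass C) [CompactSpace X] (φ : A → X ≃ₜ X)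
    (h : NoPar φ) : C (FG φ) := by
  refine mem_FG_of_finite φ hC.toClosedClass fun B => mem_FG_of_noPar' hC (res φ B) ?_
  intro U hU hne
  obtain ⟨m, hm, h0, h1⟩ := h U hU hne
  exact ⟨m, ⟨hm.empty, hm.union, fun a => hm.inv a.1⟩, h0, h1⟩

end Pool.Agent.ZT
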