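import Pool.Agent.Helper29.PA.Defs

/-!
# The groups without solutions of the relations of Thompson's group `T`

`Thom a b c` are the six relations of the presentation of Thompson's group `T` of Cannon, Floyd and Parry. The
class of all groups in which the relations have only the trivial solution satisfies `ExtClass`
(`extClass_thom`). So a group which belongs to every class with `ExtClass` contains no image of `T`.
-/

set_option autoImplicit false

namespace Pool.Agent.ZT

open Pool.Agent.Helper29.BA Pool.Agent.Helper29.PA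

section torsion

open Monoid Monoid.CoprodI

variable {ι : Type} {M : ι → Type} [∀ i, Group (M i)]

/-- The product of a list of letters. -/
def lprod (L : List (Σ i, M i)) : CoprodI M := (L.map fun l => CoprodI.of l.2).prod

theorem lprod_nil : lprod ([] : List (Σ i, M i)) = 1 := rfl

theorem lprod_cons (l : Σ i, M i) (L : List (Σ i, M i)) : lprod (l :: L) = CoprodI.of l.2 * lprod L := by
  rw [lprod, List.map_cons, List.prod_cons]
  rfl

theorem lprod_append (L L' : List (Σ i, M i)) : lprod (L ++ L') = lprod L * lprod L' := by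
  rw [lprod, List.map_append, List.prod_append]
  rfl

theorem exists_lprod (x : CoprodI M) : ∃ L : List (Σ i, M i), lprod L = x := by
  induction x using CoprodI.induction_on with
  | one => exact ⟨[], rfl⟩
  | of i m => exact ⟨[⟨i, m⟩], by rw [lprod_cons, lprod_nil, mul_one]⟩
  | mul x y hx hy =>
    obtain ⟨L, rfl⟩ := hx
    obtain ⟨L', rfl⟩ := hy
    exact ⟨L ++ L', lprod_append L L'⟩

theorem exists_split {α : Type} {R : α → α → Prop} : ∀ {L : List α}, ¬ L.IsChain R →
    ∃ l₁ a b l₂, L = l₁ ++ a :: b :: l₂ ∧ ¬ R a b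
  | [], h => (h List.isChain_nil).elim
  | [a], h => (h (List.isChain_singleton a)).elim
  | a :: b :: L, h => by
    by_cases hab : R a b
    · have h1 : ¬ (b :: L).IsChain R := fun h2 => h (List.isChain_cons_cons.2 ⟨hab, h2⟩)
      obtain ⟨l₁, c, d, l₂, h3, h4⟩ := exists_split h1
      exact ⟨a :: l₁, c, d, l₂, by rw [h3]; rfl, h4⟩
    · exact ⟨[], a, b, L, rfl, hab⟩

theorem neWord_prod_ne_one {i j : ι} (w : NeWord M i j) : w.prod ≠ 1 := by
  classical
  intro h
  have h1 : Word.prod w.toWord = Word.prod (Word.empty : Word M) := h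
  have h2 : w.toWord = Word.empty := by
    have := congrArg Word.equiv h1
    exact Word.equiv.symm.injective h1
  exact w.toList_ne_nil (congrArg Word.toList h2)

theorem neWord_pow {i j : ι} (w : NeWord M i j) (h : j ≠ i) (n : ℕ) :
    ∃ w' : NeWord M i j, w'.prod = w.prod ^ (n + 1) := by
  induction n with
  | zero => exact ⟨w, (pow_one _).symm⟩
  | succ n ih =>
    obtain ⟨w', h1⟩ := ih
    exact ⟨NeWord.append w' h w, by rw [NeWord.append_prod, h1, pow_succ _ (n + 1)]⟩

/-- Elements of finite order of a free product are conjugates of elements of the factors. -/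
theorem torsion_coprodI (x : CoprodI M) {n : ℕ} (hn : n ≠ 0) (h : x ^ n = 1) :
    x = 1 ∨ ∃ (i : ι) (g : M i) (y : CoprodI M), x = y * CoprodI.of g * y⁻¹ := by
  classical
  have hS : ∃ k : ℕ, ∃ (y : CoprodI M) (L : List (Σ i, M i)), L.length = k ∧ lprod L = y⁻¹ * x * y := by
    obtain ⟨L, hL⟩ := exists_lprod x
    exact ⟨L.length, 1, L, rfl, by rw [hL, inv_one, one_mul, mul_one]⟩
  obtain ⟨y, L, hk, hL⟩ := Nat.find_spec hS
  have hmin : ∀ (z : CoprodI M) (L' : List (Σ i, M i)), lprod L' = z⁻¹ * x * z → L.length ≤ L'.length := by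
    intro z L' h'
    rw [hk]
    exact Nat.find_min' hS ⟨z, L', rfl, h'⟩
  have hx : x = y * lprod L * y⁻¹ := by
    rw [hL, mul_assoc, mul_assoc, mul_assoc, mul_inv_cancel, mul_one, mul_inv_cancel_left]
  -- no trivial letters
  have h1 : ∀ l ∈ L, l.2 ≠ 1 := by
    intro l hl h2
    obtain ⟨l₁, l₂, rfl⟩ := List.append_of_mem hl
    have h3 : lprod (l₁ ++ l₂) = y⁻¹ * x * y := by
      rw [← hL, lprod_append, lprod_append, lprod_cons, h2, map_one, one_mul]
    have h4 := hmin y _ h3
    rw [List.length_append, List.length_append, List.length_cons] at h4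
    omega
  -- neighbours in different factors
  have h2 : L.IsChain (fun l l' => l.1 ≠ l'.1) := by
    by_contra h3
    obtain ⟨l₁, ⟨i, a⟩, ⟨j, b⟩, l₂, rfl, h4⟩ := exists_split h3
    have h5 : i = j := not_not.1 h4
    subst h5
    have h6 : lprod (l₁ ++ ⟨i, a * b⟩ :: l₂) = y⁻¹ * x * y := by
      rw [← hL, lprod_append, lprod_append, lprod_cons, lprod_cons, lprod_cons, map_mul, mul_assoc]
    have h7 := hmin y _ h6
    rw [List.length_append, List.length_append, List.length_cons, List.length_cons,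
      List.length_cons] at h7
    omega
  rcases L with _ | ⟨⟨i, a⟩, L⟩
  · left
    rw [hx, lprod_nil, mul_one, mul_inv_cancel]
  · right
    rcases List.eq_nil_or_concat L with rfl | ⟨m, ⟨j, b⟩, rfl⟩
    · exact ⟨i, a, y, by rw [hx, lprod_cons, lprod_nil, mul_one]⟩
    · exfalso
      have hij : j ≠ i := by
        intro h3
        subst h3
        have h4 : lprod (m ++ [⟨j, b * a⟩]) = (y * CoprodI.of a)⁻¹ * x * (y * CoprodI.of a) := by
          have h5 : x = y * lprod (⟨j, a⟩ :: (m ++ [⟨j, b⟩])) * y⁻¹ := by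
            rw [hx, List.concat_eq_append]
          rw [h5, lprod_cons, lprod_append, lprod_append, lprod_cons, lprod_cons, lprod_nil, mul_one,
            mul_one, map_mul]
          group
        have h5 := hmin _ _ h4
        rw [List.length_append, List.length_cons, List.length_cons, List.concat_eq_append,
          List.length_append, List.length_cons, List.length_nil] at h5
        omega
      let w : Word M := ⟨⟨i, a⟩ :: m.concat ⟨j, b⟩, h1, h2⟩
      have hw : w ≠ Word.empty := fun h3 => List.cons_ne_nil _ _ (congrArg Word.toList h3)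
      obtain ⟨i', j', w', h3⟩ := NeWord.of_word w hw
      have h4 : w'.toList = ⟨i, a⟩ :: m.concat ⟨j, b⟩ := congrArg Word.toList h3
      have hi : i' = i := by
        have h5 := w'.toList_head?
        rw [h4, List.head?_cons] at h5
        exact (congrArg Sigma.fst (Option.some_injective _ h5)).symm
      have hj : j' = j := by
        have h5 := w'.toList_getLast?
        rw [h4, List.concat_eq_append, ← List.cons_append, List.getLast?_concat] at h5
        exact (congrArg Sigma.fst (Option.some_injective _ h5)).symm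
      subst hi
      subst hj
      obtain ⟨n, rfl⟩ := Nat.exists_eq_succ_of_ne_zero hn
      obtain ⟨w'', h5⟩ := neWord_pow w' hij n
      refine neWord_prod_ne_one w'' ?_
      have h6 : w'.prod = y⁻¹ * x * y := by
        rw [← hL]
        change Word.prod w'.toWord = _
        rw [h3]
        rfl
      have h7 : (y⁻¹ * x * y) ^ (n + 1) = y⁻¹ * x ^ (n + 1) * y := by
        have := conj_pow (i := n + 1) (a := y⁻¹) (b := x)
        rwa [inv_inv] at this
      rw [h5, h6, h7, h, mul_one, inv_mul_cancel]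

end torsion

section free

open Monoid

variable {G H : Type} [Group G] [Group H]

/-- The two factors. -/
abbrev TwoF (G H : Type) : Bool → Type := fun b => Bool.rec G H b

instance (b : Bool) : Group (TwoF G H b) :=
  match b with
  | false => inferInstanceAs (Group G)
  | true => inferInstanceAs (Group H)

/-- The free product as an indexed free product. -/
noncomputable def toI (G H : Type) [Group G] [Group H] : Coprod G H →* CoprodI (TwoF G H) :=
  Coprod.lift (CoprodI.of (M := TwoF G H) (i := false)) (CoprodI.of (M := TwoF G H) (i := true))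

/-- Back. -/
noncomputable def ofI (G H : Type) [Group G] [Group H] : CoprodI (TwoF G H) →* Coprod G H :=
  CoprodI.lift fun b => match b with
    | false => (Coprod.inl : G →* Coprod G H)
    | true => (Coprod.inr : H →* Coprod G H)

theorem ofI_toI (x : Coprod G H) : ofI G H (toI G H x) = x := by
  have h : (ofI G H).comp (toI G H) = MonoidHom.id _ := by
    refine Coprod.hom_ext ?_ ?_
    · ext g
      change ofI G H (toI G H (Coprod.inl g)) = Coprod.inl g
      rw [toI, Coprod.lift_apply_inl, ofI, CoprodI.lift_of]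
    · ext g
      change ofI G H (toI G H (Coprod.inr g)) = Coprod.inr g
      rw [toI, Coprod.lift_apply_inr, ofI, CoprodI.lift_of]
  exact DFunLike.congr_fun h x

/-- The kernel of the homomorphism from the free product to the product is torsion free. -/
theorem torsion_free_ker {x : Coprod G H} (h1 : Coprod.fst x = 1) (h2 : Coprod.snd x = 1) {n : ℕ}
    (hn : n ≠ 0) (h : x ^ n = 1) : x = 1 := by
  have h3 : (toI G H x) ^ n = 1 := by rw [← map_pow, h, map_one]
  rcases torsion_coprodI _ hn h3 with h4 | ⟨b, g, y, h4⟩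
  · rw [← ofI_toI x, h4, map_one]
  · have h5 : x = ofI G H y * ofI G H (CoprodI.of g) * (ofI G H y)⁻¹ := by
      rw [← map_inv, ← map_mul, ← map_mul, ← h4, ofI_toI]
    have h6 : ofI G H (CoprodI.of g) = 1 := by
      cases b
      · have h7 : ofI G H (CoprodI.of g) = Coprod.inl g := by rw [ofI, CoprodI.lift_of]
        have h8 : Coprod.fst x = Coprod.fst (ofI G H y) * g * (Coprod.fst (ofI G H y))⁻¹ := by
          rw [h5, h7, map_mul, map_mul, map_inv, Coprod.fst_apply_inl]
        rw [h1] at h8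
        have h9 : g = 1 := by
          have h10 := congrArg (fun z => (Coprod.fst (ofI G H y))⁻¹ * z * Coprod.fst (ofI G H y)) h8
          simp only [mul_one, inv_mul_cancel] at h10
          rw [h10]
          group
        rw [h7, h9]
        exact map_one _
      · have h7 : ofI G H (CoprodI.of g) = Coprod.inr g := by rw [ofI, CoprodI.lift_of]
        have h8 : Coprod.snd x = Coprod.snd (ofI G H y) * g * (Coprod.snd (ofI G H y))⁻¹ := by
          rw [h5, h7, map_mul, map_mul, map_inv, Coprod.snd_apply_inr]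
        rw [h2] at h8
        have h9 : g = 1 := by
          have h10 := congrArg (fun z => (Coprod.snd (ofI G H y))⁻¹ * z * Coprod.snd (ofI G H y)) h8
          simp only [mul_one, inv_mul_cancel] at h10
          rw [h10]
          group
        rw [h7, h9]
        exact map_one _
    rw [h5, h6, mul_one, mul_inv_cancel]

end free

section thom

variable {G H : Type} [Group G] [Group H]

/-- The relations of Thompson's group `T` (Cannon, Floyd and Parry). -/
structure Thom (a b c : G) : Prop where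
  r1 : a * b⁻¹ * (a⁻¹ * b * a) = a⁻¹ * b * a * (a * b⁻¹)
  r2 : a * b⁻¹ * (a⁻¹ * a⁻¹ * b * a * a) = a⁻¹ * a⁻¹ * b * a * a * (a * b⁻¹)
  r3 : c = b * (a⁻¹ * c * b)
  r4 : a⁻¹ * c * b * (a⁻¹ * b * a) = b * (a⁻¹ * a⁻¹ * c * b * b)
  r5 : c * a = a⁻¹ * c * b * (a⁻¹ * c * b)
  r6 : c * c * c = 1

namespace Thom

variable {a b c : G}

theorem map (f : G →* H) (h : Thom a b c) : Thom (f a) (f b) (f c) where
  r1 := by
    have := congrArg f h.r1
    simpa only [map_mul, map_inv] using this
  r2 := by
    have := congrArg f h.r2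
    simpa only [map_mul, map_inv] using this
  r3 := by
    have := congrArg f h.r3
    simpa only [map_mul, map_inv] using this
  r4 := by
    have := congrArg f h.r4
    simpa only [map_mul, map_inv] using this
  r5 := by
    have := congrArg f h.r5
    simpa only [map_mul, map_inv] using this
  r6 := by
    have := congrArg f h.r6
    simpa only [map_mul, map_one] using this

/-- If `a` and `b` commute then all is trivial. -/
theorem eq_one_of_comm (h : Thom a b c) (hab : a * b = b * a) : a = 1 ∧ b = 1 ∧ c = 1 := by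
  have e1 : a⁻¹ * b = b * a⁻¹ := by
    rw [inv_mul_eq_iff_eq_mul, ← mul_assoc, hab, mul_assoc, mul_inv_cancel, mul_one]
  have e2 : a⁻¹ * b * a = b := by rw [e1, mul_assoc, inv_mul_cancel, mul_one]
  have h4 := h.r4
  rw [e2] at h4
  -- a⁻¹ c b b = b a⁻¹ a⁻¹ c b b
  have h5 : a⁻¹ = b * (a⁻¹ * a⁻¹) := by
    have h6 : a⁻¹ * (c * b * b) = b * (a⁻¹ * a⁻¹) * (c * b * b) := by
      simpa only [mul_assoc] using h4
    exact mul_right_cancel h6
  have h6 : a = b := by
    have h7 : a⁻¹ * (a * a) = b * (a⁻¹ * a⁻¹) * (a * a) := by rw [← h5]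
    rw [inv_mul_cancel_left] at h7
    rw [h7]
    group
  have h7 := h.r3
  rw [h6, ← mul_assoc, ← mul_assoc, mul_inv_cancel, one_mul] at h7
  have hb : b = 1 := by
    have h8 : c * 1 = c * b := by rw [mul_one]; exact h7
    exact (mul_left_cancel h8).symm
  have ha : a = 1 := h6.trans hb
  have h8 := h.r5
  rw [ha, hb, inv_one, one_mul, mul_one] at h8
  have hc : c = 1 := by
    have h9 : c * 1 = c * c := by rw [mul_one]; exact h8
    exact (mul_left_cancel h9).symm
  exact ⟨ha, hb, hc⟩

/-- The conjugates of `b` by the powers of `a`. -/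
def y (a b : G) (n : ℕ) : G := a⁻¹ ^ n * b * a ^ n

theorem y_succ (a b : G) (n : ℕ) : y a b (n + 1) = a⁻¹ * y a b n * a := by
  rw [y, y, pow_succ' a⁻¹, pow_succ a]
  group

theorem conj_y {n m : ℕ} (e : b⁻¹ * y a b n * b = y a b m) (k : ℕ) :
    (y a b k)⁻¹ * y a b (k + n) * y a b k = y a b (k + m) := by
  have h1 : ∀ j, y a b (k + j) = a⁻¹ ^ k * y a b j * a ^ k := by
    intro j
    rw [y, y, pow_add, Nat.add_comm k j, pow_add a j k, ← pow_add a⁻¹ k j, Nat.add_comm k j,
      pow_add a⁻¹ j k, ← pow_add, Nat.add_comm j k, pow_add]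
    simp only [mul_assoc]
  rw [h1 n, h1 m, ← e]
  change (a⁻¹ ^ k * b * a ^ k)⁻¹ * (a⁻¹ ^ k * y a b n * a ^ k) * (a⁻¹ ^ k * b * a ^ k) = _
  rw [inv_pow]
  group

theorem conj_one (h : Thom a b c) : b⁻¹ * y a b 1 * b = y a b 2 := by
  have h1 := h.r1
  have e1 : y a b 1 = a⁻¹ * b * a := by rw [y, pow_one, pow_one]
  rw [y_succ a b 1, e1]
  have h2 : b⁻¹ * (a⁻¹ * b * a) = a⁻¹ * (a⁻¹ * b * a * (a * b⁻¹)) := by
    rw [← h1]
    group
  rw [h2]
  group

theorem conj_two (h : Thom a b c) : b⁻¹ * y a b 2 * b = y a b 3 := by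
  have h1 := h.r2
  have e1 : y a b 2 = a⁻¹ * a⁻¹ * b * a * a := by
    rw [y, pow_two, pow_two]
    group
  rw [y_succ a b 2, e1]
  have h2 : b⁻¹ * (a⁻¹ * a⁻¹ * b * a * a) = a⁻¹ * (a⁻¹ * a⁻¹ * b * a * a * (a * b⁻¹)) := by
    rw [← h1]
    group
  rw [h2]
  group

theorem conj_all (h : Thom a b c) (m : ℕ) :
    b⁻¹ * y a b (m + 1) * b = y a b (m + 2) ∧ b⁻¹ * y a b (m + 2) * b = y a b (m + 3) := by
  induction m with
  | zero => exact ⟨h.conj_one, h.conj_two⟩
  | succ m ih =>
    refine ⟨ih.2, ?_⟩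
    have h1 := conj_y h.conj_one (m + 1)
    have h2 := conj_y h.conj_one (m + 2)
    -- y (m+3) = y (m+1)⁻¹ y (m+2) y (m+1)
    have h3 : b⁻¹ * y a b (m + 1 + 2) * b = (b⁻¹ * y a b (m + 1) * b)⁻¹ *
        (b⁻¹ * y a b (m + 1 + 1) * b) * (b⁻¹ * y a b (m + 1) * b) := by
      rw [← h1]
      group
    rw [h3, ih.1]
    change (y a b (m + 2))⁻¹ * (b⁻¹ * y a b (m + 2) * b) * y a b (m + 2) = _
    rw [ih.2]
    exact h2

/-- If `a` has finite order then all is trivial. -/
theorem eq_one_of_pow (h : Thom a b c) {n : ℕ} (hn : n ≠ 0) (ha : a ^ n = 1) :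
    a = 1 ∧ b = 1 ∧ c = 1 := by
  refine h.eq_one_of_comm ?_
  obtain ⟨m, rfl⟩ := Nat.exists_eq_succ_of_ne_zero hn
  have e0 : y a b (m + 1) = b := by
    rw [y, inv_pow, ha, inv_one, one_mul, mul_one]
  have e1 : y a b (m + 2) = y a b 1 := by
    rw [y_succ a b (m + 1), e0, y, pow_one, pow_one]
  have h1 := (h.conj_all m).1
  rw [e0, e1, inv_mul_cancel, one_mul, y, pow_one, pow_one, mul_assoc] at h1
  have h2 : a * b = a * (a⁻¹ * (b * a)) := congrArg (fun z => a * z) h1
  rw [h2, mul_inv_cancel_left]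

end Thom

/-- Only the trivial solution. -/
def NoT (G : Type) [Group G] : Prop := ∀ a b c : G, Thom a b c → a = 1 ∧ b = 1 ∧ c = 1

theorem noT_of_injective (f : G →* H) (hf : Function.Injective f) (h : NoT H) : NoT G := by
  intro a b c ht
  obtain ⟨h1, h2, h3⟩ := h _ _ _ (ht.map f)
  exact ⟨hf (h1.trans (map_one f).symm), hf (h2.trans (map_one f).symm), hf (h3.trans (map_one f).symm)⟩

theorem noT_finite [Finite G] : NoT G := by
  intro a b c ht
  obtain ⟨n, hn, h⟩ := (isOfFinOrder_of_finite a).exists_pow_eq_one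
  exact ht.eq_one_of_pow (Nat.pos_iff_ne_zero.1 hn) h

/-- Extensions. -/
theorem noT_ext (p : G →* H) (hH : NoT H) (hK : NoT p.ker) : NoT G := by
  intro a b c ht
  obtain ⟨h1, h2, h3⟩ := hH _ _ _ (ht.map p)
  have h4 : Thom (⟨a, h1⟩ : p.ker) ⟨b, h2⟩ ⟨c, h3⟩ :=
    ⟨Subtype.ext ht.r1, Subtype.ext ht.r2, Subtype.ext ht.r3, Subtype.ext ht.r4, Subtype.ext ht.r5,
      Subtype.ext ht.r6⟩
  obtain ⟨h5, h6, h7⟩ := hK _ _ _ h4
  exact ⟨congrArg Subtype.val h5, congrArg Subtype.val h6, congrArg Subtype.val h7⟩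

/-- **The class of the groups without nontrivial solutions of the relations of Thompson's group `T`.** -/
theorem extClass_noT : ExtClass fun G _ => NoT G where
  iso G H _ _ e h := noT_of_injective e.symm.toMonoidHom e.symm.injective h
  finite G _ _ := noT_finite
  int := fun a b c ht => ht.eq_one_of_comm (mul_comm a b)
  subgroup G _ H h := noT_of_injective H.subtype H.subtype_injective h
  prod G H _ _ hG hH := by
    intro a b c ht
    obtain ⟨h1, h2, h3⟩ := hG _ _ _ (ht.map (MonoidHom.fst G H))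
    obtain ⟨h4, h5, h6⟩ := hH _ _ _ (ht.map (MonoidHom.snd G H))
    exact ⟨Prod.ext h1 h4, Prod.ext h2 h5, Prod.ext h3 h6⟩
  freeProd G H _ _ hG hH := by
    intro a b c ht
    obtain ⟨h1, h2, h3⟩ := hG _ _ _ (ht.map Monoid.Coprod.fst)
    obtain ⟨h4, h5, h6⟩ := hH _ _ _ (ht.map Monoid.Coprod.snd)
    have hc : c = 1 := torsion_free_ker h3 h6 (n := 3) (by omega) (by
      rw [pow_succ, pow_two]
      exact ht.r6)
    have h7 := ht.r3
    have h8 := ht.r5
    rw [hc, mul_one] at h7 h8
    rw [one_mul] at h8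
    -- 1 = b a⁻¹ b, a = a⁻¹ b a⁻¹ b
    have h9 : a = b * b := by
      have : b * b = b * b := rfl
      have h10 : b⁻¹ * 1 * b⁻¹ = b⁻¹ * (b * (a⁻¹ * b)) * b⁻¹ := by rw [← h7]
      have h11 : b⁻¹ * b⁻¹ = a⁻¹ := by
        rw [mul_one] at h10
        rw [h10]
        group
      rw [← inv_inv a, ← h11, mul_inv_rev, inv_inv]
    have h10 : b ^ 4 = 1 := by
      rw [h9] at h8
      have h11 : b * b * (b * b) = (b * b)⁻¹ * b * ((b * b)⁻¹ * b) * (b * b) := by rw [← h8]
      have h12 : b ^ 4 = b * b * (b * b) := by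
        rw [pow_succ, pow_succ, pow_two, mul_assoc]
      rw [h12, h11]
      group
    have hb : b = 1 := torsion_free_ker h2 h5 (by omega) h10
    exact ⟨by rw [h9, hb, mul_one], hb, hc⟩
  finiteIndex G _ H hf h := by
    intro a b c ht
    have h1 : NoT (G ⧸ H.normalCore) := noT_finite
    refine noT_ext (QuotientGroup.mk' H.normalCore) h1 ?_ a b c ht
    rw [QuotientGroup.ker_mk']
    exact noT_of_injective (Subgroup.inclusion H.normalCore_le) (Subgroup.inclusion_injective _) h
  colimit I _ _ _ G _ f hf L _ g hg hs hk hC := by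
    intro a b c ht
    obtain ⟨i, x, hx⟩ := hs a
    obtain ⟨j, y, hy⟩ := hs b
    obtain ⟨k, z, hz⟩ := hs c
    obtain ⟨l, hil, hjl⟩ := exists_ge_ge i j
    obtain ⟨m, hlm, hkm⟩ := exists_ge_ge l k
    -- all three in `G m`
    obtain ⟨x, hx⟩ : ∃ x : G m, g m x = a := ⟨f i m (hil.trans hlm) x, by rw [hg]; exact hx⟩
    obtain ⟨y, hy⟩ : ∃ y : G m, g m y = b := ⟨f j m (hjl.trans hlm) y, by rw [hg]; exact hy⟩
    obtain ⟨z, hz⟩ : ∃ z : G m, g m z = c := ⟨f k m hkm z, by rw [hg]; exact hz⟩
    have key : ∀ (u v : G m), g m u = g m v → ∃ j, ∃ _ : m ≤ j, ∀ k (_ : j ≤ k) (h : m ≤ k),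
        f m k h u = f m k h v := by
      intro u v huv
      obtain ⟨j, hj, h1⟩ := hk m (u * v⁻¹) (by rw [map_mul, map_inv, huv, mul_inv_cancel])
      refine ⟨j, hj, fun k h' h => ?_⟩
      have h2 := congrArg (f j k h') h1
      rw [hf, map_one, map_mul, map_inv, mul_inv_eq_one] at h2
      exact h2
    rw [← hx, ← hy, ← hz] at ht
    obtain ⟨j1, e1, k1⟩ := key (x * y⁻¹ * (x⁻¹ * y * x)) (x⁻¹ * y * x * (x * y⁻¹)) (by
      simp only [map_mul, map_inv]
      exact ht.r1)
    obtain ⟨j2, e2, k2⟩ := key (x * y⁻¹ * (x⁻¹ * x⁻¹ * y * x * x)) (x⁻¹ * x⁻¹ * y * x * x * (x * y⁻¹)) (by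
      simp only [map_mul, map_inv]
      exact ht.r2)
    obtain ⟨j3, e3, k3⟩ := key z (y * (x⁻¹ * z * y)) (by
      simp only [map_mul, map_inv]
      exact ht.r3)
    obtain ⟨j4, e4, k4⟩ := key (x⁻¹ * z * y * (x⁻¹ * y * x)) (y * (x⁻¹ * x⁻¹ * z * y * y)) (by
      simp only [map_mul, map_inv]
      exact ht.r4)
    obtain ⟨j5, e5, k5⟩ := key (z * x) (x⁻¹ * z * y * (x⁻¹ * z * y)) (by
      simp only [map_mul, map_inv]
      exact ht.r5)
    obtain ⟨j6, e6, k6⟩ := key (z * z * z) 1 (by
      simp only [map_mul, map_one]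
      exact ht.r6)
    obtain ⟨l1, u1, u2⟩ := exists_ge_ge j1 j2
    obtain ⟨l2, u3, u4⟩ := exists_ge_ge j3 j4
    obtain ⟨l3, u5, u6⟩ := exists_ge_ge j5 j6
    obtain ⟨l4, u7, u8⟩ := exists_ge_ge l1 l2
    obtain ⟨l, u9, u10⟩ := exists_ge_ge l4 l3
    have hml : m ≤ l := e1.trans (u1.trans (u7.trans u9))
    have hT : Thom (f m l hml x) (f m l hml y) (f m l hml z) := by
      refine ⟨?_, ?_, ?_, ?_, ?_, ?_⟩
      · have := k1 l (u1.trans (u7.trans u9)) hml
        simpa only [map_mul, map_inv] using this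
      · have := k2 l (u2.trans (u7.trans u9)) hml
        simpa only [map_mul, map_inv] using this
      · have := k3 l (u3.trans (u8.trans u9)) hml
        simpa only [map_mul, map_inv] using this
      · have := k4 l (u4.trans (u8.trans u9)) hml
        simpa only [map_mul, map_inv] using this
      · have := k5 l (u5.trans u10) hml
        simpa only [map_mul, map_inv] using this
      · have := k6 l (u6.trans u10) hml
        simpa only [map_mul, map_one] using this
    obtain ⟨v1, v2, v3⟩ := hC l _ _ _ hT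
    refine ⟨?_, ?_, ?_⟩
    · rw [← hx, ← hg m l hml, v1, map_one]
    · rw [← hy, ← hg m l hml, v2, map_one]
    · rw [← hz, ← hg m l hml, v3, map_one]
  ext G Q _ _ p hQ h := by
    refine noT_ext p hQ ?_
    have h1 := h 1
    rw [Subgroup.zpowers_one_eq_bot] at h1
    exact h1

end thom

end Pool.Agent.ZT
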