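import Pool.Agent.ZT.Ref

/-!
# The transition homomorphisms

For a finer colouring the level group maps to the level group of the finer colouring.
-/

set_option autoImplicit false

namespace Pool.Agent.ZT

variable {A P : Type}

/-! ### Products of commuting elements -/

theorem list_commute {G : Type} [Group G] (x : G) (B : ℕ → G) (n : ℕ)
    (h : ∀ v, Commute x (B v)) : Commute x ((List.range n).map B).prod := by
  induction n with
  | zero => exact Commute.one_right _
  | succ n ih =>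
    rw [List.range_succ, List.map_append, List.prod_append, List.map_cons, List.map_nil,
      List.prod_cons, List.prod_nil, mul_one]
    exact ih.mul_right (h n)

theorem prod_map_mul' {G : Type} [Group G] (f g : ℕ → G) (n : ℕ)
    (h : ∀ v w, Commute (f v) (g w)) :
    ((List.range n).map fun v => f v * g v).prod =
      ((List.range n).map f).prod * ((List.range n).map g).prod := by
  induction n with
  | zero => simp
  | succ n ih =>
    have h1 := list_commute (f n) g n fun v => h n v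
    simp only [List.range_succ, List.map_append, List.prod_append, List.map_cons, List.map_nil,
      List.prod_cons, List.prod_nil, mul_one]
    rw [ih]
    simp only [mul_assoc]
    congr 1
    rw [← mul_assoc, ← mul_assoc, h1.eq]

theorem prod_map_one' {G : Type} [Group G] (f : ℕ → G) (n : ℕ) (h : ∀ v < n, f v = 1) :
    ((List.range n).map f).prod = 1 := by
  induction n with
  | zero => rfl
  | succ n ih =>
    rw [List.range_succ, List.map_append, List.prod_append, ih fun v hv => h v (by omega)]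
    simp [h n (by omega)]

theorem prod_map_single {G : Type} [Group G] (g : G) (k n : ℕ) (h : k < n ∨ g = 1) :
    ((List.range n).map fun v => if k = v then g else 1).prod = g := by
  by_cases hg : g = 1
  · rw [hg]
    exact prod_map_one' _ _ fun v _ => by simp
  have hk := h.resolve_right hg
  clear h
  induction n with
  | zero => omega
  | succ n ih =>
    rw [List.range_succ, List.map_append, List.prod_append]
    by_cases h1 : k < n
    · have h2 : k ≠ n := by omega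
      rw [ih h1]
      simp [h2]
    · have h2 : k = n := by omega
      subst h2
      rw [prod_map_one' _ _ fun v hv => if_neg (by omega)]
      simp

theorem prod_prod {G : Type} [Group G] (g : ℕ → G) (hg : ∀ u v, Commute (g u) (g v)) (φ : ℕ → ℕ)
    (N n : ℕ) (h : ∀ u, φ u < N ∨ g u = 1) :
    ((List.range N).map fun v => ((List.range n).map fun u => if φ u = v then g u else 1).prod).prod =
      ((List.range n).map g).prod := by
  induction n with
  | zero =>
    simp only [List.range_zero, List.map_nil, List.prod_nil]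
    exact prod_map_one' _ _ fun _ _ => rfl
  | succ n ih =>
    have h1 : ∀ v, ((List.range (n + 1)).map fun u => if φ u = v then g u else 1).prod =
        ((List.range n).map fun u => if φ u = v then g u else 1).prod *
          if φ n = v then g n else 1 := by
      intro v
      rw [List.range_succ, List.map_append, List.prod_append]
      simp
    have h2 : ∀ (w : ℕ) (x : G), (∀ u, Commute x (g u)) → Commute x
        ((List.range n).map fun u => if φ u = w then g u else 1).prod := by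
      intro w x hx
      refine list_commute _ _ _ fun u => ?_
      split_ifs
      · exact hx u
      · exact Commute.one_right _
    simp only [h1]
    rw [prod_map_mul', ih, prod_map_single _ _ _ (h n), List.range_succ, List.map_append,
      List.prod_append]
    · simp
    · intro v w
      refine Commute.symm ?_
      split_ifs
      · exact h2 v _ fun u => hg n u
      · exact Commute.one_left _

/-! ### The homomorphism of right-angled Artin groups -/

theorem Inj.mono {L M : Set (P × P)} (h : Inj M) (hL : L ⊆ M) : Inj L :=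
  fun p p' x h1 h2 => h p p' x (hL h1) (hL h2)

theorem inj_rel {q : Equiv.Perm P} {L : Set (P × P)} : Inj (rel q L) ↔ Inj L := by
  constructor
  · intro h p p' x h1 h2
    exact h p p' (q x) (mem_rel'.2 h1) (mem_rel'.2 h2)
  · intro h p p' x h1 h2
    exact h p p' (q⁻¹ x) h1 h2

namespace Gr

theorem pc_sub (T : Gr A P) (a : A) (L : Set (P × P)) (v : ℕ) : T.pc a L v ⊆ L := fun _ h => h.1

theorem pp_comm (T : Gr A P) {ℓ m : Lt A P} (h : R ℓ m) (n : ℕ) :
    T.pp ℓ n * T.pp m n = T.pp m n * T.pp ℓ n := by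
  refine Commute.eq ?_
  refine list_commute _ _ _ fun v => Commute.symm (list_commute _ _ _ fun w => ?_)
  refine ltg_comm fun x hx hx' => h.2.2 x ?_ ?_
  · exact im_mono (T.pc_sub _ _ _) hx'
  · exact im_mono (T.pc_sub _ _ _) hx

theorem pp_empty (T : Gr A P) {ℓ : Lt A P} (h : ¬ ℓ.2.Nonempty) (n : ℕ) : T.pp ℓ n = 1 := by
  refine prod_map_one' _ _ fun v _ => ltg_empty ?_
  rintro ⟨z, hz⟩
  exact h ⟨z, hz.1⟩

open Classical in
/-- The image of a generator. -/
noncomputable def pg (T : Gr A P) (n : ℕ) (ℓ : Lt A P) : RA (R (A := A) (P := P)) :=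
  if Inj ℓ.2 then T.pp ℓ n else 1

theorem pg_pos (T : Gr A P) (n : ℕ) {ℓ : Lt A P} (h : Inj ℓ.2) : T.pg n ℓ = T.pp ℓ n := if_pos h

theorem pg_neg (T : Gr A P) (n : ℕ) {ℓ : Lt A P} (h : ¬ Inj ℓ.2) : T.pg n ℓ = 1 := if_neg h

/-- The homomorphism of right-angled Artin groups. -/
noncomputable def tr (T : Gr A P) (n : ℕ) :
    RA (R (A := A) (P := P)) →* RA (R (A := A) (P := P)) :=
  raLift (T.pg n) fun ℓ m h => by
    by_cases h1 : Inj ℓ.2
    · by_cases h2 : Inj m.2
      · rw [T.pg_pos n h1, T.pg_pos n h2, T.pp_comm h]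
      · rw [T.pg_neg n h2, mul_one, one_mul]
    · rw [T.pg_neg n h1, mul_one, one_mul]

theorem tr_gen (T : Gr A P) (n : ℕ) (ℓ : Lt A P) : T.tr n (gen R ℓ) = T.pg n ℓ := by
  unfold tr
  rw [raLift_gen]

theorem tr_ltg (T : Gr A P) (n : ℕ) {ℓ : Lt A P} (h : Inj ℓ.2) : T.tr n (ltg ℓ) = T.pp ℓ n := by
  by_cases h1 : ℓ.2.Nonempty
  · rw [ltg_ne h1, tr_gen, T.pg_pos n h]
  · rw [ltg_empty h1, map_one, T.pp_empty h1]

/-- Functoriality. -/
theorem tr_tr (T : Gr A P) (μ : P → ℕ) (φ : ℕ → ℕ) (hφ : ∀ p, T.ν p = φ (μ p)) {n : ℕ}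
    (hn : ∀ p, T.ν p < n) (m : ℕ) (x : RA (R (A := A) (P := P))) :
    (T.re μ).tr m (T.tr n x) = (T.re μ).tr m x := by
  have h : ((T.re μ).tr m).comp (T.tr n) = (T.re μ).tr m := by
    refine ra_hom_ext fun ℓ => ?_
    obtain ⟨a, L⟩ := ℓ
    rw [MonoidHom.comp_apply, tr_gen, tr_gen]
    by_cases h1 : Inj L
    · have h1' : Inj (a, L).2 := h1
      rw [T.pg_pos n h1', (T.re μ).pg_pos m h1']
      unfold pp
      rw [map_list_prod, List.map_map]
      change ((List.range n).map fun v => (T.re μ).tr m (ltg (a, T.pc a L v))).prod =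
        ((List.range m).map fun u => ltg (a, (T.re μ).pc a L u)).prod
      have h2 : ∀ v, (T.re μ).tr m (ltg (a, T.pc a L v)) = ((List.range m).map fun u =>
          if φ u = v then (ltg (a, (T.re μ).pc a L u) : RA (R (A := A) (P := P))) else 1).prod := by
        intro v
        rw [(T.re μ).tr_ltg m (ℓ := (a, T.pc a L v)) (h1.mono (T.pc_sub a L v))]
        unfold pp
        congr 1
        refine List.map_congr_left fun u _ => ?_
        change ltg (a, (T.re μ).pc a (T.pc a L v) u) = _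
        split_ifs with h3
        · congr 2
          ext z
          change ((z ∈ L ∧ T.ν (T.σ a z.1) = v) ∧ μ (T.σ a z.1) = u) ↔
            (z ∈ L ∧ μ (T.σ a z.1) = u)
          constructor
          · rintro ⟨⟨h4, h5⟩, h6⟩
            exact ⟨h4, h6⟩
          · rintro ⟨h4, h6⟩
            exact ⟨⟨h4, by rw [hφ, h6, h3]⟩, h6⟩
        · refine ltg_empty ?_
          rintro ⟨z, ⟨h4, h5⟩, h6⟩
          change T.ν (T.σ a z.1) = v at h5
          change μ (T.σ a z.1) = u at h6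
          rw [hφ, h6] at h5
          exact h3 h5
      simp only [h2]
      refine prod_prod _ (fun u w => ?_) φ n m fun u => ?_
      · by_cases huw : u = w
        · rw [huw]
        · refine ltg_comm fun x hx hx' => ?_
          obtain ⟨p, hp, hp1⟩ := hx
          obtain ⟨p', hp', hp1'⟩ := hx'
          obtain rfl := h1 p p' x hp hp'
          exact huw (hp1.symm.trans hp1')
      · by_cases h3 : ((T.re μ).pc a L u).Nonempty
        · obtain ⟨z, hz, h4⟩ := h3
          change μ (T.σ a z.1) = u at h4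
          left
          rw [← h4, ← hφ]
          exact hn _
        · exact Or.inr (ltg_empty h3)
    · have h1' : ¬ Inj (a, L).2 := h1
      rw [T.pg_neg n h1', (T.re μ).pg_neg m h1', map_one]
  exact DFunLike.congr_fun h x

theorem act_pp (T : Gr A P) (q : T.Ln) (ℓ : Lt A P) (n : ℕ) :
    T.act q (T.pp ℓ n) = T.pp (q • ℓ) n := by
  unfold pp
  rw [map_list_prod, List.map_map]
  congr 1
  refine List.map_congr_left fun v _ => ?_
  exact act_ltg q _

theorem tr_act (T : Gr A P) (q : T.Ln) (n : ℕ) (x : RA (R (A := A) (P := P))) :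
    T.tr n (T.act q x) = T.act q (T.tr n x) := by
  have h : (T.tr n).comp (T.act q).toMonoidHom = (T.act q).toMonoidHom.comp (T.tr n) := by
    refine ra_hom_ext fun ℓ => ?_
    change T.tr n (T.act q (gen R ℓ)) = T.act q (T.tr n (gen R ℓ))
    rw [Gr.act, raAct_gen, tr_gen, tr_gen]
    by_cases h1 : Inj ℓ.2
    · have h2 : Inj (q • ℓ : Lt A P).2 := inj_rel.2 h1
      rw [T.pg_pos n h1, T.pg_pos n h2]
      exact (T.act_pp q ℓ n).symm
    · have h2 : ¬ Inj (q • ℓ : Lt A P).2 := fun h => h1 (inj_rel.1 h)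
      rw [T.pg_neg n h1, T.pg_neg n h2, map_one]
  exact DFunLike.congr_fun h x

/-! ### The refined runs -/

variable {S : Gr A P} {μ : P → ℕ} {φ : ℕ → ℕ}

variable (S μ) in
/-- The refined state. -/
def rfn (c : Set (Set (P × P))) : Set (Set (P × P)) := {τ' | ∃ τ ∈ c, τ' ∈ (S.re μ).parts τ}

theorem ty_re (hφ : ∀ p, S.ν p = φ (μ p)) (p : P) :
    S.ty p = (φ ((S.re μ).ty p).1, fun a => φ (((S.re μ).ty p).2 a)) := by
  unfold ty
  rw [hφ]
  congr 1
  funext a
  rw [hφ]
  rfl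

theorem ty_of_re (hφ : ∀ p, S.ν p = φ (μ p)) {p q : P} (h : (S.re μ).ty p = (S.re μ).ty q) :
    S.ty p = S.ty q := by
  rw [ty_re hφ, ty_re hφ, h]

theorem parts_re (hφ : ∀ p, S.ν p = φ (μ p)) (L : Set (P × P)) :
    (S.re μ).parts L = S.rfn μ (S.parts L) := by
  have h1 : ∀ z ∈ L, (S.re μ).pt ((S.re μ).ty z.1) (S.pt (S.ty z.1) L) =
      (S.re μ).pt ((S.re μ).ty z.1) L := by
    intro z hz
    ext y
    constructor
    · rintro ⟨⟨h1, h2⟩, h3⟩
      exact ⟨h1, h3⟩
    · rintro ⟨h1, h3⟩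
      exact ⟨⟨h1, ty_of_re hφ h3⟩, h3⟩
  ext τ'
  constructor
  · rintro ⟨⟨z, h0⟩, e, rfl⟩
    obtain ⟨hz, h2⟩ := h0
    subst h2
    refine ⟨_, pt_mem_parts hz, ?_⟩
    rw [← h1 z hz]
    exact pt_mem_parts ⟨hz, rfl⟩
  · rintro ⟨τ, ⟨-, e, rfl⟩, ⟨z, h0⟩, e', rfl⟩
    obtain ⟨⟨hz, h2⟩, h3⟩ := h0
    subst h2 h3
    rw [h1 z hz]
    exact pt_mem_parts hz

theorem B_re (hφ : ∀ p, S.ν p = φ (μ p)) (q : Equiv.Perm P) :
    (S.re μ).B q = S.rfn μ (S.B q) := parts_re hφ _

theorem rfn_union (c d : Set (Set (P × P))) : S.rfn μ (c ∪ d) = S.rfn μ c ∪ S.rfn μ d := by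
  ext τ
  constructor
  · rintro ⟨t, ht | ht, h⟩
    · exact Or.inl ⟨t, ht, h⟩
    · exact Or.inr ⟨t, ht, h⟩
  · rintro (⟨t, ht, h⟩ | ⟨t, ht, h⟩)
    · exact ⟨t, Or.inl ht, h⟩
    · exact ⟨t, Or.inr ht, h⟩

theorem Valid.rfn_sdiff {c d : Set (Set (P × P))} (hc : S.Valid c) (hd : d ⊆ c) :
    S.rfn μ (c \ d) = S.rfn μ c \ S.rfn μ d := by
  ext τ
  constructor
  · rintro ⟨t, ⟨ht, ht'⟩, h⟩
    refine ⟨⟨t, ht, h⟩, ?_⟩
    rintro ⟨t₂, ht₂, h₂⟩
    obtain ⟨x, hx⟩ := ne_im h.1
    have h1 := hc.dis t ht t₂ (hd ht₂) x (im_mono (parts_sub h) hx) (im_mono (parts_sub h₂) hx)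
    rw [h1] at ht'
    exact ht' ht₂
  · rintro ⟨⟨t, ht, h⟩, h'⟩
    exact ⟨t, ⟨ht, fun h1 => h' ⟨t, h1, h⟩⟩, h⟩

theorem Valid.rfn {c : Set (Set (P × P))} (hφ : ∀ p, S.ν p = φ (μ p)) (hc : S.Valid c) :
    (S.re μ).Valid (S.rfn μ c) := by
  refine ⟨?_, ?_, ?_⟩
  · rintro τ ⟨t, ht, h⟩
    have h1 := hc.tok t ht
    obtain ⟨⟨p₀, x₀⟩, h0⟩ := h.1
    refine ⟨h.1, ⟨(S.re μ).ty p₀, fun p => ?_⟩, ?_, ?_, ?_⟩
    · obtain ⟨-, e, rfl⟩ := h
      obtain ⟨h2, h3⟩ := h0
      change (S.re μ).ty p₀ = e at h3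
      obtain ⟨e', he'⟩ := h1.full
      constructor
      · rintro ⟨x, -, h4⟩
        exact h4.trans h3.symm
      · intro h4
        obtain ⟨x, hx⟩ := (he' p).2 ((ty_of_re hφ h4).trans ((he' p₀).1 ⟨_, h2⟩))
        exact ⟨x, hx, h4.trans h3⟩
    · exact fun p x x' h2 h3 => h1.fn p x x' (parts_sub h h2) (parts_sub h h3)
    · exact fun p p' x h2 h3 => h1.inj p p' x (parts_sub h h2) (parts_sub h h3)
    · exact fun p x h2 => h1.line p x (parts_sub h h2)
  · rintro τ ⟨t, ht, h⟩ τ' ⟨t', ht', h'⟩ x hx hx'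
    obtain rfl := hc.dis t ht t' ht' x (im_mono (parts_sub h) hx) (im_mono (parts_sub h') hx')
    obtain ⟨p, hp⟩ := hx
    obtain ⟨p', hp'⟩ := hx'
    obtain rfl := (hc.tok t ht).inj p p' x (parts_sub h hp) (parts_sub h' hp')
    exact parts_eq h h' hp hp'
  · intro x
    obtain ⟨t, ht, p, hp⟩ := hc.cover x
    exact ⟨_, ⟨t, ht, pt_mem_parts hp⟩, p, hp, rfl⟩

theorem Valid.inj_let {c : Set (Set (P × P))} (hc : S.Valid c) {ℓ : Lt A P} {ε : Bool}
    (h : S.tk ℓ ε ⊆ c) : Inj ℓ.2 := by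
  have h1 := (hc.side_props h).2.1
  cases ε
  · exact (side_props_not (hc.side_props h)).2.1
  · exact h1

theorem Valid.step_re (hφ : ∀ p, S.ν p = φ (μ p)) {n : ℕ} (hn : ∀ p, μ p < n)
    {c c' : Set (Set (P × P))} (hc : S.Valid c) {ℓ : Lt A P} (h : S.Step c (ℓ, true) c') :
    (S.re μ).Run (S.rfn μ c) ((S.re μ).pw ℓ n) (S.rfn μ c') := by
  obtain ⟨a, L⟩ := ℓ
  obtain ⟨⟨h1, v, hv⟩, h2, rfl⟩ := h
  change S.parts L ⊆ c at h2
  change ∀ p, p ∈ pos L ↔ S.ν (S.σ a p) = v at hv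
  have h3 : (S.re μ).parts L ⊆ S.rfn μ c := by
    rw [parts_re hφ]
    rintro τ' ⟨τ, hτ, h4⟩
    exact ⟨τ, h2 hτ, h4⟩
  have hL : Inj L := hc.inj_let (ℓ := (a, L)) (ε := true) h2
  have h4 := sweep (S := S.re μ) (c := S.rfn μ c) (a := a) hL h3 (v := v) (φ := φ) (fun p => by
    rw [hv, hφ]
    rfl) n
  rw [pl_of_bound (S := S.re μ) hn] at h4
  have h5 : S.rfn μ ((c \ S.parts L) ∪ S.parts (S.sh a L)) =
      (S.rfn μ c \ (S.re μ).parts L) ∪ (S.re μ).parts ((S.re μ).sh a L) := by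
    rw [rfn_union, hc.rfn_sdiff h2, ← parts_re hφ, ← parts_re hφ]
    rfl
  change (S.re μ).Run _ _ (S.rfn μ ((c \ S.parts L) ∪ S.parts (S.sh a L)))
  rw [h5]
  exact h4

/-- The refined word. -/
noncomputable def rfw (T : Gr A P) (n : ℕ) (w : List (Lt A P × Bool)) : List (Lt A P × Bool) :=
  w.flatMap fun z => if z.2 then T.pw z.1 n else rev (T.pw z.1 n)

theorem rfw_cons (T : Gr A P) (n : ℕ) (z : Lt A P × Bool) (w : List (Lt A P × Bool)) :
    T.rfw n (z :: w) = (if z.2 then T.pw z.1 n else rev (T.pw z.1 n)) ++ T.rfw n w := by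
  unfold rfw
  rw [List.flatMap_cons]

theorem wp_rfw (T : Gr A P) (n : ℕ) (w : List (Lt A P × Bool)) (h : ∀ z ∈ w, Inj z.1.2) :
    wp (gen R) (T.rfw n w) = T.tr n (wp (gen R) w) := by
  induction w with
  | nil => rw [wp_nil, map_one]; rfl
  | cons z w ih =>
    obtain ⟨ℓ, ε⟩ := z
    have h1 : Inj ℓ.2 := h (ℓ, ε) List.mem_cons_self
    rw [rfw_cons, wp_append, ih fun z hz => h z (List.mem_cons_of_mem _ hz), wp_cons, map_mul]
    congr 1
    cases ε
    · change wp (gen R) (rev (T.pw ℓ n)) = T.tr n (gen R ℓ)⁻¹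
      rw [wp_rev, wp_pw, map_inv, tr_gen, T.pg_pos n h1]
    · change wp (gen R) (T.pw ℓ n) = T.tr n (gen R ℓ)
      rw [wp_pw, tr_gen, T.pg_pos n h1]

theorem Valid.run_re (hφ : ∀ p, S.ν p = φ (μ p)) {n : ℕ} (hn : ∀ p, μ p < n)
    (w : List (Lt A P × Bool)) : ∀ {c c' : Set (Set (P × P))}, S.Valid c → S.Run c w c' →
    (S.re μ).Run (S.rfn μ c) ((S.re μ).rfw n w) (S.rfn μ c') ∧ ∀ z ∈ w, Inj z.1.2 := by
  induction w with
  | nil =>
    rintro c c' _ rfl
    exact ⟨rfl, fun z hz => absurd hz List.not_mem_nil⟩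
  | cons z w ih =>
    obtain ⟨ℓ, ε⟩ := z
    rintro c c' hc ⟨c₁, h1, h2⟩
    obtain ⟨h3, h4⟩ := ih (hc.step h1) h2
    refine ⟨?_, fun z hz => ?_⟩
    · rw [rfw_cons]
      refine run_append.2 ⟨_, ?_, h3⟩
      cases ε
      · change (S.re μ).Run _ (rev ((S.re μ).pw ℓ n)) _
        have h5 := (hc.step h1).step_re hφ hn (h1.symm hc)
        exact ((hc.step h1).rfn hφ).run_rev _ h5
      · exact hc.step_re hφ hn h1
    · rcases List.mem_cons.1 hz with rfl | hz
      · exact hc.inj_let h1.2.1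
      · exact h4 z hz

/-- The transition homomorphism of the ambient groups. -/
noncomputable def trA (S : Gr A P) (μ : P → ℕ) (n : ℕ) : S.Am →* (S.re μ).Am :=
  SemidirectProduct.map ((S.re μ).tr n) (Subgroup.inclusion (le_refl S.Ln) : S.Ln →* (S.re μ).Ln)
    fun q => MonoidHom.ext fun x => (S.re μ).tr_act q n x

theorem trA_left (S : Gr A P) (μ : P → ℕ) (n : ℕ) (x : S.Am) :
    (S.trA μ n x).left = (S.re μ).tr n x.left := rfl

theorem trA_right (S : Gr A P) (μ : P → ℕ) (n : ℕ) (x : S.Am) :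
    ((S.trA μ n x).right : Equiv.Perm P) = x.right := rfl

/-- **Transition.** -/
theorem trA_mem (hφ : ∀ p, S.ν p = φ (μ p)) {n : ℕ} (hn : ∀ p, μ p < n) {x : S.Am}
    (hx : x ∈ S.D) : S.trA μ n x ∈ (S.re μ).D := by
  obtain ⟨w, h1, h2⟩ := hx
  obtain ⟨h3, h4⟩ := (valid_B (one_mem S.Ln)).run_re hφ hn w h1
  refine ⟨(S.re μ).rfw n w, ?_, ?_⟩
  · rw [← B_re hφ, ← B_re hφ] at h3
    exact h3
  · rw [wp_rfw _ _ _ h4, h2]
    rfl

theorem trA_trA {ξ : P → ℕ} {ψ : ℕ → ℕ} (hψ : ∀ p, μ p = ψ (ξ p))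
    {n : ℕ} (hn : ∀ p, μ p < n) (m : ℕ) (x : S.Am) :
    (S.re μ).trA ξ m (S.trA μ n x) = S.trA ξ m x :=
  SemidirectProduct.ext ((S.re μ).tr_tr ξ ψ hψ hn m x.left) rfl

end Gr

end Pool.Agent.ZT
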