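import Pool.Agent.ZT.DO
import Pool.Agent.ZT.AsdMap
import Pool.Agent.ZT.AsdForest

/-!
# Graphs of bounded degree and bounded tree-width have asymptotic dimension at most one
-/

set_option autoImplicit false

namespace Pool.Agent.ZT

open scoped ENNReal

/-- Graphs with parents and levels are acyclic. -/
theorem isAcyclic_of_par {W : Type} (Q : SimpleGraph W) (par : W → W) (lev : W → ℕ)
    (h : ∀ a b, Q.Adj a b → (par b = a ∧ lev b = lev a + 1) ∨ (par a = b ∧ lev a = lev b + 1)) :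
    Q.IsAcyclic := by
  have key : ∀ v w, Q.Adj v w → par w = v → lev w = lev v + 1 →
      ¬ (Q \ SimpleGraph.fromEdgeSet {s(v, w)}).Reachable w v := by
    rintro v w _ hpar hlev ⟨p⟩
    have h1 : ∀ {x y : W} (p : (Q \ SimpleGraph.fromEdgeSet {s(v, w)}).Walk x y),
        (∃ n, par^[n] x = w ∧ lev x = lev w + n) → ∃ n, par^[n] y = w ∧ lev y = lev w + n := by
      intro x y p
      induction p with
      | nil => exact id
      | cons hxy q ih =>
        rename_i a b c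
        rintro ⟨n, hn, hl⟩
        refine ih ?_
        rw [SimpleGraph.sdiff_adj] at hxy
        rcases h a b hxy.1 with ⟨h2, h3⟩ | ⟨h2, h3⟩
        · refine ⟨n + 1, ?_, by omega⟩
          rw [Function.iterate_succ_apply, h2, hn]
        · cases n with
          | zero =>
            exfalso
            have hab : a = w := hn
            have hbv : b = v := by rw [← h2, hab, hpar]
            refine hxy.2 ?_
            rw [SimpleGraph.fromEdgeSet_adj, hab, hbv]
            refine ⟨?_, fun h4 => ?_⟩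
            · rw [Set.mem_singleton_iff]
              exact Sym2.eq_swap
            · rw [h4] at hlev
              omega
          | succ n =>
            refine ⟨n, ?_, by omega⟩
            rw [Function.iterate_succ_apply, h2] at hn
            exact hn
    obtain ⟨n, _, hn⟩ := h1 p ⟨0, rfl, rfl⟩
    omega
  rw [SimpleGraph.isAcyclic_iff_forall_adj_isBridge]
  intro v w hvw
  rw [SimpleGraph.isBridge_iff]
  rcases h v w hvw with ⟨h1, h2⟩ | ⟨h1, h2⟩
  · exact fun h3 => key v w hvw h1 h2 h3.symm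
  · intro h3
    refine key w v hvw.symm h1 h2 ?_
    rw [Sym2.eq_swap]
    exact h3

/-- Copies of the tree of lists. -/
def listForest (ι : Type) : SimpleGraph (ι × List ℕ) where
  Adj a b := a.1 = b.1 ∧ (Par1 a.2 b.2 ∨ Par1 b.2 a.2)
  symm := ⟨fun _ _ h => ⟨h.1.symm, h.2.symm⟩⟩
  loopless := ⟨fun a h => by
    rcases h.2 with ⟨n, hn⟩ | ⟨n, hn⟩ <;>
    · have := congrArg List.length hn
      rw [List.length_append] at this
      simp at this⟩

theorem listForest_isAcyclic (ι : Type) : (listForest ι).IsAcyclic := by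
  refine isAcyclic_of_par _ (fun a => (a.1, a.2.dropLast)) (fun a => a.2.length) ?_
  rintro ⟨i, l⟩ ⟨j, m⟩ ⟨hij, h | h⟩
  · obtain ⟨a, ha⟩ := h
    left
    change i = j at hij
    change m = l ++ [a] at ha
    subst hij ha
    exact ⟨by simp, by simp⟩
  · obtain ⟨a, ha⟩ := h
    right
    change i = j at hij
    change l = m ++ [a] at ha
    subst hij ha
    exact ⟨by simp, by simp⟩

variable {V : Type}

/-- The disjoint union of the finite induced subgraphs. -/
def finGraph (Γ : SimpleGraph V) : SimpleGraph {p : Finset V × V // p.2 ∈ p.1} where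
  Adj p q := p.1.1 = q.1.1 ∧ Γ.Adj p.1.2 q.1.2
  symm := ⟨fun _ _ h => ⟨h.1.symm, h.2.symm⟩⟩
  loopless := ⟨fun _ h => Γ.irrefl h.2⟩

/-- **The finite subgraphs have asymptotic dimension at most one, uniformly.** -/
theorem asdim_finGraph (Γ : SimpleGraph V) (d k : ℕ) (hd : ∀ u, {v | Γ.Adj u v}.encard ≤ d)
    (hd1 : 1 ≤ d) (hk1 : 1 ≤ k) (hS : Sep Γ k) : @AsdimLeOne _ (gMet (finGraph Γ)) := by
  classical
  choose ρ h1 h2 using fun U : Finset V => exists_tree_partition Γ d k hd hd1 hk1 hS U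
  refine asdim_of_map (finGraph Γ) d (fun u => ?_) (listForest (Finset V))
    (fun Q' hQ' => asdim_forest ((listForest_isAcyclic _).anti hQ'))
    (fun p => (p.1.1, ρ p.1.1 p.1.2)) (18 * k * d) (fun w => ?_) fun u v huv => ?_
  · refine (Set.encard_le_encard_of_injOn (f := fun p => p.1.2) (fun v hv => hv.2) ?_).trans
      (hd u.1.2)
    intro v hv w hw hvw
    exact Subtype.ext (Prod.ext (hv.1.symm.trans hw.1) hvw)
  · have h3 : ((w.1.filter fun u => ρ w.1 u = w.2 : Finset V) : Set V).encard ≤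
        (18 * k * d : ℕ) := by
      rw [Set.encard_coe_eq_coe_finsetCard]
      exact_mod_cast h2 w.1 w.2
    refine (Set.encard_le_encard_of_injOn (f := fun p => p.1.2) ?_ ?_).trans h3
    · rintro ⟨⟨U, u⟩, hu⟩ rfl
      rw [Finset.mem_coe, Finset.mem_filter]
      exact ⟨hu, rfl⟩
    · rintro ⟨⟨U, u⟩, hu⟩ hu' ⟨⟨U', u'⟩, hv⟩ hv' huv
      have e1 : U = U' := (congrArg Prod.fst (hu'.trans hv'.symm) : _)
      exact Subtype.ext (Prod.ext e1 huv)
  · obtain ⟨⟨U, u⟩, hu⟩ := u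
    obtain ⟨⟨U', v⟩, hv⟩ := v
    obtain ⟨hUU, huv⟩ := huv
    change U = U' at hUU
    subst hUU
    rcases h1 U u hu v hv huv with h | h
    · left
      exact Prod.ext rfl h
    · right
      exact ⟨rfl, h⟩

/-- Walks of the finite subgraphs are walks of the graph. -/
theorem walk_of_finGraph (Γ : SimpleGraph V) {p q : {p : Finset V × V // p.2 ∈ p.1}}
    (w : (finGraph Γ).Walk p q) : ∃ w' : Γ.Walk p.1.2 q.1.2, w'.length = w.length := by
  induction w with
  | nil => exact ⟨SimpleGraph.Walk.nil, rfl⟩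
  | cons h _ ih =>
    obtain ⟨w', hw'⟩ := ih
    exact ⟨SimpleGraph.Walk.cons h.2 w', by
      rw [SimpleGraph.Walk.length_cons, SimpleGraph.Walk.length_cons, hw']⟩

/-- Walks of the graph are walks of the large finite subgraphs. -/
theorem finGraph_of_walk (Γ : SimpleGraph V) {x y : V} (w : Γ.Walk x y) (U : Finset V)
    (hU : ∀ v ∈ w.support, v ∈ U) (hx : x ∈ U) (hy : y ∈ U) :
    ∃ w' : (finGraph Γ).Walk ⟨(U, x), hx⟩ ⟨(U, y), hy⟩, w'.length = w.length := by
  induction w with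
  | nil => exact ⟨SimpleGraph.Walk.nil, rfl⟩
  | cons h q ih =>
    rename_i a b c
    have hb : b ∈ U := hU b (by
      rw [SimpleGraph.Walk.support_cons]
      exact List.mem_cons_of_mem _ q.start_mem_support)
    obtain ⟨w', hw'⟩ := ih (fun v hv => hU v (by
      rw [SimpleGraph.Walk.support_cons]
      exact List.mem_cons_of_mem _ hv)) hb hy
    have hadj : (finGraph Γ).Adj ⟨(U, a), hx⟩ ⟨(U, b), hb⟩ := ⟨rfl, h⟩
    exact ⟨SimpleGraph.Walk.cons hadj w', by
      rw [SimpleGraph.Walk.length_cons, SimpleGraph.Walk.length_cons, hw']⟩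

/-- **Compactness.** -/
theorem asdim_of_finGraph (Γ : SimpleGraph V) (h : @AsdimLeOne _ (gMet (finGraph Γ))) :
    @AsdimLeOne V (gMet Γ) := by
  classical
  intro r
  obtain ⟨D, c, hc1, hc2, hc3⟩ := h r
  choose C hC1 hC2 using hc1
  let E : Finset V → V → Set {p : Finset V × V // p.2 ∈ p.1} := fun U x =>
    if hx : x ∈ U then C ⟨(U, x), hx⟩ else ∅
  have hE : ∀ (U : Finset V) (x : V) (hx : x ∈ U), E U x = C ⟨(U, x), hx⟩ :=
    fun U x hx => dif_pos hx
  have hmem : ∀ x : V, ∀ᶠ U in (Ultrafilter.of (Filter.atTop : Filter (Finset V)) :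
      Filter (Finset V)), x ∈ U := fun x =>
    Ultrafilter.of_le _ ((Filter.eventually_ge_atTop {x}).mono fun U hU =>
      hU (Finset.mem_singleton_self x))
  obtain ⟨F, hF⟩ : ∃ F : Ultrafilter (Finset V), F = Ultrafilter.of Filter.atTop := ⟨_, rfl⟩
  rw [← hF] at hmem
  let _ := gMet Γ
  refine ⟨D, {A | ∃ x, A = {y | ∀ᶠ U in (F : Filter (Finset V)), E U x = E U y}},
    fun x => ⟨_, ⟨x, rfl⟩, Filter.Eventually.of_forall fun _ => rfl⟩, ?_, fun x => ?_⟩
  · rintro _ ⟨x, rfl⟩ y hy z hz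
    obtain ⟨U, ⟨⟨h1, h2⟩, h3⟩, h4⟩ := (((Filter.Eventually.and hy hz).and (hmem y)).and
      (hmem z)).exists
    have h5 : C ⟨(U, y), h3⟩ = C ⟨(U, z), h4⟩ := by
      rw [← hE, ← hE, ← h1, ← h2]
    have h6 := hc2 _ (hC1 ⟨(U, y), h3⟩) _ (hC2 ⟨(U, y), h3⟩) ⟨(U, z), h4⟩ (by
      rw [h5]
      exact hC2 _)
    rw [gMet_le] at h6
    obtain ⟨w, hw⟩ := h6
    obtain ⟨w', hw'⟩ := walk_of_finGraph Γ w
    exact (gMet_le Γ y z D).2 ⟨w', by rw [hw']; exact hw⟩
  · by_contra hcon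
    rw [not_le] at hcon
    have h3 : (3 : ℕ∞) ≤ {A ∈ {A | ∃ x, A = {y | ∀ᶠ U in (F : Filter (Finset V)), E U x = E U y}} |
        ∃ y ∈ A, edist x y ≤ (r : ℝ≥0∞)}.encard := by
      have h4 := Order.add_one_le_of_lt hcon
      exact le_trans (by norm_num) h4
    obtain ⟨T, hT, hT3⟩ := Set.exists_subset_encard_eq h3
    obtain ⟨A1, A2, A3, h12, h13, h23, rfl⟩ := Set.encard_eq_three.1 hT3
    have hA1 := hT (show A1 ∈ ({A1, A2, A3} : Set (Set V)) by simp)
    have hA2 := hT (show A2 ∈ ({A1, A2, A3} : Set (Set V)) by simp)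
    have hA3 := hT (show A3 ∈ ({A1, A2, A3} : Set (Set V)) by simp)
    have hne : ∀ A B : Set V, (∃ x, A = {y | ∀ᶠ U in (F : Filter (Finset V)), E U x = E U y}) →
        (∃ x, B = {y | ∀ᶠ U in (F : Filter (Finset V)), E U x = E U y}) → A ≠ B →
        ∀ y ∈ A, ∀ z ∈ B, ∀ᶠ U in (F : Filter (Finset V)), E U y ≠ E U z := by
      rintro _ _ ⟨a, rfl⟩ ⟨b, rfl⟩ hab y hy z hz
      refine Ultrafilter.eventually_not.2 fun h => hab ?_
      ext t
      constructor
      · intro ht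
        filter_upwards [hy, hz, h, ht] with U h1 h2 h3 h4
        rw [h2, ← h3, ← h1, h4]
      · intro ht
        filter_upwards [hy, hz, h, ht] with U h1 h2 h3 h4
        rw [h1, h3, ← h2, h4]
    obtain ⟨y1, hy1, hd1⟩ := hA1.2
    obtain ⟨y2, hy2, hd2⟩ := hA2.2
    obtain ⟨y3, hy3, hd3⟩ := hA3.2
    have hwalk : ∀ y, edist x y ≤ (r : ℝ≥0∞) → ∀ᶠ U in (F : Filter (Finset V)),
        ∀ (hx : x ∈ U) (hy : y ∈ U), C ⟨(U, y), hy⟩ ∈ {B ∈ c | ∃ q ∈ B,
          @edist _ (gMet (finGraph Γ)).toEDist ⟨(U, x), hx⟩ q ≤ (r : ℝ≥0∞)} := by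
      intro y hy
      obtain ⟨w, hw⟩ := (gMet_le Γ x y r).1 hy
      have h5 : ∀ᶠ U in (F : Filter (Finset V)), ∀ v ∈ w.support.toFinset, v ∈ U :=
        (Finset.eventually_all _).2 fun v _ => hmem v
      filter_upwards [h5] with U hU hxU hyU
      obtain ⟨w', hw'⟩ := finGraph_of_walk Γ w U (fun v hv => hU v (List.mem_toFinset.2 hv))
        hxU hyU
      exact ⟨hC1 _, _, hC2 _, (gMet_le _ _ _ _).2 ⟨w', by rw [hw']; exact hw⟩⟩
    obtain ⟨U, hU⟩ := ((hmem x).and ((hmem y1).and ((hmem y2).and ((hmem y3).and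
      ((hwalk y1 hd1).and ((hwalk y2 hd2).and ((hwalk y3 hd3).and
      ((hne _ _ hA1.1 hA2.1 h12 y1 hy1 y2 hy2).and
      ((hne _ _ hA1.1 hA3.1 h13 y1 hy1 y3 hy3).and
      (hne _ _ hA2.1 hA3.1 h23 y2 hy2 y3 hy3)))))))))).exists
    obtain ⟨hx, m1, m2, m3, w1, w2, w3, n12, n13, n23⟩ := hU
    rw [hE _ _ m1, hE _ _ m2] at n12
    rw [hE _ _ m1, hE _ _ m3] at n13
    rw [hE _ _ m2, hE _ _ m3] at n23
    have h6 : ({C ⟨(U, y1), m1⟩, C ⟨(U, y2), m2⟩, C ⟨(U, y3), m3⟩} :
        Set (Set {p : Finset V × V // p.2 ∈ p.1})) ⊆ {B ∈ c | ∃ q ∈ B,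
          @edist _ (gMet (finGraph Γ)).toEDist ⟨(U, x), hx⟩ q ≤ (r : ℝ≥0∞)} := by
      rintro _ (rfl | rfl | rfl)
      · exact w1 hx m1
      · exact w2 hx m2
      · exact w3 hx m3
    have h7 := (Set.encard_le_encard h6).trans (hc3 ⟨(U, x), hx⟩)
    rw [Set.encard_eq_three.2 ⟨_, _, _, n12, n13, n23, rfl⟩] at h7
    exact absurd h7 (by norm_num)

/-- **Graphs of bounded degree with balanced separations of bounded order.** -/
theorem asdim_of_sep (Γ : SimpleGraph V) (d k : ℕ) (hd : ∀ u, {v | Γ.Adj u v}.encard ≤ d)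
    (hS : Sep Γ k) : @AsdimLeOne V (gMet Γ) := by
  refine asdim_of_finGraph Γ (asdim_finGraph Γ (d + 1) (k + 1) (fun u => (hd u).trans ?_)
    (by omega) (by omega) fun S => ?_)
  · exact_mod_cast Nat.le_succ d
  · obtain ⟨A, B, h1, h2, h3, h4⟩ := hS S
    exact ⟨A, B, h1, h2, h3.trans (by exact_mod_cast Nat.le_succ k), h4⟩

end Pool.Agent.ZT
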