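import Pool.Agent.ZT.Virt
import Pool.Agent.ZT.Flow2

/-!
# From free groups to locally virtually free groups
-/

set_option autoImplicit false

namespace Pool.Agent.ZT

open Pool.Agent.Helper29.BA Pool.Agent.T59 MeasureTheory

/-! ### Invariant means on the clopen sets -/

/-- A finitely additive positive function on the clopen sets, invariant under the homeomorphisms
`φ a`. -/
structure IsMean {X A : Type} [TopologicalSpace X] (φ : A → X ≃ₜ X) (m : Set X → ℝ) : Prop
    extends Cont m where
  pos : ∀ U, IsClopen U → U.Nonempty → 0 < m U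
  inv : ∀ a U, IsClopen U → m (φ a ⁻¹' U) = m U

theorem isMean_of_measure {X A : Type} [TopologicalSpace X] [MeasurableSpace X] [BorelSpace X]
    (φ : A → X ≃ₜ X) (m : Measure X) [IsFiniteMeasure m] [m.IsOpenPosMeasure]
    (h : ∀ a, MeasurePreserving (φ a) m m) : IsMean φ m.real where
  nonneg U _ := measureReal_nonneg
  add U V hU hV hd := measureReal_union hd hV.isOpen.measurableSet
  pos U hU hne := ENNReal.toReal_pos (hU.isOpen.measure_pos m hne).ne' (measure_ne_top _ _)
  inv a U hU := by
    unfold Measure.real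
    rw [(h a).measure_preimage hU.isOpen.measurableSet.nullMeasurableSet]

/-! ### The action given by homeomorphisms -/

section act

variable {A X : Type} [TopologicalSpace X] (φ : A → X ≃ₜ X)

/-- The action of the free group. -/
@[reducible] def acAct : MulAction (FreeGroup A) X where
  smul g x := ac φ g x
  one_smul x := ac_one φ x
  mul_smul g h x := ac_mul φ g h x

theorem acCont : @ContinuousConstSMul (FreeGroup A) X _ (acAct φ).toSMul :=
  @ContinuousConstSMul.mk _ _ _ (acAct φ).toSMul fun g => (ac φ g).continuous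

theorem GG_ac : @GG (FreeGroup A) X _ _ (acAct φ) (acCont φ) = FG φ := rfl

end act

/-! ### The cosets -/

section cosets

variable {Γ : Type} [Group Γ] (F : Subgroup Γ)

/-- The set of the cosets, with the discrete topology. -/
def Cos : Type := Γ ⧸ F

instance : MulAction Γ (Cos F) := inferInstanceAs (MulAction Γ (Γ ⧸ F))

instance : TopologicalSpace (Cos F) := ⊥

instance : DiscreteTopology (Cos F) := ⟨rfl⟩

instance : Nonempty (Cos F) := ⟨((1 : Γ) : Γ ⧸ F)⟩

instance [F.FiniteIndex] : Finite (Cos F) := inferInstanceAs (Finite (Γ ⧸ F))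

/-- Representatives. -/
noncomputable def rep (i : Cos F) : Γ := Quotient.out (s := QuotientGroup.leftRel F) i

theorem rep_mk (i : Cos F) : ((rep F i : Γ) : Γ ⧸ F) = i := Quotient.out_eq' _

theorem shiftV_mem (i : Cos F) (g : Γ) : (rep F (g • i))⁻¹ * (g * rep F i) ∈ F := by
  rw [← QuotientGroup.eq]
  have h1 : ((g * rep F i : Γ) : Γ ⧸ F) = g • (((rep F i : Γ) : Γ ⧸ F)) := rfl
  rw [h1, rep_mk, rep_mk]
  rfl

/-- The element of the subgroup. -/
noncomputable def shiftV (i : Cos F) (g : Γ) : F := ⟨_, shiftV_mem F i g⟩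

theorem shiftV_mul (i : Cos F) (g g' : Γ) :
    shiftV F i (g' * g) = shiftV F (g • i) g' * shiftV F i g := by
  apply Subtype.ext
  show (rep F ((g' * g) • i))⁻¹ * (g' * g * rep F i) =
    (rep F (g' • g • i))⁻¹ * (g' * rep F (g • i)) * ((rep F (g • i))⁻¹ * (g * rep F i))
  rw [mul_smul]
  group

end cosets

/-! ### The free group which acts on the product -/

section infl

variable {Γ X : Type} [Group Γ] [TopologicalSpace X] [MulAction Γ X] [ContinuousConstSMul Γ X]
  (F : Subgroup Γ) {A : Type} (e : F ≃* FreeGroup A)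

/-- The base point. -/
def base : Cos F := ((1 : Γ) : Γ ⧸ F)

open Classical in
/-- The homeomorphisms of the product. -/
noncomputable def phi' : A ⊕ Cos F → (X × Cos F) ≃ₜ (X × Cos F)
  | Sum.inl a => (Homeomorph.smul ((e.symm (FreeGroup.of a) : F) : Γ)).prodCongr
      (Homeomorph.refl _)
  | Sum.inr i => (Homeomorph.refl X).prodCongr
      { toEquiv := Equiv.swap (base F) i
        continuous_toFun := continuous_of_discreteTopology
        continuous_invFun := continuous_of_discreteTopology }

theorem ac_inr_base (i : Cos F) (y : X) :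
    ac (phi' (X := X) F e) (FreeGroup.of (Sum.inr i)) (y, base F) = (y, i) := by
  classical
  have h1 : ac (phi' (X := X) F e) (FreeGroup.of (Sum.inr i)) = phi' F e (Sum.inr i) :=
    FreeGroup.lift_apply_of
  rw [h1]
  refine Prod.ext rfl ?_
  exact Equiv.swap_apply_left _ _

theorem ac_inr_inv (i : Cos F) (y : X) :
    ac (phi' (X := X) F e) (FreeGroup.of (Sum.inr i))⁻¹ (y, i) = (y, base F) := by
  rw [← ac_inr_base F e i y, ac_inv_ac]

theorem ac_inl (f : FreeGroup A) (y : X) (i : Cos F) :
    ac (phi' (X := X) F e) (FreeGroup.map Sum.inl f) (y, i) =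
      (((e.symm f : F) : Γ) • y, i) := by
  induction f using FreeGroup.induction_on generalizing y with
  | C1 => rw [map_one, ac_one, map_one, Subgroup.coe_one, one_smul]
  | of a =>
    rw [FreeGroup.map.of]
    have h1 : ac (phi' (X := X) F e) (FreeGroup.of (Sum.inl a)) = phi' F e (Sum.inl a) :=
      FreeGroup.lift_apply_of
    rw [h1]
    rfl
  | inv_of a h =>
    have h1 := h (((e.symm (FreeGroup.of a)⁻¹ : F) : Γ) • y)
    rw [map_inv e.symm, Subgroup.coe_inv, smul_inv_smul] at h1
    have h2 := congrArg (ac (phi' (X := X) F e) (FreeGroup.map Sum.inl (FreeGroup.of a))⁻¹) h1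
    rw [ac_inv_ac] at h2
    rw [map_inv, ← h2, map_inv e.symm, Subgroup.coe_inv]
  | mul g h hg hh => rw [map_mul, ac_mul, hh, hg, map_mul, Subgroup.coe_mul, mul_smul]

/-- The data of the inflation. -/
noncomputable def inflD :
    letI := acAct (phi' (X := X) F e)
    Infl Γ X (Cos F) (FreeGroup (A ⊕ Cos F)) :=
  letI := acAct (phi' (X := X) F e)
  { r := rep F
    κ := fun i g => FreeGroup.of (Sum.inr (g • i)) * FreeGroup.map Sum.inl (e (shiftV F i g)) *
      (FreeGroup.of (Sum.inr i))⁻¹
    act := fun i g y => by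
      show ac (phi' (X := X) F e) _ _ = _
      rw [ac_mul, ac_mul, ac_inr_inv, ac_inl, ac_inr_base, e.symm_apply_apply]
      show (((rep F (g • i))⁻¹ * (g * rep F i)) • y, g • i) = _
      rw [mul_smul, mul_smul]
    mul := fun i g g' => by
      rw [shiftV_mul, map_mul, map_mul, mul_smul]
      group
    inj := fun i g h => by
      -- the projection to the free group on `A`
      have h1 : FreeGroup.lift (Sum.elim FreeGroup.of fun _ => (1 : FreeGroup A))
          (FreeGroup.of (Sum.inr (g • i)) * FreeGroup.map Sum.inl (e (shiftV F i g)) *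
            (FreeGroup.of (Sum.inr i))⁻¹) = 1 := by rw [h, map_one]
      have h2 : (FreeGroup.lift (Sum.elim FreeGroup.of fun _ => (1 : FreeGroup A))).comp
          (FreeGroup.map (Sum.inl : A → A ⊕ Cos F)) = MonoidHom.id _ := by
        ext a
        simp
      rw [map_mul, map_mul, map_inv, FreeGroup.lift_apply_of, FreeGroup.lift_apply_of,
        Sum.elim_inr, Sum.elim_inr, one_mul, inv_one, mul_one] at h1
      have h3 : e (shiftV F i g) = 1 := by
        have h4 := DFunLike.congr_fun h2 (e (shiftV F i g))
        rw [MonoidHom.comp_apply, h1] at h4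
        exact h4.symm
      rw [h3, map_one, mul_one, mul_inv_eq_one] at h
      have h5 : g • i = i := Sum.inr_injective (FreeGroup.of_injective h)
      have h6 : shiftV F i g = 1 := e.map_eq_one_iff.1 h3
      have h7 : (rep F (g • i))⁻¹ * (g * rep F i) = 1 := congrArg Subtype.val h6
      rw [h5, inv_mul_eq_one] at h7
      exact (mul_eq_right.1 h7.symm) }

/-- **Finite index.** -/
theorem mem_GG_of_free {C : ∀ (G : Type) [Group G], Prop} (hC : ClosedClass C)
    (h : C (FG (phi' (X := X) F e))) : C (GG Γ X) := by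
  letI := acAct (phi' (X := X) F e)
  haveI := acCont (phi' (X := X) F e)
  refine (inflD (X := X) F e).mem hC ?_
  exact h

end infl

end Pool.Agent.ZT
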