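import Pool.Agent.ZT.Virt2
import Pool.Agent.ZT.FullZ

/-!
# Directed colimits of groups and the full groups of their actions
-/

set_option autoImplicit false

namespace Pool.Agent.ZT

open Pool.Agent.Helper29.BA Pool.Agent.T59

/-! ### Permutations from cocycles -/

section mkq

variable {Γ X : Type} [Group Γ] [MulAction Γ X]

/-- The permutation given by a cocycle and the cocycle of the inverse. -/
def mkq (c d : X → Γ) (h : ∀ x, c (d x • x) * d x = 1) (h' : ∀ x, d (c x • x) * c x = 1) :
    Equiv.Perm (X × Γ) where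
  toFun p := (p.1, c (p.2 • p.1) * p.2)
  invFun p := (p.1, d (p.2 • p.1) * p.2)
  left_inv := by
    rintro ⟨x, g⟩
    refine Prod.ext rfl ?_
    show d ((c (g • x) * g) • x) * (c (g • x) * g) = g
    rw [mul_smul, ← mul_assoc, h', one_mul]
  right_inv := by
    rintro ⟨x, g⟩
    refine Prod.ext rfl ?_
    show c ((d (g • x) * g) • x) * (d (g • x) * g) = g
    rw [mul_smul, ← mul_assoc, h, one_mul]

theorem mkq_apply (c d : X → Γ) (h : ∀ x, c (d x • x) * d x = 1)
    (h' : ∀ x, d (c x • x) * c x = 1) (x : X) (g : Γ) :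
    mkq c d h h' (x, g) = (x, c (g • x) * g) := rfl

end mkq

/-! ### Push forward -/

section push

variable {G H X : Type} [Group G] [Group H] [TopologicalSpace X] [MulAction G X]
  [ContinuousConstSMul G X] [MulAction H X] [ContinuousConstSMul H X]

/-- The push forward along a homomorphism which is compatible with the actions. -/
def push (f : G →* H) (hf : ∀ g (x : X), f g • x = g • x) :
    GG G X →* Equiv.Perm (X × H) :=
  MonoidHom.toHomPerm
    { toFun := fun q p => (p.1, f (q.1 (p.2 • p.1, 1)).2 * p.2)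
      map_one' := by
        funext p
        show (p.1, f 1 * p.2) = p
        rw [map_one, one_mul]
      map_mul' := fun a b => by
        funext p
        refine Prod.ext rfl ?_
        show f ((a.1 * b.1) (p.2 • p.1, 1)).2 * p.2 =
          f (a.1 ((f (b.1 (p.2 • p.1, 1)).2 * p.2) • p.1, 1)).2 *
            (f (b.1 (p.2 • p.1, 1)).2 * p.2)
        rw [GG_mul a.2 b.2, map_mul, mul_smul, hf, mul_assoc] }

theorem push_apply (f : G →* H) (hf : ∀ g (x : X), f g • x = g • x) (q : GG G X) (x : X) (h : H) :
    push f hf q (x, h) = (x, f (q.1 (h • x, 1)).2 * h) := rfl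

theorem push_snd (f : G →* H) (hf : ∀ g (x : X), f g • x = g • x) (q : GG G X) (x : X) :
    (push f hf q (x, 1)).2 = f (q.1 (x, 1)).2 := by
  rw [push_apply, one_smul, mul_one]

theorem push_mem (f : G →* H) (hf : ∀ g (x : X), f g • x = g • x) (q : GG G X) :
    push f hf q ∈ GG H X :=
  ⟨fun x => f (q.1 (x, 1)).2, (GG_lc q.2).comp f, fun _ _ => rfl⟩

/-- The push forward to the full group. -/
def pushG (f : G →* H) (hf : ∀ g (x : X), f g • x = g • x) : GG G X →* GG H X :=
  (push f hf).codRestrict _ (push_mem f hf)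

theorem GG_ext {a b : GG G X} (h : ∀ x, (a.1 (x, 1)).2 = (b.1 (x, 1)).2) : a = b := by
  apply Subtype.ext
  apply Equiv.ext
  rintro ⟨x, g⟩
  rw [GG_apply a.2, GG_apply b.2, h]

end push

/-! ### Directed colimits -/

section colim

variable {I : Type} [Preorder I] [IsDirectedOrder I] [Nonempty I] {G : I → Type}
  [∀ i, Group (G i)] (f : ∀ i j, i ≤ j → G i →* G j) {Γ X : Type} [Group Γ] (g : ∀ i, G i →* Γ)
  [TopologicalSpace X] [MulAction Γ X] [ContinuousConstSMul Γ X]

/-- The action through the colimit. -/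
@[reducible] def viaAct (i : I) : MulAction (G i) X := MulAction.compHom X (g i)

theorem viaCont (i : I) : @ContinuousConstSMul (G i) X _ (viaAct (X := X) g i).toSMul :=
  @ContinuousConstSMul.mk _ _ _ (viaAct (X := X) g i).toSMul fun h =>
    continuous_const_smul (g i h)

/-- The full group at the level `i`. -/
def GGi (i : I) : Subgroup (Equiv.Perm (X × G i)) :=
  @GG (G i) X _ _ (viaAct g i) (viaCont g i)

/-- **Directed colimits.** -/
theorem mem_GG_colimit {C : ∀ (G : Type) [Group G], Prop} (hC : ClosedClass C) [CompactSpace X]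
    (hff : ∀ i j k (h : i ≤ j) (h' : j ≤ k) x, f j k h' (f i j h x) = f i k (h.trans h') x)
    (hgf : ∀ i j (h : i ≤ j) x, g j (f i j h x) = g i x) (hsur : ∀ x, ∃ i y, g i y = x)
    (hker : ∀ i y, g i y = 1 → ∃ j, ∃ h : i ≤ j, f i j h y = 1)
    (h : ∀ i, C (GGi (X := X) g i)) : C (GG Γ X) := by
  classical
  letI act : ∀ i, MulAction (G i) X := fun i => viaAct g i
  haveI cont : ∀ i, ContinuousConstSMul (G i) X := fun i => viaCont g i
  have hact : ∀ i (a : G i) (x : X), a • x = g i a • x := fun i a x => rfl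
  have hfa : ∀ i j (hij : i ≤ j) (a : G i) (x : X), f i j hij a • x = a • x := fun i j hij a x => by
    rw [hact, hact, hgf]
  have hga : ∀ i (a : G i) (x : X), g i a • x = a • x := fun i a x => rfl
  -- finitely many elements
  have hsur' : ∀ s : Finset Γ, ∃ i, ∀ x ∈ s, ∃ y, g i y = x := by
    intro s
    induction s using Finset.induction_on with
    | empty => exact ⟨Classical.arbitrary I, fun x hx => absurd hx (by simp)⟩
    | insert a s ha ih =>
      obtain ⟨i, hi⟩ := ih
      obtain ⟨j, y, hy⟩ := hsur a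
      obtain ⟨k, hik, hjk⟩ := exists_ge_ge i j
      refine ⟨k, fun x hx => ?_⟩
      rcases Finset.mem_insert.1 hx with rfl | hx
      · exact ⟨f j k hjk y, by rw [hgf, hy]⟩
      · obtain ⟨z, hz⟩ := hi x hx
        exact ⟨f i k hik z, by rw [hgf, hz]⟩
  have hker' : ∀ i (s : Finset (G i)), (∀ y ∈ s, g i y = 1) →
      ∃ j, ∃ h : i ≤ j, ∀ y ∈ s, f i j h y = 1 := by
    intro i s
    induction s using Finset.induction_on with
    | empty => exact fun _ => ⟨i, le_rfl, fun y hy => absurd hy (by simp)⟩
    | insert a s ha ih =>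
      intro hs
      obtain ⟨j, hij, hj⟩ := ih fun y hy => hs y (Finset.mem_insert_of_mem hy)
      obtain ⟨k, hik, hk⟩ := hker i a (hs a (Finset.mem_insert_self a s))
      obtain ⟨l, hjl, hkl⟩ := exists_ge_ge j k
      refine ⟨l, hij.trans hjl, fun y hy => ?_⟩
      rcases Finset.mem_insert.1 hy with rfl | hy
      · rw [← hff i k l hik hkl, hk, map_one]
      · rw [← hff i j l hij hjl, hj y hy, map_one]
  refine hC.colimit I (fun i => GG (G i) X) (fun i j hij => pushG (f i j hij) (hfa i j hij)) ?_
    (GG Γ X) (fun i => pushG (g i) (hga i)) ?_ ?_ ?_ h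
  · intro i j k hij hjk q
    refine GG_ext fun x => ?_
    show (push _ _ (pushG _ _ q) (x, 1)).2 = (push _ _ q (x, 1)).2
    rw [push_snd, push_snd]
    show f j k hjk (push _ _ q (x, 1)).2 = _
    rw [push_snd, hff]
  · intro i j hij q
    refine GG_ext fun x => ?_
    show (push _ _ (pushG _ _ q) (x, 1)).2 = (push _ _ q (x, 1)).2
    rw [push_snd, push_snd]
    show g j (push _ _ q (x, 1)).2 = _
    rw [push_snd, hgf]
  · -- surjectivity
    intro q
    let c : X → Γ := fun x => (q.1 (x, 1)).2
    let d : X → Γ := fun x => ((q⁻¹).1 (x, 1)).2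
    have hc : IsLocallyConstant c := GG_lc q.2
    have hd : IsLocallyConstant d := GG_lc (q⁻¹).2
    have hcd : ∀ x, c (d x • x) * d x = 1 := by
      intro x
      have h1 := GG_mul q.2 (q⁻¹).2 x
      have h2 : q.1 * (q⁻¹).1 = 1 := congrArg Subtype.val (mul_inv_cancel q)
      rw [h2] at h1
      exact h1.symm
    have hdc : ∀ x, d (c x • x) * c x = 1 := by
      intro x
      have h1 := GG_mul (q⁻¹).2 q.2 x
      have h2 : (q⁻¹).1 * q.1 = 1 := congrArg Subtype.val (inv_mul_cancel q)
      rw [h2] at h1
      exact h1.symm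
    obtain ⟨i, hi⟩ := hsur' (hc.range_finite.toFinset ∪ hd.range_finite.toFinset)
    have hci : ∀ x, ∃ y, g i y = c x := fun x => hi _ (by simp)
    have hdi : ∀ x, ∃ y, g i y = d x := fun x => hi _ (by simp)
    let s : Γ → G i := fun γ => if h : ∃ y, g i y = γ then h.choose else 1
    have hs : ∀ γ, (∃ y, g i y = γ) → g i (s γ) = γ := by
      intro γ hγ
      show g i (if h : ∃ y, g i y = γ then h.choose else 1) = γ
      rw [dif_pos hγ]
      exact hγ.choose_spec
    let ci : X → G i := fun x => s (c x)
    let di : X → G i := fun x => s (d x)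
    have hci' : IsLocallyConstant ci := hc.comp s
    have hdi' : IsLocallyConstant di := hd.comp s
    let u : X → G i := fun x => ci (di x • x) * di x
    let v : X → G i := fun x => di (ci x • x) * ci x
    have hu : IsLocallyConstant u := by
      refine IsLocallyConstant.mul (lc_comp hci' fun x => ⟨Homeomorph.smul (di x), ?_⟩) hdi'
      filter_upwards [hdi'.eventually_eq x] with y hy
      rw [hy]
      rfl
    have hv : IsLocallyConstant v := by
      refine IsLocallyConstant.mul (lc_comp hdi' fun x => ⟨Homeomorph.smul (ci x), ?_⟩) hci'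
      filter_upwards [hci'.eventually_eq x] with y hy
      rw [hy]
      rfl
    have hu1 : ∀ x, g i (u x) = 1 := by
      intro x
      show g i (s (c (s (d x) • x)) * s (d x)) = 1
      rw [map_mul, hs _ (hdi x), hs _ (hci _), hact, hs _ (hdi x)]
      exact hcd x
    have hv1 : ∀ x, g i (v x) = 1 := by
      intro x
      show g i (s (d (s (c x) • x)) * s (c x)) = 1
      rw [map_mul, hs _ (hci x), hs _ (hdi _), hact, hs _ (hci x)]
      exact hdc x
    obtain ⟨j, hij, hj⟩ := hker' i (hu.range_finite.toFinset ∪ hv.range_finite.toFinset) (by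
      intro y hy
      rcases Finset.mem_union.1 hy with hy | hy
      · rw [Set.Finite.mem_toFinset] at hy
        obtain ⟨x, rfl⟩ := hy
        exact hu1 x
      · rw [Set.Finite.mem_toFinset] at hy
        obtain ⟨x, rfl⟩ := hy
        exact hv1 x)
    let cj : X → G j := fun x => f i j hij (ci x)
    let dj : X → G j := fun x => f i j hij (di x)
    have h1 : ∀ x, cj (dj x • x) * dj x = 1 := by
      intro x
      show f i j hij (ci (f i j hij (di x) • x)) * f i j hij (di x) = 1
      rw [hfa, ← map_mul]
      exact hj (u x) (by simp)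
    have h2 : ∀ x, dj (cj x • x) * cj x = 1 := by
      intro x
      show f i j hij (di (f i j hij (ci x) • x)) * f i j hij (ci x) = 1
      rw [hfa, ← map_mul]
      exact hj (v x) (by simp)
    refine ⟨j, ⟨mkq cj dj h1 h2, cj, hci'.comp (f i j hij), fun _ _ => rfl⟩, GG_ext fun x => ?_⟩
    show (push _ _ _ (x, 1)).2 = _
    rw [push_snd]
    show g j (cj ((1 : G j) • x) * 1) = c x
    rw [one_smul, mul_one]
    show g j (f i j hij (s (c x))) = c x
    rw [hgf, hs _ (hci x)]
  · -- kernel
    intro i q hq
    have h1 : ∀ x, g i (q.1 (x, 1)).2 = 1 := by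
      intro x
      have h2 : (push (g i) (hga i) q (x, 1)).2 = 1 := by
        have h3 : push (g i) (hga i) q = 1 := congrArg Subtype.val hq
        rw [h3]
        rfl
      rwa [push_snd] at h2
    obtain ⟨j, hij, hj⟩ := hker' i (GG_lc q.2).range_finite.toFinset (by
      intro y hy
      rw [Set.Finite.mem_toFinset] at hy
      obtain ⟨x, rfl⟩ := hy
      exact h1 x)
    refine ⟨j, hij, GG_ext fun x => ?_⟩
    show (push _ _ q (x, 1)).2 = 1
    rw [push_snd]
    exact hj _ (by simp)

end colim

end Pool.Agent.ZT
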