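import Pool.Agent.ZT.VirtZ
import Pool.Agent.ZT.ThD

/-!
# Actions of virtually free groups
-/

set_option autoImplicit false

namespace Pool.Agent.ZT

open Pool.Agent.Helper29.BA Pool.Agent.Helper29.PA Pool.Agent.T59 MeasureTheory
open scoped ENNReal

/-! ### Actions without paradoxical clopen sets -/

/-- Each nonempty clopen set has finite positive measure for some finitely additive function on the
clopen sets, with values in `[0, ∞]`, which is invariant under the action. -/
def NoParG (Γ X : Type) [Group Γ] [TopologicalSpace X] [MulAction Γ X] : Prop :=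
  ∀ U : Set X, IsClopen U → U.Nonempty → ∃ m : Set X → ℝ≥0∞, m ∅ = 0 ∧
    (∀ V W : Set X, IsClopen V → IsClopen W → Disjoint V W → m (V ∪ W) = m V + m W) ∧
    (∀ (g : Γ) (V : Set X), IsClopen V → m ((fun x => g • x) ⁻¹' V) = m V) ∧ m U ≠ 0 ∧ m U ≠ ∞

/-- Invariant measures of full support. -/
theorem noParG_of_measure (Γ : Type) {X : Type} [Group Γ] [TopologicalSpace X] [MulAction Γ X]
    [ContinuousConstSMul Γ X] [MeasurableSpace X] [BorelSpace X]
    (m : Measure X) [IsFiniteMeasure m] [m.IsOpenPosMeasure] [SMulInvariantMeasure Γ X m] :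
    NoParG Γ X := fun U hU hne => ⟨m, measure_empty,
  fun V W _ hW hd => measure_union hd hW.isOpen.measurableSet,
  fun g _ hV => SMulInvariantMeasure.measure_preimage_smul g hV.isOpen.measurableSet,
  (hU.isOpen.measure_pos m hne).ne', measure_ne_top _ _⟩

theorem InvM.union_le {A X : Type} [TopologicalSpace X] {φ : A → X ≃ₜ X} {m : Set X → ℝ≥0∞}
    (h : InvM φ m) {U V : Set X} (hU : IsClopen U) (hV : IsClopen V) :
    m (U ∪ V) ≤ m U + m V := by
  rw [← Set.union_sdiff_self, h.union U (V \ U) hU (hV.diff hU) Set.disjoint_sdiff_right]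
  gcongr
  exact h.mono (hV.diff hU) hV Set.sdiff_subset

theorem InvM.biUnion_le {A X E : Type} [TopologicalSpace X] {φ : A → X ≃ₜ X} {m : Set X → ℝ≥0∞}
    (h : InvM φ m) (s : Finset E) (U : E → Set X) (hU : ∀ e, IsClopen (U e)) :
    m (⋃ e ∈ s, U e) ≤ ∑ e ∈ s, m (U e) := by
  classical
  induction s using Finset.induction_on with
  | empty => simp [h.empty]
  | insert a s ha ih =>
    rw [Finset.set_biUnion_insert, Finset.sum_insert ha]
    refine (h.union_le (hU a) (isClopen_biUnion_finset fun e _ => hU e)).trans ?_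
    gcongr

section prod

variable {Γ X : Type} [Group Γ] [TopologicalSpace X] [MulAction Γ X] [ContinuousConstSMul Γ X]
  (F : Subgroup Γ) {A : Type} (e : F ≃* FreeGroup A)

/-- The slices. -/
def slice {X ι : Type} (W : Set (X × ι)) (i : ι) : Set X := (fun x => (x, i)) ⁻¹' W

theorem slice_clopen {X ι : Type} [TopologicalSpace X] [TopologicalSpace ι] {W : Set (X × ι)}
    (h : IsClopen W) (i : ι) : IsClopen (slice W i) :=
  h.preimage (Continuous.prodMk_left i)

theorem noPar_prod [Fintype (Cos F)] (h : NoParG Γ X) : NoPar (phi' (X := X) F e) := by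
  intro W hW hne
  have hV : IsClopen (⋃ i ∈ (Finset.univ : Finset (Cos F)), slice W i) :=
    isClopen_biUnion_finset fun i _ => slice_clopen hW i
  have hVne : (⋃ i ∈ (Finset.univ : Finset (Cos F)), slice W i).Nonempty := by
    obtain ⟨⟨x, i⟩, hx⟩ := hne
    exact ⟨x, Set.mem_biUnion (Finset.mem_univ i) hx⟩
  obtain ⟨m, hm0, hadd, hinv, hpos, hfin⟩ := h _ hV hVne
  have hm : InvM (fun _ : Unit => Homeomorph.refl X) m := ⟨hm0, hadd, fun _ _ _ => rfl⟩
  refine ⟨fun W => ∑ i, m (slice W i), ⟨?_, ?_, ?_⟩, ?_, ?_⟩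
  · exact Finset.sum_eq_zero fun i _ => hm0
  · intro U V hU hV hd
    rw [← Finset.sum_add_distrib]
    refine Finset.sum_congr rfl fun i _ => ?_
    exact hadd _ _ (slice_clopen hU i) (slice_clopen hV i) (hd.preimage _)
  · classical
    intro a V hV
    rcases a with a | j
    · refine Finset.sum_congr rfl fun i _ => ?_
      exact hinv ((e.symm (FreeGroup.of a) : F) : Γ) (slice V i) (slice_clopen hV i)
    · exact Equiv.sum_comp (Equiv.swap (base F) j) fun i => m (slice V i)
  · exact ((pos_iff_ne_zero.2 hpos).trans_le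
      (hm.biUnion_le Finset.univ (slice W) fun i => slice_clopen hW i)).ne'
  · refine (ENNReal.sum_lt_top.2 fun i _ => ?_).ne
    refine lt_of_le_of_lt (hm.mono (slice_clopen hW i) hV ?_) (lt_top_iff_ne_top.2 hfin)
    exact fun x hx => Set.mem_biUnion (Finset.mem_univ i) hx

end prod

/-! ### Virtually free groups -/

section main

variable {C : ∀ (G : Type) [Group G], Prop}

/-- **Virtually free groups.** -/
theorem mem_GG_virtFree (hC : ExtClass C) {Γ X : Type} [Group Γ] [TopologicalSpace X]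
    [CompactSpace X] [MulAction Γ X] [ContinuousConstSMul Γ X]
    (hΓ : ∃ (A : Type) (F : Subgroup Γ), F.FiniteIndex ∧ Nonempty (F ≃* FreeGroup A))
    (hm : NoParG Γ X) : C (GG Γ X) := by
  obtain ⟨A, F, hF, ⟨e⟩⟩ := hΓ
  have : Fintype (Cos F) := Fintype.ofFinite _
  have : CompactSpace (Cos F) := Finite.compactSpace
  exact mem_GG_of_free F e hC.toClosedClass (mem_FG_of_noPar hC _ (noPar_prod F e hm))

/-- **Directed colimits of virtually free groups.** -/
theorem mem_GG_colimit_virtFree (hC : ExtClass C) {I : Type} [Preorder I] [IsDirectedOrder I]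
    [Nonempty I] {G : I → Type} [∀ i, Group (G i)] (f : ∀ i j, i ≤ j → G i →* G j)
    {Γ X : Type} [Group Γ] (g : ∀ i, G i →* Γ) [TopologicalSpace X] [CompactSpace X]
    [MulAction Γ X] [ContinuousConstSMul Γ X]
    (hff : ∀ i j k (h : i ≤ j) (h' : j ≤ k) x, f j k h' (f i j h x) = f i k (h.trans h') x)
    (hgf : ∀ i j (h : i ≤ j) x, g j (f i j h x) = g i x) (hsur : ∀ x, ∃ i y, g i y = x)
    (hker : ∀ i y, g i y = 1 → ∃ j, ∃ h : i ≤ j, f i j h y = 1)
    (hG : ∀ i, ∃ (A : Type) (F : Subgroup (G i)), F.FiniteIndex ∧ Nonempty (F ≃* FreeGroup A))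
    (hm : NoParG Γ X) : C (GG Γ X) := by
  refine mem_GG_colimit f g hC.toClosedClass hff hgf hsur hker fun i => ?_
  let _ := viaAct (X := X) g i
  have := viaCont (X := X) g i
  refine mem_GG_virtFree hC (hG i) fun U hU hne => ?_
  obtain ⟨m, h0, h1, h2, h3, h4⟩ := hm U hU hne
  exact ⟨m, h0, h1, fun h V hV => h2 (g i h) V hV, h3, h4⟩

/-- **Directed colimits of virtually cyclic groups**: every action. -/
theorem mem_GG_colimit_virtZ (hC : ExtClass C) {I : Type} [Preorder I] [IsDirectedOrder I]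
    [Nonempty I] {G : I → Type} [∀ i, Group (G i)] (f : ∀ i j, i ≤ j → G i →* G j)
    {Γ X : Type} [Group Γ] (g : ∀ i, G i →* Γ) [TopologicalSpace X] [CompactSpace X]
    [MulAction Γ X] [ContinuousConstSMul Γ X]
    (hff : ∀ i j k (h : i ≤ j) (h' : j ≤ k) x, f j k h' (f i j h x) = f i k (h.trans h') x)
    (hgf : ∀ i j (h : i ≤ j) x, g j (f i j h x) = g i x) (hsur : ∀ x, ∃ i y, g i y = x)
    (hker : ∀ i y, g i y = 1 → ∃ j, ∃ h : i ≤ j, f i j h y = 1)
    (hG : ∀ i, ∃ s : G i, (Subgroup.zpowers s).FiniteIndex) : C (GG Γ X) :=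
  mem_GG_colimit_virtCyclic hC.toClosedClass (fun _ _ _ φ => mem_FG_unit hC φ) f g hff hgf hsur
    hker hG

end main

end Pool.Agent.ZT
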