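import Pool.Agent.ZT.Virt3

/-!
# Virtually cyclic groups
-/

set_option autoImplicit false

namespace Pool.Agent.ZT

open Pool.Agent.Helper29.BA Pool.Agent.T59

/-! ### The homeomorphism of the product with a finite cyclic set -/

section tower

variable {X : Type} [TopologicalSpace X] (s : X ≃ₜ X) {ι : Type} [TopologicalSpace ι]
  [DiscreteTopology ι] (n : ℕ) [NeZero n] (p : ι ≃ Fin n)

/-- The point of the tower at the place `k`. -/
def place (x : X) (k : ℤ) : X × ι :=
  ((s ^ (k / n)) x, p.symm ⟨(k % n).toNat, by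
    have h1 : (0 : ℤ) < n := by exact_mod_cast NeZero.pos n
    have h2 := Int.emod_nonneg k h1.ne'
    have h3 := Int.emod_lt_of_pos k h1
    omega⟩)

theorem place_add_mul (x : X) (k j : ℤ) :
    place s n p x (k + j * n) = place s n p ((s ^ j) x) k := by
  have h1 : (n : ℤ) ≠ 0 := by exact_mod_cast NeZero.ne n
  unfold place
  have h2 : (k + j * n) / n = k / n + j := Int.add_mul_ediv_right k j h1
  have h3 : (k + j * n) % n = k % n := Int.add_mul_emod_self_right k j n
  refine Prod.ext ?_ ?_
  · show (s ^ ((k + j * n) / n)) x = (s ^ (k / n)) ((s ^ j) x)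
    rw [h2, zpow_add]
    rfl
  · show p.symm _ = p.symm _
    simp only [h3]

theorem place_fin (x : X) (i : ι) : place s n p x ((p i : Fin n) : ℕ) = (x, i) := by
  have h1 : (((p i : Fin n) : ℕ) : ℤ) / n = 0 :=
    Int.ediv_eq_zero_of_lt (by positivity) (by exact_mod_cast (p i).2)
  have h2 : (((p i : Fin n) : ℕ) : ℤ) % n = ((p i : Fin n) : ℕ) :=
    Int.emod_eq_of_lt (by positivity) (by exact_mod_cast (p i).2)
  unfold place
  refine Prod.ext ?_ ?_
  · show (s ^ _) x = x
    rw [h1, zpow_zero]
    rfl
  · show p.symm _ = i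
    rw [Equiv.symm_apply_eq]
    apply Fin.ext
    show ((((p i : Fin n) : ℕ) : ℤ) % n).toNat = _
    rw [h2]
    simp

/-- The number of a point. -/
def num (z : X × ι) : ℤ := ((p z.2 : Fin n) : ℕ)

theorem place_place (x : X) (k j : ℤ) :
    place s n p (place s n p x k).1 (num n p (place s n p x k) + j) = place s n p x (k + j) := by
  have h1 : num n p (place s n p x k) = k % n := by
    unfold num place
    have h1 : (0 : ℤ) < n := by exact_mod_cast NeZero.pos n
    have h2 := Int.emod_nonneg k h1.ne'
    show ((p (p.symm _) : Fin n) : ℕ) = k % n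
    rw [Equiv.apply_symm_apply]
    show (((k % n).toNat : ℕ) : ℤ) = k % n
    exact Int.toNat_of_nonneg h2
  rw [h1]
  show place s n p ((s ^ (k / n)) x) (k % n + j) = _
  rw [← place_add_mul]
  congr 1
  have h2 := Int.emod_add_mul_ediv k n
  linarith [mul_comm (k / n) (n : ℤ)]

theorem place_cont (k : ℤ) : Continuous fun x => place s n p x k :=
  Continuous.prodMk (s ^ (k / n)).continuous continuous_const

/-- The shift of the tower. -/
def psiT : (X × ι) ≃ₜ (X × ι) where
  toFun z := place s n p z.1 (num n p z + 1)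
  invFun z := place s n p z.1 (num n p z + (-1))
  left_inv z := by
    show place s n p (place s n p z.1 (num n p z + 1)).1
      (num n p (place s n p z.1 (num n p z + 1)) + (-1)) = z
    rw [place_place, add_neg_cancel_right]
    exact place_fin s n p z.1 z.2
  right_inv z := by
    show place s n p (place s n p z.1 (num n p z + (-1))).1
      (num n p (place s n p z.1 (num n p z + (-1))) + 1) = z
    rw [place_place, neg_add_cancel_right]
    exact place_fin s n p z.1 z.2
  continuous_toFun := continuous_prod_of_discrete_right.2 fun i =>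
    place_cont s n p ((((p i : Fin n) : ℕ) : ℤ) + 1)
  continuous_invFun := continuous_prod_of_discrete_right.2 fun i =>
    place_cont s n p ((((p i : Fin n) : ℕ) : ℤ) + (-1))

theorem psiT_zpow (j : ℤ) (x : X) (k : ℤ) :
    ((psiT s n p) ^ j) (place s n p x k) = place s n p x (k + j) := by
  induction j using Int.induction_on generalizing k with
  | zero => rw [zpow_zero, add_zero]; rfl
  | succ j ih =>
    rw [zpow_add, zpow_one]
    show ((psiT s n p) ^ (j : ℤ)) (psiT s n p (place s n p x k)) = _
    have h1 : psiT s n p (place s n p x k) = place s n p x (k + 1) := place_place s n p x k 1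
    rw [h1, ih]
    congr 1
    ring
  | pred j ih =>
    rw [zpow_sub, zpow_one]
    show ((psiT s n p) ^ (-(j : ℤ))) ((psiT s n p).symm (place s n p x k)) = _
    have h1 : (psiT s n p).symm (place s n p x k) = place s n p x (k + (-1)) :=
      place_place s n p x k (-1)
    rw [h1, ih]
    congr 1
    ring

end tower

/-! ### The embedding -/

section virtZ

variable {Γ X : Type} [Group Γ] [TopologicalSpace X] [MulAction Γ X] [ContinuousConstSMul Γ X]
  (s : Γ) (hs : ∀ n : ℤ, s ^ n = 1 → n = 0)

/-- The exponent. -/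
noncomputable def expo (i : Cos (Subgroup.zpowers s)) (g : Γ) : ℤ :=
  (shiftV (Subgroup.zpowers s) i g).2.choose

theorem expo_spec (i : Cos (Subgroup.zpowers s)) (g : Γ) :
    s ^ expo s i g = shiftV (Subgroup.zpowers s) i g :=
  (shiftV (Subgroup.zpowers s) i g).2.choose_spec

include hs in
theorem expo_mul (i : Cos (Subgroup.zpowers s)) (g g' : Γ) :
    expo s i (g' * g) = expo s (g • i) g' + expo s i g := by
  have h1 := congrArg Subtype.val (shiftV_mul (Subgroup.zpowers s) i g g')
  rw [Subgroup.coe_mul, ← expo_spec, ← expo_spec, ← expo_spec, ← zpow_add] at h1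
  have h2 : s ^ (expo s i (g' * g) - (expo s (g • i) g' + expo s i g)) = 1 := by
    rw [zpow_sub, h1, mul_inv_cancel]
  have h3 := hs _ h2
  omega

/-- The tower of the action. -/
def psiG (n : ℕ) [NeZero n] (p : Cos (Subgroup.zpowers s) ≃ Fin n) (X : Type)
    [TopologicalSpace X] [MulAction Γ X] [ContinuousConstSMul Γ X] :
    (X × Cos (Subgroup.zpowers s)) ≃ₜ (X × Cos (Subgroup.zpowers s)) :=
  psiT (Homeomorph.smul s) n p

theorem smul_zpow (n : ℤ) (x : X) : ((Homeomorph.smul (α := X) s) ^ n) x = s ^ n • x := by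
  induction n using Int.induction_on generalizing x with
  | zero => rw [zpow_zero, zpow_zero, one_smul]; rfl
  | succ n ih =>
    rw [zpow_add, zpow_add, zpow_one, zpow_one, mul_smul, ← ih]
    rfl
  | pred n ih =>
    rw [zpow_sub, zpow_sub, zpow_one, zpow_one, mul_smul, ← ih]
    rfl

/-- The data of the inflation. -/
noncomputable def inflZ (n : ℕ) [NeZero n] (p : Cos (Subgroup.zpowers s) ≃ Fin n) :
    letI := acAct (fun _ : Unit => psiG s n p X)
    Infl Γ X (Cos (Subgroup.zpowers s)) (FreeGroup Unit) :=
  letI := acAct (fun _ : Unit => psiG s n p X)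
  { r := rep _
    κ := fun i g => FreeGroup.of () ^ (expo s i g * n + (((p (g • i) : Fin n) : ℕ) : ℤ) -
      (((p i : Fin n) : ℕ) : ℤ))
    act := fun i g y => by
      show ac _ _ _ = _
      rw [ac_zpow]
      have h1 := psiT_zpow (Homeomorph.smul (α := X) s) n p (expo s i g * n +
        (((p (g • i) : Fin n) : ℕ) : ℤ) - (((p i : Fin n) : ℕ) : ℤ)) y ((p i : Fin n) : ℕ)
      rw [place_fin] at h1
      refine h1.trans ?_
      have h2 : ((((p i : Fin n) : ℕ) : ℤ) + (expo s i g * n +
        (((p (g • i) : Fin n) : ℕ) : ℤ) - (((p i : Fin n) : ℕ) : ℤ))) =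
        (((p (g • i) : Fin n) : ℕ) : ℤ) + expo s i g * n := by ring
      rw [h2, place_add_mul, place_fin, smul_zpow, expo_spec]
      show (((rep _ (g • i))⁻¹ * (g * rep _ i)) • y, g • i) = _
      rw [mul_smul, mul_smul]
    mul := fun i g g' => by
      rw [← zpow_add, expo_mul s hs, mul_smul]
      congr 1
      ring
    inj := fun i g h => by
      have h1 : expo s i g * n + (((p (g • i) : Fin n) : ℕ) : ℤ) -
          (((p i : Fin n) : ℕ) : ℤ) = 0 := by
        have h2 := congrArg (fun z => Multiplicative.toAdd (ex z)) h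
        have h3 : ex (FreeGroup.of ()) = Multiplicative.ofAdd 1 := FreeGroup.lift_apply_of
        simpa [map_zpow, h3] using h2
      have hn : (0 : ℤ) < n := by exact_mod_cast NeZero.pos n
      have h4 : expo s i g = 0 := by
        have h5 : (((p (g • i) : Fin n) : ℕ) : ℤ) < n := by exact_mod_cast (p (g • i)).2
        have h6 : (((p i : Fin n) : ℕ) : ℤ) < n := by exact_mod_cast (p i).2
        by_contra hne
        rcases lt_or_gt_of_ne hne with h7 | h7
        · nlinarith
        · nlinarith
      rw [h4, zero_mul, zero_add, sub_eq_zero] at h1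
      have h5 : g • i = i := p.injective (Fin.ext (by exact_mod_cast h1))
      have h6 := expo_spec s i g
      rw [h4, zpow_zero] at h6
      have h7 : (rep (Subgroup.zpowers s) (g • i))⁻¹ * (g * rep (Subgroup.zpowers s) i) = 1 :=
        h6.symm
      rw [h5, inv_mul_eq_one] at h7
      exact (mul_eq_right.1 h7.symm) }

include hs in
/-- **Virtually infinite cyclic groups.** -/
theorem mem_GG_of_zpowers {C : ∀ (G : Type) [Group G], Prop} (hC : ClosedClass C)
    (hZ : ∀ (X : Type) [TopologicalSpace X] [CompactSpace X] (φ : X ≃ₜ X),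
      C (FG (fun _ : Unit => φ)))
    [CompactSpace X] [(Subgroup.zpowers s).FiniteIndex] : C (GG Γ X) := by
  have : Finite (Cos (Subgroup.zpowers s)) := inferInstance
  have : CompactSpace (Cos (Subgroup.zpowers s)) := Finite.compactSpace
  obtain ⟨n, ⟨p⟩⟩ := Finite.exists_equiv_fin (Cos (Subgroup.zpowers s))
  have : NeZero n := ⟨by
    rintro rfl
    exact (p (base _)).elim0⟩
  letI := acAct (fun _ : Unit => psiG s n p X)
  haveI := acCont (fun _ : Unit => psiG s n p X)
  refine (inflZ (X := X) s hs n p).mem hC ?_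
  exact hZ _ _

end virtZ

/-! ### Injective homomorphisms of the acting groups -/

section inj

variable {G H X : Type} [Group G] [Group H] [TopologicalSpace X] [MulAction G X]
  [ContinuousConstSMul G X] [MulAction H X] [ContinuousConstSMul H X]

theorem pushG_injective (f : G →* H) (hf : ∀ g (x : X), f g • x = g • x)
    (hi : Function.Injective f) : Function.Injective (pushG f hf) := by
  rw [injective_iff_map_eq_one]
  intro q hq
  refine GG_ext fun x => hi ?_
  have h1 : (push f hf q (x, 1)).2 = 1 := by
    have h3 : push f hf q = 1 := congrArg Subtype.val hq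
    rw [h3]
    rfl
  rw [push_snd] at h1
  rw [h1]
  exact (map_one f).symm

/-- The full group of the action of a subgroup. -/
theorem mem_GG_of_injective {C : ∀ (G : Type) [Group G], Prop} (hC : ClosedClass C) (f : G →* H)
    (hf : ∀ g (x : X), f g • x = g • x) (hi : Function.Injective f) (h : C (GG H X)) :
    C (GG G X) :=
  hC.inj (pushG f hf) (pushG_injective f hf hi) h

end inj

section cyc

variable {C : ∀ (G : Type) [Group G], Prop} {Γ X : Type} [Group Γ] [TopologicalSpace X]
  [MulAction Γ X] [ContinuousConstSMul Γ X]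

/-- **Virtually cyclic groups**: every action. -/
theorem mem_GG_virtCyclic (hC : ClosedClass C)
    (hZ : ∀ (X : Type) [TopologicalSpace X] [CompactSpace X] (φ : X ≃ₜ X),
      C (FG (fun _ : Unit => φ)))
    [CompactSpace X] (hΓ : ∃ s : Γ, (Subgroup.zpowers s).FiniteIndex) : C (GG Γ X) := by
  obtain ⟨s, hs⟩ := hΓ
  by_cases h : ∀ n : ℤ, s ^ n = 1 → n = 0
  · exact mem_GG_of_zpowers s h hC hZ
  · -- the group is finite
    push Not at h
    obtain ⟨n, hn, hn0⟩ := h
    have h1 : IsOfFinOrder s := isOfFinOrder_iff_zpow_eq_one.2 ⟨n, hn0, hn⟩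
    have h2 : Finite (Subgroup.zpowers s) := finite_zpowers.2 h1
    have h3 : Finite Γ := by
      have h4 : Finite (Γ ⧸ Subgroup.zpowers s) := inferInstance
      exact Finite.of_equiv _ (Subgroup.groupEquivQuotientProdSubgroup
        (s := Subgroup.zpowers s)).symm
    let act : MulAction (Γ × Multiplicative ℤ) X :=
      MulAction.compHom X (MonoidHom.fst Γ (Multiplicative ℤ))
    have cont : @ContinuousConstSMul (Γ × Multiplicative ℤ) X _ act.toSMul :=
      @ContinuousConstSMul.mk _ _ _ act.toSMul fun h => continuous_const_smul h.1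
    let s' : Γ × Multiplicative ℤ := (1, Multiplicative.ofAdd 1)
    have h4 : ∀ n : ℤ, s' ^ n = 1 → n = 0 := by
      intro n hn
      have h5 := congrArg Prod.snd hn
      have h6 : (Multiplicative.ofAdd (1 : ℤ)) ^ n = 1 := h5
      rw [← ofAdd_zsmul] at h6
      have h7 : n • (1 : ℤ) = 0 := h6
      simpa using h7
    have h5 : (Subgroup.zpowers s').FiniteIndex := by
      have h6 : Subgroup.zpowers s' = (MonoidHom.fst Γ (Multiplicative ℤ)).ker := by
        ext ⟨g, m⟩
        rw [Subgroup.mem_zpowers_iff, MonoidHom.mem_ker]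
        constructor
        · rintro ⟨k, hk⟩
          have h7 := congrArg Prod.fst hk
          have h8 : (1 : Γ) ^ k = g := h7
          rw [one_zpow] at h8
          exact h8.symm
        · intro h7
          refine ⟨Multiplicative.toAdd m, Prod.ext ?_ ?_⟩
          · refine (map_zpow (MonoidHom.fst Γ (Multiplicative ℤ)) s' _).trans ?_
            show (1 : Γ) ^ _ = g
            rw [one_zpow]
            exact h7.symm
          · refine (map_zpow (MonoidHom.snd Γ (Multiplicative ℤ)) s' _).trans ?_
            show (Multiplicative.ofAdd (1 : ℤ)) ^ (Multiplicative.toAdd m) = m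
            rw [← ofAdd_zsmul]
            simp
      rw [h6]
      exact Subgroup.finiteIndex_ker _
    refine mem_GG_of_injective hC (MonoidHom.inl Γ (Multiplicative ℤ)) (fun g x => rfl)
      (fun a b hab => congrArg Prod.fst hab) ?_
    exact mem_GG_of_zpowers s' h4 hC hZ

/-- **Directed colimits of virtually cyclic groups**: every action. -/
theorem mem_GG_colimit_virtCyclic (hC : ClosedClass C)
    (hZ : ∀ (X : Type) [TopologicalSpace X] [CompactSpace X] (φ : X ≃ₜ X),
      C (FG (fun _ : Unit => φ)))
    {I : Type} [Preorder I] [IsDirectedOrder I] [Nonempty I] {G : I → Type}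
    [∀ i, Group (G i)] (f : ∀ i j, i ≤ j → G i →* G j) (g : ∀ i, G i →* Γ) [CompactSpace X]
    (hff : ∀ i j k (h : i ≤ j) (h' : j ≤ k) x, f j k h' (f i j h x) = f i k (h.trans h') x)
    (hgf : ∀ i j (h : i ≤ j) x, g j (f i j h x) = g i x) (hsur : ∀ x, ∃ i y, g i y = x)
    (hker : ∀ i y, g i y = 1 → ∃ j, ∃ h : i ≤ j, f i j h y = 1)
    (hG : ∀ i, ∃ s : G i, (Subgroup.zpowers s).FiniteIndex) : C (GG Γ X) := by
  refine mem_GG_colimit f g hC hff hgf hsur hker fun i => ?_
  letI := viaAct (X := X) g i
  haveI := viaCont (X := X) g i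
  exact mem_GG_virtCyclic hC hZ (hG i)

end cyc

/-! ### Topologically free actions -/

section topfree

variable (Γ X : Type) [Group Γ] [TopologicalSpace X] [MulAction Γ X] [ContinuousConstSMul Γ X]

/-- Topologically free actions. -/
def TopFreeG : Prop := Dense {x : X | ∀ g : Γ, g • x = x → g = 1}

variable {Γ X}

theorem coc_unique (h : TopFreeG Γ X) {c d : X → Γ} (hc : IsLocallyConstant c)
    (hd : IsLocallyConstant d) (hcd : ∀ x, c x • x = d x • x) : c = d := by
  by_contra hne
  obtain ⟨x, hx⟩ := Function.ne_iff.1 hne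
  have h1 : IsOpen {y | c y ≠ d y} := by
    have h2 : IsLocallyConstant fun y => (c y, d y) := hc.prodMk hd
    exact h2 {z | z.1 ≠ z.2}
  obtain ⟨y, hy, hy'⟩ := h.inter_open_nonempty _ h1 ⟨x, hx⟩
  apply hy
  have h3 : (d y)⁻¹ * c y = 1 := hy' _ (by rw [mul_smul, hcd, inv_smul_smul])
  exact (inv_mul_eq_one.1 h3).symm

/-- The cocycle of an element of the topological full group. -/
noncomputable def cocT (h : TG Γ X) : X → Γ := h.2.choose

theorem cocT_lc (h : TG Γ X) : IsLocallyConstant (cocT h) := h.2.choose_spec.1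

theorem cocT_smul (h : TG Γ X) (x : X) : h.1 x = cocT h x • x := h.2.choose_spec.2 x

theorem cocT_mul (hf : TopFreeG Γ X) (a b : TG Γ X) (x : X) :
    cocT (a * b) x = cocT a (cocT b x • x) * cocT b x := by
  have h1 : cocT (a * b) = fun x => cocT a (b.1 x) * cocT b x := by
    refine coc_unique hf (cocT_lc _)
      (((cocT_lc a).comp_continuous b.1.continuous).mul (cocT_lc b)) fun x => ?_
    rw [← cocT_smul, mul_smul, ← cocT_smul b, ← cocT_smul a]
    rfl
  rw [h1]
  show cocT a (b.1 x) * _ = _
  rw [cocT_smul b]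

/-- The embedding. -/
noncomputable def tgHom (hf : TopFreeG Γ X) : TG Γ X →* Equiv.Perm (X × Γ) :=
  MonoidHom.toHomPerm
    { toFun := fun h p => (p.1, cocT h (p.2 • p.1) * p.2)
      map_one' := by
        funext p
        have h1 : cocT (1 : TG Γ X) = fun _ => 1 :=
          coc_unique hf (cocT_lc _) (IsLocallyConstant.const 1) fun x => by
            rw [← cocT_smul, one_smul]
            rfl
        show (p.1, cocT (1 : TG Γ X) (p.2 • p.1) * p.2) = p
        rw [h1, one_mul]
      map_mul' := fun a b => by
        funext p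
        show (p.1, cocT (a * b) (p.2 • p.1) * p.2) =
          (p.1, cocT a ((cocT b (p.2 • p.1) * p.2) • p.1) * (cocT b (p.2 • p.1) * p.2))
        rw [cocT_mul hf, mul_smul, mul_assoc] }

/-- **Topologically free actions**. -/
theorem mem_TG {C : ∀ (G : Type) [Group G], Prop} (hC : ClosedClass C) (hf : TopFreeG Γ X)
    (h : C (GG Γ X)) : C (TG Γ X) := by
  refine hC.inj ((tgHom hf).codRestrict (GG Γ X) fun a => ⟨cocT a, cocT_lc a, fun _ _ => rfl⟩)
    ?_ h
  rw [injective_iff_map_eq_one]
  intro a ha
  apply Subtype.ext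
  apply Homeomorph.ext
  intro x
  have h1 : tgHom hf a = 1 := congrArg Subtype.val ha
  have h2 : tgHom hf a (x, 1) = (x, 1) := by rw [h1]; rfl
  have h3 : cocT a ((1 : Γ) • x) * 1 = 1 := congrArg Prod.snd h2
  rw [one_smul, mul_one] at h3
  rw [cocT_smul, h3, one_smul]
  rfl

end topfree

end Pool.Agent.ZT
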